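import Mathlib

/-!
# Combinatorial planar maps (genus 0) and their cohomology
-/

set_option linter.unusedSimpArgs false
set_option linter.unusedVariables false
set_option linter.unusedSectionVars false
set_option linter.style.longLine false

noncomputable section

namespace P8ffccf

open Classical Finset Module

/-- A connected combinatorial map of genus zero: `D` is the set of darts (oriented edges), `rev`
reverses a dart, `nxt` goes to the next dart along the face on the left, `vt` is the start vertex
and `fc` the face on the left. -/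
structure PMap (V F D : Type) [Fintype V] [Fintype F] [Fintype D] where
  rev : D → D
  nxt : Equiv.Perm D
  vt : D → V
  fc : D → F
  rev_rev : ∀ d, rev (rev d) = d
  rev_ne : ∀ d, rev d ≠ d
  fc_nxt : ∀ d, fc (nxt d) = fc d
  vt_nxt : ∀ d, vt (nxt d) = vt (rev d)
  fc_trans : ∀ d d', fc d = fc d' → ∃ k : ℕ, (nxt^[k]) d = d'
  vt_trans : ∀ d d', vt d = vt d' → ∃ k : ℕ, ((fun x => nxt (rev x))^[k]) d = d'
  vt_surj : Function.Surjective vt
  fc_surj : Function.Surjective fc
  conn : ∀ S : Set V, S.Nonempty → (∀ d, vt d ∈ S → vt (rev d) ∈ S) → S = Set.univ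
  euler : 2 * (Fintype.card V + Fintype.card F) = Fintype.card D + 4

variable {V F D : Type} [Fintype V] [Fintype F] [Fintype D]

namespace PMap

variable (M : PMap V F D)

/-- `rev` as a permutation. -/
def revE : Equiv.Perm D := ⟨M.rev, M.rev, M.rev_rev, M.rev_rev⟩

@[simp] lemma revE_apply (d : D) : M.revE d = M.rev d := rfl

lemma rev_inj {d d' : D} (h : M.rev d = M.rev d') : d = d' := by
  rw [← M.rev_rev d, h, M.rev_rev]

/-- Rotation about the start vertex. -/
def rot : Equiv.Perm D := M.revE.trans M.nxt

@[simp] lemma rot_apply (d : D) : M.rot d = M.nxt (M.rev d) := rfl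

lemma vt_rot (d : D) : M.vt (M.rot d) = M.vt d := by
  rw [rot_apply, M.vt_nxt, M.rev_rev]

lemma fc_conn (S : Set F) (hS : S.Nonempty) (h : ∀ d, M.fc d ∈ S → M.fc (M.rev d) ∈ S) :
    S = Set.univ := by
  have hrot : ∀ d, M.fc d ∈ S → M.fc (M.rot d) ∈ S := by
    intro d hd
    rw [rot_apply, M.fc_nxt]
    exact h d hd
  have hv : ∀ d d', M.vt d = M.vt d' → M.fc d ∈ S → M.fc d' ∈ S := by
    intro d d' hdd hd
    obtain ⟨k, hk⟩ := M.vt_trans d d' hdd
    rw [← hk]
    clear hk
    induction k with
    | zero => exact hd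
    | succ k ih =>
      rw [Function.iterate_succ_apply']
      exact hrot _ ih
  have hT := M.conn {v | ∃ d, M.vt d = v ∧ M.fc d ∈ S} ?_ ?_
  · ext f
    simp only [Set.mem_univ, iff_true]
    obtain ⟨d, rfl⟩ := M.fc_surj f
    have : M.vt d ∈ {v | ∃ d, M.vt d = v ∧ M.fc d ∈ S} := by rw [hT]; trivial
    obtain ⟨d', h1, h2⟩ := this
    exact hv d' d h1 h2
  · obtain ⟨f, hf⟩ := hS
    obtain ⟨d, rfl⟩ := M.fc_surj f
    exact ⟨M.vt d, d, rfl, hf⟩
  · rintro d ⟨d', h1, h2⟩
    refine ⟨M.rev d, rfl, h d (hv d' d h1 h2)⟩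

/-- The dual map. -/
def dual : PMap F V D where
  rev := M.rev
  nxt := M.rot
  vt := M.fc
  fc := M.vt
  rev_rev := M.rev_rev
  rev_ne := M.rev_ne
  fc_nxt := M.vt_rot
  vt_nxt := fun d => by rw [rot_apply, M.fc_nxt]
  fc_trans := M.vt_trans
  vt_trans := fun d d' h => by
    obtain ⟨k, hk⟩ := M.fc_trans d d' h
    refine ⟨k, ?_⟩
    rw [← hk]
    congr 1
    ext x
    simp [M.rev_rev]
  vt_surj := M.fc_surj
  fc_surj := M.vt_surj
  conn := M.fc_conn
  euler := by rw [add_comm]; exact M.euler

/-- Any dart-invariant predicate is constant. -/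
lemma dart_const {α : Type*} (g : D → α) (h1 : ∀ d, g (M.nxt d) = g d)
    (h2 : ∀ d, g (M.rev d) = g d) (d d' : D) : g d = g d' := by
  have hf : ∀ x y, M.fc x = M.fc y → g x = g y := by
    intro x y hxy
    obtain ⟨k, hk⟩ := M.fc_trans x y hxy
    rw [← hk]
    clear hk
    induction k with
    | zero => rfl
    | succ k ih =>
      rw [Function.iterate_succ_apply', h1]
      exact ih
  have hS := M.fc_conn {f | ∃ x, M.fc x = f ∧ g x = g d} ⟨M.fc d, d, rfl, rfl⟩ (by
    rintro x ⟨y, hy, hy'⟩
    exact ⟨M.rev x, rfl, by rw [h2, ← hf y x hy, hy']⟩)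
  have : M.fc d' ∈ {f | ∃ x, M.fc x = f ∧ g x = g d} := by rw [hS]; trivial
  obtain ⟨x, hx, hx'⟩ := this
  rw [← hx', hf x d' hx]

lemma face_inv {α : Type*} (g : D → α) (h1 : ∀ d, g (M.nxt d) = g d) {d d' : D}
    (h : M.fc d = M.fc d') : g d = g d' := by
  obtain ⟨k, hk⟩ := M.fc_trans d d' h
  rw [← hk]
  clear hk
  induction k with
  | zero => rfl
  | succ k ih => rw [Function.iterate_succ_apply', h1]; exact ih

lemma vert_inv {α : Type*} (g : D → α) (h1 : ∀ d, g (M.nxt (M.rev d)) = g d) {d d' : D}
    (h : M.vt d = M.vt d') : g d = g d' := M.dual.face_inv g h1 h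

include M in
lemma nonempty_D : Nonempty D := by
  by_contra h
  rw [not_nonempty_iff] at h
  have h1 : Fintype.card D = 0 := Fintype.card_eq_zero
  have h2 := M.euler
  have h3 : IsEmpty V := ⟨fun v => by obtain ⟨d, _⟩ := M.vt_surj v; exact h.false d⟩
  have h4 : IsEmpty F := ⟨fun v => by obtain ⟨d, _⟩ := M.fc_surj v; exact h.false d⟩
  have h5 : Fintype.card V = 0 := Fintype.card_eq_zero
  have h6 : Fintype.card F = 0 := Fintype.card_eq_zero
  omega

/-! ### reindexing sums -/

lemma sum_nxt {β : Type*} [AddCommMonoid β] (f : F) (g : D → β) :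
    ∑ d with M.fc d = f, g (M.nxt d) = ∑ d with M.fc d = f, g d := by
  rw [Finset.sum_filter, Finset.sum_filter]
  rw [← Equiv.sum_comp M.nxt (fun d => if M.fc d = f then g d else 0)]
  apply Finset.sum_congr rfl
  intro d _
  rw [M.fc_nxt]

lemma sum_rot {β : Type*} [AddCommMonoid β] (v : V) (g : D → β) :
    ∑ d with M.vt d = v, g (M.nxt (M.rev d)) = ∑ d with M.vt d = v, g d :=
  M.dual.sum_nxt v g

lemma sum_rev {β : Type*} [AddCommMonoid β] (g : D → β) : ∑ d, g (M.rev d) = ∑ d, g d :=
  Equiv.sum_comp M.revE g

lemma sum_nxt_univ {β : Type*} [AddCommMonoid β] (g : D → β) :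
    ∑ d, g (M.nxt d) = ∑ d, g d :=
  Equiv.sum_comp M.nxt g

end PMap

/-! ### Connected incidence: rank of the coboundary -/

section Rank

variable {K : Type*} [Field K]

/-- The difference operator. -/
def diffMap (K : Type*) [Field K] {X E : Type*} (a b : E → X) : (X → K) →ₗ[K] (E → K) where
  toFun g := fun e => g (a e) - g (b e)
  map_add' g h := by ext e; simp; ring
  map_smul' c g := by ext e; simp; ring

@[simp] lemma diffMap_apply {X E : Type*} (a b : E → X) (g : X → K) (e : E) :
    diffMap K a b g e = g (a e) - g (b e) := rfl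

lemma finrank_ker_diffMap {X E : Type*} [Fintype X] [Fintype E] [Nonempty X] (a b : E → X)
    (hconn : ∀ S : Set X, S.Nonempty → (∀ e, a e ∈ S ↔ b e ∈ S) → S = Set.univ) :
    finrank K (LinearMap.ker (diffMap K a b)) = 1 := by
  have h : LinearMap.ker (diffMap K a b) = Submodule.span K {(fun _ => (1 : K) : X → K)} := by
    ext g
    rw [LinearMap.mem_ker, Submodule.mem_span_singleton]
    constructor
    · intro hg
      obtain ⟨x0⟩ := (inferInstance : Nonempty X)
      have hS := hconn {x | g x = g x0} ⟨x0, rfl⟩ (by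
        intro e
        have := congrFun hg e
        simp only [diffMap_apply, Pi.zero_apply, sub_eq_zero] at this
        simp only [Set.mem_ofPred_eq]
        rw [this])
      refine ⟨g x0, ?_⟩
      ext x
      have : x ∈ {x | g x = g x0} := by rw [hS]; trivial
      have h' : g x = g x0 := this
      simp [h']
    · rintro ⟨c, rfl⟩
      ext e
      simp
  rw [h, finrank_span_singleton]
  intro h0
  obtain ⟨x0⟩ := (inferInstance : Nonempty X)
  exact one_ne_zero (congrFun h0 x0)

lemma finrank_range_diffMap {X E : Type*} [Fintype X] [Fintype E] [Nonempty X] (a b : E → X)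
    (hconn : ∀ S : Set X, S.Nonempty → (∀ e, a e ∈ S ↔ b e ∈ S) → S = Set.univ) :
    finrank K (LinearMap.range (diffMap K a b)) + 1 = Fintype.card X := by
  have h := LinearMap.finrank_range_add_finrank_ker (diffMap K a b)
  rw [finrank_ker_diffMap a b hconn, Module.finrank_fintype_fun_eq_card] at h
  exact h

/-- The boundary operator (transpose of `diffMap`). -/
def bdMap (K : Type*) [Field K] {X E : Type*} [Fintype E] (a b : E → X) :
    (E → K) →ₗ[K] (X → K) where
  toFun ω := fun x => (∑ e with a e = x, ω e) - ∑ e with b e = x, ω e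
  map_add' g h := by ext e; simp [Finset.sum_add_distrib]; ring
  map_smul' c g := by ext e; simp [← Finset.mul_sum]; ring

lemma finrank_range_bdMap {X E : Type*} [Fintype X] [Fintype E] (a b : E → X) :
    finrank K (LinearMap.range (bdMap K a b)) = finrank K (LinearMap.range (diffMap K a b)) := by
  let A : Matrix X E K := Matrix.of fun x e =>
    (if a e = x then (1 : K) else 0) - (if b e = x then 1 else 0)
  have h1 : bdMap K a b = A.mulVecLin := by
    apply LinearMap.ext
    intro ω
    funext x
    simp only [bdMap, LinearMap.coe_mk, AddHom.coe_mk, Matrix.mulVecLin_apply, Matrix.mulVec,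
      dotProduct, A, Matrix.of_apply, sub_mul, Finset.sum_sub_distrib, ite_mul, one_mul, zero_mul,
      Finset.sum_filter]
  have h2 : diffMap K a b = A.transpose.mulVecLin := by
    apply LinearMap.ext
    intro g
    funext e
    simp only [diffMap_apply, Matrix.mulVecLin_apply, Matrix.mulVec,
      dotProduct, A, Matrix.transpose_apply, Matrix.of_apply, sub_mul, Finset.sum_sub_distrib,
      ite_mul, one_mul, zero_mul, Finset.sum_ite_eq, Finset.mem_univ, if_true]
  have e1 : finrank K (LinearMap.range A.mulVecLin) = A.rank := rfl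
  have e2 : finrank K (LinearMap.range A.transpose.mulVecLin) = A.transpose.rank := rfl
  rw [h1, h2, e1, e2, Matrix.rank_transpose]

end Rank

/-! ### Sections of the edge set -/

namespace PMap

variable (M : PMap V F D)

/-- An arbitrary orientation of the edges: a set of darts containing exactly one dart of each
edge. -/
def Pos (d : D) : Prop := Fintype.equivFin D d < Fintype.equivFin D (M.rev d)

lemma pos_or (d : D) : M.Pos d ∨ M.Pos (M.rev d) := by
  unfold Pos
  rw [M.rev_rev]
  rcases lt_trichotomy (Fintype.equivFin D d) (Fintype.equivFin D (M.rev d)) with h | h | h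
  · exact Or.inl h
  · exact absurd ((Fintype.equivFin D).injective h).symm (M.rev_ne d)
  · exact Or.inr h

lemma not_pos_rev {d : D} (h : M.Pos d) : ¬ M.Pos (M.rev d) := by
  unfold Pos at *
  rw [M.rev_rev]
  exact not_lt_of_gt h

/-- The type of (oriented) edges. -/
abbrev Edge : Type := {d : D // M.Pos d}

lemma sum_edge {β : Type*} [AddCommMonoid β] (g : D → β) :
    ∑ d, g d = ∑ e : M.Edge, (g e.1 + g (M.rev e.1)) := by
  have h1 : ∑ d, g d = ∑ d with M.Pos d, g d + ∑ d with ¬ M.Pos d, g d :=
    (Finset.sum_filter_add_sum_filter_not univ (fun d => M.Pos d) g).symm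
  have h2 : ∑ d with ¬ M.Pos d, g d = ∑ d with M.Pos d, g (M.rev d) := by
    apply Finset.sum_bij' (fun d _ => M.rev d) (fun d _ => M.rev d)
    · intro d hd
      simp only [Finset.mem_filter, Finset.mem_univ, true_and] at hd ⊢
      exact (M.pos_or d).resolve_left hd
    · intro d hd
      simp only [Finset.mem_filter, Finset.mem_univ, true_and] at hd ⊢
      exact M.not_pos_rev hd
    · intro d _; exact M.rev_rev d
    · intro d _; exact M.rev_rev d
    · intro d _; rw [M.rev_rev]
  rw [h1, h2, ← Finset.sum_add_distrib]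
  rw [Finset.sum_subtype (univ.filter fun d => M.Pos d) (p := fun d => M.Pos d) (by simp)]

lemma card_edge : Fintype.card D = 2 * Fintype.card M.Edge := by
  have := M.sum_edge (fun _ => (1 : ℕ))
  simp only [Finset.sum_const, Finset.card_univ, smul_eq_mul, mul_one] at this
  rw [this]
  ring

lemma card_vf : Fintype.card V + Fintype.card F = Fintype.card M.Edge + 2 := by
  have h1 := M.euler
  have h2 := M.card_edge
  omega

variable {K : Type*} [Field K]

/-- **Exactness**: an antisymmetric function on darts with vanishing face sums is a coboundary. -/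
theorem exact (ω : D → K) (hanti : ∀ d, ω (M.rev d) = - ω d)
    (hface : ∀ f, ∑ d with M.fc d = f, ω d = 0) :
    ∃ p : V → K, ∀ d, ω d = p (M.vt (M.rev d)) - p (M.vt d) := by
  obtain ⟨d0⟩ := M.nonempty_D
  have : Nonempty V := ⟨M.vt d0⟩
  have : Nonempty F := ⟨M.fc d0⟩
  -- coboundary
  let δ := diffMap K (fun e : M.Edge => M.vt (M.rev e.1)) (fun e : M.Edge => M.vt e.1)
  let B := bdMap K (fun e : M.Edge => M.fc e.1) (fun e : M.Edge => M.fc (M.rev e.1))
  have hδ : finrank K (LinearMap.range δ) + 1 = Fintype.card V := by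
    apply finrank_range_diffMap
    intro S hS h
    apply M.conn S hS
    intro d hd
    rcases M.pos_or d with hp | hp
    · exact (h ⟨d, hp⟩).mpr hd
    · have := (h ⟨M.rev d, hp⟩).mp
      simp only [M.rev_rev] at this
      exact this hd
  have hB : finrank K (LinearMap.range B) + 1 = Fintype.card F := by
    rw [finrank_range_bdMap]
    apply finrank_range_diffMap
    intro S hS h
    apply M.fc_conn S hS
    intro d hd
    rcases M.pos_or d with hp | hp
    · exact (h ⟨d, hp⟩).mp hd
    · have := (h ⟨M.rev d, hp⟩).mpr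
      simp only [M.rev_rev] at this
      exact this hd
  have hker : finrank K (LinearMap.range B) + finrank K (LinearMap.ker B) =
      Fintype.card M.Edge := by
    rw [LinearMap.finrank_range_add_finrank_ker, Module.finrank_fintype_fun_eq_card]
  -- boundary of an antisymmetric function is the face sum
  have hBω : ∀ η : D → K, (∀ d, η (M.rev d) = - η d) → ∀ f,
      B (fun e => η e.1) f = ∑ d with M.fc d = f, η d := by
    intro η hη f
    have : ∑ d with M.fc d = f, η d = ∑ d, if M.fc d = f then η d else 0 := by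
      rw [Finset.sum_filter]
    rw [this, M.sum_edge]
    simp only [B, bdMap, LinearMap.coe_mk, AddHom.coe_mk, Finset.sum_filter, hη,
      Finset.sum_add_distrib]
    rw [sub_eq_add_neg, ← Finset.sum_neg_distrib]
    congr 1
    apply Finset.sum_congr rfl
    intro e _
    split_ifs <;> simp
  have hle : LinearMap.range δ ≤ LinearMap.ker B := by
    rintro _ ⟨p, rfl⟩
    rw [LinearMap.mem_ker]
    ext f
    have := hBω (fun d => p (M.vt (M.rev d)) - p (M.vt d)) (by
      intro d; simp only [M.rev_rev]; ring) f
    have e : δ p = fun e => (fun d => p (M.vt (M.rev d)) - p (M.vt d)) e.1 := rfl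
    rw [e, this, Finset.sum_sub_distrib]
    have := M.sum_nxt f (fun d => p (M.vt d))
    simp only [M.vt_nxt] at this
    rw [this]
    simp
  have hcard := M.card_vf
  have heq : LinearMap.range δ = LinearMap.ker B := by
    apply Submodule.eq_of_le_of_finrank_eq hle
    omega
  have hω : (fun e : M.Edge => ω e.1) ∈ LinearMap.ker B := by
    rw [LinearMap.mem_ker]
    ext f
    rw [hBω ω hanti f, hface f]
    rfl
  rw [← heq] at hω
  obtain ⟨p, hp⟩ := hω
  refine ⟨p, fun d => ?_⟩
  rcases M.pos_or d with h | h
  · have := congrFun hp ⟨d, h⟩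
    exact this.symm
  · have := congrFun hp ⟨M.rev d, h⟩
    simp only [δ, diffMap_apply, M.rev_rev, hanti] at this
    linear_combination this

/-- Dual exactness. -/
theorem exact' (ω : D → K) (hanti : ∀ d, ω (M.rev d) = - ω d)
    (hvert : ∀ v, ∑ d with M.vt d = v, ω d = 0) :
    ∃ g : F → K, ∀ d, ω d = g (M.fc (M.rev d)) - g (M.fc d) :=
  M.dual.exact ω hanti hvert

/-- Summation along face orbits. -/
theorem orbit_sum (α : D → K) (h : ∀ f, ∑ d with M.fc d = f, α d = 0) :
    ∃ τ : D → K, ∀ d, τ (M.nxt d) - τ d = α d := by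
  let T := diffMap K (fun d : D => M.nxt d) (fun d : D => d)
  let S : (D → K) →ₗ[K] (F → K) :=
    { toFun := fun α f => ∑ d with M.fc d = f, α d
      map_add' := by intro a b; ext f; simp [Finset.sum_add_distrib]
      map_smul' := by intro a b; ext f; simp [Finset.mul_sum] }
  have hSsurj : Function.Surjective S := by
    intro g
    choose s hs using M.fc_surj
    refine ⟨fun d => if s (M.fc d) = d then g (M.fc d) else 0, ?_⟩
    ext f
    show ∑ d with M.fc d = f, (if s (M.fc d) = d then g (M.fc d) else 0) = g f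
    rw [Finset.sum_eq_single (s f)]
    · rw [hs]; simp
    · intro d hd hne
      simp only [Finset.mem_filter, Finset.mem_univ, true_and] at hd
      rw [hd, if_neg]
      exact fun h => hne h.symm
    · intro hn
      exact absurd (by simp [hs]) hn
  have hS : finrank K (LinearMap.range S) = Fintype.card F := by
    rw [LinearMap.range_eq_top.mpr hSsurj, finrank_top, Module.finrank_fintype_fun_eq_card]
  have hT : finrank K (LinearMap.ker T) = Fintype.card F := by
    let c : (F → K) →ₗ[K] (D → K) :=
      { toFun := fun g d => g (M.fc d)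
        map_add' := by intro a b; rfl
        map_smul' := by intro a b; rfl }
    have hc : Function.Injective c := by
      intro g g' hgg
      ext f
      obtain ⟨d, rfl⟩ := M.fc_surj f
      exact congrFun hgg d
    have hr : LinearMap.range c = LinearMap.ker T := by
      ext τ
      constructor
      · rintro ⟨g, rfl⟩
        rw [LinearMap.mem_ker]
        ext d
        simp [T, c, M.fc_nxt]
      · intro hτ
        rw [LinearMap.mem_ker] at hτ
        have h1 : ∀ d, τ (M.nxt d) = τ d := by
          intro d
          have := congrFun hτ d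
          simpa [T, sub_eq_zero] using this
        choose s hs using M.fc_surj
        refine ⟨fun f => τ (s f), ?_⟩
        ext d
        exact M.face_inv τ h1 (by rw [hs])
    rw [← hr, LinearMap.finrank_range_of_inj hc, Module.finrank_fintype_fun_eq_card]
  have h1 := LinearMap.finrank_range_add_finrank_ker T
  have h2 := LinearMap.finrank_range_add_finrank_ker S
  rw [Module.finrank_fintype_fun_eq_card] at h1 h2
  have hle : LinearMap.range T ≤ LinearMap.ker S := by
    rintro _ ⟨τ, rfl⟩
    rw [LinearMap.mem_ker]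
    ext f
    show ∑ d with M.fc d = f, (τ (M.nxt d) - τ d) = 0
    rw [Finset.sum_sub_distrib, M.sum_nxt, sub_self]
  have heq : LinearMap.range T = LinearMap.ker S := by
    apply Submodule.eq_of_le_of_finrank_eq hle
    omega
  have hα : α ∈ LinearMap.ker S := by
    rw [LinearMap.mem_ker]
    ext f
    exact h f
  rw [← heq] at hα
  obtain ⟨τ, hτ⟩ := hα
  exact ⟨τ, fun d => congrFun hτ d⟩

/-- **Corner labels** with prescribed increments along faces and around vertices. -/
theorem exists_label (α β : D → K) (hα : ∀ f, ∑ d with M.fc d = f, α d = 0)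
    (hβ : ∀ v, ∑ d with M.vt d = v, β d = 0)
    (hE : ∀ d, α d + β (M.rev d) + α (M.rev d) + β d = 0) :
    ∃ l : D → K, (∀ d, l (M.nxt d) = l d + α d) ∧ (∀ d, l d = l (M.nxt (M.rev d)) + β d) := by
  obtain ⟨τ, hτ⟩ := M.orbit_sum α hα
  obtain ⟨g, hg⟩ := M.exact' (fun d => β d - (τ d - τ (M.nxt (M.rev d)))) (by
      intro d
      have h1 := hτ d
      have h2 := hτ (M.rev d)
      have h3 := hE d
      simp only [M.rev_rev]
      linear_combination h1 + h2 - h3 + 2 * h3) (by
      intro v
      rw [Finset.sum_sub_distrib, hβ, Finset.sum_sub_distrib, M.sum_rot v τ]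
      ring)
  refine ⟨fun d => τ d - g (M.fc d), fun d => ?_, fun d => ?_⟩
  · simp only [M.fc_nxt]
    linear_combination hτ d
  · simp only [M.fc_nxt]
    have := hg d
    linear_combination -this

end PMap

end P8ffccf

end
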