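import Pool.Agent.Lib.P8ffccf.LabFacts

/-! # Parents in a Schnyder labelling reach the outer face -/

set_option linter.unusedSimpArgs false
set_option linter.unusedVariables false
set_option linter.unusedSectionVars false
set_option linter.style.longLine false

noncomputable section

namespace P8ffccf

open Classical Finset Module

variable {V F D : Type} [Fintype V] [Fintype F] [Fintype D]

namespace PMap

variable {M : PMap V F D} {o : F}

namespace Lab

variable (L : Lab M o)

/-- A special dart of index `k` is never the reversal of a special dart of index `k`. -/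
lemma sp_ne_rev (k : ZMod 3) {f f' : F} (hf : f ≠ o) (hf' : f' ≠ o) :
    L.sp k f ≠ M.rev (L.sp k f') := by
  intro h
  have h1 := L.sp_cF k hf
  have h2 := L.sp_cF k hf'
  have l1 := L.sp_l k hf
  have l2 := L.sp_l k hf'
  have hr : M.rev (L.sp k f) = L.sp k f' := by rw [h, M.rev_rev]
  have two : (2 : ZMod 3) ≠ 0 := by decide
  rcases L.four (L.sp k f) with a | a | a | a
  · have := (L.uniV _ a).2.2.2.2.2.1
    rw [hr, l1, l2] at this
    exact two (by linear_combination -this)
  · rw [hr] at a
    have := (L.uniV _ a).2.2.2.2.2.1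
    rw [← h, l1, l2] at this
    exact two (by linear_combination -this)
  · exact h1 a
  · rw [hr] at a
    exact h2 a

/-- the special darts of the faces in `C` -/
def XC (k : ZMod 3) (C : Finset F) (d : D) : Prop := M.fc d ∈ C ∧ d = L.sp k (M.fc d)

lemma XC_sp {k : ZMod 3} {C : Finset F} {f : F} (hf : f ∈ C) : L.XC k C (L.sp k f) := by
  refine ⟨?_, ?_⟩
  · rw [L.sp_fc]; exact hf
  · rw [L.sp_fc]

lemma face_sum_zero (k : ZMod 3) (C : Finset F) (hCo : o ∉ C)
    (hmap : ∀ f ∈ C, L.par k f ∈ C)
    (hinj : ∀ f ∈ C, ∀ f' ∈ C, L.par k f = L.par k f' → f = f')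
    (hsurj : ∀ f ∈ C, ∃ f' ∈ C, L.par k f' = f) (f : F) :
    ∑ d with M.fc d = f, (if L.XC k C d ∨ L.XC k C (M.rev d) then (1 : ZMod 2) else 0) = 0 := by
  have hne : ∀ f ∈ C, f ≠ o := fun f hf h => hCo (h ▸ hf)
  rw [← Finset.sum_filter, Finset.sum_const, nsmul_one]
  by_cases hf : f ∈ C
  · obtain ⟨f', hf', hpf⟩ := hsurj f hf
    have hset : (univ.filter fun d => M.fc d = f).filter
        (fun d => L.XC k C d ∨ L.XC k C (M.rev d)) = {L.sp k f, M.rev (L.sp k f')} := by
      ext d
      simp only [Finset.mem_filter, Finset.mem_univ, true_and, Finset.mem_insert,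
        Finset.mem_singleton]
      constructor
      · rintro ⟨hd, h | h⟩
        · left
          exact h.2.trans (by rw [hd])
        · right
          have h1 : L.par k (M.fc (M.rev d)) = f := by
            rw [L.par_eq k (hne _ h.1), ← h.2, M.rev_rev, hd]
          have h2 := hinj _ h.1 _ hf' (h1.trans hpf.symm)
          rw [← h2, ← h.2, M.rev_rev]
      · rintro (rfl | rfl)
        · exact ⟨L.sp_fc k f, Or.inl (L.XC_sp hf)⟩
        · refine ⟨?_, Or.inr ?_⟩
          · rw [← L.par_eq k (hne _ hf'), hpf]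
          · rw [M.rev_rev]; exact L.XC_sp hf'
    rw [hset, Finset.card_pair (L.sp_ne_rev k (hne f hf) (hne f' hf'))]
    decide
  · have hset : (univ.filter fun d => M.fc d = f).filter
        (fun d => L.XC k C d ∨ L.XC k C (M.rev d)) = ∅ := by
      rw [Finset.filter_eq_empty_iff]
      intro d hd
      simp only [Finset.mem_filter, Finset.mem_univ, true_and] at hd
      rintro (h | h)
      · exact hf (hd ▸ h.1)
      · apply hf
        have h1 : L.par k (M.fc (M.rev d)) = f := by
          rw [L.par_eq k (hne _ h.1), ← h.2, M.rev_rev, hd]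
        rw [← h1]
        exact hmap _ h.1
    rw [hset]
    simp

/-- The cycle `C` of faces separates the vertices: a set `W` of vertices such that the crossing
darts are exactly the special darts of `C` and their reversals, avoiding the outer face. -/
lemma exists_W (k : ZMod 3) (C : Finset F) (hCo : o ∉ C)
    (hmap : ∀ f ∈ C, L.par k f ∈ C)
    (hinj : ∀ f ∈ C, ∀ f' ∈ C, L.par k f = L.par k f' → f = f')
    (hsurj : ∀ f ∈ C, ∃ f' ∈ C, L.par k f' = f) :
    ∃ W : V → Prop, (∀ d, (L.XC k C d ∨ L.XC k C (M.rev d)) ↔ ¬ (W (M.vt d) ↔ W (M.vt (M.rev d)))) ∧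
      (∀ d, M.fc d = o → ¬ W (M.vt d)) := by
  have hne : ∀ f ∈ C, f ≠ o := fun f hf h => hCo (h ▸ hf)
  obtain ⟨p, hp⟩ := M.exact (K := ZMod 2)
    (fun d => if L.XC k C d ∨ L.XC k C (M.rev d) then (1 : ZMod 2) else 0)
    (by
      intro d
      have : ∀ a : ZMod 2, a = -a := by decide
      rw [← this]
      simp only [M.rev_rev]
      congr 1
      rw [or_comm])
    (L.face_sum_zero k C hCo hmap hinj hsurj)
  obtain ⟨d0, hd0⟩ := M.fc_surj o
  have hno : ∀ d, M.fc d = o → ¬ (L.XC k C d ∨ L.XC k C (M.rev d)) := by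
    rintro d hd (h | h)
    · exact hCo (hd ▸ h.1)
    · apply hCo
      have h1 : L.par k (M.fc (M.rev d)) = o := by
        rw [L.par_eq k (hne _ h.1), ← h.2, M.rev_rev, hd]
      rw [← h1]
      exact hmap _ h.1
  have hconst : ∀ d, M.fc d = o → p (M.vt d) = p (M.vt d0) := by
    intro d hd
    refine M.face_const (fun x => p (M.vt x)) o (fun x hx => ?_) d d0 hd hd0
    have := hp x
    rw [if_neg (hno x hx)] at this
    simp only [M.vt_nxt]
    linear_combination -this
  refine ⟨fun v => p v ≠ p (M.vt d0), fun d => ?_, fun d hd h => h (hconst d hd)⟩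
  have h := hp d
  have key : ∀ a b c : ZMod 2, (1 = a - b → ¬ (b ≠ c ↔ a ≠ c)) ∧ (0 = a - b → (b ≠ c ↔ a ≠ c)) := by
    decide
  by_cases hx : L.XC k C d ∨ L.XC k C (M.rev d)
  · rw [if_pos hx] at h
    exact ⟨fun _ => (key _ _ _).1 h, fun _ => hx⟩
  · rw [if_neg hx] at h
    exact ⟨fun h' => absurd h' hx, fun h' => absurd ((key _ _ _).2 h) h'⟩


section Count

variable (W : V → Prop)

/-- indicator of a set of vertices -/
def wt (W : V → Prop) (v : V) : ℤ := if W v then 1 else 0

/-- `1` at the darts not chosen by their left face -/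
def aa (L : Lab M o) (d : D) : ℤ := if L.cF d then 0 else 1

/-- `1` at the darts not chosen by their start vertex -/
def bb (L : Lab M o) (d : D) : ℤ := if L.cV d then 0 else 1

lemma wt_sq (v : V) : wt W v * wt W v = wt W v := by
  unfold wt; split_ifs <;> ring

lemma four_sum (d : D) : L.aa d + L.bb d + (L.aa (M.rev d) + L.bb (M.rev d)) = 3 := by
  unfold aa bb
  rcases L.four d with h | h | h | h
  · have h1 := L.vf d h
    have h2 := L.vf' d h
    have h3 := L.vv d h
    simp [h, h1, h2, h3]
  · have h1 := L.vf _ h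
    have h2 := L.vf' _ h
    have h3 := L.vv _ h
    rw [M.rev_rev] at h2 h3
    simp [h, h1, h2, h3]
  · have h1 := L.ff d h
    have h2 : ¬ L.cV d := fun h' => L.vf d h' h
    have h3 : ¬ L.cV (M.rev d) := by
      intro h'
      have := L.vf' _ h'
      rw [M.rev_rev] at this
      exact this h
    simp [h, h1, h2, h3]
  · have h1 := L.ff _ h
    rw [M.rev_rev] at h1
    have h2 : ¬ L.cV (M.rev d) := fun h' => L.vf _ h' h
    have h3 : ¬ L.cV d := fun h' => L.vf' d h' h
    simp [h, h1, h2, h3]

lemma sum_one : 2 * ∑ d, wt W (M.vt d) * wt W (M.vt (M.rev d)) * (L.aa d + L.bb d) =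
    3 * ∑ d, wt W (M.vt d) * wt W (M.vt (M.rev d)) := by
  have h1 := M.sum_rev (fun d => wt W (M.vt d) * wt W (M.vt (M.rev d)) * (L.aa d + L.bb d))
  simp only [M.rev_rev] at h1
  have h2 : ∑ d, wt W (M.vt d) * wt W (M.vt (M.rev d)) * (L.aa d + L.bb d) +
      ∑ d, wt W (M.vt (M.rev d)) * wt W (M.vt d) * (L.aa (M.rev d) + L.bb (M.rev d)) =
      3 * ∑ d, wt W (M.vt d) * wt W (M.vt (M.rev d)) := by
    rw [← Finset.sum_add_distrib, Finset.mul_sum]
    apply Finset.sum_congr rfl
    intro d _
    have := L.four_sum d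
    linear_combination (wt W (M.vt d) * wt W (M.vt (M.rev d))) * this
  rw [h1] at h2
  linarith

lemma sum_two (hout : ∀ d, M.fc d = o → ¬ W (M.vt d)) :
    ∑ d, wt W (M.vt d) * L.bb d = 3 * ((univ.filter W).card : ℤ) := by
  rw [← Finset.sum_fiberwise (univ : Finset D) M.vt]
  have h1 : ∀ v, ∑ d with M.vt d = v, wt W (M.vt d) * L.bb d = if W v then 3 else 0 := by
    intro v
    have h2 : ∑ d with M.vt d = v, wt W (M.vt d) * L.bb d =
        wt W v * ∑ d with M.vt d = v, L.bb d := by
      rw [Finset.mul_sum]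
      apply Finset.sum_congr rfl
      intro d hd
      simp only [Finset.mem_filter, Finset.mem_univ, true_and] at hd
      rw [hd]
    rw [h2]
    by_cases hv : W v
    · have h3 := L.cntV v (by
        intro s hs hsv
        exact hout s (L.sus_o s hs) (hsv ▸ hv))
      have h4 : ∑ d with M.vt d = v, L.bb d = 3 := by
        have : ∑ d with M.vt d = v, L.bb d =
            ((univ.filter fun d => M.vt d = v ∧ ¬ L.cV d).card : ℤ) := by
          rw [Finset.card_filter, Finset.sum_filter]
          push_cast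
          apply Finset.sum_congr rfl
          intro d _
          unfold bb
          by_cases a : M.vt d = v <;> by_cases b : L.cV d <;> simp [a, b]
        rw [this, h3]; norm_num
      rw [h4, if_pos hv]
      unfold wt
      rw [if_pos hv]; norm_num
    · rw [if_neg hv]
      unfold wt
      rw [if_neg hv]; ring
  rw [Finset.sum_congr rfl (fun v _ => h1 v), ← Finset.sum_filter, Finset.sum_const, nsmul_eq_mul]
  ring

lemma sum_aa (f : F) (hf : f ≠ o) : ∑ d with M.fc d = f, L.aa d = 3 := by
  have h3 := L.cntF f hf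
  have : ∑ d with M.fc d = f, L.aa d =
      ((univ.filter fun d => M.fc d = f ∧ ¬ L.cF d).card : ℤ) := by
    rw [Finset.card_filter, Finset.sum_filter]
    push_cast
    apply Finset.sum_congr rfl
    intro d _
    unfold aa
    by_cases a : M.fc d = f <;> by_cases b : L.cF d <;> simp [a, b]
  rw [this, h3]; norm_num

lemma sum_three (f : F) (hf : f ≠ o)
    (hnc : ∀ d, M.fc d = f → (W (M.vt d) ↔ W (M.vt (M.rev d)))) :
    ∑ d with M.fc d = f, wt W (M.vt d) * wt W (M.vt (M.rev d)) * L.aa d =
      if (∀ d, M.fc d = f → W (M.vt d)) then 3 else 0 := by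
  obtain ⟨d0, hd0⟩ := M.fc_surj f
  have hc : ∀ d, M.fc d = f → (W (M.vt d) ↔ W (M.vt d0)) := by
    intro d hd
    have := M.face_const (fun x => W (M.vt x)) f (fun x hx => by
      simp only [M.vt_nxt]
      exact propext (hnc x hx).symm) d d0 hd hd0
    exact iff_of_eq this
  have hw : ∀ d, M.fc d = f → wt W (M.vt d) * wt W (M.vt (M.rev d)) * L.aa d =
      wt W (M.vt d0) * L.aa d := by
    intro d hd
    have h1 := hc d hd
    have h2 := hnc d hd
    unfold wt
    by_cases h0 : W (M.vt d0)
    · simp [h0, h1.2 h0, h2.1 (h1.2 h0)]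
    · have h3 : ¬ W (M.vt d) := fun h => h0 (h1.1 h)
      simp [h0, h3]
  rw [Finset.sum_congr rfl (fun d hd => hw d (by simpa using hd)), ← Finset.mul_sum,
    L.sum_aa f hf]
  by_cases h0 : W (M.vt d0)
  · rw [if_pos (fun d hd => (hc d hd).2 h0)]
    unfold wt; rw [if_pos h0]; norm_num
  · rw [if_neg (fun h => h0 (h d0 hd0))]
    unfold wt; rw [if_neg h0]; norm_num

/-- shifted label -/
def Lf (L : Lab M o) (k : ZMod 3) (d : D) : ℤ := ((L.l d - (k + 2)).val : ℤ)

lemma val_step : ∀ k x : ZMod 3, x ≠ k + 1 →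
    ((x + 1 - (k + 2)).val : ℤ) = ((x - (k + 2)).val : ℤ) + 1 := by decide

lemma val_sp : ∀ k : ZMod 3, ((k + 1 - (k + 2)).val : ℤ) = 2 ∧
    ((k + 1 + 1 - (k + 2)).val : ℤ) = 0 ∧ ((k - (k + 2)).val : ℤ) = 1 ∧
    ((k + 2 - (k + 2)).val : ℤ) = 0 := by decide

lemma sum_four (k : ZMod 3) (C : Finset F) (hCo : o ∉ C)
    (hinj : ∀ f ∈ C, ∀ f' ∈ C, L.par k f = L.par k f' → f = f')
    (hcross : ∀ d, (L.XC k C d ∨ L.XC k C (M.rev d)) ↔ ¬ (W (M.vt d) ↔ W (M.vt (M.rev d))))
    (f' : F) (hf' : f' ∈ C) (f : F) (hf : f ∈ C) (hp : L.par k f' = f) :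
    ∑ d with M.fc d = f, wt W (M.vt d) * wt W (M.vt (M.rev d)) * L.aa d =
      wt W (M.vt (L.sp k f')) * (1 - wt W (M.vt (M.rev (L.sp k f')))) * L.bb (L.sp k f') +
      wt W (M.vt (M.rev (L.sp k f'))) * (1 - wt W (M.vt (L.sp k f'))) *
        L.bb (M.rev (L.sp k f')) := by
  have hne : ∀ f ∈ C, f ≠ o := fun f hf h => hCo (h ▸ hf)
  have hfo := hne f hf
  have hf'o := hne f' hf'
  set x := L.sp k f with hx
  set y := M.rev (L.sp k f') with hy
  have hyr : M.rev y = L.sp k f' := by rw [hy, M.rev_rev]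
  have hfx : M.fc x = f := L.sp_fc k f
  have hfy : M.fc y = f := by rw [hy, ← L.par_eq k hf'o, hp]
  have hxy : x ≠ y := L.sp_ne_rev k hfo hf'o
  -- crossing darts of f are exactly x and y
  have hcf : ∀ d, M.fc d = f → (¬ (W (M.vt d) ↔ W (M.vt (M.rev d))) ↔ d = x ∨ d = y) := by
    intro d hd
    rw [← hcross d]
    constructor
    · rintro (h | h)
      · left; exact h.2.trans (by rw [hd])
      · right
        have h1 : L.par k (M.fc (M.rev d)) = f := by
          rw [L.par_eq k (hne _ h.1), ← h.2, M.rev_rev, hd]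
        have h2 := hinj _ h.1 _ hf' (h1.trans hp.symm)
        rw [hy, ← h2, ← h.2, M.rev_rev]
    · rintro (rfl | rfl)
      · left; exact L.XC_sp hf
      · right; rw [hyr]; exact L.XC_sp hf'
  have hwx := (hcf x hfx).2 (Or.inl rfl)
  have hwy := (hcf y hfy).2 (Or.inr rfl)
  -- first telescoping sum
  have t1 : ∑ d with M.fc d = f, (wt W (M.vt (M.nxt d)) - wt W (M.vt d)) = 0 := by
    rw [Finset.sum_sub_distrib, M.sum_nxt f (fun d => wt W (M.vt d)), sub_self]
  have t2 : ∑ d with M.fc d = f, (wt W (M.vt (M.nxt d)) * L.Lf k (M.nxt d) -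
      wt W (M.vt d) * L.Lf k d) = 0 := by
    rw [Finset.sum_sub_distrib, M.sum_nxt f (fun d => wt W (M.vt d) * L.Lf k d), sub_self]
  have hsplit : ∀ g : D → ℤ, ∑ d with M.fc d = f, g d =
      g x + g y + ∑ d ∈ ((univ.filter fun d => M.fc d = f).erase x).erase y, g d := by
    intro g
    have m1 : x ∈ (univ.filter fun d => M.fc d = f) := by simp [hfx]
    have m2 : y ∈ (univ.filter fun d => M.fc d = f).erase x := by
      rw [Finset.mem_erase]; exact ⟨hxy.symm, by simp [hfy]⟩
    rw [← Finset.add_sum_erase _ g m1, ← Finset.add_sum_erase _ g m2]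
    ring
  have hrest : ∀ d ∈ ((univ.filter fun d => M.fc d = f).erase x).erase y,
      M.fc d = f ∧ d ≠ x ∧ (W (M.vt d) ↔ W (M.vt (M.rev d))) := by
    intro d hd
    rw [Finset.mem_erase, Finset.mem_erase] at hd
    obtain ⟨h1, h2, h3⟩ := hd
    simp only [Finset.mem_filter, Finset.mem_univ, true_and] at h3
    refine ⟨h3, h2, ?_⟩
    by_contra hc
    rcases (hcf d h3).1 hc with h | h
    · exact h2 h
    · exact h1 h
  rw [hsplit] at t1 t2
  rw [hsplit]
  have r1 : ∑ d ∈ ((univ.filter fun d => M.fc d = f).erase x).erase y,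
      (wt W (M.vt (M.nxt d)) - wt W (M.vt d)) = 0 := by
    apply Finset.sum_eq_zero
    intro d hd
    obtain ⟨_, _, h⟩ := hrest d hd
    rw [M.vt_nxt]
    unfold wt
    by_cases h1 : W (M.vt d)
    · simp [h1, h.1 h1]
    · have h3 : ¬ W (M.vt (M.rev d)) := fun h2 => h1 (h.2 h2)
      simp [h1, h3]
  have r2 : ∑ d ∈ ((univ.filter fun d => M.fc d = f).erase x).erase y,
      (wt W (M.vt (M.nxt d)) * L.Lf k (M.nxt d) - wt W (M.vt d) * L.Lf k d) =
      ∑ d ∈ ((univ.filter fun d => M.fc d = f).erase x).erase y,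
        wt W (M.vt d) * wt W (M.vt (M.rev d)) * L.aa d := by
    apply Finset.sum_congr rfl
    intro d hd
    obtain ⟨hdf, hdx, h⟩ := hrest d hd
    have hstep : L.Lf k (M.nxt d) = L.Lf k d + L.aa d := by
      unfold Lf aa
      have hl := L.lf d (by rw [hdf]; exact hfo)
      by_cases hc : L.cF d
      · rw [if_pos hc, hl, if_pos hc]; simp
      · rw [if_neg hc, hl, if_neg hc]
        apply val_step
        intro hlk
        apply hdx
        have := L.sp_unique k (by rw [hdf]; exact hfo) hc hlk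
        rw [hdf] at this
        exact this
    rw [hstep, M.vt_nxt]
    unfold wt
    by_cases h1 : W (M.vt d)
    · simp [h1, h.1 h1]
    · have h3 : ¬ W (M.vt (M.rev d)) := fun h2 => h1 (h.2 h2)
      simp [h1, h3]
  rw [r1] at t1
  rw [r2] at t2
  -- values at x
  have vx1 : L.Lf k x = 2 := by
    unfold Lf
    rw [hx, L.sp_l k hfo]
    exact (val_sp k).1
  have vx2 : L.Lf k (M.nxt x) = 0 := by
    unfold Lf
    rw [L.special_step x (by rw [hfx]; exact hfo) (L.sp_cF k hfo), hx, L.sp_l k hfo]
    exact (val_sp k).2.1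
  have hwval : ∀ d, ¬ (W (M.vt d) ↔ W (M.vt (M.rev d))) →
      (wt W (M.vt d) = 1 ∧ wt W (M.vt (M.rev d)) = 0) ∨
      (wt W (M.vt d) = 0 ∧ wt W (M.vt (M.rev d)) = 1) := by
    intro d hd
    unfold wt
    by_cases h1 : W (M.vt d) <;> by_cases h2 : W (M.vt (M.rev d))
    · exact absurd ⟨fun _ => h2, fun _ => h1⟩ hd
    · left; simp [h1, h2]
    · right; simp [h1, h2]
    · exact absurd ⟨fun h => absurd h h1, fun h => absurd h h2⟩ hd
  have hCh : L.Ch k y := L.ch_sp k hf'o
  rw [M.vt_nxt, M.vt_nxt] at t1 t2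
  rw [vx1, vx2] at t2
  rw [← hyr]
  -- kinds
  have kind := hCh.kind (by rw [hfy]; exact hfo)
  have hL : (L.Lf k y = L.bb y) ∧ (2 - L.Lf k (M.nxt y) = L.bb (M.rev y)) := by
    unfold Lf bb
    rcases kind with ⟨h1, h2, h3⟩ | ⟨h1, h1', h2, h3⟩ | ⟨h1, h1', h2, h3⟩
    · have n1 : ¬ L.cV y := fun h' => L.vf y h' h1
      have n2 : ¬ L.cV (M.rev y) := by
        intro h'
        have := L.vf' _ h'
        rw [M.rev_rev] at this
        exact this h1
      rw [if_neg n1, if_neg n2, h2, h3, (val_sp k).2.2.1]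
      norm_num
    · have n2 := L.vv y h1
      rw [if_pos h1, if_neg n2, h2, h3, (val_sp k).2.2.1, (val_sp k).2.2.2]
      norm_num
    · have n1 : ¬ L.cV y := fun h' => L.vv y h' h1
      rw [if_pos h1, if_neg n1, h2, h3, (val_sp k).2.2.1, (val_sp k).1]
      norm_num
  rcases hwval x hwx with ⟨a1, a2⟩ | ⟨a1, a2⟩ <;> rcases hwval y hwy with ⟨b1, b2⟩ | ⟨b1, b2⟩ <;>
    rw [a1, a2, b1, b2] at t1 t2 ⊢ <;> linarith [hL.1, hL.2]

/-- Sum over crossing darts. -/
lemma sum_cross (k : ZMod 3) (C : Finset F) (hCo : o ∉ C)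
    (hcross : ∀ d, (L.XC k C d ∨ L.XC k C (M.rev d)) ↔ ¬ (W (M.vt d) ↔ W (M.vt (M.rev d)))) :
    ∑ d, wt W (M.vt d) * (1 - wt W (M.vt (M.rev d))) * L.bb d =
      ∑ f' ∈ C, (wt W (M.vt (L.sp k f')) * (1 - wt W (M.vt (M.rev (L.sp k f')))) * L.bb (L.sp k f') +
      wt W (M.vt (M.rev (L.sp k f'))) * (1 - wt W (M.vt (L.sp k f'))) *
        L.bb (M.rev (L.sp k f'))) := by
  have hne : ∀ f ∈ C, f ≠ o := fun f hf h => hCo (h ▸ hf)
  have hspinj : ∀ f f', L.sp k f = L.sp k f' → f = f' := by
    intro f f' h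
    rw [← L.sp_fc k f, h, L.sp_fc]
  set A := C.image (L.sp k) with hA
  set B := C.image (fun f => M.rev (L.sp k f)) with hB
  have hdisj : Disjoint A B := by
    rw [Finset.disjoint_left]
    intro d hd hd'
    rw [hA, Finset.mem_image] at hd
    rw [hB, Finset.mem_image] at hd'
    obtain ⟨f, hf, rfl⟩ := hd
    obtain ⟨f', hf', h⟩ := hd'
    exact L.sp_ne_rev k (hne f hf) (hne f' hf') h.symm
  have hsub : ∑ d, wt W (M.vt d) * (1 - wt W (M.vt (M.rev d))) * L.bb d =
      ∑ d ∈ A ∪ B, wt W (M.vt d) * (1 - wt W (M.vt (M.rev d))) * L.bb d := by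
    symm
    apply Finset.sum_subset (Finset.subset_univ _)
    intro d _ hd
    have hnc : (W (M.vt d) ↔ W (M.vt (M.rev d))) := by
      by_contra hc
      rw [← hcross d] at hc
      apply hd
      rw [Finset.mem_union]
      rcases hc with h | h
      · left
        rw [hA, Finset.mem_image]
        exact ⟨_, h.1, h.2.symm⟩
      · right
        rw [hB, Finset.mem_image]
        refine ⟨_, h.1, ?_⟩
        rw [← h.2, M.rev_rev]
    unfold wt
    by_cases h1 : W (M.vt d)
    · simp [h1, hnc.1 h1]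
    · simp [h1]
  rw [hsub, Finset.sum_union hdisj, Finset.sum_add_distrib, hA, hB, Finset.sum_image, Finset.sum_image]
  · congr 1
    apply Finset.sum_congr rfl
    intro f _
    rw [M.rev_rev]
  · intro f _ f' _ h
    exact hspinj f f' (M.rev_inj h)
  · intro f _ f' _ h
    exact hspinj f f' h

/-- The number of darts with both ends in `W`. -/
lemma count (k : ZMod 3) (C : Finset F) (hCo : o ∉ C)
    (hmap : ∀ f ∈ C, L.par k f ∈ C)
    (hinj : ∀ f ∈ C, ∀ f' ∈ C, L.par k f = L.par k f' → f = f')
    (hsurj : ∀ f ∈ C, ∃ f' ∈ C, L.par k f' = f)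
    (hcross : ∀ d, (L.XC k C d ∨ L.XC k C (M.rev d)) ↔ ¬ (W (M.vt d) ↔ W (M.vt (M.rev d))))
    (hout : ∀ d, M.fc d = o → ¬ W (M.vt d)) :
    ∑ d, wt W (M.vt d) * wt W (M.vt (M.rev d)) = 2 * ((univ.filter W).card : ℤ) +
      2 * ((univ.filter fun f => f ≠ o ∧ ∀ d, M.fc d = f → W (M.vt d)).card : ℤ) := by
  have hne : ∀ f ∈ C, f ≠ o := fun f hf h => hCo (h ▸ hf)
  have s1 := L.sum_one W
  have s2 := L.sum_two W hout
  have s5 := L.sum_cross W k C hCo hcross
  set Q := ∑ f' ∈ C, (wt W (M.vt (L.sp k f')) * (1 - wt W (M.vt (M.rev (L.sp k f')))) * L.bb (L.sp k f') +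
      wt W (M.vt (M.rev (L.sp k f'))) * (1 - wt W (M.vt (L.sp k f'))) *
        L.bb (M.rev (L.sp k f'))) with hQ
  -- sum of aa
  have s3 : ∑ d, wt W (M.vt d) * wt W (M.vt (M.rev d)) * L.aa d =
      3 * ((univ.filter fun f => f ≠ o ∧ ∀ d, M.fc d = f → W (M.vt d)).card : ℤ) + Q := by
    rw [← Finset.sum_fiberwise (univ : Finset D) M.fc]
    have h1 : ∀ f, ∑ d with M.fc d = f, wt W (M.vt d) * wt W (M.vt (M.rev d)) * L.aa d =
        (if (f ≠ o ∧ ∀ d, M.fc d = f → W (M.vt d)) then 3 else 0) +
        (if f ∈ C then ∑ d with M.fc d = f, wt W (M.vt d) * wt W (M.vt (M.rev d)) * L.aa d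
          else 0) := by
      intro f
      by_cases hfC : f ∈ C
      · rw [if_pos hfC, if_neg, zero_add]
        rintro ⟨_, hall⟩
        have h2 := (hcross (L.sp k f)).1 (Or.inl (L.XC_sp hfC))
        apply h2
        have h3 := hall _ (L.sp_fc k f)
        refine ⟨fun _ => ?_, fun _ => h3⟩
        have h4 := hall (M.nxt (L.sp k f)) (by rw [M.fc_nxt, L.sp_fc])
        rw [M.vt_nxt] at h4
        exact h4
      · rw [if_neg hfC, add_zero]
        by_cases hfo : f = o
        · rw [if_neg (fun h => h.1 hfo)]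
          apply Finset.sum_eq_zero
          intro d hd
          simp only [Finset.mem_filter, Finset.mem_univ, true_and] at hd
          have := hout d (hd.trans hfo)
          unfold wt
          simp [this]
        · rw [L.sum_three W f hfo]
          · by_cases hall : ∀ d, M.fc d = f → W (M.vt d)
            · rw [if_pos hall, if_pos ⟨hfo, hall⟩]
            · rw [if_neg hall, if_neg (fun h => hall h.2)]
          · intro d hd
            by_contra hc
            rw [← hcross d] at hc
            apply hfC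
            rcases hc with h | h
            · exact hd ▸ h.1
            · have h1 : L.par k (M.fc (M.rev d)) = f := by
                rw [L.par_eq k (hne _ h.1), ← h.2, M.rev_rev, hd]
              rw [← h1]
              exact hmap _ h.1
    rw [Finset.sum_congr rfl (fun f _ => h1 f), Finset.sum_add_distrib]
    congr 1
    · rw [← Finset.sum_filter, Finset.sum_const, nsmul_eq_mul]
      ring
    · rw [← Finset.sum_filter]
      have h2 : (univ.filter fun f => f ∈ C) = C := by ext; simp
      rw [h2, hQ]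
      symm
      apply Finset.sum_bij (fun f' _ => L.par k f')
      · intro f' hf'; exact hmap f' hf'
      · intro f' hf' f'' hf'' h; exact hinj f' hf' f'' hf'' h
      · intro f hf
        obtain ⟨f', hf', h⟩ := hsurj f hf
        exact ⟨f', hf', h⟩
      · intro f' hf'
        exact (L.sum_four W k C hCo hinj hcross f' hf' _ (hmap f' hf') rfl).symm
  have s4 : ∑ d, wt W (M.vt d) * L.bb d =
      ∑ d, wt W (M.vt d) * wt W (M.vt (M.rev d)) * L.bb d +
      ∑ d, wt W (M.vt d) * (1 - wt W (M.vt (M.rev d))) * L.bb d := by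
    rw [← Finset.sum_add_distrib]
    apply Finset.sum_congr rfl
    intro d _
    ring
  have s6 : ∑ d, wt W (M.vt d) * wt W (M.vt (M.rev d)) * (L.aa d + L.bb d) =
      ∑ d, wt W (M.vt d) * wt W (M.vt (M.rev d)) * L.aa d +
      ∑ d, wt W (M.vt d) * wt W (M.vt (M.rev d)) * L.bb d := by
    rw [← Finset.sum_add_distrib]
    apply Finset.sum_congr rfl
    intro d _
    ring
  rw [s6] at s1
  linarith

end Count

end Lab

/-- Euler-type bound: the number of edges inside `W` is at most `|W| + |Φ| - 1` if every cycle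
space element is supported on `Φ`. -/
lemma edges_le (W : V → Prop) (hW : ∃ v, W v) (Φ : Finset F)
    (hΦ : ∀ g : F → ZMod 2, g o = 0 →
      (∀ d, ¬ (W (M.vt d) ∧ W (M.vt (M.rev d))) → g (M.fc (M.rev d)) = g (M.fc d)) →
      ∀ f, f ∉ Φ → g f = 0) :
    (univ.filter fun e : M.Edge => W (M.vt e.1) ∧ W (M.vt (M.rev e.1))).card + 1 ≤
      (univ.filter W).card + Φ.card := by
  let X : Type := {v : V // W v}
  let E : Type := {e : M.Edge // W (M.vt e.1) ∧ W (M.vt (M.rev e.1))}
  let a : E → X := fun e => ⟨M.vt e.1.1, e.2.1⟩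
  let b : E → X := fun e => ⟨M.vt (M.rev e.1.1), e.2.2⟩
  obtain ⟨v0, hv0⟩ := hW
  -- rank of diffMap
  have hker : 1 ≤ finrank (ZMod 2) (LinearMap.ker (diffMap (ZMod 2) a b)) := by
    have hmem : (fun _ => 1 : X → ZMod 2) ∈ LinearMap.ker (diffMap (ZMod 2) a b) := by
      rw [LinearMap.mem_ker]
      ext e
      simp
    have hne : (⟨(fun _ => 1 : X → ZMod 2), hmem⟩ : LinearMap.ker (diffMap (ZMod 2) a b)) ≠ 0 := by
      intro h
      have := congrArg Subtype.val h
      have h2 := congrFun this ⟨v0, hv0⟩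
      simp at h2
    have : Nontrivial (LinearMap.ker (diffMap (ZMod 2) a b)) := ⟨_, _, hne⟩
    exact Module.finrank_pos
  have h1 := LinearMap.finrank_range_add_finrank_ker (diffMap (ZMod 2) a b)
  rw [Module.finrank_fintype_fun_eq_card] at h1
  have h2 := LinearMap.finrank_range_add_finrank_ker (bdMap (ZMod 2) a b)
  rw [Module.finrank_fintype_fun_eq_card, finrank_range_bdMap] at h2
  -- the kernel of bdMap comes from Φ
  let ext0 : ({f // f ∈ Φ} → ZMod 2) → F → ZMod 2 := fun g f => if h : f ∈ Φ then g ⟨f, h⟩ else 0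
  let Ψ : ({f // f ∈ Φ} → ZMod 2) →ₗ[ZMod 2] (E → ZMod 2) :=
    { toFun := fun g e => ext0 g (M.fc (M.rev e.1.1)) - ext0 g (M.fc e.1.1)
      map_add' := by
        intro g g'
        funext e
        simp only [ext0, Pi.add_apply]
        split_ifs <;> ring
      map_smul' := by
        intro c g
        funext e
        simp only [ext0, Pi.smul_apply, smul_eq_mul, RingHom.id_apply]
        split_ifs <;> ring }
  have hle : LinearMap.ker (bdMap (ZMod 2) a b) ≤ LinearMap.range Ψ := by
    intro z hz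
    rw [LinearMap.mem_ker] at hz
    have two : ∀ a : ZMod 2, a = -a := by decide
    -- extension to darts
    let zE : M.Edge → ZMod 2 := fun e =>
      if h : W (M.vt e.1) ∧ W (M.vt (M.rev e.1)) then z ⟨e, h⟩ else 0
    let η : D → ZMod 2 := fun d => zE (M.eg d)
    have hηrev : ∀ d, η (M.rev d) = η d := by
      intro d
      show zE (M.eg (M.rev d)) = zE (M.eg d)
      rw [M.eg_rev]
    have hηedge : ∀ e : M.Edge, η e.1 = zE e := by
      intro e
      show zE (M.eg e.1) = zE e
      rw [M.eg_edge]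
    have hηzero : ∀ d, ¬ (W (M.vt d) ∧ W (M.vt (M.rev d))) → η d = 0 := by
      intro d hd
      show zE (M.eg d) = 0
      simp only [zE]
      rw [dif_neg]
      rintro ⟨h3, h4⟩
      rcases M.eg_val d with h | h
      · rw [h] at h3 h4; exact hd ⟨h3, h4⟩
      · rw [h] at h3 h4
        rw [M.rev_rev] at h4
        exact hd ⟨h4, h3⟩
    have hvert : ∀ v, ∑ d with M.vt d = v, η d = 0 := by
      intro v
      by_cases hv : W v
      · have hzv := congrFun hz ⟨v, hv⟩
        have e1 : ∑ d with M.vt d = v, η d =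
            ∑ e : M.Edge, ((if M.vt e.1 = v then zE e else 0) +
              (if M.vt (M.rev e.1) = v then zE e else 0)) := by
          rw [Finset.sum_filter, M.sum_edge]
          apply Finset.sum_congr rfl
          intro e _
          rw [hηrev, hηedge]
        rw [e1, Finset.sum_add_distrib]
        have e2 : ∀ q : M.Edge → V, ∑ e : M.Edge, (if q e = v then zE e else 0) =
            ∑ e : E, (if q e.1 = v then z e else 0) := by
          intro q
          have q1 : ∑ e : E, (if q e.1 = v then z e else 0) =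
              ∑ e : E, (fun e : M.Edge => if q e = v then zE e else 0) e.1 := by
            apply Finset.sum_congr rfl
            intro e _
            simp only [zE]
            rw [dif_pos e.2]
          have q2 : ∑ e : E, (fun e : M.Edge => if q e = v then zE e else 0) e.1 =
              ∑ e ∈ univ.filter (fun e : M.Edge => W (M.vt e.1) ∧ W (M.vt (M.rev e.1))),
                (if q e = v then zE e else 0) := by
            symm
            exact Finset.sum_subtype _ (by simp) _
          rw [q1, q2]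
          symm
          apply Finset.sum_subset (Finset.subset_univ _)
          intro e _ he
          have : zE e = 0 := by
            simp only [zE]
            rw [dif_neg]
            intro h
            exact he (by simp [h])
          rw [this]
          split_ifs <;> rfl
        rw [e2 (fun e => M.vt e.1), e2 (fun e => M.vt (M.rev e.1))]
        have e3 : bdMap (ZMod 2) a b z ⟨v, hv⟩ =
            (∑ e : E, if M.vt e.1.1 = v then z e else 0) -
              ∑ e : E, if M.vt (M.rev e.1.1) = v then z e else 0 := by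
          simp only [bdMap, LinearMap.coe_mk, AddHom.coe_mk, Finset.sum_filter]
          congr 1
          · apply Finset.sum_congr rfl
            intro e _
            by_cases h : M.vt e.1.1 = v
            · rw [if_pos h, if_pos (Subtype.ext h)]
            · rw [if_neg h, if_neg (fun h' => h (congrArg Subtype.val h'))]
          · apply Finset.sum_congr rfl
            intro e _
            by_cases h : M.vt (M.rev e.1.1) = v
            · rw [if_pos h, if_pos (Subtype.ext h)]
            · rw [if_neg h, if_neg (fun h' => h (congrArg Subtype.val h'))]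
        rw [e3] at hzv
        have : ∀ x y : ZMod 2, x - y = 0 → x + y = 0 := by decide
        exact this _ _ hzv
      · apply Finset.sum_eq_zero
        intro d hd
        simp only [Finset.mem_filter, Finset.mem_univ, true_and] at hd
        exact hηzero d (fun h => hv (hd ▸ h.1))
    obtain ⟨g, hg⟩ := M.exact' η (fun d => by rw [hηrev]; exact two _) hvert
    have hg0 := hΦ (fun f => g f - g o) (by simp) (by
      intro d hd
      have := hg d
      rw [hηzero d hd] at this
      linear_combination -this)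
    refine ⟨fun f => g f.1 - g o, ?_⟩
    funext e
    have hext : ∀ f, ext0 (fun f => g f.1 - g o) f = g f - g o := by
      intro f
      simp only [ext0]
      by_cases hf : f ∈ Φ
      · rw [dif_pos hf]
      · rw [dif_neg hf]
        exact (hg0 f hf).symm
    show ext0 (fun f => g f.1 - g o) (M.fc (M.rev e.1.1)) -
      ext0 (fun f => g f.1 - g o) (M.fc e.1.1) = z e
    rw [hext, hext]
    have h3 := hg e.1.1
    rw [hηedge] at h3
    simp only [zE] at h3
    rw [dif_pos e.2] at h3
    linear_combination -h3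
  have h3 := Submodule.finrank_mono hle
  have h4 := LinearMap.finrank_range_le Ψ
  rw [Module.finrank_fintype_fun_eq_card] at h4
  have h5 : Fintype.card {f // f ∈ Φ} = Φ.card := Fintype.card_coe Φ
  have h6 : Fintype.card X = (univ.filter W).card := Fintype.card_subtype W
  have h7 : Fintype.card E =
      (univ.filter fun e : M.Edge => W (M.vt e.1) ∧ W (M.vt (M.rev e.1))).card :=
    Fintype.card_subtype _
  omega

namespace Lab

variable (L : Lab M o)

lemma no_cycle (k : ZMod 3) (C : Finset F) (hCo : o ∉ C) (hCne : C.Nonempty)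
    (hmap : ∀ f ∈ C, L.par k f ∈ C)
    (hinj : ∀ f ∈ C, ∀ f' ∈ C, L.par k f = L.par k f' → f = f')
    (hsurj : ∀ f ∈ C, ∃ f' ∈ C, L.par k f' = f)
    (hconst : ∀ g : F → ZMod 2, (∀ f ∈ C, g (L.par k f) = g f) →
      ∀ f ∈ C, ∀ f' ∈ C, g f = g f') : False := by
  have hne : ∀ f ∈ C, f ≠ o := fun f hf h => hCo (h ▸ hf)
  obtain ⟨W, hcross, hout⟩ := L.exists_W k C hCo hmap hinj hsurj
  have hcount := L.count W k C hCo hmap hinj hsurj hcross hout
  obtain ⟨f1, hf1⟩ := hCne
  have hWne : ∃ v, W v := by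
    by_contra hno
    push Not at hno
    exact (hcross (L.sp k f1)).1 (Or.inl (L.XC_sp hf1))
      ⟨fun h => absurd h (hno _), fun h => absurd h (hno _)⟩
  set Φ := univ.filter fun f => f ≠ o ∧ ∀ d, M.fc d = f → W (M.vt d) with hΦ
  have hfcC : ∀ d, ¬ (W (M.vt d) ↔ W (M.vt (M.rev d))) → M.fc d ∈ C := by
    intro d hd
    rcases (hcross d).2 hd with h | h
    · exact h.1
    · have h1 : L.par k (M.fc (M.rev d)) = M.fc d := by
        rw [L.par_eq k (hne _ h.1), ← h.2, M.rev_rev]
      rw [← h1]
      exact hmap _ h.1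
  have hbound := edges_le (M := M) (o := o) W hWne Φ (by
    intro g hgo hg
    -- g is constant on C
    have hgC : ∀ f ∈ C, g f = g f1 := by
      intro f hf
      refine hconst g (fun f hf => ?_) f hf f1 hf1
      have h1 := (hcross (L.sp k f)).1 (Or.inl (L.XC_sp hf))
      have h2 := hg (L.sp k f) (fun h => h1 ⟨fun _ => h.2, fun _ => h.1⟩)
      rw [L.sp_fc] at h2
      rw [L.par_eq k (hne f hf)]
      exact h2
    -- around a vertex outside W, g is constant
    have hgv : ∀ d d', M.vt d = M.vt d' → ¬ W (M.vt d) → g (M.fc d) = g (M.fc d') := by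
      intro d d' hdd hd
      refine M.vert_const (fun x => g (M.fc x)) (M.vt d) (fun x hx => ?_) d d' rfl hdd.symm
      simp only [M.fc_nxt]
      exact hg x (fun h => hd (hx ▸ h.1))
    have hS : ∀ d, ¬ W (M.vt d) → g (M.fc d) = g f1 := by
      by_contra hno
      push Not at hno
      obtain ⟨d0, hd0, hgd0⟩ := hno
      have := M.conn {v | ∃ d, M.vt d = v ∧ ¬ W v ∧ g (M.fc d) ≠ g f1} ⟨M.vt d0, d0, rfl, hd0, hgd0⟩
        (by
          rintro d ⟨d', hdd', hW', hg'⟩
          have e1 : g (M.fc d) ≠ g f1 := by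
            rw [hgv d d' hdd'.symm hW']; exact hg'
          have e2 : ¬ W (M.vt (M.rev d)) := by
            intro hWr
            apply e1
            apply hgC
            apply hfcC
            intro h
            exact hW' (h.2 hWr)
          refine ⟨M.rev d, rfl, e2, ?_⟩
          rw [hg d (fun h => hW' h.1)]
          exact e1)
      obtain ⟨v, hv⟩ := hWne
      have hv' : v ∈ {v | ∃ d, M.vt d = v ∧ ¬ W v ∧ g (M.fc d) ≠ g f1} := by rw [this]; trivial
      obtain ⟨d, _, h1, _⟩ := hv'
      exact h1 hv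
    have hγ : g f1 = 0 := by
      obtain ⟨d, hd⟩ := M.fc_surj o
      rw [← hS d (hout d hd), hd, hgo]
    intro f hf
    rw [hΦ, Finset.mem_filter] at hf
    by_cases hfo : f = o
    · rw [hfo, hgo]
    · have : ∃ d, M.fc d = f ∧ ¬ W (M.vt d) := by
        by_contra hno
        push Not at hno
        exact hf ⟨Finset.mem_univ _, hfo, hno⟩
      obtain ⟨d, hd, hWd⟩ := this
      rw [← hd, hS d hWd, hγ])
  -- compare
  have h1 : ∑ d, wt W (M.vt d) * wt W (M.vt (M.rev d)) =
      2 * ((univ.filter fun e : M.Edge => W (M.vt e.1) ∧ W (M.vt (M.rev e.1))).card : ℤ) := by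
    rw [M.sum_edge, Finset.card_filter]
    push_cast
    rw [Finset.mul_sum]
    apply Finset.sum_congr rfl
    intro e _
    rw [M.rev_rev]
    unfold wt
    by_cases a : W (M.vt e.1) <;> by_cases b : W (M.vt (M.rev e.1)) <;> simp [a, b]
  rw [h1] at hcount
  omega

end Lab

/-- **Parents in a Schnyder labelling reach the outer face.** -/
theorem Lab.acyclic (H : M.Three) (L : Lab M o) (k : ZMod 3) (f : F) :
    ∃ i, (L.par k)^[i] f = o := by
  by_contra hno
  push Not at hno
  obtain ⟨i, j, hij, hij'⟩ : ∃ i j, i < j ∧ (L.par k)^[i] f = (L.par k)^[j] f := by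
    obtain ⟨i, j, hne, h⟩ := Finite.exists_ne_map_eq_of_infinite (fun i : ℕ => (L.par k)^[i] f)
    rcases lt_or_gt_of_ne hne with h' | h'
    · exact ⟨i, j, h', h⟩
    · exact ⟨j, i, h', h.symm⟩
  set f1 := (L.par k)^[i] f with hf1
  set n := j - i with hn
  have hnpos : 0 < n := by omega
  have hper : (L.par k)^[n] f1 = f1 := by
    rw [hf1, ← Function.iterate_add_apply, hn, Nat.sub_add_cancel hij.le]
    exact hij'.symm
  set C : Finset F := univ.filter (fun x => ∃ m, (L.par k)^[m] f1 = x) with hC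
  have hmemC : ∀ x, x ∈ C ↔ ∃ m, (L.par k)^[m] f1 = x := by intro x; simp [hC]
  have hCo : o ∉ C := by
    rw [hmemC]
    rintro ⟨m, hm⟩
    rw [hf1, ← Function.iterate_add_apply] at hm
    exact hno _ hm
  have hmap : ∀ x ∈ C, L.par k x ∈ C := by
    intro x hx
    rw [hmemC] at hx ⊢
    obtain ⟨m, rfl⟩ := hx
    exact ⟨m + 1, by rw [Function.iterate_succ_apply']⟩
  have hsurj : ∀ x ∈ C, ∃ y ∈ C, L.par k y = x := by
    intro x hx
    rw [hmemC] at hx
    obtain ⟨m, rfl⟩ := hx
    refine ⟨(L.par k)^[m + (n - 1)] f1, (hmemC _).2 ⟨_, rfl⟩, ?_⟩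
    rw [← Function.iterate_succ_apply' (L.par k) (m + (n - 1)) f1]
    have : (m + (n - 1)).succ = m + n := by omega
    rw [this, Function.iterate_add_apply, hper]
  have hinj : ∀ x ∈ C, ∀ y ∈ C, L.par k x = L.par k y → x = y := by
    have hs : Finset.image (L.par k) C = C := by
      apply Finset.Subset.antisymm
      · intro x hx
        rw [Finset.mem_image] at hx
        obtain ⟨y, hy, rfl⟩ := hx
        exact hmap y hy
      · intro x hx
        obtain ⟨y, hy, h⟩ := hsurj x hx
        exact Finset.mem_image.2 ⟨y, hy, h⟩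
    have := Finset.card_image_iff.1 (by rw [hs] : (Finset.image (L.par k) C).card = C.card)
    intro x hx y hy h
    exact this hx hy h
  refine L.no_cycle k C hCo ⟨f1, (hmemC _).2 ⟨0, rfl⟩⟩ hmap hinj hsurj ?_
  intro g hg
  have key : ∀ m, g ((L.par k)^[m] f1) = g f1 := by
    intro m
    induction m with
    | zero => rfl
    | succ m ih =>
      rw [Function.iterate_succ_apply', hg _ ((hmemC _).2 ⟨m, rfl⟩), ih]
  intro x hx y hy
  rw [hmemC] at hx hy
  obtain ⟨m, rfl⟩ := hx
  obtain ⟨m', rfl⟩ := hy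
  rw [key, key]

end PMap

end P8ffccf

end
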