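import Pool.Agent.Lib.P8ffccf.Geo

/-! # Locally convex closed polygons with two sign changes are convex -/

noncomputable section
namespace P8ffccf
open Classical Finset

variable {V F D : Type} [Fintype V] [Fintype F] [Fintype D]

namespace PolyAux

lemma pluecker (z a b c : ℝ × ℝ) :
    det z b * det a c = det z a * det b c + det z c * det a b := by
  unfold det; ring

lemma det_self (a : ℝ × ℝ) : det a a = 0 := by unfold det; ring

lemma det_swap (a b : ℝ × ℝ) : det a b = - det b a := by unfold det; ring

lemma det_add (a b c : ℝ × ℝ) : det a (b + c) = det a b + det a c := by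
  unfold det; simp; ring

/-- a sign change -/
lemma exists_change (r : ℕ → ℝ) (h0 : ∀ i, r i ≠ 0) {a b : ℕ} (hab : a < b) (ha : r a < 0)
    (hb : 0 < r b) : ∃ k, a ≤ k ∧ k < b ∧ r k < 0 ∧ 0 < r (k + 1) := by
  induction b with
  | zero => omega
  | succ b ih =>
    rcases lt_or_gt_of_ne (h0 b) with h | h
    · exact ⟨b, by omega, by omega, h, hb⟩
    · have hne : a ≠ b := by rintro rfl; linarith
      obtain ⟨k, h1, h2, h3, h4⟩ := ih (by omega) h
      exact ⟨k, h1, by omega, h3, h4⟩

/-- within a block of constant sign -/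
lemma block (q : ℕ → ℝ) (w : ℕ → ℝ × ℝ) (N : ℕ)
    (hp : ∀ i j k, q j * det (w i) (w k) = q i * det (w j) (w k) + q k * det (w i) (w j))
    (h1 : ∀ i < N, 0 < det (w i) (w (i + 1))) {i k : ℕ} (hik : i < k) (hkN : k ≤ N)
    (h : ∀ j, i ≤ j → j ≤ k → 0 < q j) : 0 < det (w i) (w k) := by
  induction k with
  | zero => omega
  | succ k ih =>
    rcases eq_or_ne i k with rfl | hne
    · exact h1 i (by omega)
    · have h2 := ih (by omega) (by omega) (fun j hj1 hj2 => h j hj1 (by omega))
      have h3 := hp i k (k + 1)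
      have h4 := h1 k (by omega)
      have h5 := h i le_rfl (by omega)
      have h6 := h k (by omega) (by omega)
      have h7 := h (k + 1) (by omega) le_rfl
      have h8 : 0 < q k * det (w i) (w (k + 1)) := by
        rw [h3]; positivity
      exact pos_of_mul_pos_right h8 h6.le

lemma core (N : ℕ) (w : ℕ → ℝ × ℝ) (z : ℝ × ℝ) (hN : w N = w 0)
    (h1 : ∀ i < N, 0 < det (w i) (w (i + 1))) (h2 : ∀ i, det z (w i) ≠ 0)
    (h3 : ∀ i j, i < N → j < N → det z (w i) < 0 → 0 < det z (w (i + 1)) →
      det z (w j) < 0 → 0 < det z (w (j + 1)) → i = j)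
    (S : ℕ → ℝ) (hS0 : S 0 = 0) (hS : ∀ i, S (i + 1) = S i + det (w 0) (w i)) (hSN : S N = 0) :
    ∀ j, 2 ≤ j → j < N → 0 < S j := by
  set p : ℕ → ℝ := fun i => det z (w i) with hp
  set q : ℕ → ℝ := fun i => p 0 * p i with hq
  have hpN : p N = p 0 := by rw [hp]; dsimp only; rw [hN]
  have hq0 : 0 < q 0 := by
    have := mul_self_pos.2 (h2 0)
    exact this
  have hqne : ∀ i, q i ≠ 0 := fun i => mul_ne_zero (h2 0) (h2 i)
  have hpl : ∀ i j k, q j * det (w i) (w k) = q i * det (w j) (w k) + q k * det (w i) (w j) := by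
    intro i j k
    have := pluecker z (w i) (w j) (w k)
    rw [hq]
    dsimp only
    linear_combination (p 0) * this
  -- the key claim
  have key : ∀ i, 1 ≤ i → i + 1 < N → det (w 0) (w i) < 0 → det (w 0) (w (i + 1)) < 0 := by
    intro i hi hiN hneg
    by_contra hge
    rw [not_lt] at hge
    -- a negative value before
    have hA : ∃ j, j ≤ i ∧ q j < 0 := by
      by_contra hc
      push Not at hc
      have := block q w N hpl h1 (i := 0) (k := i) (by omega) (by omega)
        (fun j _ hj => lt_of_le_of_ne (hc j hj) (hqne j).symm)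
      linarith
    have hC : ∃ j, i + 1 ≤ j ∧ j < N ∧ q j < 0 := by
      by_contra hc
      push Not at hc
      have := block q w N hpl h1 (i := i + 1) (k := N) (by omega) le_rfl
        (fun j hj1 hj2 => by
          rcases eq_or_ne j N with rfl | hne
          · show 0 < p 0 * p _
            rw [hpN]; exact hq0
          · exact lt_of_le_of_ne (hc j hj1 (by omega)) (hqne j).symm)
      rw [hN, det_swap] at this
      linarith
    obtain ⟨j, hj1, hj2⟩ := hA
    obtain ⟨j', hj'1, hj'2, hj'3⟩ := hC
    have hj0 : 0 < j := by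
      rcases Nat.eq_zero_or_pos j with rfl | h
      · linarith
      · exact h
    have hB : ∃ m, j < m ∧ m < j' ∧ 0 < q m := by
      rcases lt_or_gt_of_ne (hqne i) with hqi | hqi
      · rcases lt_or_gt_of_ne (hqne (i + 1)) with hqi1 | hqi1
        · exfalso
          have h5 := hpl 0 i (i + 1)
          have h6 := h1 i (by omega)
          have h7 : 0 < q 0 * det (w i) (w (i + 1)) := mul_pos hq0 h6
          have h8 : 0 < q (i + 1) * det (w 0) (w i) := mul_pos_of_neg_of_neg hqi1 hneg
          have h9 : q i * det (w 0) (w (i + 1)) ≤ 0 :=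
            mul_nonpos_of_nonpos_of_nonneg hqi.le hge
          linarith
        · refine ⟨i + 1, by omega, ?_, hqi1⟩
          rcases eq_or_ne j' (i + 1) with rfl | hne
          · linarith
          · omega
      · refine ⟨i, ?_, by omega, hqi⟩
        rcases eq_or_ne j i with rfl | hne
        · linarith
        · omega
    obtain ⟨m, hm1, hm2, hm3⟩ := hB
    rcases lt_or_gt_of_ne (h2 0) with hp0 | hp0
    · -- `p 0 < 0`
      have hp0' : p 0 < 0 := hp0
      have a1 : 0 < p j := by
        by_contra hc
        have : 0 ≤ q j := mul_nonneg_of_nonpos_of_nonpos hp0'.le (not_lt.1 hc)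
        linarith
      have a2 : p m < 0 := by
        by_contra hc
        have : q m ≤ 0 := mul_nonpos_of_nonpos_of_nonneg hp0'.le (not_lt.1 hc)
        linarith
      have a3 : 0 < p j' := by
        by_contra hc
        have : 0 ≤ q j' := mul_nonneg_of_nonpos_of_nonpos hp0'.le (not_lt.1 hc)
        linarith
      obtain ⟨k1, b1, b2, b3, b4⟩ := exists_change p h2 hj0 hp0' a1
      obtain ⟨k2, c1, c2, c3, c4⟩ := exists_change p h2 hm2 a2 a3
      have := h3 k1 k2 (by omega) (by omega) b3 b4 c3 c4
      omega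
    · have hp0' : 0 < p 0 := hp0
      have a1 : p j < 0 := by
        by_contra hc
        have : 0 ≤ q j := mul_nonneg hp0'.le (not_lt.1 hc)
        linarith
      have a2 : 0 < p m := by
        by_contra hc
        have : q m ≤ 0 := mul_nonpos_of_nonneg_of_nonpos hp0'.le (not_lt.1 hc)
        linarith
      have a3 : p j' < 0 := by
        by_contra hc
        have : 0 ≤ q j' := mul_nonneg hp0'.le (not_lt.1 hc)
        linarith
      obtain ⟨k1, b1, b2, b3, b4⟩ := exists_change p h2 hm1 a1 a2
      obtain ⟨k2, c1, c2, c3, c4⟩ := exists_change p h2 hj'2 a3 (by rw [hpN]; exact hp0')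
      have := h3 k1 k2 (by omega) (by omega) b3 b4 c3 c4
      omega
  -- once negative, always negative
  have stay : ∀ i, 1 ≤ i → det (w 0) (w i) < 0 → ∀ l, i ≤ l → l < N → det (w 0) (w l) < 0 := by
    intro i hi hneg l hil
    induction l, hil using Nat.le_induction with
    | base => intro _; exact hneg
    | succ l hl ih => intro hlN; exact key l (by omega) hlN (ih (by omega))
  intro j hj2 hjN
  by_contra hcon
  rw [not_lt] at hcon
  -- the first nonpositive partial sum
  have hex : ∃ i, 2 ≤ i ∧ i < N ∧ S i ≤ 0 := ⟨j, hj2, hjN, hcon⟩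
  obtain ⟨i, ⟨hi2, hiN, hSi⟩, hmin⟩ := (Nat.lt_wfRel.wf.has_min
    {i | 2 ≤ i ∧ i < N ∧ S i ≤ 0} hex)
  obtain ⟨l, rfl⟩ : ∃ l, i = l + 1 := ⟨i - 1, by omega⟩
  have hgl : det (w 0) (w l) < 0 := by
    rcases eq_or_ne l 1 with rfl | hne
    · exfalso
      have e1 := hS 0
      have e2 := hS 1
      rw [hS0, det_self, add_zero, zero_add] at e1
      have e3 := h1 0 (by omega)
      rw [zero_add] at e3
      rw [e1] at e2
      linarith
    · have h5 : ¬ (S l ≤ 0) := fun h => hmin l ⟨by omega, by omega, h⟩ (Nat.lt_succ_self l)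
      have h6 := hS l
      linarith
  have hdec : ∀ l', l + 1 ≤ l' → l' ≤ N → S l' ≤ S (l + 1) ∧ (l + 1 < l' → S l' < S (l + 1)) := by
    intro l' hl'
    induction l', hl' using Nat.le_induction with
    | base => intro _; exact ⟨le_rfl, fun h => absurd h (lt_irrefl _)⟩
    | succ l' hl' ih =>
      intro hN'
      have h7 := stay l (by omega) hgl l' (by omega) (by omega)
      have h8 := (ih (by omega)).1
      have h9 := hS l'
      exact ⟨by linarith, fun _ => by linarith⟩
  have := (hdec N (by omega) le_rfl).2 (by omega)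
  linarith

end PolyAux

open PolyAux

theorem poly_convex (M : PMap V F D) (P : V → ℝ × ℝ) (f : F) (z : ℝ × ℝ)
    (h1 : ∀ d, M.fc d = f → 0 < det (M.ev P d) (M.ev P (M.nxt d)))
    (h2 : ∀ d, M.fc d = f → det z (M.ev P d) ≠ 0)
    (h3 : ∀ d d', M.fc d = f → M.fc d' = f →
      det z (M.ev P d) < 0 → 0 < det z (M.ev P (M.nxt d)) →
      det z (M.ev P d') < 0 → 0 < det z (M.ev P (M.nxt d')) → d = d') :
    ∀ d d', M.fc d = f → M.fc d' = f → d' ≠ d → d' ≠ M.nxt d →
      0 < det (M.ev P d) (P (M.vt d') - P (M.vt d)) := by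
  intro d d' hd hd' hne1 hne2
  have hfc : ∀ i, M.fc ((M.nxt)^[i] d) = f := by
    intro i
    induction i with
    | zero => exact hd
    | succ i ih => rw [Function.iterate_succ_apply', M.fc_nxt]; exact ih
  have hper : d ∈ Function.periodicPts M.nxt :=
    Function.Injective.mem_periodicPts M.nxt.injective d
  set N := Function.minimalPeriod M.nxt d with hN
  have hNpos : 0 < N := Function.minimalPeriod_pos_of_mem_periodicPts hper
  have hNd : (M.nxt)^[N] d = d := Function.isPeriodicPt_minimalPeriod M.nxt d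
  obtain ⟨k, hk⟩ := M.fc_trans d d' (by rw [hd, hd'])
  set k' := k % N with hk'
  have hk2 : (M.nxt)^[k'] d = d' := by
    rw [hk', hN, Function.iterate_mod_minimalPeriod_eq]; exact hk
  have hk'N : k' < N := Nat.mod_lt _ hNpos
  have hk'2 : 2 ≤ k' := by
    rcases k' with _ | _ | k'
    · exact absurd hk2.symm hne1
    · exact absurd hk2.symm hne2
    · omega
  have hinj : ∀ i j, i < N → j < N → (M.nxt)^[i] d = (M.nxt)^[j] d → i = j := by
    intro i j hi hj hij
    exact Function.iterate_injOn_Iio_minimalPeriod hi hj hij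
  have hvt : ∀ i, P (M.vt ((M.nxt)^[i + 1] d)) =
      P (M.vt ((M.nxt)^[i] d)) + M.ev P ((M.nxt)^[i] d) := by
    intro i
    rw [Function.iterate_succ_apply', M.vt_nxt]
    unfold PMap.ev
    abel
  have hmain := core N (fun i => M.ev P ((M.nxt)^[i] d)) z
    (by rw [hNd]; rfl)
    (fun i _ => by
      rw [Function.iterate_succ_apply']
      exact h1 _ (hfc i))
    (fun i => h2 _ (hfc i))
    (fun i j hi hj a b a' b' => by
      rw [Function.iterate_succ_apply'] at b b'
      exact hinj i j hi hj (h3 _ _ (hfc i) (hfc j) a b a' b'))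
    (fun i => det (M.ev P d) (P (M.vt ((M.nxt)^[i] d)) - P (M.vt d)))
    (by simp [det])
    (fun i => by
      rw [hvt i, Function.iterate_zero, id, add_sub_right_comm, det_add])
    (by rw [hNd]; simp [det])
    k' hk'2 hk'N
  rw [hk2] at hmain
  exact hmain

end P8ffccf
end
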