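import Pool.Agent.Lib.P8ffccf.Net
import Pool.Agent.Lib.P8ffccf.Poly

/-! # Corners of the inner faces: strict convexity of the rounded drawing -/

set_option linter.unusedSimpArgs false
set_option linter.unusedVariables false
set_option linter.unusedSectionVars false
set_option linter.style.longLine false
set_option linter.unnecessarySeqFocus false

noncomputable section
namespace P8ffccf
open Classical Finset

namespace CornerAux

lemma det_add_l (a b c : ℝ × ℝ) : det (a + b) c = det a c + det b c := by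
  unfold det; simp; ring

lemma det_add_r (a b c : ℝ × ℝ) : det a (b + c) = det a b + det a c := by
  unfold det; simp; ring

lemma det_sub_l (a b c : ℝ × ℝ) : det (a - b) c = det a c - det b c := by
  unfold det; simp; ring

lemma det_sub_r (a b c : ℝ × ℝ) : det a (b - c) = det a b - det a c := by
  unfold det; simp; ring

lemma det_swap (a b : ℝ × ℝ) : det a b = - det b a := by unfold det; ring

lemma zm3 (k : ZMod 3) : k = 0 ∨ k = 1 ∨ k = 2 := by revert k; decide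

lemma vec_0 (x m : ℝ) : vec 0 x m = (x * (1 + m), x * (2 * m)) := by
  have h1 : Dz 0 = (1, 0) := by decide
  have h2 : Ez 0 = (1, 2) := by decide
  unfold vec rl
  rw [h1, h2]
  ext <;> simp <;> ring_nf <;> simp

lemma vec_1 (x m : ℝ) : vec 1 x m = (x * (-2 * m), x * (1 - m)) := by
  have h1 : Dz 1 = (0, 1) := by decide
  have h2 : Ez 1 = (-2, -1) := by decide
  unfold vec rl
  rw [h1, h2]
  ext <;> simp <;> ring_nf <;> simp

lemma vec_2 (x m : ℝ) : vec 2 x m = (x * (-1 + m), x * (-1 - m)) := by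
  have h1 : Dz 2 = (-1, -1) := by decide
  have h2 : Ez 2 = (1, -1) := by decide
  unfold vec rl
  rw [h1, h2]
  ext <;> simp <;> ring_nf <;> simp

lemma det_same (k : ZMod 3) (x m x' m' : ℝ) :
    det (vec k x m) (vec k x' m') = 2 * (x * x') * (m' - m) := by
  rcases zm3 k with rfl | rfl | rfl
  · rw [vec_0, vec_0]; unfold det; ring
  · rw [vec_1, vec_1]; unfold det; ring
  · rw [vec_2, vec_2]; unfold det; ring

lemma det_succ (k : ZMod 3) (x m x' m' : ℝ) :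
    det (vec k x m) (vec (k + 1) x' m') = x * x' * (1 - m' + m + 3 * m * m') := by
  rcases zm3 k with rfl | rfl | rfl
  · rw [show (0 : ZMod 3) + 1 = 1 by decide, vec_0, vec_1]; unfold det; ring
  · rw [show (1 : ZMod 3) + 1 = 2 by decide, vec_1, vec_2]; unfold det; ring
  · rw [show (2 : ZMod 3) + 1 = 0 by decide, vec_2, vec_0]; unfold det; ring

lemma det_succ' (k : ZMod 3) (x m x' m' : ℝ) :
    det (vec (k + 2) x m) (vec k x' m') = x * x' * (1 - m' + m + 3 * m * m') := by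
  have := det_succ (k + 2) x m x' m'
  rw [show k + 2 + 1 = k by rcases zm3 k with rfl | rfl | rfl <;> decide] at this
  exact this

lemma det_succ'' (k : ZMod 3) (x m x' m' : ℝ) :
    det (vec (k + 1) x m) (vec (k + 2) x' m') = x * x' * (1 - m' + m + 3 * m * m') := by
  have := det_succ (k + 1) x m x' m'
  rw [show k + 1 + 1 = k + 2 by rcases zm3 k with rfl | rfl | rfl <;> decide] at this
  exact this

lemma nm_nonneg (p : ℝ × ℝ) : 0 ≤ nm p := by unfold nm; positivity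

lemma nm_add (p q : ℝ × ℝ) : nm (p + q) ≤ nm p + nm q := by
  unfold nm
  have h1 := abs_add_le p.1 q.1
  have h2 := abs_add_le p.2 q.2
  simp only [Prod.fst_add, Prod.snd_add]
  linarith

lemma nm_sub (p q : ℝ × ℝ) : nm (p - q) ≤ nm p + nm q := by
  unfold nm
  have h1 := abs_sub p.1 q.1
  have h2 := abs_sub p.2 q.2
  simp only [Prod.fst_sub, Prod.snd_sub]
  linarith

lemma nm_vec (k : ZMod 3) {x m : ℝ} (hx : 0 ≤ x) (hm : |m| ≤ 1 / 1000) :
    nm (vec k x m) ≤ 2 * x := by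
  have h := abs_le.1 hm
  rcases zm3 k with rfl | rfl | rfl
  · rw [vec_0]; unfold nm
    simp only
    rw [abs_mul x, abs_mul x, abs_of_nonneg hx, ← mul_add, mul_comm 2 x]
    apply mul_le_mul_of_nonneg_left _ hx
    have : |1 + m| ≤ 1 + 1 / 1000 := by rw [abs_le]; constructor <;> linarith
    have : |2 * m| ≤ 2 / 1000 := by rw [abs_le]; constructor <;> linarith
    linarith
  · rw [vec_1]; unfold nm
    simp only
    rw [abs_mul x, abs_mul x, abs_of_nonneg hx, ← mul_add, mul_comm 2 x]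
    apply mul_le_mul_of_nonneg_left _ hx
    have : |1 - m| ≤ 1 + 1 / 1000 := by rw [abs_le]; constructor <;> linarith
    have : |-2 * m| ≤ 2 / 1000 := by rw [abs_le]; constructor <;> linarith
    linarith
  · rw [vec_2]; unfold nm
    simp only
    rw [abs_mul x, abs_mul x, abs_of_nonneg hx, ← mul_add, mul_comm 2 x]
    apply mul_le_mul_of_nonneg_left _ hx
    have : |-1 + m| = 1 - m := by rw [abs_of_nonpos] <;> linarith
    have : |-1 - m| = 1 + m := by rw [abs_of_nonpos] <;> linarith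
    linarith

lemma abs_det (p q : ℝ × ℝ) : |det p q| ≤ nm p * nm q := by
  unfold det nm
  have h1 := abs_sub (p.1 * q.2) (p.2 * q.1)
  rw [abs_mul, abs_mul] at h1
  nlinarith [abs_nonneg p.1, abs_nonneg p.2, abs_nonneg q.1, abs_nonneg q.2,
    mul_nonneg (abs_nonneg p.1) (abs_nonneg q.1), mul_nonneg (abs_nonneg p.2) (abs_nonneg q.2)]

/-- the bilinear error estimate -/
lemma det_err (I O W1 W2 : ℝ × ℝ) :
    det I O - nm I * nm (W2 - O) - nm (W1 - I) * nm O - nm (W1 - I) * nm (W2 - O) ≤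
      det W1 W2 := by
  have e : det W1 W2 = det I O + det I (W2 - O) + det (W1 - I) O + det (W1 - I) (W2 - O) := by
    unfold det; simp; ring
  have h1 := neg_abs_le (det I (W2 - O))
  have h2 := neg_abs_le (det (W1 - I) O)
  have h3 := neg_abs_le (det (W1 - I) (W2 - O))
  have h4 := abs_det I (W2 - O)
  have h5 := abs_det (W1 - I) O
  have h6 := abs_det (W1 - I) (W2 - O)
  linarith

/-- the coefficient -/
lemma g_ge {m m' : ℝ} (hm : |m| ≤ 1 / 1000) (hm' : |m'| ≤ 1 / 1000) :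
    99 / 100 ≤ 1 - m' + m + 3 * m * m' ∧ 1 - m' + m + 3 * m * m' ≤ 101 / 100 := by
  have h := abs_le.1 hm
  have h' := abs_le.1 hm'
  constructor <;> nlinarith

end CornerAux

namespace CornerAux

/-- both vectors contain a vector of the face itself -/
lemma corner_gg (k : ZMod 3) {N R : ℝ} (hR : 0 < R) (hN : 100 * R ≤ N)
    {l1 m1 b mb A mA l2 m2 a ma B mB : ℝ} (hl1 : 0 ≤ l1) (hl2 : 0 ≤ l2) (ha : 0 ≤ a) (hb : 0 ≤ b)
    (hm1 : |m1| ≤ 1 / 1000) (hm2 : |m2| ≤ 1 / 1000) (hma : |ma| ≤ 1 / 1000)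
    (hmb : |mb| ≤ 1 / 1000) (hmA : |mA| ≤ 1 / 1000) (hmB : |mB| ≤ 1 / 1000)
    (hm : 0 ≤ l1 * l2 * (m2 - m1))
    (hA : N + 80 * (|ma - mA| * a + |mb - mB| * b) ≤ A - a)
    (hB : N + 80 * (|ma - mA| * a + |mb - mB| * b) ≤ B - b)
    {W1 W2 : ℝ × ℝ} (h1 : nm (W1 - (vec k l1 m1 + vec (k + 2) b mb - vec (k + 1) A mA)) ≤ R)
    (h2 : nm (W2 - (vec k l2 m2 + vec (k + 1) a ma - vec (k + 2) B mB)) ≤ R) :
    0 < det W1 W2 := by
  set I := vec k l1 m1 + vec (k + 2) b mb - vec (k + 1) A mA with hI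
  set O := vec k l2 m2 + vec (k + 1) a ma - vec (k + 2) B mB with hO
  obtain ⟨x, hx⟩ : ∃ x, A = a + x := ⟨A - a, by ring⟩
  obtain ⟨y, hy⟩ : ∃ y, B = b + y := ⟨B - b, by ring⟩
  obtain ⟨u, hu⟩ : ∃ u, u = |ma - mA| := ⟨_, rfl⟩
  obtain ⟨v, hv⟩ : ∃ v, v = |mb - mB| := ⟨_, rfl⟩
  have hu0 : 0 ≤ u := hu ▸ abs_nonneg _
  have hv0 : 0 ≤ v := hv ▸ abs_nonneg _
  rw [← hu, ← hv] at hA hB
  have hua := mul_nonneg hu0 ha
  have hvb := mul_nonneg hv0 hb
  have hxN : N + 80 * (u * a + v * b) ≤ x := by rw [hx] at hA; linarith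
  have hyN : N + 80 * (u * a + v * b) ≤ y := by rw [hy] at hB; linarith
  have hx0 : 0 < x := by linarith
  have hy0 : 0 < y := by linarith
  have hA0 : 0 ≤ A := by linarith
  have hB0 : 0 ≤ B := by linarith
  -- the determinant
  obtain ⟨g1, hg1⟩ : ∃ g, g = 1 - ma + m1 + 3 * m1 * ma := ⟨_, rfl⟩
  obtain ⟨g2, hg2⟩ : ∃ g, g = 1 - m1 + mB + 3 * mB * m1 := ⟨_, rfl⟩
  obtain ⟨g3, hg3⟩ : ∃ g, g = 1 - m2 + mb + 3 * mb * m2 := ⟨_, rfl⟩
  obtain ⟨g4, hg4⟩ : ∃ g, g = 1 - mb + ma + 3 * ma * mb := ⟨_, rfl⟩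
  obtain ⟨g5, hg5⟩ : ∃ g, g = 1 - mA + m2 + 3 * m2 * mA := ⟨_, rfl⟩
  obtain ⟨g6, hg6⟩ : ∃ g, g = 1 - mB + mA + 3 * mA * mB := ⟨_, rfl⟩
  have hdet : det I O = 2 * (l1 * l2 * (m2 - m1)) + l1 * a * g1 + l1 * B * g2 + b * l2 * g3
      - a * b * g4 + 2 * (b * B) * (mb - mB) + l2 * A * g5 - 2 * (A * a) * (ma - mA)
      + A * B * g6 := by
    rw [hI, hO]
    simp only [det_sub_l, det_sub_r, det_add_l, det_add_r]
    rw [det_same, det_succ, det_succ', det_same, det_swap (vec k l1 m1) (vec (k + 2) B mB),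
      det_succ', det_swap (vec (k + 2) b mb) (vec (k + 1) a ma), det_succ'', det_same,
      det_swap (vec (k + 1) A mA) (vec k l2 m2), det_succ, det_succ'', hg1, hg2, hg3, hg4, hg5, hg6]
    ring
  have hnI : nm I ≤ 2 * l1 + 2 * b + 2 * A := by
    rw [hI]
    have e1 := nm_sub (vec k l1 m1 + vec (k + 2) b mb) (vec (k + 1) A mA)
    have e2 := nm_add (vec k l1 m1) (vec (k + 2) b mb)
    have e3 := nm_vec k hl1 hm1
    have e4 := nm_vec (k + 2) hb hmb
    have e5 := nm_vec (k + 1) hA0 hmA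
    linarith
  have hnO : nm O ≤ 2 * l2 + 2 * a + 2 * B := by
    rw [hO]
    have e1 := nm_sub (vec k l2 m2 + vec (k + 1) a ma) (vec (k + 2) B mB)
    have e2 := nm_add (vec k l2 m2) (vec (k + 1) a ma)
    have e3 := nm_vec k hl2 hm2
    have e4 := nm_vec (k + 1) ha hma
    have e5 := nm_vec (k + 2) hB0 hmB
    linarith
  have herr := det_err I O W1 W2
  have t1 : nm I * nm (W2 - O) ≤ (2 * l1 + 2 * b + 2 * A) * R :=
    mul_le_mul hnI h2 (nm_nonneg _) (by positivity)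
  have t2 : nm (W1 - I) * nm O ≤ R * (2 * l2 + 2 * a + 2 * B) :=
    mul_le_mul h1 hnO (nm_nonneg _) hR.le
  have t3 : nm (W1 - I) * nm (W2 - O) ≤ R * R := mul_le_mul h1 h2 (nm_nonneg _) hR.le
  -- coefficients
  have c1 := (hg1 ▸ g_ge hm1 hma : 99 / 100 ≤ g1 ∧ g1 ≤ 101 / 100)
  have c2 := (hg2 ▸ g_ge hmB hm1 : 99 / 100 ≤ g2 ∧ g2 ≤ 101 / 100)
  have c3 := (hg3 ▸ g_ge hmb hm2 : 99 / 100 ≤ g3 ∧ g3 ≤ 101 / 100)
  have c5 := (hg5 ▸ g_ge hm2 hmA : 99 / 100 ≤ g5 ∧ g5 ≤ 101 / 100)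
  have c6 := (hg6 ▸ g_ge hmA hmB : 99 / 100 ≤ g6 ∧ g6 ≤ 101 / 100)
  have c46 : g4 - g6 ≤ 2 * u + 2 * v := by
    have e1 := le_abs_self (ma - mA)
    have e2 := le_abs_self (mb - mB)
    have e1' := neg_abs_le (ma - mA)
    have e2' := neg_abs_le (mb - mB)
    rw [← hu] at e1 e1'
    rw [← hv] at e2 e2'
    have b1 := abs_le.1 hma
    have b2 := abs_le.1 hmb
    have b3 := abs_le.1 hmA
    have b4 := abs_le.1 hmB
    rw [hg4, hg6]
    have e3 : 3 * ma * mb - 3 * mA * mB = 3 * (ma - mA) * mb + 3 * mA * (mb - mB) := by ring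
    have e4 : 3 * (ma - mA) * mb ≤ u := by
      have : |3 * (ma - mA) * mb| ≤ 3 * u * (1 / 1000) := by
        rw [abs_mul, abs_mul, ← hu, abs_of_pos (by norm_num : (0 : ℝ) < 3)]
        exact mul_le_mul_of_nonneg_left hmb (by positivity)
      have := le_abs_self (3 * (ma - mA) * mb)
      linarith
    have e5 : 3 * mA * (mb - mB) ≤ v := by
      have : |3 * mA * (mb - mB)| ≤ 3 * (1 / 1000) * v := by
        rw [abs_mul, abs_mul, ← hv, abs_of_pos (by norm_num : (0 : ℝ) < 3)]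
        exact mul_le_mul_of_nonneg_right (by linarith) hv0
      have := le_abs_self (3 * mA * (mb - mB))
      linarith
    linarith
  have d1 : l1 * a * (99 / 100) ≤ l1 * a * g1 := mul_le_mul_of_nonneg_left c1.1 (by positivity)
  have d2 : l1 * B * (99 / 100) ≤ l1 * B * g2 := mul_le_mul_of_nonneg_left c2.1 (by positivity)
  have d3 : b * l2 * (99 / 100) ≤ b * l2 * g3 := mul_le_mul_of_nonneg_left c3.1 (by positivity)
  have d5 : l2 * A * (99 / 100) ≤ l2 * A * g5 := mul_le_mul_of_nonneg_left c5.1 (by positivity)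
  have hAB : A * B - a * b = x * y + x * b + a * y := by rw [hx, hy]; ring
  have hxy := mul_pos hx0 hy0
  have hxb := mul_nonneg hx0.le hb
  have hay := mul_nonneg ha hy0.le
  have d6 : (x * y + x * b + a * y) * (99 / 100) ≤ (A * B - a * b) * g6 := by
    rw [hAB]; exact mul_le_mul_of_nonneg_left c6.1 (by positivity)
  have d46 : a * b * (g4 - g6) ≤ a * b * (2 * u + 2 * v) :=
    mul_le_mul_of_nonneg_left c46 (by positivity)
  have d7 : - (2 * (b * B) * v) ≤ 2 * (b * B) * (mb - mB) := by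
    have := neg_abs_le (mb - mB)
    rw [← hv] at this
    have h := mul_le_mul_of_nonneg_left this (by positivity : 0 ≤ 2 * (b * B))
    linarith
  have d8 : 2 * (A * a) * (ma - mA) ≤ 2 * (A * a) * u := by
    have := le_abs_self (ma - mA)
    rw [← hu] at this
    exact mul_le_mul_of_nonneg_left this (by positivity : 0 ≤ 2 * (A * a))
  -- absorption
  have p1 : 80 * (u * a) * b ≤ x * b := mul_le_mul_of_nonneg_right (by linarith) hb
  have p2 : 80 * (v * b) * a ≤ y * a := mul_le_mul_of_nonneg_right (by linarith) ha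
  have p3 : 80 * (v * b) * b ≤ x * b := mul_le_mul_of_nonneg_right (by linarith) hb
  have p4 : 80 * (v * b) * y ≤ x * y := mul_le_mul_of_nonneg_right (by linarith) hy0.le
  have p5 : 80 * (u * a) * a ≤ y * a := mul_le_mul_of_nonneg_right (by linarith) ha
  have p6 : 80 * (u * a) * x ≤ y * x := mul_le_mul_of_nonneg_right (by linarith) hx0.le
  -- errors
  have q1 : 100 * R * l1 ≤ B * l1 := mul_le_mul_of_nonneg_right (by linarith) hl1
  have q2 : 100 * R * l2 ≤ A * l2 := mul_le_mul_of_nonneg_right (by linarith) hl2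
  have q3 : 100 * R * a ≤ y * a := mul_le_mul_of_nonneg_right (by linarith) ha
  have q4 : 100 * R * b ≤ x * b := mul_le_mul_of_nonneg_right (by linarith) hb
  have q5 : 100 * R * x ≤ y * x := mul_le_mul_of_nonneg_right (by linarith) hx0.le
  have q6 : 100 * R * y ≤ x * y := mul_le_mul_of_nonneg_right (by linarith) hy0.le
  have q7 : 100 * R * R ≤ x * R := mul_le_mul_of_nonneg_right (by linarith) hR.le
  have n1 := mul_nonneg hl1 ha
  have n2 := mul_nonneg hb hl2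
  have n3 := mul_nonneg hl1 hB0
  have n4 := mul_nonneg hl2 hA0
  have t1' : (2 * l1 + 2 * b + 2 * A) * R = 2 * (R * l1) + 2 * (R * b) + 2 * (R * a) + 2 * (R * x) := by
    rw [hx]; ring
  have t2' : R * (2 * l2 + 2 * a + 2 * B) = 2 * (R * l2) + 2 * (R * a) + 2 * (R * b) + 2 * (R * y) := by
    rw [hy]; ring
  have d7' : 2 * (b * B) * v = 2 * (v * b * b) + 2 * (v * b * y) := by rw [hy]; ring
  have d8' : 2 * (A * a) * u = 2 * (u * a * a) + 2 * (u * a * x) := by rw [hx]; ring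
  have d46' : a * b * (2 * u + 2 * v) = 2 * (u * a * b) + 2 * (v * b * a) := by ring
  have e6 : A * B * g6 - a * b * g4 = (A * B - a * b) * g6 - a * b * (g4 - g6) := by ring
  rw [hdet] at herr
  linarith

end CornerAux

namespace CornerAux

lemma det_exact_l (I O W1 W2 : ℝ × ℝ) : det W1 O - nm W1 * nm (W2 - O) ≤ det W1 W2 := by
  have e : det W1 W2 = det W1 O + det W1 (W2 - O) := by
    unfold det; simp; ring
  have h1 := neg_abs_le (det W1 (W2 - O))
  have h4 := abs_det W1 (W2 - O)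
  linarith

lemma corner_0g (k : ZMod 3) {N R : ℝ} (hR : 0 < R) (hN : 100 * R ≤ N)
    {l1 m1 l2 m2 a ma B mB : ℝ} (hl1 : N ≤ l1) (hl2 : 0 ≤ l2) (ha : 0 ≤ a) (hB : N ≤ B)
    (hm1 : |m1| ≤ 1 / 1000) (hm2 : |m2| ≤ 1 / 1000) (hma : |ma| ≤ 1 / 1000)
    (hmB : |mB| ≤ 1 / 1000)
    {W1 W2 : ℝ × ℝ}
    (hm : l2 = 0 ∨ (m1 ≤ m2 ∧ ((∃ t, 0 < t ∧ W1 = vec k t m1) ∨
      8 * nm (W1 - vec k l1 m1) ≤ (m2 - m1) * l1)))
    (h1 : nm (W1 - vec k l1 m1) ≤ R)
    (h2 : nm (W2 - (vec k l2 m2 + vec (k + 1) a ma - vec (k + 2) B mB)) ≤ R) :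
    0 < det W1 W2 := by
  set O := vec k l2 m2 + vec (k + 1) a ma - vec (k + 2) B mB with hO
  have hl10 : 0 < l1 := by linarith
  have hB0 : 0 < B := by linarith
  obtain ⟨g1, hg1⟩ : ∃ g, g = 1 - ma + m1 + 3 * m1 * ma := ⟨_, rfl⟩
  obtain ⟨g2, hg2⟩ : ∃ g, g = 1 - m1 + mB + 3 * mB * m1 := ⟨_, rfl⟩
  have c1 := (hg1 ▸ g_ge hm1 hma : 99 / 100 ≤ g1 ∧ g1 ≤ 101 / 100)
  have c2 := (hg2 ▸ g_ge hmB hm1 : 99 / 100 ≤ g2 ∧ g2 ≤ 101 / 100)
  have hdet : ∀ t, det (vec k t m1) O = 2 * (t * l2) * (m2 - m1) + t * a * g1 + t * B * g2 := by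
    intro t
    rw [hO]
    simp only [det_sub_r, det_add_r]
    rw [det_same, det_succ, det_swap (vec k t m1) (vec (k + 2) B mB),
      det_succ', hg1, hg2]
    ring
  have hnO : nm O ≤ 2 * l2 + 2 * a + 2 * B := by
    rw [hO]
    have e1 := nm_sub (vec k l2 m2 + vec (k + 1) a ma) (vec (k + 2) B mB)
    have e2 := nm_add (vec k l2 m2) (vec (k + 1) a ma)
    have e3 := nm_vec k hl2 hm2
    have e4 := nm_vec (k + 1) ha hma
    have e5 := nm_vec (k + 2) hB0.le hmB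
    linarith
  by_cases hex : ∃ t, 0 < t ∧ W1 = vec k t m1 ∧ (l2 = 0 ∨ m1 ≤ m2)
  · obtain ⟨t, ht, rfl, hlm⟩ := hex
    have h3 := det_exact_l 0 O (vec k t m1) W2
    rw [hdet t] at h3
    have h4 : 0 ≤ 2 * (t * l2) * (m2 - m1) := by
      rcases hlm with h | h
      · rw [h]; simp
      · have : 0 ≤ m2 - m1 := by linarith
        positivity
    have h5 : nm (vec k t m1) * nm (W2 - O) ≤ (2 * t) * R :=
      mul_le_mul (nm_vec k ht.le hm1) h2 (nm_nonneg _) (by positivity)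
    have h6 : t * a * (99 / 100) ≤ t * a * g1 := mul_le_mul_of_nonneg_left c1.1 (by positivity)
    have h7 : t * B * (99 / 100) ≤ t * B * g2 := mul_le_mul_of_nonneg_left c2.1 (by positivity)
    have h8 : 0 ≤ t * a := by positivity
    have h9 : t * (100 * R) ≤ t * B := mul_le_mul_of_nonneg_left (by linarith) ht.le
    have h10 : 0 < t * R := by positivity
    linarith
  · have hgap : 8 * nm (W1 - vec k l1 m1) * l2 ≤ l1 * l2 * (m2 - m1) := by
      rcases hm with h | ⟨h, h' | h'⟩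
      · rw [h]; simp
      · obtain ⟨t, ht, hW⟩ := h'
        exact absurd ⟨t, ht, hW, Or.inr h⟩ hex
      · have := mul_le_mul_of_nonneg_right h' hl2
        linarith
    obtain ⟨r, hr⟩ : ∃ r, r = nm (W1 - vec k l1 m1) := ⟨_, rfl⟩
    have herr := det_err (vec k l1 m1) O W1 W2
    rw [hdet, ← hr] at herr
    rw [← hr] at hgap h1
    have hr0 : 0 ≤ r := hr ▸ nm_nonneg _
    have t1 : nm (vec k l1 m1) * nm (W2 - O) ≤ (2 * l1) * R :=
      mul_le_mul (nm_vec k hl10.le hm1) h2 (nm_nonneg _) (by positivity)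
    have t2 : r * nm O ≤ r * (2 * l2 + 2 * a + 2 * B) :=
      mul_le_mul_of_nonneg_left hnO hr0
    have t3 : r * nm (W2 - O) ≤ R * R := mul_le_mul h1 h2 (nm_nonneg _) hR.le
    have t4 : r * a ≤ R * a := mul_le_mul_of_nonneg_right h1 ha
    have t5 : r * B ≤ R * B := mul_le_mul_of_nonneg_right h1 hB0.le
    have h6 : l1 * a * (99 / 100) ≤ l1 * a * g1 := mul_le_mul_of_nonneg_left c1.1 (by positivity)
    have h7 : l1 * B * (99 / 100) ≤ l1 * B * g2 := mul_le_mul_of_nonneg_left c2.1 (by positivity)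
    have h8 : 0 ≤ l1 * a := by positivity
    have h9 : l1 * (100 * R) ≤ l1 * B := mul_le_mul_of_nonneg_left (by linarith) hl10.le
    have h10 : 100 * R * B ≤ l1 * B := mul_le_mul_of_nonneg_right (by linarith) hB0.le
    have h11 : 100 * R * a ≤ l1 * a := mul_le_mul_of_nonneg_right (by linarith) ha
    have h12 : 100 * R * R ≤ l1 * R := mul_le_mul_of_nonneg_right (by linarith) hR.le
    have h13 : 0 < l1 * B := by positivity
    have h14 : 0 ≤ r * l2 := by positivity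
    have h15 : 0 < l1 * R := by positivity
    have e1 : r * (2 * l2 + 2 * a + 2 * B) = 2 * (r * l2) + 2 * (r * a) + 2 * (r * B) := by ring
    linarith

lemma corner_g0 (k : ZMod 3) {N R : ℝ} (hR : 0 < R) (hN : 100 * R ≤ N)
    {l1 m1 b mb A mA l2 m2 : ℝ} (hl1 : 0 ≤ l1) (hl2 : N ≤ l2) (hb : 0 ≤ b) (hA : N ≤ A)
    (hm1 : |m1| ≤ 1 / 1000) (hm2 : |m2| ≤ 1 / 1000) (hmb : |mb| ≤ 1 / 1000)
    (hmA : |mA| ≤ 1 / 1000)
    {W1 W2 : ℝ × ℝ}
    (hm : l1 = 0 ∨ (m1 ≤ m2 ∧ ((∃ t, 0 < t ∧ W2 = vec k t m2) ∨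
      8 * nm (W2 - vec k l2 m2) ≤ (m2 - m1) * l2)))
    (h1 : nm (W1 - (vec k l1 m1 + vec (k + 2) b mb - vec (k + 1) A mA)) ≤ R)
    (h2 : nm (W2 - vec k l2 m2) ≤ R) :
    0 < det W1 W2 := by
  set I := vec k l1 m1 + vec (k + 2) b mb - vec (k + 1) A mA with hI
  have hl20 : 0 < l2 := by linarith
  have hA0 : 0 < A := by linarith
  obtain ⟨g3, hg3⟩ : ∃ g, g = 1 - m2 + mb + 3 * mb * m2 := ⟨_, rfl⟩
  obtain ⟨g5, hg5⟩ : ∃ g, g = 1 - mA + m2 + 3 * m2 * mA := ⟨_, rfl⟩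
  have c3 := (hg3 ▸ g_ge hmb hm2 : 99 / 100 ≤ g3 ∧ g3 ≤ 101 / 100)
  have c5 := (hg5 ▸ g_ge hm2 hmA : 99 / 100 ≤ g5 ∧ g5 ≤ 101 / 100)
  have hdet : ∀ t, det I (vec k t m2) =
      2 * (l1 * t) * (m2 - m1) + t * b * g3 + t * A * g5 := by
    intro t
    rw [hI]
    simp only [det_sub_l, det_add_l]
    rw [det_same, det_succ', det_swap (vec (k + 1) A mA) (vec k t m2),
      det_succ, hg3, hg5]
    ring
  have hnI : nm I ≤ 2 * l1 + 2 * b + 2 * A := by
    rw [hI]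
    have e1 := nm_sub (vec k l1 m1 + vec (k + 2) b mb) (vec (k + 1) A mA)
    have e2 := nm_add (vec k l1 m1) (vec (k + 2) b mb)
    have e3 := nm_vec k hl1 hm1
    have e4 := nm_vec (k + 2) hb hmb
    have e5 := nm_vec (k + 1) hA0.le hmA
    linarith
  by_cases hex : ∃ t, 0 < t ∧ W2 = vec k t m2 ∧ (l1 = 0 ∨ m1 ≤ m2)
  · obtain ⟨t, ht, rfl, hlm⟩ := hex
    have h3 : det I (vec k t m2) - nm (W1 - I) * nm (vec k t m2) ≤ det W1 (vec k t m2) := by
      have e : det W1 (vec k t m2) = det I (vec k t m2) + det (W1 - I) (vec k t m2) := by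
        unfold det; simp; ring
      have h1 := neg_abs_le (det (W1 - I) (vec k t m2))
      have h4 := abs_det (W1 - I) (vec k t m2)
      linarith
    rw [hdet t] at h3
    have h4 : 0 ≤ 2 * (l1 * t) * (m2 - m1) := by
      rcases hlm with h | h
      · rw [h]; simp
      · have : 0 ≤ m2 - m1 := by linarith
        positivity
    have h5 : nm (W1 - I) * nm (vec k t m2) ≤ R * (2 * t) :=
      mul_le_mul h1 (nm_vec k ht.le hm2) (nm_nonneg _) hR.le
    have h6 : t * b * (99 / 100) ≤ t * b * g3 := mul_le_mul_of_nonneg_left c3.1 (by positivity)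
    have h7 : t * A * (99 / 100) ≤ t * A * g5 := mul_le_mul_of_nonneg_left c5.1 (by positivity)
    have h8 : 0 ≤ t * b := by positivity
    have h9 : t * (100 * R) ≤ t * A := mul_le_mul_of_nonneg_left (by linarith) ht.le
    have h10 : 0 < t * R := by positivity
    linarith
  · have hgap : 8 * nm (W2 - vec k l2 m2) * l1 ≤ l1 * l2 * (m2 - m1) := by
      rcases hm with h | ⟨h, h' | h'⟩
      · rw [h]; simp
      · obtain ⟨t, ht, hW⟩ := h'
        exact absurd ⟨t, ht, hW, Or.inr h⟩ hex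
      · have := mul_le_mul_of_nonneg_right h' hl1
        linarith
    obtain ⟨r, hr⟩ : ∃ r, r = nm (W2 - vec k l2 m2) := ⟨_, rfl⟩
    have herr := det_err I (vec k l2 m2) W1 W2
    rw [hdet, ← hr] at herr
    rw [← hr] at hgap h2
    have hr0 : 0 ≤ r := hr ▸ nm_nonneg _
    have t1 : nm I * r ≤ (2 * l1 + 2 * b + 2 * A) * r :=
      mul_le_mul_of_nonneg_right hnI hr0
    have t2 : nm (W1 - I) * nm (vec k l2 m2) ≤ R * (2 * l2) :=
      mul_le_mul h1 (nm_vec k hl20.le hm2) (nm_nonneg _) hR.le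
    have t3 : nm (W1 - I) * r ≤ R * R := mul_le_mul h1 h2 hr0 hR.le
    have t4 : r * b ≤ R * b := mul_le_mul_of_nonneg_right h2 hb
    have t5 : r * A ≤ R * A := mul_le_mul_of_nonneg_right h2 hA0.le
    have h6 : l2 * b * (99 / 100) ≤ l2 * b * g3 := mul_le_mul_of_nonneg_left c3.1 (by positivity)
    have h7 : l2 * A * (99 / 100) ≤ l2 * A * g5 := mul_le_mul_of_nonneg_left c5.1 (by positivity)
    have h8 : 0 ≤ l2 * b := by positivity
    have h9 : l2 * (100 * R) ≤ l2 * A := mul_le_mul_of_nonneg_left (by linarith) hl20.le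
    have h10 : 100 * R * A ≤ l2 * A := mul_le_mul_of_nonneg_right (by linarith) hA0.le
    have h11 : 100 * R * b ≤ l2 * b := mul_le_mul_of_nonneg_right (by linarith) hb
    have h12 : 100 * R * R ≤ l2 * R := mul_le_mul_of_nonneg_right (by linarith) hR.le
    have h13 : 0 < l2 * A := by positivity
    have h14 : 0 ≤ r * l1 := by positivity
    have h15 : 0 < l2 * R := by positivity
    have e1 : (2 * l1 + 2 * b + 2 * A) * r = 2 * (r * l1) + 2 * (r * b) + 2 * (r * A) := by ring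
    linarith

lemma corner_00 (k : ZMod 3) {l1 m1 l2 m2 : ℝ} (hl1 : 0 < l1) (hl2 : 0 < l2)
    (hm1 : |m1| ≤ 1 / 1000) (hm2 : |m2| ≤ 1 / 1000) (hlt : m1 < m2)
    {W1 W2 : ℝ × ℝ}
    (h1 : (∃ t, 0 < t ∧ W1 = vec k t m1) ∨ 8 * nm (W1 - vec k l1 m1) ≤ (m2 - m1) * l1)
    (h2 : (∃ t, 0 < t ∧ W2 = vec k t m2) ∨ 8 * nm (W2 - vec k l2 m2) ≤ (m2 - m1) * l2) :
    0 < det W1 W2 := by
  have hg : 0 < m2 - m1 := by linarith
  -- reduce to the inexact case
  have key : ∀ {l1 l2 : ℝ}, 0 < l1 → 0 < l2 → 8 * nm (W1 - vec k l1 m1) ≤ (m2 - m1) * l1 →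
      8 * nm (W2 - vec k l2 m2) ≤ (m2 - m1) * l2 → 0 < det W1 W2 := by
    intro l1 l2 hl1 hl2 h1 h2
    have herr := det_err (vec k l1 m1) (vec k l2 m2) W1 W2
    rw [det_same] at herr
    obtain ⟨r, hr⟩ : ∃ r, r = nm (W1 - vec k l1 m1) := ⟨_, rfl⟩
    obtain ⟨s, hs⟩ : ∃ s, s = nm (W2 - vec k l2 m2) := ⟨_, rfl⟩
    rw [← hr, ← hs] at herr
    rw [← hr] at h1
    rw [← hs] at h2
    have hr0 : 0 ≤ r := hr ▸ nm_nonneg _
    have hs0 : 0 ≤ s := hs ▸ nm_nonneg _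
    have t1 : nm (vec k l1 m1) * s ≤ (2 * l1) * s :=
      mul_le_mul_of_nonneg_right (nm_vec k hl1.le hm1) hs0
    have t2 : r * nm (vec k l2 m2) ≤ r * (2 * l2) :=
      mul_le_mul_of_nonneg_left (nm_vec k hl2.le hm2) hr0
    have t3 : l1 * (8 * s) ≤ l1 * ((m2 - m1) * l2) := mul_le_mul_of_nonneg_left h2 hl1.le
    have t4 : 8 * r * l2 ≤ (m2 - m1) * l1 * l2 := mul_le_mul_of_nonneg_right h1 hl2.le
    have t5 : r ≤ l1 := by
      have b1 := abs_le.1 hm1
      have b2 := abs_le.1 hm2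
      have : (m2 - m1) * l1 ≤ 1 * l1 := mul_le_mul_of_nonneg_right (by linarith) hl1.le
      linarith
    have t6 : r * s ≤ l1 * s := mul_le_mul_of_nonneg_right t5 hs0
    have t7 : 0 < l1 * l2 * (m2 - m1) := by positivity
    linarith
  have e1 : ∃ l, 0 < l ∧ 8 * nm (W1 - vec k l m1) ≤ (m2 - m1) * l := by
    rcases h1 with ⟨t, ht, rfl⟩ | h
    · exact ⟨t, ht, by rw [sub_self]; unfold nm; simp; positivity⟩
    · exact ⟨l1, hl1, h⟩
  have e2 : ∃ l, 0 < l ∧ 8 * nm (W2 - vec k l m2) ≤ (m2 - m1) * l := by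
    rcases h2 with ⟨t, ht, rfl⟩ | h
    · exact ⟨t, ht, by rw [sub_self]; unfold nm; simp; positivity⟩
    · exact ⟨l2, hl2, h⟩
  obtain ⟨a, ha, ha'⟩ := e1
  obtain ⟨b, hb, hb'⟩ := e2
  exact key ha hb ha' hb'

end CornerAux

variable {V F D : Type} [Fintype V] [Fintype F] [Fintype D]

namespace PMap
open CornerAux
variable {M : PMap V F D} {o : F}

/-- a possible child contribution -/
def Lab.cnKd (L : Lab M o) (m Lam : ZMod 3 → F → ℝ) (j : ZMod 3) (f : F) (b μ : ℝ) : Prop :=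
  (b = 0 ∧ μ = m j f) ∨ ∃ c ∈ L.kids j f, b = Lam j c ∧ μ = m j c

section
variable {L : Lab M o} {m Lam : ZMod 3 → F → ℝ} {N : ℝ}

lemma Lab.Flow.cn_small (hF : L.Flow m Lam N) {j : ZMod 3} {f : F} {b μ : ℝ}
    (h : L.cnKd m Lam j f b μ) : |μ| ≤ 1 / 1000 := by
  rcases h with ⟨_, rfl⟩ | ⟨c, _, _, rfl⟩ <;> exact hF.small _ _

lemma Lab.Flow.cn_nonneg (hF : L.Flow m Lam N) {j : ZMod 3} {f : F} {b μ : ℝ}
    (h : L.cnKd m Lam j f b μ) : 0 ≤ b := by
  rcases h with ⟨rfl, _⟩ | ⟨c, _, rfl, _⟩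
  · exact le_rfl
  · exact hF.nonneg _ _

lemma Lab.Flow.cn_sum (hF : L.Flow m Lam N) {j : ZMod 3} {f : F} {b μ : ℝ}
    (h : L.cnKd m Lam j f b μ) : b ≤ ∑ c ∈ L.kids j f, Lam j c := by
  rcases h with ⟨rfl, _⟩ | ⟨c, hc, rfl, _⟩
  · exact Finset.sum_nonneg fun _ _ => hF.nonneg _ _
  · exact Finset.single_le_sum (f := fun c => Lam j c) (fun _ _ => hF.nonneg _ _) hc

lemma Lab.Flow.cn_sum' (hF : L.Flow m Lam N) {j : ZMod 3} {f : F} {b μ : ℝ}
    (h : L.cnKd m Lam j f b μ) :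
    |μ - m j f| * b ≤ ∑ c ∈ L.kids j f, |m j c - m j f| * Lam j c := by
  have h0 : ∀ c ∈ L.kids j f, 0 ≤ |m j c - m j f| * Lam j c := fun _ _ =>
    mul_nonneg (abs_nonneg _) (hF.nonneg _ _)
  rcases h with ⟨rfl, _⟩ | ⟨c, hc, rfl, rfl⟩
  · rw [mul_zero]; exact Finset.sum_nonneg h0
  · exact Finset.single_le_sum (f := fun c => |m j c - m j f| * Lam j c) h0 hc

lemma Lab.Flow.cn_two_kids (hF : L.Flow m Lam N) {f : F} (hf : f ≠ o) {i j : ZMod 3} (hij : i ≠ j)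
    {a ma b mb : ℝ} (h1 : L.cnKd m Lam i f a ma) (h2 : L.cnKd m Lam j f b mb) :
    N + 80 * (|ma - m i f| * a + |mb - m j f| * b) ≤ Lam i f - a ∧
    N + 80 * (|ma - m i f| * a + |mb - m j f| * b) ≤ Lam j f - b := by
  have e1 := hF.cn_sum h1
  have e2 := hF.cn_sum h2
  have e3 := hF.cn_sum' h1
  have e4 := hF.cn_sum' h2
  have e5 : ∑ c ∈ L.kids i f, |m i c - m i f| * Lam i c + ∑ c ∈ L.kids j f, |m j c - m j f| * Lam j c
      ≤ ∑ k, ∑ c ∈ L.kids k f, |m k c - m k f| * Lam k c := by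
    rw [← Finset.sum_pair (f := fun k => ∑ c ∈ L.kids k f, |m k c - m k f| * Lam k c) hij]
    apply Finset.sum_le_sum_of_subset_of_nonneg (Finset.subset_univ _)
    intro k _ _
    exact Finset.sum_nonneg fun _ _ => mul_nonneg (abs_nonneg _) (hF.nonneg _ _)
  have l1 := hF.lower f hf i
  have l2 := hF.lower f hf j
  constructor <;> linarith

lemma Lab.Flow.cn_ge (hF : L.Flow m Lam N) {f : F} (hf : f ≠ o) (j : ZMod 3) : N ≤ Lam j f := by
  have l1 := hF.lower f hf j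
  have h1 : 0 ≤ ∑ k, ∑ c ∈ L.kids k f, |m k c - m k f| * Lam k c :=
    Finset.sum_nonneg fun _ _ => Finset.sum_nonneg fun _ _ =>
      mul_nonneg (abs_nonneg _) (hF.nonneg _ _)
  have h2 : 0 ≤ ∑ c ∈ L.kids j f, Lam j c := Finset.sum_nonneg fun _ _ => hF.nonneg _ _
  linarith

end

lemma Lab.Ch.cn_mem_kids {L : Lab M o} {j : ZMod 3} {d : D} (h : L.Ch j d) :
    M.fc (M.rev d) ∈ L.kids j (M.fc d) := by
  unfold Lab.kids
  rw [Finset.mem_filter]
  exact ⟨Finset.mem_univ _, h.par, h.1⟩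

variable (L : Lab M o) (m Lam : ZMod 3 → F → ℝ)

lemma Lab.cn_om_cF {d : D} (hd : M.fc d ≠ o) (h : L.cF d) : L.Ch (L.l d) d ∧
    L.om m Lam d = vec (L.l d) (Lam (L.l d) (M.fc (M.rev d))) (m (L.l d) (M.fc (M.rev d))) := by
  obtain ⟨h1, h2, h3, h4, h5⟩ := L.chain d hd h
  refine ⟨⟨h1, h2, h4⟩, ?_⟩
  unfold Lab.om Lab.pv
  have e : L.l (M.rev d) + 2 = L.l d := by
    rw [h4]
    generalize L.l d = k
    revert k; decide
  rw [if_pos ⟨h1, h2⟩, if_neg (fun hh => hh.2 h), e, sub_zero]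

/-- in-vector at a special dart -/
lemma Lab.cn_om_in {d : D} (hd : M.fc d ≠ o) (h : ¬ L.cF d) (k : ZMod 3) (hk : L.l (M.nxt d) = k) :
    ∃ l1 m1 b mb, L.om m Lam d = vec k l1 m1 + vec (k + 2) b mb -
      vec (k + 1) (Lam (k + 1) (M.fc d)) (m (k + 1) (M.fc d)) ∧
      ((l1 = 0 ∧ m1 = m k (M.fc d)) ∨
        (L.Ch k d ∧ l1 = Lam k (M.fc (M.rev d)) ∧ m1 = m k (M.fc (M.rev d)))) ∧
      L.cnKd m Lam (k + 2) (M.fc d) b mb := by
  have hs := L.special_step d hd h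
  rw [hk] at hs
  have e1 : L.l d + 2 = k + 1 := by
    rw [hs]
    generalize L.l d = k
    revert k; decide
  have hp : L.pv m Lam d = vec (k + 1) (Lam (k + 1) (M.fc d)) (m (k + 1) (M.fc d)) := by
    unfold Lab.pv
    rw [if_pos ⟨hd, h⟩, e1]
  unfold Lab.om
  rw [hp]
  rcases L.four d with a | a | a | a
  · obtain ⟨h1, h2, h3, h4, h5, h6, h7⟩ := L.uniV d a
    have hc : L.Ch k d := ⟨h2, h4, by rw [h6, e1]⟩
    refine ⟨Lam k (M.fc (M.rev d)), m k (M.fc (M.rev d)), 0, m (k + 2) (M.fc d), ?_,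
      Or.inr ⟨hc, rfl, rfl⟩, Or.inl ⟨rfl, rfl⟩⟩
    unfold Lab.pv
    have e2 : L.l (M.rev d) + 2 = k := by
      rw [h6, hs]
      generalize L.l d = k
      revert k; decide
    rw [if_pos ⟨h2, h4⟩, e2]
    simp [vec]
  · obtain ⟨h1, h2, h3, h4, h5, h6, h7⟩ := L.uniV (M.rev d) a
    rw [M.rev_rev] at h2 h4 h6 h7
    have e2 : L.l (M.rev d) = k := by
      rw [hs, h6]
      generalize L.l (M.rev d) = k
      revert k; decide
    have hc : L.Ch (k + 2) d := ⟨h1, h3, by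
      rw [e2]; generalize k = k; revert k; decide⟩
    refine ⟨0, m k (M.fc d), Lam (k + 2) (M.fc (M.rev d)), m (k + 2) (M.fc (M.rev d)), ?_,
      Or.inl ⟨rfl, rfl⟩, Or.inr ⟨_, hc.cn_mem_kids, rfl, rfl⟩⟩
    unfold Lab.pv
    rw [if_pos ⟨h1, h3⟩, e2]
    simp [vec]
  · exact absurd a h
  · refine ⟨0, m k (M.fc d), 0, m (k + 2) (M.fc d), ?_,
      Or.inl ⟨rfl, rfl⟩, Or.inl ⟨rfl, rfl⟩⟩
    unfold Lab.pv
    rw [if_neg (fun hh => hh.2 a)]
    simp [vec]

/-- out-vector at a special dart -/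
lemma Lab.cn_om_out {x : D} (hx : M.fc x ≠ o) (h : ¬ L.cF x) (k : ZMod 3) (hk : L.l x = k) :
    ∃ l2 m2 a ma, L.om m Lam x = vec k l2 m2 + vec (k + 1) a ma -
      vec (k + 2) (Lam (k + 2) (M.fc x)) (m (k + 2) (M.fc x)) ∧
      ((l2 = 0 ∧ m2 = m k (M.fc x)) ∨
        (L.Ch k x ∧ l2 = Lam k (M.fc (M.rev x)) ∧ m2 = m k (M.fc (M.rev x)))) ∧
      L.cnKd m Lam (k + 1) (M.fc x) a ma := by
  have hp : L.pv m Lam x = vec (k + 2) (Lam (k + 2) (M.fc x)) (m (k + 2) (M.fc x)) := by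
    unfold Lab.pv
    rw [if_pos ⟨hx, h⟩, hk]
  unfold Lab.om
  rw [hp]
  rcases L.four x with a | a | a | a
  · obtain ⟨h1, h2, h3, h4, h5, h6, h7⟩ := L.uniV x a
    have hc : L.Ch (k + 1) x := ⟨h2, h4, by rw [h6, hk, add_assoc]; rfl⟩
    refine ⟨0, m k (M.fc x), Lam (k + 1) (M.fc (M.rev x)), m (k + 1) (M.fc (M.rev x)), ?_,
      Or.inl ⟨rfl, rfl⟩, Or.inr ⟨_, hc.cn_mem_kids, rfl, rfl⟩⟩
    unfold Lab.pv
    have e2 : L.l (M.rev x) + 2 = k + 1 := by
      rw [h6, hk]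
      generalize k = k
      revert k; decide
    rw [if_pos ⟨h2, h4⟩, e2]
    simp [vec]
  · obtain ⟨h1, h2, h3, h4, h5, h6, h7⟩ := L.uniV (M.rev x) a
    rw [M.rev_rev] at h2 h4 h6 h7
    have e2 : L.l (M.rev x) = k + 1 := by
      rw [← hk, h6]
      generalize L.l (M.rev x) = k
      revert k; decide
    have hc : L.Ch k x := ⟨h1, h3, e2⟩
    refine ⟨Lam k (M.fc (M.rev x)), m k (M.fc (M.rev x)), 0, m (k + 1) (M.fc x), ?_,
      Or.inr ⟨hc, rfl, rfl⟩, Or.inl ⟨rfl, rfl⟩⟩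
    unfold Lab.pv
    have e3 : L.l (M.rev x) + 2 = k := by
      rw [e2]
      generalize k = k
      revert k; decide
    rw [if_pos ⟨h1, h3⟩, e3]
    simp [vec]
  · exact absurd a h
  · refine ⟨0, m k (M.fc x), 0, m (k + 1) (M.fc x), ?_,
      Or.inl ⟨rfl, rfl⟩, Or.inl ⟨rfl, rfl⟩⟩
    unfold Lab.pv
    rw [if_neg (fun hh => hh.2 a)]
    simp [vec]

end PMap


namespace PMap
open CornerAux
variable {M : PMap V F D} {o : F}

/-- the corner condition -/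
theorem Lab.cn_corner (L : Lab M o) (m Lam : ZMod 3 → F → ℝ) (N R : ℝ) (hR : 0 < R)
    (hN : 100 * R ≤ N) (hF : L.Flow m Lam N) (W : D → ℝ × ℝ)
    (hW : ∀ d, nm (W d - L.om m Lam d) ≤ R) (hG : L.Gap m Lam W) (d : D) (hd : M.fc d ≠ o) :
    0 < det (W d) (W (M.nxt d)) := by
  have hN0 : 0 < N := by linarith
  have hx : M.fc (M.nxt d) ≠ o := by rw [M.fc_nxt]; exact hd
  obtain ⟨k, hk⟩ : ∃ k, L.l (M.nxt d) = k := ⟨_, rfl⟩
  have n12 : k + 1 ≠ k + 2 := by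
    clear hk; revert k; decide
  by_cases c1 : L.cF d
  · obtain ⟨hc1, ho1⟩ := L.cn_om_cF m Lam hd c1
    have e : L.l d = k := by
      have := L.lf d hd
      rw [if_pos c1, add_zero, hk] at this
      exact this.symm
    rw [e] at hc1 ho1
    by_cases c2 : L.cF (M.nxt d)
    · obtain ⟨hc2, ho2⟩ := L.cn_om_cF m Lam hx c2
      rw [hk] at hc2 ho2
      have g1 := hG.left k d hd hc1 hc2 hk c1
      have g2 := hG.right k d hd hc1 hc2 hk c2
      have g3 := hG.lt k d hd hc1 hc2 hk c1 c2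
      rw [ho1] at g1
      rw [ho2] at g2
      exact corner_00 k (lt_of_lt_of_le hN0 (hF.cn_ge hc1.1 k)) (lt_of_lt_of_le hN0 (hF.cn_ge hc2.1 k))
        (hF.small _ _) (hF.small _ _) g3 g1 g2
    · obtain ⟨l2, m2, a, ma, ho2, hl2, hka⟩ := L.cn_om_out m Lam hx c2 k hk
      have w1 := hW d
      have w2 := hW (M.nxt d)
      rw [ho1] at w1
      rw [ho2] at w2
      have hm2 : |m2| ≤ 1 / 1000 := by
        rcases hl2 with ⟨_, rfl⟩ | ⟨_, _, rfl⟩ <;> exact hF.small _ _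
      have hl20 : 0 ≤ l2 := by
        rcases hl2 with ⟨rfl, _⟩ | ⟨_, rfl, _⟩
        · exact le_rfl
        · exact hF.nonneg _ _
      refine corner_0g k hR hN (hF.cn_ge hc1.1 k) hl20 (hF.cn_nonneg hka) (hF.cn_ge hx (k + 2))
        (hF.small _ _) hm2 (hF.cn_small hka) (hF.small _ _) ?_ w1 w2
      rcases hl2 with ⟨h, _⟩ | ⟨hc2, rfl, rfl⟩
      · exact Or.inl h
      · right
        have g1 := hG.left k d hd hc1 hc2 hk c1
        rw [ho1] at g1
        exact ⟨hG.le k d hd hc1 hc2 hk, g1⟩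
  · obtain ⟨l1, m1, b, mb, ho1, hl1, hkb⟩ := L.cn_om_in m Lam hd c1 k hk
    have hm1 : |m1| ≤ 1 / 1000 := by
      rcases hl1 with ⟨_, rfl⟩ | ⟨_, _, rfl⟩ <;> exact hF.small _ _
    have hl10 : 0 ≤ l1 := by
      rcases hl1 with ⟨rfl, _⟩ | ⟨_, rfl, _⟩
      · exact le_rfl
      · exact hF.nonneg _ _
    have w1 := hW d
    have w2 := hW (M.nxt d)
    rw [ho1] at w1
    by_cases c2 : L.cF (M.nxt d)
    · obtain ⟨hc2, ho2⟩ := L.cn_om_cF m Lam hx c2
      rw [hk] at hc2 ho2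
      rw [ho2] at w2
      refine corner_g0 k hR hN hl10 (hF.cn_ge hc2.1 k) (hF.cn_nonneg hkb) (hF.cn_ge hd (k + 1))
        hm1 (hF.small _ _) (hF.cn_small hkb) (hF.small _ _) ?_ w1 w2
      rcases hl1 with ⟨h, _⟩ | ⟨hc1, rfl, rfl⟩
      · exact Or.inl h
      · right
        have g1 := hG.right k d hd hc1 hc2 hk c2
        rw [ho2] at g1
        exact ⟨hG.le k d hd hc1 hc2 hk, g1⟩
    · obtain ⟨l2, m2, a, ma, ho2, hl2, hka⟩ := L.cn_om_out m Lam hx c2 k hk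
      rw [M.fc_nxt] at ho2 hka
      rw [ho2] at w2
      have hm2 : |m2| ≤ 1 / 1000 := by
        rcases hl2 with ⟨_, rfl⟩ | ⟨_, _, rfl⟩ <;> exact hF.small _ _
      have hl20 : 0 ≤ l2 := by
        rcases hl2 with ⟨rfl, _⟩ | ⟨_, rfl, _⟩
        · exact le_rfl
        · exact hF.nonneg _ _
      obtain ⟨t1, t2⟩ := hF.cn_two_kids hd n12 hka hkb
      refine corner_gg k hR hN hl10 hl20 (hF.cn_nonneg hka) (hF.cn_nonneg hkb) hm1 hm2
        (hF.cn_small hka) (hF.cn_small hkb) (hF.small _ _) (hF.small _ _) ?_ t1 t2 w1 w2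
      rcases hl1 with ⟨h, _⟩ | ⟨hc1, rfl, rfl⟩
      · rw [h]; simp
      · rcases hl2 with ⟨h, _⟩ | ⟨hc2, rfl, rfl⟩
        · rw [h]; simp
        · have := hG.le k d hd hc1 hc2 hk
          have h1 := hF.nonneg k (M.fc (M.rev d))
          have h2 := hF.nonneg k (M.fc (M.rev (M.nxt d)))
          have h3 : 0 ≤ m k (M.fc (M.rev (M.nxt d))) - m k (M.fc (M.rev d)) := by linarith
          positivity

/-- the auxiliary slope -/
def cnS : ℝ := - (Real.sqrt 2 / 20)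

lemma cn_s_bd : -(71 / 1000) ≤ cnS ∧ cnS ≤ - (7 / 100) := by
  unfold cnS
  have h := Real.sq_sqrt (show (0 : ℝ) ≤ 2 by norm_num)
  have h0 := Real.sqrt_nonneg 2
  constructor
  · have : Real.sqrt 2 ≤ 142 / 100 := by
      rw [Real.sqrt_le_left (by norm_num)]; norm_num
    linarith
  · have : 14 / 10 ≤ Real.sqrt 2 := by
      apply Real.le_sqrt_of_sq_le; norm_num
    linarith

/-- the auxiliary direction -/
def cnZ : ℝ × ℝ := vec 0 1 cnS

lemma cn_z_ne (p : ℤ × ℤ) (hp : p ≠ 0) : det cnZ (rl p) ≠ 0 := by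
  intro h
  have e : det cnZ (rl p) = (p.2 : ℝ) + cnS * ((p.2 : ℝ) - 2 * p.1) := by
    unfold cnZ det rl
    rw [vec_0]
    simp only
    ring
  rw [e] at h
  by_cases hz : (p.2 : ℤ) - 2 * p.1 = 0
  · have hz' : (p.2 : ℝ) - 2 * p.1 = 0 := by exact_mod_cast hz
    rw [hz', mul_zero, add_zero] at h
    have h2 : p.2 = 0 := by exact_mod_cast h
    have h1 : p.1 = 0 := by omega
    exact hp (Prod.ext h1 h2)
  · have hz' : (p.2 : ℝ) - 2 * p.1 ≠ 0 := by exact_mod_cast hz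
    have hirr := irrational_sqrt_two
    apply hirr
    refine ⟨(20 * (p.2 : ℚ)) / ((p.2 : ℚ) - 2 * p.1), ?_⟩
    push_cast
    rw [div_eq_iff hz']
    unfold cnS at h
    linarith

lemma cn_z_nm : nm cnZ ≤ 13 / 10 := by
  unfold cnZ nm
  rw [vec_0]
  have h := cn_s_bd
  simp only [one_mul]
  rw [abs_of_nonneg (by linarith), abs_of_nonpos (by linarith)]
  linarith

lemma cn_det_lower {R : ℝ} {om W : ℝ × ℝ} (hW : nm (W - om) ≤ R) :
    det cnZ om - 13 / 10 * R ≤ det cnZ W ∧ det cnZ W ≤ det cnZ om + 13 / 10 * R := by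
  have e : det cnZ W = det cnZ om + det cnZ (W - om) := by
    unfold det; simp; ring
  have h1 := abs_det cnZ (W - om)
  have h2 := cn_z_nm
  have h3 : nm cnZ * nm (W - om) ≤ 13 / 10 * R :=
    mul_le_mul h2 hW (nm_nonneg _) (by norm_num)
  have h4 := abs_le.1 (le_trans h1 h3)
  rw [e]
  constructor <;> linarith [h4.1, h4.2]

section signs
variable (L : Lab M o) (m Lam : ZMod 3 → F → ℝ) (N R : ℝ) (hR : 0 < R)
    (hN : 100 * R ≤ N) (hF : L.Flow m Lam N) (W : D → ℝ × ℝ)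
    (hW : ∀ d, nm (W d - L.om m Lam d) ≤ R)
include hR hN hF hW

lemma Lab.cn_sgn0 (d : D) (hd : M.fc d ≠ o) (h : L.l d = 0) : 0 < det cnZ (W d) := by
  have hs := cn_s_bd
  have hw := (cn_det_lower (hW d)).1
  suffices 13 / 10 * R < det cnZ (L.om m Lam d) by linarith
  by_cases c : L.cF d
  · obtain ⟨hc, ho⟩ := L.cn_om_cF m Lam hd c
    rw [h] at ho hc
    rw [ho]
    unfold cnZ
    rw [det_same, one_mul]
    have h1 := hF.cn_ge hc.1 0
    have h2 := abs_le.1 (hF.small 0 (M.fc (M.rev d)))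
    have h3 : Lam 0 (M.fc (M.rev d)) * (69 / 1000) ≤
        Lam 0 (M.fc (M.rev d)) * (m 0 (M.fc (M.rev d)) - cnS) :=
      mul_le_mul_of_nonneg_left (by linarith) (by linarith)
    linarith
  · obtain ⟨l2, m2, a, ma, ho, hl2, hka⟩ := L.cn_om_out m Lam hd c 0 h
    rw [ho]
    have hm2 : |m2| ≤ 1 / 1000 := by
      rcases hl2 with ⟨_, rfl⟩ | ⟨_, _, rfl⟩ <;> exact hF.small _ _
    have hl20 : 0 ≤ l2 := by
      rcases hl2 with ⟨rfl, _⟩ | ⟨_, rfl, _⟩
      · exact le_rfl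
      · exact hF.nonneg _ _
    have ha := hF.cn_nonneg hka
    have hma := hF.cn_small hka
    have hB := hF.cn_ge hd (0 + 2)
    have hmB := hF.small (0 + 2) (M.fc d)
    obtain ⟨B, hB'⟩ : ∃ B, B = Lam (0 + 2) (M.fc d) := ⟨_, rfl⟩
    obtain ⟨mB, hmB'⟩ : ∃ mB, mB = m (0 + 2) (M.fc d) := ⟨_, rfl⟩
    rw [← hB', ← hmB']
    rw [← hB'] at hB
    rw [← hmB'] at hmB
    unfold cnZ
    rw [det_sub_r, det_add_r, det_same, det_succ, det_swap (vec 0 1 cnS) (vec (0 + 2) B mB),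
      det_succ']
    have b1 := abs_le.1 hm2
    have b2 := abs_le.1 hma
    have b3 := abs_le.1 hmB
    have t1 : 0 ≤ 2 * (1 * l2) * (m2 - cnS) := by
      have : 0 ≤ m2 - cnS := by linarith
      positivity
    have t2 : 0 ≤ 1 * a * (1 - ma + cnS + 3 * cnS * ma) := by
      have : 0 ≤ 1 - ma + cnS + 3 * cnS * ma := by nlinarith
      positivity
    have t3 : B * (9 / 10) ≤ B * 1 * (1 - cnS + mB + 3 * mB * cnS) := by
      rw [mul_one]
      apply mul_le_mul_of_nonneg_left _ (by linarith)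
      nlinarith
    linarith

lemma Lab.cn_sgn1 (d : D) (hd : M.fc d ≠ o) (h : L.l d = 1) (c : L.cF d) : 0 < det cnZ (W d) := by
  have hs := cn_s_bd
  have hw := (cn_det_lower (hW d)).1
  suffices 13 / 10 * R < det cnZ (L.om m Lam d) by linarith
  obtain ⟨hc, ho⟩ := L.cn_om_cF m Lam hd c
  rw [h] at ho hc
  rw [ho]
  unfold cnZ
  have e := det_succ 0 1 cnS (Lam 1 (M.fc (M.rev d))) (m 1 (M.fc (M.rev d)))
  rw [zero_add] at e
  rw [e]
  have h1 := hF.cn_ge hc.1 1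
  have h2 := abs_le.1 (hF.small 1 (M.fc (M.rev d)))
  obtain ⟨x, hx⟩ : ∃ x, x = Lam 1 (M.fc (M.rev d)) := ⟨_, rfl⟩
  obtain ⟨y, hy⟩ : ∃ y, y = m 1 (M.fc (M.rev d)) := ⟨_, rfl⟩
  rw [← hx] at h1 ⊢
  rw [← hy] at h2 ⊢
  have h3 : x * (9 / 10) ≤ 1 * x * (1 - y + cnS + 3 * cnS * y) := by
    rw [one_mul]
    apply mul_le_mul_of_nonneg_left _ (by linarith)
    nlinarith
  linarith

lemma Lab.cn_sgn2 (d : D) (hd : M.fc d ≠ o) (h : L.l d = 2) (c : L.cF d) : det cnZ (W d) < 0 := by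
  have hs := cn_s_bd
  have hw := (cn_det_lower (hW d)).2
  suffices det cnZ (L.om m Lam d) < -(13 / 10 * R) by linarith
  obtain ⟨hc, ho⟩ := L.cn_om_cF m Lam hd c
  rw [h] at ho hc
  rw [ho]
  unfold cnZ
  have e := det_succ' 0 (Lam 2 (M.fc (M.rev d))) (m 2 (M.fc (M.rev d))) 1 cnS
  rw [zero_add] at e
  rw [det_swap, e]
  have h1 := hF.cn_ge hc.1 2
  have h2 := abs_le.1 (hF.small 2 (M.fc (M.rev d)))
  obtain ⟨x, hx⟩ : ∃ x, x = Lam 2 (M.fc (M.rev d)) := ⟨_, rfl⟩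
  obtain ⟨y, hy⟩ : ∃ y, y = m 2 (M.fc (M.rev d)) := ⟨_, rfl⟩
  rw [← hx] at h1 ⊢
  rw [← hy] at h2 ⊢
  have h3 : x * (9 / 10) ≤ x * 1 * (1 - cnS + y + 3 * y * cnS) := by
    rw [mul_one]
    apply mul_le_mul_of_nonneg_left _ (by linarith)
    nlinarith
  linarith

/-- a change from minus to plus happens at the special dart of label 2 -/
lemma Lab.cn_change (x : D) (hx : M.fc x ≠ o) (h1 : det cnZ (W x) < 0)
    (h2 : 0 < det cnZ (W (M.nxt x))) :
    (¬ L.cF x ∧ L.l x = 2) ∨ (¬ L.cF (M.nxt x) ∧ L.l (M.nxt x) = 2) := by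
  have hx' : M.fc (M.nxt x) ≠ o := by rw [M.fc_nxt]; exact hx
  have key : L.l (M.nxt x) = 2 → ¬ L.cF (M.nxt x) := by
    intro h c
    have := L.cn_sgn2 m Lam N R hR hN hF W hW _ hx' h c
    linarith
  rcases zm3 (L.l x) with h | h | h
  · have := L.cn_sgn0 m Lam N R hR hN hF W hW x hx h
    linarith
  · right
    have c : ¬ L.cF x := by
      intro c
      have := L.cn_sgn1 m Lam N R hR hN hF W hW x hx h c
      linarith
    have e := L.special_step x hx c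
    rw [h] at e
    exact ⟨key e, e⟩
  · by_cases c : L.cF x
    · right
      have e := L.lf x hx
      rw [if_pos c, add_zero, h] at e
      exact ⟨key e, e⟩
    · exact Or.inl ⟨c, h⟩

end signs

theorem Lab.inner_convex {M : PMap V F D} {o : F} (H : M.Three) (L : Lab M o)
    (m Lam : ZMod 3 → F → ℝ) (N R : ℝ) (hR : 0 < R) (hN : 100 * R ≤ N) (hF : L.Flow m Lam N)
    (Y : V → ℤ × ℤ) (hW : ∀ d, nm (M.ev (fun v => rl (Y v)) d - L.om m Lam d) ≤ R)
    (hG : L.Gap m Lam (M.ev (fun v => rl (Y v)))) :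
    ∀ d d', M.fc d = M.fc d' → M.fc d ≠ o → d' ≠ d → d' ≠ M.nxt d →
      0 < det (M.ev (fun v => rl (Y v)) d) (rl (Y (M.vt d')) - rl (Y (M.vt d))) := by
  intro d d' hdd hd hne1 hne2
  have hcor : ∀ x, M.fc x = M.fc d → 0 < det (M.ev (fun v => rl (Y v)) x)
      (M.ev (fun v => rl (Y v)) (M.nxt x)) := fun x hx =>
    L.cn_corner m Lam N R hR hN hF _ hW hG x (by rw [hx]; exact hd)
  refine poly_convex M (fun v => rl (Y v)) (M.fc d) cnZ hcor ?_ ?_ d d' rfl hdd.symm hne1 hne2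
  · intro x hx
    have e : M.ev (fun v => rl (Y v)) x = rl (Y (M.vt (M.rev x)) - Y (M.vt x)) := by
      unfold PMap.ev rl
      ext <;> simp
    have h := hcor x hx
    rw [e] at h ⊢
    apply cn_z_ne
    intro h0
    rw [h0] at h
    unfold det rl at h
    simp at h
  · intro x y hx hy a1 a2 b1 b2
    have hxo : M.fc x ≠ o := by rw [hx]; exact hd
    have hyo : M.fc y ≠ o := by rw [hy]; exact hd
    have hxo' : M.fc (M.nxt x) ≠ o := by rw [M.fc_nxt]; exact hxo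
    rcases L.cn_change m Lam N R hR hN hF _ hW x hxo a1 a2 with ⟨p1, p2⟩ | ⟨p1, p2⟩ <;>
      rcases L.cn_change m Lam N R hR hN hF _ hW y hyo b1 b2 with ⟨q1, q2⟩ | ⟨q1, q2⟩
    · exact L.spec_unique hxo (by rw [hx, hy]) p1 q1 (by rw [p2, q2])
    · have := L.spec_unique hxo (by rw [hx, M.fc_nxt, hy]) p1 q1 (by rw [p2, q2])
      rw [this] at a1
      linarith
    · have := L.spec_unique hxo' (by rw [M.fc_nxt, hx, hy]) p1 q1 (by rw [p2, q2])
      rw [← this] at b1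
      linarith
    · have := L.spec_unique hxo' (by rw [M.fc_nxt, M.fc_nxt, hx, hy]) p1 q1 (by rw [p2, q2])
      exact M.nxt.injective this

end PMap

end P8ffccf
end
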