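import Pool.Agent.Lib.P8ffccf.Net
import Pool.Agent.Lib.P8ffccf.Poly

/-! # Convexity of the outer face of a rounded flow drawing -/

set_option linter.unusedVariables false
set_option linter.unusedSectionVars false

noncomputable section

namespace P8ffccf

open Classical Finset

variable {V F D : Type} [Fintype V] [Fintype F] [Fintype D]

namespace PMap

namespace OuterAux

lemma vec0 (x m : ℝ) : vec 0 x m = (x * (1 + m), x * (2 * m)) := by
  have h1 : Dz 0 = (1, 0) := by decide
  have h2 : Ez 0 = (1, 2) := by decide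
  unfold vec rl
  rw [h1, h2]
  ext <;> simp [-mul_eq_mul_left_iff] <;> ring

lemma vec1 (x m : ℝ) : vec 1 x m = (x * (-2 * m), x * (1 - m)) := by
  have h1 : Dz 1 = (0, 1) := by decide
  have h2 : Ez 1 = (-2, -1) := by decide
  unfold vec rl
  rw [h1, h2]
  ext <;> simp [-mul_eq_mul_left_iff] <;> ring

lemma vec2 (x m : ℝ) : vec 2 x m = (x * (-1 + m), x * (-1 - m)) := by
  have h1 : Dz 2 = (-1, -1) := by decide
  have h2 : Ez 2 = (1, -1) := by decide
  unfold vec rl
  rw [h1, h2]
  ext <;> simp [-mul_eq_mul_left_iff] <;> ring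

lemma three_cases (k : ZMod 3) : k = 0 ∨ k = 1 ∨ k = 2 := by
  revert k
  decide

lemma det_vec_same (k : ZMod 3) (x m x' m' : ℝ) :
    det (vec k x m) (vec k x' m') = 2 * x * x' * (m' - m) := by
  rcases three_cases k with rfl | rfl | rfl
  · rw [vec0, vec0]; unfold det; ring
  · rw [vec1, vec1]; unfold det; ring
  · rw [vec2, vec2]; unfold det; ring

lemma det_vec_succ (k : ZMod 3) (x m x' m' : ℝ) :
    det (vec k x m) (vec (k + 1) x' m') = x * x' * (1 - m' + m + 3 * m * m') := by
  rcases three_cases k with rfl | rfl | rfl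
  · rw [zero_add, vec0, vec1]; unfold det; ring
  · have h : (1 : ZMod 3) + 1 = 2 := by decide
    rw [h, vec1, vec2]; unfold det; ring
  · have h : (2 : ZMod 3) + 1 = 0 := by decide
    rw [h, vec2, vec0]; unfold det; ring

lemma nm_nonneg (a : ℝ × ℝ) : 0 ≤ nm a := by unfold nm; positivity

lemma abs_det_le (a b : ℝ × ℝ) : |det a b| ≤ nm a * nm b := by
  unfold det nm
  have h1 : |a.1 * b.2 - a.2 * b.1| ≤ |a.1| * |b.2| + |a.2| * |b.1| := by
    rw [← abs_mul, ← abs_mul]
    exact abs_sub _ _
  have h2 : 0 ≤ |a.1| * |b.1| := by positivity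
  have h3 : 0 ≤ |a.2| * |b.2| := by positivity
  nlinarith

lemma nm_vec_le (k : ZMod 3) (x m : ℝ) (hx : 0 ≤ x) (hm : |m| ≤ 1 / 1000) :
    nm (vec k x m) ≤ 2.01 * x := by
  rw [abs_le] at hm
  obtain ⟨h1, h2⟩ := hm
  rcases three_cases k with rfl | rfl | rfl
  · rw [vec0]
    unfold nm
    simp only
    rw [abs_mul, abs_mul, abs_of_nonneg hx, ← mul_add, mul_comm]
    apply mul_le_mul_of_nonneg_right _ hx
    have e1 : |1 + m| ≤ 1.005 := by rw [abs_le]; constructor <;> linarith
    have e2 : |2 * m| ≤ 1.005 := by rw [abs_le]; constructor <;> linarith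
    linarith
  · rw [vec1]
    unfold nm
    simp only
    rw [abs_mul x, abs_mul x, abs_of_nonneg hx, ← mul_add, mul_comm]
    apply mul_le_mul_of_nonneg_right _ hx
    have e1 : |1 - m| ≤ 1.005 := by rw [abs_le]; constructor <;> linarith
    have e2 : |-2 * m| ≤ 1.005 := by rw [abs_le]; constructor <;> linarith
    linarith
  · rw [vec2]
    unfold nm
    simp only
    rw [abs_mul, abs_mul, abs_of_nonneg hx, ← mul_add, mul_comm]
    apply mul_le_mul_of_nonneg_right _ hx
    have e1 : |-1 + m| ≤ 1.005 := by rw [abs_le]; constructor <;> linarith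
    have e2 : |-1 - m| ≤ 1.005 := by rw [abs_le]; constructor <;> linarith
    linarith

/-- perturbation of a determinant -/
lemma det_pert (a b a' b' : ℝ × ℝ) (R A B : ℝ) (ha : nm (a' - a) ≤ R) (hb : nm (b' - b) ≤ R)
    (hA : nm a ≤ A) (hB : nm b ≤ B) :
    |det a' b' - det a b| ≤ A * R + B * R + R * R := by
  have hR : 0 ≤ R := (nm_nonneg _).trans ha
  have e : det a' b' - det a b = det a (b' - b) + det (a' - a) b + det (a' - a) (b' - b) := by
    unfold det; simp; ring
  rw [e]
  have h1 : |det a (b' - b)| ≤ A * R :=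
    (abs_det_le _ _).trans (mul_le_mul hA hb (nm_nonneg _) ((nm_nonneg _).trans hA))
  have h2 : |det (a' - a) b| ≤ B * R := by
    have := (abs_det_le (a' - a) b).trans (mul_le_mul ha hB (nm_nonneg _) hR)
    linarith
  have h3 : |det (a' - a) (b' - b)| ≤ R * R :=
    (abs_det_le _ _).trans (mul_le_mul ha hb (nm_nonneg _) hR)
  calc |det a (b' - b) + det (a' - a) b + det (a' - a) (b' - b)|
      ≤ |det a (b' - b) + det (a' - a) b| + |det (a' - a) (b' - b)| := abs_add_le _ _
    _ ≤ |det a (b' - b)| + |det (a' - a) b| + |det (a' - a) (b' - b)| := by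
        have := abs_add_le (det a (b' - b)) (det (a' - a) b)
        linarith
    _ ≤ A * R + B * R + R * R := by linarith

/-- The slope of the reference direction. -/
def sl : ℝ := - (7 / 100)

lemma sl_bounds : -(71 / 1000) ≤ sl ∧ sl ≤ -(70 / 1000) := by
  unfold sl
  constructor <;> norm_num

/-- The reference vector. -/
def zz : ℝ × ℝ := (1 + sl, 2 * sl)

lemma nm_zz : nm zz ≤ 1.1 := by
  obtain ⟨h1, h2⟩ := sl_bounds
  unfold zz nm
  simp only
  rw [abs_of_nonneg (by linarith), abs_of_nonpos (by linarith)]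
  linarith

lemma det_zz_pos (k : ZMod 3) (hk : k ≠ 2) (x m R : ℝ) (hR : 0 < R) (hx : 100 * R ≤ x)
    (hm : |m| ≤ 1 / 1000) (w : ℝ × ℝ) (hw : nm (w - vec k x m) ≤ R) : 0 < det zz w := by
  have hx0 : 0 ≤ x := by linarith
  obtain ⟨h1, h2⟩ := sl_bounds
  have e : det zz w = det zz (vec k x m) + det zz (w - vec k x m) := by
    unfold det; simp; ring
  have e1 : |det zz (w - vec k x m)| ≤ 1.1 * R :=
    (abs_det_le _ _).trans (mul_le_mul nm_zz hw (nm_nonneg _) (by norm_num))
  have e2 := (abs_le.mp e1).1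
  rw [abs_le] at hm
  obtain ⟨m1, m2⟩ := hm
  have e3 : 0.1 * x ≤ det zz (vec k x m) := by
    rcases three_cases k with rfl | rfl | rfl
    · rw [vec0]
      unfold det zz
      simp only
      have : (1 + sl) * (x * (2 * m)) - 2 * sl * (x * (1 + m)) = x * (2 * (m - sl)) := by ring
      rw [this, mul_comm]
      apply mul_le_mul_of_nonneg_left _ hx0
      linarith
    · rw [vec1]
      unfold det zz
      simp only
      have : (1 + sl) * (x * (1 - m)) - 2 * sl * (x * (-2 * m)) =
        x * ((1 + sl) * (1 - m) + 4 * sl * m) := by ring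
      rw [this, mul_comm]
      apply mul_le_mul_of_nonneg_left _ hx0
      nlinarith
    · exact absurd rfl hk
  rw [e]
  linarith

lemma det_zz_neg (x m R : ℝ) (hR : 0 < R) (hx : 100 * R ≤ x)
    (hm : |m| ≤ 1 / 1000) (w : ℝ × ℝ) (hw : nm (w - vec 2 x m) ≤ R) : det zz w < 0 := by
  have hx0 : 0 ≤ x := by linarith
  obtain ⟨h1, h2⟩ := sl_bounds
  have e : det zz w = det zz (vec 2 x m) + det zz (w - vec 2 x m) := by
    unfold det; simp; ring
  have e1 : |det zz (w - vec 2 x m)| ≤ 1.1 * R :=
    (abs_det_le _ _).trans (mul_le_mul nm_zz hw (nm_nonneg _) (by norm_num))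
  have e2 := (abs_le.mp e1).2
  rw [abs_le] at hm
  obtain ⟨m1, m2⟩ := hm
  have e3 : det zz (vec 2 x m) ≤ -(0.1 * x) := by
    rw [vec2]
    unfold det zz
    simp only
    have : (1 + sl) * (x * (-1 - m)) - 2 * sl * (x * (-1 + m)) =
      -(x * ((1 + sl) * (1 + m) - 2 * sl * (1 - m))) := by ring
    rw [this, neg_le_neg_iff, mul_comm]
    apply mul_le_mul_of_nonneg_left _ hx0
    nlinarith
  rw [e]
  linarith

variable {M : PMap V F D} {o : F}

/-- The colour of an outer dart. -/
def kc (L : Lab M o) (e : D) : ZMod 3 := L.l (M.rev e) + 2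

lemma kc_nxt (L : Lab M o) (e : D) (he : M.fc e = o) :
    kc L e = kc L (M.nxt e) + if M.nxt e ∈ L.sus then 1 else 0 := by
  unfold kc
  rw [L.outer e he]
  ring

lemma om_outer (H : M.Three) (L : Lab M o) (m Lam : ZMod 3 → F → ℝ) (e : D) (he : M.fc e = o) :
    L.om m Lam e = vec (kc L e) (Lam (kc L e) (M.fc (M.rev e))) (m (kc L e) (M.fc (M.rev e))) := by
  have h1 : M.fc (M.rev e) ≠ o := by rw [← he]; exact H.fc_rev_ne e
  have h2 : ¬ L.cF (M.rev e) := L.ff e (L.out e he)
  unfold Lab.om Lab.pv kc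
  rw [if_pos ⟨h1, h2⟩, if_neg (fun h => h.1 he), sub_zero]

lemma le_Lam (L : Lab M o) (m Lam : ZMod 3 → F → ℝ) (N : ℝ) (hF : L.Flow m Lam N) (k : ZMod 3)
    (f : F) (hf : f ≠ o) : N ≤ Lam k f := by
  have h := hF.lower f hf k
  have h1 : 0 ≤ ∑ j, ∑ c ∈ L.kids j f, |m j c - m j f| * Lam j c := by
    apply Finset.sum_nonneg
    intro j _
    apply Finset.sum_nonneg
    intro c _
    exact mul_nonneg (abs_nonneg _) (hF.nonneg j c)
  have h2 : 0 ≤ ∑ c ∈ L.kids k f, Lam k c := Finset.sum_nonneg fun c _ => hF.nonneg k c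
  linarith

/-- Each colour is left exactly once. -/
lemma card_turn (L : Lab M o) (j : ZMod 3) :
    (univ.filter fun x => (M.fc x = o ∧ M.nxt x ∈ L.sus) ∧ kc L x = j).card = 1 := by
  set A : ZMod 3 → ℕ := fun j =>
    (univ.filter fun x => (M.fc x = o ∧ M.nxt x ∈ L.sus) ∧ kc L x = j).card with hA
  have hcast : ∀ j, (A j : ℤ) =
      ∑ d with M.fc d = o, (if M.nxt d ∈ L.sus ∧ kc L d = j then (1 : ℤ) else 0) := by
    intro j
    rw [hA]
    simp only
    rw [Finset.card_filter, Finset.sum_filter]
    push_cast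
    apply Finset.sum_congr rfl
    intro d _
    by_cases a : M.fc d = o <;> by_cases b : M.nxt d ∈ L.sus <;> by_cases c : kc L d = j <;>
      simp [a, b, c]
  have hstep : ∀ j, A j = A (j + 1) := by
    intro j
    have h1 := hcast j
    have h2 := hcast (j + 1)
    have h3 := M.sum_nxt o (fun d => if kc L d = j then (1 : ℤ) else 0)
    have h4 : ∑ d with M.fc d = o, ((if kc L (M.nxt d) = j then (1 : ℤ) else 0) -
        (if kc L d = j then (1 : ℤ) else 0)) =
        ∑ d with M.fc d = o, ((if M.nxt d ∈ L.sus ∧ kc L d = j + 1 then (1 : ℤ) else 0) -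
          (if M.nxt d ∈ L.sus ∧ kc L d = j then (1 : ℤ) else 0)) := by
      apply Finset.sum_congr rfl
      intro d hd
      simp only [Finset.mem_filter, Finset.mem_univ, true_and] at hd
      have e1 := kc_nxt L d hd
      by_cases a : M.nxt d ∈ L.sus
      · rw [if_pos a] at e1
        rw [e1]
        simp [a]
      · rw [if_neg a, add_zero] at e1
        simp [a, e1]
    rw [Finset.sum_sub_distrib, h3, sub_self, Finset.sum_sub_distrib, ← h1, ← h2] at h4
    omega
  have htot : A 0 + A 1 + A 2 = 3 := by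
    have hs : (univ.filter fun x => M.fc x = o ∧ M.nxt x ∈ L.sus).card = 3 := by
      rw [← L.sus_card]
      apply Finset.card_bij' (fun x _ => M.nxt x) (fun x _ => M.nxt.symm x)
      · intro x hx
        simp only [Finset.mem_filter, Finset.mem_univ, true_and] at hx
        exact hx.2
      · intro x hx
        simp only [Finset.mem_filter, Finset.mem_univ, true_and, Equiv.apply_symm_apply]
        refine ⟨?_, hx⟩
        have := M.fc_nxt (M.nxt.symm x)
        rw [Equiv.apply_symm_apply, L.sus_o x hx] at this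
        exact this.symm
      · intro x _
        exact M.nxt.symm_apply_apply x
      · intro x _
        exact M.nxt.apply_symm_apply x
    refine Eq.trans ?_ hs
    rw [hA]
    simp only
    rw [Finset.card_filter, Finset.card_filter, Finset.card_filter, Finset.card_filter,
      ← Finset.sum_add_distrib, ← Finset.sum_add_distrib]
    apply Finset.sum_congr rfl
    intro d _
    have h3 : ∀ a : ZMod 3, (if a = 0 then 1 else 0) + (if a = 1 then 1 else 0) +
      (if a = 2 then 1 else 0) = (1 : ℕ) := by decide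
    have := h3 (kc L d)
    by_cases a : M.fc d = o <;> by_cases b : M.nxt d ∈ L.sus <;> simp [a, b]
    exact this
  have e0 : A 0 = A 1 := hstep 0
  have e1 : A 1 = A 2 := hstep 1
  show A j = 1
  rcases three_cases j with rfl | rfl | rfl <;> omega

lemma turn_unique (L : Lab M o) {x y : D} (hx : M.fc x = o) (hy : M.fc y = o)
    (hx' : M.nxt x ∈ L.sus) (hy' : M.nxt y ∈ L.sus) (h : kc L x = kc L y) : x = y := by
  have hc := card_turn L (kc L x)
  rw [Finset.card_eq_one] at hc
  obtain ⟨a, ha⟩ := hc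
  have m1 : x ∈ ({a} : Finset D) := by
    rw [← ha]
    simp [hx, hx']
  have m2 : y ∈ ({a} : Finset D) := by
    rw [← ha]
    simp [hy, hy', h]
  rw [Finset.mem_singleton] at m1 m2
  rw [m1, m2]

end OuterAux

open OuterAux in
theorem Lab.outer_convex {M : PMap V F D} {o : F} (H : M.Three) (L : Lab M o)
    (m Lam : ZMod 3 → F → ℝ) (N R δ : ℝ) (hR : 0 < R) (hN : 100 * R ≤ N) (hF : L.Flow m Lam N)
    (hδ : 8 * R ≤ δ * N)
    (hgap : ∀ e, M.fc e = o → M.nxt e ∉ L.sus → δ ≤ m (L.l (M.rev e) + 2) (M.fc (M.rev e)) -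
      m (L.l (M.rev e) + 2) (M.fc (M.rev (M.nxt e))))
    (Y : V → ℤ × ℤ) (hW : ∀ d, nm (M.ev (fun v => rl (Y v)) d - L.om m Lam d) ≤ R) :
    ∀ d d', M.fc d = M.fc d' → M.fc d = o → d' ≠ d → d' ≠ M.nxt d →
      det (M.ev (fun v => rl (Y v)) d) (rl (Y (M.vt d')) - rl (Y (M.vt d))) < 0 := by
  set P : V → ℝ × ℝ := fun v => rl (Y v) with hP
  have hNpos : 0 < N := by linarith
  have hδpos : 0 < δ := by
    by_contra hc
    push Not at hc
    have : δ * N ≤ 0 := mul_nonpos_of_nonpos_of_nonneg hc hNpos.le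
    linarith
  -- data of outer darts
  have hA : ∀ e, M.fc e = o → N ≤ Lam (kc L e) (M.fc (M.rev e)) := by
    intro e he
    exact le_Lam L m Lam N hF _ _ (by rw [← he]; exact H.fc_rev_ne e)
  -- turning
  have hturn : ∀ e, M.fc e = o → det (M.ev P e) (M.ev P (M.nxt e)) < 0 := by
    intro e he
    have he' : M.fc (M.nxt e) = o := by rw [M.fc_nxt, he]
    have a1 := hA e he
    have a2 := hA _ he'
    have w1 := hW e
    have w2 := hW (M.nxt e)
    rw [om_outer H L m Lam e he] at w1
    rw [om_outer H L m Lam _ he'] at w2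
    set A := Lam (kc L e) (M.fc (M.rev e))
    set A' := Lam (kc L (M.nxt e)) (M.fc (M.rev (M.nxt e)))
    set μ := m (kc L e) (M.fc (M.rev e)) with hμ
    set μ' := m (kc L (M.nxt e)) (M.fc (M.rev (M.nxt e))) with hμ'
    have s1 : |μ| ≤ 1 / 1000 := hF.small _ _
    have s2 : |μ'| ≤ 1 / 1000 := hF.small _ _
    have n1 := nm_vec_le (kc L e) A μ (by linarith) s1
    have n2 := nm_vec_le (kc L (M.nxt e)) A' μ' (by linarith) s2
    have hp := det_pert _ _ _ _ R _ _ w1 w2 n1 n2
    have hp2 := (abs_le.mp hp).2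
    have hk := kc_nxt L e he
    have hRA : R * R ≤ 0.01 * A * R := by
      apply mul_le_mul_of_nonneg_right _ hR.le
      linarith
    by_cases hs : M.nxt e ∈ L.sus
    · rw [if_pos hs] at hk
      have e1 : det (vec (kc L e) A μ) (vec (kc L (M.nxt e)) A' μ') =
          - (A' * A * (1 - μ + μ' + 3 * μ' * μ)) := by
        rw [hk, ← det_vec_succ]
        unfold det
        ring
      rw [e1] at hp2
      rw [abs_le] at s1 s2
      have e2 : 0.99 ≤ 1 - μ + μ' + 3 * μ' * μ := by nlinarith [s1.1, s1.2, s2.1, s2.2]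
      have e3 : 0.99 * (A' * A) ≤ A' * A * (1 - μ + μ' + 3 * μ' * μ) := by
        rw [mul_comm]
        apply mul_le_mul_of_nonneg_left e2
        apply mul_nonneg <;> linarith
      have e4 : 100 * R * A ≤ A' * A := by
        apply mul_le_mul_of_nonneg_right _ (by linarith)
        linarith
      have e5 : 100 * R * A' ≤ A' * A := by
        rw [mul_comm A' A]
        apply mul_le_mul_of_nonneg_right _ (by linarith)
        linarith
      have e6 : 0 < R * A := mul_pos hR (by linarith)
      have e7 : 0 < R * A' := mul_pos hR (by linarith)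
      linarith
    · rw [if_neg hs, add_zero] at hk
      have hg := hgap e he hs
      have hg' : δ ≤ μ - μ' := by
        rw [hμ, hμ', ← hk]
        exact hg
      have e1 : det (vec (kc L e) A μ) (vec (kc L (M.nxt e)) A' μ') =
          2 * A * A' * (μ' - μ) := by
        rw [← hk, det_vec_same]
      rw [e1] at hp2
      have e2 : 2 * A * A' * (μ' - μ) ≤ 2 * A * A' * (-δ) := by
        apply mul_le_mul_of_nonneg_left (by linarith)
        apply mul_nonneg <;> linarith
      have e3 : 8 * R * A ≤ δ * A' * A := by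
        apply mul_le_mul_of_nonneg_right _ (by linarith)
        exact hδ.trans (mul_le_mul_of_nonneg_left a2 hδpos.le)
      have e4 : 8 * R * A' ≤ δ * A * A' := by
        apply mul_le_mul_of_nonneg_right _ (by linarith)
        exact hδ.trans (mul_le_mul_of_nonneg_left a1 hδpos.le)
      have e6 : 0 < R * A := mul_pos hR (by linarith)
      have e7 : 0 < R * A' := mul_pos hR (by linarith)
      nlinarith
  -- signs
  have hpos : ∀ e, M.fc e = o → kc L e ≠ 2 → 0 < det zz (M.ev P e) := by
    intro e he hk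
    have w1 := hW e
    rw [om_outer H L m Lam e he] at w1
    exact det_zz_pos (kc L e) hk _ _ R hR (hN.trans (hA e he)) (hF.small _ _) _ w1
  have hneg : ∀ e, M.fc e = o → kc L e = 2 → det zz (M.ev P e) < 0 := by
    intro e he hk
    have w1 := hW e
    have w2 := hA e he
    have w3 := hF.small (kc L e) (M.fc (M.rev e))
    rw [om_outer H L m Lam e he] at w1
    rw [hk] at w1 w2 w3
    exact det_zz_neg _ _ R hR (hN.trans w2) w3 _ w1
  -- the reflected map
  set P' : V → ℝ × ℝ := fun v => ((P v).1, - (P v).2) with hP'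
  have hev : ∀ e, M.ev P' e = ((M.ev P e).1, - (M.ev P e).2) := by
    intro e
    unfold PMap.ev
    rw [hP']
    ext
    · simp
    · simp; ring
  have hz : ∀ e, det (zz.1, - zz.2) (M.ev P' e) = - det zz (M.ev P e) := by
    intro e
    rw [hev]
    unfold det
    ring
  intro d d' hdd hd hne1 hne2
  have hmain := poly_convex M P' o (zz.1, - zz.2)
    (by
      intro e he
      have := hturn e he
      rw [hev, hev]
      have e1 : det ((M.ev P e).1, - (M.ev P e).2) ((M.ev P (M.nxt e)).1, - (M.ev P (M.nxt e)).2) =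
        - det (M.ev P e) (M.ev P (M.nxt e)) := by unfold det; ring
      rw [e1]
      linarith)
    (by
      intro e he
      rw [hz]
      by_cases hk : kc L e = 2
      · have := hneg e he hk
        linarith
      · have := hpos e he hk
        linarith)
    (by
      intro e e' he he' h1 h2 h3 h4
      rw [hz] at h1 h2 h3 h4
      have key : ∀ x, M.fc x = o → - det zz (M.ev P x) < 0 → 0 < - det zz (M.ev P (M.nxt x)) →
          M.nxt x ∈ L.sus ∧ kc L x = 0 := by
        intro x hx a1 a2
        have hx' : M.fc (M.nxt x) = o := by rw [M.fc_nxt, hx]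
        have b1 : kc L x ≠ 2 := by
          intro hk
          have := hneg x hx hk
          linarith
        have b2 : kc L (M.nxt x) = 2 := by
          by_contra hk
          have := hpos _ hx' hk
          linarith
        have b3 := kc_nxt L x hx
        rw [b2] at b3
        by_cases hs : M.nxt x ∈ L.sus
        · rw [if_pos hs] at b3
          refine ⟨hs, ?_⟩
          rw [b3]
          decide
        · rw [if_neg hs, add_zero] at b3
          exact absurd b3 b1
      obtain ⟨k1, k2⟩ := key e he h1 h2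
      obtain ⟨k3, k4⟩ := key e' he' h3 h4
      exact turn_unique L he he' k1 k3 (by rw [k2, k4]))
    d d' hd (by rw [← hdd, hd]) hne1 hne2
  have e1 : det (M.ev P' d) (P' (M.vt d') - P' (M.vt d)) =
      - det (M.ev P d) (P (M.vt d') - P (M.vt d)) := by
    rw [hev, hP']
    unfold det
    simp
    ring
  rw [e1] at hmain
  linarith

end PMap

end P8ffccf

end
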