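import Pool.Agent.Lib.P8ffccf.Net

/-! # Positions from a flow on a Schnyder labelling -/

set_option linter.unusedVariables false
set_option linter.unusedSectionVars false

noncomputable section

namespace P8ffccf

open Classical Finset

variable {V F D : Type} [Fintype V] [Fintype F] [Fintype D]

namespace PMap

namespace PosAux

lemma pv_eq {M : PMap V F D} {o : F} (L : Lab M o) (m Lam : ZMod 3 → F → ℝ) (d : D) :
    L.pv m Lam d =
      ∑ k, if L.Ch k (M.rev d) then vec k (Lam k (M.fc d)) (m k (M.fc d)) else 0 := by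
  have three : (1 : ZMod 3) + 1 + 1 = 0 := by decide
  unfold Lab.pv Lab.Ch
  rw [M.rev_rev]
  by_cases h : M.fc d ≠ o ∧ ¬ L.cF d
  · rw [if_pos h, Finset.sum_eq_single (L.l d + 2)]
    · rw [if_pos]
      refine ⟨h.1, h.2, ?_⟩
      linear_combination -three
    · intro b _ hb
      rw [if_neg]
      rintro ⟨_, _, h3⟩
      apply hb
      rw [h3]
      linear_combination -three
    · intro h'
      exact absurd (Finset.mem_univ _) h'
  · rw [if_neg h]
    symm
    apply Finset.sum_eq_zero
    intro k _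
    rw [if_neg]
    rintro ⟨h1, h2, _⟩
    exact h ⟨h1, h2⟩

lemma sum_pv {M : PMap V F D} {o : F} (L : Lab M o) (m Lam : ZMod 3 → F → ℝ) (f : F)
    (hf : f ≠ o) : ∑ d with M.fc d = f, L.pv m Lam d = ∑ k, vec k (Lam k f) (m k f) := by
  simp only [pv_eq]
  rw [Finset.sum_comm]
  apply Finset.sum_congr rfl
  intro k _
  rw [Finset.sum_eq_single (L.sp k f)]
  · rw [if_pos (L.ch_sp k hf), L.sp_fc]
  · intro d hd hne
    simp only [Finset.mem_filter, Finset.mem_univ, true_and] at hd
    rw [if_neg]
    intro h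
    apply hne
    have := h.sp
    rw [M.rev_rev, hd] at this
    exact this
  · intro h
    exfalso
    apply h
    simp [L.sp_fc]

lemma sum_pv_rev {M : PMap V F D} {o : F} (L : Lab M o) (m Lam : ZMod 3 → F → ℝ) (f : F) :
    ∑ d with M.fc d = f, L.pv m Lam (M.rev d) =
      ∑ k, ∑ c ∈ L.kids k f, vec k (Lam k c) (m k c) := by
  simp only [pv_eq]
  rw [Finset.sum_comm]
  apply Finset.sum_congr rfl
  intro k _
  rw [← Finset.sum_filter, Finset.filter_filter]
  apply Finset.sum_bij' (fun d _ => M.fc (M.rev d)) (fun c _ => M.rev (L.sp k c))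
  · intro d hd
    simp only [Finset.mem_filter, Finset.mem_univ, true_and, M.rev_rev] at hd
    unfold Lab.kids
    simp only [Finset.mem_filter, Finset.mem_univ, true_and]
    exact ⟨by rw [hd.2.par, hd.1], hd.2.1⟩
  · intro c hc
    unfold Lab.kids at hc
    simp only [Finset.mem_filter, Finset.mem_univ, true_and, M.rev_rev] at hc ⊢
    exact ⟨by rw [← L.par_eq k hc.2, hc.1], L.ch_sp k hc.2⟩
  · intro d hd
    simp only [Finset.mem_filter, Finset.mem_univ, true_and, M.rev_rev] at hd
    rw [← hd.2.sp, M.rev_rev]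
  · intro c hc
    rw [M.rev_rev, L.sp_fc]
  · intro d hd
    rfl

end PosAux

open PosAux in
theorem Lab.exists_pos {M : PMap V F D} {o : F} (H : M.Three) (L : Lab M o)
    (m Lam : ZMod 3 → F → ℝ) (hcl : ∀ f, f ≠ o → ∑ k, vec k (Lam k f) (m k f) =
      ∑ k, ∑ c ∈ L.kids k f, vec k (Lam k c) (m k c)) :
    ∃ X : V → ℝ × ℝ, ∀ d, M.ev X d = L.om m Lam d := by
  have hanti : ∀ d, L.om m Lam (M.rev d) = - L.om m Lam d := by
    intro d
    unfold Lab.om
    rw [M.rev_rev]
    abel
  have hface : ∀ f, f ≠ o → ∑ d with M.fc d = f, L.om m Lam d = 0 := by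
    intro f hf
    unfold Lab.om
    rw [Finset.sum_sub_distrib, sum_pv L m Lam f hf, sum_pv_rev, hcl f hf, sub_self]
  have htot : ∑ d, L.om m Lam d = 0 := by
    unfold Lab.om
    rw [Finset.sum_sub_distrib, M.sum_rev (fun d => L.pv m Lam d), sub_self]
  have hfo : ∑ d with M.fc d = o, L.om m Lam d = 0 := by
    rw [← Finset.sum_fiberwise univ M.fc (fun d => L.om m Lam d)] at htot
    rw [Finset.sum_eq_single o] at htot
    · exact htot
    · intro f _ hf
      exact hface f hf
    · intro h
      exact absurd (Finset.mem_univ _) h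
  have hall : ∀ f, ∑ d with M.fc d = f, L.om m Lam d = 0 := by
    intro f
    by_cases hf : f = o
    · rw [hf]; exact hfo
    · exact hface f hf
  obtain ⟨p, hp⟩ := M.exact (K := ℝ) (fun d => (L.om m Lam d).1)
    (fun d => by simp only [hanti, Prod.fst_neg])
    (fun f => by rw [← Prod.fst_sum, hall]; rfl)
  obtain ⟨q, hq⟩ := M.exact (K := ℝ) (fun d => (L.om m Lam d).2)
    (fun d => by simp only [hanti, Prod.snd_neg])
    (fun f => by rw [← Prod.snd_sum, hall]; rfl)
  refine ⟨fun v => (p v, q v), fun d => ?_⟩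
  unfold PMap.ev
  ext
  · exact (hp d).symm
  · exact (hq d).symm

end PMap

end P8ffccf

end
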