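import Pool.Agent.Lib.P8ffccf.Geo

/-! # Feedback rounding along a chain -/

noncomputable section
namespace P8ffccf
open Classical Finset

namespace RoundAux

/-- the three frames -/
lemma frames (k : ZMod 3) : (Dz k = (1, 0) ∧ Ez k = (1, 2)) ∨ (Dz k = (0, 1) ∧ Ez k = (-2, -1)) ∨
    (Dz k = (-1, -1) ∧ Ez k = (1, -1)) := by
  revert k; decide

/-- first coordinate (with respect to the frame) of a vector -/
def al (k : ZMod 3) (z : ℝ × ℝ) : ℝ := (z.1 * (Ez k).2 - z.2 * (Ez k).1) / 2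

/-- second coordinate (with respect to the frame) of a vector -/
def be (k : ZMod 3) (z : ℝ × ℝ) : ℝ := ((Dz k).1 * z.2 - (Dz k).2 * z.1) / 2

lemma al_add_vec (k : ZMod 3) (z : ℝ × ℝ) (s m : ℝ) : al k (z + vec k s m) = al k z + s := by
  rcases frames k with ⟨h1, h2⟩ | ⟨h1, h2⟩ | ⟨h1, h2⟩ <;>
  · simp only [al, vec, rl, h1, h2, Prod.fst_add, Prod.snd_add, Prod.smul_fst, Prod.smul_snd,
      smul_eq_mul]
    push_cast
    ring

lemma be_add_vec (k : ZMod 3) (z : ℝ × ℝ) (s m : ℝ) : be k (z + vec k s m) = be k z + m * s := by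
  rcases frames k with ⟨h1, h2⟩ | ⟨h1, h2⟩ | ⟨h1, h2⟩ <;>
  · simp only [be, vec, rl, h1, h2, Prod.fst_add, Prod.snd_add, Prod.smul_fst, Prod.smul_snd,
      smul_eq_mul]
    push_cast
    ring

lemma bound_of (k : ZMod 3) (z : ℝ × ℝ) {A B : ℝ} (hA : |al k z| ≤ A) (hB : |be k z| ≤ B) :
    |z.1| ≤ A + 2 * B ∧ |z.2| ≤ A + 2 * B := by
  have a1 := abs_le.1 hA
  have b1 := abs_le.1 hB
  rcases frames k with ⟨h1, h2⟩ | ⟨h1, h2⟩ | ⟨h1, h2⟩ <;>
  · simp only [al, be, h1, h2] at a1 b1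
    push_cast at a1 b1
    constructor <;> rw [abs_le] <;> constructor <;> linarith [a1.1, a1.2, b1.1, b1.2]

lemma small_of (k : ZMod 3) (z : ℝ × ℝ) (h1 : |z.1| ≤ 1) (h2 : |z.2| ≤ 1) :
    |al k z| ≤ 3 / 2 ∧ |be k z| ≤ 1 := by
  have a1 := abs_le.1 h1
  have b1 := abs_le.1 h2
  rcases frames k with ⟨h1, h2⟩ | ⟨h1, h2⟩ | ⟨h1, h2⟩ <;>
  · simp only [al, be, h1, h2]
    push_cast
    constructor <;> rw [abs_le] <;> constructor <;> linarith [a1.1, a1.2, b1.1, b1.2]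

lemma rl_sub_vec (y : ℤ × ℤ) (X : ℝ × ℝ) (k : ZMod 3) (L t m : ℝ) :
    rl y + vec k t m - (X + vec k L m) = (rl y - X) + vec k (t - L) m := by
  unfold vec
  module

/-- invariant -/
def Inv (Q : ℕ) (X : ℕ → ℝ × ℝ) (ex : ℕ → Prop) (k : ℕ → ZMod 3) (μ : ℕ → ℝ) (i : ℕ)
    (y : ℤ × ℤ) : Prop :=
  (|(y.1 : ℝ) - (X i).1| ≤ 10 * Q ∧ |(y.2 : ℝ) - (X i).2| ≤ 10 * Q) ∧
  (ex i → |al (k i) (rl y - X i)| ≤ Q + 1 ∧
    |be (k i) (rl y - X i) - μ i * al (k i) (rl y - X i)| ≤ 2 + (Q + 1) * (μ i + 1 / 10))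

lemma abs_mul_le_tenth {m a : ℝ} (hm : |m| ≤ 1 / 10) : |m * a| ≤ |a| / 10 := by
  rw [abs_mul]
  have := mul_le_mul_of_nonneg_right hm (abs_nonneg a)
  linarith

lemma inv_floor {Q : ℕ} (hQ : 1 ≤ Q) (X : ℕ → ℝ × ℝ) (ex : ℕ → Prop) (k : ℕ → ZMod 3)
    {μ : ℕ → ℝ} (hμ : ∀ i, |μ i| ≤ 1 / 10) (i : ℕ) :
    Inv Q X ex k μ i (⌊(X i).1⌋, ⌊(X i).2⌋) := by
  have hQ' : (1:ℝ) ≤ Q := by exact_mod_cast hQ
  have h1 : |(⌊(X i).1⌋ : ℝ) - (X i).1| ≤ 1 := by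
    rw [abs_le]
    constructor
    · linarith [Int.lt_floor_add_one (X i).1]
    · linarith [Int.floor_le (X i).1]
  have h2 : |(⌊(X i).2⌋ : ℝ) - (X i).2| ≤ 1 := by
    rw [abs_le]
    constructor
    · linarith [Int.lt_floor_add_one (X i).2]
    · linarith [Int.floor_le (X i).2]
  refine ⟨⟨by dsimp only; linarith, by dsimp only; linarith⟩, fun _ => ?_⟩
  obtain ⟨h3, h4⟩ := small_of (k i) (rl (⌊(X i).1⌋, ⌊(X i).2⌋) - X i) h1 h2
  refine ⟨by linarith, ?_⟩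
  have h5 := abs_mul_le_tenth (a := al (k i) (rl (⌊(X i).1⌋, ⌊(X i).2⌋) - X i)) (hμ i)
  have h6 := abs_sub (be (k i) (rl (⌊(X i).1⌋, ⌊(X i).2⌋) - X i))
    (μ i * al (k i) (rl (⌊(X i).1⌋, ⌊(X i).2⌋) - X i))
  have h7 := abs_le.1 (hμ i)
  have h8 : 0 ≤ ((Q:ℝ) + 1) * (μ i + 1 / 10) := by
    apply mul_nonneg (by linarith)
    linarith [h7.1]
  linarith

lemma step {Q : ℕ} (hQ : 1 ≤ Q) {X : ℕ → ℝ × ℝ} {ex : ℕ → Prop} {k : ℕ → ZMod 3}
    {L μ : ℕ → ℝ} (hstep : ∀ i, ex i → X (i + 1) = X i + vec (k i) (L i) (μ i))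
    (hfrac : ∀ i, ex i → IsFrac Q (μ i)) (hL : ∀ i, ex i → (Q : ℝ) ≤ L i)
    (hμ : ∀ i, |μ i| ≤ 1 / 10)
    (hmono : ∀ i, ex i → ex (i + 1) → k (i + 1) = k i ∧ μ i ≤ μ (i + 1))
    (i : ℕ) (y : ℤ × ℤ) (hy : Inv Q X ex k μ i y) :
    ∃ y' : ℤ × ℤ, Inv Q X ex k μ (i + 1) y' ∧
      (¬ ex i → y' = (⌊(X (i + 1)).1⌋, ⌊(X (i + 1)).2⌋)) ∧
      (ex i → ∃ t : ℝ, 0 < t ∧ rl y' = rl y + vec (k i) t (μ i)) := by
  by_cases hex : ex i
  swap
  · exact ⟨_, inv_floor hQ X ex k hμ (i + 1), fun _ => rfl, fun h => absurd h hex⟩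
  have hQ' : (1:ℝ) ≤ Q := by exact_mod_cast hQ
  obtain ⟨b, a, ha1, haQ, hba⟩ := hfrac i hex
  have ha1' : (1:ℝ) ≤ a := by exact_mod_cast ha1
  have haQ' : (a:ℝ) ≤ Q := by exact_mod_cast haQ
  have hLi := hL i hex
  obtain ⟨hinv1, hinv2⟩ := hy
  obtain ⟨hα, hβ⟩ := hinv2 hex
  set Z := rl y - X i with hZ
  -- the integer multiple
  have hτ : ∃ τ : ℤ, 1 ≤ τ ∧ |al (k i) Z + ((τ:ℝ) * a - L i)| ≤ Q + 1 := by
    have hLa : 1 ≤ L i / a := by
      rw [le_div_iff₀ (by linarith)]; linarith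
    have hdiv : L i / a * a = L i := by field_simp
    have hα' := abs_le.1 hα
    rcases le_total 0 (al (k i) Z) with h0 | h0
    · refine ⟨⌊L i / a⌋, ?_, ?_⟩
      · rw [Int.le_floor]; exact_mod_cast hLa
      · have e1 := Int.floor_le (L i / a)
        have e2 := Int.lt_floor_add_one (L i / a)
        have e3 : (⌊L i / a⌋ : ℝ) * a ≤ L i := by
          calc (⌊L i / a⌋ : ℝ) * a ≤ L i / a * a := by
                apply mul_le_mul_of_nonneg_right e1 (by linarith)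
            _ = L i := hdiv
        have e4 : L i ≤ (⌊L i / a⌋ : ℝ) * a + a := by
          calc L i = L i / a * a := hdiv.symm
            _ ≤ (⌊L i / a⌋ + 1) * a := by
                apply mul_le_mul_of_nonneg_right e2.le (by linarith)
            _ = _ := by ring
        rw [abs_le]
        constructor <;> linarith [hα'.1, hα'.2]
    · refine ⟨⌈L i / a⌉, ?_, ?_⟩
      · have : (1:ℝ) ≤ ⌈L i / a⌉ := hLa.trans (Int.le_ceil _)
        exact_mod_cast this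
      · have e1 := Int.le_ceil (L i / a)
        have e2 := Int.ceil_lt_add_one (L i / a)
        have e3 : L i ≤ (⌈L i / a⌉ : ℝ) * a := by
          calc L i = L i / a * a := hdiv.symm
            _ ≤ (⌈L i / a⌉ : ℝ) * a := by
                apply mul_le_mul_of_nonneg_right e1 (by linarith)
        have e4 : (⌈L i / a⌉ : ℝ) * a ≤ L i + a := by
          calc (⌈L i / a⌉ : ℝ) * a ≤ (L i / a + 1) * a := by
                apply mul_le_mul_of_nonneg_right e2.le (by linarith)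
            _ = L i + a := by rw [add_mul, hdiv, one_mul]
        rw [abs_le]
        constructor <;> linarith [hα'.1, hα'.2]
  obtain ⟨τ, hτ1, hτ2⟩ := hτ
  have hτ1' : (1:ℝ) ≤ τ := by exact_mod_cast hτ1
  set y' : ℤ × ℤ := (y.1 + τ * (a * (Dz (k i)).1 + b * (Ez (k i)).1),
    y.2 + τ * (a * (Dz (k i)).2 + b * (Ez (k i)).2)) with hy'
  have hrl : rl y' = rl y + vec (k i) (τ * a) (μ i) := by
    rw [hy', hba]
    unfold rl vec rl
    ext
    · simp only [Prod.fst_add, Prod.smul_fst, smul_eq_mul]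
      push_cast
      field_simp
    · simp only [Prod.snd_add, Prod.smul_snd, smul_eq_mul]
      push_cast
      field_simp
  have hZ' : rl y' - X (i + 1) = Z + vec (k i) ((τ:ℝ) * a - L i) (μ i) := by
    rw [hrl, hstep i hex, rl_sub_vec]
  have hα2 : |al (k i) (rl y' - X (i + 1))| ≤ Q + 1 := by
    rw [hZ', al_add_vec]; exact hτ2
  have hβ2 : |be (k i) (rl y' - X (i + 1)) - μ i * al (k i) (rl y' - X (i + 1))| ≤
      2 + (Q + 1) * (μ i + 1 / 10) := by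
    rw [hZ', al_add_vec, be_add_vec]
    have : be (k i) Z + μ i * ((τ:ℝ) * a - L i) - μ i * (al (k i) Z + ((τ:ℝ) * a - L i)) =
        be (k i) Z - μ i * al (k i) Z := by ring
    rw [this]; exact hβ
  have hμi := abs_le.1 (hμ i)
  have hβ3 : |be (k i) (rl y' - X (i + 1))| ≤ 2 + (Q + 1) * (3 / 10) := by
    have h1 := abs_mul_le_tenth (a := al (k i) (rl y' - X (i + 1))) (hμ i)
    have h2 : |be (k i) (rl y' - X (i + 1))| ≤
        |be (k i) (rl y' - X (i + 1)) - μ i * al (k i) (rl y' - X (i + 1))| +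
        |μ i * al (k i) (rl y' - X (i + 1))| := by
      have := abs_add_le (be (k i) (rl y' - X (i + 1)) - μ i * al (k i) (rl y' - X (i + 1)))
        (μ i * al (k i) (rl y' - X (i + 1)))
      rwa [sub_add_cancel] at this
    have h3 : ((Q:ℝ) + 1) * (μ i + 1 / 10) ≤ (Q + 1) * (2 / 10) := by
      apply mul_le_mul_of_nonneg_left _ (by linarith)
      linarith [hμi.2]
    linarith
  obtain ⟨hb1, hb2⟩ := bound_of (k i) (rl y' - X (i + 1)) hα2 hβ3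
  refine ⟨y', ⟨⟨?_, ?_⟩, ?_⟩, fun h => absurd hex h, fun _ => ⟨τ * a, by positivity, hrl⟩⟩
  · have : (rl y' - X (i + 1)).1 = (y'.1 : ℝ) - (X (i + 1)).1 := rfl
    rw [this] at hb1
    linarith
  · have : (rl y' - X (i + 1)).2 = (y'.2 : ℝ) - (X (i + 1)).2 := rfl
    rw [this] at hb2
    linarith
  · intro hex'
    obtain ⟨hk, hm⟩ := hmono i hex hex'
    rw [hk]
    refine ⟨hα2, ?_⟩
    set A := al (k i) (rl y' - X (i + 1)) with hA
    set B := be (k i) (rl y' - X (i + 1)) with hB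
    have h1 : |B - μ (i + 1) * A| ≤ |B - μ i * A| + |(μ (i + 1) - μ i) * A| := by
      have := abs_sub (B - μ i * A) ((μ (i + 1) - μ i) * A)
      have e : B - μ i * A - (μ (i + 1) - μ i) * A = B - μ (i + 1) * A := by ring
      rwa [e] at this
    have h2 : |(μ (i + 1) - μ i) * A| ≤ (μ (i + 1) - μ i) * (Q + 1) := by
      rw [abs_mul, abs_of_nonneg (by linarith)]
      apply mul_le_mul_of_nonneg_left hα2 (by linarith)
    have h3 : 2 + ((Q:ℝ) + 1) * (μ (i + 1) + 1 / 10) =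
        2 + ((Q:ℝ) + 1) * (μ i + 1 / 10) + (μ (i + 1) - μ i) * (Q + 1) := by ring
    rw [h3]
    linarith

end RoundAux

open RoundAux

theorem round_run (Q : ℕ) (hQ : 1 ≤ Q) (X : ℕ → ℝ × ℝ) (ex : ℕ → Prop) (k : ℕ → ZMod 3)
    (L μ : ℕ → ℝ) (hstep : ∀ i, ex i → X (i + 1) = X i + vec (k i) (L i) (μ i))
    (hfrac : ∀ i, ex i → IsFrac Q (μ i)) (hL : ∀ i, ex i → (Q : ℝ) ≤ L i)
    (hμ : ∀ i, |μ i| ≤ 1 / 10)
    (hmono : ∀ i, ex i → ex (i + 1) → k (i + 1) = k i ∧ μ i ≤ μ (i + 1)) :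
    ∃ Y : ℕ → ℤ × ℤ, (∀ i, |(Y i).1 - (X i).1| ≤ 10 * Q ∧ |(Y i).2 - (X i).2| ≤ 10 * Q) ∧
      (∀ i, ¬ ex i → Y (i + 1) = (⌊(X (i + 1)).1⌋, ⌊(X (i + 1)).2⌋)) ∧
      (∀ i, ex i → ∃ t : ℝ, 0 < t ∧ rl (Y (i + 1)) = rl (Y i) + vec (k i) t (μ i)) := by
  choose! next hn1 hn2 hn3 using step hQ hstep hfrac hL hμ hmono
  let Y : ℕ → ℤ × ℤ := fun i => Nat.rec (⌊(X 0).1⌋, ⌊(X 0).2⌋) (fun i y => next i y) i
  have hY : ∀ i, Inv Q X ex k μ i (Y i) := by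
    intro i
    induction i with
    | zero => exact inv_floor hQ X ex k hμ 0
    | succ i ih => exact hn1 i (Y i) ih
  exact ⟨Y, fun i => (hY i).1, fun i h => hn2 i (Y i) (hY i) h, fun i h => hn3 i (Y i) (hY i) h⟩

end P8ffccf
end
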