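import Pool.Agent.Lib.P8ffccf.Net
import Pool.Agent.Lib.P8ffccf.Round

/-! # Rounding a drawing face by face -/

set_option linter.unusedVariables false
set_option linter.unusedSectionVars false
set_option linter.style.longLine false

noncomputable section

namespace P8ffccf

open Classical Finset

variable {V F D : Type} [Fintype V] [Fintype F] [Fintype D]

namespace PMap

lemma Lab.om_cF {M : PMap V F D} {o : F} (L : Lab M o) (m Lam : ZMod 3 → F → ℝ) (d : D)
    (hd : M.fc d ≠ o) (h : L.cF d) : L.om m Lam d =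
      vec (L.l d) (Lam (L.l d) (M.fc (M.rev d))) (m (L.l d) (M.fc (M.rev d))) := by
  obtain ⟨h1, h2, h3, h4, h5⟩ := L.chain d hd h
  have three : (1 : ZMod 3) + 2 = 0 := by decide
  have e : L.l (M.rev d) + 2 = L.l d := by rw [h4, add_assoc, three, add_zero]
  unfold Lab.om Lab.pv
  rw [if_pos ⟨h1, h2⟩, if_neg (fun h' => h'.2 h), e, sub_zero]

theorem Lab.exists_round {M : PMap V F D} {o : F} (H : M.Three) (L : Lab M o)
    (m Lam : ZMod 3 → F → ℝ) (hm : ∀ k f, |m k f| ≤ 1 / 10)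
    (X : V → ℝ × ℝ) (hX : ∀ d, M.ev X d = L.om m Lam d)
    (own : V → F) (hown : ∀ v, ∃ d, M.vt d = v ∧ M.fc d = own v)
    (big : F → Prop) (Qf : F → ℕ) (hQ : ∀ f, 1 ≤ Qf f) (Exd : D → Prop)
    (hEx : ∀ d, Exd d → M.fc d ≠ o ∧ L.cF d ∧ big (M.fc d) ∧ own (M.vt d) = M.fc d ∧
      own (M.vt (M.rev d)) = M.fc d ∧ IsFrac (Qf (M.fc d)) (m (L.l d) (M.fc (M.rev d))) ∧
      (Qf (M.fc d) : ℝ) ≤ Lam (L.l d) (M.fc (M.rev d)))
    (hmono : ∀ d, Exd d → Exd (M.nxt d) →
      m (L.l d) (M.fc (M.rev d)) ≤ m (L.l d) (M.fc (M.rev (M.nxt d)))) :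
    ∃ Y : V → ℤ × ℤ,
      (∀ v, big (own v) → |((Y v).1 : ℝ) - (X v).1| ≤ 10 * Qf (own v) ∧
        |((Y v).2 : ℝ) - (X v).2| ≤ 10 * Qf (own v)) ∧
      (∀ v, ¬ big (own v) → |((Y v).1 : ℝ) - (X v).1| ≤ 1 ∧ |((Y v).2 : ℝ) - (X v).2| ≤ 1) ∧
      (∀ d, Exd d → ∃ t : ℝ, 0 < t ∧ M.ev (fun v => rl (Y v)) d =
        vec (L.l d) t (m (L.l d) (M.fc (M.rev d)))) := by
  have hs : ∀ f, ∃ s, M.fc s = f ∧ ¬ Exd s := by
    intro f
    by_cases hf : f = o
    · obtain ⟨s, hs⟩ := M.fc_surj f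
      exact ⟨s, hs, fun h => (hEx s h).1 (hs.trans hf)⟩
    · exact ⟨L.sp 0 f, L.sp_fc 0 f, fun h => L.sp_cF 0 hf (hEx _ h).2.1⟩
  choose s hs1 hs2 using hs
  -- the darts of a face in order
  let y : F → ℕ → D := fun f i => M.nxt^[i] (M.nxt (s f))
  have hy0 : ∀ f, y f 0 = M.nxt (s f) := fun f => rfl
  have hysucc : ∀ f i, y f (i + 1) = M.nxt (y f i) := fun f i => Function.iterate_succ_apply' _ _ _
  have hyfc : ∀ f i, M.fc (y f i) = f := by
    intro f i
    induction i with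
    | zero => rw [hy0, M.fc_nxt, hs1]
    | succ i ih => rw [hysucc, M.fc_nxt, ih]
  have hrun : ∀ f, ∃ Y : ℕ → ℤ × ℤ,
      (∀ i, |((Y i).1 : ℝ) - (X (M.vt (y f i))).1| ≤ 10 * Qf f ∧
        |((Y i).2 : ℝ) - (X (M.vt (y f i))).2| ≤ 10 * Qf f) ∧
      (∀ i, Exd (y f i) → ∃ t : ℝ, 0 < t ∧ rl (Y (i + 1)) = rl (Y i) +
        vec (L.l (y f i)) t (m (L.l (y f i)) (M.fc (M.rev (y f i))))) := by
    intro f
    obtain ⟨Y, h1, h2, h3⟩ := round_run (Qf f) (hQ f) (fun i => X (M.vt (y f i)))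
      (fun i => Exd (y f i)) (fun i => L.l (y f i))
      (fun i => Lam (L.l (y f i)) (M.fc (M.rev (y f i))))
      (fun i => m (L.l (y f i)) (M.fc (M.rev (y f i)))) (by
        intro i hi
        have h := hX (y f i)
        rw [L.om_cF m Lam _ (hEx _ hi).1 (hEx _ hi).2.1] at h
        rw [← h, hysucc, M.vt_nxt]
        unfold ev
        rw [add_sub_cancel]) (by
        intro i hi
        have h := (hEx _ hi).2.2.2.2.2.1
        rwa [hyfc] at h) (by
        intro i hi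
        have h := (hEx _ hi).2.2.2.2.2.2
        rwa [hyfc] at h) (fun i => hm _ _) (by
        intro i hi hi'
        rw [hysucc] at hi' ⊢
        have hl : L.l (M.nxt (y f i)) = L.l (y f i) :=
          (L.chain _ (hEx _ hi).1 (hEx _ hi).2.1).2.2.1
        refine ⟨hl, ?_⟩
        rw [hl]
        exact hmono _ hi hi')
    exact ⟨Y, h1, h3⟩
  choose Yr hYr1 hYr2 using hrun
  choose c hc1 hc2 using hown
  have hidx : ∀ d, ∃ i, y (M.fc d) i = d := fun d => M.fc_trans _ _ (by rw [M.fc_nxt, hs1])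
  let idx : D → ℕ := fun d => Nat.find (hidx d)
  have hidx1 : ∀ d, y (M.fc d) (idx d) = d := fun d => Nat.find_spec (hidx d)
  have hidx2 : ∀ d, Exd d → idx (M.nxt d) = idx d + 1 := by
    intro d hd
    have hne : s (M.fc d) ≠ d := by
      intro h
      apply hs2 (M.fc d)
      rw [h]
      exact hd
    apply le_antisymm
    · apply Nat.find_min'
      rw [M.fc_nxt, hysucc, hidx1]
    · have h1 := hidx1 (M.nxt d)
      rw [M.fc_nxt] at h1
      rcases Nat.eq_zero_or_pos (idx (M.nxt d)) with h0 | h0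
      · rw [h0, hy0] at h1
        exact absurd (M.nxt.injective h1) hne
      · obtain ⟨j, hj⟩ := Nat.exists_eq_succ_of_ne_zero h0.ne'
        rw [hj, Nat.succ_eq_add_one, hysucc] at h1
        have h2 := M.nxt.injective h1
        have h3 : idx d ≤ j := Nat.find_min' (hidx d) h2
        omega
  have hcor : ∀ d, own (M.vt d) = M.fc d → c (M.vt d) = d := by
    intro d hd
    exact H.corner_unique (hc1 _) (by rw [hc2, hd])
  refine ⟨fun v => if big (own v) then Yr (own v) (idx (c v)) else (⌊(X v).1⌋, ⌊(X v).2⌋),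
    ?_, ?_, ?_⟩
  · intro v hv
    simp only [if_pos hv]
    have h := hYr1 (own v) (idx (c v))
    have h1 := hidx1 (c v)
    rw [hc2] at h1
    rwa [h1, hc1] at h
  · intro v hv
    simp only [if_neg hv]
    constructor
    · rw [abs_le]
      constructor
      · linarith [Int.lt_floor_add_one (X v).1]
      · linarith [Int.floor_le (X v).1]
    · rw [abs_le]
      constructor
      · linarith [Int.lt_floor_add_one (X v).2]
      · linarith [Int.floor_le (X v).2]
  · intro d hd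
    obtain ⟨g1, g2, g3, g4, g5, g6, g7⟩ := hEx d hd
    have h1 := hidx1 d
    obtain ⟨t, ht, h⟩ := hYr2 (M.fc d) (idx d) (by rw [h1]; exact hd)
    refine ⟨t, ht, ?_⟩
    rw [h1, ← hidx2 d hd] at h
    unfold ev
    have e1 : c (M.vt d) = d := hcor d g4
    have e2 : c (M.vt (M.rev d)) = M.nxt d := by
      rw [← M.vt_nxt]
      apply hcor
      rw [M.vt_nxt, g5, M.fc_nxt]
    simp only [g4, g5, if_pos g3, e1, e2, h]
    abel

end PMap

end P8ffccf

end
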