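import Pool.Agent.Lib.P8ffccf.Geo

/-! Greedy choice of increasing slopes with bounded denominators; a lower bound for the number of
Farey fractions in an interval. -/

noncomputable section

namespace P8ffccf

open Classical Finset

/-! ### counting pairs -/

/-- pairs `(a,b)` with `1 ≤ a ≤ n` and `a x < b ≤ a y` -/
def prs (n : ℕ) (x y : ℝ) : Finset ((_ : ℕ) × ℤ) :=
  (Icc 1 n).sigma (fun a => Ioc ⌊(a : ℝ) * x⌋ ⌊(a : ℝ) * y⌋)

lemma mem_prs {n : ℕ} {x y : ℝ} {p : (_ : ℕ) × ℤ} : p ∈ prs n x y ↔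
    (1 ≤ p.1 ∧ p.1 ≤ n) ∧ (p.1 : ℝ) * x < p.2 ∧ (p.2 : ℝ) ≤ (p.1 : ℝ) * y := by
  unfold prs
  rw [mem_sigma, mem_Icc, mem_Ioc, Int.floor_lt, Int.le_floor]

lemma card_prs (n : ℕ) (x y : ℝ) : ((prs n x y).card : ℝ) =
    ∑ a ∈ Icc 1 n, (((⌊(a : ℝ) * y⌋ - ⌊(a : ℝ) * x⌋).toNat : ℕ) : ℝ) := by
  unfold prs
  rw [card_sigma, Nat.cast_sum]
  refine sum_congr rfl (fun a _ => ?_)
  rw [Int.card_Ioc]

lemma sum_Icc_id (n : ℕ) : ∑ a ∈ Icc 1 n, (a : ℝ) = n * (n + 1) / 2 := by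
  induction n with
  | zero => simp
  | succ n ih =>
    rw [sum_Icc_succ_top (by omega), ih]
    push_cast
    ring

lemma card_prs_lower (n : ℕ) {x y : ℝ} :
    (y - x) * (n * (n + 1) / 2) - n ≤ ((prs n x y).card : ℝ) := by
  rw [card_prs, ← sum_Icc_id]
  have h1 : (y - x) * ∑ a ∈ Icc 1 n, (a : ℝ) - n = ∑ a ∈ Icc 1 n, ((y - x) * a - 1) := by
    rw [sum_sub_distrib, mul_sum]
    simp
  rw [h1]
  refine sum_le_sum (fun a _ => ?_)
  have h2 := Int.self_le_toNat (⌊(a : ℝ) * y⌋ - ⌊(a : ℝ) * x⌋)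
  have h3 : ((⌊(a : ℝ) * y⌋ - ⌊(a : ℝ) * x⌋ : ℤ) : ℝ) ≤
      (((⌊(a : ℝ) * y⌋ - ⌊(a : ℝ) * x⌋).toNat : ℕ) : ℝ) := by exact_mod_cast h2
  push_cast at h3
  have h4 := Int.lt_floor_add_one ((a : ℝ) * y)
  have h5 := Int.floor_le ((a : ℝ) * x)
  linarith

lemma card_prs_upper (n : ℕ) {x y : ℝ} (hxy : x ≤ y) :
    ((prs n x y).card : ℝ) ≤ (y - x) * (n * (n + 1) / 2) + n := by
  rw [card_prs, ← sum_Icc_id]
  have h1 : (y - x) * ∑ a ∈ Icc 1 n, (a : ℝ) + n = ∑ a ∈ Icc 1 n, ((y - x) * a + 1) := by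
    rw [sum_add_distrib, mul_sum]
    simp
  rw [h1]
  refine sum_le_sum (fun a _ => ?_)
  have h0 : ⌊(a : ℝ) * x⌋ ≤ ⌊(a : ℝ) * y⌋ :=
    Int.floor_le_floor (mul_le_mul_of_nonneg_left hxy (Nat.cast_nonneg a))
  have h2 := Int.toNat_of_nonneg (sub_nonneg.2 h0)
  have h3 : (((⌊(a : ℝ) * y⌋ - ⌊(a : ℝ) * x⌋).toNat : ℕ) : ℝ) =
      ((⌊(a : ℝ) * y⌋ - ⌊(a : ℝ) * x⌋ : ℤ) : ℝ) := by exact_mod_cast h2
  rw [h3]
  push_cast
  have h4 := Int.floor_le ((a : ℝ) * y)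
  have h5 := Int.lt_floor_add_one ((a : ℝ) * x)
  linarith

/-- coprime pairs -/
def cop (n : ℕ) (x y : ℝ) : Finset ((_ : ℕ) × ℤ) :=
  (prs n x y).filter (fun p => Int.gcd p.2 p.1 = 1)

lemma card_dvd_le (n d : ℕ) (hd : 1 ≤ d) (x y : ℝ) :
    ((prs n x y).filter (fun p => d ∣ p.1 ∧ (d : ℤ) ∣ p.2)).card ≤ (prs (n / d) x y).card := by
  have h1 : (prs n x y).filter (fun p => d ∣ p.1 ∧ (d : ℤ) ∣ p.2) ⊆
      (prs (n / d) x y).image (fun p => (⟨d * p.1, d * p.2⟩ : (_ : ℕ) × ℤ)) := by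
    rintro ⟨a, b⟩ hp
    rw [mem_filter, mem_prs] at hp
    obtain ⟨⟨⟨h1, h2⟩, h3, h4⟩, h5, h6⟩ := hp
    obtain ⟨a', rfl⟩ := h5
    obtain ⟨b', rfl⟩ := h6
    dsimp only at h1 h2 h3 h4
    have hd0 : (0 : ℝ) < d := by exact_mod_cast hd
    rw [mem_image]
    refine ⟨⟨a', b'⟩, ?_, rfl⟩
    rw [mem_prs]
    push_cast at h3 h4
    refine ⟨⟨?_, ?_⟩, ?_, ?_⟩
    · exact Nat.pos_of_ne_zero (fun h => by subst h; omega)
    · rw [Nat.le_div_iff_mul_le hd, mul_comm]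
      exact h2
    · rw [mul_assoc] at h3
      exact lt_of_mul_lt_mul_left h3 hd0.le
    · rw [mul_assoc] at h4
      exact le_of_mul_le_mul_left h4 hd0
  exact (card_le_card h1).trans card_image_le

lemma card_prs_le_cop (n : ℕ) (x y : ℝ) :
    (prs n x y).card ≤ (cop n x y).card + ∑ d ∈ Icc 2 n, (prs (n / d) x y).card := by
  have h1 : prs n x y ⊆ cop n x y ∪ (Icc 2 n).biUnion
      (fun d => (prs n x y).filter (fun p => d ∣ p.1 ∧ (d : ℤ) ∣ p.2)) := by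
    intro p hp
    rw [mem_union]
    by_cases hc : Int.gcd p.2 p.1 = 1
    · left
      unfold cop
      rw [mem_filter]
      exact ⟨hp, hc⟩
    · right
      rw [mem_biUnion]
      have hp' := mem_prs.1 hp
      have h2 : Int.gcd p.2 p.1 ∣ p.1 := by
        have := Int.gcd_dvd_right p.2 (p.1 : ℤ)
        exact_mod_cast this
      have h3 : Int.gcd p.2 p.1 ≠ 0 := by
        intro h
        rw [h] at h2
        have := Nat.eq_zero_of_zero_dvd h2
        omega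
      have h4 : Int.gcd p.2 p.1 ≤ p.1 := Nat.le_of_dvd hp'.1.1 h2
      refine ⟨Int.gcd p.2 p.1, ?_, ?_⟩
      · rw [mem_Icc]
        have := hp'.1.2
        omega
      · rw [mem_filter]
        exact ⟨hp, h2, Int.gcd_dvd_left _ _⟩
  refine (card_le_card h1).trans ((card_union_le _ _).trans ?_)
  refine Nat.add_le_add_left (card_biUnion_le.trans (sum_le_sum (fun d hd => ?_))) _
  rw [mem_Icc] at hd
  exact card_dvd_le n d (by omega) x y

lemma sum_inv_sq (n : ℕ) : ∑ d ∈ Icc 2 n, 1 / (d : ℝ) ^ 2 ≤ 3 / 4 := by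
  have h : ∀ n : ℕ, ∑ d ∈ Icc 2 (n + 2), 1 / (d : ℝ) ^ 2 ≤ 3 / 4 - 1 / ((n : ℝ) + 2) := by
    intro n
    induction n with
    | zero => norm_num
    | succ n ih =>
      rw [show n + 1 + 2 = (n + 2) + 1 by ring, sum_Icc_succ_top (by omega)]
      have h1 : 1 / (((n + 2 + 1 : ℕ) : ℝ)) ^ 2 ≤ 1 / ((n : ℝ) + 2) - 1 / ((n + 1 : ℕ) + 2 : ℝ) := by
        push_cast
        rw [div_sub_div _ _ (by positivity) (by positivity), div_le_div_iff₀ (by positivity) (by positivity)]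
        ring_nf
        nlinarith [Nat.cast_nonneg (α := ℝ) n]
      linarith
  rcases Nat.lt_or_ge n 2 with hn | hn
  · rw [Icc_eq_empty (by omega), sum_empty]
    norm_num
  · obtain ⟨m, rfl⟩ := Nat.exists_eq_add_of_le hn
    rw [add_comm 2 m]
    have := h m
    have h2 : (0 : ℝ) ≤ 1 / (m + 2) := by positivity
    linarith

lemma sum_inv (n : ℕ) (hn : 1 ≤ n) : ∑ d ∈ Icc 2 n, 1 / (d : ℝ) ≤ 2 * Real.sqrt n - 2 := by
  induction n, hn using Nat.le_induction with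
  | base => simp
  | succ n hn ih =>
    rw [sum_Icc_succ_top (by omega)]
    set s := Real.sqrt ((n + 1 : ℕ) : ℝ) with hs
    set t := Real.sqrt (n : ℝ) with ht
    have hs2 : s ^ 2 = n + 1 := by
      rw [hs, Real.sq_sqrt (Nat.cast_nonneg _)]; push_cast; ring
    have ht2 : t ^ 2 = n := Real.sq_sqrt (Nat.cast_nonneg _)
    have ht0 : 0 ≤ t := Real.sqrt_nonneg _
    have hs0 : 0 ≤ s := Real.sqrt_nonneg _
    have hs1 : 1 ≤ s := by
      have : (0 : ℝ) ≤ n := Nat.cast_nonneg n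
      nlinarith
    have hst : t ≤ s := by nlinarith
    have h1 : 1 / ((n + 1 : ℕ) : ℝ) ≤ 2 * (s - t) := by
      push_cast
      rw [← hs2, div_le_iff₀ (by positivity)]
      have h3 : (s - t) * (s + t) = 1 := by ring_nf; rw [hs2, ht2]; ring
      have h4 : 0 ≤ s - t := by linarith
      have h5 : (s - t) * (s + t) ≤ (s - t) * (2 * s) := mul_le_mul_of_nonneg_left (by linarith) h4
      have h6 : (s - t) * (2 * s) ≤ (s - t) * (2 * s ^ 2) :=
        mul_le_mul_of_nonneg_left (by nlinarith) h4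
      linarith
    linarith

lemma card_cop_lower (n : ℕ) (hn : 1 ≤ n) {x y : ℝ} (hxy : x ≤ y) :
    (y - x) * (n : ℝ) ^ 2 / 65536 - 2 * (n * Real.sqrt n) ≤ ((cop n x y).card : ℝ) := by
  set t := Real.sqrt (n : ℝ) with ht
  have ht2 : t ^ 2 = n := Real.sq_sqrt (Nat.cast_nonneg _)
  have ht0 : 0 ≤ t := Real.sqrt_nonneg _
  have hn1 : (1 : ℝ) ≤ n := by exact_mod_cast hn
  have ht1 : 1 ≤ t := by nlinarith
  have hX : 0 ≤ y - x := by linarith
  rcases le_or_gt 16 t with h16 | h16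
  · have h1 : ((prs n x y).card : ℝ) ≤ (cop n x y).card +
        ∑ d ∈ Icc 2 n, ((prs (n / d) x y).card : ℝ) := by exact_mod_cast card_prs_le_cop n x y
    have h2 := card_prs_lower n (x := x) (y := y)
    have h3 : ∑ d ∈ Icc 2 n, ((prs (n / d) x y).card : ℝ) ≤
        ∑ d ∈ Icc 2 n, ((y - x) * ((n : ℝ) ^ 2 / 2) * (1 / (d : ℝ) ^ 2) +
          ((y - x) * (n / 2) + n) * (1 / (d : ℝ))) := by
      refine sum_le_sum (fun d hd => ?_)
      rw [mem_Icc] at hd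
      have hd0 : (0 : ℝ) < d := by
        have : 0 < d := by omega
        exact_mod_cast this
      refine (card_prs_upper (n / d) hxy).trans ?_
      have h4 : ((n / d : ℕ) : ℝ) ≤ n / d := Nat.cast_div_le
      have h5 : (0 : ℝ) ≤ ((n / d : ℕ) : ℝ) := Nat.cast_nonneg _
      have h6 : ((n / d : ℕ) : ℝ) * (((n / d : ℕ) : ℝ) + 1) / 2 ≤
          (n / d : ℝ) * ((n / d : ℝ) + 1) / 2 := by
        have : (0 : ℝ) ≤ n / d := by positivity
        gcongr
      have h7 := mul_le_mul_of_nonneg_left h6 hX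
      have h8 : (y - x) * ((n / d : ℝ) * ((n / d : ℝ) + 1) / 2) + (n / d : ℝ) =
          (y - x) * ((n : ℝ) ^ 2 / 2) * (1 / (d : ℝ) ^ 2) +
          ((y - x) * (n / 2) + n) * (1 / (d : ℝ)) := by
        field_simp
        ring
      linarith
    rw [sum_add_distrib, ← mul_sum, ← mul_sum] at h3
    have h4 := sum_inv_sq n
    have h5 := sum_inv n hn
    rw [← ht] at h5
    have h6 : (y - x) * ((n : ℝ) ^ 2 / 2) * ∑ d ∈ Icc 2 n, 1 / (d : ℝ) ^ 2 ≤
        (y - x) * ((n : ℝ) ^ 2 / 2) * (3 / 4) := by gcongr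
    have h7 : ((y - x) * (n / 2) + n) * ∑ d ∈ Icc 2 n, 1 / (d : ℝ) ≤
        ((y - x) * (n / 2) + n) * (2 * t - 2) := by gcongr
    have h8 : (n : ℝ) * t ≤ (n : ℝ) ^ 2 / 16 := by
      have : (n : ℝ) * t * 16 ≤ n * t * t := by gcongr
      nlinarith
    have h9 : (y - x) * ((n : ℝ) * t) ≤ (y - x) * ((n : ℝ) ^ 2 / 16) := by gcongr
    have h10 : 0 ≤ (y - x) * (n : ℝ) := by positivity
    have h11 : 0 ≤ (y - x) * (n : ℝ) ^ 2 := by positivity
    nlinarith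
  · have h1 : prs 1 x y ⊆ cop n x y := by
      intro p hp
      have hp' := mem_prs.1 hp
      have h2 : p.1 = 1 := by omega
      unfold cop
      rw [mem_filter, mem_prs]
      refine ⟨⟨⟨hp'.1.1, by omega⟩, hp'.2⟩, ?_⟩
      rw [h2]
      simp
    have h2 : ((prs 1 x y).card : ℝ) ≤ (cop n x y).card := by exact_mod_cast card_le_card h1
    have h3 := card_prs_lower 1 (x := x) (y := y)
    have h4 : (n : ℝ) ≤ 256 := by nlinarith
    have h5 : (n : ℝ) ^ 2 ≤ 65536 := by nlinarith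
    have h6 : (y - x) * (n : ℝ) ^ 2 ≤ (y - x) * 65536 := by gcongr
    have h7 : 1 ≤ (n : ℝ) * t := by nlinarith
    push_cast at h3
    linarith

/-- many fractions in an interval -/
lemma exists_fracs (Q : ℕ) (hQ : 1 ≤ Q) {x y : ℝ} (hxy : x ≤ y) :
    ∃ A : Finset ℝ, (∀ z ∈ A, IsFrac Q z ∧ x < z ∧ z ≤ y) ∧
      (y - x) * (Q : ℝ) ^ 2 / 65536 - 2 * (Q * Real.sqrt Q) ≤ (A.card : ℝ) := by
  refine ⟨(cop Q x y).image (fun p => (p.2 : ℝ) / (p.1 : ℝ)), ?_, ?_⟩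
  · intro z hz
    rw [mem_image] at hz
    obtain ⟨p, hp, rfl⟩ := hz
    unfold cop at hp
    rw [mem_filter, mem_prs] at hp
    obtain ⟨⟨⟨h1, h2⟩, h3, h4⟩, -⟩ := hp
    have h0 : (0 : ℝ) < p.1 := by exact_mod_cast h1
    refine ⟨⟨p.2, p.1, h1, h2, rfl⟩, ?_, ?_⟩
    · rw [lt_div_iff₀ h0, mul_comm]
      exact h3
    · rw [div_le_iff₀ h0, mul_comm]
      exact h4
  · rw [card_image_of_injOn]
    · exact card_cop_lower Q hQ hxy
    · rintro ⟨a, b⟩ hp ⟨a', b'⟩ hp' h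
      rw [mem_coe] at hp hp'
      unfold cop at hp hp'
      rw [mem_filter, mem_prs] at hp hp'
      dsimp only at hp hp' h
      have h1 : ((b : ℚ) / ((a : ℤ) : ℚ)) = (b' : ℚ) / ((a' : ℤ) : ℚ) := by
        have h2 : (((b : ℚ) / ((a : ℤ) : ℚ) : ℚ) : ℝ) = (((b' : ℚ) / ((a' : ℤ) : ℚ) : ℚ) : ℝ) := by
          push_cast
          exact h
        exact_mod_cast h2
      have h2 := Rat.div_int_inj (by exact_mod_cast hp.1.1.1) (by exact_mod_cast hp'.1.1.1)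
        hp.2 hp'.2 h1
      obtain ⟨h3, h4⟩ := h2
      have h5 : a = a' := by exact_mod_cast h4
      subst h3
      subst h5
      rfl

/-! ### separation -/

lemma frac_sep {Q : ℕ} {x y : ℝ} (hx : IsFrac Q x) (hy : IsFrac Q y) (h : x < y) :
    1 ≤ (Q : ℝ) ^ 2 * (y - x) := by
  obtain ⟨b, a, h1, h2, rfl⟩ := hx
  obtain ⟨b', a', h1', h2', rfl⟩ := hy
  have ha : (0 : ℝ) < a := by exact_mod_cast h1
  have ha' : (0 : ℝ) < a' := by exact_mod_cast h1'
  have haQ : (a : ℝ) ≤ Q := by exact_mod_cast h2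
  have haQ' : (a' : ℝ) ≤ Q := by exact_mod_cast h2'
  have h3 : (b' : ℝ) / a' - b / a = ((b' * a - b * a' : ℤ) : ℝ) / (a * a') := by
    push_cast
    field_simp
  have h4 : 0 < (b' : ℝ) / a' - b / a := by linarith
  rw [h3] at h4 ⊢
  have h5 : (0 : ℝ) < ((b' * a - b * a' : ℤ) : ℝ) := by
    by_contra hc
    push Not at hc
    have := div_nonpos_of_nonpos_of_nonneg hc (by positivity : (0 : ℝ) ≤ a * a')
    linarith
  have h6 : (1 : ℝ) ≤ ((b' * a - b * a' : ℤ) : ℝ) := by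
    have : (0 : ℤ) < b' * a - b * a' := by exact_mod_cast h5
    exact_mod_cast this
  rw [mul_div_assoc', le_div_iff₀ (by positivity), one_mul]
  have h7 : (a : ℝ) * a' ≤ Q * Q := by gcongr
  nlinarith

/-- a separated set in an interval is small -/
lemma card_sep {Q : ℕ} {u g : ℝ} (hg : 0 ≤ g) (B : Finset ℝ)
    (hB : ∀ z ∈ B, IsFrac Q z ∧ u ≤ z ∧ z ≤ u + g) : (B.card : ℝ) ≤ 1 + (Q : ℝ) ^ 2 * g := by
  have h1 : B.card ≤ (Icc (0 : ℤ) ⌊(Q : ℝ) ^ 2 * g⌋).card := by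
    refine card_le_card_of_injOn (fun z => ⌊(Q : ℝ) ^ 2 * (z - u)⌋) ?_ ?_
    · intro z hz
      obtain ⟨-, h2, h3⟩ := hB z hz
      rw [mem_coe, mem_Icc]
      refine ⟨Int.floor_nonneg.2 ?_, Int.floor_le_floor ?_⟩
      · have : 0 ≤ z - u := by linarith
        positivity
      · have : z - u ≤ g := by linarith
        gcongr
    · have key : ∀ z ∈ B, ∀ w ∈ B, z < w →
          ⌊(Q : ℝ) ^ 2 * (z - u)⌋ ≠ ⌊(Q : ℝ) ^ 2 * (w - u)⌋ := by
        intro z hz w hw hzw heq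
        have h2 := frac_sep (hB z hz).1 (hB w hw).1 hzw
        have h3 := Int.floor_le ((Q : ℝ) ^ 2 * (z - u))
        have h4 := Int.lt_floor_add_one ((Q : ℝ) ^ 2 * (w - u))
        rw [← heq] at h4
        have h5 : (Q : ℝ) ^ 2 * (w - u) = (Q : ℝ) ^ 2 * (z - u) + (Q : ℝ) ^ 2 * (w - z) := by ring
        linarith
      intro z hz w hw heq
      rcases lt_trichotomy z w with h | h | h
      · exact absurd heq (key z hz w hw h)
      · exact h
      · exact absurd heq.symm (key w hw z hz h)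
  have h2 : ((Icc (0 : ℤ) ⌊(Q : ℝ) ^ 2 * g⌋).card : ℝ) ≤ 1 + (Q : ℝ) ^ 2 * g := by
    rw [Int.card_Icc]
    have h3 : 0 ≤ ⌊(Q : ℝ) ^ 2 * g⌋ := Int.floor_nonneg.2 (by positivity)
    have h4 := Int.toNat_of_nonneg (by omega : 0 ≤ ⌊(Q : ℝ) ^ 2 * g⌋ + 1 - 0)
    have h5 : (((⌊(Q : ℝ) ^ 2 * g⌋ + 1 - 0).toNat : ℕ) : ℝ) =
        ((⌊(Q : ℝ) ^ 2 * g⌋ + 1 - 0 : ℤ) : ℝ) := by exact_mod_cast h4
    rw [h5]
    push_cast
    have := Int.floor_le ((Q : ℝ) ^ 2 * g)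
    linarith
  have h3 : (B.card : ℝ) ≤ ((Icc (0 : ℤ) ⌊(Q : ℝ) ^ 2 * g⌋).card : ℝ) := by exact_mod_cast h1
  exact h3.trans h2

/-! ### the next fraction -/

lemma exists_next (Q : ℕ) (hQ : 1 ≤ Q) (m g : ℝ) :
    ∃ y, (IsFrac Q y ∧ m < y ∧ m + g ≤ y) ∧
      ∀ z, IsFrac Q z → m < z → m + g ≤ z → y ≤ z := by
  let b : ℕ → ℤ := fun a => max (⌊(a : ℝ) * m⌋ + 1) ⌈(a : ℝ) * (m + g)⌉
  have hne : (Icc 1 Q).Nonempty := ⟨1, by rw [mem_Icc]; omega⟩
  obtain ⟨a, ha, hmin⟩ := exists_min_image (Icc 1 Q) (fun a => (b a : ℝ) / (a : ℝ)) hne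
  rw [mem_Icc] at ha
  have ha0 : (0 : ℝ) < a := by exact_mod_cast ha.1
  refine ⟨(b a : ℝ) / (a : ℝ), ⟨⟨b a, a, ha.1, ha.2, rfl⟩, ?_, ?_⟩, ?_⟩
  · rw [lt_div_iff₀ ha0, mul_comm]
    have h1 : ⌊(a : ℝ) * m⌋ + 1 ≤ b a := le_max_left _ _
    have h2 : ((⌊(a : ℝ) * m⌋ + 1 : ℤ) : ℝ) ≤ b a := by exact_mod_cast h1
    push_cast at h2
    have := Int.lt_floor_add_one ((a : ℝ) * m)
    linarith
  · rw [le_div_iff₀ ha0, mul_comm]
    have h1 : ⌈(a : ℝ) * (m + g)⌉ ≤ b a := le_max_right _ _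
    exact Int.ceil_le.1 h1
  · rintro z ⟨b', a', h1, h2, rfl⟩ h3 h4
    have h5 := hmin a' (mem_Icc.2 ⟨h1, h2⟩)
    refine h5.trans ?_
    have ha' : (0 : ℝ) < a' := by exact_mod_cast h1
    refine div_le_div_of_nonneg_right ?_ ha'.le
    have h6 : b a' ≤ b' := by
      refine max_le ?_ ?_
      · rw [Int.add_one_le_iff, Int.floor_lt]
        rw [lt_div_iff₀ ha', mul_comm] at h3
        exact h3
      · rw [Int.ceil_le]
        rw [le_div_iff₀ ha', mul_comm] at h4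
        exact h4
    exact_mod_cast h6

lemma card_split (A : Finset ℝ) (m : ℝ) : (A.card : ℝ) =
    ((A.filter (fun z : ℝ => z ≤ m)).card : ℝ) + ((A.filter (fun z : ℝ => m < z)).card : ℝ) := by
  have h : A.filter (fun z : ℝ => m < z) = A.filter (fun z : ℝ => ¬ (z ≤ m)) :=
    filter_congr (fun z _ => not_le.symm)
  rw [h, ← Nat.cast_add, card_filter_add_card_filter_not]

theorem assign : ∃ C : ℝ, 0 < C ∧ ∀ (Q : ℕ) (_ : 1 ≤ Q) (μ0 : ℝ) (r : ℕ) (γ : ℕ → ℝ)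
    (_ : ∀ i, 0 ≤ γ i) (ex : ℕ → Prop),
    ∃ μ : ℕ → ℝ, μ 0 = μ0 ∧
      (∀ i, μ i + max (γ i) (γ (i + 1)) ≤ μ (i + 1)) ∧
      (∀ i, ex (i + 1) → μ i < μ (i + 1) ∧ IsFrac Q (μ (i + 1))) ∧
      ((∀ i, ¬ ex i) → ∀ i ≤ r, μ i ≤ μ0 + 2 * ∑ j ∈ range (r + 1), γ j) ∧
      (∀ i ≤ r, μ i ≤ μ0 + C * ((r + 1 : ℝ) / (Q : ℝ) ^ 2 + ∑ j ∈ range (r + 1), γ j
        + 1 / Real.sqrt Q)) := by
  refine ⟨131072, by norm_num, ?_⟩
  intro Q hQ μ0 r γ hγ ex
  choose nx hnx1 hnx2 using exists_next Q hQ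
  let μ : ℕ → ℝ := fun i => Nat.rec μ0 (fun i m =>
    if ex (i + 1) then nx m (max (γ i) (γ (i + 1))) else m + max (γ i) (γ (i + 1))) i
  have hμ0 : μ 0 = μ0 := rfl
  have hμs : ∀ i, μ (i + 1) = if ex (i + 1) then nx (μ i) (max (γ i) (γ (i + 1))) else
      μ i + max (γ i) (γ (i + 1)) := fun i => rfl
  clear_value μ
  have hg0 : ∀ i, 0 ≤ max (γ i) (γ (i + 1)) := fun i => (hγ i).trans (le_max_left _ _)
  have hstep : ∀ i, μ i + max (γ i) (γ (i + 1)) ≤ μ (i + 1) := by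
    intro i
    rw [hμs]
    split_ifs with h
    · exact (hnx1 _ _).2.2
    · exact le_rfl
  have hmono : Monotone μ := monotone_nat_of_le_succ (fun i => by
    have := hstep i
    have := hg0 i
    linarith)
  have hsum : ∀ i ≤ r, ∑ j ∈ range i, max (γ j) (γ (j + 1)) ≤ 2 * ∑ j ∈ range (r + 1), γ j := by
    intro i hi
    have h1 : ∑ j ∈ range i, max (γ j) (γ (j + 1)) ≤ ∑ j ∈ range r, max (γ j) (γ (j + 1)) :=
      sum_le_sum_of_subset_of_nonneg (range_mono hi) (fun j _ _ => hg0 j)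
    have h2 : ∑ j ∈ range r, max (γ j) (γ (j + 1)) ≤ ∑ j ∈ range r, (γ j + γ (j + 1)) := by
      refine sum_le_sum (fun j _ => max_le ?_ ?_)
      · have := hγ (j + 1); linarith
      · have := hγ j; linarith
    rw [sum_add_distrib] at h2
    have h3 : ∑ j ∈ range r, γ j ≤ ∑ j ∈ range (r + 1), γ j :=
      sum_le_sum_of_subset_of_nonneg (range_mono (by omega)) (fun j _ _ => hγ j)
    have h4 : ∑ j ∈ range r, γ (j + 1) ≤ ∑ j ∈ range (r + 1), γ j := by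
      rw [sum_range_succ' γ r]
      have := hγ 0
      linarith
    linarith
  refine ⟨μ, hμ0, hstep, ?_, ?_, ?_⟩
  · intro i hi
    have h1 := hμs i
    rw [if_pos hi] at h1
    rw [h1]
    exact ⟨(hnx1 _ _).2.1, (hnx1 _ _).1⟩
  · intro hno i hi
    have h1 : ∀ i, μ i = μ0 + ∑ j ∈ range i, max (γ j) (γ (j + 1)) := by
      intro i
      induction i with
      | zero => rw [hμ0]; simp
      | succ i ih =>
        rw [hμs, if_neg (hno _), ih, sum_range_succ]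
        ring
    rw [h1]
    have := hsum i hi
    linarith
  · intro i hi
    -- the number of fractions
    have hcnt : ∀ i, ∀ A : Finset ℝ, (∀ z ∈ A, IsFrac Q z ∧ μ0 < z ∧ z ≤ μ i) →
        (A.card : ℝ) ≤ 2 * i + (Q : ℝ) ^ 2 * ∑ j ∈ range i, max (γ j) (γ (j + 1)) := by
      intro i
      induction i with
      | zero =>
        intro A hA
        have h1 : A = ∅ := by
          rw [eq_empty_iff_forall_notMem]
          intro z hz
          have := hA z hz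
          rw [hμ0] at this
          linarith
        rw [h1]
        simp
      | succ i ih =>
        intro A hA
        have h1 := ih (A.filter (fun z : ℝ => z ≤ μ i)) (fun z hz => by
          rw [mem_filter] at hz
          exact ⟨(hA z hz.1).1, (hA z hz.1).2.1, hz.2⟩)
        have h3 := card_split A (μ i)
        set B := A.filter (fun z : ℝ => μ i < z) with hB
        have h2 : (B.card : ℝ) ≤ 2 + (Q : ℝ) ^ 2 * max (γ i) (γ (i + 1)) := by
          have h3 : ((B.erase (μ (i + 1))).card : ℝ) ≤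
              1 + (Q : ℝ) ^ 2 * max (γ i) (γ (i + 1)) := by
            refine card_sep (u := μ i) (hg0 i) _ (fun z hz => ?_)
            rw [mem_erase, hB, mem_filter] at hz
            obtain ⟨h4, h5, h6⟩ := hz
            refine ⟨(hA z h5).1, h6.le, ?_⟩
            have h7 := (hA z h5).2.2
            have h8 := hμs i
            by_cases hex : ex (i + 1)
            · rw [if_pos hex] at h8
              by_contra hc
              push Not at hc
              have h9 := hnx2 (μ i) (max (γ i) (γ (i + 1))) z (hA z h5).1 h6 hc.le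
              rw [← h8] at h9
              exact h4 (le_antisymm h7 h9)
            · rw [if_neg hex] at h8
              rw [h8] at h7
              exact h7
          have h4 : B.card ≤ (B.erase (μ (i + 1))).card + 1 := by
            have := pred_card_le_card_erase (s := B) (a := μ (i + 1))
            omega
          have h5 : (B.card : ℝ) ≤ ((B.erase (μ (i + 1))).card : ℝ) + 1 := by
            exact_mod_cast h4
          linarith
        rw [h3, sum_range_succ]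
        push_cast
        linarith
    have hle : μ0 ≤ μ i := by
      rw [← hμ0]
      exact hmono (Nat.zero_le i)
    obtain ⟨A, hA, hA2⟩ := exists_fracs Q hQ hle
    have h1 := hcnt i A hA
    have h2 := hsum i hi
    have hQ0 : (0 : ℝ) < Q := by exact_mod_cast hQ
    set t := Real.sqrt (Q : ℝ) with ht
    have ht2 : t ^ 2 = Q := Real.sq_sqrt (Nat.cast_nonneg _)
    have ht0 : 0 < t := Real.sqrt_pos.2 hQ0
    have hir : (i : ℝ) ≤ r := by exact_mod_cast hi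
    set Sg := ∑ j ∈ range (r + 1), γ j with hSg
    have h3 : (Q : ℝ) ^ 2 * ∑ j ∈ range i, max (γ j) (γ (j + 1)) ≤ (Q : ℝ) ^ 2 * (2 * Sg) := by
      gcongr
    have h4 : (μ i - μ0) * (Q : ℝ) ^ 2 ≤ 65536 * (2 * (r + 1) + (Q : ℝ) ^ 2 * (2 * Sg) +
        2 * (Q * t)) := by linarith
    have h5 : 131072 * ((r + 1 : ℝ) / (Q : ℝ) ^ 2 + Sg + 1 / t) * (Q : ℝ) ^ 2 =
        65536 * (2 * (r + 1) + (Q : ℝ) ^ 2 * (2 * Sg) + 2 * (Q * t)) := by
      have h6 : 1 / t * (Q : ℝ) ^ 2 = Q * t := by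
        rw [← ht2]
        field_simp
      have h7 : (r + 1 : ℝ) / (Q : ℝ) ^ 2 * (Q : ℝ) ^ 2 = r + 1 := by
        field_simp
      calc 131072 * ((r + 1 : ℝ) / (Q : ℝ) ^ 2 + Sg + 1 / t) * (Q : ℝ) ^ 2
          = 131072 * ((r + 1 : ℝ) / (Q : ℝ) ^ 2 * (Q : ℝ) ^ 2 + Sg * (Q : ℝ) ^ 2 +
            1 / t * (Q : ℝ) ^ 2) := by ring
        _ = _ := by rw [h6, h7]; ring
    rw [← h5] at h4
    have h6 := le_of_mul_le_mul_right h4 (by positivity : (0 : ℝ) < (Q : ℝ) ^ 2)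
    linarith

end P8ffccf

end
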