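import Pool.Agent.Lib.P8ffccf.Net
import Pool.Agent.Lib.P8ffccf.Farey

/-! # Slopes of the child vectors -/

set_option linter.unusedVariables false
set_option linter.unusedSectionVars false

noncomputable section

namespace P8ffccf

open Classical Finset

lemma IsFrac.neg {Q : ℕ} {x : ℝ} (h : IsFrac Q x) : IsFrac Q (-x) := by
  obtain ⟨b, a, h1, h2, rfl⟩ := h
  exact ⟨-b, a, h1, h2, by push_cast; ring⟩

lemma sum_shift_le (K h : ℕ) (g : ℕ → ℝ) (hg : ∀ i, 0 ≤ g i) :
    ∑ j ∈ range (K + 1), (if h + j ≤ K then g (h + j) else 0) ≤ ∑ j ∈ range (K + 1), g j := by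
  rw [← Finset.sum_filter]
  have e : ∑ j ∈ (range (K + 1)).filter (fun j => h + j ≤ K), g (h + j) =
      ∑ i ∈ ((range (K + 1)).filter (fun j => h + j ≤ K)).image (fun j => h + j), g i := by
    rw [Finset.sum_image]
    intro a _ b _ hab
    simpa using hab
  rw [e]
  refine sum_le_sum_of_subset_of_nonneg ?_ (fun i _ _ => hg i)
  intro i hi
  simp only [Finset.mem_image, Finset.mem_filter, Finset.mem_range] at hi ⊢
  obtain ⟨j, ⟨_, h2⟩, rfl⟩ := hi
  omega

lemma sum_flip_le (K h : ℕ) (hK : h ≤ K) (g : ℕ → ℝ) (hg : ∀ i, 0 ≤ g i) :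
    ∑ j ∈ range (K + 1), (if j ≤ h then g (h - j) else 0) ≤ ∑ j ∈ range (K + 1), g j := by
  rw [← Finset.sum_filter]
  have e : ∑ j ∈ (range (K + 1)).filter (fun j => j ≤ h), g (h - j) =
      ∑ i ∈ ((range (K + 1)).filter (fun j => j ≤ h)).image (fun j => h - j), g i := by
    rw [Finset.sum_image]
    intro a ha b hb hab
    simp only [Finset.coe_filter, Finset.mem_range, Set.mem_ofPred_eq] at ha hb
    simp only at hab
    omega
  rw [e]
  refine sum_le_sum_of_subset_of_nonneg ?_ (fun i _ _ => hg i)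
  intro i hi
  simp only [Finset.mem_image, Finset.mem_filter, Finset.mem_range] at hi ⊢
  obtain ⟨j, ⟨_, h2⟩, rfl⟩ := hi
  omega

/-- Two-sided slope assignment along an interval. -/
lemma seq_slopes : ∃ C : ℝ, 0 < C ∧ ∀ (Q : ℕ) (_ : 1 ≤ Q) (μ0 : ℝ) (K h : ℕ) (_ : h ≤ K)
    (g : ℕ → ℝ) (_ : ∀ i, 0 ≤ g i) (ex : ℕ → Prop),
    ∃ μ : ℕ → ℝ, μ h = μ0 ∧
      (∀ i < K, μ i + max (g i) (g (i + 1)) ≤ μ (i + 1)) ∧
      (∀ i < K, ex i → ex (i + 1) → μ i < μ (i + 1)) ∧
      (∀ i ≤ K, i ≠ h → ex i → IsFrac Q (μ i)) ∧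
      ((∀ i ≤ K, ¬ ex i) → ∀ i ≤ K, |μ i - μ0| ≤ 2 * ∑ j ∈ range (K + 1), g j) ∧
      (∀ i ≤ K, |μ i - μ0| ≤ C * ((K + 1 : ℝ) / (Q : ℝ) ^ 2 + ∑ j ∈ range (K + 1), g j
        + 1 / Real.sqrt Q)) := by
  obtain ⟨C, hC, hA⟩ := assign
  refine ⟨C, hC, ?_⟩
  intro Q hQ μ0 K h hK g hg ex
  set gp : ℕ → ℝ := fun j => if h + j ≤ K then g (h + j) else 0 with hgp
  set gm : ℕ → ℝ := fun j => if j ≤ h then g (h - j) else 0 with hgm
  have hgp0 : ∀ j, 0 ≤ gp j := fun j => by
    rw [hgp]; simp only; split_ifs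
    · exact hg _
    · exact le_rfl
  have hgm0 : ∀ j, 0 ≤ gm j := fun j => by
    rw [hgm]; simp only; split_ifs
    · exact hg _
    · exact le_rfl
  obtain ⟨p, p0, p1, p2, p3, p4⟩ := hA Q hQ μ0 K gp hgp0 (fun j => h + j ≤ K ∧ ex (h + j))
  obtain ⟨q, q0, q1, q2, q3, q4⟩ := hA Q hQ (-μ0) K gm hgm0 (fun j => j ≤ h ∧ ex (h - j))
  have pm : ∀ j, μ0 ≤ p j := by
    intro j
    induction j with
    | zero => rw [p0]
    | succ j ih =>
      have := p1 j
      have h1 := (hgp0 j).trans (le_max_left (gp j) (gp (j + 1)))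
      linarith
  have qm : ∀ j, -μ0 ≤ q j := by
    intro j
    induction j with
    | zero => rw [q0]
    | succ j ih =>
      have := q1 j
      have h1 := (hgm0 j).trans (le_max_left (gm j) (gm (j + 1)))
      linarith
  set μ : ℕ → ℝ := fun i => if h ≤ i then p (i - h) else - q (h - i) with hμ
  have μge : ∀ i, h ≤ i → μ i = p (i - h) := fun i hi => by rw [hμ]; simp only; rw [if_pos hi]
  have μle : ∀ i, i ≤ h → μ i = - q (h - i) := by
    intro i hi
    rcases hi.lt_or_eq with hlt | rfl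
    · rw [hμ]; simp only; rw [if_neg (by omega)]
    · rw [μge i le_rfl, Nat.sub_self, p0, q0, neg_neg]
  have sp := sum_shift_le K h g hg
  have sm := sum_flip_le K h hK g hg
  refine ⟨μ, by rw [μge h le_rfl, Nat.sub_self, p0], ?_, ?_, ?_, ?_, ?_⟩
  · intro i hi
    rcases le_or_gt h i with hc | hc
    · rw [μge i hc, μge (i + 1) (by omega)]
      have e : i + 1 - h = (i - h) + 1 := by omega
      have := p1 (i - h)
      have e1 : gp (i - h) = g i := by
        rw [hgp]; simp only; rw [if_pos (by omega)]; congr 1; omega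
      have e2 : gp (i - h + 1) = g (i + 1) := by
        rw [hgp]; simp only; rw [if_pos (by omega)]; congr 1; omega
      rw [e1, e2] at this
      rw [e]; exact this
    · rw [μle i hc.le, μle (i + 1) hc]
      have e : h - i = (h - (i + 1)) + 1 := by omega
      have := q1 (h - (i + 1))
      have e1 : gm (h - (i + 1)) = g (i + 1) := by
        rw [hgm]; simp only; rw [if_pos (by omega)]; congr 1; omega
      have e2 : gm (h - (i + 1) + 1) = g i := by
        rw [hgm]; simp only; rw [if_pos (by omega)]; congr 1; omega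
      rw [e1, e2, max_comm] at this
      rw [e]; linarith
  · intro i hi h1 h2
    rcases le_or_gt h i with hc | hc
    · rw [μge i hc, μge (i + 1) (by omega)]
      have e : i + 1 - h = (i - h) + 1 := by omega
      rw [e]
      refine (p2 (i - h) ⟨by omega, ?_⟩).1
      have : h + (i - h + 1) = i + 1 := by omega
      rw [this]; exact h2
    · rw [μle i hc.le, μle (i + 1) hc]
      have e : h - i = (h - (i + 1)) + 1 := by omega
      rw [e]
      refine neg_lt_neg (q2 (h - (i + 1)) ⟨by omega, ?_⟩).1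
      have : h - (h - (i + 1) + 1) = i := by omega
      rw [this]; exact h1
  · intro i hi hne hex
    rcases le_or_gt h i with hc | hc
    · rw [μge i hc]
      have e : i - h = (i - h - 1) + 1 := by omega
      rw [e]
      refine (p2 (i - h - 1) ⟨by omega, ?_⟩).2
      have : h + (i - h - 1 + 1) = i := by omega
      rw [this]; exact hex
    · rw [μle i hc.le]
      have e : h - i = (h - i - 1) + 1 := by omega
      rw [e]
      refine ((q2 (h - i - 1) ⟨by omega, ?_⟩).2).neg
      have : h - (h - i - 1 + 1) = i := by omega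
      rw [this]; exact hex
  · intro hno i hi
    rcases le_or_gt h i with hc | hc
    · rw [μge i hc, abs_of_nonneg (by have := pm (i - h); linarith)]
      have := p3 (fun j hj => hno _ hj.1 hj.2) (i - h) (by omega)
      linarith
    · rw [μle i hc.le]
      have h0 := qm (h - i)
      rw [abs_of_nonpos (by linarith)]
      have := q3 (fun j hj => hno _ (by omega) hj.2) (h - i) (by omega)
      linarith
  · intro i hi
    have key : ∀ s t : ℝ, s ≤ t → C * ((K + 1 : ℝ) / (Q : ℝ) ^ 2 + s + 1 / Real.sqrt Q) ≤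
        C * ((K + 1 : ℝ) / (Q : ℝ) ^ 2 + t + 1 / Real.sqrt Q) := fun s t hst =>
      mul_le_mul_of_nonneg_left (by linarith) hC.le
    rcases le_or_gt h i with hc | hc
    · rw [μge i hc, abs_of_nonneg (by have := pm (i - h); linarith)]
      have := p4 (i - h) (by omega)
      have := key _ _ sp
      linarith
    · rw [μle i hc.le]
      have h0 := qm (h - i)
      rw [abs_of_nonpos (by linarith)]
      have := q4 (h - i) (by omega)
      have := key _ _ sm
      linarith

namespace PMap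

variable {V F D : Type} [Fintype V] [Fintype F] [Fintype D] {M : PMap V F D} {o : F}

/-- The interval of darts of an inner face containing all child darts of a given colour. -/
lemma Lab.exists_interval (L : Lab M o) (k : ZMod 3) {f : F} (hf : f ≠ o) :
    ∃ (y : ℕ → D) (K : ℕ), (∀ i, M.nxt (y i) = y (i + 1)) ∧ (∀ i, M.fc (y i) = f) ∧
      (∀ i ≤ K, ∀ j ≤ K, y i = y j → i = j) ∧
      (∀ d, M.fc d = f → L.Ch k d → ∃ i ≤ K, y i = d) ∧
      (∀ i < K, 1 ≤ i → L.Ch k (y i)) ∧ L.l (M.nxt (y K)) ≠ k := by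
  have three : (1 : ZMod 3) + 1 + 1 = 0 := by decide
  have one0 : (1 : ZMod 3) ≠ 0 := by decide
  have two0 : (2 : ZMod 3) ≠ 0 := by decide
  set y : ℕ → D := fun i => (M.nxt^[i]) (L.sp (k + 1) f) with hy
  have ynxt : ∀ i, M.nxt (y i) = y (i + 1) := fun i => by
    rw [hy]; simp only; rw [Function.iterate_succ_apply']
  have yfc : ∀ i, M.fc (y i) = f := by
    intro i
    induction i with
    | zero => rw [hy]; exact L.sp_fc _ _
    | succ i ih => rw [← ynxt, M.fc_nxt]; exact ih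
  have yne : ∀ i, M.fc (y i) ≠ o := fun i => by rw [yfc]; exact hf
  have hex : ∃ i, y i = L.sp (k + 2) f :=
    M.fc_trans (L.sp (k + 1) f) (L.sp (k + 2) f) (by rw [L.sp_fc, L.sp_fc])
  set K := Nat.find hex with hK
  have yK : y K = L.sp (k + 2) f := Nat.find_spec hex
  have ymin : ∀ i < K, y i ≠ L.sp (k + 2) f := fun i hi => Nat.find_min hex hi
  have y0l : L.l (y 0) = k + 2 := by
    have := L.sp_l (k + 1) hf
    change L.l (L.sp (k + 1) f) = k + 2
    rw [this]; ring
  have y0c : ¬ L.cF (y 0) := L.sp_cF (k + 1) hf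
  have yKl : L.l (y K) = k := by
    rw [yK, L.sp_l (k + 2) hf]
    linear_combination three
  have yKc : ¬ L.cF (y K) := by rw [yK]; exact L.sp_cF (k + 2) hf
  have Kpos : 0 < K := by
    rcases Nat.eq_zero_or_pos K with h | h
    · exfalso
      rw [h, y0l] at yKl
      exact two0 (by linear_combination yKl)
    · exact h
  have ylab : ∀ i, 1 ≤ i → i ≤ K → L.l (y i) = k := by
    intro i hi
    induction i, hi using Nat.le_induction with
    | base =>
      intro _
      rw [← ynxt, L.special_step _ (yne 0) y0c, y0l]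
      linear_combination three
    | succ i hi ih =>
      intro hiK
      have h1 := ih (by omega)
      have h2 : L.cF (y i) := by
        by_contra hc
        apply ymin i (by omega)
        have := L.sp_unique (k + 2) (yne i) hc (by rw [h1]; linear_combination -three)
        rw [yfc] at this
        exact this
      rw [← ynxt, L.lf _ (yne i), if_pos h2, h1, add_zero]
  have ycF : ∀ i < K, 1 ≤ i → L.cF (y i) := by
    intro i hiK hi
    by_contra hc
    apply ymin i hiK
    have := L.sp_unique (k + 2) (yne i) hc (by rw [ylab i hi hiK.le]; linear_combination -three)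
    rw [yfc] at this
    exact this
  have iter_add : ∀ i j t, y i = y j → y (i + t) = y (j + t) := by
    intro i j t h
    induction t with
    | zero => exact h
    | succ t ih => rw [← add_assoc, ← add_assoc, ← ynxt, ← ynxt, ih]
  have yinj' : ∀ i j, i < j → j ≤ K → y i ≠ y j := by
    intro i j hij hj h
    have h1 := iter_add i j (K - j) h
    have h2 : j + (K - j) = K := by omega
    rw [h2, yK] at h1
    exact ymin _ (by omega) h1
  refine ⟨y, K, ynxt, yfc, ?_, ?_, ?_, ?_⟩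
  · intro i hi j hj h
    rcases lt_trichotomy i j with hlt | heq | hgt
    · exact absurd h (yinj' i j hlt hj)
    · exact heq
    · exact absurd h.symm (yinj' j i hgt hi)
  · intro d hd hch
    have hdo : M.fc d ≠ o := by rw [hd]; exact hf
    rcases hch.kind hdo with ⟨h1, h2, h3⟩ | ⟨h1, h2, h3, h4⟩ | ⟨h1, h2, h3, h4⟩
    · have hexd : ∃ i, y i = d :=
        M.fc_trans (L.sp (k + 1) f) d (by rw [L.sp_fc, hd])
      set j := Nat.find hexd with hj
      have yj : y j = d := Nat.find_spec hexd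
      have jmin : ∀ i < j, y i ≠ d := fun i hi => Nat.find_min hexd hi
      refine ⟨j, ?_, yj⟩
      by_contra hjK
      push Not at hjK
      have hl : ∀ i, K + 1 ≤ i → i ≤ j → L.l (y i) ≠ k := by
        intro i hi
        induction i, hi using Nat.le_induction with
        | base =>
          intro _
          rw [← ynxt, L.special_step _ (yne K) yKc, yKl]
          intro h
          exact one0 (by linear_combination h)
        | succ i hi ih =>
          intro hij
          have h5 := ih (by omega)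
          intro h6
          by_cases hc : L.cF (y i)
          · rw [← ynxt, L.lf _ (yne i), if_pos hc, add_zero] at h6
            exact h5 h6
          · rw [← ynxt, L.special_step _ (yne i) hc] at h6
            have h7 := L.sp_unique (k + 1) (yne i) hc (by linear_combination h6 - three)
            rw [yfc] at h7
            have h8 : y i = y 0 := h7
            have h9 := iter_add i 0 (j - i) h8
            have h10 : i + (j - i) = j := by omega
            rw [h10, yj, zero_add] at h9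
            exact jmin (j - i) (by omega) h9.symm
      exact hl j hjK le_rfl (by rw [yj]; exact h2)
    · refine ⟨0, Nat.zero_le _, ?_⟩
      have := L.sp_unique (k + 1) hdo h2 (by rw [h3]; ring)
      rw [hd] at this
      exact this.symm
    · refine ⟨K, le_rfl, ?_⟩
      have := L.sp_unique (k + 2) hdo h2 (by rw [h3]; linear_combination -three)
      rw [hd] at this
      rw [yK, this]
  · intro i hiK hi
    obtain ⟨h1, h2, h3, h4, h5⟩ := L.chain (y i) (yne i) (ycF i hiK hi)
    exact ⟨h1, h2, by rw [h4, ylab i hi hiK.le]⟩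
  · rw [L.special_step _ (yne K) yKc, yKl]
    intro h
    exact one0 (by linear_combination h)

/-- Slopes of the children of one inner face in one colour. -/
lemma face_slopes : ∃ C : ℝ, 0 < C ∧ ∀ {V F D : Type} [Fintype V] [Fintype F] [Fintype D]
    (M : PMap V F D) (o : F) (L : Lab M o) (k : ZMod 3) (f : F) (_ : f ≠ o)
    (hf : F) (_ : hf ≠ o) (_ : L.par k hf = f) (γ : F → ℝ) (_ : ∀ c, 0 ≤ γ c) (ex : F → Prop)
    (Q : ℕ) (_ : 1 ≤ Q) (μ0 : ℝ), ∃ μ : F → ℝ, μ hf = μ0 ∧
      (∀ d, M.fc d = f → L.Ch k d → L.Ch k (M.nxt d) → L.l (M.nxt d) = k →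
        μ (M.fc (M.rev d)) + max (γ (M.fc (M.rev d))) (γ (M.fc (M.rev (M.nxt d)))) ≤
          μ (M.fc (M.rev (M.nxt d)))) ∧
      (∀ d, M.fc d = f → L.Ch k d → L.Ch k (M.nxt d) → L.l (M.nxt d) = k →
        ex (M.fc (M.rev d)) → ex (M.fc (M.rev (M.nxt d))) →
        μ (M.fc (M.rev d)) < μ (M.fc (M.rev (M.nxt d)))) ∧
      (∀ c, c ≠ o → L.par k c = f → c ≠ hf → ex c → IsFrac Q (μ c)) ∧
      (∀ c, c ≠ o → L.par k c = f → (∀ c' ∈ L.kids k f, ¬ ex c') →
        |μ c - μ0| ≤ 2 * ∑ c' ∈ L.kids k f, γ c') ∧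
      (∀ c, c ≠ o → L.par k c = f → |μ c - μ0| ≤
        C * (((L.kids k f).card + 2 : ℝ) / (Q : ℝ) ^ 2 + ∑ c' ∈ L.kids k f, γ c'
          + 1 / Real.sqrt Q)) := by
  obtain ⟨C, hC, hS⟩ := seq_slopes
  refine ⟨C, hC, ?_⟩
  intro V F D _ _ _ M o L k f hfo hf hf0 hfp γ hγ ex Q hQ μ0
  obtain ⟨y, K, ynxt, yfc, yinj, ych, yCh, yK⟩ := L.exists_interval k hfo
  -- positions of the children
  have hpos : ∀ c, c ≠ o → L.par k c = f → ∃ i ≤ K, y i = M.rev (L.sp k c) := by
    intro c hc hcp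
    refine ych _ ?_ (L.ch_sp k hc)
    rw [← L.par_eq k hc, hcp]
  have hpos' : ∀ c, ∃ i, c ≠ o → L.par k c = f → i ≤ K ∧ y i = M.rev (L.sp k c) := by
    intro c
    by_cases h : c ≠ o ∧ L.par k c = f
    · obtain ⟨i, h1, h2⟩ := hpos c h.1 h.2
      exact ⟨i, fun _ _ => ⟨h1, h2⟩⟩
    · exact ⟨0, fun h1 h2 => absurd ⟨h1, h2⟩ h⟩
  choose pos hp using hpos'
  have hchild : ∀ i, L.Ch k (y i) → M.fc (M.rev (y i)) ≠ o ∧ L.par k (M.fc (M.rev (y i))) = f := by
    intro i hi
    exact ⟨hi.1, by rw [hi.par, yfc]⟩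
  have hposy : ∀ i ≤ K, L.Ch k (y i) → pos (M.fc (M.rev (y i))) = i := by
    intro i hi hci
    obtain ⟨h1, h2⟩ := hchild i hci
    obtain ⟨h3, h4⟩ := hp _ h1 h2
    refine yinj _ h3 _ hi ?_
    rw [h4, ← hci.sp, M.rev_rev]
  have hchpos : ∀ c, c ≠ o → L.par k c = f → L.Ch k (y (pos c)) ∧
      M.fc (M.rev (y (pos c))) = c := by
    intro c hc hcp
    obtain ⟨_, h2⟩ := hp c hc hcp
    rw [h2]
    exact ⟨L.ch_sp k hc, by rw [M.rev_rev, L.sp_fc]⟩
  set g : ℕ → ℝ := fun i => if L.Ch k (y i) then γ (M.fc (M.rev (y i))) else 0 with hg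
  set e : ℕ → Prop := fun i => L.Ch k (y i) ∧ ex (M.fc (M.rev (y i))) with he
  have hg0 : ∀ i, 0 ≤ g i := fun i => by
    rw [hg]; simp only; split_ifs
    · exact hγ _
    · exact le_rfl
  obtain ⟨ν, n0, n1, n2, n3, n4, n5⟩ := hS Q hQ μ0 K (pos hf) (hp hf hf0 hfp).1 g hg0 e
  -- consecutive children
  have hcons : ∀ d, M.fc d = f → L.Ch k d → L.Ch k (M.nxt d) → L.l (M.nxt d) = k →
      ∃ i, i < K ∧ y i = d ∧ y (i + 1) = M.nxt d ∧ pos (M.fc (M.rev d)) = i ∧
        pos (M.fc (M.rev (M.nxt d))) = i + 1 := by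
    intro d hd h1 h2 h3
    obtain ⟨i, hi, rfl⟩ := ych d hd h1
    have hiK : i ≠ K := by
      rintro rfl
      exact yK h3
    have hlt : i < K := lt_of_le_of_ne hi hiK
    refine ⟨i, hlt, rfl, (ynxt i).symm, hposy i hi h1, ?_⟩
    rw [ynxt] at h2 ⊢
    exact hposy (i + 1) hlt h2
  -- the sum over the interval
  have hsum : ∑ j ∈ range (K + 1), g j ≤ ∑ c' ∈ L.kids k f, γ c' := by
    rw [hg, ← Finset.sum_filter]
    have e1 : ∑ i ∈ (range (K + 1)).filter (fun i => L.Ch k (y i)), γ (M.fc (M.rev (y i))) =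
        ∑ c ∈ ((range (K + 1)).filter (fun i => L.Ch k (y i))).image
          (fun i => M.fc (M.rev (y i))), γ c := by
      rw [Finset.sum_image]
      intro a ha b hb hab
      simp only [Finset.coe_filter, Finset.mem_range, Set.mem_ofPred_eq] at ha hb
      simp only at hab
      rw [← hposy a (by omega) ha.2, ← hposy b (by omega) hb.2, hab]
    rw [e1]
    refine sum_le_sum_of_subset_of_nonneg ?_ (fun i _ _ => hγ i)
    intro c hc
    simp only [Finset.mem_image, Finset.mem_filter, Finset.mem_range] at hc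
    obtain ⟨i, ⟨_, h2⟩, rfl⟩ := hc
    obtain ⟨h3, h4⟩ := hchild i h2
    simp only [Lab.kids, Finset.mem_filter, Finset.mem_univ, true_and]
    exact ⟨h4, h3⟩
  -- the number of children
  have hcard : (K : ℝ) + 1 ≤ (L.kids k f).card + 2 := by
    have h1 : K - 1 ≤ (L.kids k f).card := by
      have h2 : ((Finset.Ico 1 K).image (fun i => M.fc (M.rev (y i)))).card = K - 1 := by
        rw [Finset.card_image_of_injOn, Nat.card_Ico]
        intro a ha b hb hab
        simp only [Finset.coe_Ico, Set.mem_Ico] at ha hb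
        simp only at hab
        rw [← hposy a ha.2.le (yCh a ha.2 ha.1), ← hposy b hb.2.le (yCh b hb.2 hb.1), hab]
      rw [← h2]
      apply Finset.card_le_card
      intro c hc
      simp only [Finset.mem_image, Finset.mem_Ico] at hc
      obtain ⟨i, ⟨h3, h4⟩, rfl⟩ := hc
      obtain ⟨h5, h6⟩ := hchild i (yCh i h4 h3)
      simp only [Lab.kids, Finset.mem_filter, Finset.mem_univ, true_and]
      exact ⟨h6, h5⟩
    have h2 : K + 1 ≤ (L.kids k f).card + 2 := by omega
    exact_mod_cast h2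
  have hsum0 : 0 ≤ ∑ j ∈ range (K + 1), g j := Finset.sum_nonneg fun i _ => hg0 i
  refine ⟨fun c => ν (pos c), n0, ?_, ?_, ?_, ?_, ?_⟩
  · intro d hd h1 h2 h3
    obtain ⟨i, hi, e1, e2, e3, e4⟩ := hcons d hd h1 h2 h3
    have := n1 i hi
    have g1 : g i = γ (M.fc (M.rev d)) := by
      rw [hg]; simp only; rw [e1, if_pos h1]
    have g2 : g (i + 1) = γ (M.fc (M.rev (M.nxt d))) := by
      rw [hg]; simp only; rw [e2, if_pos h2]
    simp only
    rw [e3, e4, ← g1, ← g2]
    exact this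
  · intro d hd h1 h2 h3 h4 h5
    obtain ⟨i, hi, e1, e2, e3, e4⟩ := hcons d hd h1 h2 h3
    simp only
    rw [e3, e4]
    refine n2 i hi ?_ ?_
    · rw [he]; simp only; rw [e1]; exact ⟨h1, h4⟩
    · rw [he]; simp only; rw [e2]; exact ⟨h2, h5⟩
  · intro c hc hcp hch hex
    obtain ⟨h1, h2⟩ := hchpos c hc hcp
    refine n3 (pos c) (hp c hc hcp).1 ?_ ?_
    · intro h
      apply hch
      rw [← h2, h]
      exact (hchpos hf hf0 hfp).2
    · rw [he]; simp only; rw [h2]; exact ⟨h1, hex⟩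
  · intro c hc hcp hno
    refine (n4 ?_ (pos c) (hp c hc hcp).1).trans (by linarith)
    intro i hi hei
    obtain ⟨h1, h2⟩ := hei
    obtain ⟨h3, h4⟩ := hchild i h1
    refine hno _ ?_ h2
    simp only [Lab.kids, Finset.mem_filter, Finset.mem_univ, true_and]
    exact ⟨h4, h3⟩
  · intro c hc hcp
    refine (n5 (pos c) (hp c hc hcp).1).trans ?_
    refine mul_le_mul_of_nonneg_left ?_ hC.le
    have hQ2 : (0 : ℝ) < (Q : ℝ) ^ 2 := by
      have : (0 : ℝ) < Q := by exact_mod_cast hQ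
      positivity
    have := div_le_div_of_nonneg_right hcard hQ2.le
    linarith

/-- Slopes of the children of the outer face. -/
lemma outer_slopes (M : PMap V F D) (o : F) (L : Lab M o) :
    ∃ s : D → ℕ, (∀ e, M.fc e = o → M.nxt e ∉ L.sus → s (M.nxt e) = s e + 1) ∧
      (∀ e, M.fc e = o → s e ≤ M.dg o) := by
  obtain ⟨a, ha⟩ : L.sus.Nonempty := by
    rw [← Finset.card_pos, L.sus_card]; norm_num
  have hao := L.sus_o a ha
  set p : D → D := fun d => M.nxt.symm d with hp
  have hnp : ∀ d, M.nxt (p d) = d := fun d => M.nxt.apply_symm_apply d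
  have hpn : ∀ d, p (M.nxt d) = d := fun d => M.nxt.symm_apply_apply d
  have hit : ∀ (n : ℕ) (d : D), p^[n] (M.nxt^[n] d) = d := by
    intro n
    induction n with
    | zero => intro d; rfl
    | succ n ih =>
      intro d
      rw [Function.iterate_succ_apply p, Function.iterate_succ_apply' (⇑M.nxt), hpn, ih]
  have hfcp : ∀ d, M.fc (p d) = M.fc d := by
    intro d
    rw [← M.fc_nxt, hnp]
  have hfcpi : ∀ (n : ℕ) (d : D), M.fc (p^[n] d) = M.fc d := by
    intro n
    induction n with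
    | zero => intro d; rfl
    | succ n ih => intro d; rw [Function.iterate_succ_apply, ih, hfcp]
  have hex : ∀ e, M.fc e = o → ∃ n, p^[n] e ∈ L.sus := by
    intro e he
    obtain ⟨n, hn⟩ := M.fc_trans a e (by rw [hao, he])
    refine ⟨n, ?_⟩
    rw [← hn, hit]
    exact ha
  refine ⟨fun e => if h : ∃ n, p^[n] e ∈ L.sus then Nat.find h else 0, ?_, ?_⟩
  · intro e he hne
    have h1 := hex e he
    have h2 := hex (M.nxt e) (by rw [M.fc_nxt]; exact he)
    simp only
    rw [dif_pos h1, dif_pos h2]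
    rw [Nat.find_eq_iff]
    constructor
    · rw [Function.iterate_succ_apply, hpn]
      exact Nat.find_spec h1
    · intro n hn
      rcases n with - | n
      · exact hne
      · rw [Function.iterate_succ_apply, hpn]
        exact Nat.find_min h1 (by omega)
  · intro e he
    have h1 := hex e he
    simp only
    rw [dif_pos h1]
    set s := Nat.find h1 with hs
    have hspec : p^[s] e ∈ L.sus := Nat.find_spec h1
    have hmin : ∀ n < s, p^[n] e ∉ L.sus := fun n hn => Nat.find_min h1 hn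
    have hinjp : Function.Injective p := M.nxt.symm.injective
    have hinj : ∀ i j, i < j → j < s → p^[i] e ≠ p^[j] e := by
      intro i j hij hj h
      have h2 : p^[j] e = p^[i] (p^[j - i] e) := by
        rw [← Function.iterate_add_apply]; congr 1; omega
      rw [h2] at h
      have h3 : e = p^[j - i] e := hinjp.iterate i h
      have h4 : p^[s] e = p^[s - (j - i)] e := by
        conv_rhs => rw [h3]
        rw [← Function.iterate_add_apply]; congr 1; omega
      rw [h4] at hspec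
      exact hmin _ (by omega) hspec
    have h5 : ((range s).image (fun i => p^[i] e)).card = s := by
      rw [Finset.card_image_of_injOn, Finset.card_range]
      intro i hi j hj hij
      simp only [Finset.coe_range, Set.mem_Iio] at hi hj
      simp only at hij
      rcases lt_trichotomy i j with h | h | h
      · exact absurd hij (hinj i j h hj)
      · exact h
      · exact absurd hij.symm (hinj j i h hi)
    rw [← h5]
    apply Finset.card_le_card
    intro d hd
    simp only [Finset.mem_image, Finset.mem_range, Finset.mem_filter, Finset.mem_univ,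
      true_and] at hd ⊢
    obtain ⟨i, _, rfl⟩ := hd
    rw [hfcpi, he]

theorem exists_slopes : ∃ C : ℝ, 0 < C ∧ ∀ {V F D : Type} [Fintype V] [Fintype F] [Fintype D]
    (M : PMap V F D) (o : F) (H : M.Three) (L : Lab M o)
    (hac : ∀ k f, ∃ i, (L.par k)^[i] f = o) (hv : ZMod 3 → F → F)
    (hhv : ∀ k c, c ≠ o → hv k (L.par k c) ≠ o ∧ L.par k (hv k (L.par k c)) = L.par k c)
    (γ : ZMod 3 → F → ℝ) (hγ : ∀ k c, 0 ≤ γ k c) (ex : ZMod 3 → F → Prop) (Qf : F → ℕ)
    (hQ : ∀ f, 1 ≤ Qf f) (δ : ℝ) (hδ : 0 ≤ δ),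
    ∃ m : ZMod 3 → F → ℝ, (∀ k, m k o = 0) ∧
      (∀ k c, c ≠ o → L.par k c ≠ o → c = hv k (L.par k c) → m k c = m k (L.par k c)) ∧
      (∀ k d, M.fc d ≠ o → L.Ch k d → L.Ch k (M.nxt d) → L.l (M.nxt d) = k →
        m k (M.fc (M.rev d)) + max (γ k (M.fc (M.rev d))) (γ k (M.fc (M.rev (M.nxt d)))) ≤
          m k (M.fc (M.rev (M.nxt d)))) ∧
      (∀ k d, M.fc d ≠ o → L.Ch k d → L.Ch k (M.nxt d) → L.l (M.nxt d) = k →
        ex k (M.fc (M.rev d)) → ex k (M.fc (M.rev (M.nxt d))) →
        m k (M.fc (M.rev d)) < m k (M.fc (M.rev (M.nxt d)))) ∧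
      (∀ k c, c ≠ o → L.par k c ≠ o → c ≠ hv k (L.par k c) → ex k c →
        IsFrac (Qf (L.par k c)) (m k c)) ∧
      (∀ k c, c ≠ o → L.par k c ≠ o → (∀ c' ∈ L.kids k (L.par k c), ¬ ex k c') →
        |m k c - m k (L.par k c)| ≤ 2 * ∑ c' ∈ L.kids k (L.par k c), γ k c') ∧
      (∀ k c, c ≠ o → L.par k c ≠ o → |m k c - m k (L.par k c)| ≤
        C * (((L.kids k (L.par k c)).card + 2 : ℝ) / (Qf (L.par k c) : ℝ) ^ 2 +
          ∑ c' ∈ L.kids k (L.par k c), γ k c' + 1 / Real.sqrt (Qf (L.par k c)))) ∧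
      (∀ e, M.fc e = o → M.nxt e ∉ L.sus → δ ≤ m (L.l (M.rev e) + 2) (M.fc (M.rev e)) -
        m (L.l (M.rev e) + 2) (M.fc (M.rev (M.nxt e)))) ∧
      (∀ k c, c ≠ o → L.par k c = o → |m k c| ≤ M.dg o * δ) := by
  obtain ⟨C, hC, hS⟩ := face_slopes
  refine ⟨C, hC, ?_⟩
  intro V F D _ _ _ M o H L hac hv hhv γ hγ ex Qf hQ δ hδ
  have three : (1 : ZMod 3) + 1 + 1 = 0 := by decide
  obtain ⟨s, hs1, hs2⟩ := outer_slopes M o L
  -- local choice of the slopes
  have hloc : ∀ (k : ZMod 3) (f : F) (x : ℝ), ∃ μ : F → ℝ,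
      (f ≠ o → hv k f ≠ o → L.par k (hv k f) = f → μ (hv k f) = x ∧
      (∀ d, M.fc d = f → L.Ch k d → L.Ch k (M.nxt d) → L.l (M.nxt d) = k →
        μ (M.fc (M.rev d)) + max (γ k (M.fc (M.rev d))) (γ k (M.fc (M.rev (M.nxt d)))) ≤
          μ (M.fc (M.rev (M.nxt d)))) ∧
      (∀ d, M.fc d = f → L.Ch k d → L.Ch k (M.nxt d) → L.l (M.nxt d) = k →
        ex k (M.fc (M.rev d)) → ex k (M.fc (M.rev (M.nxt d))) →
        μ (M.fc (M.rev d)) < μ (M.fc (M.rev (M.nxt d)))) ∧
      (∀ c, c ≠ o → L.par k c = f → c ≠ hv k f → ex k c → IsFrac (Qf f) (μ c)) ∧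
      (∀ c, c ≠ o → L.par k c = f → (∀ c' ∈ L.kids k f, ¬ ex k c') →
        |μ c - x| ≤ 2 * ∑ c' ∈ L.kids k f, γ k c') ∧
      (∀ c, c ≠ o → L.par k c = f → |μ c - x| ≤
        C * (((L.kids k f).card + 2 : ℝ) / (Qf f : ℝ) ^ 2 + ∑ c' ∈ L.kids k f, γ k c'
          + 1 / Real.sqrt (Qf f)))) ∧
      (f = o → ∀ c, μ c = - (δ * s (M.rev (L.sp k c)))) := by
    intro k f x
    by_cases hfo : f = o
    · exact ⟨fun c => - (δ * s (M.rev (L.sp k c))), fun h => absurd hfo h, fun _ c => rfl⟩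
    · by_cases h2 : hv k f ≠ o ∧ L.par k (hv k f) = f
      · obtain ⟨μ, hμ⟩ := hS M o L k f hfo (hv k f) h2.1 h2.2 (γ k) (hγ k) (ex k) (Qf f) (hQ f) x
        exact ⟨μ, fun _ _ _ => hμ, fun h => absurd h hfo⟩
      · exact ⟨fun _ => 0, fun _ h3 h4 => absurd ⟨h3, h4⟩ h2, fun h => absurd h hfo⟩
  choose A hA1 hA2 using hloc
  -- the forests
  let T : ZMod 3 → Forest F := fun k => ⟨L.par k, o, L.par_o k, hac k⟩
  have hrec : ∀ k, ∃ m : F → ℝ, m o = 0 ∧ ∀ c, c ≠ o → m c = A k (L.par k c) (m (L.par k c)) c :=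
    fun k => (T k).exists_rec (fun f x c => A k f x c)
  choose m m0 mrec using hrec
  have hkid : ∀ k d, L.Ch k d → M.fc (M.rev d) ≠ o ∧ L.par k (M.fc (M.rev d)) = M.fc d :=
    fun k d h => ⟨h.1, h.par⟩
  have hspec : ∀ k f, f ≠ o → (∃ c, c ≠ o ∧ L.par k c = f) → _ := fun k f hf hc =>
    hA1 k f (m k f) hf (by obtain ⟨c, h1, h2⟩ := hc; rw [← h2]; exact (hhv k c h1).1)
      (by obtain ⟨c, h1, h2⟩ := hc; rw [← h2]; exact (hhv k c h1).2)
  have hm : ∀ k f c, c ≠ o → L.par k c = f → m k c = A k f (m k f) c := by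
    rintro k f c hc rfl
    exact mrec k c hc
  have hout : ∀ k c, c ≠ o → L.par k c = o → m k c = - (δ * s (M.rev (L.sp k c))) := by
    intro k c hc hcp
    rw [hm k o c hc hcp]
    exact hA2 k o (m k o) rfl c
  refine ⟨m, m0, ?_, ?_, ?_, ?_, ?_, ?_, ?_, ?_⟩
  · intro k c hc hpo hch
    obtain ⟨h1, _⟩ := hspec k (L.par k c) hpo ⟨c, hc, rfl⟩
    rw [mrec k c hc]
    conv_lhs => rw [show A k (L.par k c) (m k (L.par k c)) c =
      A k (L.par k c) (m k (L.par k c)) (hv k (L.par k c)) from congrArg _ hch]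
    exact h1
  · intro k d hd h1 h2 h3
    obtain ⟨c1, c2⟩ := hkid k d h1
    obtain ⟨c3, c4⟩ := hkid k _ h2
    rw [M.fc_nxt] at c4
    obtain ⟨_, h4, _⟩ := hspec k (M.fc d) hd ⟨_, c1, c2⟩
    rw [hm k (M.fc d) _ c1 c2, hm k (M.fc d) _ c3 c4]
    exact h4 d rfl h1 h2 h3
  · intro k d hd h1 h2 h3 h5 h6
    obtain ⟨c1, c2⟩ := hkid k d h1
    obtain ⟨c3, c4⟩ := hkid k _ h2
    rw [M.fc_nxt] at c4
    obtain ⟨_, _, h4, _⟩ := hspec k (M.fc d) hd ⟨_, c1, c2⟩
    rw [hm k (M.fc d) _ c1 c2, hm k (M.fc d) _ c3 c4]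
    exact h4 d rfl h1 h2 h3 h5 h6
  · intro k c hc hpo hch hex
    obtain ⟨_, _, _, h4, _⟩ := hspec k (L.par k c) hpo ⟨c, hc, rfl⟩
    rw [mrec k c hc]
    exact h4 c hc rfl hch hex
  · intro k c hc hpo hno
    obtain ⟨_, _, _, _, h4, _⟩ := hspec k (L.par k c) hpo ⟨c, hc, rfl⟩
    have := h4 c hc rfl hno
    rw [← mrec k c hc] at this
    exact this
  · intro k c hc hpo
    obtain ⟨_, _, _, _, _, h4⟩ := hspec k (L.par k c) hpo ⟨c, hc, rfl⟩
    have := h4 c hc rfl
    rw [← mrec k c hc] at this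
    exact this
  · intro e he hne
    have key : ∀ e, M.fc e = o → ∀ k, k = L.l (M.rev e) + 2 →
        m k (M.fc (M.rev e)) = - (δ * s e) := by
      intro e he k hk
      have h1 : ¬ L.cF (M.rev e) := L.ff e (L.out e he)
      have h2 : M.fc (M.rev e) ≠ o := fun h => h1 (L.out _ h)
      have h3 : L.l (M.rev e) = k + 1 := by rw [hk]; linear_combination -three
      have h4 := L.sp_unique k h2 h1 h3
      have h5 : L.par k (M.fc (M.rev e)) = o := by
        rw [L.par_eq k h2, ← h4, M.rev_rev, he]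
      rw [hout k _ h2 h5, ← h4, M.rev_rev]
    have h1 := L.outer e he
    rw [if_neg hne, add_zero] at h1
    rw [key e he _ rfl, key (M.nxt e) (by rw [M.fc_nxt]; exact he) _ (by rw [h1]), hs1 e he hne]
    push_cast
    linarith
  · intro k c hc hcp
    rw [hout k c hc hcp, abs_neg, abs_of_nonneg (by positivity), mul_comm]
    refine mul_le_mul_of_nonneg_right ?_ hδ
    have : M.fc (M.rev (L.sp k c)) = o := by rw [← L.par_eq k hc, hcp]
    exact_mod_cast hs2 _ this

end PMap

end P8ffccf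

end
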