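import Pool.Agent.Lib.P8ffccf.Geo

/-! Nonnegative solutions of contracting nonnegative linear systems. -/

noncomputable section

namespace P8ffccf

open Classical Finset Filter Topology

namespace Lin

variable {ι : Type} [Fintype ι]

/-- The iteration. -/
def it (A : ι → ι → ℝ) (w b : ι → ℝ) : ℕ → ι → ℝ
  | 0 => fun _ => 0
  | n + 1 => fun i => b i + ∑ j, A i j * (w j * it A w b n j)

variable {A : ι → ι → ℝ} {w b : ι → ℝ}

theorem it_nonneg (hA : ∀ i j, 0 ≤ A i j) (hw : ∀ i, 0 ≤ w i) (hb : ∀ i, 0 ≤ b i) (n : ℕ) :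
    ∀ i, 0 ≤ it A w b n i := by
  induction n with
  | zero => intro i; simp [it]
  | succ n ih =>
    intro i
    simp only [it]
    exact add_nonneg (hb i) (Finset.sum_nonneg fun j _ =>
      mul_nonneg (hA i j) (mul_nonneg (hw j) (ih j)))

theorem it_mono (hA : ∀ i j, 0 ≤ A i j) (hw : ∀ i, 0 ≤ w i) (hb : ∀ i, 0 ≤ b i) (n : ℕ) :
    ∀ i, it A w b n i ≤ it A w b (n + 1) i := by
  induction n with
  | zero =>
    intro i
    simpa [it] using hb i
  | succ n ih =>
    intro i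
    rw [it, it]
    exact add_le_add le_rfl (Finset.sum_le_sum fun j _ =>
      mul_le_mul_of_nonneg_left (mul_le_mul_of_nonneg_left (ih j) (hw j)) (hA i j))

theorem it_sum (hA : ∀ i j, 0 ≤ A i j) (hw : ∀ i, 0 ≤ w i) (hb : ∀ i, 0 ≤ b i)
    (hcol : ∀ j, ∑ i, w i * A i j ≤ 1 / 2) (n : ℕ) :
    ∑ i, w i * it A w b n i ≤ 2 * ∑ i, w i * b i := by
  have hB : 0 ≤ ∑ i, w i * b i := Finset.sum_nonneg fun i _ => mul_nonneg (hw i) (hb i)
  induction n with
  | zero =>
    simp only [it, mul_zero, Finset.sum_const_zero]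
    linarith
  | succ n ih =>
    have h1 : ∑ i, w i * it A w b (n + 1) i =
        ∑ i, w i * b i + ∑ j, (∑ i, w i * A i j) * (w j * it A w b n j) := by
      simp only [it, mul_add, Finset.sum_add_distrib]
      congr 1
      simp only [Finset.mul_sum, Finset.sum_mul]
      rw [Finset.sum_comm]
      refine Finset.sum_congr rfl fun j _ => Finset.sum_congr rfl fun i _ => by ring
    have h2 : ∑ j, (∑ i, w i * A i j) * (w j * it A w b n j) ≤
        ∑ j, (1 / 2) * (w j * it A w b n j) :=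
      Finset.sum_le_sum fun j _ => mul_le_mul_of_nonneg_right (hcol j)
        (mul_nonneg (hw j) (it_nonneg hA hw hb n j))
    rw [← Finset.mul_sum] at h2
    linarith

theorem it_le (hA : ∀ i j, 0 ≤ A i j) (hw : ∀ i, 0 ≤ w i) (hb : ∀ i, 0 ≤ b i)
    (hcol : ∀ j, ∑ i, w i * A i j ≤ 1 / 2) (n : ℕ) (i : ι) :
    it A w b n i ≤ b i + ∑ j, A i j * (2 * ∑ i, w i * b i) := by
  have hB : 0 ≤ ∑ i, w i * b i := Finset.sum_nonneg fun i _ => mul_nonneg (hw i) (hb i)
  refine (it_mono hA hw hb n i).trans ?_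
  simp only [it]
  refine add_le_add le_rfl (Finset.sum_le_sum fun j _ => mul_le_mul_of_nonneg_left ?_ (hA i j))
  refine le_trans ?_ (it_sum hA hw hb hcol n)
  exact Finset.single_le_sum (f := fun j => w j * it A w b n j)
    (fun j _ => mul_nonneg (hw j) (it_nonneg hA hw hb n j)) (Finset.mem_univ j)

end Lin

theorem nonneg_system {ι : Type} [Fintype ι] (A : ι → ι → ℝ) (hA : ∀ i j, 0 ≤ A i j)
    (w b : ι → ℝ) (hw : ∀ i, 0 ≤ w i) (hb : ∀ i, 0 ≤ b i)
    (hcol : ∀ j, ∑ i, w i * A i j ≤ 1 / 2) :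
    ∃ x : ι → ℝ, (∀ i, 0 ≤ x i) ∧ (∀ i, x i = b i + ∑ j, A i j * (w j * x j)) ∧
      ∑ i, w i * x i ≤ 2 * ∑ i, w i * b i := by
  have hmono : ∀ i, Monotone fun n => Lin.it A w b n i := fun i =>
    monotone_nat_of_le_succ fun n => Lin.it_mono hA hw hb n i
  have hbdd : ∀ i, BddAbove (Set.range fun n => Lin.it A w b n i) := fun i =>
    ⟨b i + ∑ j, A i j * (2 * ∑ i, w i * b i), by
      rintro _ ⟨n, rfl⟩
      exact Lin.it_le hA hw hb hcol n i⟩
  have hlim : ∀ i, Tendsto (fun n => Lin.it A w b n i) atTop (𝓝 (⨆ n, Lin.it A w b n i)) :=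
    fun i => tendsto_atTop_ciSup (hmono i) (hbdd i)
  refine ⟨fun i => ⨆ n, Lin.it A w b n i, fun i => ?_, fun i => ?_, ?_⟩
  · exact ge_of_tendsto' (hlim i) fun n => Lin.it_nonneg hA hw hb n i
  · have h1 : Tendsto (fun n => Lin.it A w b (n + 1) i) atTop (𝓝 (⨆ n, Lin.it A w b n i)) :=
      (tendsto_add_atTop_iff_nat 1).2 (hlim i)
    have h2 : Tendsto (fun n => Lin.it A w b (n + 1) i) atTop
        (𝓝 (b i + ∑ j, A i j * (w j * ⨆ n, Lin.it A w b n j))) := by
      simp only [Lin.it]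
      exact tendsto_const_nhds.add (tendsto_finsetSum _ fun j _ =>
        ((hlim j).const_mul (w j)).const_mul (A i j))
    exact tendsto_nhds_unique h1 h2
  · refine le_of_tendsto' (tendsto_finsetSum _ fun i _ => (hlim i).const_mul (w i))
      fun n => Lin.it_sum hA hw hb hcol n

end P8ffccf

end
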