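import Pool.Agent.Lib.P8ffccf.Net
import Pool.Agent.Lib.P8ffccf.Lin

/-! Flows on three forests. -/

noncomputable section

namespace P8ffccf

open Classical Finset

theorem abs_le_path {X : Type} [Fintype X] (T : Forest X) (m : X → ℝ) (h0 : m T.root = 0) (x : X) :
    |m x| ≤ ∑ c with c ≠ T.root ∧ x ∈ T.desc c, |m c - m (T.par c)| := by
  have key : ∀ n : ℕ, ∀ x, T.dep x = n →
      |m x| ≤ ∑ c with c ≠ T.root ∧ x ∈ T.desc c, |m c - m (T.par c)| := by
    intro n
    induction n with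
    | zero =>
      intro x hx
      have hr : x = T.root := (Nat.find_eq_zero (T.acyc x)).1 hx
      rw [hr, h0, abs_zero]
      exact Finset.sum_nonneg fun _ _ => abs_nonneg _
    | succ n ih =>
      intro x hx
      have hxr : x ≠ T.root := by
        rintro rfl
        rw [T.dep_root] at hx
        omega
      have h1 := T.dep_par hxr
      have h2 := ih (T.par x) (by omega)
      have hnot : x ∉ univ.filter (fun c => c ≠ T.root ∧ T.par x ∈ T.desc c) := by
        simp only [Finset.mem_filter, Finset.mem_univ, true_and, not_and]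
        intro _ hd
        obtain ⟨i, hi⟩ := T.mem_desc.1 hd
        have := T.dep_iter hxr i _ hi
        omega
      have hsub : insert x (univ.filter (fun c => c ≠ T.root ∧ T.par x ∈ T.desc c)) ⊆
          univ.filter (fun c => c ≠ T.root ∧ x ∈ T.desc c) := by
        intro c hc
        simp only [Finset.mem_insert, Finset.mem_filter, Finset.mem_univ, true_and] at hc ⊢
        rcases hc with rfl | ⟨hc1, hc2⟩
        · exact ⟨hxr, T.self_mem_desc _⟩
        · exact ⟨hc1, T.desc_trans (T.desc_par x) hc2⟩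
      calc |m x| ≤ |m x - m (T.par x)| + |m (T.par x)| := by
            have := abs_add_le (m x - m (T.par x)) (m (T.par x))
            simpa using this
        _ ≤ |m x - m (T.par x)| +
            ∑ c with c ≠ T.root ∧ T.par x ∈ T.desc c, |m c - m (T.par c)| := by gcongr
        _ = ∑ c ∈ insert x (univ.filter (fun c => c ≠ T.root ∧ T.par x ∈ T.desc c)),
            |m c - m (T.par c)| := by rw [Finset.sum_insert hnot]
        _ ≤ _ := Finset.sum_le_sum_of_subset_of_nonneg hsub (fun _ _ _ => abs_nonneg _)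
  exact key _ x rfl

namespace Sys

theorem sum3 {α : Type} [AddCommMonoid α] (g : ZMod 3 → α) : ∑ k, g k = g 0 + g 1 + g 2 :=
  Fin.sum_univ_three g

/-- The direction vector. -/
def uu (m : ZMod 3 → ℝ) (k : ZMod 3) : ℝ × ℝ := rl (Dz k) + m k • rl (Ez k)

/-- The determinant of the two other direction vectors. -/
def dd (m : ZMod 3 → ℝ) (k : ZMod 3) : ℝ := det (uu m (k + 1)) (uu m (k + 2))

/-- The determinant with `E_j`. -/
def dE (m : ZMod 3 → ℝ) (j k : ZMod 3) : ℝ := det (rl (Ez j)) (uu m (k + 1) - uu m (k + 2))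

/-- The sum of the determinants. -/
def SS (m : ZMod 3 → ℝ) : ℝ := 3 + 3 * (m 0 * m 1 + m 1 * m 2 + m 2 * m 0)

theorem Dz0 : Dz 0 = (1, 0) := rfl
theorem Dz1 : Dz 1 = (0, 1) := rfl
theorem Dz2 : Dz 2 = (-1, -1) := rfl
theorem Ez0 : Ez 0 = (1, 2) := rfl
theorem Ez1 : Ez 1 = (-2, -1) := rfl
theorem Ez2 : Ez 2 = (1, -1) := rfl

theorem uu0 (m : ZMod 3 → ℝ) : uu m 0 = (1 + m 0, 2 * m 0) := by
  simp [uu, Dz0, Ez0, rl, mul_comm]

theorem uu1 (m : ZMod 3 → ℝ) : uu m 1 = (- 2 * m 1, 1 - m 1) := by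
  simp [uu, Dz1, Ez1, rl, mul_comm, sub_eq_add_neg]

theorem uu2 (m : ZMod 3 → ℝ) : uu m 2 = (- 1 + m 2, - 1 - m 2) := by
  simp [uu, Dz2, Ez2, rl, mul_comm, sub_eq_add_neg]

theorem z11 : (1 : ZMod 3) + 1 = 2 := rfl
theorem z12 : (1 : ZMod 3) + 2 = 0 := rfl
theorem z21 : (2 : ZMod 3) + 1 = 0 := rfl
theorem z22 : (2 : ZMod 3) + 2 = 1 := rfl

theorem dd0 (m : ZMod 3 → ℝ) : dd m 0 = 1 - m 2 + m 1 + 3 * (m 1 * m 2) := by
  simp only [dd, zero_add, uu1, uu2, det]
  ring

theorem dd1 (m : ZMod 3 → ℝ) : dd m 1 = 1 - m 0 + m 2 + 3 * (m 2 * m 0) := by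
  simp only [dd, z11, z12, uu0, uu2, det]
  ring

theorem dd2 (m : ZMod 3 → ℝ) : dd m 2 = 1 - m 1 + m 0 + 3 * (m 0 * m 1) := by
  simp only [dd, z21, z22, uu0, uu1, det]
  ring

variable {m : ZMod 3 → ℝ}

theorem mul_bd (hm : ∀ k, |m k| ≤ 1 / 1000) (i j : ZMod 3) : |m i * m j| ≤ 1 / 1000000 := by
  rw [abs_mul]
  calc |m i| * |m j| ≤ (1 / 1000) * (1 / 1000) :=
        mul_le_mul (hm i) (hm j) (abs_nonneg _) (by norm_num)
    _ = 1 / 1000000 := by norm_num

theorem zcases (k : ZMod 3) : k = 0 ∨ k = 1 ∨ k = 2 := by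
  fin_cases k
  · exact Or.inl rfl
  · exact Or.inr (Or.inl rfl)
  · exact Or.inr (Or.inr rfl)

theorem dd_bd (hm : ∀ k, |m k| ≤ 1 / 1000) (k : ZMod 3) : 0.997 ≤ dd m k ∧ dd m k ≤ 1.003 := by
  have h0 := abs_le.1 (hm 0)
  have h1 := abs_le.1 (hm 1)
  have h2 := abs_le.1 (hm 2)
  have h01 := abs_le.1 (mul_bd hm 0 1)
  have h12 := abs_le.1 (mul_bd hm 1 2)
  have h20 := abs_le.1 (mul_bd hm 2 0)
  rcases zcases k with rfl | rfl | rfl
  · rw [dd0]
    constructor <;> linarith [h0.1, h0.2, h1.1, h1.2, h2.1, h2.2, h01.1, h01.2, h12.1, h12.2]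
  · rw [dd1]
    constructor <;> linarith [h0.1, h0.2, h1.1, h1.2, h2.1, h2.2, h20.1, h20.2]
  · rw [dd2]
    constructor <;> linarith [h0.1, h0.2, h1.1, h1.2, h2.1, h2.2, h01.1, h01.2]

theorem SS_bd (hm : ∀ k, |m k| ≤ 1 / 1000) : 2.999 ≤ SS m := by
  have h01 := abs_le.1 (mul_bd hm 0 1)
  have h12 := abs_le.1 (mul_bd hm 1 2)
  have h20 := abs_le.1 (mul_bd hm 2 0)
  unfold SS
  linarith [h01.1, h12.1, h20.1]

theorem dE_bd (hm : ∀ k, |m k| ≤ 1 / 1000) (j k : ZMod 3) : |dE m j k| ≤ 3.006 := by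
  have h0 := abs_le.1 (hm 0)
  have h1 := abs_le.1 (hm 1)
  have h2 := abs_le.1 (hm 2)
  obtain ⟨h0a, h0b⟩ := h0
  obtain ⟨h1a, h1b⟩ := h1
  obtain ⟨h2a, h2b⟩ := h2
  rw [abs_le]
  rcases zcases j with rfl | rfl | rfl <;> rcases zcases k with rfl | rfl | rfl <;>
    simp only [dE, z11, z12, z21, z22, zero_add, uu0, uu1, uu2, det, rl, Ez0, Ez1, Ez2,
      Prod.mk_sub_mk] <;> push_cast <;> constructor <;> linarith

/-- The coefficient. -/
def cf (m : ZMod 3 → ℝ) (j : ZMod 3) (s : ℝ) (k : ZMod 3) : ℝ := 100 * dd m k + s * (dE m j k / SS m)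

theorem cf_bd (hm : ∀ k, |m k| ≤ 1 / 1000) {s : ℝ} (hs : |s| ≤ 1) (j k : ZMod 3) :
    98 ≤ cf m j s k ∧ cf m j s k ≤ 102 := by
  have h1 := dd_bd hm k
  have h2 := SS_bd hm
  have h3 := dE_bd hm j k
  have h4 : |s * (dE m j k / SS m)| ≤ 1.01 := by
    have hS : 0 < SS m := by linarith
    rw [abs_mul, abs_div, abs_of_pos hS]
    have h5 : |dE m j k| / SS m ≤ 1.01 := by
      rw [div_le_iff₀ hS]
      linarith
    calc |s| * (|dE m j k| / SS m) ≤ 1 * 1.01 :=
          mul_le_mul hs h5 (by positivity) (by norm_num)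
      _ = 1.01 := by norm_num
  have h5 := abs_le.1 h4
  unfold cf
  constructor <;> linarith [h1.1, h1.2, h5.1, h5.2]

theorem dd_sum (m : ZMod 3 → ℝ) : ∑ k, dd m k • uu m k = 0 := by
  rw [sum3, dd0, dd1, dd2, uu0, uu1, uu2]
  ext
  · simp only [Prod.smul_mk, Prod.mk_add_mk, smul_eq_mul, Prod.fst_zero]
    ring
  · simp only [Prod.smul_mk, Prod.mk_add_mk, smul_eq_mul, Prod.snd_zero]
    ring

theorem dE_sum (m : ZMod 3 → ℝ) (j : ZMod 3) : ∑ k, dE m j k • uu m k = SS m • rl (Ez j) := by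
  rw [sum3]
  rcases zcases j with rfl | rfl | rfl <;>
    simp only [dE, SS, z11, z12, z21, z22, zero_add, uu0, uu1, uu2, det, rl, Ez0, Ez1, Ez2,
      Prod.mk_sub_mk, Prod.smul_mk, Prod.mk_add_mk, smul_eq_mul] <;> push_cast <;>
    refine Prod.ext ?_ ?_ <;> simp only <;> ring

theorem cf_sum (hm : ∀ k, |m k| ≤ 1 / 1000) (j : ZMod 3) (s : ℝ) :
    ∑ k, cf m j s k • uu m k = s • rl (Ez j) := by
  have h2 := SS_bd hm
  have hS : SS m ≠ 0 := by
    intro h
    rw [h] at h2
    norm_num at h2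
  have e : ∀ k, cf m j s k • uu m k = (100 : ℝ) • (dd m k • uu m k) +
      (s / SS m) • (dE m j k • uu m k) := by
    intro k
    rw [smul_smul, smul_smul, ← add_smul]
    congr 1
    unfold cf
    ring
  simp only [e]
  rw [Finset.sum_add_distrib, ← Finset.smul_sum, ← Finset.smul_sum, dd_sum, dE_sum, smul_zero,
    zero_add, smul_smul]
  congr 1
  field_simp

end Sys

open Sys in
theorem exists_flow {X : Type} [Fintype X] (o : X) (T : ZMod 3 → Forest X)
    (hT : ∀ k, (T k).root = o) (m : ZMod 3 → X → ℝ) (hm : ∀ k f, |m k f| ≤ 1 / 1000)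
    (hoff : ∀ k f, ∑ c with c ≠ o ∧ f ∈ (T k).desc c, |m k c - m k ((T k).par c)| ≤ 1 / 1000)
    (N0 : X → ℝ) (hN0 : ∀ f, 0 ≤ N0 f) :
    ∃ Lam : ZMod 3 → X → ℝ, (∀ k f, 0 ≤ Lam k f) ∧
      (∀ f, f ≠ o → ∑ k, vec k (Lam k f) (m k f) =
        ∑ k, ∑ c with (T k).par c = f ∧ c ≠ o, vec k (Lam k c) (m k c)) ∧
      (∀ f, f ≠ o → ∀ k, (9 / 10) * N0 f +
        80 * ∑ j, ∑ c with (T j).par c = f ∧ c ≠ o, |m j c - m j f| * Lam j c
         ≤ Lam k f - ∑ c with (T k).par c = f ∧ c ≠ o, Lam k c) ∧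
      (∀ f, f ≠ o → ∀ k, Lam k f ≤ 3 * ∑ g, N0 g) := by
  obtain ⟨w, hwd⟩ : ∃ w : ZMod 3 × X → ℝ,
      ∀ p, w p = |m p.1 p.2 - m p.1 ((T p.1).par p.2)| := ⟨_, fun _ => rfl⟩
  obtain ⟨sg, hsd⟩ : ∃ sg : ZMod 3 × X → ℝ, ∀ p, |sg p| ≤ 1 ∧
      sg p * w p = m p.1 p.2 - m p.1 ((T p.1).par p.2) := by
    refine ⟨fun p => if 0 ≤ m p.1 p.2 - m p.1 ((T p.1).par p.2) then 1 else -1, fun p => ?_⟩
    dsimp only
    rw [hwd]
    split_ifs with h
    · rw [abs_of_nonneg h]
      simp
    · rw [abs_of_neg (not_le.1 h)]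
      simp
  obtain ⟨cc, hcd⟩ : ∃ cc : ZMod 3 → ZMod 3 × X → ℝ, ∀ k p, cc k p =
      cf (fun i => m i ((T p.1).par p.2)) p.1 (sg p) k := ⟨_, fun _ _ => rfl⟩
  have hcb : ∀ k p, 98 ≤ cc k p ∧ cc k p ≤ 102 := fun k p => by
    rw [hcd]
    exact cf_bd (fun i => hm i _) (hsd p).1 _ _
  obtain ⟨A, hAd⟩ : ∃ A : ZMod 3 × X → ZMod 3 × X → ℝ, ∀ q p, A q p =
      if q.2 ≠ o ∧ p.2 ≠ o ∧ (T p.1).par p.2 ∈ (T q.1).desc q.2 then cc q.1 p else 0 :=
    ⟨_, fun _ _ => rfl⟩
  obtain ⟨b, hbd⟩ : ∃ b : ZMod 3 × X → ℝ, ∀ q, b q =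
      if q.2 ≠ o then ∑ y ∈ (T q.1).desc q.2, N0 y * dd (fun i => m i y) q.1 else 0 :=
    ⟨_, fun _ => rfl⟩
  have hw : ∀ p, 0 ≤ w p := fun p => by rw [hwd]; exact abs_nonneg _
  have hA : ∀ q p, 0 ≤ A q p := fun q p => by
    rw [hAd]
    split_ifs
    · linarith [(hcb q.1 p).1]
    · exact le_rfl
  have hb : ∀ q, 0 ≤ b q := fun q => by
    rw [hbd]
    split_ifs
    · exact Finset.sum_nonneg fun y _ => mul_nonneg (hN0 y)
        (by linarith [(dd_bd (m := fun i => m i y) (fun i => hm i y) q.1).1])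
    · exact le_rfl
  -- the key estimate: sums of weights over the ancestors
  have hanc : ∀ (k : ZMod 3) (y : X),
      ∑ x, (if x ≠ o ∧ y ∈ (T k).desc x then w (k, x) else 0) ≤ 1 / 1000 := by
    intro k y
    rw [← Finset.sum_filter]
    refine le_trans (le_of_eq ?_) (hoff k y)
    exact Finset.sum_congr rfl fun c _ => hwd (k, c)
  have hcol : ∀ p, ∑ q, w q * A q p ≤ 1 / 2 := by
    intro p
    rw [Fintype.sum_prod_type]
    by_cases hp : p.2 ≠ o
    · have h1 : ∀ k, ∑ x, w (k, x) * A (k, x) p ≤ 102 * (1 / 1000) := by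
        intro k
        refine le_trans ?_ (mul_le_mul_of_nonneg_left (hanc k ((T p.1).par p.2))
          (by norm_num : (0 : ℝ) ≤ 102))
        rw [Finset.mul_sum]
        refine Finset.sum_le_sum fun x _ => ?_
        rw [hAd]
        by_cases hx : x ≠ o ∧ (T p.1).par p.2 ∈ (T k).desc x
        · rw [if_pos ⟨hx.1, hp, hx.2⟩, if_pos hx, mul_comm]
          exact mul_le_mul_of_nonneg_right (hcb k p).2 (hw _)
        · rw [if_neg (fun h => hx ⟨h.1, h.2.2⟩), if_neg hx]
          simp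
      rw [sum3]
      linarith [h1 0, h1 1, h1 2]
    · have h1 : ∀ k x, w (k, x) * A (k, x) p = 0 := by
        intro k x
        rw [hAd, if_neg (fun h => hp h.2.1), mul_zero]
      simp only [h1, Finset.sum_const_zero]
      norm_num
  obtain ⟨x, hx0, hx, hxs⟩ := nonneg_system A hA w b hw hb hcol
  -- the local surplus
  obtain ⟨lam, hld⟩ : ∃ lam : ZMod 3 → X → ℝ, ∀ k y, lam k y = N0 y * dd (fun i => m i y) k +
      ∑ p, (if (T p.1).par p.2 = y ∧ p.2 ≠ o then cc k p * (w p * x p) else 0) :=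
    ⟨_, fun _ _ => rfl⟩
  have c1 : ∀ k f, f ≠ o → x (k, f) = ∑ y ∈ (T k).desc f, lam k y := by
    intro k f hf
    rw [hx (k, f), hbd, if_pos hf]
    simp only [hld, Finset.sum_add_distrib]
    congr 1
    rw [Finset.sum_comm]
    refine Finset.sum_congr rfl fun p _ => ?_
    rw [hAd]
    by_cases hp : p.2 ≠ o
    · simp only [hp, hf, ne_eq, not_false_eq_true, and_true, true_and]
      rw [Finset.sum_ite_eq]
      split_ifs <;> simp
    · rw [if_neg (fun h => hp h.2.1), zero_mul]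
      symm
      exact Finset.sum_eq_zero fun y _ => if_neg (fun h => hp h.2)
  have c2 : ∀ k f, f ≠ o → x (k, f) = lam k f + ∑ c with (T k).par c = f ∧ c ≠ o, x (k, c) := by
    intro k f hf
    have h1 := (T k).desc_sum (lam k) f (by rw [hT]; exact hf)
    rw [← c1 k f hf, hT] at h1
    rw [h1]
    congr 1
    refine Finset.sum_congr rfl fun c hc => ?_
    rw [Finset.mem_filter] at hc
    exact (c1 k c hc.2.2).symm
  have c3 : ∀ (f : X) (G : ZMod 3 × X → ℝ),
      ∑ p, (if (T p.1).par p.2 = f ∧ p.2 ≠ o then G p else 0) =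
      ∑ j, ∑ c with (T j).par c = f ∧ c ≠ o, G (j, c) := by
    intro f G
    rw [Fintype.sum_prod_type]
    refine Finset.sum_congr rfl fun j _ => ?_
    rw [Finset.sum_filter]
  have c4 : ∀ (f : X) (G : ZMod 3 × X → ℝ × ℝ),
      ∑ p, (if (T p.1).par p.2 = f ∧ p.2 ≠ o then G p else 0) =
      ∑ j, ∑ c with (T j).par c = f ∧ c ≠ o, G (j, c) := by
    intro f G
    rw [Fintype.sum_prod_type]
    refine Finset.sum_congr rfl fun j _ => ?_
    rw [Finset.sum_filter]
  refine ⟨fun k f => x (k, f), fun k f => hx0 _, ?_, ?_, ?_⟩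
  · -- closure
    intro f hf
    have e1 : ∀ k, vec k (x (k, f)) (m k f) = lam k f • uu (fun i => m i f) k +
        ∑ c with (T k).par c = f ∧ c ≠ o, x (k, c) • uu (fun i => m i f) k := by
      intro k
      rw [← Finset.sum_smul, ← add_smul, ← c2 k f hf]
      rfl
    have e2 : ∑ k, lam k f • uu (fun i => m i f) k =
        ∑ j, ∑ c with (T j).par c = f ∧ c ≠ o, ((m j c - m j f) * x (j, c)) • rl (Ez j) := by
      have e3 : ∀ k, lam k f • uu (fun i => m i f) k =
          N0 f • (dd (fun i => m i f) k • uu (fun i => m i f) k) +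
          ∑ p, (if (T p.1).par p.2 = f ∧ p.2 ≠ o then
            (w p * x p) • (cc k p • uu (fun i => m i f) k) else 0) := by
        intro k
        rw [hld, add_smul, smul_smul, Finset.sum_smul]
        congr 1
        refine Finset.sum_congr rfl fun p _ => ?_
        split_ifs
        · rw [smul_smul, mul_comm]
        · rw [zero_smul]
      simp only [e3]
      rw [Finset.sum_add_distrib, ← Finset.smul_sum, dd_sum, smul_zero, zero_add,
        Finset.sum_comm]
      rw [← c4 f (fun p => ((m p.1 p.2 - m p.1 f) * x p) • rl (Ez p.1))]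
      refine Finset.sum_congr rfl fun p _ => ?_
      by_cases hp : (T p.1).par p.2 = f ∧ p.2 ≠ o
      · simp only [if_pos hp]
        rw [← Finset.smul_sum]
        have e4 : ∑ k, cc k p • uu (fun i => m i f) k = sg p • rl (Ez p.1) := by
          rw [← cf_sum (m := fun i => m i f) (fun i => hm i f) p.1 (sg p)]
          refine Finset.sum_congr rfl fun k _ => ?_
          rw [hcd, hp.1]
        rw [e4, smul_smul]
        congr 1
        have := (hsd p).2
        rw [hp.1] at this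
        rw [← this]
        ring
      · simp only [if_neg hp, Finset.sum_const_zero]
    simp only [e1]
    rw [Finset.sum_add_distrib, e2, ← Finset.sum_add_distrib]
    refine Finset.sum_congr rfl fun k _ => ?_
    rw [← Finset.sum_add_distrib]
    refine Finset.sum_congr rfl fun c _ => ?_
    simp only [uu, vec, smul_add, smul_smul]
    rw [add_comm, add_assoc, ← add_smul]
    congr 2
    ring
  · -- lower bound
    intro f hf k
    have h1 := c2 k f hf
    have h2 : x (k, f) - ∑ c with (T k).par c = f ∧ c ≠ o, x (k, c) = lam k f := by linarith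
    change _ ≤ x (k, f) - ∑ c with (T k).par c = f ∧ c ≠ o, x (k, c)
    rw [h2, hld]
    refine add_le_add ?_ ?_
    · rw [mul_comm]
      exact mul_le_mul_of_nonneg_left
        (by linarith [(dd_bd (m := fun i => m i f) (fun i => hm i f) k).1]) (hN0 f)
    · rw [c3 f (fun p => cc k p * (w p * x p)), Finset.mul_sum]
      refine Finset.sum_le_sum fun j _ => ?_
      rw [Finset.mul_sum]
      refine Finset.sum_le_sum fun c hc => ?_
      rw [Finset.mem_filter] at hc
      have e5 : w (j, c) = |m j c - m j f| := by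
        rw [hwd]
        change |m j c - m j ((T j).par c)| = _
        rw [hc.2.1]
      rw [e5]
      exact mul_le_mul_of_nonneg_right (by linarith [(hcb k (j, c)).1])
        (mul_nonneg (abs_nonneg _) (hx0 _))
  · -- upper bound
    intro f hf k
    have hNs : 0 ≤ ∑ g, N0 g := Finset.sum_nonneg fun g _ => hN0 g
    have u1 : b (k, f) ≤ 1.003 * ∑ g, N0 g := by
      rw [hbd, if_pos hf, Finset.mul_sum]
      refine le_trans (Finset.sum_le_sum (g := fun y => 1.003 * N0 y) fun y _ => ?_)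
        (Finset.sum_le_sum_of_subset_of_nonneg (Finset.subset_univ _) fun y _ _ =>
          mul_nonneg (by norm_num) (hN0 y))
      rw [mul_comm]
      exact mul_le_mul_of_nonneg_right (dd_bd (m := fun i => m i y) (fun i => hm i y) k).2 (hN0 y)
    have u2 : ∑ p, A (k, f) p * (w p * x p) ≤ 102 * ∑ p, w p * x p := by
      rw [Finset.mul_sum]
      refine Finset.sum_le_sum fun p _ => mul_le_mul_of_nonneg_right ?_
        (mul_nonneg (hw p) (hx0 p))
      rw [hAd]
      split_ifs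
      · exact (hcb k p).2
      · norm_num
    have u3 : ∑ q, w q * b q ≤ 0.00301 * ∑ g, N0 g := by
      rw [Fintype.sum_prod_type]
      have h1 : ∀ k, ∑ x, w (k, x) * b (k, x) ≤ 0.001003 * ∑ g, N0 g := by
        intro k
        have h2 : ∀ x, w (k, x) * b (k, x) = ∑ y,
            (if x ≠ o ∧ y ∈ (T k).desc x then w (k, x) else 0) *
              (N0 y * dd (fun i => m i y) k) := by
          intro x
          rw [hbd]
          by_cases hxo : x ≠ o
          · rw [if_pos hxo, Finset.mul_sum]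
            simp only [hxo, ne_eq, not_false_eq_true, true_and, ite_mul, zero_mul]
            rw [← Finset.sum_filter]
            refine Finset.sum_congr ?_ fun _ _ => rfl
            ext y
            simp
          · rw [if_neg hxo, mul_zero]
            symm
            exact Finset.sum_eq_zero fun y _ => by rw [if_neg (fun h => hxo h.1), zero_mul]
        simp only [h2]
        rw [Finset.sum_comm, Finset.mul_sum]
        refine Finset.sum_le_sum fun y _ => ?_
        rw [← Finset.sum_mul]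
        have h3 := hanc k y
        have h4 := dd_bd (m := fun i => m i y) (fun i => hm i y) k
        calc (∑ x, if x ≠ o ∧ y ∈ (T k).desc x then w (k, x) else 0) *
              (N0 y * dd (fun i => m i y) k)
            ≤ (1 / 1000) * (N0 y * 1.003) := by
              refine mul_le_mul h3 (mul_le_mul_of_nonneg_left h4.2 (hN0 y))
                (mul_nonneg (hN0 y) (by linarith [h4.1])) (by norm_num)
          _ = 0.001003 * N0 y := by ring
      rw [sum3]
      linarith [h1 0, h1 1, h1 2]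
    change x (k, f) ≤ _
    rw [hx (k, f)]
    linarith

end P8ffccf

end
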