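import Pool.Agent.Lib.P8ffccf.Est3
import Pool.Agent.Lib.P8ffccf.Sys
import Pool.Agent.Lib.P8ffccf.Slopes
import Pool.Agent.Lib.P8ffccf.RoundMap
import Pool.Agent.Lib.P8ffccf.Pos
import Pool.Agent.Lib.P8ffccf.Corner
import Pool.Agent.Lib.P8ffccf.Outer

/-! # Assembly, part 1: offsets, flow, rounding -/

set_option linter.unusedSimpArgs false
set_option linter.unusedVariables false
set_option linter.unusedSectionVars false
set_option linter.style.longLine false

noncomputable section

namespace P8ffccf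

open Classical Finset

variable {V F D : Type} [Fintype V] [Fintype F] [Fintype D]

namespace Dat

variable {M : PMap V F D} {o : F} (S : Dat M o)

/-- The numerical conditions. -/
structure Good (Ca : ℝ) : Prop where
  Ca_pos : 0 < Ca
  dgo : M.dg o ≤ 5
  p1 : 36 * S.eps ≤ 1 / 80000
  p2 : Ca * (4 / (S.CQ : ℝ) ^ 2 + 18 * S.eps + 3 / (S.q : ℝ) ^ 2) ≤ 1 / 80000
  p3 : (4000000 : ℝ) ≤ S.K2

/-- The slopes. -/
structure Slopes (Ca : ℝ) (m : ZMod 3 → F → ℝ) : Prop where
  zero : ∀ k, m k o = 0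
  heavy : ∀ k c, c ≠ o → S.L.par k c ≠ o → c = S.hv k (S.L.par k c) → m k c = m k (S.L.par k c)
  gap : ∀ k d, M.fc d ≠ o → S.L.Ch k d → S.L.Ch k (M.nxt d) → S.L.l (M.nxt d) = k →
        m k (M.fc (M.rev d)) + max (S.gam k (M.fc (M.rev d))) (S.gam k (M.fc (M.rev (M.nxt d)))) ≤
          m k (M.fc (M.rev (M.nxt d)))
  strict : ∀ k d, M.fc d ≠ o → S.L.Ch k d → S.L.Ch k (M.nxt d) → S.L.l (M.nxt d) = k →
        S.exC k (M.fc (M.rev d)) → S.exC k (M.fc (M.rev (M.nxt d))) →
        m k (M.fc (M.rev d)) < m k (M.fc (M.rev (M.nxt d)))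
  frac : ∀ k c, c ≠ o → S.L.par k c ≠ o → c ≠ S.hv k (S.L.par k c) → S.exC k c →
        IsFrac (S.Qf (S.L.par k c)) (m k c)
  bd1 : ∀ k c, c ≠ o → S.L.par k c ≠ o → (∀ c' ∈ S.L.kids k (S.L.par k c), ¬ S.exC k c') →
        |m k c - m k (S.L.par k c)| ≤ 2 * ∑ c' ∈ S.L.kids k (S.L.par k c), S.gam k c'
  bd2 : ∀ k c, c ≠ o → S.L.par k c ≠ o → |m k c - m k (S.L.par k c)| ≤
        Ca * (((S.L.kids k (S.L.par k c)).card + 2 : ℝ) / (S.Qf (S.L.par k c) : ℝ) ^ 2 +
          ∑ c' ∈ S.L.kids k (S.L.par k c), S.gam k c' + 1 / Real.sqrt (S.Qf (S.L.par k c)))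
  out : ∀ e, M.fc e = o → M.nxt e ∉ S.L.sus →
        (1 / 10000 : ℝ) ≤ m (S.L.l (M.rev e) + 2) (M.fc (M.rev e)) -
        m (S.L.l (M.rev e) + 2) (M.fc (M.rev (M.nxt e)))
  outbd : ∀ k c, c ≠ o → S.L.par k c = o → |m k c| ≤ M.dg o * (1 / 10000)

lemma phi_nonneg (k : ZMod 3) (f : F) : 0 ≤ S.phi k f := by
  have := th_pos
  unfold phi
  positivity

/-- offsets of light children -/
lemma Slopes.light_off {Ca : ℝ} {m : ZMod 3 → F → ℝ} (hm : S.Slopes Ca m) (hg : S.Good Ca)
    {k : ZMod 3} {c : F} (hc : c ≠ o) (hp : S.L.par k c ≠ o) :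
    |m k c - m k (S.L.par k c)| ≤ 1 / 80000 * S.phi k (S.L.par k c) := by
  set f := S.L.par k c with hf
  have hphi := S.phi_nonneg k f
  have hG := S.sum_gam_le k hp
  have he := S.eps_pos
  have hq := S.q_pos
  have hq1 := S.q_one
  have hinv : 1 / (S.q : ℝ) ≤ S.phi k f := S.inv_q_le_phi (S.B_le_size k f)
  by_cases hbig : S.q ^ 10 ≤ M.dg f
  · have h2 := hm.bd2 k c hc hp
    rw [← hf] at h2
    have hCa := hg.Ca_pos
    have key : ((S.L.kids k f).card + 2 : ℝ) / (S.Qf f : ℝ) ^ 2 +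
        ∑ c' ∈ S.L.kids k f, S.gam k c' + 1 / Real.sqrt (S.Qf f) ≤
        (4 / (S.CQ : ℝ) ^ 2 + 18 * S.eps + 3 / (S.q : ℝ) ^ 2) * S.phi k f := by
      have hCQ := S.CQ_pos
      have hCQ1 := S.CQ_one
      by_cases hT : S.q ^ 13 ≤ M.dg f
      · have hQ : (S.Qf f : ℝ) = S.CQ * (S.q : ℝ) ^ 12 := by
          unfold Qf
          rw [if_pos hT]
          push_cast
          rfl
        rw [hQ]
        -- first term
        have t1 : ((S.L.kids k f).card + 2 : ℝ) / (S.CQ * (S.q : ℝ) ^ 12) ^ 2 ≤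
            4 / (S.CQ : ℝ) ^ 2 * S.phi k f := by
          have hs : ((S.L.kids k f).card + 2 : ℝ) ≤ 2 * (S.T k).size f := by
            have a := S.card_kids_lt_size k hp
            have b := (S.T k).size_pos f
            have : (S.L.kids k f).card + 2 ≤ 2 * (S.T k).size f := by omega
            exact_mod_cast this
          set l := Nat.log 2 ((S.T k).size f) with hl
          have hlt : (S.T k).size f < 2 ^ (l + 1) := Nat.lt_pow_succ_log_self (by norm_num) _
          have hle : (S.T k).size f ≤ 2 ^ (24 * S.t) := by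
            refine le_trans ?_ S.hJ
            exact Finset.card_le_univ _
          have hlJ : l ≤ 24 * S.t := by
            rw [hl]
            calc Nat.log 2 ((S.T k).size f) ≤ Nat.log 2 (2 ^ (24 * S.t)) :=
                  Nat.log_mono_right hle
              _ = 24 * S.t := Nat.log_pow (by norm_num) _
          have hsz : ((S.T k).size f : ℝ) ≤ 2 * 2 ^ l := by
            have : (S.T k).size f ≤ 2 * 2 ^ l := by
              have := hlt.le
              rw [pow_succ] at this
              omega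
            exact_mod_cast this
          have hq24 : (S.q : ℝ) ^ 24 = 2 ^ (24 * S.t - l) * 2 ^ l := by
            rw [← pow_add, Nat.sub_add_cancel hlJ]
            unfold q
            push_cast
            rw [← pow_mul, mul_comm]
          have hth : (1 / 2 : ℝ) ^ (24 * S.t - l) ≤ S.phi k f := by
            have h1 : (1 / 2 : ℝ) ^ (24 * S.t - l) ≤ th ^ (24 * S.t - l) :=
              pow_le_pow_left₀ (by norm_num) th_half.le _
            have h2 : 0 ≤ th ^ (Nat.log 2 (S.B k f)) := by have := th_pos; positivity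
            unfold phi
            linarith
          rw [div_le_iff₀ (by positivity)]
          have e : 4 / (S.CQ : ℝ) ^ 2 * S.phi k f * (S.CQ * (S.q : ℝ) ^ 12) ^ 2 =
              4 * S.phi k f * (S.q : ℝ) ^ 24 := by
            field_simp
          rw [e, hq24]
          have h2 : (1 / 2 : ℝ) ^ (24 * S.t - l) * 2 ^ (24 * S.t - l) = 1 := by
            rw [← mul_pow]; norm_num
          have h3 : (0 : ℝ) < 2 ^ (24 * S.t - l) := by positivity
          have h4 : (0 : ℝ) < 2 ^ l := by positivity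
          have h5 : 1 ≤ S.phi k f * 2 ^ (24 * S.t - l) := by
            rw [← h2]
            exact mul_le_mul_of_nonneg_right hth h3.le
          calc ((S.L.kids k f).card + 2 : ℝ) ≤ 4 * 2 ^ l := by linarith
            _ = 4 * (1 * 2 ^ l) := by ring
            _ ≤ 4 * ((S.phi k f * 2 ^ (24 * S.t - l)) * 2 ^ l) := by
                apply mul_le_mul_of_nonneg_left _ (by norm_num)
                exact mul_le_mul_of_nonneg_right h5 h4.le
            _ = _ := by ring
        have t3 : 1 / Real.sqrt (S.CQ * (S.q : ℝ) ^ 12) ≤ 3 / (S.q : ℝ) ^ 2 * S.phi k f := by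
          have h1 : (S.q : ℝ) ^ 6 ≤ Real.sqrt (S.CQ * (S.q : ℝ) ^ 12) := by
            apply Real.le_sqrt_of_sq_le
            have : 0 ≤ (S.q : ℝ) ^ 12 := by positivity
            nlinarith
          have h2 : (S.q : ℝ) ^ 3 ≤ (S.q : ℝ) ^ 6 := pow_le_pow_right₀ hq1 (by norm_num)
          calc 1 / Real.sqrt (S.CQ * (S.q : ℝ) ^ 12) ≤ 1 / (S.q : ℝ) ^ 3 :=
                one_div_le_one_div_of_le (by positivity) (h2.trans h1)
            _ = 1 / (S.q : ℝ) ^ 2 * (1 / (S.q : ℝ)) := by field_simp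
            _ ≤ 1 / (S.q : ℝ) ^ 2 * S.phi k f := mul_le_mul_of_nonneg_left hinv (by positivity)
            _ ≤ 3 / (S.q : ℝ) ^ 2 * S.phi k f := by
                apply mul_le_mul_of_nonneg_right _ hphi
                apply div_le_div_of_nonneg_right (by norm_num) (by positivity)
        calc _ ≤ 4 / (S.CQ : ℝ) ^ 2 * S.phi k f + 18 * S.eps * S.phi k f +
            3 / (S.q : ℝ) ^ 2 * S.phi k f := by linarith
          _ = _ := by ring
      · push Not at hT
        have hQ : (S.Qf f : ℝ) = (S.q : ℝ) ^ 8 := by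
          unfold Qf
          rw [if_neg (by omega)]
          push_cast
          rfl
        rw [hQ]
        have t1 : ((S.L.kids k f).card + 2 : ℝ) / ((S.q : ℝ) ^ 8) ^ 2 ≤
            2 / (S.q : ℝ) ^ 2 * S.phi k f := by
          have hs : ((S.L.kids k f).card + 2 : ℝ) ≤ 2 * (S.q : ℝ) ^ 13 := by
            have a := S.card_kids_le_dg k f
            have b := S.H.three_le_dg f
            have : (S.L.kids k f).card + 2 ≤ 2 * S.q ^ 13 := by omega
            exact_mod_cast this
          calc ((S.L.kids k f).card + 2 : ℝ) / ((S.q : ℝ) ^ 8) ^ 2 ≤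
              (2 * (S.q : ℝ) ^ 13) / ((S.q : ℝ) ^ 8) ^ 2 :=
                div_le_div_of_nonneg_right hs (by positivity)
            _ = 2 / (S.q : ℝ) ^ 2 * (1 / (S.q : ℝ)) := by field_simp
            _ ≤ _ := mul_le_mul_of_nonneg_left hinv (by positivity)
        have t3 : 1 / Real.sqrt ((S.q : ℝ) ^ 8) ≤ 1 / (S.q : ℝ) ^ 2 * S.phi k f := by
          have h1 : (S.q : ℝ) ^ 4 ≤ Real.sqrt ((S.q : ℝ) ^ 8) := by
            apply Real.le_sqrt_of_sq_le
            apply le_of_eq
            ring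
          have h2 : (S.q : ℝ) ^ 3 ≤ (S.q : ℝ) ^ 4 := pow_le_pow_right₀ hq1 (by norm_num)
          calc 1 / Real.sqrt ((S.q : ℝ) ^ 8) ≤ 1 / (S.q : ℝ) ^ 3 :=
                one_div_le_one_div_of_le (by positivity) (h2.trans h1)
            _ = 1 / (S.q : ℝ) ^ 2 * (1 / (S.q : ℝ)) := by field_simp
            _ ≤ 1 / (S.q : ℝ) ^ 2 * S.phi k f := mul_le_mul_of_nonneg_left hinv (by positivity)
        have t4 : 0 ≤ 4 / (S.CQ : ℝ) ^ 2 * S.phi k f := by positivity
        calc _ ≤ 2 / (S.q : ℝ) ^ 2 * S.phi k f + 18 * S.eps * S.phi k f +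
            1 / (S.q : ℝ) ^ 2 * S.phi k f + 4 / (S.CQ : ℝ) ^ 2 * S.phi k f := by linarith
          _ = _ := by ring
    calc |m k c - m k f| ≤ Ca * (((S.L.kids k f).card + 2 : ℝ) / (S.Qf f : ℝ) ^ 2 +
        ∑ c' ∈ S.L.kids k f, S.gam k c' + 1 / Real.sqrt (S.Qf f)) := h2
      _ ≤ Ca * ((4 / (S.CQ : ℝ) ^ 2 + 18 * S.eps + 3 / (S.q : ℝ) ^ 2) * S.phi k f) :=
          mul_le_mul_of_nonneg_left key hCa.le
      _ = (Ca * (4 / (S.CQ : ℝ) ^ 2 + 18 * S.eps + 3 / (S.q : ℝ) ^ 2)) * S.phi k f := by ring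
      _ ≤ _ := mul_le_mul_of_nonneg_right hg.p2 hphi
  · have h1 := hm.bd1 k c hc hp (by
      intro c' hc' hex
      apply hbig
      have h2 := hex.2.1
      rw [(S.mem_kids.mp hc').1] at h2
      exact h2)
    rw [← hf] at h1
    have := hg.p1
    nlinarith

/-- the sum of the offsets along a path -/
lemma Slopes.sum_off {Ca : ℝ} {m : ZMod 3 → F → ℝ} (hm : S.Slopes Ca m) (hg : S.Good Ca)
    (k : ZMod 3) (f : F) :
    ∑ c with c ≠ o ∧ f ∈ (S.T k).desc c, |m k c - m k ((S.T k).par c)| ≤ 1 / 1000 := by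
  have ht := th_pos
  have hpt : ∀ c ∈ univ.filter (fun c => c ≠ o ∧ f ∈ (S.T k).desc c),
      |m k c - m k ((S.T k).par c)| ≤ (if S.L.par k c = o then (5 / 10000 : ℝ) else 0) +
        (1 / 80000) * ((if S.light k c then th ^ (Nat.log 2 ((S.T k).size c)) else 0) +
          (if S.light k c then th ^ (24 * S.t - Nat.log 2 ((S.T k).size ((S.T k).par c))) else 0)) := by
    intro c hc
    simp only [Finset.mem_filter, Finset.mem_univ, true_and] at hc
    obtain ⟨hco, hfc⟩ := hc
    rw [T_par]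
    by_cases hp : S.L.par k c = o
    · rw [if_pos hp, hp, hm.zero, sub_zero]
      have h1 := hm.outbd k c hco hp
      have h2 : (M.dg o : ℝ) ≤ 5 := by exact_mod_cast hg.dgo
      have h3 : 0 ≤ (1 / 80000 : ℝ) * ((if S.light k c then th ^ (Nat.log 2 ((S.T k).size c)) else 0) +
          (if S.light k c then th ^ (24 * S.t - Nat.log 2 ((S.T k).size o)) else 0)) := by
        split_ifs <;> positivity
      nlinarith
    · rw [if_neg hp]
      by_cases hh : c = S.hv k (S.L.par k c)
      · rw [hm.heavy k c hco hp hh, sub_self, abs_zero]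
        split_ifs <;> positivity
      · have hl : S.light k c := ⟨hco, hh⟩
        rw [if_pos hl, if_pos hl, zero_add]
        refine (hm.light_off S hg hco hp).trans ?_
        apply mul_le_mul_of_nonneg_left _ (by norm_num)
        unfold phi
        have : th ^ (Nat.log 2 (S.B k (S.L.par k c))) ≤ th ^ (Nat.log 2 ((S.T k).size c)) :=
          pow_le_pow_of_le_one ht.le th_lt.le (Nat.log_mono_right (S.light_size_le_B hco hl))
        linarith
  refine (Finset.sum_le_sum hpt).trans ?_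
  rw [Finset.sum_add_distrib, ← Finset.mul_sum, Finset.sum_add_distrib]
  have s1 : ∑ c with c ≠ o ∧ f ∈ (S.T k).desc c, (if S.L.par k c = o then (5 / 10000 : ℝ) else 0) ≤
      5 / 10000 := by
    rw [← Finset.sum_filter, Finset.sum_const, nsmul_eq_mul]
    have : ((univ.filter fun c => c ≠ o ∧ f ∈ (S.T k).desc c).filter
        fun c => S.L.par k c = o).card ≤ 1 := by
      rw [Finset.card_le_one]
      intro a ha b hb
      simp only [Finset.mem_filter, Finset.mem_univ, true_and] at ha hb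
      exact (S.T k).sib ha.1.1 hb.1.1 (by rw [T_par, ha.2, hb.2]) ha.1.2 hb.1.2
    have : (((univ.filter fun c => c ≠ o ∧ f ∈ (S.T k).desc c).filter
        fun c => S.L.par k c = o).card : ℝ) ≤ 1 := by exact_mod_cast this
    linarith
  have hfil : (univ.filter fun c => (S.T k).Light (S.hv k) c ∧ f ∈ (S.T k).desc c) =
      (univ.filter fun c => c ≠ o ∧ f ∈ (S.T k).desc c).filter fun c => S.light k c := by
    ext c
    simp only [Finset.mem_filter, Finset.mem_univ, true_and]
    constructor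
    · rintro ⟨h1, h2⟩
      exact ⟨⟨h1.1, h2⟩, h1⟩
    · rintro ⟨⟨h1, h2⟩, h3⟩
      exact ⟨h3, h2⟩
  have s2 := (S.T k).pot1 (S.hv k) (S.heavy' k) th th_pos th_lt f
  have s3 := (S.T k).pot2 (S.hv k) (S.heavy' k) th th_pos th_lt (24 * S.t) S.hJ f
  rw [hfil, Finset.sum_filter] at s2 s3
  have e20 : 1 / (1 - th) = 20 := by unfold th; norm_num
  rw [e20] at s2 s3
  linarith

end Dat

end P8ffccf

end
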