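import Pool.Agent.Lib.P8ffccf.Asm1

/-! # Assembly, part 2: the rounded drawing -/

set_option linter.unusedSimpArgs false
set_option linter.unusedVariables false
set_option linter.unusedSectionVars false
set_option linter.style.longLine false

noncomputable section

namespace P8ffccf

open Classical Finset

variable {V F D : Type} [Fintype V] [Fintype F] [Fintype D]

namespace Dat

/-- The slopes exist. -/
theorem exists_slopes' : ∃ Ca : ℝ, 0 < Ca ∧ ∀ {V F D : Type} [Fintype V] [Fintype F] [Fintype D]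
    {M : PMap V F D} {o : F} (S : Dat M o), ∃ m : ZMod 3 → F → ℝ, S.Slopes Ca m := by
  obtain ⟨Ca, hCa, h⟩ := PMap.exists_slopes
  refine ⟨Ca, hCa, ?_⟩
  intro V F D _ _ _ M o S
  obtain ⟨m, h1, h2, h3, h4, h5, h6, h7, h8, h9⟩ := h M o S.H S.L S.ac S.hv
    (fun k c hc => ⟨(S.heavy' k c hc).1, (S.heavy' k c hc).2.1⟩) S.gam S.gam_nonneg S.exC S.Qf
    S.one_le_Qf (1 / 10000) (by norm_num)
  exact ⟨m, h1, h2, h3, h4, h5, h6, h7, h8, h9⟩

variable {M : PMap V F D} {o : F} (S : Dat M o)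

lemma size_kid_lt {k : ZMod 3} {f c : F} (hc : c ∈ S.L.kids k f) :
    (S.T k).size c < (S.T k).size f := by
  obtain ⟨h1, h2⟩ := S.mem_kids.mp hc
  have hsub : (S.T k).desc c ⊆ (S.T k).desc f := by
    have := (S.T k).desc_par c
    rw [T_par, h1] at this
    exact (S.T k).desc_subset this
  apply Finset.card_lt_card
  refine ⟨hsub, fun h => ?_⟩
  have hf : f ∈ (S.T k).desc c := h ((S.T k).self_mem_desc f)
  obtain ⟨i, hi⟩ := (S.T k).mem_desc.mp hf
  have h3 := (S.T k).dep_iter (x := c) h2 i f hi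
  have h4 := (S.T k).dep_par (c := c) h2
  rw [T_par, h1] at h4
  omega

/-- lower bounds of the flow -/
lemma Llb_le (Lam : ZMod 3 → F → ℝ)
    (h : ∀ f, f ≠ o → ∀ k, (9 / 10) * S.N0 f ≤ Lam k f - ∑ c ∈ S.L.kids k f, Lam k c)
    (k : ZMod 3) : ∀ (n : ℕ) (f : F), (S.T k).size f = n → f ≠ o → S.Llb k f ≤ Lam k f := by
  intro n
  induction n using Nat.strong_induction_on with
  | _ n ih =>
    intro f hn hf
    have h1 := h f hf k
    have h2 : ∑ c ∈ S.L.kids k f, (9 / 10) * ∑ y ∈ (S.T k).desc c, S.N0 y ≤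
        ∑ c ∈ S.L.kids k f, Lam k c := by
      apply Finset.sum_le_sum
      intro c hc
      exact ih _ (hn ▸ S.size_kid_lt hc) c rfl (S.mem_kids.mp hc).2
    have h3 : ∑ y ∈ (S.T k).desc f, S.N0 y = S.N0 f +
        ∑ c ∈ S.L.kids k f, ∑ y ∈ (S.T k).desc c, S.N0 y := (S.T k).desc_sum S.N0 f hf
    unfold Llb
    rw [h3, mul_add, Finset.mul_sum]
    linarith

/-- The radius of the rounding. -/
def R : ℝ := 40 * (S.CQ * (S.q : ℝ) ^ 12)

lemma R_pos : 0 < S.R := by
  have := S.CQ_pos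
  have := S.q_pos
  unfold R
  positivity

lemma R_base (K : ℝ) (hK : K ≤ S.K2) : K * S.R ≤ 40 * S.base := by
  have := S.CQ_pos
  have := S.q_pos
  have h : 0 < S.CQ * (S.q : ℝ) ^ 12 := by positivity
  unfold R base
  nlinarith

/-- The rounded drawing. -/
theorem exists_Y {Ca : ℝ} {m : ZMod 3 → F → ℝ} (hm : S.Slopes Ca m) (hg : S.Good Ca) :
    ∃ (Lam : ZMod 3 → F → ℝ) (Y : V → ℤ × ℤ), S.L.Flow m Lam ((9 / 10) * S.base) ∧
      (∀ d, nm (M.ev (fun v => rl (Y v)) d - S.L.om m Lam d) ≤ S.R) ∧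
      S.L.Gap m Lam (M.ev (fun v => rl (Y v))) ∧
      (∀ f, f ≠ o → ∀ k, Lam k f ≤ 3 * ∑ g, S.N0 g) := by
  have hsm : ∀ k f, |m k f| ≤ 1 / 1000 := by
    intro k f
    exact (abs_le_path (S.T k) (m k) (hm.zero k) f).trans (hm.sum_off S hg k f)
  obtain ⟨Lam, hL0, hL1, hL2, hL3⟩ := exists_flow o S.T (fun k => rfl) m hsm
    (fun k f => hm.sum_off S hg k f) S.N0 (fun f => (S.N0_pos f).le)
  have hflow : S.L.Flow m Lam ((9 / 10) * S.base) := by
    refine ⟨hsm, hL0, hL1, ?_⟩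
    intro f hf k
    have h1 := hL2 f hf k
    have h2 := S.base_le_N0 f
    have h3 : (9 / 10) * S.base + 80 * ∑ j, ∑ c ∈ S.L.kids j f, |m j c - m j f| * Lam j c ≤
        (9 / 10) * S.N0 f + 80 * ∑ j, ∑ c ∈ S.L.kids j f, |m j c - m j f| * Lam j c := by
      linarith
    exact h3.trans h1
  have hLlb : ∀ k f, f ≠ o → S.Llb k f ≤ Lam k f := by
    intro k f hf
    refine S.Llb_le Lam ?_ k _ f rfl hf
    intro f hf k
    have h1 : (9 / 10) * S.N0 f + 80 * ∑ j, ∑ c ∈ S.L.kids j f, |m j c - m j f| * Lam j c ≤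
        Lam k f - ∑ c ∈ S.L.kids k f, Lam k c := hL2 f hf k
    have h2 : 0 ≤ ∑ j, ∑ c ∈ S.L.kids j f, |m j c - m j f| * Lam j c :=
      Finset.sum_nonneg fun j _ => Finset.sum_nonneg fun c _ =>
        mul_nonneg (abs_nonneg _) (hL0 j c)
    linarith
  have hLQ : ∀ k f g, f ≠ o → (S.Qf g : ℝ) ≤ Lam k f := by
    intro k f g hf
    have h1 := hLlb k f hf
    have h2 := S.Llb_ge_N0 k f
    have h3 := S.base_le_N0 f
    have h4 := S.Qf_le g
    have h5 := S.R_base 400 (by linarith [hg.p3])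
    have h6 := S.base_pos
    have h7 : S.R = 40 * (S.CQ * (S.q : ℝ) ^ 12) := rfl
    nlinarith
  obtain ⟨X, hX⟩ := PMap.Lab.exists_pos S.H S.L m Lam hL1
  -- facts on chain darts
  have hcd : ∀ k d, S.L.Ch k d → S.cd k (M.fc (M.rev d)) = d := by
    intro k d h
    unfold cd
    rw [← h.sp, M.rev_rev]
  have hchain : ∀ d, M.fc d ≠ o → S.L.cF d → S.L.Ch (S.L.l d) d := by
    intro d hd h
    obtain ⟨h1, h2, h3, h4, h5⟩ := S.L.chain d hd h
    exact ⟨h1, h2, h4⟩
  obtain ⟨Y, hY1, hY2, hY3⟩ := PMap.Lab.exists_round S.H S.L m Lam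
    (fun k f => (hsm k f).trans (by norm_num)) X hX S.own S.hown
    (fun f => S.q ^ 10 ≤ M.dg f) S.Qf S.one_le_Qf
    (fun d => M.fc d ≠ o ∧ S.L.cF d ∧ S.exC (S.L.l d) (M.fc (M.rev d)))
    (by
      rintro d ⟨h1, h2, h3⟩
      have hch := hchain d h1 h2
      have hc := hcd _ _ hch
      have hp := hch.par
      obtain ⟨e1, e2, ⟨e3, e4⟩, e5⟩ := h3
      rw [hc, hp] at e3
      rw [hc, hp] at e4
      refine ⟨h1, h2, ?_, e3, e4, ?_, hLQ _ _ _ hch.1⟩
      · rw [hp] at e2; exact e2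
      · have := hm.frac (S.L.l d) (M.fc (M.rev d)) hch.1 (by rw [hp]; exact h1) e5
          ⟨e1, e2, ⟨by rw [hc, hp]; exact e3, by rw [hc, hp]; exact e4⟩, e5⟩
        rw [hp] at this
        exact this)
    (by
      rintro d ⟨h1, h2, h3⟩ ⟨h4, h5, h6⟩
      obtain ⟨_, _, g1, _, _⟩ := S.L.chain d h1 h2
      have hch := hchain d h1 h2
      have hch' := hchain (M.nxt d) h4 h5
      rw [g1] at hch'
      have := hm.gap (S.L.l d) d h1 hch hch' g1
      have h7 := S.gam_nonneg (S.L.l d) (M.fc (M.rev d))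
      have h8 := le_max_left (S.gam (S.L.l d) (M.fc (M.rev d)))
        (S.gam (S.L.l d) (M.fc (M.rev (M.nxt d))))
      linarith)
  -- rounding errors
  have hrho : ∀ v, |((Y v).1 : ℝ) - (X v).1| ≤ S.rho v ∧ |((Y v).2 : ℝ) - (X v).2| ≤ S.rho v := by
    intro v
    unfold rho
    split_ifs with h
    · exact hY1 v h
    · exact hY2 v h
  have hW : ∀ d, nm (M.ev (fun v => rl (Y v)) d - S.L.om m Lam d) ≤
      2 * (S.rho (M.vt d) + S.rho (M.vt (M.rev d))) := by
    intro d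
    rw [← hX d]
    obtain ⟨a1, a2⟩ := hrho (M.vt d)
    obtain ⟨b1, b2⟩ := hrho (M.vt (M.rev d))
    simp only [nm, PMap.ev, rl, Prod.fst_sub, Prod.snd_sub]
    rw [abs_le] at a1 a2 b1 b2
    have c1 : |((Y (M.vt (M.rev d))).1 : ℝ) - (Y (M.vt d)).1 -
        ((X (M.vt (M.rev d))).1 - (X (M.vt d)).1)| ≤ S.rho (M.vt d) + S.rho (M.vt (M.rev d)) := by
      rw [abs_le]; constructor <;> linarith [a1.1, a1.2, b1.1, b1.2]
    have c2 : |((Y (M.vt (M.rev d))).2 : ℝ) - (Y (M.vt d)).2 -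
        ((X (M.vt (M.rev d))).2 - (X (M.vt d)).2)| ≤ S.rho (M.vt d) + S.rho (M.vt (M.rev d)) := by
      rw [abs_le]; constructor <;> linarith [a2.1, a2.2, b2.1, b2.2]
    linarith
  have hgl : ∀ k d, M.fc d ≠ o → S.L.Ch k d → S.L.cF d → ¬ S.exC k (M.fc (M.rev d)) →
      0 < S.gam k (M.fc (M.rev d)) ∧
      8 * nm (M.ev (fun v => rl (Y v)) d - S.L.om m Lam d) ≤
        S.gam k (M.fc (M.rev d)) * Lam k (M.fc (M.rev d)) := by
    intro k d hd hch hcF hx
    have hp := hch.par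
    have hc := hcd _ _ hch
    have hchn : S.chn k (M.fc (M.rev d)) := by
      refine ⟨⟨hch.1, by rw [hp]; exact hd⟩, by rw [hc]; exact hcF⟩
    have hL := hLlb k (M.fc (M.rev d)) hch.1
    have hLp := S.Llb_pos k (M.fc (M.rev d))
    have r1 := S.rho_pos (M.vt d)
    have r2 := S.rho_pos (M.vt (M.rev d))
    have hgam : S.gam k (M.fc (M.rev d)) =
        16 * (S.rho (M.vt d) + S.rho (M.vt (M.rev d))) / S.Llb k (M.fc (M.rev d)) := by
      unfold gam
      rw [if_pos ⟨hchn, hx⟩, hc]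
    have hpos : 0 < S.gam k (M.fc (M.rev d)) := by
      rw [hgam]
      positivity
    refine ⟨hpos, ?_⟩
    have h1 : S.gam k (M.fc (M.rev d)) * S.Llb k (M.fc (M.rev d)) =
        16 * (S.rho (M.vt d) + S.rho (M.vt (M.rev d))) := by
      rw [hgam]
      field_simp
    have h2 := hW d
    have h3 := mul_le_mul_of_nonneg_left hL hpos.le
    linarith
  refine ⟨Lam, Y, hflow, ?_, ?_, hL3⟩
  · intro d
    refine (hW d).trans ?_
    have h1 := S.rho_le (M.vt d)
    have h2 := S.rho_le (M.vt (M.rev d))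
    unfold R
    linarith
  · have hfn : ∀ d, M.fc d ≠ o → M.fc (M.nxt d) ≠ o := by
      intro d h
      rw [M.fc_nxt]
      exact h
    constructor
    · intro k d h1 h2 h3 h4
      have := hm.gap k d h1 h2 h3 h4
      have h7 := S.gam_nonneg k (M.fc (M.rev d))
      have h8 := le_max_left (S.gam k (M.fc (M.rev d))) (S.gam k (M.fc (M.rev (M.nxt d))))
      linarith
    · intro k d h1 h2 h3 h4 h5
      have hl : S.L.l d = k := by rw [← (S.L.chain d h1 h5).2.2.1, h4]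
      by_cases hx : S.exC k (M.fc (M.rev d))
      · left
        obtain ⟨t, ht, ht'⟩ := hY3 d ⟨h1, h5, by rw [hl]; exact hx⟩
        rw [hl] at ht'
        exact ⟨t, ht, ht'⟩
      · right
        obtain ⟨g1, g2⟩ := hgl k d h1 h2 h5 hx
        refine g2.trans ?_
        apply mul_le_mul_of_nonneg_right _ (hL0 _ _)
        have := hm.gap k d h1 h2 h3 h4
        have h8 := le_max_left (S.gam k (M.fc (M.rev d))) (S.gam k (M.fc (M.rev (M.nxt d))))
        linarith
    · intro k d h1 h2 h3 h4 h5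
      by_cases hx : S.exC k (M.fc (M.rev (M.nxt d)))
      · left
        obtain ⟨t, ht, ht'⟩ := hY3 (M.nxt d) ⟨hfn d h1, h5, by rw [h4]; exact hx⟩
        rw [h4] at ht'
        exact ⟨t, ht, ht'⟩
      · right
        obtain ⟨g1, g2⟩ := hgl k (M.nxt d) (hfn d h1) h3 h5 hx
        refine g2.trans ?_
        apply mul_le_mul_of_nonneg_right _ (hL0 _ _)
        have := hm.gap k d h1 h2 h3 h4
        have h8 := le_max_right (S.gam k (M.fc (M.rev d))) (S.gam k (M.fc (M.rev (M.nxt d))))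
        linarith
    · intro k d h1 h2 h3 h4 h5 h6
      have hgap := hm.gap k d h1 h2 h3 h4
      by_cases hx : S.exC k (M.fc (M.rev d))
      · by_cases hx' : S.exC k (M.fc (M.rev (M.nxt d)))
        · exact hm.strict k d h1 h2 h3 h4 hx hx'
        · obtain ⟨g1, g2⟩ := hgl k (M.nxt d) (hfn d h1) h3 h6 hx'
          have h8 := le_max_right (S.gam k (M.fc (M.rev d))) (S.gam k (M.fc (M.rev (M.nxt d))))
          linarith
      · obtain ⟨g1, g2⟩ := hgl k d h1 h2 h5 hx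
        have h8 := le_max_left (S.gam k (M.fc (M.rev d))) (S.gam k (M.fc (M.rev (M.nxt d))))
        linarith

end Dat

end P8ffccf

end
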