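import Pool.Agent.Lib.P8ffccf.Geo

/-!
# Euler type bound for the contracted radial graph
-/

set_option linter.unusedSectionVars false
set_option linter.style.longLine false

noncomputable section

namespace P8ffccf

open Classical Finset Module

variable {V F D : Type} [Fintype V] [Fintype F] [Fintype D]

namespace PMap

variable (M : PMap V F D)

/-- the relation generating the regions of the complement of a set `S` of corners -/
def regRel (S : Finset D) (d d' : D) : Prop := d' = M.rev d ∨ (d ∉ S ∧ d' = M.nxt.symm d)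

/-- the regions -/
abbrev Reg (S : Finset D) : Type := Quot (M.regRel S)

instance (S : Finset D) : Fintype (M.Reg S) := Fintype.ofFinite _

/-- the boundary of a set of regions -/
def bdr (S : Finset D) : (M.Reg S → ZMod 2) →ₗ[ZMod 2] (D → ZMod 2) where
  toFun s := fun d => s (Quot.mk _ d) + s (Quot.mk _ (M.nxt.symm d))
  map_add' a b := by ext d; simp only [Pi.add_apply]; ring
  map_smul' c a := by ext d; simp only [Pi.smul_apply, smul_eq_mul, RingHom.id_apply]; ring

lemma bdr_apply (S : Finset D) (s : M.Reg S → ZMod 2) (d : D) :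
    M.bdr S s d = s (Quot.mk _ d) + s (Quot.mk _ (M.nxt.symm d)) := rfl

lemma even_vertex (s : D → ZMod 2) (hs : ∀ d, s (M.rev d) = s d) (v : V) :
    ∑ d with M.vt d = v, (s d + s (M.nxt.symm d)) = 0 := by
  have h := M.sum_rot v (fun d => s (M.nxt.symm d))
  simp only [Equiv.symm_apply_apply, hs] at h
  rw [Finset.sum_add_distrib, ← h]
  exact CharTwo.add_self_eq_zero _

lemma even_face (s : D → ZMod 2) (f : F) :
    ∑ d with M.fc d = f, (s d + s (M.nxt.symm d)) = 0 := by
  have h := M.sum_nxt f (fun d => s (M.nxt.symm d))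
  simp only [Equiv.symm_apply_apply] at h
  rw [Finset.sum_add_distrib, ← h]
  exact CharTwo.add_self_eq_zero _

lemma exists_pot (z : D → ZMod 2) (hv : ∀ v, ∑ d with M.vt d = v, z d = 0)
    (hf : ∀ f, ∑ d with M.fc d = f, z d = 0) :
    ∃ s : D → ZMod 2, (∀ d, s (M.rev d) = s d) ∧ ∀ d, z d = s d + s (M.nxt.symm d) := by
  obtain ⟨l, h1, h2⟩ := M.exists_label (fun d => z (M.nxt d)) (fun d => z (M.nxt (M.rev d)))
    (fun f => by rw [M.sum_nxt]; exact hf f) (fun v => by
      rw [M.sum_rot v z]; exact hv v) (fun d => by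
      simp only [M.rev_rev]
      have e1 := CharTwo.add_self_eq_zero (z (M.nxt d))
      have e2 := CharTwo.add_self_eq_zero (z (M.nxt (M.rev d)))
      linear_combination e1 + e2)
  refine ⟨l, fun d => ?_, fun d => ?_⟩
  · have e1 := h1 (M.rev d)
    have e2 := h2 d
    have e3 := CharTwo.add_self_eq_zero (z (M.nxt (M.rev d)))
    linear_combination -e2 - e1 - e3
  · have e1 := h1 (M.nxt.symm d)
    rw [Equiv.apply_symm_apply] at e1
    have e3 := CharTwo.add_self_eq_zero (l (M.nxt.symm d))
    linear_combination -e1 - e3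

section

variable (S : Finset D)

lemma bdr_supp (s : M.Reg S → ZMod 2) {d : D} (hd : d ∉ S) : M.bdr S s d = 0 := by
  rw [bdr_apply]
  have : (Quot.mk (M.regRel S) d) = Quot.mk _ (M.nxt.symm d) :=
    Quot.sound (Or.inr ⟨hd, rfl⟩)
  rw [← this]
  exact CharTwo.add_self_eq_zero _

lemma mk_rev (d : D) : (Quot.mk (M.regRel S) (M.rev d)) = Quot.mk _ d :=
  (Quot.sound (r := M.regRel S) (a := d) (b := M.rev d) (Or.inl rfl)).symm

lemma bdr_vertex (s : M.Reg S → ZMod 2) (v : V) : ∑ d with M.vt d = v, M.bdr S s d = 0 :=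
  M.even_vertex (fun d => s (Quot.mk _ d)) (fun d => by rw [M.mk_rev]) v

lemma bdr_face (s : M.Reg S → ZMod 2) (f : F) : ∑ d with M.fc d = f, M.bdr S s d = 0 :=
  M.even_face (fun d => s (Quot.mk _ d)) f

lemma mem_range_bdr {z : D → ZMod 2} (hS : ∀ d, d ∉ S → z d = 0)
    (hv : ∀ v, ∑ d with M.vt d = v, z d = 0)
    (hf : ∀ f, ∑ d with M.fc d = f, z d = 0) : z ∈ LinearMap.range (M.bdr S) := by
  obtain ⟨s, h1, h2⟩ := M.exists_pot z hv hf
  refine ⟨Quot.lift s ?_, ?_⟩
  · rintro a b (hb | ⟨ha, hb⟩)
    · rw [hb, h1]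
    · have e1 := h2 a
      rw [hS a ha] at e1
      rw [hb]
      have e3 := CharTwo.add_self_eq_zero (s (M.nxt.symm a))
      linear_combination -e1 - e3
  · ext d
    rw [bdr_apply]
    exact (h2 d).symm

lemma finrank_range_bdr :
    finrank (ZMod 2) (LinearMap.range (M.bdr S)) + 1 ≤ Fintype.card (M.Reg S) := by
  have h1 := LinearMap.finrank_range_add_finrank_ker (M.bdr S)
  rw [Module.finrank_fintype_fun_eq_card] at h1
  have h2 : 1 ≤ finrank (ZMod 2) (LinearMap.ker (M.bdr S)) := by
    rw [Nat.succ_le_iff, Module.finrank_pos_iff_exists_ne_zero]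
    refine ⟨⟨fun _ => 1, ?_⟩, ?_⟩
    · rw [LinearMap.mem_ker]
      ext d
      rw [bdr_apply]
      exact CharTwo.add_self_eq_zero _
    · intro h
      have h3 := congrArg Subtype.val h
      obtain ⟨d⟩ := M.nonempty_D
      have h4 := congrFun h3 (Quot.mk _ d)
      exact one_ne_zero h4
  omega

end

end PMap

section count

variable (M : PMap V F D) (own : V → F) (B C : Finset F) (H : Finset D)
    (h0 : ∀ d d', M.vt d = M.vt d' → M.fc d = M.fc d' → d = d')
    (hown : ∀ v, ∃ d, M.vt d = v ∧ M.fc d = own v)
    (hH : ∀ d ∈ H, own (M.vt d) ∈ B ∧ M.fc d ∈ C ∧ own (M.vt d) ≠ M.fc d)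
    (hinj : ∀ d ∈ H, ∀ d' ∈ H,
      s(M.fc d, own (M.vt d)) = s(M.fc d', own (M.vt d')) → d = d')

/-- the corners joining a vertex to its own face -/
def ownC : Finset D := univ.filter fun d => M.fc d = own (M.vt d)

include h0 hown in
lemma card_ownC : (ownC M own).card = Fintype.card V := by
  rw [← Finset.card_univ]
  apply Finset.card_bij (fun d _ => M.vt d)
  · intro d _; exact Finset.mem_univ _
  · intro d hd d' hd' h
    simp only [ownC, Finset.mem_filter, Finset.mem_univ, true_and] at hd hd'
    exact h0 d d' h (by rw [hd, hd', h])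
  · intro v _
    obtain ⟨d, h1, h2⟩ := hown v
    exact ⟨d, by simp [ownC, h1, h2], h1⟩

/-- sums over vertices and faces in terms of `H` -/
lemma parity {z : D → ZMod 2} (hS : ∀ d, d ∉ H ∪ ownC M own → z d = 0)
    (hv : ∀ v, ∑ d with M.vt d = v, z d = 0)
    (hf : ∀ f, ∑ d with M.fc d = f, z d = 0) (f : F) :
    ∑ d ∈ H, ((if M.fc d = f then 1 else 0) + (if own (M.vt d) = f then 1 else 0)) * z d = 0 := by
  have e1 : ∑ d, (if own (M.vt d) = f then (1 : ZMod 2) else 0) * z d = 0 := by
    have : ∑ d, (if own (M.vt d) = f then (1 : ZMod 2) else 0) * z d =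
        ∑ v, ∑ d with M.vt d = v, (if own (M.vt d) = f then (1 : ZMod 2) else 0) * z d :=
      (Finset.sum_fiberwise univ (fun d => M.vt d) _).symm
    rw [this]
    apply Finset.sum_eq_zero
    intro v _
    have h2 : ∑ d with M.vt d = v, (if own (M.vt d) = f then (1 : ZMod 2) else 0) * z d =
        ∑ d with M.vt d = v, (if own v = f then (1 : ZMod 2) else 0) * z d := by
      apply Finset.sum_congr rfl
      intro d hd
      simp only [Finset.mem_filter, Finset.mem_univ, true_and] at hd
      rw [hd]
    rw [h2, ← Finset.mul_sum, hv, mul_zero]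
  have e2 : ∑ d, (if M.fc d = f then (1 : ZMod 2) else 0) * z d = 0 := by
    have h3 := hf f
    rw [Finset.sum_filter] at h3
    refine Eq.trans ?_ h3
    apply Finset.sum_congr rfl
    intro d _
    split_ifs <;> simp
  have e3 : ∑ d, ((if M.fc d = f then (1 : ZMod 2) else 0) +
      (if own (M.vt d) = f then 1 else 0)) * z d = 0 := by
    simp only [add_mul, Finset.sum_add_distrib]
    rw [e1, e2, add_zero]
  refine Eq.trans ?_ e3
  apply Finset.sum_subset (Finset.subset_univ _)
  intro d _ hd
  by_cases h : d ∈ ownC M own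
  · simp only [ownC, Finset.mem_filter, Finset.mem_univ, true_and] at h
    rw [h, CharTwo.add_self_eq_zero, zero_mul]
  · rw [hS d (by rw [Finset.mem_union]; exact fun hh => hh.elim hd h), mul_zero]

include h0 in
lemma zero_of_zero_on_H {z : D → ZMod 2} (hS : ∀ d, d ∉ H ∪ ownC M own → z d = 0)
    (hv : ∀ v, ∑ d with M.vt d = v, z d = 0) (hz : ∀ d ∈ H, z d = 0) (d : D) : z d = 0 := by
  by_cases h : d ∈ ownC M own
  · have h1 := hv (M.vt d)
    rw [Finset.sum_eq_single d] at h1
    · exact h1
    · intro d' hd' hne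
      simp only [Finset.mem_filter, Finset.mem_univ, true_and] at hd'
      by_cases h2 : d' ∈ H
      · exact hz d' h2
      · apply hS
        rw [Finset.mem_union]
        rintro (h3 | h3)
        · exact h2 h3
        · simp only [ownC, Finset.mem_filter, Finset.mem_univ, true_and] at h h3
          exact hne (h0 d' d hd' (by rw [h, h3, hd']))
    · intro hh
      exact absurd (by simp) hh
  · by_cases h2 : d ∈ H
    · exact hz d h2
    · exact hS d (by rw [Finset.mem_union]; exact fun hh => hh.elim h2 h)

lemma zmod2_cases (x : ZMod 2) : x = 0 ∨ x = 1 := by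
  fin_cases x
  · exact Or.inl rfl
  · exact Or.inr rfl

include h0 hH hinj in
/-- the support on `H` of a nonzero even function has at least three elements -/
lemma three_le {z : D → ZMod 2} (hS : ∀ d, d ∉ H ∪ ownC M own → z d = 0)
    (hv : ∀ v, ∑ d with M.vt d = v, z d = 0)
    (hf : ∀ f, ∑ d with M.fc d = f, z d = 0) (hne : ∃ d, z d ≠ 0) :
    3 ≤ (H.filter fun d => z d ≠ 0).card := by
  set A := H.filter fun d => z d ≠ 0 with hA
  have hpar : ∀ f, ∑ d ∈ A, ((if M.fc d = f then (1 : ZMod 2) else 0) +
      (if own (M.vt d) = f then 1 else 0)) = 0 := by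
    intro f
    refine Eq.trans ?_ (parity M own H hS hv hf f)
    rw [hA, Finset.sum_filter]
    apply Finset.sum_congr rfl
    intro d _
    rcases zmod2_cases (z d) with h | h
    · rw [h]; simp
    · rw [h]; simp
  by_contra hlt
  have hcard : A.card = 0 ∨ A.card = 1 ∨ A.card = 2 := by omega
  rcases hcard with h | h | h
  · obtain ⟨d, hd⟩ := hne
    apply hd
    apply zero_of_zero_on_H M own H h0 hS hv
    intro d' hd'
    by_contra hz
    have : d' ∈ A := Finset.mem_filter.2 ⟨hd', hz⟩
    rw [Finset.card_eq_zero] at h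
    rw [h] at this
    exact absurd this (Finset.notMem_empty _)
  · rw [Finset.card_eq_one] at h
    obtain ⟨d, hd⟩ := h
    have hdH : d ∈ H := (Finset.mem_filter.1 (hd ▸ Finset.mem_singleton_self d : d ∈ A)).1
    have h1 := hpar (M.fc d)
    rw [hd, Finset.sum_singleton, if_pos rfl, if_neg (hH d hdH).2.2, add_zero] at h1
    exact one_ne_zero h1
  · rw [Finset.card_eq_two] at h
    obtain ⟨d, d', hne', hd⟩ := h
    have hdH : d ∈ H := (Finset.mem_filter.1 (hd ▸ by simp : d ∈ A)).1
    have hdH' : d' ∈ H := (Finset.mem_filter.1 (hd ▸ by simp : d' ∈ A)).1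
    have hl := (hH d hdH).2.2
    have hl' := (hH d' hdH').2.2
    have h1 := hpar (M.fc d)
    have h2 := hpar (own (M.vt d))
    rw [hd, Finset.sum_pair hne', if_pos rfl, if_neg hl, add_zero] at h1
    rw [hd, Finset.sum_pair hne', if_pos rfl, if_neg (Ne.symm hl), zero_add] at h2
    apply hne'
    apply hinj d hdH d' hdH'
    rw [Sym2.eq_iff]
    have h11 : (1 : ZMod 2) ≠ 0 := one_ne_zero
    by_cases a1 : M.fc d' = M.fc d
    · left
      refine ⟨a1.symm, ?_⟩
      by_contra a2
      rw [if_neg (fun hh => hl (hh.symm.trans a1)), if_neg (fun hh => a2 hh.symm)] at h2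
      simp at h2
    · by_cases a3 : own (M.vt d') = M.fc d
      · right
        refine ⟨a3.symm, ?_⟩
        by_contra a4
        rw [if_neg (fun hh => a4 hh.symm), if_neg (fun hh => hl (hh.symm.trans a3))] at h2
        simp at h2
      · rw [if_neg a1, if_neg a3] at h1
        simp at h1

include h0 hown hH in
/-- lower bound for the number of regions -/
lemma reg_lower : H.card + 1 ≤ (B ∪ C).card + Fintype.card (M.Reg (H ∪ ownC M own)) := by
  set S := H ∪ ownC M own with hS
  let Φ : (D → ZMod 2) →ₗ[ZMod 2] (({d // d ∉ S} → ZMod 2) × (V → ZMod 2)) ×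
      ({f // f ∈ B ∪ C} → ZMod 2) :=
    { toFun := fun z => ((fun d => z d.1, fun v => ∑ d with M.vt d = v, z d),
        fun f => ∑ d with M.fc d = f.1, z d)
      map_add' := by
        intro a b
        ext x <;> simp [Finset.sum_add_distrib]
      map_smul' := by
        intro c a
        ext x <;> simp [Finset.mul_sum] }
  have hker : LinearMap.ker Φ ≤ LinearMap.range (M.bdr S) := by
    intro z hz
    rw [LinearMap.mem_ker] at hz
    have z1 : ∀ d, d ∉ S → z d = 0 := by
      intro d hd
      have := congrFun (congrArg (fun p => p.1.1) hz) ⟨d, hd⟩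
      exact this
    have z2 : ∀ v, ∑ d with M.vt d = v, z d = 0 := by
      intro v
      have := congrFun (congrArg (fun p => p.1.2) hz) v
      exact this
    have z3 : ∀ f, f ∈ B ∪ C → ∑ d with M.fc d = f, z d = 0 := by
      intro f hf
      have := congrFun (congrArg (fun p => p.2) hz) ⟨f, hf⟩
      exact this
    apply M.mem_range_bdr S z1 z2
    intro f
    by_cases hf : f ∈ B ∪ C
    · exact z3 f hf
    · apply Finset.sum_eq_zero
      intro d hd
      simp only [Finset.mem_filter, Finset.mem_univ, true_and] at hd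
      rw [Finset.mem_union, not_or] at hf
      -- `d` is not in `H`
      by_cases hdS : d ∈ S
      · have hdH : d ∉ H := fun h => hf.2 (hd ▸ (hH d h).2.1)
        have hdo : M.fc d = own (M.vt d) := by
          rw [hS, Finset.mem_union] at hdS
          have := hdS.resolve_left hdH
          simpa [ownC] using this
        have h1 := z2 (M.vt d)
        rw [Finset.sum_eq_single d] at h1
        · exact h1
        · intro d' hd' hne
          simp only [Finset.mem_filter, Finset.mem_univ, true_and] at hd'
          apply z1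
          rw [hS, Finset.mem_union]
          rintro (h3 | h3)
          · apply hf.1
            have := (hH d' h3).1
            rwa [hd', ← hdo, hd] at this
          · simp only [ownC, Finset.mem_filter, Finset.mem_univ, true_and] at h3
            exact hne (h0 d' d hd' (by rw [hdo, h3, hd']))
        · intro hh
          exact absurd (by simp) hh
      · exact z1 d hdS
  have h1 := LinearMap.finrank_range_add_finrank_ker Φ
  rw [Module.finrank_fintype_fun_eq_card] at h1
  have h2 : finrank (ZMod 2) (LinearMap.range Φ) ≤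
      Fintype.card {d // d ∉ S} + Fintype.card V + (B ∪ C).card := by
    refine (Submodule.finrank_le _).trans ?_
    rw [Module.finrank_prod, Module.finrank_prod, Module.finrank_fintype_fun_eq_card,
      Module.finrank_fintype_fun_eq_card, Module.finrank_fintype_fun_eq_card, Fintype.card_coe]
  have h3 := Submodule.finrank_mono hker
  have h4 := M.finrank_range_bdr S
  have h5 : Fintype.card {d // d ∉ S} + S.card = Fintype.card D := by
    rw [Fintype.card_subtype_compl, Fintype.card_coe]
    have := Finset.card_le_univ S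
    omega
  have h6 : S.card = H.card + Fintype.card V := by
    rw [hS, Finset.card_union_of_disjoint, card_ownC M own h0 hown]
    rw [Finset.disjoint_left]
    intro d hd hd'
    simp only [ownC, Finset.mem_filter, Finset.mem_univ, true_and] at hd'
    exact (hH d hd).2.2 hd'.symm
  omega

include h0 hH hinj in
/-- upper bound for the number of regions -/
lemma reg_upper (h2 : 2 ≤ Fintype.card (M.Reg (H ∪ ownC M own))) :
    3 * Fintype.card (M.Reg (H ∪ ownC M own)) ≤ 2 * H.card := by
  set S := H ∪ ownC M own with hS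
  -- the boundary of one region
  let z : M.Reg S → D → ZMod 2 := fun c => M.bdr S (fun c' => if c' = c then 1 else 0)
  have hz : ∀ c, ∃ d, z c d ≠ 0 := by
    intro c
    by_contra hcon
    push Not at hcon
    obtain ⟨d, rfl⟩ := Quot.exists_rep c
    obtain ⟨c', hc'⟩ : ∃ c' : M.Reg S, c' ≠ Quot.mk _ d := by
      have : Nontrivial (M.Reg S) := Fintype.one_lt_card_iff_nontrivial.1 (by omega)
      exact exists_ne _
    obtain ⟨d', rfl⟩ := Quot.exists_rep c'
    have key := M.dart_const (fun x => if (Quot.mk (M.regRel S) x) = Quot.mk _ d then (1 : ZMod 2)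
      else 0) (fun x => by
        have h3 := hcon (M.nxt x)
        simp only [z, PMap.bdr_apply, Equiv.symm_apply_apply] at h3
        have e3 := CharTwo.add_self_eq_zero
          (if (Quot.mk (M.regRel S) x) = Quot.mk _ d then (1 : ZMod 2) else 0)
        linear_combination h3 - e3) (fun x => by rw [M.mk_rev]) d d'
    rw [if_pos rfl, if_neg hc'] at key
    exact one_ne_zero key
  have h3 : ∀ c, 3 ≤ (H.filter fun d => z c d ≠ 0).card := fun c =>
    three_le M own B C H h0 hH hinj (fun d hd => M.bdr_supp S _ hd)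
      (fun v => M.bdr_vertex S _ v) (fun f => M.bdr_face S _ f) (hz c)
  have h4 : 3 * Fintype.card (M.Reg S) ≤ ∑ c, (H.filter fun d => z c d ≠ 0).card := by
    have := Finset.sum_le_sum (s := (univ : Finset (M.Reg S))) (fun c _ => h3 c)
    rw [Finset.sum_const, Finset.card_univ, smul_eq_mul] at this
    linarith
  have h5 : ∑ c, (H.filter fun d => z c d ≠ 0).card =
      ∑ d ∈ H, (univ.filter fun c => z c d ≠ 0).card := by
    simp only [Finset.card_filter]
    exact Finset.sum_comm
  have h6 : ∀ d ∈ H, (univ.filter fun c => z c d ≠ 0).card ≤ 2 := by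
    intro d _
    have hsub : (univ.filter fun c => z c d ≠ 0) ⊆
        {Quot.mk (M.regRel S) d, Quot.mk (M.regRel S) (M.nxt.symm d)} := by
      intro c hc
      simp only [Finset.mem_filter, Finset.mem_univ, true_and] at hc
      rw [Finset.mem_insert, Finset.mem_singleton]
      by_contra hcon
      push Not at hcon
      apply hc
      simp only [z, PMap.bdr_apply]
      rw [if_neg (Ne.symm hcon.1), if_neg (Ne.symm hcon.2), add_zero]
    exact (Finset.card_le_card hsub).trans Finset.card_le_two
  have h7 : ∑ d ∈ H, (univ.filter fun c => z c d ≠ 0).card ≤ ∑ d ∈ H, 2 :=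
    Finset.sum_le_sum h6
  rw [Finset.sum_const, smul_eq_mul] at h7
  omega

end count

theorem planar_count (M : PMap V F D) (own : V → F) (B C : Finset F) (H : Finset D)
    (h0 : ∀ d d', M.vt d = M.vt d' → M.fc d = M.fc d' → d = d')
    (hown : ∀ v, ∃ d, M.vt d = v ∧ M.fc d = own v)
    (hH : ∀ d ∈ H, own (M.vt d) ∈ B ∧ M.fc d ∈ C ∧ own (M.vt d) ≠ M.fc d)
    (hinj : ∀ d ∈ H, ∀ d' ∈ H,
      s(M.fc d, own (M.vt d)) = s(M.fc d', own (M.vt d')) → d = d') :
    H.card ≤ 3 * (B ∪ C).card := by
  have h1 := reg_lower M own B C H h0 hown hH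
  by_cases h2 : 2 ≤ Fintype.card (M.Reg (H ∪ ownC M own))
  · have h3 := reg_upper M own B C H h0 hH hinj h2
    omega
  · omega

end P8ffccf

end
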