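import Mathlib

/-!
# Strictly convex grid drawings of 3-connected planar graphs: definitions
-/

noncomputable section

namespace P8ffccf

/-- An integer point as a point of the real plane. -/
def rl (p : ℤ × ℤ) : ℝ × ℝ := ((p.1 : ℝ), (p.2 : ℝ))

/-- The drawing of a graph: union of its segments. -/
def gdraw {V : Type} (G : SimpleGraph V) (P : V → ℝ × ℝ) : Set (ℝ × ℝ) :=
  {z | ∃ u v, G.Adj u v ∧ z ∈ segment ℝ (P u) (P v)}

/-- `pos` is a strictly convex plane straight-line drawing of `G` on the `L × L` grid:
the vertices are distinct integer points with coordinates in `0..L`; the segments of two distinct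
edges have no common point except the image of a common endpoint; every bounded face (bounded
connected component of the complement of the drawing) is convex, and every vertex on its boundary
is a corner (an extreme point of its closure); the complement of the unbounded face is convex, and
every vertex on the boundary of the unbounded face is a corner (an extreme point) of it. -/
structure IsDrawing {V : Type} (G : SimpleGraph V) (L : ℕ) (pos : V → ℤ × ℤ) : Prop where
  grid : ∀ v, (0 ≤ (pos v).1 ∧ (pos v).1 ≤ L) ∧ (0 ≤ (pos v).2 ∧ (pos v).2 ≤ L)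
  inj : Function.Injective pos
  cross : ∀ u v x y, G.Adj u v → G.Adj x y → s(u, v) ≠ s(x, y) → ∀ z,
    z ∈ segment ℝ (rl (pos u)) (rl (pos v)) → z ∈ segment ℝ (rl (pos x)) (rl (pos y)) →
    ∃ w, (w = u ∨ w = v) ∧ (w = x ∨ w = y) ∧ z = rl (pos w)
  bounded : ∀ z, z ∉ gdraw G (fun v => rl (pos v)) →
    Bornology.IsBounded (connectedComponentIn (gdraw G (fun v => rl (pos v)))ᶜ z) →
    Convex ℝ (connectedComponentIn (gdraw G (fun v => rl (pos v)))ᶜ z) ∧
    ∀ v, rl (pos v) ∈ closure (connectedComponentIn (gdraw G (fun v => rl (pos v)))ᶜ z) →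
      rl (pos v) ∈
        (closure (connectedComponentIn (gdraw G (fun v => rl (pos v)))ᶜ z)).extremePoints ℝ
  unbounded : ∀ z, z ∉ gdraw G (fun v => rl (pos v)) →
    ¬ Bornology.IsBounded (connectedComponentIn (gdraw G (fun v => rl (pos v)))ᶜ z) →
    Convex ℝ (connectedComponentIn (gdraw G (fun v => rl (pos v)))ᶜ z)ᶜ ∧
    ∀ v, rl (pos v) ∈ closure (connectedComponentIn (gdraw G (fun v => rl (pos v)))ᶜ z) →
      rl (pos v) ∈
        ((connectedComponentIn (gdraw G (fun v => rl (pos v)))ᶜ z)ᶜ).extremePoints ℝ

/-- 3-connected: at least four vertices, and connected after deleting any at most two. -/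
def IsThreeConn {V : Type} [Fintype V] (G : SimpleGraph V) : Prop :=
  4 ≤ Fintype.card V ∧ ∀ S : Finset V, S.card ≤ 2 → (G.induce ((S : Set V)ᶜ)).Connected

/-- The rotation of darts around a vertex determined by the face permutation `nxt`. -/
def dartRot {V : Type} {G : SimpleGraph V} (nxt : Equiv.Perm G.Dart) : Equiv.Perm G.Dart :=
  (Equiv.mk (fun d : G.Dart => d.symm) (fun d => d.symm) (fun d => d.symm_symm)
    (fun d => d.symm_symm)).trans nxt

/-- Planarity of a connected graph by a rotation system of genus zero: a permutation `nxt` of the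
darts (next dart along the face on the left) such that `nxt` of `u → v` starts at `v`, the darts
leaving any given vertex form one cycle of the rotation `d ↦ nxt (reverse of d)`, and the number
`f` of cycles of `nxt` (the faces) satisfies Euler's formula `n - m + f = 2`. -/
def IsPlanarMap {V : Type} [Fintype V] (G : SimpleGraph V) : Prop :=
  ∃ nxt : Equiv.Perm G.Dart, (∀ d, (nxt d).fst = d.snd) ∧
    (∀ d d' : G.Dart, d.fst = d'.fst → (dartRot nxt).SameCycle d d') ∧
    Fintype.card V + Nat.card (Quotient (Equiv.Perm.SameCycle.setoid nxt)) =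
      Nat.card G.edgeSet + 2

/-- Every 3-connected planar graph on `n` vertices has a strictly convex drawing on the `L × L`
grid. -/
def GridOK (n L : ℕ) : Prop :=
  ∀ (V : Type) [Fintype V] (G : SimpleGraph V), Fintype.card V = n → IsPlanarMap G →
    IsThreeConn G → ∃ pos : V → ℤ × ℤ, IsDrawing G L pos

end P8ffccf

end
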