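import Pool.Agent.Lib.P8ffccf.Net

/-! # Estimates: the numerical data of the construction -/

set_option linter.unusedSimpArgs false
set_option linter.unusedVariables false
set_option linter.unusedSectionVars false
set_option linter.style.longLine false

noncomputable section

namespace P8ffccf

open Classical Finset

variable {V F D : Type} [Fintype V] [Fintype F] [Fintype D]

/-- The base of the exponential weights. -/
def th : ℝ := 19 / 20

/-- All the combinatorial data entering the construction. -/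
structure Dat (M : PMap V F D) (o : F) where
  H : M.Three
  L : M.Lab o
  ac : ∀ k f, ∃ i, (L.par k)^[i] f = o
  own : V → F
  hown : ∀ v, ∃ d, M.vt d = v ∧ M.fc d = own v
  hmax : ∀ d, M.dg (M.fc d) ≤ M.dg (own (M.vt d))
  hv : ZMod 3 → F → F
  heavy : ∀ k, (⟨L.par k, o, L.par_o k, ac k⟩ : Forest F).IsHeavy (hv k)
  t : ℕ
  CQ : ℕ
  K2 : ℕ
  hCQ : 1 ≤ CQ
  hK2 : 1 ≤ K2
  hJ : Fintype.card F ≤ 2 ^ (24 * t)

namespace Dat

variable {M : PMap V F D} {o : F} (S : Dat M o)

/-- The forest of colour `k`. -/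
def T (k : ZMod 3) : Forest F := ⟨S.L.par k, o, S.L.par_o k, S.ac k⟩

@[simp] lemma T_root (k : ZMod 3) : (S.T k).root = o := rfl
@[simp] lemma T_par (k : ZMod 3) : (S.T k).par = S.L.par k := rfl

lemma heavy' (k : ZMod 3) : (S.T k).IsHeavy (S.hv k) := S.heavy k

lemma kids_eq (k : ZMod 3) (f : F) :
    (univ.filter fun c => (S.T k).par c = f ∧ c ≠ o) = S.L.kids k f := rfl

lemma mem_kids {k : ZMod 3} {f c : F} : c ∈ S.L.kids k f ↔ S.L.par k c = f ∧ c ≠ o := by
  simp [PMap.Lab.kids]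

def q : ℕ := 2 ^ S.t

lemma one_le_q : 1 ≤ S.q := Nat.one_le_two_pow

/-- Admissible denominators. -/
def Qf (f : F) : ℕ := if S.q ^ 13 ≤ M.dg f then S.CQ * S.q ^ 12 else S.q ^ 8

/-- Bound for the rounding error at a vertex. -/
def rho (v : V) : ℝ := if S.q ^ 10 ≤ M.dg (S.own v) then 10 * (S.Qf (S.own v) : ℝ) else 1

def m0 (f : F) : ℕ := (M.fgn S.own (S.q ^ 10) f).card
def m1 (f : F) : ℕ := (M.fgn S.own (S.q ^ 13) f).card

/-- The dart of the parent leading to the child `c`. -/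
def cd (k : ZMod 3) (c : F) : D := M.rev (S.L.sp k c)

def light (k : ZMod 3) (c : F) : Prop := (S.T k).Light (S.hv k) c

/-- `c` is a chain child (of an inner face) in colour `k`. -/
def chn (k : ZMod 3) (c : F) : Prop := (c ≠ o ∧ S.L.par k c ≠ o) ∧ S.L.cF (S.cd k c)

/-- exact children -/
def exC (k : ZMod 3) (c : F) : Prop := S.chn k c ∧ S.q ^ 10 ≤ M.dg (S.L.par k c) ∧
  (S.own (M.vt (S.cd k c)) = S.L.par k c ∧ S.own (M.vt (M.rev (S.cd k c))) = S.L.par k c) ∧
  c ≠ S.hv k (S.L.par k c)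

/-- hot children of level `K` -/
def hot (K : ℕ) (k : ZMod 3) (c : F) : Prop :=
  M.vt (S.cd k c) ∈ M.fgn S.own K (S.L.par k c) ∨
    M.vt (M.rev (S.cd k c)) ∈ M.fgn S.own K (S.L.par k c)

/-- Largest size of a light child. -/
def B (k : ZMod 3) (f : F) : ℕ := ((S.L.kids k f).filter fun c => S.light k c).sup (S.T k).size

/-- Extra length required by the parent of colour `k`. -/
def ek (k : ZMod 3) (c : F) : ℝ :=
  if S.chn k c ∧ S.light k c then
    (if S.hot (S.q ^ 13) k c then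
      (if S.m1 (S.L.par k c) ≤ 6 then (th⁻¹) ^ (Nat.log 2 (S.B k (S.L.par k c)))
        else (S.m1 (S.L.par k c) : ℝ) * S.q)
      else if S.hot (S.q ^ 10) k c then (S.m0 (S.L.par k c) : ℝ) / (S.q : ℝ) ^ 3 else 0)
  else 0

/-- The prescribed lengths. -/
def N0 (c : F) : ℝ := (S.CQ * S.K2 : ℝ) * (S.q : ℝ) ^ 12 * (1 + ∑ k, S.ek k c)

/-- Lower bounds for the lengths of the flow. -/
def Llb (k : ZMod 3) (c : F) : ℝ := (9 / 10) * ∑ x ∈ (S.T k).desc c, S.N0 x

/-- Required gaps. -/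
def gam (k : ZMod 3) (c : F) : ℝ :=
  if S.chn k c ∧ ¬ S.exC k c then
    16 * (S.rho (M.vt (S.cd k c)) + S.rho (M.vt (M.rev (S.cd k c)))) / S.Llb k c else 0

/-- The weights controlling the offsets. -/
def phi (k : ZMod 3) (f : F) : ℝ :=
  th ^ (Nat.log 2 (S.B k f)) + th ^ (24 * S.t - Nat.log 2 ((S.T k).size f))

/-! ### basic facts -/

lemma th_pos : (0 : ℝ) < th := by unfold th; norm_num
lemma th_lt : th < 1 := by unfold th; norm_num
lemma th_half : (1 : ℝ) / 2 < th := by unfold th; norm_num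

lemma q_pos : (0 : ℝ) < S.q := by exact_mod_cast S.one_le_q
lemma q_one : (1 : ℝ) ≤ S.q := by exact_mod_cast S.one_le_q

lemma CQ_pos : (0 : ℝ) < S.CQ := by exact_mod_cast S.hCQ
lemma CQ_one : (1 : ℝ) ≤ S.CQ := by exact_mod_cast S.hCQ
lemma K2_pos : (0 : ℝ) < S.K2 := by exact_mod_cast S.hK2

lemma ek_nonneg (k : ZMod 3) (c : F) : 0 ≤ S.ek k c := by
  have h := th_pos
  have hq := S.q_pos
  unfold ek
  split_ifs
  · positivity
  · positivity
  · positivity
  · exact le_rfl
  · exact le_rfl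

/-- The base length. -/
def base : ℝ := (S.CQ * S.K2 : ℝ) * (S.q : ℝ) ^ 12

lemma base_pos : 0 < S.base := by
  have := S.CQ_pos
  have := S.K2_pos
  have := S.q_pos
  unfold base
  positivity

lemma N0_eq (c : F) : S.N0 c = S.base * (1 + ∑ k, S.ek k c) := rfl

lemma base_le_N0 (c : F) : S.base ≤ S.N0 c := by
  rw [N0_eq]
  have h1 : 0 ≤ ∑ k, S.ek k c := Finset.sum_nonneg fun k _ => S.ek_nonneg k c
  have := S.base_pos
  nlinarith

lemma ek_le_N0 (k : ZMod 3) (c : F) : S.base * S.ek k c ≤ S.N0 c := by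
  rw [N0_eq]
  have h1 : S.ek k c ≤ ∑ k, S.ek k c :=
    Finset.single_le_sum (fun k _ => S.ek_nonneg k c) (Finset.mem_univ k)
  have := S.base_pos
  nlinarith

lemma N0_pos (c : F) : 0 < S.N0 c := lt_of_lt_of_le S.base_pos (S.base_le_N0 c)

lemma Llb_ge_size (k : ZMod 3) (c : F) : (9 / 10) * (S.base * (S.T k).size c) ≤ S.Llb k c := by
  unfold Llb
  apply mul_le_mul_of_nonneg_left _ (by norm_num)
  calc S.base * (S.T k).size c = ∑ x ∈ (S.T k).desc c, S.base := by
        rw [Finset.sum_const, nsmul_eq_mul, mul_comm]; rfl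
    _ ≤ _ := Finset.sum_le_sum fun x _ => S.base_le_N0 x

lemma Llb_ge_N0 (k : ZMod 3) (c : F) : (9 / 10) * S.N0 c ≤ S.Llb k c := by
  unfold Llb
  apply mul_le_mul_of_nonneg_left _ (by norm_num)
  exact Finset.single_le_sum (f := S.N0) (fun x _ => (S.N0_pos x).le) ((S.T k).self_mem_desc c)

lemma Llb_pos (k : ZMod 3) (c : F) : 0 < S.Llb k c :=
  lt_of_lt_of_le (by have := S.N0_pos c; positivity) (S.Llb_ge_N0 k c)

lemma Qf_le (f : F) : (S.Qf f : ℝ) ≤ S.CQ * (S.q : ℝ) ^ 12 := by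
  unfold Qf
  split_ifs
  · push_cast; exact le_rfl
  · push_cast
    have h1 := S.q_one
    have h2 := S.CQ_one
    calc (S.q : ℝ) ^ 8 ≤ (S.q : ℝ) ^ 12 := pow_le_pow_right₀ h1 (by norm_num)
      _ ≤ S.CQ * (S.q : ℝ) ^ 12 := by nlinarith [pow_pos S.q_pos 12]

lemma one_le_Qf (f : F) : 1 ≤ S.Qf f := by
  unfold Qf
  have := S.one_le_q
  have := S.hCQ
  split_ifs
  · exact Nat.one_le_iff_ne_zero.mpr (by positivity)
  · exact Nat.one_le_iff_ne_zero.mpr (by positivity)

lemma rho_le (v : V) : S.rho v ≤ 10 * (S.CQ * (S.q : ℝ) ^ 12) := by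
  unfold rho
  split_ifs
  · have := S.Qf_le (S.own v)
    linarith
  · have h1 := S.CQ_one
    have h2 : (1 : ℝ) ≤ (S.q : ℝ) ^ 12 := one_le_pow₀ S.q_one
    nlinarith

lemma rho_pos (v : V) : 0 < S.rho v := by
  unfold rho
  split_ifs
  · have := S.one_le_Qf (S.own v)
    have : (1 : ℝ) ≤ S.Qf (S.own v) := by exact_mod_cast this
    linarith
  · norm_num

lemma gam_nonneg (k : ZMod 3) (c : F) : 0 ≤ S.gam k c := by
  unfold gam
  split_ifs
  · have h1 := S.rho_pos (M.vt (S.cd k c))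
    have h2 := S.rho_pos (M.vt (M.rev (S.cd k c)))
    have h3 := S.Llb_pos k c
    positivity
  · exact le_rfl

lemma fc_cd {k : ZMod 3} {c : F} (hc : c ≠ o) : M.fc (S.cd k c) = S.L.par k c := by
  unfold cd
  rw [S.L.par_eq k hc]

lemma ch_cd {k : ZMod 3} {c : F} (hc : c ≠ o) : S.L.Ch k (S.cd k c) := S.L.ch_sp k hc

lemma fc_rev_cd {k : ZMod 3} {c : F} : M.fc (M.rev (S.cd k c)) = c := by
  unfold cd
  rw [M.rev_rev, S.L.sp_fc]

lemma cd_inj {k : ZMod 3} {c c' : F} (h : S.cd k c = S.cd k c') : c = c' := by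
  rw [← S.fc_rev_cd (k := k) (c := c), h, S.fc_rev_cd]

/-- `1/q ≤ phi` -/
lemma inv_q_le_phi {k : ZMod 3} {f : F} (hB : S.B k f ≤ (S.T k).size f) :
    1 / (S.q : ℝ) ≤ S.phi k f := by
  have h0 := th_pos
  have h1 := th_lt
  have key : 1 / (S.q : ℝ) ≤ th ^ (12 * S.t) := by
    unfold q th
    push_cast
    rw [pow_mul, one_div, ← inv_pow]
    apply pow_le_pow_left₀ (by norm_num)
    norm_num
  unfold phi
  have hlog : Nat.log 2 (S.B k f) ≤ Nat.log 2 ((S.T k).size f) := Nat.log_mono_right hB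
  by_cases h : Nat.log 2 (S.B k f) ≤ 12 * S.t
  · have : th ^ (12 * S.t) ≤ th ^ (Nat.log 2 (S.B k f)) := pow_le_pow_of_le_one h0.le h1.le h
    have h2 : 0 ≤ th ^ (24 * S.t - Nat.log 2 ((S.T k).size f)) := by positivity
    linarith
  · have : th ^ (12 * S.t) ≤ th ^ (24 * S.t - Nat.log 2 ((S.T k).size f)) :=
      pow_le_pow_of_le_one h0.le h1.le (by omega)
    have h2 : 0 ≤ th ^ (Nat.log 2 (S.B k f)) := by positivity
    linarith

lemma light_size_le_B {k : ZMod 3} {c : F} (hc : c ≠ o) (hl : S.light k c) :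
    (S.T k).size c ≤ S.B k (S.L.par k c) := by
  unfold B
  apply Finset.le_sup (f := (S.T k).size)
  rw [Finset.mem_filter, S.mem_kids]
  exact ⟨⟨rfl, hc⟩, hl⟩

lemma B_le_size (k : ZMod 3) (f : F) : S.B k f ≤ (S.T k).size f := by
  unfold B
  apply Finset.sup_le
  intro c hc
  rw [Finset.mem_filter, S.mem_kids] at hc
  rw [← hc.1.1]
  exact (S.T k).size_mono ((S.T k).desc_par c)

/-- The heavy child is at least as large as all light ones. -/
lemma B_le_heavy {k : ZMod 3} {c : F} (hc : c ≠ o) :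
    S.B k (S.L.par k c) ≤ (S.T k).size (S.hv k (S.L.par k c)) := by
  unfold B
  apply Finset.sup_le
  intro c' hc'
  rw [Finset.mem_filter, S.mem_kids] at hc'
  have := (S.heavy' k c' hc'.1.2).2.2
  rw [T_par, hc'.1.1] at this
  exact this

/-- counting hot children -/
lemma card_hot_le (K : ℕ) (k : ZMod 3) (f : F) :
    ((S.L.kids k f).filter fun c => S.hot K k c).card ≤ 2 * (M.fgn S.own K f).card := by
  have h1 : ((S.L.kids k f).filter fun c => M.vt (S.cd k c) ∈ M.fgn S.own K f).card ≤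
      (M.fgn S.own K f).card := by
    apply Finset.card_le_card_of_injOn (fun c => M.vt (S.cd k c))
    · intro c hc
      rw [Finset.mem_coe, Finset.mem_filter] at hc
      exact hc.2
    · intro c hc c' hc' hcc
      rw [Finset.mem_coe, Finset.mem_filter, S.mem_kids] at hc hc'
      apply S.cd_inj (k := k)
      apply S.H.corner_unique hcc
      rw [S.fc_cd hc.1.2, S.fc_cd hc'.1.2, hc.1.1, hc'.1.1]
  have h2 : ((S.L.kids k f).filter fun c => M.vt (M.rev (S.cd k c)) ∈ M.fgn S.own K f).card ≤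
      (M.fgn S.own K f).card := by
    apply Finset.card_le_card_of_injOn (fun c => M.vt (M.rev (S.cd k c)))
    · intro c hc
      rw [Finset.mem_coe, Finset.mem_filter] at hc
      exact hc.2
    · intro c hc c' hc' hcc
      rw [Finset.mem_coe, Finset.mem_filter, S.mem_kids] at hc hc'
      apply S.cd_inj (k := k)
      apply M.nxt.injective
      apply S.H.corner_unique
      · rw [M.vt_nxt, M.vt_nxt]; exact hcc
      · rw [M.fc_nxt, M.fc_nxt, S.fc_cd hc.1.2, S.fc_cd hc'.1.2, hc.1.1, hc'.1.1]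
  have h3 : ((S.L.kids k f).filter fun c => S.hot K k c) ⊆
      ((S.L.kids k f).filter fun c => M.vt (S.cd k c) ∈ M.fgn S.own K f) ∪
      ((S.L.kids k f).filter fun c => M.vt (M.rev (S.cd k c)) ∈ M.fgn S.own K f) := by
    intro c hc
    rw [Finset.mem_filter] at hc
    rw [Finset.mem_union, Finset.mem_filter, Finset.mem_filter]
    have hk := S.mem_kids.mp hc.1
    rcases hc.2 with h | h
    · left; rw [hk.1] at h; exact ⟨hc.1, h⟩
    · right; rw [hk.1] at h; exact ⟨hc.1, h⟩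
  have := Finset.card_le_card h3
  have := Finset.card_union_le ((S.L.kids k f).filter fun c => M.vt (S.cd k c) ∈ M.fgn S.own K f)
    ((S.L.kids k f).filter fun c => M.vt (M.rev (S.cd k c)) ∈ M.fgn S.own K f)
  omega

lemma card_kids_le_dg (k : ZMod 3) (f : F) : (S.L.kids k f).card ≤ M.dg f := by
  apply Finset.card_le_card_of_injOn (S.cd k)
  · intro c hc
    rw [Finset.mem_coe, S.mem_kids] at hc
    simp only [Finset.coe_filter, Finset.mem_univ, true_and, Set.mem_ofPred_eq]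
    rw [S.fc_cd hc.2, hc.1]
  · intro c _ c' _ h
    exact S.cd_inj h

lemma card_kids_lt_size (k : ZMod 3) {f : F} (hf : f ≠ o) :
    (S.L.kids k f).card + 1 ≤ (S.T k).size f := by
  have hsub : insert f (S.L.kids k f) ⊆ (S.T k).desc f := by
    intro c hc
    rw [Finset.mem_insert, S.mem_kids] at hc
    rcases hc with rfl | ⟨h1, h2⟩
    · exact (S.T k).self_mem_desc _
    · rw [← h1]
      exact (S.T k).desc_par c
  have hnot : f ∉ S.L.kids k f := by
    intro h
    rw [S.mem_kids] at h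
    have := (S.T k).dep_par (c := f) hf
    rw [T_par, h.1] at this
    omega
  have := Finset.card_le_card hsub
  rw [Finset.card_insert_of_notMem hnot] at this
  exact this

end Dat

end P8ffccf

end
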