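import Pool.Agent.Lib.P8ffccf.Est1

/-! # Estimates: the gaps -/

set_option linter.unusedSimpArgs false
set_option linter.unusedVariables false
set_option linter.unusedSectionVars false
set_option linter.style.longLine false

noncomputable section

namespace P8ffccf

open Classical Finset

variable {V F D : Type} [Fintype V] [Fintype F] [Fintype D]

namespace Dat

variable {M : PMap V F D} {o : F} (S : Dat M o)

def eps : ℝ := 400 / S.K2

lemma eps_pos : 0 < S.eps := by
  have := S.K2_pos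
  unfold eps
  positivity

lemma on_face {k : ZMod 3} {c : F} (hc : c ≠ o) :
    (∃ d, M.vt d = M.vt (S.cd k c) ∧ M.fc d = S.L.par k c) ∧
    (∃ d, M.vt d = M.vt (M.rev (S.cd k c)) ∧ M.fc d = S.L.par k c) := by
  refine ⟨⟨S.cd k c, rfl, S.fc_cd hc⟩, ⟨M.nxt (S.cd k c), M.vt_nxt _, ?_⟩⟩
  rw [M.fc_nxt, S.fc_cd hc]

lemma gam_le_aux {k : ZMod 3} {c : F} {r l : ℝ} (hl : 0 < l) (hr : 0 ≤ r)
    (h1 : S.rho (M.vt (S.cd k c)) ≤ r) (h2 : S.rho (M.vt (M.rev (S.cd k c))) ≤ r)
    (h3 : (9 / 10) * l ≤ S.Llb k c) : S.gam k c ≤ 36 * r / l := by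
  unfold gam
  split_ifs with h
  · have h4 : 0 < (9 / 10) * l := by positivity
    have h5 := S.rho_pos (M.vt (S.cd k c))
    have h6 := S.rho_pos (M.vt (M.rev (S.cd k c)))
    calc 16 * (S.rho (M.vt (S.cd k c)) + S.rho (M.vt (M.rev (S.cd k c)))) / S.Llb k c
        ≤ 16 * (S.rho (M.vt (S.cd k c)) + S.rho (M.vt (M.rev (S.cd k c)))) / ((9 / 10) * l) :=
          div_le_div_of_nonneg_left (by positivity) h4 h3
      _ ≤ (32 * r) / ((9 / 10) * l) := by
          apply div_le_div_of_nonneg_right _ h4.le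
          linarith
      _ ≤ 36 * r / l := by
          rw [div_le_div_iff₀ h4 hl]
          nlinarith [mul_nonneg hr hl.le]
  · positivity

/-- (g1) -/
lemma gam_le_size (k : ZMod 3) (c : F) : S.gam k c ≤ S.eps / (S.T k).size c := by
  have hs : (0 : ℝ) < (S.T k).size c := by exact_mod_cast (S.T k).size_pos c
  have hb := S.base_pos
  have hq := S.q_pos
  have hC := S.CQ_pos
  have hK := S.K2_pos
  refine le_trans (S.gam_le_aux (r := 10 * (S.CQ * (S.q : ℝ) ^ 12)) (l := S.base * (S.T k).size c)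
    (by positivity) (by positivity) (S.rho_le _) (S.rho_le _) (S.Llb_ge_size k c)) ?_
  unfold eps base
  rw [div_div, div_le_div_iff₀ (by positivity) (by positivity)]
  have : 0 ≤ S.CQ * (S.q : ℝ) ^ 12 * S.K2 * (S.T k).size c := by positivity
  nlinarith

lemma gam_le_ek {k : ZMod 3} {c : F} {r e : ℝ} (he : 0 < e) (hr : 0 ≤ r) (hek : e ≤ S.ek k c)
    (h1 : S.rho (M.vt (S.cd k c)) ≤ r) (h2 : S.rho (M.vt (M.rev (S.cd k c))) ≤ r) :
    S.gam k c ≤ 36 * r / (S.base * e) := by
  have hb := S.base_pos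
  refine S.gam_le_aux (by positivity) hr h1 h2 ?_
  have h3 := S.Llb_ge_N0 k c
  have h4 := S.ek_le_N0 k c
  have h5 : S.base * e ≤ S.base * S.ek k c := mul_le_mul_of_nonneg_left hek hb.le
  linarith

/-- (g2) -/
lemma gam_hot1_few {k : ZMod 3} {c : F} (hc : S.chn k c) (hl : S.light k c)
    (hh : S.hot (S.q ^ 13) k c) (hm : S.m1 (S.L.par k c) ≤ 6) :
    S.gam k c ≤ S.eps * th ^ (Nat.log 2 (S.B k (S.L.par k c))) := by
  have hb := S.base_pos
  have hq := S.q_pos
  have hC := S.CQ_pos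
  have hK := S.K2_pos
  have ht := th_pos
  have hek : S.ek k c = (th⁻¹) ^ (Nat.log 2 (S.B k (S.L.par k c))) := by
    unfold ek
    rw [if_pos ⟨hc, hl⟩, if_pos hh, if_pos hm]
  refine le_trans (S.gam_le_ek (r := 10 * (S.CQ * (S.q : ℝ) ^ 12)) (by positivity)
    (by positivity) hek.ge (S.rho_le _) (S.rho_le _)) ?_
  unfold eps base
  rw [inv_pow]
  have ht' : 0 < th ^ (Nat.log 2 (S.B k (S.L.par k c))) := by positivity
  rw [div_le_iff₀ (by positivity)]
  have : 400 / (S.K2 : ℝ) * th ^ Nat.log 2 (S.B k (S.L.par k c)) *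
      (S.CQ * S.K2 * (S.q : ℝ) ^ 12 * (th ^ Nat.log 2 (S.B k (S.L.par k c)))⁻¹) =
      400 * (S.CQ * (S.q : ℝ) ^ 12) := by
    field_simp
  rw [this]
  have : 0 ≤ S.CQ * (S.q : ℝ) ^ 12 := by positivity
  linarith

/-- (g3) -/
lemma gam_hot1_many {k : ZMod 3} {c : F} (hc : S.chn k c) (hl : S.light k c)
    (hh : S.hot (S.q ^ 13) k c) (hm : ¬ S.m1 (S.L.par k c) ≤ 6) :
    S.gam k c ≤ S.eps * (1 / (S.m1 (S.L.par k c) * S.q)) := by
  have hb := S.base_pos
  have hq := S.q_pos
  have hC := S.CQ_pos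
  have hK := S.K2_pos
  have hm' : (0 : ℝ) < S.m1 (S.L.par k c) := by
    have : 0 < S.m1 (S.L.par k c) := by omega
    exact_mod_cast this
  have hek : S.ek k c = (S.m1 (S.L.par k c) : ℝ) * S.q := by
    unfold ek
    rw [if_pos ⟨hc, hl⟩, if_pos hh, if_neg hm]
  refine le_trans (S.gam_le_ek (r := 10 * (S.CQ * (S.q : ℝ) ^ 12)) (by positivity)
    (by positivity) hek.ge (S.rho_le _) (S.rho_le _)) ?_
  unfold eps base
  rw [div_le_iff₀ (by positivity)]
  have : 400 / (S.K2 : ℝ) * (1 / ((S.m1 (S.L.par k c) : ℝ) * S.q)) *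
      (S.CQ * S.K2 * (S.q : ℝ) ^ 12 * ((S.m1 (S.L.par k c) : ℝ) * S.q)) =
      400 * (S.CQ * (S.q : ℝ) ^ 12) := by
    field_simp
  rw [this]
  have : 0 ≤ S.CQ * (S.q : ℝ) ^ 12 := by positivity
  linarith

/-- (g4) -/
lemma gam_hot0 {k : ZMod 3} {c : F} (hc : S.chn k c) (hl : S.light k c)
    (hn : ¬ S.hot (S.q ^ 13) k c) (hh : S.hot (S.q ^ 10) k c) :
    S.gam k c ≤ S.eps * (1 / (S.m0 (S.L.par k c) * S.q)) := by
  have hb := S.base_pos
  have hq := S.q_pos
  have hq1 := S.q_one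
  have hC := S.CQ_one
  have hK := S.K2_pos
  have hco := hc.1.1
  have hm : 0 < S.m0 (S.L.par k c) := by
    unfold m0
    apply Finset.card_pos.mpr
    rcases hh with h | h
    · exact ⟨_, h⟩
    · exact ⟨_, h⟩
  have hm' : (0 : ℝ) < S.m0 (S.L.par k c) := by exact_mod_cast hm
  have hek : S.ek k c = (S.m0 (S.L.par k c) : ℝ) / (S.q : ℝ) ^ 3 := by
    unfold ek
    rw [if_pos ⟨hc, hl⟩, if_neg hn, if_pos hh]
  obtain ⟨on1, on2⟩ := S.on_face (k := k) hco
  unfold hot at hn
  push Not at hn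
  -- the parent has small degree
  have hpar : M.dg (S.L.par k c) < S.q ^ 13 := by
    by_contra hcon
    push Not at hcon
    rcases hh with h | h
    · apply hn.1
      simp only [PMap.fgn, Finset.mem_filter, Finset.mem_univ, true_and] at h ⊢
      obtain ⟨d, hd, hd'⟩ := on1
      have := S.hmax d
      rw [hd, hd'] at this
      exact ⟨h.1, h.2.1, hcon.trans this⟩
    · apply hn.2
      simp only [PMap.fgn, Finset.mem_filter, Finset.mem_univ, true_and] at h ⊢
      obtain ⟨d, hd, hd'⟩ := on2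
      have := S.hmax d
      rw [hd, hd'] at this
      exact ⟨h.1, h.2.1, hcon.trans this⟩
  have hrho : ∀ v, (∃ d, M.vt d = v ∧ M.fc d = S.L.par k c) →
      v ∉ M.fgn S.own (S.q ^ 13) (S.L.par k c) → S.rho v ≤ 10 * (S.q : ℝ) ^ 8 := by
    intro v hv hv'
    have h8 : (1 : ℝ) ≤ (S.q : ℝ) ^ 8 := one_le_pow₀ hq1
    unfold rho
    split_ifs with h10
    · have hlt : ¬ S.q ^ 13 ≤ M.dg (S.own v) := by
        intro hge
        by_cases hov : S.own v = S.L.par k c
        · rw [hov] at hge; omega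
        · apply hv'
          simp only [PMap.fgn, Finset.mem_filter, Finset.mem_univ, true_and]
          exact ⟨hv, hov, hge⟩
      unfold Qf
      rw [if_neg hlt]
      push_cast
      exact le_rfl
    · linarith
  refine le_trans (S.gam_le_ek (r := 10 * (S.q : ℝ) ^ 8) (by positivity)
    (by positivity) hek.ge (hrho _ on1 hn.1) (hrho _ on2 hn.2)) ?_
  unfold eps base
  rw [div_le_iff₀ (by positivity)]
  have : 400 / (S.K2 : ℝ) * (1 / ((S.m0 (S.L.par k c) : ℝ) * S.q)) *
      (S.CQ * S.K2 * (S.q : ℝ) ^ 12 * ((S.m0 (S.L.par k c) : ℝ) / (S.q : ℝ) ^ 3)) =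
      400 * (S.CQ * (S.q : ℝ) ^ 8) := by
    field_simp
  rw [this]
  have h80 : 0 ≤ (S.q : ℝ) ^ 8 := by positivity
  have : (S.q : ℝ) ^ 8 ≤ S.CQ * (S.q : ℝ) ^ 8 := by nlinarith
  linarith

/-- (g5) -/
lemma gam_cold {k : ZMod 3} {c : F} (hc : S.chn k c) (hx : ¬ S.exC k c) (hl : S.light k c)
    (hn : ¬ S.hot (S.q ^ 10) k c) :
    M.dg (S.L.par k c) < S.q ^ 10 ∧ S.gam k c ≤ S.eps * (1 / (S.q : ℝ) ^ 12) := by
  have hb := S.base_pos
  have hq := S.q_pos
  have hq1 := S.q_one
  have hC := S.CQ_one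
  have hK := S.K2_pos
  have hco := hc.1.1
  obtain ⟨on1, on2⟩ := S.on_face (k := k) hco
  unfold hot at hn
  push Not at hn
  have hown : ∀ v, (∃ d, M.vt d = v ∧ M.fc d = S.L.par k c) →
      v ∉ M.fgn S.own (S.q ^ 10) (S.L.par k c) → S.q ^ 10 ≤ M.dg (S.own v) →
      S.own v = S.L.par k c := by
    intro v hv hv' h
    by_contra hne
    apply hv'
    simp only [PMap.fgn, Finset.mem_filter, Finset.mem_univ, true_and]
    exact ⟨hv, hne, h⟩
  have hsmall : M.dg (S.L.par k c) < S.q ^ 10 := by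
    by_contra hcon
    push Not at hcon
    apply hx
    refine ⟨hc, hcon, ⟨?_, ?_⟩, hl.2⟩
    · apply hown _ on1 hn.1
      obtain ⟨d, hd, hd'⟩ := on1
      have := S.hmax d
      rw [hd, hd'] at this
      exact hcon.trans this
    · apply hown _ on2 hn.2
      obtain ⟨d, hd, hd'⟩ := on2
      have := S.hmax d
      rw [hd, hd'] at this
      exact hcon.trans this
  have hrho : ∀ v, (∃ d, M.vt d = v ∧ M.fc d = S.L.par k c) →
      v ∉ M.fgn S.own (S.q ^ 10) (S.L.par k c) → S.rho v ≤ 1 := by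
    intro v hv hv'
    unfold rho
    split_ifs with h10
    · have := hown v hv hv' h10
      rw [this] at h10
      omega
    · exact le_rfl
  refine ⟨hsmall, ?_⟩
  refine le_trans (S.gam_le_aux (r := 1) (l := S.base) hb (by positivity)
    (hrho _ on1 hn.1) (hrho _ on2 hn.2) ?_) ?_
  · have h1 := S.Llb_ge_N0 k c
    have h2 := S.base_le_N0 c
    linarith
  · unfold eps base
    rw [div_le_iff₀ (by positivity)]
    have : 400 / (S.K2 : ℝ) * (1 / (S.q : ℝ) ^ 12) * (S.CQ * S.K2 * (S.q : ℝ) ^ 12) =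
        400 * S.CQ := by
      field_simp
    rw [this]
    linarith

/-- pointwise bound of the required gaps -/
lemma gam_le_pt {k : ZMod 3} {f c : F} (hf : f ≠ o) (hc : c ∈ S.L.kids k f) :
    S.gam k c ≤ (if c = S.hv k f then S.eps * th ^ (Nat.log 2 (S.B k f)) else 0) +
      (if S.hot (S.q ^ 13) k c then
        S.eps * (if S.m1 f ≤ 6 then th ^ (Nat.log 2 (S.B k f)) else 1 / (S.m1 f * S.q)) else 0) +
      (if S.hot (S.q ^ 10) k c then S.eps * (1 / (S.m0 f * S.q)) else 0) +
      (if M.dg f < S.q ^ 10 then S.eps * (1 / (S.q : ℝ) ^ 12) else 0) := by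
  rw [S.mem_kids] at hc
  obtain ⟨hpar, hco⟩ := hc
  have ht := th_pos
  have he := S.eps_pos
  have hq := S.q_pos
  have p1 : 0 ≤ (if c = S.hv k f then S.eps * th ^ (Nat.log 2 (S.B k f)) else 0) := by
    split_ifs <;> positivity
  have p2 : 0 ≤ (if S.hot (S.q ^ 13) k c then
        S.eps * (if S.m1 f ≤ 6 then th ^ (Nat.log 2 (S.B k f)) else 1 / (S.m1 f * S.q)) else 0) := by
    split_ifs <;> positivity
  have p3 : 0 ≤ (if S.hot (S.q ^ 10) k c then S.eps * (1 / (S.m0 f * (S.q : ℝ))) else 0) := by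
    split_ifs <;> positivity
  have p4 : 0 ≤ (if M.dg f < S.q ^ 10 then S.eps * (1 / (S.q : ℝ) ^ 12) else 0) := by
    split_ifs <;> positivity
  by_cases hx : S.chn k c ∧ ¬ S.exC k c
  · obtain ⟨hch, hex⟩ := hx
    by_cases hh : c = S.hv k f
    · rw [if_pos hh] at p1 ⊢
      have h1 := S.gam_le_size k c
      have hsz : (0 : ℝ) < (S.T k).size c := by exact_mod_cast (S.T k).size_pos c
      have h2 : S.eps / (S.T k).size c ≤ S.eps * th ^ (Nat.log 2 (S.B k f)) := by
        rw [div_eq_mul_inv]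
        apply mul_le_mul_of_nonneg_left _ he.le
        have hB : S.B k f ≤ (S.T k).size c := by
          have := S.B_le_heavy (k := k) hco
          rw [hpar, ← hh] at this
          exact this
        have hpow : 2 ^ (Nat.log 2 (S.B k f)) ≤ (S.T k).size c := by
          by_cases hB0 : S.B k f = 0
          · rw [hB0]
            simp
            exact (S.T k).size_pos c
          · exact (Nat.pow_log_le_self 2 hB0).trans hB
        have hpow' : (2 : ℝ) ^ (Nat.log 2 (S.B k f)) ≤ (S.T k).size c := by exact_mod_cast hpow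
        calc ((S.T k).size c : ℝ)⁻¹ ≤ ((2 : ℝ) ^ (Nat.log 2 (S.B k f)))⁻¹ :=
              inv_anti₀ (by positivity) hpow'
          _ = (1 / 2 : ℝ) ^ (Nat.log 2 (S.B k f)) := by rw [one_div, inv_pow]
          _ ≤ th ^ (Nat.log 2 (S.B k f)) := pow_le_pow_left₀ (by norm_num) th_half.le _
      linarith
    · have hl : S.light k c := ⟨hco, by rw [T_par, hpar]; exact hh⟩
      by_cases h1 : S.hot (S.q ^ 13) k c
      · rw [if_pos h1] at p2 ⊢
        by_cases hm : S.m1 f ≤ 6
        · have := S.gam_hot1_few hch hl h1 (by rw [hpar]; exact hm)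
          rw [hpar] at this
          rw [if_pos hm]
          linarith
        · have := S.gam_hot1_many hch hl h1 (by rw [hpar]; exact hm)
          rw [hpar] at this
          rw [if_neg hm]
          linarith
      · by_cases h0 : S.hot (S.q ^ 10) k c
        · have := S.gam_hot0 hch hl h1 h0
          rw [hpar] at this
          rw [if_pos h0]
          linarith
        · obtain ⟨g1, g2⟩ := S.gam_cold hch hex hl h0
          rw [hpar] at g1
          rw [if_pos g1]
          linarith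
  · have : S.gam k c = 0 := by
      unfold gam
      rw [if_neg hx]
    rw [this]
    linarith

/-- The total required gap. -/
theorem sum_gam_le (k : ZMod 3) {f : F} (hf : f ≠ o) :
    ∑ c ∈ S.L.kids k f, S.gam k c ≤ 18 * S.eps * S.phi k f := by
  have ht := th_pos
  have he := S.eps_pos
  have hq := S.q_pos
  have hq1 := S.q_one
  set b := th ^ (Nat.log 2 (S.B k f)) with hb
  have hb0 : 0 < b := by positivity
  have hphi1 : b ≤ S.phi k f := by
    unfold phi
    have : 0 ≤ th ^ (24 * S.t - Nat.log 2 ((S.T k).size f)) := by positivity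
    linarith
  have hphi2 : 1 / (S.q : ℝ) ≤ S.phi k f := S.inv_q_le_phi (S.B_le_size k f)
  have hcount : ∀ K : ℕ, ∀ y : ℝ, 0 ≤ y →
      ∑ c ∈ S.L.kids k f, (if S.hot K k c then y else 0) ≤ 2 * (M.fgn S.own K f).card * y := by
    intro K y hy
    rw [← Finset.sum_filter, Finset.sum_const, nsmul_eq_mul]
    have h1 : (((S.L.kids k f).filter fun c => S.hot K k c).card : ℝ) ≤
        2 * (M.fgn S.own K f).card := by exact_mod_cast S.card_hot_le K k f
    exact mul_le_mul_of_nonneg_right h1 hy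
  have s1 : ∑ c ∈ S.L.kids k f, (if c = S.hv k f then S.eps * b else 0) ≤ S.eps * b := by
    rw [Finset.sum_ite_eq']
    split_ifs
    · exact le_rfl
    · positivity
  have s2 : ∑ c ∈ S.L.kids k f, (if S.hot (S.q ^ 13) k c then
        S.eps * (if S.m1 f ≤ 6 then b else 1 / (S.m1 f * S.q)) else 0) ≤
        S.eps * (12 * b + 2 * (1 / (S.q : ℝ))) := by
    refine le_trans (hcount _ _ (by split_ifs <;> positivity)) ?_
    show 2 * ((S.m1 f : ℕ) : ℝ) * _ ≤ _
    split_ifs with hm
    · have : (S.m1 f : ℝ) ≤ 6 := by exact_mod_cast hm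
      have h2 : (S.m1 f : ℝ) * (S.eps * b) ≤ 6 * (S.eps * b) :=
        mul_le_mul_of_nonneg_right this (by positivity)
      have h3 : 0 ≤ S.eps * (1 / (S.q : ℝ)) := by positivity
      nlinarith
    · have hm' : (0 : ℝ) < S.m1 f := by
        have : 0 < S.m1 f := by omega
        exact_mod_cast this
      have : 2 * (S.m1 f : ℝ) * (S.eps * (1 / (S.m1 f * S.q))) = S.eps * (2 * (1 / (S.q : ℝ))) := by
        field_simp
      rw [this]
      have h3 : 0 ≤ S.eps * b := by positivity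
      nlinarith
  have s3 : ∑ c ∈ S.L.kids k f, (if S.hot (S.q ^ 10) k c then S.eps * (1 / (S.m0 f * S.q)) else 0) ≤
      S.eps * (2 * (1 / (S.q : ℝ))) := by
    refine le_trans (hcount _ _ (by positivity)) ?_
    show 2 * ((S.m0 f : ℕ) : ℝ) * _ ≤ _
    by_cases hm : S.m0 f = 0
    · rw [hm]
      simp
      positivity
    · have hm' : (0 : ℝ) < S.m0 f := by
        have : 0 < S.m0 f := Nat.pos_of_ne_zero hm
        exact_mod_cast this
      apply le_of_eq
      field_simp
  have s4 : ∑ c ∈ S.L.kids k f, (if M.dg f < S.q ^ 10 then S.eps * (1 / (S.q : ℝ) ^ 12) else 0) ≤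
      S.eps * (1 / (S.q : ℝ)) := by
    rw [Finset.sum_const, nsmul_eq_mul]
    split_ifs with hd
    · have h1 : ((S.L.kids k f).card : ℝ) ≤ (S.q : ℝ) ^ 10 := by
        have := (S.card_kids_le_dg k f).trans hd.le
        exact_mod_cast this
      calc ((S.L.kids k f).card : ℝ) * (S.eps * (1 / (S.q : ℝ) ^ 12))
          ≤ (S.q : ℝ) ^ 10 * (S.eps * (1 / (S.q : ℝ) ^ 12)) :=
            mul_le_mul_of_nonneg_right h1 (by positivity)
        _ = S.eps * (1 / (S.q : ℝ) ^ 2) := by field_simp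
        _ ≤ S.eps * (1 / (S.q : ℝ)) := by
            apply mul_le_mul_of_nonneg_left _ he.le
            apply one_div_le_one_div_of_le hq
            nlinarith
    · simp
      positivity
  calc ∑ c ∈ S.L.kids k f, S.gam k c ≤ ∑ c ∈ S.L.kids k f,
      ((if c = S.hv k f then S.eps * b else 0) +
      (if S.hot (S.q ^ 13) k c then
        S.eps * (if S.m1 f ≤ 6 then b else 1 / (S.m1 f * S.q)) else 0) +
      (if S.hot (S.q ^ 10) k c then S.eps * (1 / (S.m0 f * S.q)) else 0) +
      (if M.dg f < S.q ^ 10 then S.eps * (1 / (S.q : ℝ) ^ 12) else 0)) :=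
        Finset.sum_le_sum fun c hc => S.gam_le_pt hf hc
    _ ≤ S.eps * b + S.eps * (12 * b + 2 * (1 / (S.q : ℝ))) + S.eps * (2 * (1 / (S.q : ℝ))) +
        S.eps * (1 / (S.q : ℝ)) := by
        rw [Finset.sum_add_distrib, Finset.sum_add_distrib, Finset.sum_add_distrib]
        linarith
    _ = S.eps * (13 * b + 5 * (1 / (S.q : ℝ))) := by ring
    _ ≤ S.eps * (13 * S.phi k f + 5 * S.phi k f) := by
        apply mul_le_mul_of_nonneg_left _ he.le
        linarith
    _ = 18 * S.eps * S.phi k f := by ring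

end Dat

end P8ffccf

end
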