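import Pool.Agent.Lib.P8ffccf.Net
import Pool.Agent.Lib.P8ffccf.Count

/-! # Foreign vertices of a face -/

set_option linter.unusedVariables false

noncomputable section

namespace P8ffccf

open Classical Finset

variable {V F D : Type} [Fintype V] [Fintype F] [Fintype D]

namespace PMap

lemma mem_fgn {M : PMap V F D} {own : V → F} {K : ℕ} {f : F} {v : V} :
    v ∈ M.fgn own K f ↔ (∃ d, M.vt d = v ∧ M.fc d = f) ∧ own v ≠ f ∧ K ≤ M.dg (own v) := by
  simp [fgn]

/-- every owner owns at most two foreign vertices of `f` -/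
lemma fgn_le_owners {M : PMap V F D} (H : M.Three) (own : V → F)
    (hown : ∀ v, ∃ d, M.vt d = v ∧ M.fc d = own v) (K : ℕ) (f : F) :
    (M.fgn own K f).card ≤ 2 * ((M.fgn own K f).image own).card := by
  apply Finset.card_le_mul_card_image
  intro g hg
  by_contra hcon
  push Not at hcon
  obtain ⟨a, ha, b, hb, c, hc, hab, hac, hbc⟩ := Finset.two_lt_card.1 hcon
  rw [Finset.mem_filter, mem_fgn] at ha hb hc
  obtain ⟨⟨⟨a1, a2, a3⟩, a4, a5⟩, a6⟩ := ha
  obtain ⟨⟨⟨b1, b2, b3⟩, b4, b5⟩, b6⟩ := hb
  obtain ⟨⟨⟨c1, c2, c3⟩, c4, c5⟩, c6⟩ := hc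
  obtain ⟨x, x1, x2⟩ := hown a
  obtain ⟨y, y1, y2⟩ := hown b
  obtain ⟨z, z1, z2⟩ := hown c
  have key := H.three_common (a1 := a1) (b1 := b1) (c1 := c1) (a2 := x) (b2 := y) (c2 := z)
    (a2.trans x1.symm) (b2.trans y1.symm) (c2.trans z1.symm) (a3.trans b3.symm)
    (a3.trans c3.symm) (by rw [x2, y2, a6, b6]) (by rw [x2, z2, a6, c6])
    (by rw [a3, x2]; exact a4.symm)
  rw [a2, b2, c2] at key
  rcases key with h | h | h
  · exact hab h
  · exact hac h
  · exact hbc h

lemma fgn_le_dg (M : PMap V F D) (own : V → F) (K : ℕ) (f : F) :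
    (M.fgn own K f).card ≤ M.dg f := by
  have hsub : M.fgn own K f ⊆ (univ.filter fun d => M.fc d = f).image M.vt := by
    intro v hv
    rw [mem_fgn] at hv
    obtain ⟨⟨d, h1, h2⟩, _⟩ := hv
    rw [Finset.mem_image]
    exact ⟨d, by simpa using h2, h1⟩
  exact (Finset.card_le_card hsub).trans Finset.card_image_le

theorem fgn_sq {M : PMap V F D} (H : M.Three) (own : V → F)
    (hown : ∀ v, ∃ d, M.vt d = v ∧ M.fc d = own v)
    (hmax : ∀ d, M.dg (M.fc d) ≤ M.dg (own (M.vt d))) (K : ℕ) (f : F) :
    (M.fgn own K f).card ^ 2 ≤ 2 * Fintype.card D := by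
  have h1 := fgn_le_owners H own hown K f
  have h2 := fgn_le_dg M own K f
  have h3 : ((M.fgn own K f).image own).card * M.dg f ≤ Fintype.card D := by
    rw [← M.sum_dg, ← smul_eq_mul]
    calc ((M.fgn own K f).image own).card • M.dg f ≤ ∑ g ∈ (M.fgn own K f).image own, M.dg g := by
          apply Finset.card_nsmul_le_sum
          intro g hg
          rw [Finset.mem_image] at hg
          obtain ⟨v, hv, rfl⟩ := hg
          rw [mem_fgn] at hv
          obtain ⟨⟨d, e1, e2⟩, _⟩ := hv
          have := hmax d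
          rwa [e1, e2] at this
      _ ≤ ∑ g, M.dg g := Finset.sum_le_sum_of_subset (Finset.subset_univ _)
  calc (M.fgn own K f).card ^ 2 = (M.fgn own K f).card * (M.fgn own K f).card := by ring
    _ ≤ (2 * ((M.fgn own K f).image own).card) * M.dg f := Nat.mul_le_mul h1 h2
    _ = 2 * (((M.fgn own K f).image own).card * M.dg f) := by ring
    _ ≤ 2 * Fintype.card D := Nat.mul_le_mul_left 2 h3

/-- the corners at a foreign vertex -/
def fcor (M : PMap V F D) (own : V → F) (B C : Finset F) : Finset D :=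
  univ.filter fun d => own (M.vt d) ∈ B ∧ M.fc d ∈ C ∧ own (M.vt d) ≠ M.fc d

/-- unordered pairs of faces -/
def fsym (M : PMap V F D) (own : V → F) (B C : Finset F) : Finset (Sym2 F) :=
  (M.fcor own B C).image fun d => s(M.fc d, own (M.vt d))

/-- ordered pairs of faces -/
def fprs (M : PMap V F D) (own : V → F) (B C : Finset F) : Finset (F × F) :=
  (M.fcor own B C).image fun d => (M.fc d, own (M.vt d))

lemma fsym_card {M : PMap V F D} (H : M.Three) (own : V → F)
    (hown : ∀ v, ∃ d, M.vt d = v ∧ M.fc d = own v) (B C : Finset F) :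
    (M.fsym own B C).card ≤ 3 * (B ∪ C).card := by
  have hch : ∀ t : M.fsym own B C, ∃ d, d ∈ M.fcor own B C ∧ s(M.fc d, own (M.vt d)) = t.1 := by
    intro t
    have := t.2
    unfold fsym at this
    rw [Finset.mem_image] at this
    exact this
  choose ch h1 h2 using hch
  have hinj : Function.Injective ch := by
    intro t t' h
    apply Subtype.ext
    rw [← h2 t, ← h2 t', h]
  have hc : (univ.image ch).card = (M.fsym own B C).card := by
    rw [Finset.card_image_of_injective _ hinj, Finset.card_univ, Fintype.card_coe]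
  rw [← hc]
  apply planar_count M own B C (univ.image ch)
  · exact fun d d' h h' => H.corner_unique h h'
  · exact hown
  · intro d hd
    rw [Finset.mem_image] at hd
    obtain ⟨t, _, rfl⟩ := hd
    have := h1 t
    simpa [fcor] using this
  · intro d hd d' hd' h
    rw [Finset.mem_image] at hd hd'
    obtain ⟨t, _, rfl⟩ := hd
    obtain ⟨t', _, rfl⟩ := hd'
    rw [h2, h2] at h
    rw [Subtype.ext h]

lemma image_fprs (M : PMap V F D) (own : V → F) (B C : Finset F) :
    (M.fprs own B C).image (fun p => s(p.1, p.2)) = M.fsym own B C := by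
  unfold fprs fsym
  rw [Finset.image_image]
  rfl

lemma fprs_card_two (M : PMap V F D) (own : V → F) (B C : Finset F) :
    (M.fprs own B C).card ≤ 2 * (M.fsym own B C).card := by
  rw [← image_fprs]
  apply Finset.card_le_mul_card_image
  intro t _
  induction t using Sym2.inductionOn with
  | hf x y =>
    have hsub : (M.fprs own B C).filter (fun p => s(p.1, p.2) = s(x, y)) ⊆ {(x, y), (y, x)} := by
      intro p hp
      rw [Finset.mem_filter] at hp
      have h := hp.2
      rw [Sym2.eq_iff] at h
      rw [Finset.mem_insert, Finset.mem_singleton]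
      rcases h with ⟨h1, h2⟩ | ⟨h1, h2⟩
      · left; exact Prod.ext h1 h2
      · right; exact Prod.ext h1 h2
    exact (Finset.card_le_card hsub).trans Finset.card_le_two

lemma fprs_card_one (M : PMap V F D) (own : V → F) (B C : Finset F) (hd : Disjoint B C) :
    (M.fprs own B C).card = (M.fsym own B C).card := by
  rw [← image_fprs, Finset.card_image_of_injOn]
  intro p hp q hq h
  have hB : ∀ r ∈ (M.fprs own B C : Set (F × F)), r.1 ∈ C ∧ r.2 ∈ B := by
    intro r hr
    rw [Finset.mem_coe] at hr
    unfold fprs fcor at hr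
    rw [Finset.mem_image] at hr
    obtain ⟨d, hd, rfl⟩ := hr
    simp only [Finset.mem_filter, Finset.mem_univ, true_and] at hd
    exact ⟨hd.2.1, hd.1⟩
  have h1 := hB p hp
  have h2 := hB q hq
  simp only [Sym2.eq_iff] at h
  rcases h with ⟨a, b⟩ | ⟨a, b⟩
  · exact Prod.ext a b
  · exfalso
    rw [Finset.disjoint_left] at hd
    exact hd (b ▸ h1.2) h2.1

/-- the number of owners of foreign vertices -/
def own_num (M : PMap V F D) (own : V → F) (K : ℕ) (f : F) : ℕ :=
  ((M.fgn own K f).image own).card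

lemma sum_own_num (M : PMap V F D) (own : V → F) (K : ℕ) (B C : Finset F)
    (hB : ∀ g, g ∈ B ↔ K ≤ M.dg g) :
    ∑ f ∈ C, M.own_num own K f = (M.fprs own B C).card := by
  have h : ∀ p ∈ M.fprs own B C, p.1 ∈ C := by
    intro r hr
    unfold fprs fcor at hr
    rw [Finset.mem_image] at hr
    obtain ⟨d, hd, rfl⟩ := hr
    simp only [Finset.mem_filter, Finset.mem_univ, true_and] at hd
    exact hd.2.1
  rw [Finset.card_eq_sum_card_fiberwise h]
  apply Finset.sum_congr rfl
  intro f hf
  unfold own_num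
  apply Finset.card_bij (fun g _ => (f, g))
  · intro g hg
    rw [Finset.mem_image] at hg
    obtain ⟨v, hv, rfl⟩ := hg
    rw [mem_fgn] at hv
    obtain ⟨⟨d, e1, e2⟩, e3, e4⟩ := hv
    rw [Finset.mem_filter]
    refine ⟨?_, rfl⟩
    unfold fprs fcor
    rw [Finset.mem_image]
    refine ⟨d, ?_, by rw [e1, e2]⟩
    simp only [Finset.mem_filter, Finset.mem_univ, true_and]
    rw [e1, e2, hB]
    exact ⟨e4, hf, e3⟩
  · intro g _ g' _ h
    exact (Prod.ext_iff.1 h).2
  · intro p hp
    rw [Finset.mem_filter] at hp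
    obtain ⟨hp, rfl⟩ := hp
    unfold fprs fcor at hp
    rw [Finset.mem_image] at hp
    obtain ⟨d, hd, rfl⟩ := hp
    simp only [Finset.mem_filter, Finset.mem_univ, true_and] at hd
    refine ⟨own (M.vt d), ?_, rfl⟩
    rw [Finset.mem_image]
    refine ⟨M.vt d, ?_, rfl⟩
    rw [mem_fgn]
    exact ⟨⟨d, rfl, rfl⟩, hd.2.2, (hB _).1 hd.1⟩

theorem fgn_sum {M : PMap V F D} (H : M.Three) (own : V → F)
    (hown : ∀ v, ∃ d, M.vt d = v ∧ M.fc d = own v)
    (hmax : ∀ d, M.dg (M.fc d) ≤ M.dg (own (M.vt d))) (K : ℕ) :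
    K * ∑ f with 7 ≤ (M.fgn own K f).card, (M.fgn own K f).card ≤ 36 * Fintype.card D := by
  set B : Finset F := univ.filter fun g => K ≤ M.dg g with hBdef
  have hB : ∀ g, g ∈ B ↔ K ≤ M.dg g := by simp [hBdef]
  set C : Finset F := univ.filter fun f => f ∉ B ∧ 4 ≤ M.own_num own K f with hCdef
  have hdisj : Disjoint B C := by
    rw [Finset.disjoint_left]
    intro g hg hg'
    simp only [hCdef, Finset.mem_filter, Finset.mem_univ, true_and] at hg'
    exact hg'.1 hg
  -- large faces
  have hKB : K * B.card ≤ Fintype.card D := by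
    rw [← M.sum_dg, mul_comm, ← smul_eq_mul]
    exact (Finset.card_nsmul_le_sum B _ K (fun g hg => (hB g).1 hg)).trans
      (Finset.sum_le_sum_of_subset (Finset.subset_univ _))
  -- first part
  have h1 : ∑ f ∈ C, M.own_num own K f ≤ 12 * B.card := by
    have e1 := sum_own_num M own K B C hB
    have e2 := fprs_card_one M own B C hdisj
    have e3 := fsym_card H own hown B C
    have e4 : 4 * C.card ≤ ∑ f ∈ C, M.own_num own K f := by
      rw [mul_comm, ← smul_eq_mul]
      apply Finset.card_nsmul_le_sum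
      intro f hf
      simp only [hCdef, Finset.mem_filter, Finset.mem_univ, true_and] at hf
      exact hf.2
    have e5 : (B ∪ C).card ≤ B.card + C.card := Finset.card_union_le _ _
    omega
  have h2 : ∑ f ∈ B, M.own_num own K f ≤ 6 * B.card := by
    have e1 := sum_own_num M own K B B hB
    have e2 := fprs_card_two M own B B
    have e3 := fsym_card H own hown B B
    rw [Finset.union_self] at e3
    omega
  have h3 : ∑ f with 7 ≤ (M.fgn own K f).card, (M.fgn own K f).card ≤
      ∑ f ∈ B ∪ C, 2 * M.own_num own K f := by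
    have hsub : (univ.filter fun f => 7 ≤ (M.fgn own K f).card) ⊆ B ∪ C := by
      intro f hf
      simp only [Finset.mem_filter, Finset.mem_univ, true_and] at hf
      have := fgn_le_owners H own hown K f
      rw [Finset.mem_union]
      by_cases hfB : f ∈ B
      · exact Or.inl hfB
      · right
        simp only [hCdef, Finset.mem_filter, Finset.mem_univ, true_and]
        refine ⟨hfB, ?_⟩
        unfold own_num
        omega
    calc ∑ f with 7 ≤ (M.fgn own K f).card, (M.fgn own K f).card
        ≤ ∑ f with 7 ≤ (M.fgn own K f).card, 2 * M.own_num own K f :=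
          Finset.sum_le_sum fun f _ => fgn_le_owners H own hown K f
      _ ≤ _ := Finset.sum_le_sum_of_subset hsub
  have h4 : ∑ f ∈ B ∪ C, 2 * M.own_num own K f ≤ 36 * B.card := by
    rw [Finset.sum_union hdisj, ← Finset.mul_sum, ← Finset.mul_sum]
    omega
  calc K * ∑ f with 7 ≤ (M.fgn own K f).card, (M.fgn own K f).card
      ≤ K * (36 * B.card) := Nat.mul_le_mul_left K (h3.trans h4)
    _ = 36 * (K * B.card) := by ring
    _ ≤ 36 * Fintype.card D := Nat.mul_le_mul_left 36 hKB

end PMap

end P8ffccf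

end
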