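import Pool.Agent.Lib.P8ffccf.Est2
import Pool.Agent.Lib.P8ffccf.Foreign

/-! # Estimates: the total length -/

set_option linter.unusedSimpArgs false
set_option linter.unusedVariables false
set_option linter.unusedSectionVars false
set_option linter.style.longLine false

noncomputable section

namespace P8ffccf

open Classical Finset

variable {V F D : Type} [Fintype V] [Fintype F] [Fintype D]

namespace Dat

variable {M : PMap V F D} {o : F} (S : Dat M o)

lemma card_F_le : (Fintype.card F : ℝ) ≤ (S.q : ℝ) ^ 24 := by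
  have h := S.hJ
  have e : S.q ^ 24 = 2 ^ (24 * S.t) := by
    unfold q
    rw [← pow_mul, mul_comm]
  rw [← e] at h
  exact_mod_cast h

lemma card_D_le : Fintype.card D ≤ 6 * S.q ^ 24 := by
  have h := S.hJ
  have e : S.q ^ 24 = 2 ^ (24 * S.t) := by
    unfold q
    rw [← pow_mul, mul_comm]
  rw [← e] at h
  have h1 : 3 * Fintype.card V ≤ Fintype.card D := by
    rw [← M.sum_vg]
    calc 3 * Fintype.card V = ∑ f : V, 3 := by simp [mul_comm]
      _ ≤ ∑ f, M.vg f := Finset.sum_le_sum fun f _ => S.H.three_le_vg f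
  have h2 := M.euler
  omega

lemma fgn_le (K : ℕ) (f : F) : (M.fgn S.own K f).card ≤ 4 * S.q ^ 12 := by
  have h1 := PMap.fgn_sq S.H S.own S.hown S.hmax K f
  have h2 := S.card_D_le
  have h3 : (M.fgn S.own K f).card ^ 2 ≤ (4 * S.q ^ 12) ^ 2 := by
    have : (4 * S.q ^ 12) ^ 2 = 16 * S.q ^ 24 := by ring
    omega
  exact (Nat.pow_le_pow_iff_left (by norm_num)).mp h3

/-- sums over all faces grouped by the parent -/
lemma sum_by_parent (k : ZMod 3) (g : F → ℝ) (hg : g o = 0) :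
    ∑ c, g c = ∑ f, ∑ c ∈ S.L.kids k f, g c := by
  have h1 : ∑ f, ∑ c ∈ S.L.kids k f, g c =
      ∑ f, ∑ c with S.L.par k c = f, (if c ≠ o then g c else 0) := by
    apply Finset.sum_congr rfl
    intro f _
    unfold PMap.Lab.kids
    rw [← Finset.filter_filter, Finset.sum_filter]
  have h2 := Finset.sum_fiberwise (Finset.univ : Finset F) (S.L.par k)
    (fun c => if c ≠ o then g c else 0)
  rw [h1]
  refine Eq.trans ?_ h2.symm
  apply Finset.sum_congr rfl
  intro c _
  split_ifs with h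
  · rfl
  · push Not at h
    rw [h, hg]

def e1 (k : ZMod 3) (c : F) : ℝ := if (c ≠ o ∧ S.light k c) ∧ S.hot (S.q ^ 13) k c ∧
    S.m1 (S.L.par k c) ≤ 6 then (th⁻¹) ^ (Nat.log 2 (S.B k (S.L.par k c))) else 0
def e2 (k : ZMod 3) (c : F) : ℝ := if c ≠ o ∧ S.hot (S.q ^ 13) k c ∧
    7 ≤ S.m1 (S.L.par k c) then (S.m1 (S.L.par k c) : ℝ) * S.q else 0
def e3 (k : ZMod 3) (c : F) : ℝ := if c ≠ o ∧ S.hot (S.q ^ 10) k c
    then (S.m0 (S.L.par k c) : ℝ) / (S.q : ℝ) ^ 3 else 0

lemma ek_le (k : ZMod 3) (c : F) : S.ek k c ≤ S.e1 k c + S.e2 k c + S.e3 k c := by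
  have ht := th_pos
  have hq := S.q_pos
  have p1 : 0 ≤ S.e1 k c := by unfold e1; split_ifs <;> positivity
  have p2 : 0 ≤ S.e2 k c := by unfold e2; split_ifs <;> positivity
  have p3 : 0 ≤ S.e3 k c := by unfold e3; split_ifs <;> positivity
  unfold ek
  split_ifs with h1 h2 h3 h4
  · have : S.e1 k c = (th⁻¹) ^ (Nat.log 2 (S.B k (S.L.par k c))) := by
      unfold e1
      rw [if_pos ⟨⟨h1.1.1.1, h1.2⟩, h2, h3⟩]
    linarith
  · have : S.e2 k c = (S.m1 (S.L.par k c) : ℝ) * S.q := by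
      unfold e2
      rw [if_pos ⟨h1.1.1.1, h2, by omega⟩]
    linarith
  · have : S.e3 k c = (S.m0 (S.L.par k c) : ℝ) / (S.q : ℝ) ^ 3 := by
      unfold e3
      rw [if_pos ⟨h1.1.1.1, h4⟩]
    linarith
  · linarith
  · linarith

lemma sum_e1 (k : ZMod 3) : ∑ c, S.e1 k c ≤ 27 * (S.q : ℝ) ^ 24 := by
  have ht := th_pos
  have h0 : S.e1 k o = 0 := by
    unfold e1
    rw [if_neg]
    simp
  rw [S.sum_by_parent k _ h0]
  have hstep : ∀ f, ∑ c ∈ S.L.kids k f, S.e1 k c ≤
      12 * ∑ c ∈ S.L.kids k f, if S.light k c then (th⁻¹) ^ (Nat.log 2 ((S.T k).size c)) else 0 := by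
    intro f
    have hnn : 0 ≤ ∑ c ∈ S.L.kids k f,
        if S.light k c then (th⁻¹) ^ (Nat.log 2 ((S.T k).size c)) else 0 :=
      Finset.sum_nonneg fun c _ => by split_ifs <;> positivity
    by_cases hex : ∃ c ∈ S.L.kids k f, S.light k c
    · by_cases hm : S.m1 f ≤ 6
      · -- a largest light child
        obtain ⟨c0, hc0, hc0l⟩ := hex
        have hne : ((S.L.kids k f).filter fun c => S.light k c).Nonempty :=
          ⟨c0, Finset.mem_filter.mpr ⟨hc0, hc0l⟩⟩
        obtain ⟨c1, hc1, hc1B⟩ := Finset.exists_mem_eq_sup _ hne (S.T k).size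
        rw [Finset.mem_filter] at hc1
        have hb : (th⁻¹) ^ (Nat.log 2 (S.B k f)) ≤ ∑ c ∈ S.L.kids k f,
            if S.light k c then (th⁻¹) ^ (Nat.log 2 ((S.T k).size c)) else 0 := by
          have h1 : (if S.light k c1 then (th⁻¹) ^ (Nat.log 2 ((S.T k).size c1)) else 0) ≤
              ∑ c ∈ S.L.kids k f,
              if S.light k c then (th⁻¹) ^ (Nat.log 2 ((S.T k).size c)) else 0 :=
            Finset.single_le_sum (f := fun c => if S.light k c then
              (th⁻¹) ^ (Nat.log 2 ((S.T k).size c)) else 0)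
              (fun c _ => by split_ifs <;> positivity) hc1.1
          rw [if_pos hc1.2] at h1
          unfold B
          rw [hc1B]
          exact h1
        have hle : ∀ c ∈ S.L.kids k f, S.e1 k c ≤
            if S.hot (S.q ^ 13) k c then (th⁻¹) ^ (Nat.log 2 (S.B k f)) else 0 := by
          intro c hc
          have hp := (S.mem_kids.mp hc).1
          unfold e1
          rw [hp]
          split_ifs with a b
          · exact le_rfl
          · exact absurd a.2.1 b
          · positivity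
          · exact le_rfl
        refine (Finset.sum_le_sum hle).trans ?_
        rw [← Finset.sum_filter, Finset.sum_const, nsmul_eq_mul]
        have hcard : (((S.L.kids k f).filter fun c => S.hot (S.q ^ 13) k c).card : ℝ) ≤ 12 := by
          have h1 := S.card_hot_le (S.q ^ 13) k f
          have h2 : (M.fgn S.own (S.q ^ 13) f).card ≤ 6 := hm
          have h3 : ((S.L.kids k f).filter fun c => S.hot (S.q ^ 13) k c).card ≤ 12 := by omega
          exact_mod_cast h3
        calc _ ≤ 12 * (th⁻¹) ^ (Nat.log 2 (S.B k f)) :=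
              mul_le_mul_of_nonneg_right hcard (by positivity)
          _ ≤ _ := mul_le_mul_of_nonneg_left hb (by norm_num)
      · have : ∑ c ∈ S.L.kids k f, S.e1 k c = 0 := by
          apply Finset.sum_eq_zero
          intro c hc
          have hp := (S.mem_kids.mp hc).1
          unfold e1
          rw [hp, if_neg]
          rintro ⟨_, _, h⟩
          exact hm h
        rw [this]
        positivity
    · have : ∑ c ∈ S.L.kids k f, S.e1 k c = 0 := by
        apply Finset.sum_eq_zero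
        intro c hc
        unfold e1
        rw [if_neg]
        rintro ⟨⟨_, h⟩, _⟩
        exact hex ⟨c, hc, h⟩
      rw [this]
      positivity
  refine (Finset.sum_le_sum fun f _ => hstep f).trans ?_
  rw [← Finset.mul_sum]
  have h2 := S.sum_by_parent k
    (fun c => if S.light k c then (th⁻¹) ^ (Nat.log 2 ((S.T k).size c)) else 0) (by
      show (if S.light k o then _ else _) = (0 : ℝ)
      rw [if_neg]
      intro h
      exact h.1 rfl)
  rw [← h2, ← Finset.sum_filter]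
  have h3 := (S.T k).light_cost (S.hv k) (S.heavy' k) th th_half th_lt
  have h4 := S.card_F_le
  have h5 : 2 * th / (2 * th - 1) ≤ 9 / 4 := by unfold th; norm_num
  have h6 : (0 : ℝ) ≤ Fintype.card F := by positivity
  have h7 : ∑ c with S.light k c, (th⁻¹) ^ (Nat.log 2 ((S.T k).size c)) ≤
      9 / 4 * (S.q : ℝ) ^ 24 := by
    refine h3.trans ?_
    calc 2 * th / (2 * th - 1) * (Fintype.card F : ℝ) ≤ 9 / 4 * (Fintype.card F : ℝ) :=
          mul_le_mul_of_nonneg_right h5 h6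
      _ ≤ 9 / 4 * (S.q : ℝ) ^ 24 := by linarith
  linarith

lemma sum_hot_le (K : ℕ) (k : ZMod 3) (f : F) {y : ℝ} (hy : 0 ≤ y) :
    ∑ c ∈ S.L.kids k f, (if S.hot K k c then y else 0) ≤ 2 * (M.fgn S.own K f).card * y := by
  rw [← Finset.sum_filter, Finset.sum_const, nsmul_eq_mul]
  have h1 : (((S.L.kids k f).filter fun c => S.hot K k c).card : ℝ) ≤
      2 * (M.fgn S.own K f).card := by exact_mod_cast S.card_hot_le K k f
  exact mul_le_mul_of_nonneg_right h1 hy

/-- squares of the numbers of foreign vertices -/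
lemma sum_sq (K : ℕ) (hK : 0 < K) :
    (K : ℝ) * ∑ f with 7 ≤ (M.fgn S.own K f).card, ((M.fgn S.own K f).card : ℝ) ^ 2 ≤
      864 * (S.q : ℝ) ^ 36 := by
  have h1 := PMap.fgn_sum S.H S.own S.hown S.hmax K
  have h2 := S.card_D_le
  have h3 : (K : ℝ) * ∑ f with 7 ≤ (M.fgn S.own K f).card, ((M.fgn S.own K f).card : ℝ) ≤
      216 * (S.q : ℝ) ^ 24 := by
    have : K * ∑ f with 7 ≤ (M.fgn S.own K f).card, (M.fgn S.own K f).card ≤ 216 * S.q ^ 24 := by
      omega
    exact_mod_cast this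
  have h4 : ∑ f with 7 ≤ (M.fgn S.own K f).card, ((M.fgn S.own K f).card : ℝ) ^ 2 ≤
      (4 * (S.q : ℝ) ^ 12) * ∑ f with 7 ≤ (M.fgn S.own K f).card,
        ((M.fgn S.own K f).card : ℝ) := by
    rw [Finset.mul_sum]
    apply Finset.sum_le_sum
    intro f _
    rw [pow_two]
    have : ((M.fgn S.own K f).card : ℝ) ≤ 4 * (S.q : ℝ) ^ 12 := by exact_mod_cast S.fgn_le K f
    exact mul_le_mul_of_nonneg_right this (by positivity)
  have hq := S.q_pos
  calc (K : ℝ) * ∑ f with 7 ≤ (M.fgn S.own K f).card, ((M.fgn S.own K f).card : ℝ) ^ 2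
      ≤ (K : ℝ) * ((4 * (S.q : ℝ) ^ 12) * ∑ f with 7 ≤ (M.fgn S.own K f).card,
        ((M.fgn S.own K f).card : ℝ)) := mul_le_mul_of_nonneg_left h4 (by positivity)
    _ = (4 * (S.q : ℝ) ^ 12) * ((K : ℝ) * ∑ f with 7 ≤ (M.fgn S.own K f).card,
        ((M.fgn S.own K f).card : ℝ)) := by ring
    _ ≤ (4 * (S.q : ℝ) ^ 12) * (216 * (S.q : ℝ) ^ 24) :=
        mul_le_mul_of_nonneg_left h3 (by positivity)
    _ = 864 * (S.q : ℝ) ^ 36 := by ring

lemma sum_e2 (k : ZMod 3) : ∑ c, S.e2 k c ≤ 1728 * (S.q : ℝ) ^ 24 := by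
  have hq := S.q_pos
  have h0 : S.e2 k o = 0 := by
    unfold e2
    rw [if_neg]
    simp
  rw [S.sum_by_parent k _ h0]
  have hstep : ∀ f, ∑ c ∈ S.L.kids k f, S.e2 k c ≤
      if 7 ≤ (M.fgn S.own (S.q ^ 13) f).card then
        2 * (S.q : ℝ) * ((M.fgn S.own (S.q ^ 13) f).card : ℝ) ^ 2 else 0 := by
    intro f
    split_ifs with hm
    · have hle : ∀ c ∈ S.L.kids k f, S.e2 k c ≤
          if S.hot (S.q ^ 13) k c then ((S.m1 f : ℝ) * S.q) else 0 := by
        intro c hc
        have hp := (S.mem_kids.mp hc).1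
        unfold e2
        rw [hp]
        split_ifs with a b
        · exact le_rfl
        · exact absurd a.2.1 b
        · positivity
        · exact le_rfl
      refine (Finset.sum_le_sum hle).trans ((S.sum_hot_le _ k f (by positivity)).trans ?_)
      apply le_of_eq
      show 2 * ((M.fgn S.own (S.q ^ 13) f).card : ℝ) *
        (((M.fgn S.own (S.q ^ 13) f).card : ℝ) * S.q) = _
      ring
    · apply le_of_eq
      apply Finset.sum_eq_zero
      intro c hc
      have hp := (S.mem_kids.mp hc).1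
      unfold e2
      rw [hp, if_neg]
      rintro ⟨_, _, h⟩
      exact hm h
  refine (Finset.sum_le_sum fun f _ => hstep f).trans ?_
  rw [← Finset.sum_filter, ← Finset.mul_sum]
  have h1 := S.sum_sq (S.q ^ 13) (Nat.pos_of_ne_zero (by have := S.one_le_q; positivity))
  push_cast at h1
  have h13 : 0 < (S.q : ℝ) ^ 13 := by positivity
  have h2 : (S.q : ℝ) ^ 13 * (2 * (S.q : ℝ) * ∑ f with 7 ≤ (M.fgn S.own (S.q ^ 13) f).card,
      ((M.fgn S.own (S.q ^ 13) f).card : ℝ) ^ 2) ≤ (S.q : ℝ) ^ 13 * (1728 * (S.q : ℝ) ^ 24) := by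
    calc (S.q : ℝ) ^ 13 * (2 * (S.q : ℝ) * ∑ f with 7 ≤ (M.fgn S.own (S.q ^ 13) f).card,
      ((M.fgn S.own (S.q ^ 13) f).card : ℝ) ^ 2) = 2 * (S.q : ℝ) * ((S.q : ℝ) ^ 13 *
        ∑ f with 7 ≤ (M.fgn S.own (S.q ^ 13) f).card,
      ((M.fgn S.own (S.q ^ 13) f).card : ℝ) ^ 2) := by ring
      _ ≤ 2 * (S.q : ℝ) * (864 * (S.q : ℝ) ^ 36) := mul_le_mul_of_nonneg_left h1 (by positivity)
      _ = _ := by ring
  exact le_of_mul_le_mul_left h2 h13

lemma sum_e3 (k : ZMod 3) : ∑ c, S.e3 k c ≤ 1800 * (S.q : ℝ) ^ 24 := by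
  have hq := S.q_pos
  have hq1 := S.q_one
  have h0 : S.e3 k o = 0 := by
    unfold e3
    rw [if_neg]
    simp
  rw [S.sum_by_parent k _ h0]
  have hstep : ∀ f, ∑ c ∈ S.L.kids k f, S.e3 k c ≤
      72 + if 7 ≤ (M.fgn S.own (S.q ^ 10) f).card then
        2 / (S.q : ℝ) ^ 3 * ((M.fgn S.own (S.q ^ 10) f).card : ℝ) ^ 2 else 0 := by
    intro f
    have hle : ∀ c ∈ S.L.kids k f, S.e3 k c ≤
        if S.hot (S.q ^ 10) k c then ((S.m0 f : ℝ) / (S.q : ℝ) ^ 3) else 0 := by
      intro c hc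
      have hp := (S.mem_kids.mp hc).1
      unfold e3
      rw [hp]
      split_ifs with a b
      · exact le_rfl
      · exact absurd a.2 b
      · positivity
      · exact le_rfl
    have h1 : ∑ c ∈ S.L.kids k f, S.e3 k c ≤
        2 / (S.q : ℝ) ^ 3 * ((M.fgn S.own (S.q ^ 10) f).card : ℝ) ^ 2 := by
      refine (Finset.sum_le_sum hle).trans ((S.sum_hot_le _ k f (by positivity)).trans ?_)
      apply le_of_eq
      show 2 * ((M.fgn S.own (S.q ^ 10) f).card : ℝ) *
        (((M.fgn S.own (S.q ^ 10) f).card : ℝ) / (S.q : ℝ) ^ 3) = _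
      ring
    split_ifs with hm
    · linarith
    · have h2 : ((M.fgn S.own (S.q ^ 10) f).card : ℝ) ≤ 6 := by
        have : (M.fgn S.own (S.q ^ 10) f).card ≤ 6 := by omega
        exact_mod_cast this
      have h3 : ((M.fgn S.own (S.q ^ 10) f).card : ℝ) ^ 2 ≤ 36 := by
        have : (0 : ℝ) ≤ ((M.fgn S.own (S.q ^ 10) f).card : ℝ) := by positivity
        nlinarith
      have h4 : 2 / (S.q : ℝ) ^ 3 ≤ 2 := by
        rw [div_le_iff₀ (by positivity)]
        have : (1 : ℝ) ≤ (S.q : ℝ) ^ 3 := one_le_pow₀ hq1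
        linarith
      have h5 : 2 / (S.q : ℝ) ^ 3 * ((M.fgn S.own (S.q ^ 10) f).card : ℝ) ^ 2 ≤ 2 * 36 :=
        mul_le_mul h4 h3 (by positivity) (by norm_num)
      linarith
  refine (Finset.sum_le_sum fun f _ => hstep f).trans ?_
  rw [Finset.sum_add_distrib, ← Finset.sum_filter, ← Finset.mul_sum, Finset.sum_const,
    nsmul_eq_mul, Finset.card_univ]
  have hF := S.card_F_le
  have h1 := S.sum_sq (S.q ^ 10) (Nat.pos_of_ne_zero (by have := S.one_le_q; positivity))
  push_cast at h1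
  have h13 : 0 < (S.q : ℝ) ^ 13 := by positivity
  have h2 : (S.q : ℝ) ^ 13 * (2 / (S.q : ℝ) ^ 3 * ∑ f with 7 ≤ (M.fgn S.own (S.q ^ 10) f).card,
      ((M.fgn S.own (S.q ^ 10) f).card : ℝ) ^ 2) ≤ (S.q : ℝ) ^ 13 * (1728 * (S.q : ℝ) ^ 24) := by
    calc (S.q : ℝ) ^ 13 * (2 / (S.q : ℝ) ^ 3 * ∑ f with 7 ≤ (M.fgn S.own (S.q ^ 10) f).card,
      ((M.fgn S.own (S.q ^ 10) f).card : ℝ) ^ 2) = 2 * ((S.q : ℝ) ^ 10 *
        ∑ f with 7 ≤ (M.fgn S.own (S.q ^ 10) f).card,
      ((M.fgn S.own (S.q ^ 10) f).card : ℝ) ^ 2) := by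
          field_simp
      _ ≤ 2 * (864 * (S.q : ℝ) ^ 36) := mul_le_mul_of_nonneg_left h1 (by positivity)
      _ = 1728 * (S.q : ℝ) ^ 36 := by ring
      _ ≤ 1728 * (S.q : ℝ) ^ 37 := by
          apply mul_le_mul_of_nonneg_left _ (by norm_num)
          exact pow_le_pow_right₀ hq1 (by norm_num)
      _ = _ := by ring
  have h3 := le_of_mul_le_mul_left h2 h13
  linarith

/-- **Total length.** -/
theorem sum_N0 : ∑ c, S.N0 c ≤ 10700 * (S.CQ * S.K2 : ℝ) * (S.q : ℝ) ^ 36 := by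
  have hb := S.base_pos
  have hF := S.card_F_le
  have h1 : ∑ c, S.N0 c = S.base * ((Fintype.card F : ℝ) + ∑ k, ∑ c, S.ek k c) := by
    simp only [N0_eq]
    rw [← Finset.mul_sum, Finset.sum_add_distrib, Finset.sum_comm]
    simp
  have h2 : ∀ k, ∑ c, S.ek k c ≤ 3555 * (S.q : ℝ) ^ 24 := by
    intro k
    have := Finset.sum_le_sum (s := univ) fun c _ => S.ek_le k c
    rw [Finset.sum_add_distrib, Finset.sum_add_distrib] at this
    have a := S.sum_e1 k
    have b := S.sum_e2 k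
    have c := S.sum_e3 k
    linarith
  have h3 : ∑ k : ZMod 3, ∑ c, S.ek k c ≤ 3 * (3555 * (S.q : ℝ) ^ 24) := by
    calc ∑ k : ZMod 3, ∑ c, S.ek k c ≤ ∑ k : ZMod 3, 3555 * (S.q : ℝ) ^ 24 :=
          Finset.sum_le_sum fun k _ => h2 k
      _ = _ := by
          rw [Finset.sum_const, Finset.card_univ, ZMod.card]
          simp
  rw [h1]
  have h24 : 0 ≤ (S.q : ℝ) ^ 24 := by have := S.q_pos; positivity
  calc S.base * ((Fintype.card F : ℝ) + ∑ k, ∑ c, S.ek k c) ≤
      S.base * (10700 * (S.q : ℝ) ^ 24) := by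
        apply mul_le_mul_of_nonneg_left _ hb.le
        linarith
    _ = _ := by
        unfold base
        ring

end Dat

end P8ffccf

end
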