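import Pool.Agent.Lib.P8ffccf.Geo

/-! Heavy and light nodes of finite rooted trees: potentials. -/

noncomputable section

namespace P8ffccf

open Classical Finset

structure Forest (X : Type) [Fintype X] where
  par : X → X
  root : X
  par_root : par root = root
  acyc : ∀ x, ∃ i, par^[i] x = root

namespace Forest

variable {X : Type} [Fintype X] (T : Forest X)

/-- descendants of `x` including `x` -/
def desc (x : X) : Finset X := univ.filter (fun y => ∃ i, T.par^[i] y = x)

def size (x : X) : ℕ := (T.desc x).card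

/-- `h` selects a largest child of every node having children -/
def IsHeavy (h : X → X) : Prop := ∀ c, c ≠ T.root →
  h (T.par c) ≠ T.root ∧ T.par (h (T.par c)) = T.par c ∧ T.size c ≤ T.size (h (T.par c))

/-- light nodes -/
def Light (h : X → X) (c : X) : Prop := c ≠ T.root ∧ c ≠ h (T.par c)

theorem mem_desc {x y : X} : y ∈ T.desc x ↔ ∃ i, T.par^[i] y = x := by
  simp [desc]

theorem self_mem_desc (x : X) : x ∈ T.desc x := T.mem_desc.2 ⟨0, rfl⟩

theorem size_pos (x : X) : 0 < T.size x := Finset.card_pos.2 ⟨x, T.self_mem_desc x⟩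

theorem desc_trans {x y z : X} (h1 : x ∈ T.desc y) (h2 : y ∈ T.desc z) : x ∈ T.desc z := by
  obtain ⟨i, hi⟩ := T.mem_desc.1 h1
  obtain ⟨j, hj⟩ := T.mem_desc.1 h2
  refine T.mem_desc.2 ⟨j + i, ?_⟩
  rw [Function.iterate_add_apply, hi, hj]

theorem desc_par (x : X) : x ∈ T.desc (T.par x) := T.mem_desc.2 ⟨1, rfl⟩

/-- The depth. -/
def dep (x : X) : ℕ := Nat.find (T.acyc x)

theorem dep_root : T.dep T.root = 0 := (Nat.find_eq_zero _).2 rfl

theorem dep_par {c : X} (hc : c ≠ T.root) : T.dep c = T.dep (T.par c) + 1 := by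
  refine (Nat.find_eq_iff _).2 ⟨?_, ?_⟩
  · rw [Function.iterate_succ_apply]
    exact Nat.find_spec (T.acyc (T.par c))
  · intro n hn
    rcases n with - | n
    · exact hc
    · rw [Function.iterate_succ_apply]
      exact Nat.find_min (T.acyc (T.par c)) (by unfold dep at hn; omega)

theorem dep_iter {x : X} (hx : x ≠ T.root) : ∀ (i : ℕ) (y : X), T.par^[i] y = x →
    T.dep y = T.dep x + i := by
  intro i
  induction i with
  | zero => intro y h; simp only [Function.iterate_zero, id] at h; rw [h]; rfl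
  | succ i ih =>
    intro y h
    have hy : y ≠ T.root := by
      rintro rfl
      rw [Function.iterate_fixed T.par_root] at h
      exact hx h.symm
    rw [Function.iterate_succ_apply] at h
    rw [T.dep_par hy, ih _ h]
    omega

/-- Two nodes with a common descendant are comparable. -/
theorem chain {x c c' : X} (h : x ∈ T.desc c) (h' : x ∈ T.desc c') :
    c ∈ T.desc c' ∨ c' ∈ T.desc c := by
  obtain ⟨i, hi⟩ := T.mem_desc.1 h
  obtain ⟨j, hj⟩ := T.mem_desc.1 h'
  rcases le_total i j with hij | hij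
  · obtain ⟨k, rfl⟩ := Nat.exists_eq_add_of_le' hij
    left
    refine T.mem_desc.2 ⟨k, ?_⟩
    rw [← hi, ← Function.iterate_add_apply, hj]
  · obtain ⟨k, rfl⟩ := Nat.exists_eq_add_of_le' hij
    right
    refine T.mem_desc.2 ⟨k, ?_⟩
    rw [← hj, ← Function.iterate_add_apply, hi]

/-- A strict descendant of `c'` has its parent below `c'`. -/
theorem par_mem_desc {c c' : X} (h : c ∈ T.desc c') (hne : c ≠ c') : T.par c ∈ T.desc c' := by
  obtain ⟨i, hi⟩ := T.mem_desc.1 h
  rcases i with - | i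
  · exact absurd hi hne
  · exact T.mem_desc.2 ⟨i, by rw [← Function.iterate_succ_apply, hi]⟩

theorem desc_subset {c c' : X} (h : c ∈ T.desc c') : T.desc c ⊆ T.desc c' :=
  fun _ hx => T.desc_trans hx h

theorem size_mono {c c' : X} (h : c ∈ T.desc c') : T.size c ≤ T.size c' :=
  Finset.card_le_card (T.desc_subset h)

/-- Siblings have disjoint sets of descendants. -/
theorem sib {c c' y : X} (hc : c ≠ T.root) (hc' : c' ≠ T.root) (hp : T.par c = T.par c')
    (h : y ∈ T.desc c) (h' : y ∈ T.desc c') : c = c' := by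
  obtain ⟨i, hi⟩ := T.mem_desc.1 h
  obtain ⟨j, hj⟩ := T.mem_desc.1 h'
  have h1 := T.dep_iter hc i y hi
  have h2 := T.dep_iter hc' j y hj
  rw [T.dep_par hc] at h1
  rw [T.dep_par hc', ← hp] at h2
  obtain rfl : i = j := by omega
  rw [← hi, hj]

theorem size_light {h : X → X} (hh : T.IsHeavy h) {c : X} (hc : T.Light h c) :
    2 * T.size c ≤ T.size (T.par c) := by
  obtain ⟨h1, h2, h3⟩ := hh c hc.1
  have hd : Disjoint (T.desc c) (T.desc (h (T.par c))) := by
    rw [Finset.disjoint_left]
    intro y hy hy'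
    exact hc.2 (T.sib hc.1 h1 h2.symm hy hy')
  have hsub : T.desc c ∪ T.desc (h (T.par c)) ⊆ T.desc (T.par c) := by
    refine Finset.union_subset (T.desc_subset (T.desc_par c)) (T.desc_subset ?_)
    have := T.desc_par (h (T.par c))
    rwa [h2] at this
  have := Finset.card_le_card hsub
  rw [Finset.card_union_of_disjoint hd] at this
  unfold size at *
  omega

theorem log_light {h : X → X} (hh : T.IsHeavy h) {c : X} (hc : T.Light h c) :
    Nat.log 2 (T.size c) + 1 ≤ Nat.log 2 (T.size (T.par c)) := by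
  rw [← Nat.log_mul_base (by norm_num) (T.size_pos c).ne', mul_comm]
  exact Nat.log_mono_right (T.size_light hh hc)

theorem exists_heavy : ∃ h : X → X, T.IsHeavy h := by
  have key : ∀ x : X, ∃ y : X, ∀ c, c ≠ T.root → T.par c = x →
      y ≠ T.root ∧ T.par y = x ∧ T.size c ≤ T.size y := by
    intro x
    by_cases hS : (univ.filter (fun c => c ≠ T.root ∧ T.par c = x)).Nonempty
    · obtain ⟨y, hy, hmax⟩ := Finset.exists_max_image _ T.size hS
      simp only [Finset.mem_filter, Finset.mem_univ, true_and] at hy hmax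
      exact ⟨y, fun c hc hp => ⟨hy.1, hy.2, hmax c ⟨hc, hp⟩⟩⟩
    · refine ⟨x, fun c hc hp => ?_⟩
      exact absurd ⟨c, by simp [hc, hp]⟩ hS
  choose h hh using key
  exact ⟨h, fun c hc => hh (T.par c) c hc rfl⟩

/-- Sums of geometric terms over an injective family. -/
theorem geom_le {ι : Type} (S : Finset ι) (l : ι → ℕ) (hinj : Set.InjOn l S) (θ : ℝ)
    (h0 : 0 < θ) (h1 : θ < 1) : ∑ c ∈ S, θ ^ l c ≤ 1 / (1 - θ) := by
  rw [← Finset.sum_image (g := l) (f := fun k => θ ^ k) hinj, one_div,
    ← tsum_geometric_of_lt_one h0.le h1]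
  exact Summable.sum_le_tsum _ (fun k _ => pow_nonneg h0.le k)
    (summable_geometric_of_lt_one h0.le h1)

/-- sizes at least double from a light node to its parent -/
theorem pot1 (h : X → X) (hh : T.IsHeavy h) (θ : ℝ) (h0 : 0 < θ) (h1 : θ < 1) (x : X) :
    ∑ c with T.Light h c ∧ x ∈ T.desc c, θ ^ (Nat.log 2 (T.size c)) ≤ 1 / (1 - θ) := by
  refine geom_le _ _ ?_ θ h0 h1
  have key : ∀ c c' : X, T.Light h c → c ∈ T.desc c' → c ≠ c' →
      Nat.log 2 (T.size c) < Nat.log 2 (T.size c') := fun c c' hc hd hne =>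
    lt_of_lt_of_le (T.log_light hh hc) (Nat.log_mono_right (T.size_mono (T.par_mem_desc hd hne)))
  intro c hc c' hc' heq
  simp only [Finset.coe_filter, Finset.mem_univ, true_and, Set.mem_ofPred_eq] at hc hc'
  by_contra hne
  rcases T.chain hc.2 hc'.2 with h2 | h2
  · exact absurd heq (key c c' hc.1 h2 hne).ne
  · exact absurd heq.symm (key c' c hc'.1 h2 (Ne.symm hne)).ne

theorem pot2 (h : X → X) (hh : T.IsHeavy h) (θ : ℝ) (h0 : 0 < θ) (h1 : θ < 1) (J : ℕ)
    (hJ : Fintype.card X ≤ 2 ^ J) (x : X) :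
    ∑ c with T.Light h c ∧ x ∈ T.desc c, θ ^ (J - Nat.log 2 (T.size (T.par c))) ≤ 1 / (1 - θ) := by
  refine geom_le _ _ ?_ θ h0 h1
  have key : ∀ c c' : X, T.Light h c' → c ∈ T.desc c' → c ≠ c' →
      Nat.log 2 (T.size (T.par c)) < Nat.log 2 (T.size (T.par c')) := fun c c' hc' hd hne =>
    lt_of_le_of_lt (Nat.log_mono_right (T.size_mono (T.par_mem_desc hd hne)))
      (T.log_light hh hc')
  have hle : ∀ c : X, Nat.log 2 (T.size c) ≤ J := by
    intro c
    have : T.size c ≤ 2 ^ J := (Finset.card_le_univ _).trans hJ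
    calc Nat.log 2 (T.size c) ≤ Nat.log 2 (2 ^ J) := Nat.log_mono_right this
      _ = J := Nat.log_pow (by norm_num) J
  intro c hc c' hc' heq
  simp only [Finset.coe_filter, Finset.mem_univ, true_and, Set.mem_ofPred_eq] at hc hc'
  by_contra hne
  have e1 := hle (T.par c)
  have e2 := hle (T.par c')
  simp only at heq
  rcases T.chain hc.2 hc'.2 with h2 | h2
  · have := key c c' hc'.1 h2 hne
    omega
  · have := key c' c hc.1 h2 (Ne.symm hne)
    omega

/-- write (θ⁻¹)^l = 2^l (1/(2θ))^l <= size * (1/(2θ))^l, swap the sums and use pot1 -/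
theorem light_cost (h : X → X) (hh : T.IsHeavy h) (θ : ℝ) (h0 : 1 / 2 < θ) (h1 : θ < 1) :
    ∑ c with T.Light h c, (θ⁻¹) ^ (Nat.log 2 (T.size c)) ≤
      (2 * θ / (2 * θ - 1)) * Fintype.card X := by
  have hθ : 0 < θ := by linarith
  have hp0 : 0 < 1 / (2 * θ) := by positivity
  have hp1 : 1 / (2 * θ) < 1 := by
    rw [div_lt_one (by positivity)]
    linarith
  calc ∑ c with T.Light h c, (θ⁻¹) ^ (Nat.log 2 (T.size c))
      ≤ ∑ c with T.Light h c, ∑ _x ∈ T.desc c, (1 / (2 * θ)) ^ (Nat.log 2 (T.size c)) := by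
        refine Finset.sum_le_sum fun c _ => ?_
        rw [Finset.sum_const, nsmul_eq_mul]
        have e1 : (θ⁻¹) ^ (Nat.log 2 (T.size c)) =
            (2 : ℝ) ^ (Nat.log 2 (T.size c)) * (1 / (2 * θ)) ^ (Nat.log 2 (T.size c)) := by
          rw [← mul_pow]
          congr 1
          field_simp
        rw [e1]
        refine mul_le_mul_of_nonneg_right ?_ (by positivity)
        have := Nat.pow_log_le_self 2 (T.size_pos c).ne'
        exact_mod_cast this
    _ = ∑ x : X, ∑ c with T.Light h c ∧ x ∈ T.desc c,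
          (1 / (2 * θ)) ^ (Nat.log 2 (T.size c)) := by
        rw [Finset.sum_comm' (t' := univ)
          (s' := fun x => univ.filter (fun c => T.Light h c ∧ x ∈ T.desc c))]
        intro c x
        simp
    _ ≤ ∑ _x : X, 1 / (1 - 1 / (2 * θ)) :=
        Finset.sum_le_sum fun x _ => T.pot1 h hh _ hp0 hp1 x
    _ = (2 * θ / (2 * θ - 1)) * Fintype.card X := by
        rw [Finset.sum_const, Finset.card_univ, nsmul_eq_mul, mul_comm]
        congr 1
        have : 2 * θ - 1 ≠ 0 := by linarith
        field_simp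

/-- slopes defined from the root downwards -/
theorem exists_rec (a : X → ℝ → X → ℝ) : ∃ m : X → ℝ, m T.root = 0 ∧
    ∀ c, c ≠ T.root → m c = a (T.par c) (m (T.par c)) c := by
  let M : ℕ → X → ℝ := fun n => Nat.rec (fun _ => 0) (fun _ f x => a (T.par x) (f (T.par x)) x) n
  refine ⟨fun x => M (T.dep x) x, ?_, fun c hc => ?_⟩
  · change M (T.dep T.root) T.root = 0
    rw [T.dep_root]
    rfl
  · change M (T.dep c) c = a (T.par c) (M (T.dep (T.par c)) (T.par c)) c
    rw [T.dep_par hc]

/-- summing a function over the subtree -/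
theorem desc_sum (f : X → ℝ) (x : X) (hx : x ≠ T.root) :
    ∑ y ∈ T.desc x, f y = f x + ∑ c with T.par c = x ∧ c ≠ T.root, ∑ y ∈ T.desc c, f y := by
  have hdisj : Set.PairwiseDisjoint
      ((univ.filter (fun c => T.par c = x ∧ c ≠ T.root) : Finset X) : Set X) T.desc := by
    intro c hc c' hc' hne
    simp only [Finset.coe_filter, Finset.mem_univ, true_and, Set.mem_ofPred_eq] at hc hc'
    rw [Function.onFun, Finset.disjoint_left]
    intro y hy hy'
    exact hne (T.sib hc.2 hc'.2 (hc.1.trans hc'.1.symm) hy hy')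
  rw [← Finset.sum_biUnion hdisj]
  have hnot : x ∉ (univ.filter (fun c => T.par c = x ∧ c ≠ T.root)).biUnion T.desc := by
    simp only [Finset.mem_biUnion, Finset.mem_filter, Finset.mem_univ, true_and, not_exists,
      not_and]
    rintro c ⟨hp, hc⟩ hd
    obtain ⟨i, hi⟩ := T.mem_desc.1 hd
    have h1 := T.dep_iter hc i x hi
    have h2 := T.dep_par hc
    rw [hp] at h2
    omega
  rw [← Finset.sum_insert hnot]
  refine Finset.sum_congr ?_ fun _ _ => rfl
  ext y
  simp only [Finset.mem_insert, Finset.mem_biUnion, Finset.mem_filter, Finset.mem_univ, true_and]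
  constructor
  · intro hy
    obtain ⟨i, hi⟩ := T.mem_desc.1 hy
    rcases i with - | i
    · exact Or.inl hi
    · right
      rw [Function.iterate_succ_apply'] at hi
      refine ⟨T.par^[i] y, ⟨hi, ?_⟩, T.mem_desc.2 ⟨i, rfl⟩⟩
      intro hr
      rw [hr, T.par_root] at hi
      exact hx hi.symm
  · rintro (rfl | ⟨c, ⟨hp, _⟩, hy⟩)
    · exact T.self_mem_desc _
    · refine T.desc_trans hy ?_
      rw [← hp]
      exact T.desc_par c

end Forest

end P8ffccf

end
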