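import Pool.Agent.Lib.P8ffccf.Map
import Pool.Agent.Lib.P8ffccf.Drawing

/-! Definitions: planar geometry of maps, the three directions. -/

noncomputable section

namespace P8ffccf

open Classical Finset

/-- The determinant of two plane vectors. -/
def det (x y : ℝ × ℝ) : ℝ := x.1 * y.2 - x.2 * y.1

variable {V F D : Type} [Fintype V] [Fintype F] [Fintype D]

/-- The edge vector of a dart. -/
def PMap.ev (M : PMap V F D) (P : V → ℝ × ℝ) (d : D) : ℝ × ℝ := P (M.vt (M.rev d)) - P (M.vt d)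

/-- Inner faces are strictly convex polygons, counterclockwise; the outer face `o` is a strictly
convex polygon traversed clockwise. -/
structure ConvexMap (M : PMap V F D) (o : F) (P : V → ℝ × ℝ) : Prop where
  inner : ∀ d d', M.fc d = M.fc d' → M.fc d ≠ o → d' ≠ d → d' ≠ M.nxt d →
    0 < det (M.ev P d) (P (M.vt d') - P (M.vt d))
  outer : ∀ d d', M.fc d = M.fc d' → M.fc d = o → d' ≠ d → d' ≠ M.nxt d →
    det (M.ev P d) (P (M.vt d') - P (M.vt d)) < 0

/-- The segment of a dart. -/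
def PMap.sg (M : PMap V F D) (P : V → ℝ × ℝ) (d : D) : Set (ℝ × ℝ) :=
  segment ℝ (P (M.vt d)) (P (M.vt (M.rev d)))

/-- The drawing: the union of all segments. -/
def PMap.dr (M : PMap V F D) (P : V → ℝ × ℝ) : Set (ℝ × ℝ) := ⋃ d, M.sg P d

/-- Fractions with denominator at most `Q`. -/
def IsFrac (Q : ℕ) (x : ℝ) : Prop := ∃ (b : ℤ) (a : ℕ), 1 ≤ a ∧ a ≤ Q ∧ x = (b : ℝ) / (a : ℝ)

/-- The three directions. -/
def Dz (k : ZMod 3) : ℤ × ℤ := if k = 0 then (1, 0) else if k = 1 then (0, 1) else (-1, -1)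

/-- The differences of directions. -/
def Ez (k : ZMod 3) : ℤ × ℤ := Dz (k + 1) - Dz (k + 2)

/-- The vector `x • (D_k + m • E_k)`. -/
def vec (k : ZMod 3) (x m : ℝ) : ℝ × ℝ := x • (rl (Dz k) + m • rl (Ez k))

end P8ffccf

end
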