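import Pool.Agent.Lib.P8ffccf.TilingB

/-! # Maps with strictly convex faces are plane drawings -/

set_option linter.unusedSimpArgs false
set_option linter.unusedVariables false
set_option linter.unusedSectionVars false
set_option linter.style.longLine false

noncomputable section

namespace P8ffccf

open Classical Finset

variable {V F D : Type} [Fintype V] [Fintype F] [Fintype D]

/-- the bundle of hypotheses of the tiling theorem -/
structure TMap (V F D : Type) [Fintype V] [Fintype F] [Fintype D] extends PMap V F D where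
  o : F
  P : V → ℝ × ℝ
  hc : ConvexMap toPMap o P
  hfc : ∀ d, fc (rev d) ≠ fc d
  hd1 : ∀ d, nxt d ≠ d
  hd2 : ∀ d, nxt (nxt d) ≠ d

namespace TMap

variable (M : TMap V F D)

/-- successor inside a face -/
def nf (f : F) : Equiv.Perm {d // M.fc d = f} where
  toFun i := ⟨M.nxt i.1, by rw [M.fc_nxt]; exact i.2⟩
  invFun i := ⟨M.nxt.symm i.1, by
    have := M.fc_nxt (M.nxt.symm i.1)
    rw [Equiv.apply_symm_apply] at this
    rw [← this]; exact i.2⟩
  left_inv i := by simp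
  right_inv i := by simp

@[simp] lemma nf_val (f : F) (i : {d // M.fc d = f}) : (M.nf f i).1 = M.nxt i.1 := rfl
@[simp] lemma nf_symm_val (f : F) (i : {d // M.fc d = f}) :
    ((M.nf f).symm i).1 = M.nxt.symm i.1 := rfl

lemma nf_tr (f : F) (i j : {d // M.fc d = f}) : ∃ k : ℕ, ((M.nf f)^[k]) i = j := by
  obtain ⟨k, hk⟩ := M.fc_trans i.1 j.1 (by rw [i.2, j.2])
  refine ⟨k, Subtype.ext ?_⟩
  rw [← hk]
  clear hk
  induction k with
  | zero => rfl
  | succ k ih => rw [Function.iterate_succ_apply', Function.iterate_succ_apply', nf_val, ih]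

lemma ev_nxt (d : D) : M.P (M.vt (M.nxt d)) - M.P (M.vt d) = M.ev M.P d := by
  rw [M.vt_nxt]; rfl

lemma ev_rev (d : D) : M.ev M.P (M.rev d) = - M.ev M.P d := by
  unfold PMap.ev
  rw [M.rev_rev]; abel

/-- polygon of an inner face -/
def inn (f : {f : F // f ≠ M.o}) : CPoly {d // M.fc d = f.1} where
  σ := M.nf f.1
  p := fun i => M.P (M.vt i.1)
  tr := M.nf_tr f.1
  conv := fun i j h h' => by
    rw [nf_val, ev_nxt]
    exact M.hc.inner i.1 j.1 (by rw [i.2, j.2]) (by rw [i.2]; exact f.2)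
      (fun e => h (Subtype.ext e)) (fun e => h' (Subtype.ext e))
  h1 := fun i e => M.hd1 i.1 (congrArg Subtype.val e)
  h2 := fun i e => M.hd2 i.1 (congrArg Subtype.val e)
  ne := by
    obtain ⟨d, hd⟩ := M.fc_surj f.1
    exact ⟨⟨d, hd⟩⟩

/-- polygon of the outer face, reversed -/
def out : CPoly {d // M.fc d = M.o} where
  σ := (M.nf M.o).symm
  p := fun i => M.P (M.vt i.1)
  tr := fun i j => by
    obtain ⟨k, hk⟩ := M.nf_tr M.o j i
    refine ⟨k, ?_⟩
    rw [← hk]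
    clear hk
    induction k with
    | zero => rfl
    | succ k ih =>
      rw [Function.iterate_succ_apply, Function.iterate_succ_apply', Equiv.symm_apply_apply]
      exact ih
  conv := fun i j h h' => by
    obtain ⟨i', rfl⟩ := (M.nf M.o).surjective i
    rw [Equiv.symm_apply_apply] at h' ⊢
    have := M.hc.outer i'.1 j.1 (by rw [i'.2, j.2]) i'.2
      (fun e => h' (Subtype.ext e)) (fun e => h (Subtype.ext e))
    rw [nf_val]
    have e := M.ev_nxt i'.1
    simp only [det, ← e, Prod.fst_sub, Prod.snd_sub] at this ⊢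
    linarith
  h1 := fun i e => M.hd1 i.1 (by
    have := congrArg (M.nf M.o) e
    rw [Equiv.apply_symm_apply] at this
    exact (congrArg Subtype.val this).symm)
  h2 := fun i e => M.hd2 i.1 (by
    have := congrArg (fun z => M.nf M.o (M.nf M.o z)) e
    simp only [Equiv.apply_symm_apply] at this
    exact (congrArg Subtype.val this).symm)
  ne := by
    obtain ⟨d, hd⟩ := M.fc_surj M.o
    exact ⟨⟨d, hd⟩⟩

/-- linear form of a dart -/
def lfD (d : D) (x : ℝ × ℝ) : ℝ := det (M.ev M.P d) (x - M.P (M.vt d))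

lemma lfD_rev (d : D) (x : ℝ × ℝ) : M.lfD (M.rev d) x = - M.lfD d x := by
  unfold lfD
  rw [ev_rev]
  simp only [det, PMap.ev, Prod.fst_sub, Prod.snd_sub, Prod.fst_neg, Prod.snd_neg]
  ring

lemma inn_lf (f : {f : F // f ≠ M.o}) (i : {d // M.fc d = f.1}) (x : ℝ × ℝ) :
    (M.inn f).lf i x = M.lfD i.1 x := by
  unfold CPoly.lf lfD CPoly.e inn
  simp only [nf_val, ev_nxt]

lemma out_lf (i : {d // M.fc d = M.o}) (x : ℝ × ℝ) :
    M.out.lf (M.nf M.o i) x = - M.lfD i.1 x := by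
  unfold CPoly.lf lfD CPoly.e out
  simp only [nf_val, Equiv.symm_apply_apply]
  rw [← ev_nxt]
  simp only [det, Prod.fst_sub, Prod.snd_sub]
  ring

lemma lfD_neg_of_out (d : D) (hd : M.fc d = M.o) (x : ℝ × ℝ) (hx : x ∈ M.out.Op) :
    M.lfD d x < 0 := by
  have := hx (M.nf M.o ⟨d, hd⟩)
  rw [out_lf] at this
  linarith

lemma sum_wind (x : ℝ × ℝ) : ∑ f, (M.inn f).wind x = M.out.wind x := by
  have h0 : ∑ d, cr (M.P (M.vt d)) (M.P (M.vt (M.rev d))) x = 0 := by
    have h1 := M.sum_rev (fun d => cr (M.P (M.vt d)) (M.P (M.vt (M.rev d))) x)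
    simp only [M.rev_rev] at h1
    have h2 : ∀ d, cr (M.P (M.vt (M.rev d))) (M.P (M.vt d)) x =
        - cr (M.P (M.vt d)) (M.P (M.vt (M.rev d))) x := fun d => cr_anti _ _ _
    simp only [h2, Finset.sum_neg_distrib] at h1
    linarith
  rw [← Finset.sum_fiberwise (s := Finset.univ) (g := M.fc)] at h0
  rw [Fintype.sum_eq_add_sum_subtype_ne _ M.o] at h0
  have h1 : ∀ f : {f : F // f ≠ M.o}, ∑ d with M.fc d = f.1,
      cr (M.P (M.vt d)) (M.P (M.vt (M.rev d))) x = (M.inn f).wind x := by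
    intro f
    unfold CPoly.wind inn
    simp only [nf_val, M.vt_nxt]
    rw [Finset.sum_subtype (univ.filter fun d => M.fc d = f.1) (p := fun d => M.fc d = f.1) (by simp)]
  have h2 : ∑ d with M.fc d = M.o,
      cr (M.P (M.vt d)) (M.P (M.vt (M.rev d))) x = - M.out.wind x := by
    unfold CPoly.wind out
    rw [← Equiv.sum_comp (M.nf M.o)]
    simp only [nf_val, M.vt_nxt, Equiv.symm_apply_apply]
    rw [Finset.sum_subtype (univ.filter fun d => M.fc d = M.o) (p := fun d => M.fc d = M.o) (by simp),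
      ← Finset.sum_neg_distrib]
    apply Finset.sum_congr rfl
    intro i _
    rw [cr_anti]
  rw [h2, Finset.sum_congr rfl (fun f _ => h1 f)] at h0
  linarith

lemma wind_nonneg {ι : Type} [Fintype ι] (G : CPoly ι) (x : ℝ × ℝ) : 0 ≤ G.wind x := by
  rcases G.wind_01 x with h | h <;> rw [h] <;> norm_num

lemma disj (f g : {f : F // f ≠ M.o}) (x : ℝ × ℝ) (hf : x ∈ (M.inn f).Op)
    (hg : x ∈ (M.inn g).Op) : f = g := by
  by_contra hne
  have h := M.sum_wind x
  have h1 : (M.inn f).wind x + (M.inn g).wind x ≤ ∑ f, (M.inn f).wind x := by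
    rw [← Finset.sum_pair (f := fun f => (M.inn f).wind x) hne]
    apply Finset.sum_le_sum_of_subset_of_nonneg (Finset.subset_univ _)
    intro i _ _
    exact wind_nonneg _ x
  rw [(M.inn f).wind_of_mem_Op x hf, (M.inn g).wind_of_mem_Op x hg] at h1
  rcases M.out.wind_01 x with h' | h' <;> omega

lemma Op_sub_out (f : {f : F // f ≠ M.o}) : (M.inn f).Op ⊆ M.out.Cl := by
  intro x hf
  have h := M.sum_wind x
  have h1 : (M.inn f).wind x ≤ ∑ f, (M.inn f).wind x :=
    Finset.single_le_sum (fun i _ => wind_nonneg _ x) (Finset.mem_univ f)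
  rw [(M.inn f).wind_of_mem_Op x hf] at h1
  apply M.out.mem_Cl_of_wind
  rcases M.out.wind_01 x with h' | h' <;> omega

lemma Cl_sub_out (f : {f : F // f ≠ M.o}) : (M.inn f).Cl ⊆ M.out.Cl := by
  rw [← CPoly.closure_Op]
  exact closure_minimal (M.Op_sub_out f) M.out.isClosed_Cl

lemma out_cover (x : ℝ × ℝ) (hx : x ∈ M.out.Op) : ∃ f, x ∈ (M.inn f).Cl := by
  have h := M.sum_wind x
  rw [M.out.wind_of_mem_Op x hx] at h
  by_contra hc
  push Not at hc
  have : ∑ f, (M.inn f).wind x = 0 := by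
    apply Finset.sum_eq_zero
    intro f _
    rcases (M.inn f).wind_01 x with h' | h'
    · exact h'
    · exact absurd ((M.inn f).mem_Cl_of_wind x h') (hc f)
  omega

/-- the main overlap argument -/
lemma overlap (f : {f : F // f ≠ M.o}) (z : ℝ × ℝ) (hz : z ∈ (M.inn f).Cl)
    (T : {f : F // f ≠ M.o} → Prop)
    (hT : ∀ᶠ x in nhds z, x ∈ M.out.Op → ∃ g, T g ∧ x ∈ (M.inn g).Cl) : T f := by
  obtain ⟨U, hU, hUo, hzU⟩ := eventually_nhds_iff.mp hT |>.imp fun U h => h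
  have h1 : (U ∩ (M.inn f).Op).Nonempty := (M.inn f).meets hUo hzU hz
  obtain ⟨y, hy1, hy2⟩ := h1
  have h2 : ((U ∩ (M.inn f).Op) ∩ M.out.Op).Nonempty :=
    M.out.meets (hUo.inter (M.inn f).isOpen_Op) ⟨hy1, hy2⟩ (M.Op_sub_out f hy2)
  obtain ⟨x, ⟨hx1, hx2⟩, hx3⟩ := h2
  obtain ⟨g, hg, hxg⟩ := hU x hx1 hx3
  obtain ⟨w, hw1, hw2⟩ := (M.inn g).meets (M.inn f).isOpen_Op hx2 hxg
  rw [M.disj f g w hw1 hw2]
  exact hg

/-- near a vertex, the corner conditions are the two adjacent linear forms -/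
lemma corner_near (v : V) : ∀ᶠ x in nhds (M.P v), ∀ b, M.vt b = v →
    ∀ h : M.fc (M.nxt (M.rev b)) ≠ M.o, 0 ≤ M.lfD (M.nxt (M.rev b)) x → M.lfD b x ≤ 0 →
    x ∈ (M.inn ⟨M.fc (M.nxt (M.rev b)), h⟩).Cl := by
  rw [Filter.eventually_all]
  intro b
  by_cases hb : M.vt b = v
  swap
  · exact Filter.Eventually.of_forall fun x h => absurd h hb
  by_cases h : M.fc (M.nxt (M.rev b)) ≠ M.o
  swap
  · exact Filter.Eventually.of_forall fun x _ h' => absurd h' h
  have hc := (M.inn ⟨M.fc (M.nxt (M.rev b)), h⟩).corner ⟨M.nxt (M.rev b), rfl⟩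
  have hp : (M.inn ⟨M.fc (M.nxt (M.rev b)), h⟩).p ⟨M.nxt (M.rev b), rfl⟩ = M.P v := by
    show M.P (M.vt (M.nxt (M.rev b))) = M.P v
    rw [M.vt_nxt, M.rev_rev, hb]
  rw [hp] at hc
  filter_upwards [hc] with x hx _ _ h1 h2
  intro j
  by_cases c1 : j = ⟨M.nxt (M.rev b), rfl⟩
  · rw [c1, inn_lf]; exact h1
  by_cases c2 : (M.inn ⟨M.fc (M.nxt (M.rev b)), h⟩).σ j = ⟨M.nxt (M.rev b), rfl⟩
  · have c3 : M.nxt j.1 = M.nxt (M.rev b) := congrArg Subtype.val c2
    have c4 : j.1 = M.rev b := M.nxt.injective c3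
    rw [inn_lf, c4, lfD_rev]
    linarith
  · exact (hx j c1 c2).le

/-- positive turn around a vertex -/
lemma vturn (b : D) (h : M.fc (M.nxt (M.rev b)) ≠ M.o) :
    0 < det (M.ev M.P (M.nxt (M.rev b))) (M.ev M.P b) := by
  have := (M.inn ⟨M.fc (M.nxt (M.rev b)), h⟩).turn ⟨M.rev b, (M.fc_nxt _).symm⟩
  have e1 : (M.inn ⟨M.fc (M.nxt (M.rev b)), h⟩).e ⟨M.rev b, (M.fc_nxt _).symm⟩ =
      M.ev M.P (M.rev b) := M.ev_nxt _
  have e2 : (M.inn ⟨M.fc (M.nxt (M.rev b)), h⟩).e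
      ((M.inn ⟨M.fc (M.nxt (M.rev b)), h⟩).σ ⟨M.rev b, (M.fc_nxt _).symm⟩) =
      M.ev M.P (M.nxt (M.rev b)) := M.ev_nxt _
  rw [e1, e2, ev_rev] at this
  simp only [det, Prod.fst_neg, Prod.snd_neg] at this ⊢
  linarith

lemma lfD_at (b : D) (v : V) (hb : M.vt b = v) (x : ℝ × ℝ) :
    M.lfD b x = det (M.ev M.P b) (x - M.P v) := by
  rw [← hb]; rfl

/-- around an inner vertex the linear forms cannot all have the same sign -/
lemma not_same_sign (v : V) (hv : ∀ b, M.vt b = v → M.fc b ≠ M.o) (x : ℝ × ℝ) (ε : ℝ)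
    (h : ∀ b, M.vt b = v → 0 < ε * M.lfD b x) : False := by
  set y := x - M.P v with hy
  let g : D → ℝ := fun b =>
    ((M.ev M.P b).1 * y.1 + (M.ev M.P b).2 * y.2) / det (M.ev M.P b) y
  have hs := M.sum_rot v g
  obtain ⟨b0, hb0⟩ := M.vt_surj v
  have hlt : ∑ d with M.vt d = v, g (M.nxt (M.rev d)) < ∑ d with M.vt d = v, g d := by
    apply Finset.sum_lt_sum_of_nonempty
    · exact ⟨b0, by simp [hb0]⟩
    · intro b hb
      simp only [Finset.mem_filter, Finset.mem_univ, true_and] at hb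
      have hb' : M.vt (M.nxt (M.rev b)) = v := by rw [M.vt_nxt, M.rev_rev, hb]
      have t := M.vturn b (hv _ hb')
      have s1 := h b hb
      have s2 := h _ hb'
      rw [M.lfD_at b v hb] at s1
      rw [M.lfD_at _ v hb'] at s2
      rw [← hy] at s1 s2
      set a := M.ev M.P (M.nxt (M.rev b))
      set c := M.ev M.P b
      show (a.1 * y.1 + a.2 * y.2) / det a y < (c.1 * y.1 + c.2 * y.2) / det c y
      have n1 : det c y ≠ 0 := fun e => by rw [e] at s1; simp at s1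
      have n2 : det a y ≠ 0 := fun e => by rw [e] at s2; simp at s2
      have hpos : 0 < det a y * det c y := by
        have h3 : 0 < (ε * det a y) * (ε * det c y) := mul_pos s2 s1
        have h4 : (ε * det a y) * (ε * det c y) = ε ^ 2 * (det a y * det c y) := by ring
        rw [h4] at h3
        have h5 : 0 < ε ^ 2 := by
          rcases eq_or_ne ε 0 with e | e
          · rw [e] at s1; simp at s1
          · positivity
        exact (mul_pos_iff_of_pos_left h5).mp h3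
      have hy0 : 0 < y.1 ^ 2 + y.2 ^ 2 := by
        by_contra hc
        have h6 : y.1 = 0 := by nlinarith [sq_nonneg y.1, sq_nonneg y.2]
        have h7 : y.2 = 0 := by nlinarith [sq_nonneg y.1, sq_nonneg y.2]
        apply n1
        simp [det, h6, h7]
      rw [← sub_pos]
      have e : (c.1 * y.1 + c.2 * y.2) / det c y - (a.1 * y.1 + a.2 * y.2) / det a y =
          (det a c * (y.1 ^ 2 + y.2 ^ 2)) / (det a y * det c y) := by
        field_simp
        simp only [det]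
        ring
      rw [e]
      exact div_pos (mul_pos t hy0) hpos
  linarith

/-- local covering at a vertex -/
lemma near_vertex (v : V) : ∀ᶠ x in nhds (M.P v), x ∈ M.out.Op →
    ∃ g : {f : F // f ≠ M.o}, (∃ d, M.vt d = v ∧ M.fc d = g.1) ∧ x ∈ (M.inn g).Cl := by
  filter_upwards [M.corner_near v] with x hx hxo
  by_contra hc
  push Not at hc
  -- propagation
  have prop : ∀ b, M.vt b = v → M.fc (M.nxt (M.rev b)) ≠ M.o → M.lfD b x ≤ 0 →
      M.lfD (M.nxt (M.rev b)) x < 0 := by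
    intro b hb h h1
    by_contra h2
    push Not at h2
    exact hc ⟨_, h⟩ ⟨M.nxt (M.rev b), by rw [M.vt_nxt, M.rev_rev, hb], rfl⟩ (hx b hb h h2 h1)
  by_cases hout : ∃ a, M.vt a = v ∧ M.fc a = M.o
  · obtain ⟨a0, ha0, hao⟩ := hout
    set b0 := M.rev (M.nxt.symm a0) with hb0
    have hrot : M.nxt (M.rev b0) = a0 := by rw [hb0, M.rev_rev, Equiv.apply_symm_apply]
    have hvb0 : M.vt b0 = v := by
      have := M.vt_nxt (M.nxt.symm a0)
      rw [Equiv.apply_symm_apply] at this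
      rw [hb0, ← this, ha0]
    have s0 : M.lfD a0 x < 0 := M.lfD_neg_of_out a0 hao x hxo
    have s1 : 0 < M.lfD b0 x := by
      have := M.lfD_neg_of_out (M.rev b0) (by rw [← M.fc_nxt, hrot]; exact hao) x hxo
      rw [lfD_rev] at this
      linarith
    have uniq : ∀ a, M.vt a = v → M.fc a = M.o → a = a0 := by
      intro a h1 h2
      have := M.out.p_inj (a₁ := ⟨a, h2⟩) (a₂ := ⟨a0, hao⟩) (by
        show M.P (M.vt a) = M.P (M.vt a0)
        rw [h1, ha0])
      exact congrArg Subtype.val this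
    have all : ∀ k : ℕ, M.vt ((fun x => M.nxt (M.rev x))^[k] a0) = v ∧
        M.lfD ((fun x => M.nxt (M.rev x))^[k] a0) x < 0 := by
      intro k
      induction k with
      | zero => exact ⟨ha0, s0⟩
      | succ k ih =>
        rw [Function.iterate_succ_apply']
        set c := (fun x => M.nxt (M.rev x))^[k] a0
        have hvt : M.vt (M.nxt (M.rev c)) = v := by rw [M.vt_nxt, M.rev_rev, ih.1]
        refine ⟨hvt, ?_⟩
        apply prop c ih.1 _ ih.2.le
        intro h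
        have h3 := uniq _ hvt h
        have h4 : c = b0 := by
          rw [← hrot] at h3
          exact M.rev_inj (M.nxt.injective h3)
        have := ih.2
        rw [h4] at this
        linarith
    obtain ⟨k, hk⟩ := M.vt_trans a0 b0 (by rw [ha0, hvb0])
    have := (all k).2
    rw [hk] at this
    linarith
  · push Not at hout
    by_cases hex : ∃ b, M.vt b = v ∧ M.lfD b x ≤ 0
    · obtain ⟨b, hb, hb'⟩ := hex
      apply M.not_same_sign v hout x (-1)
      have hvt : M.vt (M.nxt (M.rev b)) = v := by rw [M.vt_nxt, M.rev_rev, hb]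
      have s0 := prop b hb (hout _ hvt) hb'
      have all : ∀ k : ℕ, M.vt ((fun x => M.nxt (M.rev x))^[k] (M.nxt (M.rev b))) = v ∧
          M.lfD ((fun x => M.nxt (M.rev x))^[k] (M.nxt (M.rev b))) x < 0 := by
        intro k
        induction k with
        | zero => exact ⟨hvt, s0⟩
        | succ k ih =>
          rw [Function.iterate_succ_apply']
          set c := (fun x => M.nxt (M.rev x))^[k] (M.nxt (M.rev b))
          have hvt' : M.vt (M.nxt (M.rev c)) = v := by rw [M.vt_nxt, M.rev_rev, ih.1]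
          exact ⟨hvt', prop c ih.1 (hout _ hvt') ih.2.le⟩
      intro c hc'
      obtain ⟨k, hk⟩ := M.vt_trans (M.nxt (M.rev b)) c (by rw [hvt, hc'])
      have := (all k).2
      rw [hk] at this
      linarith
    · push Not at hex
      apply M.not_same_sign v hout x 1
      intro b hb
      rw [one_mul]
      exact hex b hb

lemma vertex_in (v : V) (f : {f : F // f ≠ M.o}) (h : M.P v ∈ (M.inn f).Cl) :
    ∃ d, M.vt d = v ∧ M.fc d = f.1 :=
  M.overlap f (M.P v) h (fun g => ∃ d, M.vt d = v ∧ M.fc d = g.1) (M.near_vertex v)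

lemma exists_inner_dart (v : V) : ∃ d, M.vt d = v ∧ M.fc d ≠ M.o := by
  obtain ⟨d, hd⟩ := M.vt_surj v
  by_cases h : M.fc d = M.o
  · refine ⟨M.nxt (M.rev d), by rw [M.vt_nxt, M.rev_rev, hd], ?_⟩
    rw [M.fc_nxt, ← h]
    exact M.hfc d
  · exact ⟨d, hd, h⟩

lemma vert_mem (d : D) (f : {f : F // f ≠ M.o}) (h : M.fc d = f.1) :
    M.P (M.vt d) ∈ (M.inn f).Cl := (M.inn f).p_mem ⟨d, h⟩

lemma P_inj : Function.Injective M.P := by
  intro v w hvw
  obtain ⟨d, hd, hdo⟩ := M.exists_inner_dart w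
  obtain ⟨d', h1, h2⟩ := M.vertex_in v ⟨M.fc d, hdo⟩ (by
    rw [hvw, ← hd]; exact M.vert_mem d _ rfl)
  have := (M.inn ⟨M.fc d, hdo⟩).p_inj (a₁ := ⟨d', h2⟩) (a₂ := ⟨d, rfl⟩) (by
    show M.P (M.vt d') = M.P (M.vt d)
    rw [h1, hd, hvw])
  have h3 : d' = d := congrArg Subtype.val this
  rw [← h1, ← hd, h3]

lemma sg_rev (d : D) : M.sg M.P (M.rev d) = M.sg M.P d := by
  unfold PMap.sg
  rw [M.rev_rev, segment_symm]

lemma sg_sub (d : D) (f : {f : F // f ≠ M.o}) (h : M.fc d = f.1) : M.sg M.P d ⊆ (M.inn f).Cl := by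
  apply (M.inn f).convex_Cl.segment_subset (M.vert_mem d f h)
  rw [← M.vt_nxt]
  exact M.vert_mem _ f (by rw [M.fc_nxt, h])

lemma lfD_sg (d : D) (x : ℝ × ℝ) (h : x ∈ M.sg M.P d) : M.lfD d x = 0 := by
  obtain ⟨a, b, ha, hb, hab, rfl⟩ := h
  have : a = 1 - b := by linarith
  subst this
  simp only [lfD, det, PMap.ev, Prod.fst_sub, Prod.snd_sub, Prod.fst_add, Prod.snd_add,
    Prod.smul_fst, Prod.smul_snd, smul_eq_mul]
  ring

/-- near a point of the relative interior of an edge of an inner face -/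
lemma near_side (d : D) (f : {f : F // f ≠ M.o}) (h : M.fc d = f.1) (s : ℝ) (hs : 0 < s)
    (hs' : s < 1) : ∀ᶠ x in nhds ((1 - s) • M.P (M.vt d) + s • M.P (M.vt (M.rev d))),
      ∀ j : {d // M.fc d = f.1}, j.1 ≠ d → 0 < M.lfD j.1 x := by
  have := (M.inn f).side ⟨d, h⟩ s hs hs'
  have e : (M.inn f).p ((M.inn f).σ ⟨d, h⟩) = M.P (M.vt (M.rev d)) := by
    rw [← M.vt_nxt]; rfl
  rw [e] at this
  filter_upwards [this] with x hx j hj
  rw [← inn_lf]
  exact hx j (fun e => hj (congrArg Subtype.val e))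

lemma near_side_mem (d : D) (f : {f : F // f ≠ M.o}) (h : M.fc d = f.1) (s : ℝ) (hs : 0 < s)
    (hs' : s < 1) : ∀ᶠ x in nhds ((1 - s) • M.P (M.vt d) + s • M.P (M.vt (M.rev d))),
      0 ≤ M.lfD d x → x ∈ (M.inn f).Cl := by
  filter_upwards [M.near_side d f h s hs hs'] with x hx hd j
  rw [inn_lf]
  by_cases c : j.1 = d
  · rw [c]; exact hd
  · exact (hx j c).le

lemma edge_in (d : D) (s : ℝ) (hs : 0 < s) (hs' : s < 1) (f : {f : F // f ≠ M.o})
    (h : (1 - s) • M.P (M.vt d) + s • M.P (M.vt (M.rev d)) ∈ (M.inn f).Cl) :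
    M.fc d = f.1 ∨ M.fc (M.rev d) = f.1 := by
  apply M.overlap f _ h (fun g => M.fc d = g.1 ∨ M.fc (M.rev d) = g.1)
  have h1 : ∀ᶠ x in nhds ((1 - s) • M.P (M.vt d) + s • M.P (M.vt (M.rev d))),
      x ∈ M.out.Op → 0 ≤ M.lfD d x → ∃ g : {f : F // f ≠ M.o},
        (M.fc d = g.1 ∨ M.fc (M.rev d) = g.1) ∧ x ∈ (M.inn g).Cl := by
    by_cases c : M.fc d = M.o
    · apply Filter.Eventually.of_forall
      intro x hx hx'
      have := M.lfD_neg_of_out d c x hx
      linarith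
    · filter_upwards [M.near_side_mem d ⟨M.fc d, c⟩ rfl s hs hs'] with x hx _ hx'
      exact ⟨⟨M.fc d, c⟩, Or.inl rfl, hx hx'⟩
  have h2 : ∀ᶠ x in nhds ((1 - s) • M.P (M.vt d) + s • M.P (M.vt (M.rev d))),
      x ∈ M.out.Op → 0 ≤ M.lfD (M.rev d) x → ∃ g : {f : F // f ≠ M.o},
        (M.fc d = g.1 ∨ M.fc (M.rev d) = g.1) ∧ x ∈ (M.inn g).Cl := by
    by_cases c : M.fc (M.rev d) = M.o
    · apply Filter.Eventually.of_forall
      intro x hx hx'
      have := M.lfD_neg_of_out _ c x hx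
      linarith
    · have := M.near_side_mem (M.rev d) ⟨M.fc (M.rev d), c⟩ rfl (1 - s) (by linarith) (by linarith)
      rw [M.rev_rev] at this
      have e : (1 - (1 - s)) • M.P (M.vt (M.rev d)) + (1 - s) • M.P (M.vt d) =
          (1 - s) • M.P (M.vt d) + s • M.P (M.vt (M.rev d)) := by
        rw [sub_sub_cancel, add_comm]
      rw [e] at this
      filter_upwards [this] with x hx _ hx'
      exact ⟨⟨M.fc (M.rev d), c⟩, Or.inr rfl, hx hx'⟩
  filter_upwards [h1, h2] with x hx1 hx2 hxo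
  rcases le_total 0 (M.lfD d x) with h3 | h3
  · exact hx1 hxo h3
  · exact hx2 hxo (by rw [lfD_rev]; linarith)

lemma edge_open_aux (d d' : D) (s : ℝ) (hs : 0 < s) (hs' : s < 1) (hd' : M.fc d' ≠ M.o)
    (h : (1 - s) • M.P (M.vt d) + s • M.P (M.vt (M.rev d)) ∈ M.sg M.P d')
    (hf : M.fc d = M.fc d') : d' = d := by
  have h1 := (M.near_side d ⟨M.fc d', hd'⟩ hf s hs hs').self_of_nhds ⟨d', rfl⟩
  by_contra hne
  have h2 := h1 hne
  rw [M.lfD_sg d' _ h] at h2
  exact lt_irrefl _ h2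

lemma edge_open (d d' : D) (s : ℝ) (hs : 0 < s) (hs' : s < 1)
    (h : (1 - s) • M.P (M.vt d) + s • M.P (M.vt (M.rev d)) ∈ M.sg M.P d') :
    d' = d ∨ d' = M.rev d := by
  have key : ∀ d', M.fc d' ≠ M.o →
      (1 - s) • M.P (M.vt d) + s • M.P (M.vt (M.rev d)) ∈ M.sg M.P d' → d' = d ∨ d' = M.rev d := by
    intro d' hd' h
    have h1 := M.edge_in d s hs hs' ⟨M.fc d', hd'⟩ (M.sg_sub d' _ rfl h)
    rcases h1 with h1 | h1
    · left; exact M.edge_open_aux d d' s hs hs' hd' h h1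
    · right
      apply M.edge_open_aux (M.rev d) d' (1 - s) (by linarith) (by linarith) hd' _ h1
      rw [M.rev_rev, sub_sub_cancel, add_comm]
      exact h
  by_cases c : M.fc d' = M.o
  · have h1 := key (M.rev d') (by rw [← c]; exact M.hfc d') (by rw [sg_rev]; exact h)
    rcases h1 with h1 | h1
    · right; rw [← h1, M.rev_rev]
    · left; exact M.rev_inj h1
  · exact key d' c h

lemma edges (d d' : D) (z : ℝ × ℝ) (hz : z ∈ M.sg M.P d) (hz' : z ∈ M.sg M.P d') :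
    d' = d ∨ d' = M.rev d ∨
      ∃ w, (w = M.vt d ∨ w = M.vt (M.rev d)) ∧ (w = M.vt d' ∨ w = M.vt (M.rev d')) ∧ z = M.P w := by
  have cases3 : ∀ d, z ∈ M.sg M.P d → (∃ w, (w = M.vt d ∨ w = M.vt (M.rev d)) ∧ z = M.P w) ∨
      ∃ s : ℝ, 0 < s ∧ s < 1 ∧ z = (1 - s) • M.P (M.vt d) + s • M.P (M.vt (M.rev d)) := by
    intro d hz
    obtain ⟨a, b, ha, hb, hab, rfl⟩ := hz
    have : a = 1 - b := by linarith
    subst this
    rcases hb.eq_or_lt with h | h
    · left; refine ⟨M.vt d, Or.inl rfl, ?_⟩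
      rw [← h]; simp
    · rcases (show b ≤ 1 by linarith).eq_or_lt with h' | h'
      · left; refine ⟨M.vt (M.rev d), Or.inr rfl, ?_⟩
        rw [h']; simp
      · right; exact ⟨b, h, h', rfl⟩
  rcases cases3 d hz with ⟨w, hw, hzw⟩ | ⟨s, hs, hs', hzs⟩
  · rcases cases3 d' hz' with ⟨w', hw', hzw'⟩ | ⟨s, hs, hs', hzs⟩
    · right; right
      refine ⟨w, hw, ?_, hzw⟩
      have : w = w' := M.P_inj (by rw [← hzw, ← hzw'])
      rw [this]; exact hw'
    · have := M.edge_open d' d s hs hs' (by rw [← hzs]; exact hz)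
      rcases this with h | h
      · left; exact h.symm
      · right; left; rw [h, M.rev_rev]
  · have := M.edge_open d d' s hs hs' (by rw [← hzs]; exact hz')
    rcases this with h | h
    · left; exact h
    · right; left; exact h

lemma Op_disj_dr (f : {f : F // f ≠ M.o}) (x : ℝ × ℝ) (hx : x ∈ (M.inn f).Op) :
    x ∉ M.dr M.P := by
  intro h
  obtain ⟨d, hd⟩ := Set.mem_iUnion.mp h
  have key : ∀ d, M.fc d ≠ M.o → x ∈ M.sg M.P d → False := by
    intro d hdo hd
    obtain ⟨w, hw1, hw2⟩ := (M.inn ⟨M.fc d, hdo⟩).meets (M.inn f).isOpen_Op hx (M.sg_sub d _ rfl hd)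
    have h1 := M.disj f _ w hw1 hw2
    subst h1
    have h2 := hx ⟨d, rfl⟩
    rw [inn_lf, M.lfD_sg d x hd] at h2
    exact lt_irrefl _ h2
  by_cases c : M.fc d = M.o
  · exact key (M.rev d) (by rw [← c]; exact M.hfc d) (by rw [sg_rev]; exact hd)
  · exact key d c hd

lemma dr_sub (x : ℝ × ℝ) (hx : x ∈ M.dr M.P) : x ∈ M.out.Cl := by
  obtain ⟨d, hd⟩ := Set.mem_iUnion.mp hx
  by_cases c : M.fc d = M.o
  · have h1 : M.fc (M.rev d) ≠ M.o := by rw [← c]; exact M.hfc d
    exact M.Cl_sub_out ⟨_, h1⟩ (M.sg_sub (M.rev d) _ rfl (by rw [sg_rev]; exact hd))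
  · exact M.Cl_sub_out ⟨_, c⟩ (M.sg_sub d _ rfl hd)

/-- a point of the closed outer polygon not in the open one is on an outer edge -/
lemma out_bd (x : ℝ × ℝ) (h : x ∈ M.out.Cl) (h' : x ∉ M.out.Op) :
    ∃ d, M.fc d = M.o ∧ x ∈ M.sg M.P d := by
  simp only [CPoly.Op, Set.mem_ofPred_eq] at h'
  push Not at h'
  obtain ⟨i, hi⟩ := h'
  have h0 : M.out.lf i x = 0 := le_antisymm hi (h i)
  have := M.out.mem_seg i x h h0
  obtain ⟨j, rfl⟩ := (M.nf M.o).surjective i
  refine ⟨j.1, j.2, ?_⟩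
  have e : M.out.σ (M.nf M.o j) = j := (M.nf M.o).symm_apply_apply j
  rw [e] at this
  have e2 : M.out.p (M.nf M.o j) = M.P (M.vt (M.rev j.1)) := by
    rw [← M.vt_nxt]; rfl
  rw [e2] at this
  rw [segment_symm] at this
  exact this

lemma inn_bd (f : {f : F // f ≠ M.o}) (x : ℝ × ℝ) (h : x ∈ (M.inn f).Cl)
    (h' : x ∉ (M.inn f).Op) : ∃ d, M.fc d = f.1 ∧ x ∈ M.sg M.P d := by
  simp only [CPoly.Op, Set.mem_ofPred_eq] at h'
  push Not at h'
  obtain ⟨i, hi⟩ := h'
  have h0 : (M.inn f).lf i x = 0 := le_antisymm hi (h i)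
  have := (M.inn f).mem_seg i x h h0
  refine ⟨i.1, i.2, ?_⟩
  have e2 : (M.inn f).p ((M.inn f).σ i) = M.P (M.vt (M.rev i.1)) := by
    rw [← M.vt_nxt]; rfl
  rw [e2] at this
  exact this

lemma cover (x : ℝ × ℝ) (hx : x ∉ M.dr M.P) : (∃ f, x ∈ (M.inn f).Op) ∨ x ∉ M.out.Cl := by
  by_cases c : x ∈ M.out.Cl
  · left
    have h1 : x ∈ M.out.Op := by
      by_contra h
      obtain ⟨d, _, hd⟩ := M.out_bd x c h
      exact hx (Set.mem_iUnion.mpr ⟨d, hd⟩)
    obtain ⟨f, hf⟩ := M.out_cover x h1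
    refine ⟨f, ?_⟩
    by_contra h
    obtain ⟨d, _, hd⟩ := M.inn_bd f x hf h
    exact hx (Set.mem_iUnion.mpr ⟨d, hd⟩)
  · exact Or.inr c

lemma comp_eq {S A B : Set (ℝ × ℝ)} (hA : IsOpen A) (hB : IsOpen B) (hAB : Disjoint A B)
    (hS : S ⊆ A ∪ B) (hAS : A ⊆ S) (hAc : IsPreconnected A) (x : ℝ × ℝ) (hx : x ∈ A) :
    connectedComponentIn S x = A := by
  apply Set.Subset.antisymm
  · apply isPreconnected_connectedComponentIn.subset_left_of_subset_union hA hB hAB
      ((connectedComponentIn_subset _ _).trans hS)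
    exact ⟨x, mem_connectedComponentIn (hAS hx), hx⟩
  · exact hAc.subset_connectedComponentIn hx hAS

lemma comp_inn (f : {f : F // f ≠ M.o}) (x : ℝ × ℝ) (hx : x ∈ (M.inn f).Op) :
    connectedComponentIn (M.dr M.P)ᶜ x = (M.inn f).Op := by
  apply comp_eq (B := (⋃ g : {g : {f : F // f ≠ M.o} // g ≠ f}, (M.inn g.1).Op) ∪ M.out.Clᶜ)
    (M.inn f).isOpen_Op
    ((isOpen_iUnion fun g : {g : {f : F // f ≠ M.o} // g ≠ f} => (M.inn g.1).isOpen_Op).union
      M.out.isClosed_Cl.isOpen_compl) _ _ _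
    (M.inn f).convex_Op.isPreconnected x hx
  · rw [Set.disjoint_left]
    rintro y hy (hy' | hy')
    · obtain ⟨g, hg⟩ := Set.mem_iUnion.mp hy'
      exact g.2 (M.disj f g.1 y hy hg).symm
    · exact hy' (M.Op_sub_out f hy)
  · intro y hy
    rcases M.cover y hy with ⟨g, hg⟩ | h
    · by_cases c : g = f
      · left; rw [← c]; exact hg
      · right; left; exact Set.mem_iUnion.mpr ⟨⟨g, c⟩, hg⟩
    · right; right; exact h
  · intro y hy
    exact M.Op_disj_dr f y hy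

lemma comp_out (x : ℝ × ℝ) (hx : x ∉ M.out.Cl) :
    connectedComponentIn (M.dr M.P)ᶜ x = M.out.Clᶜ := by
  apply comp_eq (B := ⋃ g, (M.inn g).Op) M.out.isClosed_Cl.isOpen_compl
    (isOpen_iUnion fun g => (M.inn g).isOpen_Op) _ _ _ M.out.preconnected_compl x hx
  · rw [Set.disjoint_left]
    intro y hy hy'
    obtain ⟨g, hg⟩ := Set.mem_iUnion.mp hy'
    exact hy (M.Op_sub_out g hg)
  · intro y hy
    rcases M.cover y hy with ⟨g, hg⟩ | h
    · right; exact Set.mem_iUnion.mpr ⟨g, hg⟩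
    · left; exact h
  · intro y hy h
    exact hy (M.dr_sub y h)

lemma P_mem_out (v : V) : M.P v ∈ M.out.Cl := by
  obtain ⟨d, hd, hdo⟩ := M.exists_inner_dart v
  rw [← hd]
  exact M.Cl_sub_out ⟨_, hdo⟩ (M.vert_mem d _ rfl)

lemma out_extreme (v : V) (h : M.P v ∉ M.out.Op) : M.P v ∈ M.out.Cl.extremePoints ℝ := by
  obtain ⟨d, hdo, hd⟩ := M.out_bd _ (M.P_mem_out v) h
  have h1 : M.fc (M.rev d) ≠ M.o := by rw [← hdo]; exact M.hfc d
  have h2 : M.P v ∈ M.sg M.P (M.rev d) := by rw [sg_rev]; exact hd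
  obtain ⟨d', hd', hf⟩ := M.vertex_in v ⟨_, h1⟩ (M.sg_sub (M.rev d) _ rfl h2)
  have h3 := (M.inn ⟨_, h1⟩).lf_eq_zero ⟨M.rev d, rfl⟩ ⟨d', hf⟩ (by
    rw [inn_lf]
    show M.lfD (M.rev d) (M.P (M.vt d')) = 0
    rw [hd']
    exact M.lfD_sg _ _ h2)
  rcases h3 with h3 | h3
  · have h4 : d' = M.rev d := congrArg Subtype.val h3
    have h5 : M.P v = M.out.p (M.nf M.o ⟨d, hdo⟩) := by
      show M.P v = M.P (M.vt (M.nxt d))
      rw [M.vt_nxt, ← h4, hd']
    rw [h5]
    exact M.out.extreme _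
  · have h4 : d' = M.nxt (M.rev d) := congrArg Subtype.val h3
    have h5 : M.P v = M.out.p ⟨d, hdo⟩ := by
      show M.P v = M.P (M.vt d)
      rw [← hd', h4, M.vt_nxt, M.rev_rev]
    rw [h5]
    exact M.out.extreme _

end TMap

/-- A combinatorial map with strictly convex faces is a plane drawing whose faces are strictly
convex. -/
theorem tiling (M : PMap V F D) (o : F) (P : V → ℝ × ℝ) (hc : ConvexMap M o P)
    (hfc : ∀ d, M.fc (M.rev d) ≠ M.fc d)
    (hdeg1 : ∀ d, M.nxt d ≠ d) (hdeg2 : ∀ d, M.nxt (M.nxt d) ≠ d) :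
    Function.Injective P ∧
    (∀ d d' z, z ∈ M.sg P d → z ∈ M.sg P d' → d' = d ∨ d' = M.rev d ∨
      ∃ w, (w = M.vt d ∨ w = M.vt (M.rev d)) ∧ (w = M.vt d' ∨ w = M.vt (M.rev d')) ∧ z = P w) ∧
    (∀ x, x ∉ M.dr P → Bornology.IsBounded (connectedComponentIn (M.dr P)ᶜ x) →
      Convex ℝ (connectedComponentIn (M.dr P)ᶜ x) ∧
      ∀ v, P v ∈ closure (connectedComponentIn (M.dr P)ᶜ x) →
        P v ∈ (closure (connectedComponentIn (M.dr P)ᶜ x)).extremePoints ℝ) ∧
    (∀ x, x ∉ M.dr P → ¬ Bornology.IsBounded (connectedComponentIn (M.dr P)ᶜ x) →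
      Convex ℝ (connectedComponentIn (M.dr P)ᶜ x)ᶜ ∧
      ∀ v, P v ∈ closure (connectedComponentIn (M.dr P)ᶜ x) →
        P v ∈ ((connectedComponentIn (M.dr P)ᶜ x)ᶜ).extremePoints ℝ) := by
  let T : TMap V F D := { M with o := o, P := P, hc := hc, hfc := hfc, hd1 := hdeg1, hd2 := hdeg2 }
  refine ⟨T.P_inj, fun d d' z h h' => T.edges d d' z h h', fun x hx hb => ?_, fun x hx hb => ?_⟩
  · rcases T.cover x hx with ⟨f, hf⟩ | h
    · have e : connectedComponentIn (M.dr P)ᶜ x = (T.inn f).Op := T.comp_inn f x hf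
      rw [e, CPoly.closure_Op]
      refine ⟨(T.inn f).convex_Op, fun v hv => ?_⟩
      obtain ⟨d, hd, hdf⟩ := T.vertex_in v f hv
      have := (T.inn f).extreme ⟨d, hdf⟩
      have e2 : (T.inn f).p ⟨d, hdf⟩ = P v := by
        show P (T.vt d) = P v
        rw [hd]
      rw [e2] at this
      exact this
    · exfalso
      have e : connectedComponentIn (M.dr P)ᶜ x = T.out.Clᶜ := T.comp_out x h
      rw [e] at hb
      exact T.out.not_bounded_compl hb
  · rcases T.cover x hx with ⟨f, hf⟩ | h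
    · exfalso
      have e : connectedComponentIn (M.dr P)ᶜ x = (T.inn f).Op := T.comp_inn f x hf
      rw [e] at hb
      exact hb ((T.inn f).bounded_Cl.subset (T.inn f).Op_sub_Cl)
    · have e : connectedComponentIn (M.dr P)ᶜ x = T.out.Clᶜ := T.comp_out x h
      rw [e, compl_compl]
      refine ⟨T.out.convex_Cl, fun v hv => ?_⟩
      apply T.out_extreme v
      intro h1
      obtain ⟨y, hy1, hy2⟩ := mem_closure_iff.mp hv _ T.out.isOpen_Op h1
      exact hy2 (T.out.Op_sub_Cl hy1)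

/-- maximum principle: an inner vertex cannot be extreme in a direction -/
theorem max_principle (M : PMap V F D) (o : F) (P : V → ℝ × ℝ) (hc : ConvexMap M o P)
    (hfc : ∀ d, M.fc (M.rev d) ≠ M.fc d)
    (hdeg1 : ∀ d, M.nxt d ≠ d) (hdeg2 : ∀ d, M.nxt (M.nxt d) ≠ d)
    (a b c : ℝ) (h : ∀ d, M.fc d = o → a * (P (M.vt d)).1 + b * (P (M.vt d)).2 ≤ c) (v : V) :
    a * (P v).1 + b * (P v).2 ≤ c := by
  let T : TMap V F D := { M with o := o, P := P, hc := hc, hfc := hfc, hd1 := hdeg1, hd2 := hdeg2 }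
  obtain ⟨i, hi⟩ := T.out.exists_max a b
  exact (hi (P v) (T.P_mem_out v)).trans (h i.1 i.2)

end P8ffccf

end
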