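import Pool.Agent.Lib.P8ffccf.Net
import Pool.Agent.Lib.P8ffccf.Tiling

/-! # From planar 3-connected graphs to maps, and from convex maps to drawings -/

set_option linter.unusedVariables false
set_option linter.unusedSectionVars false

noncomputable section

namespace P8ffccf

open Classical Finset

theorem exists_iterate_of_sameCycle {α : Type} [Finite α] {σ : Equiv.Perm α} {x y : α}
    (h : σ.SameCycle x y) : ∃ k : ℕ, (σ^[k]) x = y := by
  obtain ⟨i, -, hi⟩ := h.exists_pow_eq'
  refine ⟨i, ?_⟩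
  rw [Equiv.Perm.iterate_eq_pow]
  exact hi

theorem exists_pmap {V : Type} [Fintype V] (G : SimpleGraph V) (hp : IsPlanarMap G)
    (h3 : IsThreeConn G) : ∃ (F D : Type) (_ : Fintype F) (_ : Fintype D) (M : PMap V F D),
    M.Three ∧ (∀ d, G.Adj (M.vt d) (M.vt (M.rev d))) ∧
      (∀ u v, G.Adj u v → ∃ d, M.vt d = u ∧ M.vt (M.rev d) = v) := by
  obtain ⟨nxt, hn1, hn2, hn3⟩ := hp
  obtain ⟨hcard, hconn⟩ := h3
  -- closed sets
  have key : ∀ (T : Finset V), T.card ≤ 2 → ∀ S : Set V, S.Nonempty → (∀ x ∈ S, x ∉ T) →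
      (∀ x y, x ∈ S → G.Adj x y → y ∉ T → y ∈ S) → ∀ x, x ∉ T → x ∈ S := by
    intro T hT S hS hST hcl x hx
    obtain ⟨s, hs⟩ := hS
    have hc := (hconn T hT).preconnected ⟨s, by simpa using hST s hs⟩ ⟨x, by simpa using hx⟩
    obtain ⟨w⟩ := hc
    have : ∀ (a b : ((T : Set V)ᶜ : Set V)), (G.induce ((T : Set V)ᶜ)).Walk a b → a.1 ∈ S → b.1 ∈ S := by
      intro a b w
      induction w with
      | nil => exact fun h => h
      | @cons a c b hac _ ih =>
        intro ha
        apply ih
        exact hcl a.1 c.1 ha hac (fun hcT => c.2 (Finset.mem_coe.mpr hcT))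
    exact this _ _ w hs
  have hF : Fintype (Quotient (Equiv.Perm.SameCycle.setoid nxt)) := Fintype.ofFinite _
  have hD : Fintype G.Dart := inferInstance
  have hvs : ∀ v : V, ∃ d : G.Dart, d.fst = v := by
    intro v
    by_contra hcon
    push Not at hcon
    have h1 := key ∅ (by simp) {v} ⟨v, rfl⟩ (by simp) (by
      intro x y hx hxy _
      rw [Set.mem_singleton_iff] at hx
      exact absurd hx (hcon ⟨(x, y), hxy⟩))
    have h2 : Fintype.card V ≤ 1 := by
      rw [Fintype.card_le_one_iff]
      intro a b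
      have ha := h1 a (by simp)
      have hb := h1 b (by simp)
      rw [Set.mem_singleton_iff] at ha hb
      rw [ha, hb]
    omega
  let M : PMap V (Quotient (Equiv.Perm.SameCycle.setoid nxt)) G.Dart :=
    { rev := fun d => d.symm
      nxt := nxt
      vt := fun d => d.fst
      fc := fun d => Quotient.mk _ d
      rev_rev := fun d => d.symm_symm
      rev_ne := fun d => d.symm_ne
      fc_nxt := fun d => Quotient.sound (Equiv.Perm.sameCycle_apply_left.mpr (Equiv.Perm.SameCycle.refl nxt d))
      vt_nxt := fun d => hn1 d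
      fc_trans := fun d d' h => exists_iterate_of_sameCycle (Quotient.exact h)
      vt_trans := fun d d' h => by
        obtain ⟨k, hk⟩ := exists_iterate_of_sameCycle (hn2 d d' h)
        exact ⟨k, hk⟩
      vt_surj := hvs
      fc_surj := fun f => Quotient.exists_rep f
      conn := by
        intro S hS h
        ext x
        simp only [Set.mem_univ, iff_true]
        exact key ∅ (by simp) S hS (by simp) (fun x y hx hxy _ => h ⟨(x, y), hxy⟩ hx) x (by simp)
      euler := by
        have h1 := G.dart_card_eq_twice_card_edges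
        have h2 : Nat.card G.edgeSet = G.edgeFinset.card := by
          rw [Nat.card_eq_fintype_card, ← SimpleGraph.edgeFinset_card]
        have h4 : Nat.card (Quotient (Equiv.Perm.SameCycle.setoid nxt)) =
          Fintype.card (Quotient (Equiv.Perm.SameCycle.setoid nxt)) := Nat.card_eq_fintype_card
        have h5 : Fintype.card G.Dart = 2 * Nat.card G.edgeSet := by
          rw [h2]
          convert h1
        omega }
  refine ⟨_, _, hF, hD, M, ?_, ?_, ?_⟩
  · refine ⟨?_, ?_, hcard, ?_⟩
    · intro d h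
      exact d.adj.ne h.symm
    · intro d d' h h'
      apply SimpleGraph.Dart.ext
      exact Prod.ext h h'
    · intro a b S hS ha hb hcl x hxa hxb
      refine key {a, b} (Finset.card_le_two) S hS ?_ ?_ x ?_
      · intro y hy hyT
        rw [Finset.mem_insert, Finset.mem_singleton] at hyT
        rcases hyT with rfl | rfl
        · exact ha hy
        · exact hb hy
      · intro y z hy hyz hz
        rw [Finset.mem_insert, Finset.mem_singleton, not_or] at hz
        exact hcl ⟨(y, z), hyz⟩ hy hz.1 hz.2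
      · rw [Finset.mem_insert, Finset.mem_singleton, not_or]
        exact ⟨hxa, hxb⟩
  · intro d
    exact d.adj
  · intro u v huv
    exact ⟨⟨(u, v), huv⟩, rfl, rfl⟩

theorem isDrawing_of_convex {V F D : Type} [Fintype V] [Fintype F] [Fintype D]
    (G : SimpleGraph V) (M : PMap V F D) (H : M.Three) (o : F)
    (h1 : ∀ d, G.Adj (M.vt d) (M.vt (M.rev d)))
    (h2 : ∀ u v, G.Adj u v → ∃ d, M.vt d = u ∧ M.vt (M.rev d) = v) (Y : V → ℤ × ℤ)
    (hc : ConvexMap M o (fun v => rl (Y v))) (B : ℕ)
    (hB : ∀ d d', M.fc d = o → M.fc d' = o → |(Y (M.vt d)).1 - (Y (M.vt d')).1| ≤ B ∧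
      |(Y (M.vt d)).2 - (Y (M.vt d')).2| ≤ B) :
    ∃ pos : V → ℤ × ℤ, IsDrawing G B pos := by
  obtain ⟨d0, hd0⟩ := M.fc_surj o
  have hne : (univ.filter fun d => M.fc d = o).Nonempty := ⟨d0, by simp [hd0]⟩
  obtain ⟨dx, hdx, hx⟩ := Finset.exists_min_image (univ.filter fun d => M.fc d = o)
    (fun d => (Y (M.vt d)).1) hne
  obtain ⟨dy, hdy, hy⟩ := Finset.exists_min_image (univ.filter fun d => M.fc d = o)
    (fun d => (Y (M.vt d)).2) hne
  simp only [Finset.mem_filter, Finset.mem_univ, true_and] at hdx hdy hx hy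
  set x0 := (Y (M.vt dx)).1 with hx0
  set y0 := (Y (M.vt dy)).2 with hy0
  let pos : V → ℤ × ℤ := fun v => ((Y v).1 - x0, (Y v).2 - y0)
  have hsub : ∀ u v, rl (pos u) - rl (pos v) = rl (Y u) - rl (Y v) := by
    intro u v
    ext
    · simp [rl, pos]
    · simp [rl, pos]
  have hc' : ConvexMap M o (fun v => rl (pos v)) := by
    constructor
    · intro d d' ha hb hc1 hd1
      have := hc.inner d d' ha hb hc1 hd1
      simp only [PMap.ev, hsub] at this ⊢
      exact this
    · intro d d' ha hb hc1 hd1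
      have := hc.outer d d' ha hb hc1 hd1
      simp only [PMap.ev, hsub] at this ⊢
      exact this
  have hmp := max_principle M o (fun v => rl (pos v)) hc' H.fc_rev_ne H.nxt_ne H.nxt_nxt_ne
  obtain ⟨t1, t2, t3, t4⟩ := tiling M o (fun v => rl (pos v)) hc' H.fc_rev_ne H.nxt_ne H.nxt_nxt_ne
  have hdr : gdraw G (fun v => rl (pos v)) = M.dr (fun v => rl (pos v)) := by
    ext z
    constructor
    · rintro ⟨u, v, huv, hz⟩
      obtain ⟨d, hd1, hd2⟩ := h2 u v huv
      refine Set.mem_iUnion.mpr ⟨d, ?_⟩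
      show z ∈ segment ℝ _ _
      rw [hd1, hd2]
      exact hz
    · intro hz
      obtain ⟨d, hd⟩ := Set.mem_iUnion.mp hz
      exact ⟨_, _, h1 d, hd⟩
  refine ⟨pos, ⟨?_, ?_, ?_, ?_, ?_⟩⟩
  · intro v
    have a1 := hmp (-1) 0 0 (by
      intro d hd
      have := hx d hd
      have h' : ((x0 : ℤ) : ℝ) ≤ (Y (M.vt d)).1 := by exact_mod_cast this
      simp only [rl, pos, Int.cast_sub]
      linarith) v
    have a2 := hmp 0 (-1) 0 (by
      intro d hd
      have := hy d hd
      have h' : ((y0 : ℤ) : ℝ) ≤ (Y (M.vt d)).2 := by exact_mod_cast this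
      simp only [rl, pos, Int.cast_sub]
      linarith) v
    have a3 := hmp 1 0 B (by
      intro d hd
      have := (abs_le.mp (hB d dx hd hdx).1).2
      have h' : (((Y (M.vt d)).1 - x0 : ℤ) : ℝ) ≤ B := by exact_mod_cast this
      simp only [rl, pos]
      linarith) v
    have a4 := hmp 0 1 B (by
      intro d hd
      have := (abs_le.mp (hB d dy hd hdy).2).2
      have h' : (((Y (M.vt d)).2 - y0 : ℤ) : ℝ) ≤ B := by exact_mod_cast this
      simp only [rl, pos]
      linarith) v
    simp only [rl] at a1 a2 a3 a4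
    refine ⟨⟨?_, ?_⟩, ?_, ?_⟩
    · have : (0 : ℝ) ≤ ((pos v).1 : ℝ) := by linarith
      exact_mod_cast this
    · have : ((pos v).1 : ℝ) ≤ B := by linarith
      exact_mod_cast this
    · have : (0 : ℝ) ≤ ((pos v).2 : ℝ) := by linarith
      exact_mod_cast this
    · have : ((pos v).2 : ℝ) ≤ B := by linarith
      exact_mod_cast this
  · intro u v huv
    apply t1
    show rl (pos u) = rl (pos v)
    rw [huv]
  · intro u v x y huv hxy hne z hz hz'
    obtain ⟨d, hd1, hd2⟩ := h2 u v huv
    obtain ⟨e, he1, he2⟩ := h2 x y hxy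
    rcases t2 d e z (by rw [PMap.sg, hd1, hd2]; exact hz) (by rw [PMap.sg, he1, he2]; exact hz') with
      h | h | ⟨w, hw1, hw2, hw3⟩
    · exfalso
      apply hne
      rw [← hd1, ← hd2, ← he1, ← he2, h]
    · exfalso
      apply hne
      rw [← hd1, ← hd2, ← he1, ← he2, h, M.rev_rev, Sym2.eq_swap]
    · refine ⟨w, ?_, ?_, hw3⟩
      · rw [hd1, hd2] at hw1; exact hw1
      · rw [he1, he2] at hw2; exact hw2
  · intro z hz hb
    rw [hdr] at hz hb ⊢
    exact t3 z hz hb
  · intro z hz hb
    rw [hdr] at hz hb ⊢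
    exact t4 z hz hb

end P8ffccf

end
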