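import Pool.Agent.Lib.P8ffccf.ThreeConn

/-! # The Hall condition for Schnyder labellings -/

set_option linter.unusedSimpArgs false
set_option linter.unusedVariables false
set_option linter.unusedSectionVars false
set_option linter.style.longLine false

noncomputable section

namespace P8ffccf

open Classical Finset Module

variable {V F D : Type} [Fintype V] [Fintype F] [Fintype D]

namespace PMap

variable (M : PMap V F D)

/-- The element `x` (vertex or face) is the start vertex or the left face of the dart `d`. -/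
def At (x : V ⊕ F) (d : D) : Prop := x = Sum.inl (M.vt d) ∨ x = Sum.inr (M.fc d)

/-- Darts whose four incident elements all lie in `Z`. -/
def Ad (Z : Finset (V ⊕ F)) : Finset D := univ.filter fun d =>
  (Sum.inl (M.vt d) ∈ Z ∧ Sum.inr (M.fc d) ∈ Z) ∧
    (Sum.inl (M.vt (M.rev d)) ∈ Z ∧ Sum.inr (M.fc (M.rev d)) ∈ Z)

lemma mem_Ad {Z : Finset (V ⊕ F)} {d : D} : d ∈ M.Ad Z ↔
  (Sum.inl (M.vt d) ∈ Z ∧ Sum.inr (M.fc d) ∈ Z) ∧
    (Sum.inl (M.vt (M.rev d)) ∈ Z ∧ Sum.inr (M.fc (M.rev d)) ∈ Z) := by
  simp [Ad]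

lemma rev_mem_Ad {Z : Finset (V ⊕ F)} {d : D} : M.rev d ∈ M.Ad Z ↔ d ∈ M.Ad Z := by
  rw [mem_Ad, mem_Ad, M.rev_rev]
  tauto

/-- Capacities. -/
def cap (o : F) (Sus : Finset D) : V ⊕ F → ℕ
  | Sum.inl v => M.vg v - 3 + (if ∃ s ∈ Sus, M.vt s = v then 1 else 0)
  | Sum.inr f => if f = o then M.dg f else M.dg f - 3

/-- The number of corners at an element. -/
def dgx : V ⊕ F → ℕ
  | Sum.inl v => M.vg v
  | Sum.inr f => M.dg f

lemma dgx_eq (x : V ⊕ F) : M.dgx x = (univ.filter fun d => M.At x d).card := by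
  rcases x with v | f
  · show M.vg v = _
    unfold vg At
    apply congrArg
    ext d
    simp [eq_comm]
  · show M.dg f = _
    unfold dg At
    apply congrArg
    ext d
    simp [eq_comm]

variable {M}

lemma Three.at_rev (H : M.Three) {x : V ⊕ F} {d : D} (h : M.At x d) : ¬ M.At x (M.rev d) := by
  rcases h with rfl | rfl
  · rintro (h | h)
    · exact H.loop d (Sum.inl_injective h).symm
    · cases h
  · rintro (h | h)
    · cases h
    · exact H.fc_rev_ne d (Sum.inr_injective h).symm

lemma card_rev_image (M : PMap V F D) (p : D → Prop) [DecidablePred p] :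
    (univ.filter fun d => p (M.rev d)).card = (univ.filter fun d => p d).card := by
  rw [Finset.card_filter, Finset.card_filter]
  exact M.sum_rev (fun d => if p d then 1 else 0)

lemma Three.card_Ad_erase (H : M.Three) (Z : Finset (V ⊕ F)) (z : V ⊕ F) (hz : z ∈ Z) :
    (M.Ad Z).card = (M.Ad (Z.erase z)).card +
      2 * (univ.filter fun d => M.At z d ∧ d ∈ M.Ad Z).card := by
  have h1 : M.Ad Z = M.Ad (Z.erase z) ∪ ((univ.filter fun d => M.At z d ∧ d ∈ M.Ad Z) ∪
      (univ.filter fun d => M.At z (M.rev d) ∧ M.rev d ∈ M.Ad Z)) := by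
    ext d
    simp only [Finset.mem_union, Finset.mem_filter, Finset.mem_univ, true_and, M.rev_mem_Ad]
    simp only [mem_Ad, Finset.mem_erase, At]
    constructor
    · intro h
      by_cases a : z = Sum.inl (M.vt d)
      · right; left; exact ⟨Or.inl a, h⟩
      by_cases b : z = Sum.inr (M.fc d)
      · right; left; exact ⟨Or.inr b, h⟩
      by_cases c : z = Sum.inl (M.vt (M.rev d))
      · right; right; exact ⟨Or.inl c, h⟩
      by_cases e : z = Sum.inr (M.fc (M.rev d))
      · right; right; exact ⟨Or.inr e, h⟩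
      left
      exact ⟨⟨⟨Ne.symm a, h.1.1⟩, ⟨Ne.symm b, h.1.2⟩⟩, ⟨⟨Ne.symm c, h.2.1⟩, ⟨Ne.symm e, h.2.2⟩⟩⟩
    · rintro (h | h | h)
      · exact ⟨⟨h.1.1.2, h.1.2.2⟩, ⟨h.2.1.2, h.2.2.2⟩⟩
      · exact h.2
      · exact h.2
  have hd1 : Disjoint (univ.filter fun d => M.At z d ∧ d ∈ M.Ad Z)
      (univ.filter fun d => M.At z (M.rev d) ∧ M.rev d ∈ M.Ad Z) := by
    rw [Finset.disjoint_left]
    intro d hd hd'
    simp only [Finset.mem_filter, Finset.mem_univ, true_and] at hd hd'
    exact H.at_rev hd.1 hd'.1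
  have hd2 : Disjoint (M.Ad (Z.erase z)) ((univ.filter fun d => M.At z d ∧ d ∈ M.Ad Z) ∪
      (univ.filter fun d => M.At z (M.rev d) ∧ M.rev d ∈ M.Ad Z)) := by
    rw [Finset.disjoint_left]
    intro d hd hd'
    simp only [Finset.mem_union, Finset.mem_filter, Finset.mem_univ, true_and] at hd'
    rw [mem_Ad] at hd
    simp only [Finset.mem_erase] at hd
    rcases hd' with h | h
    · rcases h.1 with h' | h'
      · exact hd.1.1.1 h'.symm
      · exact hd.1.2.1 h'.symm
    · rcases h.1 with h' | h'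
      · exact hd.2.1.1 h'.symm
      · exact hd.2.2.1 h'.symm
  have h5 := congrArg Finset.card h1
  rw [Finset.card_union_of_disjoint hd2, Finset.card_union_of_disjoint hd1,
    M.card_rev_image (fun d => M.At z d ∧ d ∈ M.Ad Z)] at h5
  omega

/-- A minimal violation of the Hall condition. -/
structure Bad (M : PMap V F D) (o : F) (Sus : Finset D) (Z : Finset (V ⊕ F)) : Prop where
  az : ∀ z ∈ Z, M.cap o Sus z + 1 ≤ (univ.filter fun d => M.At z d ∧ d ∈ M.Ad Z).card
  gt : 2 * ∑ z ∈ Z, M.cap o Sus z < (M.Ad Z).card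
  conn : ∀ S ⊆ Z, S.Nonempty → (∀ d, Sum.inl (M.vt d) ∈ Z → Sum.inr (M.fc d) ∈ Z →
    (Sum.inl (M.vt d) ∈ S ↔ Sum.inr (M.fc d) ∈ S)) → S = Z

lemma Three.bad_of_min (H : M.Three) (o : F) (Sus : Finset D) (Z : Finset (V ⊕ F))
    (hmin : ∀ Z', Z' ⊂ Z → (M.Ad Z').card ≤ 2 * ∑ z ∈ Z', M.cap o Sus z)
    (hgt : 2 * ∑ z ∈ Z, M.cap o Sus z < (M.Ad Z).card) : Bad M o Sus Z where
  az := by
    intro z hz
    have h1 := H.card_Ad_erase Z z hz
    have h2 := hmin (Z.erase z) (Finset.erase_ssubset hz)
    have h3 := Finset.add_sum_erase Z (M.cap o Sus) hz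
    omega
  gt := hgt
  conn := by
    intro S hS hne hcl
    by_contra hSZ
    have hssub : S ⊂ Z := lt_of_le_of_ne hS hSZ
    have hssub' : Z \ S ⊂ Z := by
      apply Finset.sdiff_ssubset hS hne
    have h1 := hmin S hssub
    have h2 := hmin (Z \ S) hssub'
    have h3 : ∑ z ∈ Z \ S, M.cap o Sus z + ∑ z ∈ S, M.cap o Sus z = ∑ z ∈ Z, M.cap o Sus z :=
      Finset.sum_sdiff hS
    have h4 : (M.Ad Z).card ≤ (M.Ad S).card + (M.Ad (Z \ S)).card := by
      rw [← Finset.card_union_of_disjoint]
      · apply Finset.card_le_card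
        intro d hd
        have hd' := M.mem_Ad.mp hd
        have c1 := hcl d hd'.1.1 hd'.1.2
        have c2 := hcl (M.rev d) hd'.2.1 hd'.2.2
        have c3 := hcl (M.nxt d) (by rw [M.vt_nxt]; exact hd'.2.1)
          (by rw [M.fc_nxt]; exact hd'.1.2)
        rw [M.vt_nxt, M.fc_nxt] at c3
        rw [Finset.mem_union, M.mem_Ad, M.mem_Ad]
        simp only [Finset.mem_sdiff]
        by_cases hx : Sum.inl (M.vt d) ∈ S
        · left
          exact ⟨⟨hx, c1.mp hx⟩, ⟨c3.mpr (c1.mp hx), c2.mp (c3.mpr (c1.mp hx))⟩⟩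
        · right
          have e1 : Sum.inr (M.fc d) ∉ S := fun h => hx (c1.mpr h)
          have e2 : Sum.inl (M.vt (M.rev d)) ∉ S := fun h => e1 (c3.mp h)
          have e3 : Sum.inr (M.fc (M.rev d)) ∉ S := fun h => e2 (c2.mpr h)
          exact ⟨⟨⟨hd'.1.1, hx⟩, ⟨hd'.1.2, e1⟩⟩, ⟨⟨hd'.2.1, e2⟩, ⟨hd'.2.2, e3⟩⟩⟩
      · rw [Finset.disjoint_left]
        intro d hd hd'
        rw [M.mem_Ad] at hd hd'
        simp only [Finset.mem_sdiff] at hd'
        exact hd'.1.1.2 hd.1.1
    omega

lemma sum_sub {α β : Type*} [Fintype α] [AddCommMonoid β] (q : α → Prop) [DecidablePred q]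
    (g : α → β)
    (h : ∀ d, ¬ q d → g d = 0) : ∑ d : {d // q d}, g d.1 = ∑ d, g d := by
  rw [← Finset.sum_subtype (univ.filter q) (by simp) g, Finset.sum_filter]
  apply Finset.sum_congr rfl
  intro d _
  split_ifs with hd
  · rfl
  · exact (h d hd).symm

/-- The dimension bound. -/
lemma Three.dim_bound (H : M.Three) (Z : Finset (V ⊕ F)) (hne : Z.Nonempty)
    (hall : ∃ d, d ∉ M.Ad Z)
    (hconn : ∀ S ⊆ Z, S.Nonempty → (∀ d, Sum.inl (M.vt d) ∈ Z → Sum.inr (M.fc d) ∈ Z →
    (Sum.inl (M.vt d) ∈ S ↔ Sum.inr (M.fc d) ∈ S)) → S = Z) :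
    (M.Ad Z).card + 2 * Z.card ≤
      2 * (univ.filter fun d => Sum.inl (M.vt d) ∈ Z ∧ Sum.inr (M.fc d) ∈ Z).card + 2 := by
  have two : ∀ a : ZMod 2, a + a = 0 := by decide
  let ZT := {z // z ∈ Z}
  let RZ := {d : D // Sum.inl (M.vt d) ∈ Z ∧ Sum.inr (M.fc d) ∈ Z}
  let EA := {e : M.Edge // e.1 ∈ M.Ad Z}
  have : Nonempty ZT := by obtain ⟨z, hz⟩ := hne; exact ⟨⟨z, hz⟩⟩
  let a : RZ → ZT := fun d => ⟨Sum.inl (M.vt d.1), d.2.1⟩
  let b : RZ → ZT := fun d => ⟨Sum.inr (M.fc d.1), d.2.2⟩
  have hr1 : finrank (ZMod 2) (LinearMap.range (diffMap (ZMod 2) a b)) + 1 = Fintype.card ZT := by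
    apply finrank_range_diffMap
    intro S hS hcl
    have hS' := hconn (Z.attach.filter (fun z => z ∈ S) |>.map (Function.Embedding.subtype _))
      (by
        intro z hz
        simp only [Finset.mem_map, Finset.mem_filter, Finset.mem_attach, true_and,
          Function.Embedding.coe_subtype] at hz
        obtain ⟨y, _, rfl⟩ := hz
        exact y.2) (by
        obtain ⟨z, hz⟩ := hS
        exact ⟨z.1, by
          simp only [Finset.mem_map, Finset.mem_filter, Finset.mem_attach, true_and,
            Function.Embedding.coe_subtype]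
          exact ⟨z, hz, rfl⟩⟩) (by
        intro d h1 h2
        have := hcl ⟨d, h1, h2⟩
        simp only [Finset.mem_map, Finset.mem_filter, Finset.mem_attach, true_and,
          Function.Embedding.coe_subtype]
        constructor
        · rintro ⟨y, hy, hy'⟩
          refine ⟨⟨Sum.inr (M.fc d), h2⟩, ?_, rfl⟩
          apply this.mp
          have : y = a ⟨d, h1, h2⟩ := Subtype.ext hy'
          rw [← this]
          exact hy
        · rintro ⟨y, hy, hy'⟩
          refine ⟨⟨Sum.inl (M.vt d), h1⟩, ?_, rfl⟩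
          apply this.mpr
          have : y = b ⟨d, h1, h2⟩ := Subtype.ext hy'
          rw [← this]
          exact hy)
    ext z
    simp only [Set.mem_univ, iff_true]
    have hz : z.1 ∈ (Z.attach.filter (fun z => z ∈ S) |>.map (Function.Embedding.subtype _)) := by
      rw [hS']; exact z.2
    simp only [Finset.mem_map, Finset.mem_filter, Finset.mem_attach, true_and,
      Function.Embedding.coe_subtype] at hz
    obtain ⟨y, hy, hy'⟩ := hz
    have : y = z := Subtype.ext hy'
    rw [← this]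
    exact hy
  have hr2 : finrank (ZMod 2) (LinearMap.range (bdMap (ZMod 2) a b)) +
      finrank (ZMod 2) (LinearMap.ker (bdMap (ZMod 2) a b)) = Fintype.card RZ := by
    rw [LinearMap.finrank_range_add_finrank_ker, Module.finrank_fintype_fun_eq_card]
  rw [finrank_range_bdMap] at hr2
  -- extension by zero
  let ext0 : (EA → ZMod 2) → D → ZMod 2 := fun s d =>
    if h : d ∈ M.Ad Z then
      if hp : M.Pos d then s ⟨⟨d, hp⟩, h⟩
      else s ⟨⟨M.rev d, (M.pos_or d).resolve_left hp⟩, M.rev_mem_Ad.mpr h⟩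
    else 0
  have ext_rev : ∀ s d, ext0 s (M.rev d) = ext0 s d := by
    intro s d
    by_cases h : d ∈ M.Ad Z
    · have h' : M.rev d ∈ M.Ad Z := M.rev_mem_Ad.mpr h
      simp only [ext0, h, h', dif_pos]
      by_cases hp : M.Pos d
      · have hp' := M.not_pos_rev hp
        simp only [hp, hp', dif_pos, dif_neg, not_false_eq_true, M.rev_rev]
      · have hp' := (M.pos_or d).resolve_left hp
        simp only [hp, hp', dif_pos, dif_neg, not_false_eq_true]
    · have h' : M.rev d ∉ M.Ad Z := fun k => h (M.rev_mem_Ad.mp k)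
      simp only [ext0, h, h', dif_neg, not_false_eq_true]
  have ext_zero : ∀ s d, d ∉ M.Ad Z → ext0 s d = 0 := by
    intro s d h
    simp only [ext0, h, dif_neg, not_false_eq_true]
  have ext_val : ∀ s (e : EA), ext0 s e.1.1 = s e := by
    intro s e
    simp only [ext0, e.2, e.1.2, dif_pos]
    rfl
  let bd : (EA → ZMod 2) → D → ZMod 2 := fun s d => ext0 s d + ext0 s (M.nxt.symm d)
  have hbd0 : ∀ s d, ¬ (Sum.inl (M.vt d) ∈ Z ∧ Sum.inr (M.fc d) ∈ Z) → bd s d = 0 := by
    intro s d hd
    simp only [bd]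
    rw [ext_zero s d, ext_zero s (M.nxt.symm d), add_zero]
    · intro h
      rw [M.mem_Ad] at h
      apply hd
      have e1 := M.vt_nxt (M.nxt.symm d)
      have e2 := M.fc_nxt (M.nxt.symm d)
      rw [Equiv.apply_symm_apply] at e1 e2
      rw [e1, e2]
      exact ⟨h.2.1, h.1.2⟩
    · intro h
      rw [M.mem_Ad] at h
      exact hd h.1
  have hbdf : ∀ s f, ∑ d with M.fc d = f, bd s d = 0 := by
    intro s f
    simp only [bd, Finset.sum_add_distrib]
    have := M.sum_nxt f (fun d => ext0 s (M.nxt.symm d))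
    simp only [Equiv.symm_apply_apply] at this
    rw [← this]
    exact two _
  have hbdv : ∀ s v, ∑ d with M.vt d = v, bd s d = 0 := by
    intro s v
    simp only [bd, Finset.sum_add_distrib]
    have := M.sum_rot v (fun d => ext0 s (M.nxt.symm d))
    simp only [Equiv.symm_apply_apply, ext_rev] at this
    rw [← this]
    exact two _
  let ψ : (EA → ZMod 2) →ₗ[ZMod 2] (RZ → ZMod 2) :=
    { toFun := fun s d => bd s d.1
      map_add' := by
        intro s t
        ext d
        simp only [bd, ext0, Pi.add_apply]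
        split_ifs <;> ring
      map_smul' := by
        intro c s
        ext d
        simp only [bd, ext0, Pi.smul_apply, smul_eq_mul, RingHom.id_apply]
        split_ifs <;> ring }
  have hψker : ∀ s, ψ s ∈ LinearMap.ker (bdMap (ZMod 2) a b) := by
    intro s
    rw [LinearMap.mem_ker]
    ext z
    have hsub : ∀ (p : D → Prop) [DecidablePred p],
        ∑ d : RZ with p d.1, bd s d.1 = ∑ d with p d, bd s d := by
      intro p _
      rw [Finset.sum_filter, Finset.sum_filter]
      exact sum_sub _ (fun d => if p d then bd s d else 0) (fun d hd => by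
        rw [hbd0 s d hd]; simp)
    have e0 : (bdMap (ZMod 2) a b) (ψ s) z =
        (∑ d : RZ with a d = z, bd s d.1) - (∑ d : RZ with b d = z, bd s d.1) := by
      simp only [bdMap, LinearMap.coe_mk, AddHom.coe_mk, ψ]
      congr!
    rw [e0]
    have e1 : (univ.filter fun d : RZ => a d = z) =
        univ.filter fun d : RZ => Sum.inl (M.vt d.1) = z.1 := by
      ext d
      simp only [Finset.mem_filter, Finset.mem_univ, true_and]
      exact ⟨fun h => congrArg Subtype.val h, fun h => Subtype.ext h⟩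
    have e2 : (univ.filter fun d : RZ => b d = z) =
        univ.filter fun d : RZ => Sum.inr (M.fc d.1) = z.1 := by
      ext d
      simp only [Finset.mem_filter, Finset.mem_univ, true_and]
      exact ⟨fun h => congrArg Subtype.val h, fun h => Subtype.ext h⟩
    rw [e1, e2, hsub (fun d => Sum.inl (M.vt d) = z.1), hsub (fun d => Sum.inr (M.fc d) = z.1)]
    rcases z with ⟨v | f, hz⟩
    · simp only [Sum.inl.injEq, reduceCtorEq, Finset.filter_false, Finset.sum_empty, sub_zero]
      exact hbdv s v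
    · simp only [Sum.inr.injEq, reduceCtorEq, Finset.filter_false, Finset.sum_empty, zero_sub]
      rw [hbdf s f, neg_zero]
      rfl
  have hψinj : Function.Injective ψ := by
    rw [← LinearMap.ker_eq_bot, LinearMap.ker_eq_bot']
    intro s hs
    have h0 : ∀ d, bd s d = 0 := by
      intro d
      by_cases h : Sum.inl (M.vt d) ∈ Z ∧ Sum.inr (M.fc d) ∈ Z
      · exact congrFun hs ⟨d, h⟩
      · exact hbd0 s d h
    have hc : ∀ d, ext0 s (M.nxt d) = ext0 s d := by
      intro d
      have := h0 (M.nxt d)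
      simp only [bd, Equiv.symm_apply_apply] at this
      have h2 := two (ext0 s d)
      linear_combination this - h2
    obtain ⟨d0, hd0⟩ := hall
    ext e
    rw [← ext_val s e, M.dart_const (ext0 s) hc (ext_rev s) e.1.1 d0, ext_zero s d0 hd0]
    rfl
  have hfin : Fintype.card EA ≤ finrank (ZMod 2) (LinearMap.ker (bdMap (ZMod 2) a b)) := by
    have := LinearMap.finrank_le_finrank_of_injective (f := ψ.codRestrict _ hψker) (by
      intro s t hst
      apply hψinj
      exact congrArg Subtype.val hst)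
    rwa [Module.finrank_fintype_fun_eq_card] at this
  have hcard1 : Fintype.card ZT = Z.card := Fintype.card_coe Z
  have hcard2 : Fintype.card RZ =
      (univ.filter fun d => Sum.inl (M.vt d) ∈ Z ∧ Sum.inr (M.fc d) ∈ Z).card := by
    rw [Fintype.card_subtype]
  have hcard3 : (M.Ad Z).card = 2 * Fintype.card EA := by
    have h := M.sum_edge (fun d => if d ∈ M.Ad Z then 1 else 0)
    simp only [M.rev_mem_Ad] at h
    rw [← Finset.card_filter] at h
    have h1 : (univ.filter fun d => d ∈ M.Ad Z) = M.Ad Z := by ext; simp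
    rw [h1] at h
    rw [h, Fintype.card_subtype, Finset.card_filter, Finset.mul_sum]
    apply Finset.sum_congr rfl
    intro e _
    split_ifs <;> rfl
  omega

/-- Facts about a minimal violation. -/
lemma Three.bad_o (H : M.Three) {o : F} {Sus : Finset D} {Z : Finset (V ⊕ F)}
    (B : Bad M o Sus Z) : Sum.inr o ∉ Z := by
  intro ho
  have h1 := B.az _ ho
  have h2 : (univ.filter fun d => M.At (Sum.inr o) d ∧ d ∈ M.Ad Z).card ≤ M.dg o := by
    apply Finset.card_le_card
    intro d hd
    simp only [Finset.mem_filter, Finset.mem_univ, true_and] at hd ⊢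
    rcases hd.1 with h | h
    · cases h
    · exact (Sum.inr_injective h).symm
  simp only [cap, if_true] at h1
  omega

/-- At an ordinary element at most two edges are outside `Ad`. -/
lemma Three.bad_few (H : M.Three) {o : F} {Sus : Finset D} {Z : Finset (V ⊕ F)}
    (B : Bad M o Sus Z) {z : V ⊕ F} (hz : z ∈ Z) :
    (univ.filter fun d => M.At z d ∧ d ∉ M.Ad Z).card ≤ 2 := by
  have h1 := B.az z hz
  have h2 : M.dgx z = (univ.filter fun d => M.At z d ∧ d ∈ M.Ad Z).card +
      (univ.filter fun d => M.At z d ∧ d ∉ M.Ad Z).card := by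
    rw [M.dgx_eq, ← Finset.filter_filter, ← Finset.filter_filter,
      Finset.card_filter_add_card_filter_not]
  have h3 : M.dgx z ≤ M.cap o Sus z + 3 := by
    rcases z with v | f
    · have := H.three_le_vg v
      show M.vg v ≤ _
      simp only [cap]
      omega
    · have := H.three_le_dg f
      show M.dg f ≤ _
      simp only [cap]
      split_ifs <;> omega
  omega

lemma Three.bad_sus (H : M.Three) {o : F} {Sus : Finset D} {Z : Finset (V ⊕ F)}
    (hSus : ∀ s ∈ Sus, M.fc s = o)
    (B : Bad M o Sus Z) {s : D} (hs : s ∈ Sus) : Sum.inl (M.vt s) ∉ Z := by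
  intro hz
  have h1 := B.az _ hz
  have h2 : M.dgx (Sum.inl (M.vt s)) =
      (univ.filter fun d => M.At (Sum.inl (M.vt s)) d ∧ d ∈ M.Ad Z).card +
      (univ.filter fun d => M.At (Sum.inl (M.vt s)) d ∧ d ∉ M.Ad Z).card := by
    rw [M.dgx_eq, ← Finset.filter_filter, ← Finset.filter_filter,
      Finset.card_filter_add_card_filter_not]
  have h3 : M.dgx (Sum.inl (M.vt s)) = M.cap o Sus (Sum.inl (M.vt s)) + 2 := by
    have := H.three_le_vg (M.vt s)
    show M.vg (M.vt s) = _
    simp only [cap]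
    rw [if_pos ⟨s, hs, rfl⟩]
    omega
  have ho := H.bad_o B
  set s' := M.rot.symm s with hs'
  have e : M.nxt (M.rev s') = s := M.rot.apply_symm_apply s
  have hne : s ≠ s' := by
    intro h
    apply H.rot_ne s
    rw [← h] at e
    exact e
  have hsub : ({s, s'} : Finset D) ⊆
      univ.filter fun d => M.At (Sum.inl (M.vt s)) d ∧ d ∉ M.Ad Z := by
    intro x hx
    simp only [Finset.mem_insert, Finset.mem_singleton] at hx
    simp only [Finset.mem_filter, Finset.mem_univ, true_and]
    rcases hx with rfl | rfl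
    · refine ⟨Or.inl rfl, fun h => ho ?_⟩
      rw [M.mem_Ad] at h
      rw [← hSus x hs]
      exact h.1.2
    · refine ⟨Or.inl ?_, fun h => ho ?_⟩
      · have := M.vt_rot s'
        rw [M.rot_apply, e] at this
        rw [this]
      · rw [M.mem_Ad] at h
        have := M.fc_nxt (M.rev s')
        rw [e, hSus s hs] at this
        rw [this]
        exact h.2.2
  have h4 := Finset.card_le_card hsub
  rw [Finset.card_pair hne] at h4
  omega

/-- No element of `Z` has both its neighbours in a quad outside `Z`. -/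
lemma Three.bad_nb_v (H : M.Three) {o : F} {Sus : Finset D} {Z : Finset (V ⊕ F)}
    (B : Bad M o Sus Z) {d : D} (hz : Sum.inl (M.vt d) ∈ Z) :
    Sum.inr (M.fc d) ∈ Z ∨ Sum.inr (M.fc (M.rev d)) ∈ Z := by
  by_contra hcon
  push Not at hcon
  have h1 := H.bad_few B hz
  set s' := M.rot.symm d with hs'
  have e : M.nxt (M.rev s') = d := M.rot.apply_symm_apply d
  have ev : M.vt s' = M.vt d := by
    have := M.vt_rot s'
    rw [M.rot_apply, e] at this
    exact this.symm
  have ev2 : M.vt (M.nxt (M.rev d)) = M.vt d := M.vt_rot d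
  have hsub : ({s', d, M.nxt (M.rev d)} : Finset D) ⊆
      univ.filter fun x => M.At (Sum.inl (M.vt d)) x ∧ x ∉ M.Ad Z := by
    intro x hx
    simp only [Finset.mem_insert, Finset.mem_singleton] at hx
    simp only [Finset.mem_filter, Finset.mem_univ, true_and]
    rcases hx with rfl | rfl | rfl
    · refine ⟨Or.inl (by rw [ev]), fun h => hcon.1 ?_⟩
      rw [M.mem_Ad] at h
      have := M.fc_nxt (M.rev s')
      rw [e] at this
      rw [this]
      exact h.2.2
    · refine ⟨Or.inl rfl, fun h => hcon.1 ?_⟩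
      rw [M.mem_Ad] at h
      exact h.1.2
    · refine ⟨Or.inl (by rw [ev2]), fun h => hcon.2 ?_⟩
      rw [M.mem_Ad, M.fc_nxt] at h
      exact h.1.2
  have n1 : s' ≠ d := by
    intro h
    apply H.rot_ne d
    rw [h] at e
    exact e
  have n2 : s' ≠ M.nxt (M.rev d) := by
    intro h
    apply H.rot_rot_ne d
    rw [← h, e]
  have n3 : d ≠ M.nxt (M.rev d) := (H.rot_ne d).symm
  have h4 := Finset.card_le_card hsub
  rw [Finset.card_eq_three.mpr ⟨_, _, _, n1, n2, n3, rfl⟩] at h4
  omega

lemma Three.bad_nb_f (H : M.Three) {o : F} {Sus : Finset D} {Z : Finset (V ⊕ F)}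
    (B : Bad M o Sus Z) {d : D} (hz : Sum.inr (M.fc d) ∈ Z) :
    Sum.inl (M.vt d) ∈ Z ∨ Sum.inl (M.vt (M.rev d)) ∈ Z := by
  by_contra hcon
  push Not at hcon
  have h1 := H.bad_few B hz
  set s' := M.nxt.symm d with hs'
  have e : M.nxt s' = d := M.nxt.apply_symm_apply d
  have ev : M.fc s' = M.fc d := by rw [← e, M.fc_nxt]
  have hsub : ({s', d, M.nxt d} : Finset D) ⊆
      univ.filter fun x => M.At (Sum.inr (M.fc d)) x ∧ x ∉ M.Ad Z := by
    intro x hx
    simp only [Finset.mem_insert, Finset.mem_singleton] at hx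
    simp only [Finset.mem_filter, Finset.mem_univ, true_and]
    rcases hx with rfl | rfl | rfl
    · refine ⟨Or.inr (by rw [ev]), fun h => hcon.1 ?_⟩
      rw [M.mem_Ad] at h
      have := M.vt_nxt s'
      rw [e] at this
      rw [this]
      exact h.2.1
    · refine ⟨Or.inr rfl, fun h => hcon.1 ?_⟩
      rw [M.mem_Ad] at h
      exact h.1.1
    · refine ⟨Or.inr (by rw [M.fc_nxt]), fun h => hcon.2 ?_⟩
      rw [M.mem_Ad, M.vt_nxt] at h
      exact h.1.1
  have n1 : s' ≠ d := by
    intro h
    apply H.nxt_ne d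
    rw [h] at e
    exact e
  have n2 : s' ≠ M.nxt d := by
    intro h
    apply H.nxt_nxt_ne d
    rw [← h, e]
  have n3 : d ≠ M.nxt d := (H.nxt_ne d).symm
  have h4 := Finset.card_le_card hsub
  rw [Finset.card_eq_three.mpr ⟨_, _, _, n1, n2, n3, rfl⟩] at h4
  omega

end PMap

end P8ffccf

end
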