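import Pool.Agent.Lib.P8ffccf.Hall

/-! # The Hall condition for Schnyder labellings, part 2 -/

set_option linter.unusedSimpArgs false
set_option linter.unusedVariables false
set_option linter.unusedSectionVars false
set_option linter.style.longLine false

noncomputable section

namespace P8ffccf

open Classical Finset Module

variable {V F D : Type} [Fintype V] [Fintype F] [Fintype D]

namespace PMap

variable {M : PMap V F D}

/-- indicator of the start vertex -/
def ia (M : PMap V F D) (Z : Finset (V ⊕ F)) (d : D) : ℤ := if Sum.inl (M.vt d) ∈ Z then 1 else 0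
/-- indicator of the left face -/
def ib (M : PMap V F D) (Z : Finset (V ⊕ F)) (d : D) : ℤ := if Sum.inr (M.fc d) ∈ Z then 1 else 0

/-- The quad of `d` touches `Z`. -/
def Nb (M : PMap V F D) (Z : Finset (V ⊕ F)) (d : D) : Prop :=
  (Sum.inl (M.vt d) ∈ Z ∨ Sum.inr (M.fc d) ∈ Z) ∨
    (Sum.inl (M.vt (M.rev d)) ∈ Z ∨ Sum.inr (M.fc (M.rev d)) ∈ Z)

lemma nb_rev (Z : Finset (V ⊕ F)) (d : D) : M.Nb Z (M.rev d) ↔ M.Nb Z d := by
  unfold Nb
  rw [M.rev_rev]
  tauto

/-- indicator of touching -/
def iN (M : PMap V F D) (Z : Finset (V ⊕ F)) (d : D) : ℤ := if M.Nb Z d then 1 else 0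

lemma iN_rev (Z : Finset (V ⊕ F)) (d : D) : M.iN Z (M.rev d) = M.iN Z d := by
  unfold iN
  simp only [nb_rev]

lemma ia_nxt (Z : Finset (V ⊕ F)) (d : D) : M.ia Z (M.nxt d) = M.ia Z (M.rev d) := by
  unfold ia
  rw [M.vt_nxt]

lemma ib_nxt (Z : Finset (V ⊕ F)) (d : D) : M.ib Z (M.nxt d) = M.ib Z d := by
  unfold ib
  rw [M.fc_nxt]

lemma sum_dgx (M : PMap V F D) (Z : Finset (V ⊕ F)) :
    ((∑ z ∈ Z, M.dgx z : ℕ) : ℤ) = ∑ d, (M.ia Z d + M.ib Z d) := by
  push_cast
  have h1 : ∀ z, ((M.dgx z : ℕ) : ℤ) = ∑ d, if M.At z d then (1 : ℤ) else 0 := by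
    intro z
    rw [M.dgx_eq, Finset.card_filter]
    push_cast
    rfl
  simp only [h1]
  rw [Finset.sum_comm]
  apply Finset.sum_congr rfl
  intro d _
  have h2 : ∀ z, (if M.At z d then (1 : ℤ) else 0) =
      (if z = Sum.inl (M.vt d) then 1 else 0) + (if z = Sum.inr (M.fc d) then 1 else 0) := by
    intro z
    unfold At
    by_cases a : z = Sum.inl (M.vt d)
    · have b : z ≠ Sum.inr (M.fc d) := by rw [a]; simp
      simp [a]
    · by_cases b : z = Sum.inr (M.fc d)
      · simp [b]
      · simp [a, b]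
  simp only [h2, Finset.sum_add_distrib, Finset.sum_ite_eq']
  rfl

lemma Three.bad_weight (H : M.Three) {o : F} {Sus : Finset D} {Z : Finset (V ⊕ F)}
    (hSus : ∀ s ∈ Sus, M.fc s = o) (B : Bad M o Sus Z) (hne : Z.Nonempty) :
    ∑ c, ((1 - M.ia Z c) * (1 - M.ib Z c)) * (M.iN Z c + M.iN Z (M.nxt.symm c)) ≤ 5 := by
  have ho := H.bad_o B
  obtain ⟨d0, hd0⟩ := M.fc_surj o
  have hdim := H.dim_bound Z hne ⟨d0, fun h => ho (by rw [← hd0]; exact (M.mem_Ad.mp h).1.2)⟩ B.conn
  have hgt := B.gt
  -- capacities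
  have hcap : ∀ z ∈ Z, M.cap o Sus z + 3 = M.dgx z := by
    intro z hz
    rcases z with v | f
    · have h3 := H.three_le_vg v
      show _ = M.vg v
      simp only [cap]
      rw [if_neg]
      · omega
      · rintro ⟨s, hs, rfl⟩
        exact H.bad_sus hSus B hs hz
    · have h3 := H.three_le_dg f
      show _ = M.dg f
      simp only [cap]
      rw [if_neg]
      · omega
      · rintro rfl
        exact ho hz
  have hsum : ∑ z ∈ Z, M.cap o Sus z + 3 * Z.card = ∑ z ∈ Z, M.dgx z := by
    rw [← Finset.sum_congr rfl hcap, Finset.sum_add_distrib]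
    simp [mul_comm]
  have hS := M.sum_dgx Z
  set a := M.ia Z with ha
  set b := M.ib Z with hb
  have anx : ∀ d, a (M.nxt d) = a (M.rev d) := ia_nxt Z
  have bnx : ∀ d, b (M.nxt d) = b d := ib_nxt Z
  have a01 : ∀ d, a d = 0 ∨ a d = 1 := by
    intro d; simp only [ha, ia]; split_ifs <;> simp
  have b01 : ∀ d, b d = 0 ∨ b d = 1 := by
    intro d; simp only [hb, ib]; split_ifs <;> simp
  -- reindexings
  have r1 : ∑ d, a (M.rev d) = ∑ d, a d := M.sum_rev a
  have r2 : ∑ d, b (M.rev d) = ∑ d, b d := M.sum_rev b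
  have r3 : ∑ d, a (M.rev d) * b d = ∑ d, a d * b d := by
    rw [← M.sum_nxt_univ (fun d => a d * b d)]
    apply Finset.sum_congr rfl
    intro d _
    rw [anx, bnx]
  have r4 : ∑ d, a d * b (M.rev d) = ∑ d, a d * b d := by
    rw [← r3, ← M.sum_rev (fun d => a (M.rev d) * b d)]
    apply Finset.sum_congr rfl
    intro d _
    rw [M.rev_rev]
  have r5 : ∑ d, a (M.rev d) * b (M.rev d) = ∑ d, a d * b d := M.sum_rev (fun d => a d * b d)
  have hr : ((univ.filter fun d => Sum.inl (M.vt d) ∈ Z ∧ Sum.inr (M.fc d) ∈ Z).card : ℤ) =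
      ∑ d, a d * b d := by
    rw [Finset.card_filter]
    push_cast
    apply Finset.sum_congr rfl
    intro d _
    simp only [ha, hb, ia, ib]
    by_cases x : Sum.inl (M.vt d) ∈ Z <;> by_cases y : Sum.inr (M.fc d) ∈ Z <;> simp [x, y]
  have hA : ((M.Ad Z).card : ℤ) = ∑ d, a d * b d * (a (M.rev d) * b (M.rev d)) := by
    unfold Ad
    rw [Finset.card_filter]
    push_cast
    apply Finset.sum_congr rfl
    intro d _
    simp only [ha, hb, ia, ib]
    by_cases x : Sum.inl (M.vt d) ∈ Z <;> by_cases y : Sum.inr (M.fc d) ∈ Z <;>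
      by_cases x' : Sum.inl (M.vt (M.rev d)) ∈ Z <;>
      by_cases y' : Sum.inr (M.fc (M.rev d)) ∈ Z <;> simp [x, y, x', y']
  -- the weight inequality
  have hw : ∑ d, (2 * (a d + a (M.rev d) + b d + b (M.rev d)) -
      3 * ((a d + a (M.rev d)) * (b d + b (M.rev d))) +
      4 * (a d * b d * (a (M.rev d) * b (M.rev d)))) < 12 := by
    have e : ∑ d, (2 * (a d + a (M.rev d) + b d + b (M.rev d)) -
      3 * ((a d + a (M.rev d)) * (b d + b (M.rev d))) +
      4 * (a d * b d * (a (M.rev d) * b (M.rev d)))) =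
      2 * (∑ d, a d + ∑ d, a (M.rev d) + ∑ d, b d + ∑ d, b (M.rev d)) -
      3 * (∑ d, a d * b d + ∑ d, a d * b (M.rev d) + ∑ d, a (M.rev d) * b d +
        ∑ d, a (M.rev d) * b (M.rev d)) + 4 * ∑ d, a d * b d * (a (M.rev d) * b (M.rev d)) := by
      simp only [← Finset.sum_add_distrib, Finset.mul_sum, ← Finset.sum_sub_distrib]
      apply Finset.sum_congr rfl
      intro d _
      ring
    rw [e, r1, r2, r3, r4, r5, ← hA]
    rw [Finset.sum_add_distrib] at hS
    have e2 : (2 : ℤ) * ((∑ z ∈ Z, M.cap o Sus z : ℕ) : ℤ) < ((M.Ad Z).card : ℤ) := by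
      exact_mod_cast hgt
    have e3 : ((M.Ad Z).card : ℤ) + 2 * (Z.card : ℤ) ≤ 2 * (∑ d, a d * b d) + 2 := by
      rw [← hr]
      exact_mod_cast hdim
    have e4 : ((∑ z ∈ Z, M.cap o Sus z : ℕ) : ℤ) + 3 * (Z.card : ℤ) =
        ((∑ z ∈ Z, M.dgx z : ℕ) : ℤ) := by exact_mod_cast hsum
    rw [hS] at e4
    linarith
  -- pointwise identity
  have hpt : ∀ d, M.iN Z d * ((1 - b d) * ((1 - a d) + (1 - a (M.rev d)))) +
      M.iN Z d * ((1 - b (M.rev d)) * ((1 - a d) + (1 - a (M.rev d)))) =
      2 * (a d + a (M.rev d) + b d + b (M.rev d)) -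
      3 * ((a d + a (M.rev d)) * (b d + b (M.rev d))) +
      4 * (a d * b d * (a (M.rev d) * b (M.rev d))) := by
    intro d
    have n1 := fun h => H.bad_nb_v B (d := d) h
    have n2 := fun h => H.bad_nb_v B (d := M.rev d) h
    have n3 := fun h => H.bad_nb_f B (d := d) h
    have n4 := fun h => H.bad_nb_f B (d := M.rev d) h
    rw [M.rev_rev] at n2 n4
    simp only [ha, hb, ia, ib, iN, Nb]
    by_cases x : Sum.inl (M.vt d) ∈ Z <;> by_cases y : Sum.inr (M.fc d) ∈ Z <;>
      by_cases x' : Sum.inl (M.vt (M.rev d)) ∈ Z <;>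
      by_cases y' : Sum.inr (M.fc (M.rev d)) ∈ Z <;> simp [x, y, x', y'] at n1 n2 n3 n4 ⊢
  have hT2 : ∑ d, M.iN Z d * ((1 - b (M.rev d)) * ((1 - a d) + (1 - a (M.rev d)))) =
      ∑ d, M.iN Z d * ((1 - b d) * ((1 - a d) + (1 - a (M.rev d)))) := by
    rw [← M.sum_rev (fun d => M.iN Z d * ((1 - b d) * ((1 - a d) + (1 - a (M.rev d)))))]
    apply Finset.sum_congr rfl
    intro d _
    simp only [M.rev_rev, iN_rev]
    ring
  have hT : ∑ c, ((1 - a c) * (1 - b c)) * (M.iN Z c + M.iN Z (M.nxt.symm c)) =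
      ∑ d, M.iN Z d * ((1 - b d) * ((1 - a d) + (1 - a (M.rev d)))) := by
    have e1 : ∑ c, ((1 - a c) * (1 - b c)) * M.iN Z (M.nxt.symm c) =
        ∑ d, ((1 - a (M.rev d)) * (1 - b d)) * M.iN Z d := by
      rw [← M.sum_nxt_univ (fun c => ((1 - a c) * (1 - b c)) * M.iN Z (M.nxt.symm c))]
      apply Finset.sum_congr rfl
      intro d _
      rw [Equiv.symm_apply_apply, anx, bnx]
    have e2 : ∑ c, ((1 - a c) * (1 - b c)) * (M.iN Z c + M.iN Z (M.nxt.symm c)) =
        ∑ c, ((1 - a c) * (1 - b c)) * M.iN Z c +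
        ∑ c, ((1 - a c) * (1 - b c)) * M.iN Z (M.nxt.symm c) := by
      rw [← Finset.sum_add_distrib]
      apply Finset.sum_congr rfl
      intro d _
      ring
    rw [e2, e1, ← Finset.sum_add_distrib]
    apply Finset.sum_congr rfl
    intro d _
    ring
  have hfin : ∑ d, (M.iN Z d * ((1 - b d) * ((1 - a d) + (1 - a (M.rev d)))) +
      M.iN Z d * ((1 - b (M.rev d)) * ((1 - a d) + (1 - a (M.rev d))))) < 12 := by
    rw [Finset.sum_congr rfl (fun d _ => hpt d)]
    exact hw
  rw [Finset.sum_add_distrib, hT2] at hfin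
  rw [hT]
  omega

lemma prop_aux (N N' A C X R : Prop) (h1 : ¬ (N' ↔ N) ↔ ((A ∨ R) ∨ (C ∨ X)))
    (e1 : ¬ (X ∧ A)) (e2 : ¬ (R ∧ A)) (e3 : ¬ (X ∧ C)) (e4 : ¬ (R ∧ C)) :
    (¬ (N' ↔ (A ∨ C))) = (¬ (N ↔ (X ∨ R))) := by
  by_cases hN : N <;> by_cases hN' : N' <;> by_cases hA : A <;> by_cases hC : C <;>
    by_cases hX : X <;> by_cases hR : R <;> simp [hN, hN', hA, hC, hX, hR] at h1 e1 e2 e3 e4 ⊢

lemma or_aux (A B C E : Prop) (G : Prop) : (G ↔ A ∨ B ∨ C ∨ E) → (G ↔ (A ∨ B) ∨ (E ∨ C)) := by
  intro h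
  rw [h]
  constructor
  · rintro (h | h | h | h)
    · exact Or.inl (Or.inl h)
    · exact Or.inl (Or.inr h)
    · exact Or.inr (Or.inr h)
    · exact Or.inr (Or.inl h)
  · rintro ((h | h) | (h | h))
    · exact Or.inl h
    · exact Or.inr (Or.inl h)
    · exact Or.inr (Or.inr (Or.inr h))
    · exact Or.inr (Or.inr (Or.inl h))

set_option maxHeartbeats 1000000 in
/-- The Hall condition. -/
theorem Three.hall_core (H : M.Three) (o : F) (Sus : Finset D) (hSus : ∀ s ∈ Sus, M.fc s = o)
    (hcard : Sus.card = 3) (Z : Finset (V ⊕ F)) :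
    (M.Ad Z).card ≤ 2 * ∑ z ∈ Z, M.cap o Sus z := by
  induction Z using Finset.strongInduction with
  | H Z ih =>
  by_contra hcon
  push Not at hcon
  have B := H.bad_of_min o Sus Z ih hcon
  have hAne : (M.Ad Z).Nonempty := Finset.card_pos.mp (by omega)
  obtain ⟨d1, hd1⟩ := hAne
  have hne : Z.Nonempty := ⟨_, (M.mem_Ad.mp hd1).1.1⟩
  have hw := H.bad_weight hSus B hne
  have ho := H.bad_o B
  have hsus := fun s (hs : s ∈ Sus) => H.bad_sus hSus B hs
  -- boundary
  set Bd : Finset D := univ.filter fun c => ¬ (M.Nb Z c ↔ M.Nb Z (M.nxt.symm c)) with hBd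
  set Db : Finset D := univ.filter fun c => (Sum.inl (M.vt c) ∉ Z ∧ Sum.inr (M.fc c) ∉ Z) ∧
    M.Nb Z c ∧ M.Nb Z (M.nxt.symm c) with hDb
  have hcount : (Bd.card : ℤ) + 2 * Db.card ≤ 5 := by
    refine le_trans (le_of_eq ?_) hw
    rw [hBd, hDb, Finset.card_filter, Finset.card_filter]
    push_cast
    rw [Finset.mul_sum, ← Finset.sum_add_distrib]
    apply Finset.sum_congr rfl
    intro c _
    have e1 : M.vt c = M.vt (M.rev (M.nxt.symm c)) := by
      rw [← M.vt_nxt, Equiv.apply_symm_apply]
    have e2 : M.fc c = M.fc (M.nxt.symm c) := by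
      conv_lhs => rw [← Equiv.apply_symm_apply M.nxt c, M.fc_nxt]
    have t1 : Sum.inl (M.vt c) ∈ Z → M.Nb Z c ∧ M.Nb Z (M.nxt.symm c) :=
      fun h => ⟨Or.inl (Or.inl h), Or.inr (Or.inl (by rw [← e1]; exact h))⟩
    have t2 : Sum.inr (M.fc c) ∈ Z → M.Nb Z c ∧ M.Nb Z (M.nxt.symm c) :=
      fun h => ⟨Or.inl (Or.inr h), Or.inl (Or.inr (by rw [← e2]; exact h))⟩
    simp only [ia, ib, iN]
    by_cases x : Sum.inl (M.vt c) ∈ Z <;> by_cases y : Sum.inr (M.fc c) ∈ Z <;>
      by_cases p : M.Nb Z c <;> by_cases q : M.Nb Z (M.nxt.symm c) <;>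
      simp [x, y, p, q] at t1 t2 ⊢
  -- parity
  let nb : D → ZMod 2 := fun c => if M.Nb Z c then 1 else 0
  have nb_rev' : ∀ c, nb (M.rev c) = nb c := fun c => by simp only [nb, nb_rev]
  let z : D → ZMod 2 := fun c => nb c + nb (M.nxt.symm c)
  have two : ∀ a : ZMod 2, a + a = 0 := by decide
  have hzB : ∀ c, c ∈ Bd ↔ z c = 1 := by
    intro c
    simp only [hBd, Finset.mem_filter, Finset.mem_univ, true_and, z, nb]
    have t11 : ¬ ((1 : ZMod 2) + 1 = 1) := by decide
    by_cases p : M.Nb Z c <;> by_cases q : M.Nb Z (M.nxt.symm c) <;> simp [p, q, t11]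
  have hz0 : ∀ c, c ∉ Bd → z c = 0 := by
    intro c hc
    rw [hzB] at hc
    have : ∀ a : ZMod 2, a ≠ 1 → a = 0 := by decide
    exact this _ hc
  have hzf : ∀ f, ∑ d with M.fc d = f, z d = 0 := by
    intro f
    simp only [z, Finset.sum_add_distrib]
    have := M.sum_nxt f (fun d => nb (M.nxt.symm d))
    simp only [Equiv.symm_apply_apply] at this
    rw [← this]
    exact two _
  have hzv : ∀ v, ∑ d with M.vt d = v, z d = 0 := by
    intro v
    simp only [z, Finset.sum_add_distrib]
    have := M.sum_rot v (fun d => nb (M.nxt.symm d))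
    simp only [Equiv.symm_apply_apply, nb_rev'] at this
    rw [← this]
    exact two _
  have hother : ∀ (s : Finset D), ∑ d ∈ s, z d = 0 → ∀ c ∈ Bd, c ∈ s → ∃ c' ∈ Bd, c' ∈ s ∧ c' ≠ c := by
    intro s hs c hc hcs
    by_contra hno
    push Not at hno
    rw [Finset.sum_eq_single c] at hs
    · rw [(hzB c).mp hc] at hs
      exact one_ne_zero hs
    · intro c' hc' hne'
      apply hz0
      intro hcB
      exact hne' (hno c' hcB hc')
    · intro h; exact absurd hcs h
  have hpar : Even Bd.card := by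
    have h1 : ∑ c, z c = 0 := by
      simp only [z, Finset.sum_add_distrib]
      have := M.sum_nxt_univ (fun d => nb (M.nxt.symm d))
      simp only [Equiv.symm_apply_apply] at this
      rw [← this]
      exact two _
    have h2 : ∑ c, z c = (Bd.card : ZMod 2) := by
      rw [Finset.card_eq_sum_ones]
      push_cast
      rw [← Finset.sum_subset (Finset.subset_univ Bd)]
      · apply Finset.sum_congr rfl
        intro c hc
        exact (hzB c).mp hc
      · intro c _ hc
        exact hz0 c hc
    rw [h1] at h2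
    exact (ZMod.natCast_eq_zero_iff_even).mp h2.symm
  -- suspension corners not in the boundary are double
  have hsusDb : ∀ s ∈ Sus, M.Nb Z s → M.Nb Z (M.nxt.symm s) → s ∈ Db := by
    intro s hs h1 h2
    simp only [hDb, Finset.mem_filter, Finset.mem_univ, true_and]
    exact ⟨⟨hsus s hs, by rw [hSus s hs]; exact ho⟩, h1, h2⟩
  have hNb1 : M.Nb Z d1 := Or.inl (Or.inl (M.mem_Ad.mp hd1).1.1)
  rcases Finset.eq_empty_or_nonempty Bd with hE | ⟨c1, hc1⟩
  · -- everything touches `Z`
    have hall : ∀ d, M.Nb Z d := by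
      intro d
      have := M.dart_const (fun c => M.Nb Z c) (by
        intro c
        have : M.nxt c ∉ Bd := by rw [hE]; exact Finset.notMem_empty _
        simp only [hBd, Finset.mem_filter, Finset.mem_univ, true_and, not_not,
          Equiv.symm_apply_apply] at this
        exact propext this) (fun c => propext (nb_rev Z c)) d1 d
      rw [← this]
      exact hNb1
    have hsub : Sus ⊆ Db := fun s hs => hsusDb s hs (hall _) (hall _)
    have := Finset.card_le_card hsub
    omega
  · obtain ⟨c2, hc2, hc2v, h21⟩ := hother _ (hzv (M.vt c1)) c1 hc1 (by simp)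
    obtain ⟨c3, hc3, hc3f, h31⟩ := hother _ (hzf (M.fc c1)) c1 hc1 (by simp)
    simp only [Finset.mem_filter, Finset.mem_univ, true_and] at hc2v hc3f
    obtain ⟨c4, hc4, hc4v, h43⟩ := hother _ (hzv (M.vt c3)) c3 hc3 (by simp)
    obtain ⟨c5, hc5, hc5f, h52⟩ := hother _ (hzf (M.fc c2)) c2 hc2 (by simp)
    simp only [Finset.mem_filter, Finset.mem_univ, true_and] at hc4v hc5f
    have f12 : M.fc c1 ≠ M.fc c2 := fun h => h21 (H.corner_unique hc2v h.symm)
    have v13 : M.vt c1 ≠ M.vt c3 := fun h => h31 (H.corner_unique h.symm hc3f)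
    have f34 : M.fc c3 ≠ M.fc c4 := fun h => h43 (H.corner_unique hc4v h.symm)
    have v25 : M.vt c2 ≠ M.vt c5 := fun h => h52 (H.corner_unique h.symm hc5f)
    have n13 : c1 ≠ c3 := fun h => v13 (by rw [h])
    have n14 : c1 ≠ c4 := fun h => v13 (by rw [h, hc4v])
    have n23 : c2 ≠ c3 := fun h => v13 (by rw [← hc2v, h])
    have n24 : c2 ≠ c4 := fun h => v13 (by rw [← hc2v, h, hc4v])
    have n15 : c1 ≠ c5 := fun h => f12 (by rw [h, hc5f])
    have n35 : c3 ≠ c5 := fun h => f12 (by rw [← hc3f, h, hc5f])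
    have hle5 : Bd.card ≤ 5 := by omega
    have hc45 : c4 = c5 := by
      by_contra hne45
      have hsub : ({c1, c2, c3, c4, c5} : Finset D) ⊆ Bd := by
        intro x hx
        simp only [Finset.mem_insert, Finset.mem_singleton] at hx
        rcases hx with rfl | rfl | rfl | rfl | rfl <;> assumption
      have hc : ({c1, c2, c3, c4, c5} : Finset D).card = 5 := by
        rw [Finset.card_insert_of_notMem, Finset.card_insert_of_notMem,
          Finset.card_insert_of_notMem, Finset.card_insert_of_notMem, Finset.card_singleton]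
        · simp only [Finset.mem_singleton]; exact hne45
        · simp only [Finset.mem_insert, Finset.mem_singleton, not_or]; exact ⟨h43.symm, n35⟩
        · simp only [Finset.mem_insert, Finset.mem_singleton, not_or]
          exact ⟨n23, n24, h52.symm⟩
        · simp only [Finset.mem_insert, Finset.mem_singleton, not_or]
          exact ⟨h21.symm, n13, n14, n15⟩
      have := Finset.card_le_card hsub
      obtain ⟨k, hk⟩ := hpar
      omega
    rw [← hc45] at hc5f
    have hBd4 : Bd = {c1, c2, c3, c4} := by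
      symm
      apply Finset.eq_of_subset_of_card_le
      · intro x hx
        simp only [Finset.mem_insert, Finset.mem_singleton] at hx
        rcases hx with rfl | rfl | rfl | rfl <;> assumption
      · rw [Finset.card_insert_of_notMem, Finset.card_insert_of_notMem,
          Finset.card_insert_of_notMem, Finset.card_singleton]
        · obtain ⟨k, hk⟩ := hpar
          omega
        · simp only [Finset.mem_singleton]; exact h43.symm
        · simp only [Finset.mem_insert, Finset.mem_singleton, not_or]; exact ⟨n23, n24⟩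
        · simp only [Finset.mem_insert, Finset.mem_singleton, not_or]
          exact ⟨h21.symm, n13, n14⟩
    have hBdc : Bd.card = 4 := by
      rw [hBd4, Finset.card_insert_of_notMem, Finset.card_insert_of_notMem,
          Finset.card_insert_of_notMem, Finset.card_singleton]
      · simp only [Finset.mem_singleton]; exact h43.symm
      · simp only [Finset.mem_insert, Finset.mem_singleton, not_or]; exact ⟨n23, n24⟩
      · simp only [Finset.mem_insert, Finset.mem_singleton, not_or]
        exact ⟨h21.symm, n13, n14⟩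
    have hDb0 : Db.card = 0 := by omega
    obtain ⟨x, hx1, hx2, hx3⟩ := H.two_faces (du := c1) (du' := c2) (dv := c3) (dv' := c4) v13 rfl
      hc2v rfl hc4v hc3f.symm hc5f.symm f12
    -- the four corners of the quad of x
    have hev : M.vt (M.nxt (M.rev x)) = M.vt x := M.vt_rot x
    have hfx : M.fc x ≠ M.fc (M.rev x) := (H.fc_rev_ne x).symm
    have hquad : ∀ c, c ∈ Bd ↔ (c = x ∨ c = M.nxt (M.rev x)) ∨ (c = M.rev x ∨ c = M.nxt x) := by
      have h34 : (c3 = M.nxt x ∧ c4 = M.rev x) ∨ (c4 = M.nxt x ∧ c3 = M.rev x) := by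
        rcases hx3 with ⟨a, b⟩ | ⟨a, b⟩
        · left
          constructor
          · apply H.corner_unique
            · rw [M.vt_nxt, hx2]
            · rw [M.fc_nxt, ← a, hc3f]
          · apply H.corner_unique
            · rw [hx2, hc4v]
            · rw [hc5f, b, M.fc_nxt]
        · right
          constructor
          · apply H.corner_unique
            · rw [M.vt_nxt, hx2, hc4v]
            · rw [M.fc_nxt, ← a, hc5f]
          · apply H.corner_unique
            · rw [hx2]
            · rw [hc3f, b, M.fc_nxt]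
      intro c
      have hmem : c ∈ Bd ↔ c = c1 ∨ c = c2 ∨ c = c3 ∨ c = c4 := by
        rw [hBd4]
        simp only [Finset.mem_insert, Finset.mem_singleton]
      clear hcount hpar hzB hz0 hzf hzv hother hsusDb hBd4 hBdc hDb0 hle5 ih hcon hw hsus
      rw [hmem]
      rcases hx3 with ⟨a, b⟩ | ⟨a, b⟩ <;> rcases h34 with ⟨p, q⟩ | ⟨p, q⟩ <;>
        rw [a, b, p, q]
      · constructor
        · rintro (h | h | h | h) <;> simp [h]
        · rintro ((h | h) | (h | h)) <;> simp [h]
      · constructor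
        · rintro (h | h | h | h) <;> simp [h]
        · rintro ((h | h) | (h | h)) <;> simp [h]
      · constructor
        · rintro (h | h | h | h) <;> simp [h]
        · rintro ((h | h) | (h | h)) <;> simp [h]
      · constructor
        · rintro (h | h | h | h) <;> simp [h]
        · rintro ((h | h) | (h | h)) <;> simp [h]
    -- modify by the quad of x
    let g : D → Prop := fun d => ¬ (M.Nb Z d ↔ (d = x ∨ d = M.rev x))
    have hg1 : ∀ d, g (M.nxt d) = g d := by
      intro d
      have h1 := hquad (M.nxt d)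
      simp only [hBd, Finset.mem_filter, Finset.mem_univ, true_and, Equiv.symm_apply_apply] at h1
      have i1 : M.nxt d = M.nxt (M.rev x) ↔ d = M.rev x := M.nxt.injective.eq_iff
      have i2 : M.nxt d = M.nxt x ↔ d = x := M.nxt.injective.eq_iff
      rw [i1, i2] at h1
      have e1 : ¬ (d = x ∧ M.nxt d = x) := by
        rintro ⟨rfl, h⟩; exact H.nxt_ne _ h
      have e2 : ¬ (d = M.rev x ∧ M.nxt d = x) := by
        rintro ⟨rfl, h⟩; exact H.rot_ne _ h
      have e3 : ¬ (d = x ∧ M.nxt d = M.rev x) := by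
        rintro ⟨rfl, h⟩
        apply hfx
        rw [← h, M.fc_nxt]
      have e4 : ¬ (d = M.rev x ∧ M.nxt d = M.rev x) := by
        rintro ⟨rfl, h⟩; exact H.nxt_ne _ h
      exact prop_aux (M.Nb Z d) (M.Nb Z (M.nxt d)) (M.nxt d = x) (M.nxt d = M.rev x) (d = x)
        (d = M.rev x) h1 e1 e2 e3 e4
    have hg2 : ∀ d, g (M.rev d) = g d := by
      intro d
      simp only [g]
      apply propext
      rw [nb_rev]
      have i1 : M.rev d = x ↔ d = M.rev x := by
        constructor
        · intro h; rw [← h, M.rev_rev]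
        · intro h; rw [h, M.rev_rev]
      have i2 : M.rev d = M.rev x ↔ d = x := ⟨fun h => M.rev_inj h, fun h => by rw [h]⟩
      rw [i1, i2, or_comm]
    have hconst := M.dart_const g hg1 hg2
    by_cases hgx : g x
    · -- N is the complement of the quad
      have hN : ∀ d, d ≠ x → d ≠ M.rev x → M.Nb Z d := by
        intro d h1 h2
        have : g d := by rw [← hconst x d]; exact hgx
        simp only [g, h1, h2, or_self, iff_false, not_not] at this
        exact this
      have hSsub : ∀ s ∈ Sus, (s = x ∨ s = M.rev x) ∨ (s = M.nxt x ∨ s = M.nxt (M.rev x)) := by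
        intro s hs
        by_contra hcon2
        push Not at hcon2
        have k1 := hN s hcon2.1.1 hcon2.1.2
        have k2 := hN (M.nxt.symm s) (fun h => hcon2.2.1 (by rw [← h, Equiv.apply_symm_apply]))
          (fun h => hcon2.2.2 (by rw [← h, Equiv.apply_symm_apply]))
        have := hsusDb s hs k1 k2
        rw [Finset.card_eq_zero] at hDb0
        rw [hDb0] at this
        exact Finset.notMem_empty _ this
      have hle2 : Sus.card ≤ 2 := by
        by_cases hfo : M.fc x = o
        · have : Sus ⊆ {x, M.nxt x} := by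
            intro s hs
            have h1 := hSus s hs
            simp only [Finset.mem_insert, Finset.mem_singleton]
            rcases hSsub s hs with (h | h) | (h | h)
            · exact Or.inl h
            · exfalso; rw [h] at h1; exact hfx (by rw [hfo, h1])
            · exact Or.inr h
            · exfalso; rw [h, M.fc_nxt] at h1; exact hfx (by rw [hfo, h1])
          exact (Finset.card_le_card this).trans Finset.card_le_two
        · have : Sus ⊆ {M.rev x, M.nxt (M.rev x)} := by
            intro s hs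
            have h1 := hSus s hs
            simp only [Finset.mem_insert, Finset.mem_singleton]
            rcases hSsub s hs with (h | h) | (h | h)
            · exfalso; rw [h] at h1; exact hfo h1
            · exact Or.inl h
            · exfalso; rw [h, M.fc_nxt] at h1; exact hfo h1
            · exact Or.inr h
          exact (Finset.card_le_card this).trans Finset.card_le_two
      omega
    · -- N is the quad
      have hN : ∀ d, M.Nb Z d → d = x ∨ d = M.rev x := by
        intro d hd
        have : ¬ g d := by rw [← hconst x d]; exact hgx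
        simp only [g, not_not] at this
        exact this.mp hd
      have hv := (M.mem_Ad.mp hd1).1.1
      have k1 := hN d1 hNb1
      have k2 := hN (M.nxt (M.rev d1)) (Or.inl (Or.inl (by
        rw [M.vt_nxt, M.rev_rev]; exact hv)))
      have k3 := hN (M.nxt (M.rev (M.nxt (M.rev d1)))) (Or.inl (Or.inl (by
        rw [M.vt_nxt, M.rev_rev, M.vt_nxt, M.rev_rev]; exact hv)))
      have m1 := H.rot_ne d1
      have m2 := H.rot_rot_ne d1
      have m3 := H.rot_ne (M.nxt (M.rev d1))
      rcases k1 with k1 | k1 <;> rcases k2 with k2 | k2 <;> rcases k3 with k3 | k3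
      · exact m1 (by rw [k2]; exact k1.symm)
      · exact m1 (by rw [k2]; exact k1.symm)
      · exact m2 (by rw [k3]; exact k1.symm)
      · exact m3 (by rw [k3]; exact k2.symm)
      · exact m3 (by rw [k3]; exact k2.symm)
      · exact m2 (by rw [k3]; exact k1.symm)
      · exact m1 (by rw [k2]; exact k1.symm)
      · exact m1 (by rw [k2]; exact k1.symm)

end PMap

end P8ffccf

end
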