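import Pool.Agent.Lib.P8ffccf.Label

/-! # Local structure of a Schnyder labelling -/

set_option linter.unusedSimpArgs false
set_option linter.unusedVariables false
set_option linter.unusedSectionVars false
set_option linter.style.longLine false

noncomputable section

namespace P8ffccf

open Classical Finset Module

variable {V F D : Type} [Fintype V] [Fintype F] [Fintype D]

namespace PMap

variable {M : PMap V F D} {o : F}

namespace Lab

variable (L : Lab M o)

lemma not_cV_out {d : D} (h : M.fc d = o) : ¬ L.cV d := fun h' => L.vf d h' (L.out d h)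

lemma not_cV_out' {d : D} (h : M.fc (M.rev d) = o) : ¬ L.cV d := fun h' => L.vf' d h' (L.out _ h)

lemma cF_out {d : D} (h : M.fc (M.rev d) = o) : ¬ L.cF d := fun h' => L.ff d h' (L.out _ h)

/-- Chain darts (edge chosen by the left face). -/
lemma chain (d : D) (hd : M.fc d ≠ o) (h : L.cF d) : M.fc (M.rev d) ≠ o ∧ ¬ L.cF (M.rev d) ∧
    L.l (M.nxt d) = L.l d ∧ L.l (M.rev d) = L.l d + 1 ∧ L.l (M.nxt (M.rev d)) = L.l d + 2 := by
  have h1 : M.fc (M.rev d) ≠ o := fun h' => L.cF_out h' h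
  have h2 : ¬ L.cF (M.rev d) := L.ff d h
  have h3 : ¬ L.cV (M.rev d) := by
    intro h'
    have := L.vf' _ h'
    rw [M.rev_rev] at this
    exact this h
  have e1 := L.lf d hd
  rw [if_pos h, add_zero] at e1
  have e2 := L.lv (M.rev d) h1 (by rw [M.rev_rev]; exact hd)
  rw [if_neg h3, M.rev_rev, e1] at e2
  have e3 := L.lf (M.rev d) h1
  rw [if_neg h2, e2] at e3
  refine ⟨h1, h2, e1, e2, ?_⟩
  rw [e3]
  ring

/-- Special darts chosen by the start vertex. -/
lemma uniV (d : D) (h : L.cV d) : M.fc d ≠ o ∧ M.fc (M.rev d) ≠ o ∧ ¬ L.cF d ∧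
    ¬ L.cF (M.rev d) ∧ L.l (M.nxt d) = L.l d + 1 ∧ L.l (M.rev d) = L.l d + 2 ∧
    L.l (M.nxt (M.rev d)) = L.l d := by
  have h1 : M.fc (M.rev d) ≠ o := fun h' => L.not_cV_out' h' h
  have h2 : M.fc d ≠ o := fun h' => L.not_cV_out h' h
  have h3 := L.vf d h
  have h4 := L.vf' d h
  have e1 := L.lf d h2
  rw [if_neg h3] at e1
  have e2 := L.lv d h2 h1
  rw [if_pos h, add_zero] at e2
  have e3 := L.lf (M.rev d) h1
  rw [if_neg h4, ← e2] at e3
  refine ⟨h2, h1, h3, h4, e1, ?_, e2.symm⟩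
  have three : (1 : ZMod 3) + 1 + 1 = 0 := by decide
  rw [e3]
  linear_combination -three

/-- Special darts whose reversal is a chain dart. -/
lemma uniF (d : D) (hd : M.fc d ≠ o) (h' : M.fc (M.rev d) ≠ o) (h : L.cF (M.rev d)) :
    ¬ L.cF d ∧ L.l (M.nxt d) = L.l d + 1 ∧ L.l (M.rev d) = L.l d + 2 ∧
    L.l (M.nxt (M.rev d)) = L.l d + 2 := by
  obtain ⟨h1, h2, h3, h4, h5⟩ := L.chain (M.rev d) h' h
  rw [M.rev_rev] at h1 h2 h4 h5
  have three : (1 : ZMod 3) + 1 + 1 = 0 := by decide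
  have e : L.l (M.rev d) = L.l d + 2 := by
    rw [h4]
    linear_combination -three
  refine ⟨h2, ?_, e, by rw [h3, e]⟩
  rw [h5, h4]
  ring

lemma special_step (d : D) (hd : M.fc d ≠ o) (h : ¬ L.cF d) : L.l (M.nxt d) = L.l d + 1 := by
  rw [L.lf d hd, if_neg h]

lemma card_spec (f : F) (hf : f ≠ o) (j : ZMod 3) :
    (univ.filter fun x => (M.fc x = f ∧ ¬ L.cF x) ∧ L.l x = j).card = 1 := by
  set A : ZMod 3 → ℕ := fun j => (univ.filter fun x => (M.fc x = f ∧ ¬ L.cF x) ∧ L.l x = j).card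
    with hA
  have hstep : ∀ j, A j = A (j + 1) := by
    intro j
    have h1 : (A j : ℤ) = ∑ d with M.fc d = f, (if ¬ L.cF d ∧ L.l d = j then (1 : ℤ) else 0) := by
      rw [hA]
      simp only
      rw [Finset.card_filter, Finset.sum_filter]
      push_cast
      apply Finset.sum_congr rfl
      intro d _
      by_cases a : M.fc d = f <;> by_cases b : L.cF d <;> by_cases c : L.l d = j <;> simp [a, b, c]
    have h2 : (A (j + 1) : ℤ) =
        ∑ d with M.fc d = f, (if ¬ L.cF d ∧ L.l d = j + 1 then (1 : ℤ) else 0) := by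
      rw [hA]
      simp only
      rw [Finset.card_filter, Finset.sum_filter]
      push_cast
      apply Finset.sum_congr rfl
      intro d _
      by_cases a : M.fc d = f <;> by_cases b : L.cF d <;> by_cases c : L.l d = j + 1 <;>
        simp [a, b, c]
    have h3 := M.sum_nxt f (fun d => if L.l d = j + 1 then (1 : ℤ) else 0)
    have h4 : ∑ d with M.fc d = f, ((if L.l (M.nxt d) = j + 1 then (1 : ℤ) else 0) -
        (if L.l d = j + 1 then (1 : ℤ) else 0)) =
        ∑ d with M.fc d = f, ((if ¬ L.cF d ∧ L.l d = j then (1 : ℤ) else 0) -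
          (if ¬ L.cF d ∧ L.l d = j + 1 then (1 : ℤ) else 0)) := by
      apply Finset.sum_congr rfl
      intro d hd
      simp only [Finset.mem_filter, Finset.mem_univ, true_and] at hd
      have hd' : M.fc d ≠ o := by rw [hd]; exact hf
      by_cases a : L.cF d
      · have e1 := L.lf d hd'
        rw [if_pos a, add_zero] at e1
        simp [a, e1]
      · have e1 := L.lf d hd'
        rw [if_neg a] at e1
        rw [e1]
        simp [a]
    rw [Finset.sum_sub_distrib, h3, sub_self, Finset.sum_sub_distrib, ← h1, ← h2] at h4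
    omega
  have htot : A 0 + A 1 + A 2 = 3 := by
    refine Eq.trans ?_ (L.cntF f hf)
    rw [hA]
    simp only
    rw [Finset.card_filter, Finset.card_filter, Finset.card_filter, Finset.card_filter,
      ← Finset.sum_add_distrib, ← Finset.sum_add_distrib]
    apply Finset.sum_congr rfl
    intro d _
    have h3 : ∀ a : ZMod 3, (if a = 0 then 1 else 0) + (if a = 1 then 1 else 0) +
      (if a = 2 then 1 else 0) = (1 : ℕ) := by decide
    have := h3 (L.l d)
    by_cases a : M.fc d = f <;> by_cases b : L.cF d <;> simp [a, b]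
    exact this
  have e0 : A 0 = A 1 := hstep 0
  have e1 : A 1 = A 2 := hstep 1
  have hj : ∀ j : ZMod 3, j = 0 ∨ j = 1 ∨ j = 2 := by decide
  show A j = 1
  rcases hj j with rfl | rfl | rfl <;> omega

lemma exists_spec (f : F) (hf : f ≠ o) (j : ZMod 3) :
    ∃ x, M.fc x = f ∧ ¬ L.cF x ∧ L.l x = j := by
  have h := L.card_spec f hf j
  obtain ⟨x, hx⟩ := Finset.card_pos.mp (by rw [h]; exact one_pos)
  simp only [Finset.mem_filter, Finset.mem_univ, true_and] at hx
  exact ⟨x, hx.1.1, hx.1.2, hx.2⟩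

lemma spec_unique {x y : D} (hx : M.fc x ≠ o) (hxy : M.fc x = M.fc y) (h1 : ¬ L.cF x)
    (h2 : ¬ L.cF y) (h3 : L.l x = L.l y) : x = y := by
  have h := L.card_spec (M.fc x) hx (L.l x)
  rw [Finset.card_eq_one] at h
  obtain ⟨a, ha⟩ := h
  have m1 : x ∈ ({a} : Finset D) := by
    rw [← ha]
    simp [h1]
  have m2 : y ∈ ({a} : Finset D) := by
    rw [← ha]
    simp [h2, h3, hxy]
  rw [Finset.mem_singleton] at m1 m2
  rw [m1, m2]

/-- The special dart of index `k` of the face `f` (labels `k+1 → k+2`). -/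
def sp (k : ZMod 3) (f : F) : D :=
  if h : f ≠ o then (L.exists_spec f h (k + 1)).choose else (M.fc_surj f).choose

lemma sp_fc (k : ZMod 3) (f : F) : M.fc (L.sp k f) = f := by
  unfold sp
  split_ifs with h
  · exact (L.exists_spec f h (k + 1)).choose_spec.1
  · exact (M.fc_surj f).choose_spec

lemma sp_cF (k : ZMod 3) {f : F} (hf : f ≠ o) : ¬ L.cF (L.sp k f) := by
  unfold sp
  rw [dif_pos hf]
  exact (L.exists_spec f hf (k + 1)).choose_spec.2.1

lemma sp_l (k : ZMod 3) {f : F} (hf : f ≠ o) : L.l (L.sp k f) = k + 1 := by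
  unfold sp
  rw [dif_pos hf]
  exact (L.exists_spec f hf (k + 1)).choose_spec.2.2

lemma sp_unique (k : ZMod 3) {x : D} (hx : M.fc x ≠ o) (h1 : ¬ L.cF x) (h2 : L.l x = k + 1) :
    x = L.sp k (M.fc x) :=
  L.spec_unique hx (L.sp_fc k _).symm h1 (L.sp_cF k hx) (by rw [L.sp_l k hx, h2])

/-- The parent of the face `f` in colour `k`. -/
def par (k : ZMod 3) (f : F) : F := if f = o then o else M.fc (M.rev (L.sp k f))

lemma par_o (k : ZMod 3) : L.par k o = o := by simp [par]

lemma par_eq (k : ZMod 3) {f : F} (hf : f ≠ o) : L.par k f = M.fc (M.rev (L.sp k f)) := by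
  simp [par, hf]

/-- `d` is a dart of its face across which lies a child of colour `k`. -/
def Ch (k : ZMod 3) (d : D) : Prop :=
  M.fc (M.rev d) ≠ o ∧ ¬ L.cF (M.rev d) ∧ L.l (M.rev d) = k + 1

lemma Ch.sp {L : Lab M o} {k : ZMod 3} {d : D} (h : L.Ch k d) :
    M.rev d = L.sp k (M.fc (M.rev d)) := L.sp_unique k h.1 h.2.1 h.2.2

lemma Ch.par {L : Lab M o} {k : ZMod 3} {d : D} (h : L.Ch k d) :
    L.par k (M.fc (M.rev d)) = M.fc d := by
  rw [L.par_eq k h.1, ← h.sp, M.rev_rev]

lemma ch_sp (k : ZMod 3) {f : F} (hf : f ≠ o) : L.Ch k (M.rev (L.sp k f)) := by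
  refine ⟨?_, ?_, ?_⟩
  · rw [M.rev_rev, L.sp_fc]; exact hf
  · rw [M.rev_rev]; exact L.sp_cF k hf
  · rw [M.rev_rev]; exact L.sp_l k hf

/-- Child darts with the same child are equal. -/
lemma Ch.inj {L : Lab M o} {k : ZMod 3} {d d' : D} (h : L.Ch k d) (h' : L.Ch k d')
    (he : M.fc (M.rev d) = M.fc (M.rev d')) : d = d' := by
  apply M.rev_inj
  rw [h.sp, h'.sp, he]

/-- The three kinds of child darts of colour `k` in an inner face. -/
lemma Ch.kind {L : Lab M o} {k : ZMod 3} {d : D} (h : L.Ch k d) (hd : M.fc d ≠ o) :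
    (L.cF d ∧ L.l d = k ∧ L.l (M.nxt d) = k) ∨
    (L.cV d ∧ ¬ L.cF d ∧ L.l d = k + 2 ∧ L.l (M.nxt d) = k) ∨
    (L.cV (M.rev d) ∧ ¬ L.cF d ∧ L.l d = k ∧ L.l (M.nxt d) = k + 1) := by
  have three : (1 : ZMod 3) + 1 + 1 = 0 := by decide
  rcases L.four d with a | a | a | a
  · right; left
    obtain ⟨h1, h2, h3, h4, h5, h6, h7⟩ := L.uniV d a
    have e : L.l d = k + 2 := by
      rw [h.2.2] at h6
      linear_combination -h6 - three
    refine ⟨a, h3, e, ?_⟩
    rw [h5, e]
    linear_combination three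
  · right; right
    obtain ⟨h1, h2, h3, h4, h5, h6, h7⟩ := L.uniV (M.rev d) a
    rw [M.rev_rev] at h2 h4 h6 h7
    rw [h.2.2] at h6 h7
    refine ⟨a, h4, ?_, h7⟩
    rw [h6]
    linear_combination three
  · left
    obtain ⟨h1, h2, h3, h4, h5⟩ := L.chain d hd a
    have e : L.l d = k := by
      rw [h.2.2] at h4
      exact (add_right_cancel h4).symm
    exact ⟨a, e, by rw [h3, e]⟩
  · exact absurd a h.2.1

end Lab

end PMap

end P8ffccf

end
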