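import Pool.Agent.Lib.P8ffccf.Hall2

/-! # Schnyder labellings of 3-connected planar maps -/

set_option linter.unusedSimpArgs false
set_option linter.unusedVariables false
set_option linter.unusedSectionVars false
set_option linter.style.longLine false

noncomputable section

namespace P8ffccf

open Classical Finset Module

variable {V F D : Type} [Fintype V] [Fintype F] [Fintype D]

namespace PMap

variable {M : PMap V F D}

lemma Three.sum_cap (H : M.Three) (o : F) (Sus : Finset D) (hSus : ∀ s ∈ Sus, M.fc s = o)
    (hcard : Sus.card = 3) : ∑ x, M.cap o Sus x = Fintype.card M.Edge := by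
  rw [Fintype.sum_sum_type]
  have h1 : ∑ v, M.cap o Sus (Sum.inl v) + 3 * Fintype.card V = Fintype.card D + 3 := by
    have e1 : ∀ v, M.cap o Sus (Sum.inl v) + 3 = M.vg v + (if ∃ s ∈ Sus, M.vt s = v then 1 else 0) := by
      intro v
      have := H.three_le_vg v
      simp only [cap]
      omega
    have e2 : ∑ v, (M.cap o Sus (Sum.inl v) + 3) =
        ∑ v, (M.vg v + (if ∃ s ∈ Sus, M.vt s = v then 1 else 0)) :=
      Finset.sum_congr rfl fun v _ => e1 v
    rw [Finset.sum_add_distrib, Finset.sum_add_distrib, M.sum_vg, ← Finset.card_filter] at e2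
    have e3 : (univ.filter fun v => ∃ s ∈ Sus, M.vt s = v) = Sus.image M.vt := by
      ext v
      simp
    rw [e3, Finset.card_image_of_injOn, hcard] at e2
    · simp only [Finset.sum_const, Finset.card_univ, smul_eq_mul] at e2
      omega
    · intro a ha b hb hab
      exact H.corner_unique hab (by rw [hSus a ha, hSus b hb])
  have h2 : ∑ f, M.cap o Sus (Sum.inr f) + 3 * Fintype.card F = Fintype.card D + 3 := by
    have e1 : ∀ f, M.cap o Sus (Sum.inr f) + 3 = M.dg f + (if f = o then 3 else 0) := by
      intro f
      have := H.three_le_dg f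
      simp only [cap]
      split_ifs <;> omega
    have e2 : ∑ f, (M.cap o Sus (Sum.inr f) + 3) = ∑ f, (M.dg f + (if f = o then 3 else 0)) :=
      Finset.sum_congr rfl fun v _ => e1 v
    rw [Finset.sum_add_distrib, Finset.sum_add_distrib, M.sum_dg, Finset.sum_ite_eq'] at e2
    simp only [Finset.sum_const, Finset.card_univ, smul_eq_mul, Finset.mem_univ, if_true] at e2
    omega
  have h3 := M.card_edge
  have h4 := M.card_vf
  omega

/-- Every edge chooses one of its four elements with prescribed multiplicities. -/
theorem Three.exists_own (H : M.Three) (o : F) (Sus : Finset D) (hSus : ∀ s ∈ Sus, M.fc s = o)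
    (hcard : Sus.card = 3) : ∃ own : M.Edge → V ⊕ F,
      (∀ e, M.At (own e) e.1 ∨ M.At (own e) (M.rev e.1)) ∧
      (∀ x, (univ.filter fun e => own e = x).card = M.cap o Sus x) := by
  let ι : Type := (x : V ⊕ F) × Fin (M.cap o Sus x)
  let t : ι → Finset M.Edge := fun s => univ.filter fun e => M.At s.1 e.1 ∨ M.At s.1 (M.rev e.1)
  have htot := H.sum_cap o Sus hSus hcard
  have hcι : Fintype.card ι = Fintype.card M.Edge := by
    rw [← htot]
    simp only [ι, Fintype.card_sigma, Fintype.card_fin]
  have hall : ∀ s : Finset ι, s.card ≤ (s.biUnion t).card := by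
    intro s
    set Y := s.image Sigma.fst with hY
    have h1 : s.card ≤ ∑ x ∈ Y, M.cap o Sus x := by
      calc s.card ≤ (Y.sigma fun x => (Finset.univ : Finset (Fin (M.cap o Sus x)))).card := by
            apply Finset.card_le_card
            intro a ha
            rw [Finset.mem_sigma]
            exact ⟨Finset.mem_image_of_mem _ ha, Finset.mem_univ _⟩
        _ = ∑ x ∈ Y, M.cap o Sus x := by
            rw [Finset.card_sigma]
            simp
    have h2 : (univ.filter fun e : M.Edge => e.1 ∈ M.Ad Yᶜ).card + (s.biUnion t).card =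
        Fintype.card M.Edge := by
      rw [← Finset.card_univ, ← Finset.card_filter_add_card_filter_not
        (s := (univ : Finset M.Edge)) (fun e => e.1 ∈ M.Ad Yᶜ)]
      congr 2
      ext e
      simp only [Finset.mem_biUnion, Finset.mem_filter, Finset.mem_univ, true_and, t, mem_Ad,
        Finset.mem_compl]
      constructor
      · rintro ⟨a, ha, hat⟩ hcon
        have haY : a.1 ∈ Y := Finset.mem_image_of_mem _ ha
        rcases hat with (h | h) | (h | h)
        · exact hcon.1.1 (h ▸ haY)
        · exact hcon.1.2 (h ▸ haY)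
        · exact hcon.2.1 (h ▸ haY)
        · exact hcon.2.2 (h ▸ haY)
      · intro hcon
        have : ∃ x ∈ Y, M.At x e.1 ∨ M.At x (M.rev e.1) := by
          by_contra hno
          push Not at hno
          apply hcon
          refine ⟨⟨fun h => (hno _ h).1 (Or.inl rfl), fun h => (hno _ h).1 (Or.inr rfl)⟩,
            ⟨fun h => (hno _ h).2 (Or.inl rfl), fun h => (hno _ h).2 (Or.inr rfl)⟩⟩
        obtain ⟨x, hx, hat⟩ := this
        rw [hY, Finset.mem_image] at hx
        obtain ⟨a, ha, rfl⟩ := hx
        exact ⟨a, ha, hat⟩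
    have h3 : (M.Ad Yᶜ).card = 2 * (univ.filter fun e : M.Edge => e.1 ∈ M.Ad Yᶜ).card := by
      have h := M.sum_edge (fun d => if d ∈ M.Ad Yᶜ then 1 else 0)
      simp only [M.rev_mem_Ad] at h
      rw [← Finset.card_filter] at h
      have h1 : (univ.filter fun d => d ∈ M.Ad Yᶜ) = M.Ad Yᶜ := by ext; simp
      rw [h1] at h
      rw [h, Finset.card_filter, Finset.mul_sum]
      apply Finset.sum_congr rfl
      intro e _
      split_ifs <;> rfl
    have h4 := H.hall_core o Sus hSus hcard Yᶜ
    have h5 : ∑ x ∈ Y, M.cap o Sus x + ∑ x ∈ Yᶜ, M.cap o Sus x = Fintype.card M.Edge := by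
      rw [← htot, Finset.sum_add_sum_compl]
    omega
  obtain ⟨f, hf, hft⟩ := (Finset.all_card_le_biUnion_card_iff_exists_injective t).mp hall
  have hbij : Function.Bijective f := (Fintype.bijective_iff_injective_and_card f).mpr ⟨hf, hcι⟩
  let g := Equiv.ofBijective f hbij
  refine ⟨fun e => (g.symm e).1, fun e => ?_, fun x => ?_⟩
  · have := hft (g.symm e)
    simp only [t, Finset.mem_filter, Finset.mem_univ, true_and] at this
    have e1 : f (g.symm e) = e := g.apply_symm_apply e
    rw [e1] at this
    exact this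
  · have h1 : (univ.filter fun e => (g.symm e).1 = x).card =
        (univ.filter fun s : ι => s.1 = x).card := by
      apply Finset.card_bij' (fun e _ => g.symm e) (fun s _ => g s)
      · intro e he
        simpa using he
      · intro s hs
        simpa using hs
      · intro e _; simp
      · intro s _; simp
    rw [h1]
    have h2 : (univ.filter fun s : ι => s.1 = x) =
        (Finset.univ : Finset (Fin (M.cap o Sus x))).map ⟨fun i => (⟨x, i⟩ : ι), by
          intro a b hab
          simpa using hab⟩ := by
      ext s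
      simp only [Finset.mem_filter, Finset.mem_univ, true_and, Finset.mem_map,
        Function.Embedding.coeFn_mk]
      constructor
      · rintro rfl
        exact ⟨s.2, rfl⟩
      · rintro ⟨i, rfl⟩
        rfl
    rw [h2, Finset.card_map, Finset.card_univ, Fintype.card_fin]

/-- The oriented edge of a dart. -/
def eg (M : PMap V F D) (d : D) : M.Edge :=
  if h : M.Pos d then ⟨d, h⟩ else ⟨M.rev d, (M.pos_or d).resolve_left h⟩

lemma eg_rev (d : D) : M.eg (M.rev d) = M.eg d := by
  unfold eg
  by_cases h : M.Pos d
  · have h' := M.not_pos_rev h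
    rw [dif_pos h, dif_neg h']
    apply Subtype.ext
    exact M.rev_rev d
  · have h' := (M.pos_or d).resolve_left h
    rw [dif_neg h, dif_pos h']

lemma eg_val (d : D) : (M.eg d).1 = d ∨ (M.eg d).1 = M.rev d := by
  unfold eg
  by_cases h : M.Pos d
  · rw [dif_pos h]; exact Or.inl rfl
  · rw [dif_neg h]; exact Or.inr rfl

lemma eg_edge (e : M.Edge) : M.eg e.1 = e := by
  unfold eg
  rw [dif_pos e.2]

/-- A Schnyder labelling. -/
structure Lab (M : PMap V F D) (o : F) where
  l : D → ZMod 3
  cV : D → Prop
  cF : D → Prop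
  sus : Finset D
  four : ∀ d, cV d ∨ cV (M.rev d) ∨ cF d ∨ cF (M.rev d)
  vv : ∀ d, cV d → ¬ cV (M.rev d)
  ff : ∀ d, cF d → ¬ cF (M.rev d)
  vf : ∀ d, cV d → ¬ cF d
  vf' : ∀ d, cV d → ¬ cF (M.rev d)
  out : ∀ d, M.fc d = o → cF d
  sus_o : ∀ s ∈ sus, M.fc s = o
  sus_card : sus.card = 3
  lf : ∀ d, M.fc d ≠ o → l (M.nxt d) = l d + if cF d then 0 else 1
  lv : ∀ d, M.fc d ≠ o → M.fc (M.rev d) ≠ o → l d = l (M.nxt (M.rev d)) + if cV d then 0 else 1
  cntF : ∀ f, f ≠ o → (univ.filter fun d => M.fc d = f ∧ ¬ cF d).card = 3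
  cntV : ∀ v, (∀ s ∈ sus, M.vt s ≠ v) → (univ.filter fun d => M.vt d = v ∧ ¬ cV d).card = 3
  outer : ∀ e, M.fc e = o → l (M.rev e) = l (M.rev (M.nxt e)) + if M.nxt e ∈ sus then 1 else 0

theorem Three.exists_choice (H : M.Three) (o : F) (Sus : Finset D) (hSus : ∀ s ∈ Sus, M.fc s = o)
    (hcard : Sus.card = 3) : ∃ cV cF : D → Prop,
    (∀ d, cV d ∨ cV (M.rev d) ∨ cF d ∨ cF (M.rev d)) ∧ (∀ d, cV d → ¬ cV (M.rev d)) ∧
    (∀ d, cF d → ¬ cF (M.rev d)) ∧ (∀ d, cV d → ¬ cF d) ∧ (∀ d, cV d → ¬ cF (M.rev d)) ∧
    (∀ v, (univ.filter fun d => M.vt d = v ∧ cV d).card = M.cap o Sus (Sum.inl v)) ∧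
    (∀ f, (univ.filter fun d => M.fc d = f ∧ cF d).card = M.cap o Sus (Sum.inr f)) := by
  obtain ⟨own, hinc, hcnt⟩ := H.exists_own o Sus hSus hcard
  have hinc' : ∀ d, M.At (own (M.eg d)) d ∨ M.At (own (M.eg d)) (M.rev d) := by
    intro d
    have h := hinc (M.eg d)
    rcases M.eg_val d with e | e
    · rw [e] at h; exact h
    · rw [e, M.rev_rev] at h; exact h.symm
  -- counts
  have hcount : ∀ x, (univ.filter fun d => M.At x d ∧ own (M.eg d) = x).card = M.cap o Sus x := by
    intro x
    rw [← hcnt x]
    apply Finset.card_bij (fun d _ => M.eg d)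
    · intro d hd
      simp only [Finset.mem_filter, Finset.mem_univ, true_and] at hd ⊢
      exact hd.2
    · intro d hd d' hd' hdd
      simp only [Finset.mem_filter, Finset.mem_univ, true_and] at hd hd'
      have h1 : d' = d ∨ d' = M.rev d := by
        have e1 := congrArg Subtype.val hdd
        rcases M.eg_val d with a | a <;> rcases M.eg_val d' with b | b <;> rw [a, b] at e1
        · exact Or.inl e1.symm
        · right; rw [e1, M.rev_rev]
        · exact Or.inr e1.symm
        · left; exact (M.rev_inj e1).symm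
      rcases h1 with h1 | h1
      · exact h1.symm
      · exfalso
        rw [h1] at hd'
        exact H.at_rev hd.1 hd'.1
    · intro e he
      simp only [Finset.mem_filter, Finset.mem_univ, true_and] at he
      rcases hinc e with h | h
      · refine ⟨e.1, ?_, eg_edge e⟩
        simp only [Finset.mem_filter, Finset.mem_univ, true_and, eg_edge]
        rw [he] at h
        exact ⟨h, he⟩
      · refine ⟨M.rev e.1, ?_, by rw [eg_rev, eg_edge]⟩
        simp only [Finset.mem_filter, Finset.mem_univ, true_and, eg_rev, eg_edge]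
        rw [he] at h
        exact ⟨h, he⟩
  obtain ⟨cV, hV⟩ : ∃ c : D → Prop, ∀ d, c d ↔ own (M.eg d) = Sum.inl (M.vt d) :=
    ⟨_, fun _ => Iff.rfl⟩
  obtain ⟨cF, hF⟩ : ∃ c : D → Prop, ∀ d, c d ↔ own (M.eg d) = Sum.inr (M.fc d) :=
    ⟨_, fun _ => Iff.rfl⟩
  refine ⟨cV, cF, ?_, ?_, ?_, ?_, ?_, ?_, ?_⟩
  · intro d
    simp only [hV, hF, eg_rev]
    rcases hinc' d with (h | h) | (h | h)
    · exact Or.inl h
    · exact Or.inr (Or.inr (Or.inl h))
    · exact Or.inr (Or.inl h)
    · exact Or.inr (Or.inr (Or.inr h))
  · intro d h h'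
    simp only [hV, eg_rev] at h h'
    rw [h] at h'
    exact H.loop d (Sum.inl_injective h').symm
  · intro d h h'
    simp only [hF, eg_rev] at h h'
    rw [h] at h'
    exact H.fc_rev_ne d (Sum.inr_injective h').symm
  · intro d h h'
    rw [hV] at h
    rw [hF, h] at h'
    cases h'
  · intro d h h'
    rw [hV] at h
    rw [hF, eg_rev, h] at h'
    cases h'
  · intro v
    rw [← hcount]
    apply congrArg
    ext d
    simp only [Finset.mem_filter, Finset.mem_univ, true_and, hV]
    constructor
    · rintro ⟨rfl, h⟩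
      exact ⟨Or.inl rfl, h⟩
    · rintro ⟨h | h, h'⟩
      · have := Sum.inl_injective h
        subst this
        exact ⟨rfl, h'⟩
      · cases h
  · intro f
    rw [← hcount]
    apply congrArg
    ext d
    simp only [Finset.mem_filter, Finset.mem_univ, true_and, hF]
    constructor
    · rintro ⟨rfl, h⟩
      exact ⟨Or.inr rfl, h⟩
    · rintro ⟨h | h, h'⟩
      · cases h
      · have := Sum.inr_injective h
        subst this
        exact ⟨rfl, h'⟩

theorem Three.exists_lab (H : M.Three) (o : F) : Nonempty (Lab M o) := by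
  -- suspension corners
  obtain ⟨Sus, hSsub, hcard⟩ := Finset.exists_subset_card_eq (H.three_le_dg o)
  have hSus : ∀ s ∈ Sus, M.fc s = o := by
    intro s hs
    have := hSsub hs
    simpa using this
  obtain ⟨cV, cF, hfour, hvv, hff, hvf, hvf', hcV, hcF⟩ := H.exists_choice o Sus hSus hcard
  have hsplitV : ∀ v, M.vg v = (univ.filter fun d => M.vt d = v ∧ cV d).card +
      (univ.filter fun d => M.vt d = v ∧ ¬ cV d).card := by
    intro v
    rw [← Finset.filter_filter, ← Finset.filter_filter, Finset.card_filter_add_card_filter_not]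
    rfl
  have hsplitF : ∀ v, M.dg v = (univ.filter fun d => M.fc d = v ∧ cF d).card +
      (univ.filter fun d => M.fc d = v ∧ ¬ cF d).card := by
    intro v
    rw [← Finset.filter_filter, ← Finset.filter_filter, Finset.card_filter_add_card_filter_not]
    rfl
  have hout : ∀ d, M.fc d = o → cF d := by
    intro d hd
    have h1 := hsplitF o
    rw [hcF] at h1
    simp only [cap, if_true] at h1
    have h2 : (univ.filter fun d => M.fc d = o ∧ ¬ cF d).card = 0 := by omega
    rw [Finset.card_eq_zero] at h2
    by_contra hcon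
    have : d ∈ univ.filter fun d => M.fc d = o ∧ ¬ cF d := by simp [hd, hcon]
    rw [h2] at this
    exact Finset.notMem_empty _ this
  have hcntF : ∀ f, f ≠ o → (univ.filter fun d => M.fc d = f ∧ ¬ cF d).card = 3 := by
    intro f hf
    have h1 := hsplitF f
    have h2 := H.three_le_dg f
    rw [hcF] at h1
    simp only [cap, if_neg hf] at h1
    omega
  have hcntV : ∀ v, (∀ s ∈ Sus, M.vt s ≠ v) →
      (univ.filter fun d => M.vt d = v ∧ ¬ cV d).card = 3 := by
    intro v hv
    have h1 := hsplitV v
    have h2 := H.three_le_vg v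
    rw [hcV] at h1
    simp only [cap] at h1
    rw [if_neg (by push Not; exact hv)] at h1
    omega
  have hcntV' : ∀ v, (∃ s ∈ Sus, M.vt s = v) →
      (univ.filter fun d => M.vt d = v ∧ ¬ cV d).card = 2 := by
    intro v hv
    have h1 := hsplitV v
    have h2 := H.three_le_vg v
    rw [hcV] at h1
    simp only [cap] at h1
    rw [if_pos hv] at h1
    omega
  -- increments
  let β : D → ZMod 3 := fun d => (if cV d then 0 else 1) + (if d ∈ Sus then 1 else 0)
  let α : D → ZMod 3 := fun d => if M.fc d = o then - (1 + β d + β (M.rev d)) else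
    (if cF d then 0 else 1)
  have three : (1 : ZMod 3) + 1 + 1 = 0 := by decide
  have hrevS : ∀ d, M.fc d = o → M.rev d ∉ Sus := by
    intro d hd h
    apply H.fc_rev_ne d
    rw [hSus _ h, hd]
  have hnS : ∀ d, M.fc d ≠ o → d ∉ Sus := fun d hd h => hd (hSus d h)
  have hoV : ∀ d, M.fc d = o → ¬ cV d := fun d hd h => hvf d h (hout d hd)
  have hoV' : ∀ d, M.fc d = o → ¬ cV (M.rev d) := fun d hd h => hvf' (M.rev d) h (by
    rw [M.rev_rev]; exact hout d hd)
  have hoF' : ∀ d, M.fc d = o → ¬ cF (M.rev d) := fun d hd => hff d (hout d hd)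
  have hβr : ∀ d, M.fc d = o → β (M.rev d) = 1 := by
    intro d hd
    simp only [β, hrevS d hd, hoV' d hd, if_false, add_zero]
  have hβo : ∀ d, M.fc d = o → β d = 1 + (if d ∈ Sus then 1 else 0) := by
    intro d hd
    simp only [β, hoV d hd, if_false]
  have hαo : ∀ d, M.fc d = o → α d = - (if d ∈ Sus then 1 else 0) := by
    intro d hd
    simp only [α, hd, if_true, hβr d hd, hβo d hd]
    linear_combination -three
  have hαi : ∀ d, M.fc d ≠ o → α d = if cF d then 0 else 1 := by
    intro d hd
    simp only [α, hd, if_false]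
  have hcast : ∀ s : Finset D, ∀ p : D → Prop, ∑ d ∈ s, (if p d then (0 : ZMod 3) else 1) =
      ((s.filter fun d => ¬ p d).card : ZMod 3) := by
    intro s p
    rw [Finset.card_filter]
    push_cast
    apply Finset.sum_congr rfl
    intro d _
    by_cases h : p d <;> simp [h]
  have hcast' : ∀ s : Finset D, ∑ d ∈ s, (if d ∈ Sus then (1 : ZMod 3) else 0) =
      ((s.filter fun d => d ∈ Sus).card : ZMod 3) := by
    intro s
    rw [Finset.card_filter]
    push_cast
    rfl
  obtain ⟨l, hl1, hl2⟩ := M.exists_label α β (by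
      intro f
      by_cases hf : f = o
      · have : ∑ d with M.fc d = f, α d = ∑ d with M.fc d = f, -(if d ∈ Sus then (1 : ZMod 3) else 0) := by
          apply Finset.sum_congr rfl
          intro d hd
          simp only [Finset.mem_filter, Finset.mem_univ, true_and] at hd
          exact hαo d (hd.trans hf)
        rw [this, Finset.sum_neg_distrib, hcast', Finset.filter_filter]
        have e : (univ.filter fun d => M.fc d = f ∧ d ∈ Sus) = Sus := by
          ext d
          simp only [Finset.mem_filter, Finset.mem_univ, true_and]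
          exact ⟨fun h => h.2, fun h => ⟨by rw [hf]; exact hSus d h, h⟩⟩
        rw [e, hcard]
        decide
      · have : ∑ d with M.fc d = f, α d = ∑ d with M.fc d = f, (if cF d then (0 : ZMod 3) else 1) := by
          apply Finset.sum_congr rfl
          intro d hd
          simp only [Finset.mem_filter, Finset.mem_univ, true_and] at hd
          exact hαi d (by rw [hd]; exact hf)
        rw [this, hcast, Finset.filter_filter, hcntF f hf]
        decide) (by
      intro v
      simp only [β, Finset.sum_add_distrib]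
      rw [hcast, hcast', Finset.filter_filter, Finset.filter_filter]
      by_cases hv : ∃ s ∈ Sus, M.vt s = v
      · rw [hcntV' v hv]
        obtain ⟨s, hs, hsv⟩ := hv
        have e : (univ.filter fun d => M.vt d = v ∧ d ∈ Sus) = {s} := by
          ext d
          simp only [Finset.mem_filter, Finset.mem_univ, true_and, Finset.mem_singleton]
          constructor
          · rintro ⟨h1, h2⟩
            exact H.corner_unique (by rw [h1, hsv]) (by rw [hSus _ h2, hSus _ hs])
          · rintro rfl
            exact ⟨hsv, hs⟩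
        rw [e, Finset.card_singleton]
        decide
      · push Not at hv
        rw [hcntV v hv]
        have e : (univ.filter fun d => M.vt d = v ∧ d ∈ Sus) = ∅ := by
          ext d
          simp only [Finset.mem_filter, Finset.mem_univ, true_and, Finset.notMem_empty, iff_false]
          rintro ⟨h1, h2⟩
          exact hv d h2 h1
        rw [e, Finset.card_empty]
        decide) (by
      intro d
      by_cases h1 : M.fc d = o
      · have h2 : M.fc (M.rev d) ≠ o := by rw [← h1]; exact H.fc_rev_ne d
        rw [hαo d h1, hαi _ h2, hβo d h1, hβr d h1, if_neg (hoF' d h1)]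
        linear_combination three
      · by_cases h2 : M.fc (M.rev d) = o
        · have e1 := hβr _ h2
          have e2 := hoF' _ h2
          rw [M.rev_rev] at e1 e2
          rw [hαo _ h2, hαi _ h1, hβo _ h2, e1, if_neg e2]
          linear_combination three
        · rw [hαi _ h1, hαi _ h2]
          simp only [β, if_neg (hnS _ h1), if_neg (hnS _ h2), add_zero]
          have f1 := hfour d
          have f2 := hvv d
          have f3 := hff d
          have f4 := hvf d
          have f5 := hvf' d
          have f6 := hvf (M.rev d)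
          have f7 := hvf' (M.rev d)
          rw [M.rev_rev] at f7
          by_cases x : cV d <;> by_cases y : cV (M.rev d) <;> by_cases z : cF d <;>
            by_cases w : cF (M.rev d) <;> simp [x, y, z, w] at f1 f2 f3 f4 f5 f6 f7 ⊢ <;> decide)
  refine ⟨⟨l, cV, cF, Sus, hfour, hvv, hff, hvf, hvf', hout, hSus, hcard, ?_, ?_, hcntF, hcntV, ?_⟩⟩
  · intro d hd
    rw [hl1, hαi d hd]
  · intro d hd hd'
    rw [hl2 d]
    simp only [β, if_neg (hnS _ hd), add_zero]
  · intro e he
    have he' : M.fc (M.nxt e) = o := by rw [M.fc_nxt, he]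
    -- l (rev e) = l (nxt e) + 1
    have a1 := hl2 (M.rev e)
    rw [M.rev_rev, hβr e he] at a1
    have a2 := hl2 (M.nxt e)
    rw [hβo _ he'] at a2
    have a3 := hl1 (M.rev (M.nxt e))
    have h2 : M.fc (M.rev (M.nxt e)) ≠ o := by rw [← he']; exact H.fc_rev_ne _
    rw [hαi _ h2, if_neg (hoF' _ he')] at a3
    rw [a1, a2, a3]
    linear_combination three

end PMap

end P8ffccf

end
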