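import Pool.Agent.Lib.P8ffccf.Wheel

/-! Basic facts on the convex hull of the vertices of a drawing (MP_8ffccf_co, lower bound). -/

noncomputable section

namespace P8ffccf

open Classical Finset

namespace LowBase

/-- The hull of the vertices. -/
abbrev K {V : Type} (pos : V → ℤ × ℤ) : Set (ℝ × ℝ) :=
  convexHull ℝ (Set.range fun v => rl (pos v))

theorem mem_K {V : Type} (pos : V → ℤ × ℤ) (v : V) : rl (pos v) ∈ K pos :=
  subset_convexHull ℝ _ ⟨v, rfl⟩

theorem closed_K {V : Type} [Finite V] (pos : V → ℤ × ℤ) : IsClosed (K pos) :=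
  (Set.finite_range _).isClosed_convexHull ℝ

theorem frontier_of {V : Type} [Finite V] (pos : V → ℤ × ℤ) {z : ℝ × ℝ} (hz : z ∈ K pos)
    (h : z ∉ interior (K pos)) : z ∈ frontier (K pos) := by
  rw [frontier, (closed_K pos).closure_eq]
  exact ⟨hz, h⟩

theorem le_of_mem {V : Type} {pos : V → ℤ × ℤ} (a b c : ℝ)
    (h : ∀ v, c ≤ a * ((pos v).1 : ℝ) + b * ((pos v).2 : ℝ)) {z : ℝ × ℝ} (hz : z ∈ K pos) :
    c ≤ a * z.1 + b * z.2 := by
  have h1 : K pos ⊆ {z : ℝ × ℝ | c ≤ a * z.1 + b * z.2} := by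
    apply convexHull_min
    · rintro _ ⟨v, rfl⟩
      exact h v
    · intro x hx y hy s t hs ht hst
      simp only [Set.mem_setOf_eq] at hx hy ⊢
      simp only [Prod.fst_add, Prod.snd_add, Prod.smul_fst, Prod.smul_snd, smul_eq_mul]
      have h2 := mul_le_mul_of_nonneg_left hx hs
      have h3 := mul_le_mul_of_nonneg_left hy ht
      have h4 : c = s * c + t * c := by rw [← add_mul, hst, one_mul]
      rw [h4]
      linarith
  exact h1 hz

theorem not_interior {V : Type} {pos : V → ℤ × ℤ} (a b c : ℝ) (hab : a ≠ 0 ∨ b ≠ 0)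
    (h : ∀ v, c ≤ a * ((pos v).1 : ℝ) + b * ((pos v).2 : ℝ)) {z : ℝ × ℝ}
    (hz : a * z.1 + b * z.2 = c) : z ∉ interior (K pos) := by
  intro hi
  rw [mem_interior_iff_mem_nhds] at hi
  have hc : ContinuousAt (fun ε : ℝ => ((z.1 - ε * a, z.2 - ε * b) : ℝ × ℝ)) 0 := by fun_prop
  have h0 : ((z.1 - (0 : ℝ) * a, z.2 - (0 : ℝ) * b) : ℝ × ℝ) = z := by
    ext <;> simp
  have h1 : ∀ᶠ ε in nhds (0 : ℝ), ((z.1 - ε * a, z.2 - ε * b) : ℝ × ℝ) ∈ K pos := by
    apply hc.preimage_mem_nhds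
    show K pos ∈ nhds ((z.1 - (0 : ℝ) * a, z.2 - (0 : ℝ) * b) : ℝ × ℝ)
    rw [h0]
    exact hi
  have h2 : ∀ᶠ ε in nhdsWithin (0 : ℝ) (Set.Ioi 0),
      ((z.1 - ε * a, z.2 - ε * b) : ℝ × ℝ) ∈ K pos := nhdsWithin_le_nhds h1
  obtain ⟨ε, he, hp⟩ := (h2.and self_mem_nhdsWithin).exists
  have h3 := le_of_mem a b c h he
  simp only at h3
  have h4 : 0 < a ^ 2 + b ^ 2 := by
    rcases hab with h | h
    · positivity
    · positivity
  have h5 : 0 < ε * (a ^ 2 + b ^ 2) := mul_pos hp h4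
  nlinarith

theorem sep {V : Type} [Finite V] {pos : V → ℤ × ℤ} (hinj : Function.Injective pos) (v0 : V)
    (hex : rl (pos v0) ∈ (K pos).extremePoints ℝ) :
    ∃ a b : ℝ, ∀ v, v ≠ v0 →
      0 < a * (((pos v).1 : ℝ) - (pos v0).1) + b * (((pos v).2 : ℝ) - (pos v0).2) := by
  rw [(convex_convexHull ℝ _).mem_extremePoints_iff_mem_diff_convexHull_diff] at hex
  obtain ⟨_, hn⟩ := hex
  have ht : rl (pos v0) ∉ convexHull ℝ ((Set.range fun v => rl (pos v)) \ {rl (pos v0)}) :=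
    fun h => hn (convexHull_mono (Set.diff_subset_diff_left (subset_convexHull ℝ _)) h)
  obtain ⟨f, u, h1, h2⟩ := geometric_hahn_banach_point_closed (convex_convexHull ℝ _)
    (((Set.finite_range _).subset Set.diff_subset).isClosed_convexHull ℝ) ht
  have hf : ∀ z : ℝ × ℝ, f z = z.1 * f (1, 0) + z.2 * f (0, 1) := by
    intro z
    have hz : z = z.1 • ((1, 0) : ℝ × ℝ) + z.2 • ((0, 1) : ℝ × ℝ) := by
      ext <;> simp
    conv_lhs => rw [hz]
    rw [map_add, map_smul, map_smul]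
    simp
  refine ⟨f (1, 0), f (0, 1), fun v hv => ?_⟩
  have h3 := h2 (rl (pos v)) (subset_convexHull ℝ _ ⟨⟨v, rfl⟩, by
    intro h
    rw [Set.mem_singleton_iff] at h
    apply hv
    apply hinj
    simp only [rl, Prod.mk.injEq, Int.cast_inj] at h
    exact Prod.ext h.1 h.2⟩)
  rw [hf] at h1 h3
  simp only [rl] at h1 h3
  linarith

theorem rl_inj {V : Type} {pos : V → ℤ × ℤ} (hinj : Function.Injective pos) {u v : V}
    (h : rl (pos u) = rl (pos v)) : u = v := by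
  apply hinj
  simp only [rl, Prod.mk.injEq, Int.cast_inj] at h
  exact Prod.ext h.1 h.2

theorem not_between {A : Set (ℝ × ℝ)} {z z' r : ℝ × ℝ} (hr : r ∈ A.extremePoints ℝ)
    (hz : z ∈ A) (hz' : z' ∈ A) (t : ℝ) (ht0 : 0 < t) (ht1 : t < 1)
    (h1 : r.1 = (1 - t) * z.1 + t * z'.1) (h2 : r.2 = (1 - t) * z.2 + t * z'.2) :
    z = r ∧ z' = r := by
  refine (mem_extremePoints.1 hr).2 z hz z' hz' ⟨1 - t, t, by linarith, ht0, by ring, ?_⟩
  ext
  · simp [h1]
  · simp [h2]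

/-- Parallel vectors. -/
theorem parallel {p q : ℝ × ℝ} {a b : ℝ} (hd : p.1 * q.2 - p.2 * q.1 = 0)
    (hp : 0 < a * p.1 + b * p.2) :
    q.1 = (a * q.1 + b * q.2) / (a * p.1 + b * p.2) * p.1 ∧
    q.2 = (a * q.1 + b * q.2) / (a * p.1 + b * p.2) * p.2 := by
  have hne := hp.ne'
  constructor
  · field_simp
    linear_combination (-b) * hd
  · field_simp
    linear_combination a * hd

/-- Oriented area. -/
def dt (u v w : ℤ × ℤ) : ℤ := (v.1 - u.1) * (w.2 - u.2) - (v.2 - u.2) * (w.1 - u.1)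

theorem three_ne {V : Type} [Finite V] {pos : V → ℤ × ℤ} (hinj : Function.Injective pos)
    (u v w : V) (huv : u ≠ v) (huw : u ≠ w) (hvw : v ≠ w)
    (hu : rl (pos u) ∈ (K pos).extremePoints ℝ) (hv : rl (pos v) ∈ (K pos).extremePoints ℝ)
    (hw : rl (pos w) ∈ (K pos).extremePoints ℝ) : dt (pos u) (pos v) (pos w) ≠ 0 := by
  intro h0
  obtain ⟨a, b, hab⟩ := sep hinj u hu
  obtain ⟨a', b', hab'⟩ := sep hinj v hv
  obtain ⟨a'', b'', hab''⟩ := sep hinj w hw
  have h1 : (((pos v).1 : ℝ) - (pos u).1) * (((pos w).2 : ℝ) - (pos u).2) -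
      (((pos v).2 : ℝ) - (pos u).2) * (((pos w).1 : ℝ) - (pos u).1) = 0 := by
    have := congrArg (Int.cast : ℤ → ℝ) h0
    simp only [dt] at this
    push_cast at this
    exact this
  obtain ⟨hx, hy⟩ := parallel (p := (((pos v).1 : ℝ) - (pos u).1, ((pos v).2 : ℝ) - (pos u).2))
    (q := (((pos w).1 : ℝ) - (pos u).1, ((pos w).2 : ℝ) - (pos u).2)) (a := a) (b := b) h1
    (hab v huv.symm)
  have hc : 0 < (a * (((pos w).1 : ℝ) - (pos u).1) + b * (((pos w).2 : ℝ) - (pos u).2)) /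
      (a * (((pos v).1 : ℝ) - (pos u).1) + b * (((pos v).2 : ℝ) - (pos u).2)) :=
    div_pos (hab w huw.symm) (hab v huv.symm)
  simp only at hx hy
  generalize (a * (((pos w).1 : ℝ) - (pos u).1) + b * (((pos w).2 : ℝ) - (pos u).2)) /
      (a * (((pos v).1 : ℝ) - (pos u).1) + b * (((pos v).2 : ℝ) - (pos u).2)) = c at hx hy hc
  have e1 : ((pos w).1 : ℝ) = (pos u).1 + c * (((pos v).1 : ℝ) - (pos u).1) := by linarith
  have e2 : ((pos w).2 : ℝ) = (pos u).2 + c * (((pos v).2 : ℝ) - (pos u).2) := by linarith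
  have g1 := hab' u huv
  have g2 := hab' w hvw.symm
  have g3 := hab'' u huw
  have g4 := hab'' v hvw
  rw [e1, e2] at g2 g3 g4
  set X := ((pos v).1 : ℝ) - (pos u).1 with hX
  set Y := ((pos v).2 : ℝ) - (pos u).2 with hY
  have k1 : 0 < - (a' * X + b' * Y) := by rw [hX, hY]; linarith
  have k2 : 0 < (c - 1) * (a' * X + b' * Y) := by
    rw [hX, hY]
    rw [hX, hY] at g2
    nlinarith
  have k3 : 0 < - c * (a'' * X + b'' * Y) := by
    rw [hX, hY]
    rw [hX, hY] at g3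
    nlinarith
  have k4 : 0 < (1 - c) * (a'' * X + b'' * Y) := by
    rw [hX, hY]
    rw [hX, hY] at g4
    nlinarith
  have k5 : c < 1 := by
    by_contra hcc
    push Not at hcc
    nlinarith
  nlinarith

/-! ### The wheel -/

variable {N : ℕ}

theorem adj_hub (i : ZMod N) : (wheel N).Adj none (some i) :=
  ⟨by simp, Or.inl rfl⟩

theorem adj_rim (hN : 3 ≤ N) (i : ZMod N) : (wheel N).Adj (some i) (some (i + 1)) := by
  refine ⟨?_, Or.inr (Or.inr ⟨i, Or.inl ⟨rfl, rfl⟩⟩)⟩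
  intro h
  rw [Option.some_inj] at h
  haveI : Fact (1 < N) := ⟨by omega⟩
  have h1 : (1 : ZMod N) = 0 := by
    have := h.symm
    rwa [add_eq_left] at this
  exact one_ne_zero h1

theorem adj_cases (i : ZMod N) (u : Option (ZMod N)) (h : (wheel N).Adj (some i) u) :
    u = none ∨ u = some (i + 1) ∨ u = some (i - 1) := by
  rcases h.2 with h1 | h1 | ⟨j, h1 | h1⟩
  · cases h1
  · exact Or.inl h1
  · obtain ⟨h2, h3⟩ := h1
    rw [Option.some_inj] at h2
    subst h2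
    exact Or.inr (Or.inl h3)
  · obtain ⟨h2, h3⟩ := h1
    rw [Option.some_inj] at h2
    subst h2
    right; right
    rw [h3]
    congr 1
    ring

theorem nat_ne (hN : 0 < N) {j : ℕ} (h0 : 0 < j) (h1 : j < N) : (j : ZMod N) ≠ 0 := by
  intro h
  rw [ZMod.natCast_eq_zero_iff] at h
  exact absurd (Nat.le_of_dvd h0 h) (by omega)

end LowBase

end P8ffccf

end
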