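import Mathlib

/-! A convex chain seen from a point (MP_8ffccf_co, lower bound). -/

noncomputable section

namespace P8ffccf

open Classical Finset

/-- The determinant multiplied by a sign. -/
def LowChain.D (σ : ℤ) (u w : ℤ × ℤ) : ℤ := σ * (u.1 * w.2 - u.2 * w.1)

theorem LowChain.tele (m L : ℕ) (x : ℕ → ℤ) (hx : ∀ i ≤ m, 0 ≤ x i ∧ x i ≤ L) (P : ℕ → Prop)
    [DecidablePred P]
    (conv : ∀ i j k, i < j → j < k → k < m → P i → P k → P j) :
    ∑ i ∈ (range m).filter P, (x (i + 1) - x i) ≤ L := by
  rcases Finset.eq_empty_or_nonempty ((range m).filter P) with h | h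
  · rw [h, Finset.sum_empty]
    positivity
  · set a := ((range m).filter P).min' h with ha
    set b := ((range m).filter P).max' h with hb
    have hbm : b ∈ (range m).filter P := Finset.max'_mem _ _
    have ham : a ∈ (range m).filter P := Finset.min'_mem _ _
    rw [Finset.mem_filter, Finset.mem_range] at hbm ham
    have hab : a ≤ b := Finset.min'_le _ _ (Finset.max'_mem _ _)
    have heq : (range m).filter P = Finset.Ico a (b + 1) := by
      ext i
      rw [Finset.mem_Ico]
      constructor
      · intro hi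
        exact ⟨Finset.min'_le _ _ hi, Nat.lt_succ_of_le (Finset.le_max' _ _ hi)⟩
      · rintro ⟨h1, h2⟩
        rw [Finset.mem_filter, Finset.mem_range]
        refine ⟨by omega, ?_⟩
        rcases h1.eq_or_lt with h3 | h3
        · rw [← h3]; exact ham.2
        · rcases (Nat.lt_succ_iff.mp h2).eq_or_lt with h4 | h4
          · rw [h4]; exact hbm.2
          · exact conv a i b h3 h4 hbm.1 ham.2 hbm.2
    rw [heq, Finset.sum_Ico_eq_sub _ (by omega), Finset.sum_range_sub, Finset.sum_range_sub]
    have h1 := hx (b + 1) (by omega)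
    have h2 := hx a (by omega)
    linarith

theorem LowChain.abs_sum (m L : ℕ) (x : ℕ → ℤ) (hx : ∀ i ≤ m, 0 ≤ x i ∧ x i ≤ L)
    (conv : ∀ i j k, i < j → j < k → k < m → 0 < x (i + 1) - x i → 0 < x (k + 1) - x k →
      0 < x (j + 1) - x j)
    (conv' : ∀ i j k, i < j → j < k → k < m → x (i + 1) - x i < 0 → x (k + 1) - x k < 0 →
      x (j + 1) - x j < 0) :
    ∑ i ∈ range m, |x (i + 1) - x i| ≤ 2 * (L : ℤ) := by
  have h1 := LowChain.tele m L x hx (fun i => 0 < x (i + 1) - x i) conv
  have h2 := LowChain.tele m L (fun i => L - x i) (fun i hi => by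
    have := hx i hi
    constructor <;> linarith) (fun i => x (i + 1) - x i < 0) conv'
  rw [Finset.sum_filter] at h1 h2
  have h3 : ∑ i ∈ range m, |x (i + 1) - x i| =
      ∑ i ∈ range m, (if 0 < x (i + 1) - x i then x (i + 1) - x i else 0) +
      ∑ i ∈ range m, (if x (i + 1) - x i < 0 then (L - x (i + 1)) - (L - x i) else 0) := by
    rw [← Finset.sum_add_distrib]
    apply Finset.sum_congr rfl
    intro i _
    rcases lt_trichotomy (x (i + 1) - x i) 0 with h | h | h
    · rw [if_neg (by omega), if_pos h, abs_of_neg h]; ring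
    · rw [h]; simp
    · rw [if_pos h, if_neg (by omega), abs_of_pos h]; ring
  rw [h3]
  linarith

theorem chain_bound (m L : ℕ) (h : ℤ × ℤ) (p : ℕ → ℤ × ℤ) (σ : ℤ) (hσ : σ = 1 ∨ σ = -1)
    (grid : ∀ i ≤ m, (0 ≤ (p i).1 ∧ (p i).1 ≤ L) ∧ (0 ≤ (p i).2 ∧ (p i).2 ≤ L))
    (half : ∃ a b : ℝ, ∀ i ≤ m, 0 < a * (((p i).1 : ℝ) - h.1) + b * (((p i).2 : ℝ) - h.2))
    (mono : ∀ i < m, 0 < σ * (((p i).1 - h.1) * ((p (i + 1)).2 - (p i).2) -
      ((p i).2 - h.2) * ((p (i + 1)).1 - (p i).1)))
    (turn : ∀ i, i + 1 < m → σ * (((p (i + 1)).1 - (p i).1) * ((p (i + 2)).2 - (p (i + 1)).2) -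
      ((p (i + 1)).2 - (p i).2) * ((p (i + 2)).1 - (p (i + 1)).1)) < 0) :
    Set.InjOn (fun i => p (i + 1) - p i) (Set.Iio m) ∧
    ∑ i ∈ range m, (|(p (i + 1) - p i).1| + |(p (i + 1) - p i).2|) ≤ 4 * (L : ℤ) := by
  obtain ⟨a, b, hab⟩ := half
  set q : ℕ → ℤ × ℤ := fun i => p i - h with hq
  set v : ℕ → ℤ × ℤ := fun i => p (i + 1) - p i with hv
  let D := LowChain.D σ
  have hD : ∀ u w, D u w = σ * (u.1 * w.2 - u.2 * w.1) := fun u w => rfl
  -- the mono hypothesis
  have m1 : ∀ i < m, 0 < D (q i) (v i) := by
    intro i hi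
    have := mono i hi
    rw [hD]
    simpa [hq, hv] using this
  have m2 : ∀ i < m, 0 < D (q (i + 1)) (v i) := by
    intro i hi
    have h1 := m1 i hi
    rw [hD] at h1 ⊢
    simp only [hq, hv, Prod.fst_sub, Prod.snd_sub] at h1 ⊢
    linarith
  have m3 : ∀ i < m, 0 < D (q i) (q (i + 1)) := by
    intro i hi
    have h1 := m1 i hi
    rw [hD] at h1 ⊢
    simp only [hq, hv, Prod.fst_sub, Prod.snd_sub] at h1 ⊢
    linarith
  have t1 : ∀ i, i + 1 < m → D (v i) (v (i + 1)) < 0 := by
    intro i hi
    have := turn i hi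
    rw [hD]
    simpa [hv] using this
  -- step A
  have hA : ∀ i, 1 ≤ i → i ≤ m → 0 < D (q 0) (q i) := by
    intro i hi
    induction i, hi using Nat.le_induction with
    | base => intro hm; exact m3 0 (by omega)
    | succ i hi ih =>
      intro hm
      have h1 := ih (by omega)
      have h2 := m3 i (by omega)
      have w0 := hab 0 (by omega)
      have wi := hab i (by omega)
      have wj := hab (i + 1) (by omega)
      -- real identity
      have h1' : (0 : ℝ) < ((D (q 0) (q i) : ℤ) : ℝ) := by exact_mod_cast h1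
      have h2' : (0 : ℝ) < ((D (q i) (q (i + 1)) : ℤ) : ℝ) := by exact_mod_cast h2
      have key : ((D (q 0) (q (i + 1)) : ℤ) : ℝ) *
          (a * (((p i).1 : ℝ) - h.1) + b * (((p i).2 : ℝ) - h.2)) =
          ((D (q 0) (q i) : ℤ) : ℝ) *
            (a * (((p (i + 1)).1 : ℝ) - h.1) + b * (((p (i + 1)).2 : ℝ) - h.2)) +
          ((D (q i) (q (i + 1)) : ℤ) : ℝ) *
            (a * (((p 0).1 : ℝ) - h.1) + b * (((p 0).2 : ℝ) - h.2)) := by
        simp only [hD, hq, Prod.fst_sub, Prod.snd_sub]
        push_cast
        ring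
      have h3 : (0 : ℝ) < ((D (q 0) (q (i + 1)) : ℤ) : ℝ) *
          (a * (((p i).1 : ℝ) - h.1) + b * (((p i).2 : ℝ) - h.2)) := by
        rw [key]
        positivity
      have h4 : (0 : ℝ) < ((D (q 0) (q (i + 1)) : ℤ) : ℝ) := pos_of_mul_pos_left h3 wi.le
      exact_mod_cast h4
  -- step B
  have hB : ∀ i < m, 0 < D (q 0) (v i) := by
    intro i
    induction i with
    | zero => intro hm; exact m1 0 hm
    | succ i ih =>
      intro hm
      have h1 := ih (by omega)
      have h2 := hA (i + 1) (by omega) (by omega)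
      have h3 := m2 i (by omega)
      have h4 := t1 i hm
      have h5 := m1 (i + 1) hm
      have key : D (q (i + 1)) (v i) * D (q 0) (v (i + 1)) =
          (-D (v i) (v (i + 1))) * D (q 0) (q (i + 1)) +
            D (q (i + 1)) (v (i + 1)) * D (q 0) (v i) := by
        simp only [hD]
        ring
      have h6 : 0 < D (q (i + 1)) (v i) * D (q 0) (v (i + 1)) := by
        rw [key]
        have : 0 < -D (v i) (v (i + 1)) := by linarith
        positivity
      exact pos_of_mul_pos_right h6 h3.le
  -- step C
  have hC : ∀ i j, i < j → j < m → D (v i) (v j) < 0 := by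
    intro i j hij
    induction j, hij using Nat.le_induction with
    | base => intro hm; exact t1 i hm
    | succ j hj ih =>
      intro hm
      have h1 := ih (by omega)
      have h2 := t1 j hm
      have b1 := hB i (by omega)
      have b2 := hB j (by omega)
      have b3 := hB (j + 1) hm
      have key : D (v i) (v (j + 1)) * D (q 0) (v j) =
          D (v i) (v j) * D (q 0) (v (j + 1)) + D (v j) (v (j + 1)) * D (q 0) (v i) := by
        simp only [hD]
        ring
      have h3 : D (v i) (v (j + 1)) * D (q 0) (v j) < 0 := by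
        rw [key]
        have h4 : D (v i) (v j) * D (q 0) (v (j + 1)) < 0 := mul_neg_of_neg_of_pos h1 b3
        have h5 : D (v j) (v (j + 1)) * D (q 0) (v i) < 0 := mul_neg_of_neg_of_pos h2 b1
        linarith
      by_contra hcon
      push Not at hcon
      have := mul_nonneg hcon b2.le
      linarith
  refine ⟨?_, ?_⟩
  · intro i hi j hj hij
    rw [Set.mem_Iio] at hi hj
    by_contra hne
    have hself : ∀ u, D u u = 0 := fun u => by rw [hD]; ring
    rcases lt_or_gt_of_ne hne with h1 | h1
    · have h2 := hC i j h1 hj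
      have h3 : v i = v j := hij
      rw [h3, hself] at h2
      exact lt_irrefl _ h2
    · have h2 := hC j i h1 hi
      have h3 : v i = v j := hij
      rw [h3, hself] at h2
      exact lt_irrefl _ h2
  · -- positive combinations
    have comb1 : ∀ i j k, i < j → j < k → k < m →
        (-D (v i) (v k)) * (v j).1 = (-D (v j) (v k)) * (v i).1 + (-D (v i) (v j)) * (v k).1 := by
      intro i j k _ _ _
      simp only [hD]
      ring
    have comb2 : ∀ i j k, i < j → j < k → k < m →
        (-D (v i) (v k)) * (v j).2 = (-D (v j) (v k)) * (v i).2 + (-D (v i) (v j)) * (v k).2 := by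
      intro i j k _ _ _
      simp only [hD]
      ring
    have pos_of : ∀ (A B C x y z : ℤ), 0 < A → 0 < B → 0 < C → A * y = B * x + C * z →
        0 < x → 0 < z → 0 < y := by
      intro A B C x y z hA hB hC he hx hz
      have : 0 < A * y := by rw [he]; positivity
      exact pos_of_mul_pos_right this hA.le
    have neg_of : ∀ (A B C x y z : ℤ), 0 < A → 0 < B → 0 < C → A * y = B * x + C * z →
        x < 0 → z < 0 → y < 0 := by
      intro A B C x y z hA hB hC he hx hz
      have h1 := pos_of A B C (-x) (-y) (-z) hA hB hC (by linarith) (by linarith) (by linarith)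
      linarith
    have s1 := LowChain.abs_sum m L (fun i => (p i).1) (fun i hi => (grid i hi).1)
      (fun i j k hij hjk hk h1 h2 => pos_of _ _ _ _ _ _
        (by have := hC i k (by omega) hk; linarith) (by have := hC j k hjk hk; linarith)
        (by have := hC i j hij (by omega); linarith) (comb1 i j k hij hjk hk) h1 h2)
      (fun i j k hij hjk hk h1 h2 => neg_of _ _ _ _ _ _
        (by have := hC i k (by omega) hk; linarith) (by have := hC j k hjk hk; linarith)
        (by have := hC i j hij (by omega); linarith) (comb1 i j k hij hjk hk) h1 h2)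
    have s2 := LowChain.abs_sum m L (fun i => (p i).2) (fun i hi => (grid i hi).2)
      (fun i j k hij hjk hk h1 h2 => pos_of _ _ _ _ _ _
        (by have := hC i k (by omega) hk; linarith) (by have := hC j k hjk hk; linarith)
        (by have := hC i j hij (by omega); linarith) (comb2 i j k hij hjk hk) h1 h2)
      (fun i j k hij hjk hk h1 h2 => neg_of _ _ _ _ _ _
        (by have := hC i k (by omega) hk; linarith) (by have := hC j k hjk hk; linarith)
        (by have := hC i j hij (by omega); linarith) (comb2 i j k hij hjk hk) h1 h2)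
    rw [Finset.sum_add_distrib]
    simp only [Prod.fst_sub, Prod.snd_sub]
    linarith

end P8ffccf
end
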