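import Mathlib

/-! Many distinct integer vectors are long (MP_8ffccf_co, lower bound). -/

noncomputable section

namespace P8ffccf

open Classical Finset

theorem LowCount.small_card (S : Finset (ℤ × ℤ)) (s : ℕ) :
    (S.filter (fun v => |v.1| + |v.2| ≤ (s : ℤ))).card ≤ (2 * s + 1) ^ 2 := by
  have h1 : S.filter (fun v => |v.1| + |v.2| ≤ (s : ℤ)) ⊆
      Finset.Icc (-(s : ℤ)) s ×ˢ Finset.Icc (-(s : ℤ)) s := by
    intro v hv
    rw [Finset.mem_filter] at hv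
    rw [Finset.mem_product, Finset.mem_Icc, Finset.mem_Icc]
    have h2 := abs_nonneg v.1
    have h3 := abs_nonneg v.2
    have h4 := abs_le.mp (show |v.1| ≤ s by omega)
    have h5 := abs_le.mp (show |v.2| ≤ s by omega)
    exact ⟨h4, h5⟩
  refine (Finset.card_le_card h1).trans ?_
  rw [Finset.card_product, Int.card_Icc]
  have : ((s : ℤ) + 1 - -(s : ℤ)).toNat = 2 * s + 1 := by omega
  rw [this, sq]

theorem LowCount.sum_ge (S : Finset (ℤ × ℤ)) (s : ℕ) :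
    ((s : ℤ) + 1) * ((S.card : ℤ) - (2 * s + 1) ^ 2) ≤ ∑ v ∈ S, (|v.1| + |v.2|) := by
  have h1 := LowCount.small_card S s
  have h2 : (S.filter (fun v => |v.1| + |v.2| ≤ (s : ℤ))).card +
      (S.filter (fun v => ¬ |v.1| + |v.2| ≤ (s : ℤ))).card = S.card :=
    Finset.card_filter_add_card_filter_not _
  have h3 : (((S.filter (fun v => ¬ |v.1| + |v.2| ≤ (s : ℤ))).card : ℤ)) * ((s : ℤ) + 1) ≤
      ∑ v ∈ S.filter (fun v => ¬ |v.1| + |v.2| ≤ (s : ℤ)), (|v.1| + |v.2|) := by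
    rw [← nsmul_eq_mul]
    apply Finset.card_nsmul_le_sum
    intro v hv
    have := (Finset.mem_filter.mp hv).2
    omega
  have h4 : ∑ v ∈ S.filter (fun v => ¬ |v.1| + |v.2| ≤ (s : ℤ)), (|v.1| + |v.2|) ≤
      ∑ v ∈ S, (|v.1| + |v.2|) := by
    apply Finset.sum_le_sum_of_subset_of_nonneg (Finset.filter_subset _ _)
    intro v _ _
    positivity
  have h5 : (S.card : ℤ) - (2 * s + 1) ^ 2 ≤
      ((S.filter (fun v => ¬ |v.1| + |v.2| ≤ (s : ℤ))).card : ℤ) := by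
    have h6 : ((S.filter (fun v => |v.1| + |v.2| ≤ (s : ℤ))).card : ℤ) ≤
        ((2 * s + 1) ^ 2 : ℤ) := by exact_mod_cast h1
    have h7 : ((S.filter (fun v => |v.1| + |v.2| ≤ (s : ℤ))).card : ℤ) +
      ((S.filter (fun v => ¬ |v.1| + |v.2| ≤ (s : ℤ))).card : ℤ) = (S.card : ℤ) := by
      exact_mod_cast h2
    linarith
  have h8 : (0 : ℤ) ≤ (s : ℤ) + 1 := by positivity
  calc ((s : ℤ) + 1) * ((S.card : ℤ) - (2 * s + 1) ^ 2)
      ≤ ((s : ℤ) + 1) * ((S.filter (fun v => ¬ |v.1| + |v.2| ≤ (s : ℤ))).card : ℤ) :=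
        mul_le_mul_of_nonneg_left h5 h8
    _ = ((S.filter (fun v => ¬ |v.1| + |v.2| ≤ (s : ℤ))).card : ℤ) * ((s : ℤ) + 1) := mul_comm _ _
    _ ≤ _ := h3.trans h4

theorem count_bound : ∃ c : ℝ, 0 < c ∧ ∀ (S : Finset (ℤ × ℤ)) (L : ℕ),
    ∑ v ∈ S, (|v.1| + |v.2|) ≤ 4 * (L : ℤ) → c * (S.card : ℝ) ^ (3 / 2 : ℝ) ≤ (L : ℝ) + 1 := by
  refine ⟨1 / 64, by norm_num, fun S L hL => ?_⟩
  set N : ℝ := (S.card : ℝ) with hN
  have hN0 : 0 ≤ N := Nat.cast_nonneg _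
  set x : ℝ := Real.sqrt N with hx
  have hx0 : 0 ≤ x := Real.sqrt_nonneg _
  have hxx : x ^ 2 = N := Real.sq_sqrt hN0
  have hpow : N ^ (3 / 2 : ℝ) = x ^ 3 := by
    rw [← hxx, ← Real.rpow_natCast x 2, ← Real.rpow_mul hx0, ← Real.rpow_natCast x 3]
    norm_num
  rw [hpow]
  rcases le_or_gt x 4 with h4 | h4
  · have h5 : x ^ 3 ≤ 64 := by
      calc x ^ 3 ≤ 4 ^ 3 := pow_le_pow_left₀ hx0 h4 3
        _ = 64 := by norm_num
    have : (0 : ℝ) ≤ L := Nat.cast_nonneg _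
    linarith
  · set s : ℕ := ⌊x / 4⌋₊ with hs
    have hs1 : (s : ℝ) ≤ x / 4 := Nat.floor_le (by positivity)
    have hs2 : x / 4 < s + 1 := Nat.lt_floor_add_one _
    have hge := LowCount.sum_ge S s
    have hge' : ((s : ℝ) + 1) * (N - (2 * s + 1) ^ 2) ≤ 4 * L := by
      have h6 : ((s : ℤ) + 1) * ((S.card : ℤ) - (2 * s + 1) ^ 2) ≤ 4 * (L : ℤ) := hge.trans hL
      have h7 : ((((s : ℤ) + 1) * ((S.card : ℤ) - (2 * s + 1) ^ 2) : ℤ) : ℝ) ≤
          ((4 * (L : ℤ) : ℤ) : ℝ) := by exact_mod_cast h6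
      push_cast at h7
      exact h7
    have h8 : (2 * (s : ℝ) + 1) ≤ 3 * x / 4 := by linarith
    have h9 : (2 * (s : ℝ) + 1) ^ 2 ≤ 9 * x ^ 2 / 16 := by
      calc (2 * (s : ℝ) + 1) ^ 2 ≤ (3 * x / 4) ^ 2 := pow_le_pow_left₀ (by positivity) h8 2
        _ = 9 * x ^ 2 / 16 := by ring
    have h10 : x / 4 * (7 * x ^ 2 / 16) ≤ ((s : ℝ) + 1) * (N - (2 * s + 1) ^ 2) := by
      apply mul_le_mul hs2.le _ (by positivity) (by positivity)
      rw [← hxx]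
      linarith
    have h11 : 0 ≤ x ^ 3 := by positivity
    nlinarith

end P8ffccf
end
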