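import Pool.Agent.Lib.P8ffccf.Drawing

/-!
# The convex hull of a strictly convex drawing
-/

set_option autoImplicit false

noncomputable section

namespace P8ffccf

open Set

namespace LowHull

lemma preconnected_compl {K : Set (ℝ × ℝ)} (hK : Convex ℝ K) (hb : Bornology.IsBounded K)
    {o : ℝ × ℝ} (ho : o ∈ K) : IsPreconnected Kᶜ := by
  obtain ⟨R, hR⟩ := hb.subset_ball o
  have hR0 : 0 < R := by
    have := hR ho
    rw [Metric.mem_ball, dist_self] at this
    exact this
  have hrank : 1 < Module.rank ℝ (ℝ × ℝ) := by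
    have := Module.lt_rank_of_lt_finrank (R := ℝ) (M := ℝ × ℝ) (n := 1) (by simp)
    exact_mod_cast this
  have hS : IsPreconnected (Metric.sphere o R) :=
    (isPathConnected_sphere hrank o hR0.le).isConnected.isPreconnected
  have hSK : Metric.sphere o R ⊆ Kᶜ := by
    intro x hx hxK
    have := hR hxK
    rw [Metric.mem_ball] at this
    rw [Metric.mem_sphere] at hx
    linarith
  -- the projection to the sphere
  have key : ∀ y ∈ Kᶜ, ∃ z ∈ Metric.sphere o R, segment ℝ y z ⊆ Kᶜ := by
    intro y hy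
    have hyo : 0 < ‖y - o‖ := by
      rw [norm_pos_iff, sub_ne_zero]
      rintro rfl
      exact hy ho
    refine ⟨o + (R / ‖y - o‖) • (y - o), ?_, ?_⟩
    · rw [mem_sphere_iff_norm, add_sub_cancel_left, norm_smul, Real.norm_eq_abs,
        abs_of_nonneg (by positivity)]
      field_simp
    · rintro x ⟨a, b, ha, hb, hab, rfl⟩ hx
      set t : ℝ := a + b * (R / ‖y - o‖) with ht
      have e : a • y + b • (o + (R / ‖y - o‖) • (y - o)) = o + t • (y - o) := by
        have : a = 1 - b := by linarith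
        rw [ht, this]
        module
      rw [e] at hx
      have h1 : t < 1 := by
        by_contra h1
        rw [not_lt] at h1
        apply hy
        have : y = (1 - 1 / t) • o + (1 / t) • (o + t • (y - o)) := by
          rw [smul_add, smul_smul, one_div, inv_mul_cancel₀ (by linarith)]
          module
        rw [this]
        have ht0 : 0 < t := by linarith
        refine hK ho hx ?_ (by positivity) (by ring)
        rw [sub_nonneg, div_le_one ht0]
        exact h1
      have h2 := hR hx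
      rw [mem_ball_iff_norm, add_sub_cancel_left, norm_smul, Real.norm_eq_abs] at h2
      have h3 : t * ‖y - o‖ < R := lt_of_le_of_lt
        (mul_le_mul_of_nonneg_right (le_abs_self t) hyo.le) h2
      have h4 : t * ‖y - o‖ = a * ‖y - o‖ + b * R := by
        rw [ht]
        field_simp
      rw [h4] at h3
      have h5 : ‖y - o‖ < R ∨ a = 0 := by
        by_contra h
        push Not at h
        have ha' : 0 < a := lt_of_le_of_ne ha (Ne.symm h.2)
        nlinarith [mul_le_mul_of_nonneg_left h.1 ha]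
      rcases h5 with h5 | h5
      · have h6 : 1 < R / ‖y - o‖ := by rwa [one_lt_div hyo]
        have : 1 ≤ t := by
          rw [ht]
          nlinarith [mul_le_mul_of_nonneg_left h6.le hb]
        linarith
      · have : b = 1 := by linarith
        rw [h5, this] at h3
        linarith
  have hne : (Metric.sphere o R).Nonempty := by
    exact (NormedSpace.sphere_nonempty).2 hR0.le
  obtain ⟨x₀, hx₀⟩ := hne
  refine isPreconnected_of_forall x₀ fun y hy => ?_
  obtain ⟨z, hz, hs⟩ := key y hy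
  refine ⟨Metric.sphere o R ∪ segment ℝ y z, union_subset hSK hs, Or.inl hx₀,
    Or.inr (left_mem_segment ℝ y z), ?_⟩
  exact IsPreconnected.union z hz (right_mem_segment ℝ y z) hS
    (convex_segment y z).isPreconnected

lemma closed_segment (x y : ℝ × ℝ) : IsClosed (segment ℝ x y) := by
  rw [← convexHull_pair]
  exact ((finite_singleton _).insert _).isClosed_convexHull ℝ

section

variable {V : Type} [Fintype V] [Nonempty V] {G : SimpleGraph V} {L : ℕ} {pos : V → ℤ × ℤ}

/-- The drawing. -/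
abbrev Dr (G : SimpleGraph V) (pos : V → ℤ × ℤ) : Set (ℝ × ℝ) := gdraw G (fun v => rl (pos v))

/-- The convex hull of the vertices. -/
abbrev Hu (pos : V → ℤ × ℤ) : Set (ℝ × ℝ) := convexHull ℝ (range fun v => rl (pos v))

omit [Fintype V] [Nonempty V] in
lemma Dr_sub : Dr G pos ⊆ Hu pos := by
  rintro z ⟨u, v, _, hz⟩
  exact (convex_convexHull ℝ _).segment_subset (subset_convexHull ℝ _ (mem_range_self u))
    (subset_convexHull ℝ _ (mem_range_self v)) hz

omit [Nonempty V] in
lemma Dr_closed : IsClosed (Dr G pos) := by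
  have : Dr G pos = ⋃ e : {p : V × V // G.Adj p.1 p.2},
      segment ℝ (rl (pos e.1.1)) (rl (pos e.1.2)) := by
    ext z
    simp only [mem_iUnion]
    constructor
    · rintro ⟨u, v, h, hz⟩
      exact ⟨⟨(u, v), h⟩, hz⟩
    · rintro ⟨⟨⟨u, v⟩, h⟩, hz⟩
      exact ⟨u, v, h, hz⟩
  rw [this]
  exact isClosed_iUnion_of_finite fun e => closed_segment _ _

omit [Nonempty V] in
lemma Hu_compact : IsCompact (Hu pos) := (finite_range _).isCompact_convexHull ℝ

omit [Fintype V] in
lemma Hu_nonempty : (Hu pos).Nonempty := by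
  obtain ⟨v⟩ := ‹Nonempty V›
  exact ⟨_, subset_convexHull ℝ _ (mem_range_self v)⟩

omit [Nonempty V] in
lemma not_bounded_compl : ¬ Bornology.IsBounded (Hu pos)ᶜ := by
  intro h
  have h2 : Bornology.IsBounded (univ : Set (ℝ × ℝ)) := by
    rw [← union_compl_self (Hu pos)]
    exact (Hu_compact.isBounded).union h
  exact NormedSpace.unbounded_univ ℝ (ℝ × ℝ) h2

omit [Fintype V] [Nonempty V] in
lemma vertex_mem (hdeg : ∀ v, ∃ u, G.Adj v u) (v : V) : rl (pos v) ∈ Dr G pos := by
  obtain ⟨u, hu⟩ := hdeg v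
  exact ⟨v, u, hu, left_mem_segment ℝ _ _⟩

omit [Fintype V] [Nonempty V] in
lemma hull_sub (hdeg : ∀ v, ∃ u, G.Adj v u) {z : ℝ × ℝ}
    (hc : Convex ℝ (connectedComponentIn (Dr G pos)ᶜ z)ᶜ) :
    Hu pos ⊆ (connectedComponentIn (Dr G pos)ᶜ z)ᶜ := by
  refine convexHull_min ?_ hc
  rintro _ ⟨v, rfl⟩ hv
  exact connectedComponentIn_subset _ _ hv (vertex_mem hdeg v)

omit [Fintype V] [Nonempty V] in
lemma bounded_of_mem (h : IsDrawing G L pos) (hdeg : ∀ v, ∃ u, G.Adj v u) {z : ℝ × ℝ}
    (hz : z ∉ Dr G pos) (hzK : z ∈ Hu pos) :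
    Bornology.IsBounded (connectedComponentIn (Dr G pos)ᶜ z) := by
  by_contra hb
  exact hull_sub hdeg (h.unbounded z hz hb).1 hzK (mem_connectedComponentIn hz)

lemma comp_eq (h : IsDrawing G L pos) (hdeg : ∀ v, ∃ u, G.Adj v u) {z : ℝ × ℝ}
    (hz : z ∉ Hu pos) :
    ¬ Bornology.IsBounded (connectedComponentIn (Dr G pos)ᶜ z) ∧
      connectedComponentIn (Dr G pos)ᶜ z = (Hu pos)ᶜ := by
  obtain ⟨o, ho⟩ := Hu_nonempty (pos := pos)
  have hzD : z ∉ Dr G pos := fun hh => hz (Dr_sub hh)
  have h1 : (Hu pos)ᶜ ⊆ connectedComponentIn (Dr G pos)ᶜ z :=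
    (preconnected_compl (convex_convexHull ℝ _) Hu_compact.isBounded ho).subset_connectedComponentIn
      hz (compl_subset_compl.2 Dr_sub)
  have h2 : ¬ Bornology.IsBounded (connectedComponentIn (Dr G pos)ᶜ z) := fun hb =>
    not_bounded_compl (hb.subset h1)
  refine ⟨h2, Subset.antisymm ?_ h1⟩
  rw [subset_compl_comm]
  exact hull_sub hdeg (h.unbounded z hzD h2).1

lemma frontier_sub (h : IsDrawing G L pos) (hdeg : ∀ v, ∃ u, G.Adj v u) :
    frontier (Hu pos) ⊆ Dr G pos := by
  intro x hx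
  by_contra hxD
  have ho : IsOpen (connectedComponentIn (Dr G pos)ᶜ x) :=
    Dr_closed.isOpen_compl.connectedComponentIn
  have hx1 : x ∈ connectedComponentIn (Dr G pos)ᶜ x := mem_connectedComponentIn hxD
  have hx2 : x ∈ closure (Hu pos)ᶜ := by
    rw [frontier_eq_closure_inter_closure] at hx
    exact hx.2
  obtain ⟨z, hz1, hz2⟩ := mem_closure_iff.1 hx2 _ ho hx1
  have h3 := connectedComponentIn_eq hz1
  rw [(comp_eq h hdeg hz2).2] at h3
  rw [h3] at hx1
  apply hx1
  rw [← Hu_compact.isClosed.closure_eq]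
  exact frontier_subset_closure hx

lemma frontier_extreme (h : IsDrawing G L pos) (hdeg : ∀ v, ∃ u, G.Adj v u) (v : V)
    (hv : rl (pos v) ∈ frontier (Hu pos)) : rl (pos v) ∈ (Hu pos).extremePoints ℝ := by
  have hx2 : rl (pos v) ∈ closure (Hu pos)ᶜ := by
    rw [frontier_eq_closure_inter_closure] at hv
    exact hv.2
  have hne : (Hu pos)ᶜ.Nonempty := by
    by_contra hne
    rw [not_nonempty_iff_eq_empty] at hne
    rw [hne] at hx2
    simp at hx2
  obtain ⟨z, hz⟩ := hne
  obtain ⟨h1, h2⟩ := comp_eq h hdeg hz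
  have h3 := (h.unbounded z (fun hh => hz (Dr_sub hh)) h1).2 v
  rw [h2] at h3
  rw [compl_compl] at h3
  exact h3 hx2

omit [Fintype V] [Nonempty V] in
lemma rl_inj {p q : ℤ × ℤ} (h : rl p = rl q) : p = q := by
  simp only [rl, Prod.mk.injEq, Int.cast_inj] at h
  exact Prod.ext h.1 h.2

omit [Fintype V] [Nonempty V] in
lemma edge_avoid (h : IsDrawing G L pos) (hdeg : ∀ v, ∃ u, G.Adj v u) {u v w : V}
    (huw : G.Adj u w) (hu : u ≠ v) (hw : w ≠ v) :
    rl (pos v) ∉ segment ℝ (rl (pos u)) (rl (pos w)) := by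
  intro hm
  obtain ⟨t, ht⟩ := hdeg v
  have hne : s(v, t) ≠ s(u, w) := by
    intro he
    rw [Sym2.eq_iff] at he
    rcases he with he | he
    · exact hu he.1.symm
    · exact hw he.1.symm
  obtain ⟨x, -, h2, h3⟩ := h.cross v t u w ht huw hne _ (left_mem_segment ℝ _ _) hm
  have := h.inj (rl_inj h3)
  rcases h2 with h2 | h2
  · exact hu (h2.symm.trans this.symm)
  · exact hw (h2.symm.trans this.symm)

omit [Nonempty V] in
lemma exists_ball (h : IsDrawing G L pos) (hdeg : ∀ v, ∃ u, G.Adj v u) (v : V)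
    (hv : rl (pos v) ∈ interior (Hu pos)) :
    ∃ ε > 0, Metric.ball (rl (pos v)) ε ⊆ Hu pos ∧
      ∀ u w, G.Adj u w → u ≠ v → w ≠ v → ∀ x ∈ Metric.ball (rl (pos v)) ε,
        x ∉ segment ℝ (rl (pos u)) (rl (pos w)) := by
  set F : Set (ℝ × ℝ) := ⋃ e : {p : V × V // G.Adj p.1 p.2 ∧ p.1 ≠ v ∧ p.2 ≠ v},
      segment ℝ (rl (pos e.1.1)) (rl (pos e.1.2)) with hF
  have hFc : IsClosed F := isClosed_iUnion_of_finite fun e => closed_segment _ _
  have hvF : rl (pos v) ∉ F := by
    rw [hF, mem_iUnion]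
    rintro ⟨⟨⟨u, w⟩, h1, h2, h3⟩, h4⟩
    exact edge_avoid h hdeg h1 h2 h3 h4
  have hn : Fᶜ ∩ interior (Hu pos) ∈ nhds (rl (pos v)) :=
    (hFc.isOpen_compl.inter isOpen_interior).mem_nhds ⟨hvF, hv⟩
  obtain ⟨ε, hε, hb⟩ := Metric.mem_nhds_iff.1 hn
  refine ⟨ε, hε, fun x hx => interior_subset (hb hx).2, fun u w huw hu hw x hx hxs => ?_⟩
  apply (hb hx).1
  rw [hF, mem_iUnion]
  exact ⟨⟨(u, w), huw, hu, hw⟩, hxs⟩

omit [Nonempty V] in
lemma interior_dir (h : IsDrawing G L pos) (hdeg : ∀ v, ∃ u, G.Adj v u) (v : V)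
    (hv : rl (pos v) ∈ interior (Hu pos)) (a b : ℝ) (hab : a ≠ 0 ∨ b ≠ 0) :
    ∃ u, G.Adj v u ∧
      0 < a * (((pos u).1 : ℝ) - (pos v).1) + b * (((pos u).2 : ℝ) - (pos v).2) := by
  by_contra hno
  push Not at hno
  obtain ⟨ε, hε, hb1, hb2⟩ := exists_ball h hdeg v hv
  set p : ℝ × ℝ := rl (pos v) with hp
  set H : Set (ℝ × ℝ) := Metric.ball p ε ∩ {x | 0 < a * (x.1 - p.1) + b * (x.2 - p.2)} with hH
  have hab2 : 0 < a * a + b * b := by
    rcases hab with h | h
    · nlinarith [mul_self_pos.2 h, mul_self_nonneg b]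
    · nlinarith [mul_self_pos.2 h, mul_self_nonneg a]
  have hHc : Convex ℝ H := by
    refine (convex_ball p ε).inter ?_
    intro x hx y hy α β hα hβ hαβ
    simp only [mem_ofPred_eq] at hx hy ⊢
    have e : a * ((α • x + β • y).1 - p.1) + b * ((α • x + β • y).2 - p.2) =
        α * (a * (x.1 - p.1) + b * (x.2 - p.2)) + β * (a * (y.1 - p.1) + b * (y.2 - p.2)) := by
      simp only [Prod.fst_add, Prod.snd_add, Prod.smul_fst, Prod.smul_snd, smul_eq_mul]
      have : α = 1 - β := by linarith
      rw [this]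
      ring
    rw [e]
    rcases hα.eq_or_lt with h0 | h0
    · have : β = 1 := by linarith
      rw [← h0, this]
      linarith
    · have := mul_pos h0 hx
      have := mul_nonneg hβ hy.le
      linarith
  have hHD : H ⊆ (Dr G pos)ᶜ := by
    rintro x ⟨hxb, hxg⟩ ⟨u, w, huw, hxs⟩
    simp only [mem_ofPred_eq] at hxg
    by_cases hu : u = v
    · obtain ⟨α, β, hα, hβ, hαβ, rfl⟩ := hxs
      have h1 := hno w (hu ▸ huw)
      have e : a * ((α • rl (pos u) + β • rl (pos w)).1 - p.1) +
          b * ((α • rl (pos u) + β • rl (pos w)).2 - p.2) =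
          β * (a * (((pos w).1 : ℝ) - (pos v).1) + b * (((pos w).2 : ℝ) - (pos v).2)) := by
        rw [hu, hp]
        simp only [Prod.fst_add, Prod.snd_add, Prod.smul_fst, Prod.smul_snd, smul_eq_mul, rl]
        have : α = 1 - β := by linarith
        rw [this]
        ring
      simp only at hxg
      rw [e] at hxg
      nlinarith [mul_nonneg hβ (neg_nonneg.2 h1)]
    · by_cases hw : w = v
      · obtain ⟨α, β, hα, hβ, hαβ, rfl⟩ := hxs
        have h1 := hno u (hw ▸ huw.symm)
        have e : a * ((α • rl (pos u) + β • rl (pos w)).1 - p.1) +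
            b * ((α • rl (pos u) + β • rl (pos w)).2 - p.2) =
            α * (a * (((pos u).1 : ℝ) - (pos v).1) + b * (((pos u).2 : ℝ) - (pos v).2)) := by
          rw [hw, hp]
          simp only [Prod.fst_add, Prod.snd_add, Prod.smul_fst, Prod.smul_snd, smul_eq_mul, rl]
          have : β = 1 - α := by linarith
          rw [this]
          ring
        simp only at hxg
        rw [e] at hxg
        nlinarith [mul_nonneg hα (neg_nonneg.2 h1)]
      · exact hb2 u w huw hu hw x hxb hxs
  -- points of the half disc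
  set m : ℝ := |a| + |b| with hm
  have hm0 : 0 < m := by
    rcases hab with h | h
    · have := abs_pos.2 h
      have := abs_nonneg b
      linarith
    · have := abs_pos.2 h
      have := abs_nonneg a
      linarith
  have hpt : ∀ s η : ℝ, 0 < η → (|s| + η) * m < ε →
      (p.1 - s * b + η * a, p.2 + s * a + η * b) ∈ H := by
    intro s η hη hs
    have e1 : |(-(s * b) + η * a)| ≤ (|s| + η) * m := by
      calc |(-(s * b) + η * a)| ≤ |(-(s * b))| + |η * a| := abs_add_le _ _
        _ = |s| * |b| + η * |a| := by rw [abs_neg, abs_mul, abs_mul, abs_of_pos hη]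
        _ ≤ (|s| + η) * m := by
          rw [hm]
          nlinarith [mul_nonneg (abs_nonneg s) (abs_nonneg a), mul_nonneg hη.le (abs_nonneg b)]
    have e2 : |(s * a + η * b)| ≤ (|s| + η) * m := by
      calc |(s * a + η * b)| ≤ |s * a| + |η * b| := abs_add_le _ _
        _ = |s| * |a| + η * |b| := by rw [abs_mul, abs_mul, abs_of_pos hη]
        _ ≤ (|s| + η) * m := by
          rw [hm]
          nlinarith [mul_nonneg (abs_nonneg s) (abs_nonneg b), mul_nonneg hη.le (abs_nonneg a)]
    refine ⟨?_, ?_⟩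
    · rw [Metric.mem_ball, Prod.dist_eq, Real.dist_eq, Real.dist_eq, max_lt_iff]
      simp only
      constructor
      · rw [show p.1 - s * b + η * a - p.1 = -(s * b) + η * a by ring]
        linarith
      · rw [show p.2 + s * a + η * b - p.2 = s * a + η * b by ring]
        linarith
    · simp only [mem_ofPred_eq]
      rw [show a * (p.1 - s * b + η * a - p.1) + b * (p.2 + s * a + η * b - p.2) =
        η * (a * a + b * b) by ring]
      positivity
  have hcl : ∀ s : ℝ, |s| * m < ε → (p.1 - s * b, p.2 + s * a) ∈ closure H := by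
    intro s hs
    have hc : Continuous fun η : ℝ => (p.1 - s * b + η * a, p.2 + s * a + η * b) := by fun_prop
    have ht : Filter.Tendsto (fun η : ℝ => (p.1 - s * b + η * a, p.2 + s * a + η * b))
        (nhdsWithin 0 (Ioi 0)) (nhds (p.1 - s * b, p.2 + s * a)) := by
      have := hc.tendsto 0
      simp only [zero_mul, add_zero] at this
      exact this.mono_left nhdsWithin_le_nhds
    refine mem_closure_of_tendsto ht ?_
    have hd : 0 < (ε - |s| * m) / m := by
      have : 0 < ε - |s| * m := by linarith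
      positivity
    filter_upwards [Ioo_mem_nhdsGT hd] with η hη
    refine hpt s η hη.1 ?_
    have := hη.2
    rw [lt_div_iff₀ hm0] at this
    linarith
  set δ : ℝ := ε / (2 * m) with hδ
  have hδ0 : 0 < δ := by positivity
  have hδm : δ * m < ε := by
    rw [hδ]
    have : ε / (2 * m) * m = ε / 2 := by field_simp
    rw [this]
    linarith
  obtain ⟨x0, hx0⟩ : H.Nonempty := by
    refine ⟨_, hpt 0 δ hδ0 ?_⟩
    rw [abs_zero, zero_add]
    exact hδm
  have hx0D : x0 ∉ Dr G pos := hHD hx0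
  have hsub : H ⊆ connectedComponentIn (Dr G pos)ᶜ x0 :=
    hHc.isPreconnected.subset_connectedComponentIn hx0 hHD
  have hbd := bounded_of_mem h hdeg hx0D (hb1 hx0.1)
  have hcl' : ∀ s : ℝ, |s| * m < ε →
      (p.1 - s * b, p.2 + s * a) ∈ closure (connectedComponentIn (Dr G pos)ᶜ x0) :=
    fun s hs => closure_mono hsub (hcl s hs)
  have hpc : p ∈ closure (connectedComponentIn (Dr G pos)ᶜ x0) := by
    have := hcl' 0 (by rw [abs_zero, zero_mul]; exact hε)
    simpa using this
  have hext := (h.bounded x0 hx0D hbd).2 v hpc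
  rw [mem_extremePoints] at hext
  have h1 := hcl' δ (by rw [abs_of_pos hδ0]; exact hδm)
  have h2 := hcl' (-δ) (by rw [abs_neg, abs_of_pos hδ0]; exact hδm)
  have h3 := (hext.2 _ h1 _ h2 ?_).1
  · have h4 := congrArg Prod.fst h3
    have h5 := congrArg Prod.snd h3
    simp only [← hp] at h4 h5
    have h6 : δ * b = 0 := by linarith
    have h7 : δ * a = 0 := by linarith
    rcases hab with hh | hh
    · exact (mul_ne_zero hδ0.ne' hh) h7
    · exact (mul_ne_zero hδ0.ne' hh) h6
  · refine ⟨1 / 2, 1 / 2, by norm_num, by norm_num, by norm_num, ?_⟩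
    rw [← hp]
    ext
    · simp only [Prod.fst_add, Prod.smul_fst, smul_eq_mul]
      ring
    · simp only [Prod.snd_add, Prod.smul_snd, smul_eq_mul]
      ring

end

end LowHull

/-- General facts on the convex hull of a strictly convex drawing. -/
theorem hull_facts {V : Type} [Fintype V] [Nonempty V] (G : SimpleGraph V) (L : ℕ)
    (pos : V → ℤ × ℤ) (h : IsDrawing G L pos) (hdeg : ∀ v, ∃ u, G.Adj v u) :
    frontier (convexHull ℝ (Set.range fun v => rl (pos v))) ⊆ gdraw G (fun v => rl (pos v)) ∧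
    (∀ v, rl (pos v) ∈ frontier (convexHull ℝ (Set.range fun v => rl (pos v))) →
      rl (pos v) ∈ (convexHull ℝ (Set.range fun v => rl (pos v))).extremePoints ℝ) ∧
    (∀ v, rl (pos v) ∈ interior (convexHull ℝ (Set.range fun v => rl (pos v))) →
      ∀ a b : ℝ, (a ≠ 0 ∨ b ≠ 0) → ∃ u, G.Adj v u ∧
        0 < a * (((pos u).1 : ℝ) - (pos v).1) + b * (((pos u).2 : ℝ) - (pos v).2)) :=
  ⟨LowHull.frontier_sub h hdeg, fun v hv => LowHull.frontier_extreme h hdeg v hv,
    fun v hv a b hab => LowHull.interior_dir h hdeg v hv a b hab⟩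

end P8ffccf

end
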