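import Pool.Agent.Lib.P8ffccf.LowBase
import Pool.Agent.Lib.P8ffccf.LowChain

/-! The rim of a wheel whose hub is on the outer face (MP_8ffccf_co, lower bound). -/

noncomputable section

namespace P8ffccf

open Classical Finset LowBase

namespace LowInner

theorem arc (N : ℕ) [NeZero N] (hN : 3 ≤ N) (F : ZMod N → Prop)
    (h3 : ∀ i j k, i ≠ j → i ≠ k → j ≠ k → F i → F j → F k → False) :
    ∃ a : ZMod N, ∃ m : ℕ, m ≤ N ∧ N ≤ 2 * m + 4 ∧ ∀ k : ℕ, 0 < k → k < m → ¬ F (a + k) := by
  by_cases hF : ∃ b c, b ≠ c ∧ F b ∧ F c
  · obtain ⟨b, c, hbc, hb, hc⟩ := hF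
    have hk : (((c - b).val : ℕ) : ZMod N) = c - b := ZMod.natCast_zmod_val _
    have hk0 : 0 < (c - b).val := by
      rw [Nat.pos_iff_ne_zero, Ne, ZMod.val_eq_zero, sub_eq_zero]
      exact hbc.symm
    have hkN : (c - b).val < N := ZMod.val_lt _
    generalize (c - b).val = k at hk hk0 hkN
    by_cases h2 : N ≤ 2 * k
    · refine ⟨b, k, hkN.le, by omega, fun j h0 h1 hj => ?_⟩
      have e1 : b ≠ b + j := fun h => nat_ne (by omega) h0 (by omega) (left_eq_add.mp h)
      have e2 : c ≠ b + j := by
        intro h
        have : ((k - j : ℕ) : ZMod N) = 0 := by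
          rw [Nat.cast_sub h1.le, hk, h]
          ring
        exact nat_ne (by omega) (by omega) (by omega) this
      exact h3 b c (b + j) hbc e1 e2 hb hc hj
    · refine ⟨c, N - k, by omega, by omega, fun j h0 h1 hj => ?_⟩
      have e1 : c ≠ c + j := fun h => nat_ne (by omega) h0 (by omega) (left_eq_add.mp h)
      have e2 : b ≠ c + j := by
        intro h
        have : ((k + j : ℕ) : ZMod N) = 0 := by
          rw [Nat.cast_add, hk]
          rw [h]
          ring
        exact nat_ne (by omega) (by omega) (by omega) this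
      exact h3 b c (c + j) hbc e2 e1 hb hc hj
  · by_cases hF1 : ∃ b, F b
    · obtain ⟨b, hb⟩ := hF1
      refine ⟨b, N, le_rfl, by omega, fun j h0 h1 hj => ?_⟩
      exact hF ⟨b, b + j, fun h => nat_ne (by omega) h0 h1 (left_eq_add.mp h), hb, hj⟩
    · exact ⟨0, N, le_rfl, by omega, fun j _ _ hj => hF1 ⟨_, hj⟩⟩

end LowInner

theorem rim_inner (N : ℕ) [NeZero N] (hN : 3 ≤ N) (L : ℕ) (pos : Option (ZMod N) → ℤ × ℤ)
    (h : IsDrawing (wheel N) L pos)
    (h2 : ∀ v, rl (pos v) ∈ frontier (convexHull ℝ (Set.range fun v => rl (pos v))) →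
      rl (pos v) ∈ (convexHull ℝ (Set.range fun v => rl (pos v))).extremePoints ℝ)
    (h3 : ∀ v, rl (pos v) ∈ interior (convexHull ℝ (Set.range fun v => rl (pos v))) →
      ∀ a b : ℝ, (a ≠ 0 ∨ b ≠ 0) → ∃ u, (wheel N).Adj v u ∧
        0 < a * (((pos u).1 : ℝ) - (pos v).1) + b * (((pos u).2 : ℝ) - (pos v).2))
    (hhub : rl (pos none) ∉ interior (convexHull ℝ (Set.range fun v => rl (pos v)))) :
    ∃ S : Finset (ZMod N), N ≤ 2 * S.card + 4 ∧
      Set.InjOn (fun i => pos (some (i + 1)) - pos (some i)) S ∧
      ∑ i ∈ S, (|(pos (some (i + 1)) - pos (some i)).1| +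
        |(pos (some (i + 1)) - pos (some i)).2|) ≤ 4 * (L : ℤ) := by
  have hHe := h2 none (frontier_of pos (mem_K pos none) hhub)
  obtain ⟨a0, b0, hsep⟩ := sep h.inj none hHe
  -- oriented areas
  set D : ZMod N → ZMod N → ℤ := fun i j => dt (pos none) (pos (some i)) (pos (some j)) with hDdef
  have hDr : ∀ i j, ((D i j : ℤ) : ℝ) =
      (((pos (some i)).1 : ℝ) - (pos none).1) * (((pos (some j)).2 : ℝ) - (pos none).2) -
      (((pos (some i)).2 : ℝ) - (pos none).2) * (((pos (some j)).1 : ℝ) - (pos none).1) := by
    intro i j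
    simp only [hDdef, dt]
    push_cast
    ring
  have hanti : ∀ i j, D i j = - D j i := by
    intro i j
    simp only [hDdef, dt]
    ring
  -- a point on a spoke
  have key : ∀ i, ∀ z : ℝ × ℝ, ∀ c : ℝ, 0 ≤ c → c ≤ 1 →
      z.1 = (pos none).1 + c * (((pos (some i)).1 : ℝ) - (pos none).1) →
      z.2 = (pos none).2 + c * (((pos (some i)).2 : ℝ) - (pos none).2) →
      z ∈ segment ℝ (rl (pos none)) (rl (pos (some i))) := by
    intro i z c h0 h1 e1 e2
    refine ⟨1 - c, c, by linarith, h0, by ring, ?_⟩
    ext
    · simp only [rl, Prod.fst_add, Prod.smul_fst, smul_eq_mul]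
      rw [e1]; ring
    · simp only [rl, Prod.snd_add, Prod.smul_snd, smul_eq_mul]
      rw [e2]; ring
  have hD0 : ∀ i j, i ≠ j → D i j ≠ 0 := by
    have haux : ∀ i j, i ≠ j → ∀ c : ℝ, 0 ≤ c → c ≤ 1 →
        ((pos (some j)).1 : ℝ) = (pos none).1 + c * (((pos (some i)).1 : ℝ) - (pos none).1) →
        ((pos (some j)).2 : ℝ) = (pos none).2 + c * (((pos (some i)).2 : ℝ) - (pos none).2) →
        False := by
      intro i j hij c hc0 hc1 e1 e2
      have hz := key i (rl (pos (some j))) c hc0 hc1 e1 e2
      obtain ⟨w, hw1, hw2, hw3⟩ := h.cross none (some i) none (some j) (adj_hub i) (adj_hub j)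
        (by
          intro hs
          rw [Sym2.eq_iff] at hs
          rcases hs with ⟨_, hs⟩ | ⟨hs, _⟩
          · exact hij (Option.some_inj.mp hs)
          · cases hs) _ hz (right_mem_segment ℝ _ _)
      have hw4 := rl_inj h.inj hw3
      subst hw4
      rcases hw1 with hw1 | hw1
      · cases hw1
      · exact hij (Option.some_inj.mp hw1).symm
    intro i j hij hd
    have hdr := hDr i j
    rw [hd, Int.cast_zero] at hdr
    obtain ⟨hx, hy⟩ := parallel
      (p := (((pos (some i)).1 : ℝ) - (pos none).1, ((pos (some i)).2 : ℝ) - (pos none).2))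
      (q := (((pos (some j)).1 : ℝ) - (pos none).1, ((pos (some j)).2 : ℝ) - (pos none).2))
      (a := a0) (b := b0) hdr.symm (hsep (some i) (by simp))
    have hc := div_pos (hsep (some j) (by simp)) (hsep (some i) (by simp))
    simp only at hx hy
    generalize (a0 * (((pos (some j)).1 : ℝ) - (pos none).1) +
      b0 * (((pos (some j)).2 : ℝ) - (pos none).2)) /
      (a0 * (((pos (some i)).1 : ℝ) - (pos none).1) +
      b0 * (((pos (some i)).2 : ℝ) - (pos none).2)) = c at hx hy hc
    rcases le_total c 1 with hc1 | hc1
    · exact haux i j hij c hc.le hc1 (by linarith) (by linarith)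
    · refine haux j i hij.symm (1 / c) (by positivity) (by rw [div_le_one hc]; exact hc1) ?_ ?_
      · rw [hx]; field_simp; ring
      · rw [hy]; field_simp; ring
  -- a frontier rim vertex sees the rest of the rim on one side
  have hadj : ∀ i, rl (pos (some i)) ∈ frontier (K pos) → ∀ l, l ≠ i → l + 1 ≠ i →
      0 < D i l * D i (l + 1) := by
    intro i hi l hl hl'
    by_contra hneg
    have hu := hD0 i l (Ne.symm hl)
    have hv := hD0 i (l + 1) (Ne.symm hl')
    have hlt : D i l * D i (l + 1) < 0 :=
      lt_of_le_of_ne (not_lt.mp hneg) (mul_ne_zero hu hv)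
    have hltR : ((D i l : ℤ) : ℝ) * ((D i (l + 1) : ℤ) : ℝ) < 0 := by exact_mod_cast hlt
    have hU := hDr i l
    have hV := hDr i (l + 1)
    set u : ℝ := ((D i l : ℤ) : ℝ) with hu'
    set v : ℝ := ((D i (l + 1) : ℤ) : ℝ) with hv'
    have huv : u - v ≠ 0 := by
      intro h0
      have : u = v := by linarith
      rw [this] at hltR
      nlinarith [mul_self_nonneg v]
    have ht : 0 < u / (u - v) ∧ u / (u - v) < 1 := by
      rcases lt_or_gt_of_ne (show u ≠ 0 by rintro h0; rw [h0] at hltR; simp at hltR) with h0 | h0
      · have hv0 : 0 < v := by nlinarith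
        constructor
        · exact div_pos_of_neg_of_neg h0 (by linarith)
        · rw [div_lt_one_of_neg (by linarith)]; linarith
      · have hv0 : v < 0 := by nlinarith
        constructor
        · exact div_pos h0 (by linarith)
        · rw [div_lt_one (by linarith)]; linarith
    obtain ⟨ht0, ht1⟩ := ht
    have htu : (1 - u / (u - v)) * u + u / (u - v) * v = 0 := by field_simp; ring
    generalize u / (u - v) = t at ht0 ht1 htu
    -- the crossing point
    set z : ℝ × ℝ := ((1 - t) * (pos (some l)).1 + t * (pos (some (l + 1))).1,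
      (1 - t) * (pos (some l)).2 + t * (pos (some (l + 1))).2) with hz
    have hzs : z ∈ segment ℝ (rl (pos (some l))) (rl (pos (some (l + 1)))) := by
      refine ⟨1 - t, t, by linarith, ht0.le, by ring, ?_⟩
      ext
      · simp [rl, hz]
      · simp [rl, hz]
    have hzK : z ∈ K pos := (convex_convexHull ℝ _).segment_subset (mem_K pos _) (mem_K pos _) hzs
    have s1 := hsep (some l) (by simp)
    have s2 := hsep (some (l + 1)) (by simp)
    have hfz : 0 < a0 * (z.1 - (pos none).1) + b0 * (z.2 - (pos none).2) := by
      have : a0 * (z.1 - (pos none).1) + b0 * (z.2 - (pos none).2) =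
          (1 - t) * (a0 * (((pos (some l)).1 : ℝ) - (pos none).1) +
            b0 * (((pos (some l)).2 : ℝ) - (pos none).2)) +
          t * (a0 * (((pos (some (l + 1))).1 : ℝ) - (pos none).1) +
            b0 * (((pos (some (l + 1))).2 : ℝ) - (pos none).2)) := by
        rw [hz]
        ring
      rw [this]
      have := mul_pos (show 0 < 1 - t by linarith) s1
      have := mul_pos ht0 s2
      linarith
    have hdet : (((pos (some i)).1 : ℝ) - (pos none).1) * (z.2 - (pos none).2) -
        (((pos (some i)).2 : ℝ) - (pos none).2) * (z.1 - (pos none).1) = 0 := by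
      rw [← htu, hU, hV, hz]
      ring
    obtain ⟨hx, hy⟩ := parallel
      (p := (((pos (some i)).1 : ℝ) - (pos none).1, ((pos (some i)).2 : ℝ) - (pos none).2))
      (q := (z.1 - (pos none).1, z.2 - (pos none).2))
      (a := a0) (b := b0) hdet (hsep (some i) (by simp))
    have hc := div_pos hfz (hsep (some i) (by simp))
    simp only at hx hy
    generalize (a0 * (z.1 - (pos none).1) + b0 * (z.2 - (pos none).2)) /
      (a0 * (((pos (some i)).1 : ℝ) - (pos none).1) +
      b0 * (((pos (some i)).2 : ℝ) - (pos none).2)) = c at hx hy hc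
    rcases le_or_gt c 1 with hc1 | hc1
    · have hz2 := key i z c hc.le hc1 (by linarith) (by linarith)
      obtain ⟨w, hw1, hw2, _⟩ := h.cross none (some i) (some l) (some (l + 1)) (adj_hub i)
        (adj_rim hN l) (by
          intro hs
          rw [Sym2.eq_iff] at hs
          rcases hs with ⟨hs, _⟩ | ⟨hs, _⟩ <;> cases hs) z hz2 hzs
      rcases hw1 with hw1 | hw1 <;> rcases hw2 with hw2 | hw2
      · rw [hw1] at hw2; cases hw2
      · rw [hw1] at hw2; cases hw2
      · rw [hw1] at hw2; exact hl (Option.some_inj.mp hw2).symm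
      · rw [hw1] at hw2; exact hl' (Option.some_inj.mp hw2).symm
    · have hb := not_between (h2 (some i) hi) (mem_K pos none) hzK (1 / c) (by positivity)
        (by rw [div_lt_one hc]; exact hc1)
        (by
          simp only [rl]
          have : z.1 = (pos none).1 + c * (((pos (some i)).1 : ℝ) - (pos none).1) := by linarith
          rw [this]; field_simp; ring)
        (by
          simp only [rl]
          have : z.2 = (pos none).2 + c * (((pos (some i)).2 : ℝ) - (pos none).2) := by linarith
          rw [this]; field_simp; ring)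
      have := rl_inj h.inj hb.1
      cases this
  have hsame : ∀ i, rl (pos (some i)) ∈ frontier (K pos) → ∀ j k, j ≠ i → k ≠ i →
      0 < D i j * D i k := by
    intro i hi
    have h1 : ∀ k : ℕ, k < N - 1 → 0 < D i (i + 1) * D i (i + 1 + k) := by
      intro k
      induction k with
      | zero =>
        intro _
        rw [Nat.cast_zero, add_zero]
        have : i ≠ i + 1 := by
          intro hh
          have := nat_ne (N := N) (j := 1) (by omega) (by omega) (by omega)
          rw [Nat.cast_one] at this
          exact this (left_eq_add.mp hh)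
        exact mul_self_pos.mpr (hD0 i (i + 1) this)
      | succ k ih =>
        intro hk
        have h5 := ih (by omega)
        have h6 := hadj i hi (i + 1 + k) (by
          intro hh
          have : ((k + 1 : ℕ) : ZMod N) = 0 := by
            push_cast
            have h7 : i + 1 + (k : ZMod N) = i + (k + 1) := by ring
            rw [h7] at hh
            exact add_eq_left.mp hh
          exact nat_ne (by omega) (by omega) (by omega) this) (by
          intro hh
          have : ((k + 2 : ℕ) : ZMod N) = 0 := by
            push_cast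
            have h7 : i + 1 + (k : ZMod N) + 1 = i + (k + 2) := by ring
            rw [h7] at hh
            exact add_eq_left.mp hh
          exact nat_ne (by omega) (by omega) (by omega) this)
        have h7 : i + 1 + (k : ZMod N) + 1 = i + 1 + ((k + 1 : ℕ) : ZMod N) := by push_cast; ring
        rw [h7] at h6
        have h8 := mul_pos h5 h6
        have h9 : D i (i + 1) * D i (i + 1 + k) * (D i (i + 1 + k) *
          D i (i + 1 + ((k + 1 : ℕ) : ZMod N))) = (D i (i + 1) *
            D i (i + 1 + ((k + 1 : ℕ) : ZMod N))) * (D i (i + 1 + k) * D i (i + 1 + k)) := by ring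
        rw [h9] at h8
        exact pos_of_mul_pos_left h8 (mul_self_nonneg _)
    have h4 : ∀ j, j ≠ i → 0 < D i (i + 1) * D i j := by
      intro j hj
      have e1 : (((j - i - 1).val : ℕ) : ZMod N) = j - i - 1 := ZMod.natCast_zmod_val _
      have e2 : (j - i - 1).val < N := ZMod.val_lt _
      have e3 : (j - i - 1).val ≠ N - 1 := by
        intro e4
        rw [e4, Nat.cast_sub (by omega), ZMod.natCast_self, Nat.cast_one] at e1
        apply hj
        have : j - i = 0 := by linear_combination -e1
        exact sub_eq_zero.mp this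
      have h5 := h1 (j - i - 1).val (by omega)
      rw [e1] at h5
      have e5 : i + 1 + (j - i - 1) = j := by ring
      rwa [e5] at h5
    intro j k hj hk
    have h5 := mul_pos (h4 j hj) (h4 k hk)
    have h6 : D i (i + 1) * D i j * (D i (i + 1) * D i k) =
      (D i j * D i k) * (D i (i + 1) * D i (i + 1)) := by ring
    rw [h6] at h5
    exact pos_of_mul_pos_left h5 (mul_self_nonneg _)
  -- at most two frontier rim vertices
  obtain ⟨a, m, hmN, hNm, hnF⟩ := LowInner.arc N hN
    (fun i => rl (pos (some i)) ∈ frontier (K pos)) (by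
      intro i j k hij hik hjk hi hj hk
      have q1 := hsame i hi j k hij.symm hik.symm
      have q2 := hsame j hj i k hij hjk.symm
      have q3 := hsame k hk i j hik hjk
      have q4 := mul_pos (mul_pos q1 q2) q3
      rw [hanti j i, hanti k i, hanti k j] at q4
      have : D i j * D i k * (-D i j * D j k) * (-D i k * -D j k) =
        -((D i j * D i k * D j k) * (D i j * D i k * D j k)) := by ring
      rw [this] at q4
      have := mul_self_nonneg (D i j * D i k * D j k)
      linarith)
  -- interior rim vertices
  have hint : ∀ i, ¬ rl (pos (some i)) ∈ frontier (K pos) →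
      0 < D (i - 1) i * D i (i + 1) ∧
      D i (i + 1) * (((pos (some i)).1 - (pos (some (i - 1))).1) *
        ((pos (some (i + 1))).2 - (pos (some i)).2) -
        ((pos (some i)).2 - (pos (some (i - 1))).2) *
        ((pos (some (i + 1))).1 - (pos (some i)).1)) < 0 := by
    intro i hi
    have hI : rl (pos (some i)) ∈ interior (K pos) := by
      by_contra hI
      exact hi (frontier_of pos (mem_K pos _) hI)
    have hne1 : i ≠ i + 1 := by
      intro hh
      have := nat_ne (N := N) (j := 1) (by omega) (by omega) (by omega)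
      rw [Nat.cast_one] at this
      exact this (left_eq_add.mp hh)
    have hne2 : i ≠ i - 1 := by
      intro hh
      have := nat_ne (N := N) (j := 1) (by omega) (by omega) (by omega)
      rw [Nat.cast_one] at this
      apply this
      linear_combination hh
    have hp : ∀ s : ℤ, s ≠ 0 → 0 < s * D i (i + 1) ∨ 0 < s * D i (i - 1) := by
      intro s hs
      have hpne : (-(s : ℝ) * (((pos (some i)).2 : ℝ) - (pos none).2)) ≠ 0 ∨
          ((s : ℝ) * (((pos (some i)).1 : ℝ) - (pos none).1)) ≠ 0 := by
        by_contra hcon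
        push Not at hcon
        have hsR : (s : ℝ) ≠ 0 := by exact_mod_cast hs
        have c1 : ((pos (some i)).2 : ℝ) - (pos none).2 = 0 := by
          rcases mul_eq_zero.mp hcon.1 with h0 | h0
          · exact absurd (neg_eq_zero.mp h0) hsR
          · exact h0
        have c2 : ((pos (some i)).1 : ℝ) - (pos none).1 = 0 := by
          rcases mul_eq_zero.mp hcon.2 with h0 | h0
          · exact absurd h0 hsR
          · exact h0
        have := hsep (some i) (by simp)
        rw [c1, c2] at this
        simp at this
      obtain ⟨u, hu1, hu2⟩ := h3 (some i) hI _ _ hpne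
      rcases adj_cases i u hu1 with hu | hu | hu
      · subst hu
        exfalso
        have : -(s : ℝ) * (((pos (some i)).2 : ℝ) - (pos none).2) *
          (((pos none).1 : ℝ) - (pos (some i)).1) +
          (s : ℝ) * (((pos (some i)).1 : ℝ) - (pos none).1) *
          (((pos none).2 : ℝ) - (pos (some i)).2) = 0 := by ring
        linarith
      · left
        subst hu
        have hR : (0 : ℝ) < (s : ℝ) * ((D i (i + 1) : ℤ) : ℝ) := by
          rw [hDr]
          refine lt_of_lt_of_eq hu2 ?_
          ring
        exact_mod_cast hR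
      · right
        subst hu
        have hR : (0 : ℝ) < (s : ℝ) * ((D i (i - 1) : ℤ) : ℝ) := by
          rw [hDr]
          refine lt_of_lt_of_eq hu2 ?_
          ring
        exact_mod_cast hR
    have hopp : D i (i + 1) * D i (i - 1) < 0 := by
      have hA := hD0 i (i + 1) hne1
      have hB := hD0 i (i - 1) hne2
      have p1 := hp 1 one_ne_zero
      have p2 := hp (-1) (by norm_num)
      rcases lt_or_gt_of_ne hA with hA | hA <;> rcases lt_or_gt_of_ne hB with hB | hB
      · rcases p1 with p1 | p1 <;> linarith
      · exact mul_neg_of_neg_of_pos hA hB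
      · exact mul_neg_of_pos_of_neg hA hB
      · rcases p2 with p2 | p2 <;> linarith
    constructor
    · rw [hanti (i - 1) i]
      linarith
    · set s := D i (i + 1) with hs
      have hs0 : s ≠ 0 := hD0 i (i + 1) hne1
      have hsR : (s : ℝ) ≠ 0 := by exact_mod_cast hs0
      have hpne : ((s : ℝ) * (((pos (some (i + 1))).2 : ℝ) - (pos (some i)).2)) ≠ 0 ∨
          (-(s : ℝ) * (((pos (some (i + 1))).1 : ℝ) - (pos (some i)).1)) ≠ 0 := by
        by_contra hcon
        push Not at hcon
        have c1 : ((pos (some (i + 1))).2 : ℝ) - (pos (some i)).2 = 0 := by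
          rcases mul_eq_zero.mp hcon.1 with h0 | h0
          · exact absurd h0 hsR
          · exact h0
        have c2 : ((pos (some (i + 1))).1 : ℝ) - (pos (some i)).1 = 0 := by
          rcases mul_eq_zero.mp hcon.2 with h0 | h0
          · exact absurd (neg_eq_zero.mp h0) hsR
          · exact h0
        have e := rl_inj h.inj (u := some (i + 1)) (v := some i) (by
          simp only [rl, Prod.mk.injEq]
          exact ⟨sub_eq_zero.mp c2, sub_eq_zero.mp c1⟩)
        exact hne1 (Option.some_inj.mp e).symm
      obtain ⟨u, hu1, hu2⟩ := h3 (some i) hI _ _ hpne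
      rcases adj_cases i u hu1 with hu | hu | hu
      · subst hu
        exfalso
        have hR : -((s : ℝ) * (s : ℝ)) = (s : ℝ) * (((pos (some (i + 1))).2 : ℝ) -
            (pos (some i)).2) * (((pos none).1 : ℝ) - (pos (some i)).1) +
            -(s : ℝ) * (((pos (some (i + 1))).1 : ℝ) - (pos (some i)).1) *
            (((pos none).2 : ℝ) - (pos (some i)).2) := by
          nth_rewrite 2 [hs]
          rw [hDr i (i + 1)]
          ring
        nlinarith [mul_self_nonneg (s : ℝ)]
      · subst hu
        exfalso
        nlinarith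
      · subst hu
        have hR : (0 : ℝ) < -((s : ℝ) * ((((pos (some i)).1 - (pos (some (i - 1))).1) *
          ((pos (some (i + 1))).2 - (pos (some i)).2) -
          ((pos (some i)).2 - (pos (some (i - 1))).2) *
          ((pos (some (i + 1))).1 - (pos (some i)).1) : ℤ) : ℝ)) := by
          refine lt_of_lt_of_eq hu2 ?_
          push_cast
          ring
        have hZ : 0 < -(s * (((pos (some i)).1 - (pos (some (i - 1))).1) *
          ((pos (some (i + 1))).2 - (pos (some i)).2) -
          ((pos (some i)).2 - (pos (some (i - 1))).2) *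
          ((pos (some (i + 1))).1 - (pos (some i)).1))) := by exact_mod_cast hR
        linarith
  -- the chain
  have hcast : ∀ k : ℕ, a + ((k + 1 : ℕ) : ZMod N) = a + k + 1 := by
    intro k; push_cast; ring
  obtain ⟨σ, hσ, hmono⟩ : ∃ σ : ℤ, (σ = 1 ∨ σ = -1) ∧
      ∀ k < m, 0 < σ * D (a + k) (a + k + 1) := by
    have hne1 : ∀ i : ZMod N, i ≠ i + 1 := by
      intro i hh
      have := nat_ne (N := N) (j := 1) (by omega) (by omega) (by omega)
      rw [Nat.cast_one] at this
      exact this (left_eq_add.mp hh)
    have hind : ∀ k : ℕ, k < m → 0 < D a (a + 1) * D (a + k) (a + k + 1) := by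
      intro k
      induction k with
      | zero =>
        intro _
        rw [Nat.cast_zero, add_zero]
        exact mul_self_pos.mpr (hD0 a (a + 1) (hne1 a))
      | succ k ih =>
        intro hk
        have h5 := ih (by omega)
        have h6 := (hint (a + ((k + 1 : ℕ) : ZMod N)) (hnF (k + 1) (by omega) hk)).1
        rw [hcast k] at h6 ⊢
        rw [add_sub_cancel_right] at h6
        have h8 := mul_pos h5 h6
        have h9 : D a (a + 1) * D (a + k) (a + k + 1) *
          (D (a + k) (a + k + 1) * D (a + k + 1) (a + k + 1 + 1)) =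
          (D a (a + 1) * D (a + k + 1) (a + k + 1 + 1)) *
          (D (a + k) (a + k + 1) * D (a + k) (a + k + 1)) := by ring
        rw [h9] at h8
        exact pos_of_mul_pos_left h8 (mul_self_nonneg _)
    rcases lt_or_gt_of_ne (hD0 a (a + 1) (hne1 a)) with hs | hs
    · refine ⟨-1, Or.inr rfl, fun k hk => ?_⟩
      have := neg_of_mul_pos_right (hind k hk) hs.le
      linarith
    · refine ⟨1, Or.inl rfl, fun k hk => ?_⟩
      have := pos_of_mul_pos_right (hind k hk) hs.le
      linarith
  obtain ⟨c1, c2⟩ := chain_bound m L (pos none) (fun k : ℕ => pos (some (a + k))) σ hσ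
    (fun k _ => h.grid _) ⟨a0, b0, fun k _ => hsep _ (by simp)⟩
    (fun k hk => by
      have := hmono k hk
      simp only [hcast]
      refine lt_of_lt_of_eq this ?_
      simp only [hDdef, dt]
      ring)
    (fun k hk => by
      have g1 := (hint (a + ((k + 1 : ℕ) : ZMod N)) (hnF (k + 1) (by omega) hk)).2
      have g2 := hmono (k + 1) hk
      have e1 : a + ((k + 2 : ℕ) : ZMod N) = a + k + 1 + 1 := by push_cast; ring
      simp only [e1]
      rw [hcast k] at g1 g2 ⊢
      rw [add_sub_cancel_right] at g1
      generalize D (a + k + 1) (a + k + 1 + 1) = d at g1 g2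
      rcases hσ with hσ | hσ
      · subst hσ
        have hd : 0 < d := by linarith
        have := neg_of_mul_neg_right g1 hd.le
        linarith
      · subst hσ
        have hd : d < 0 := by linarith
        have := pos_of_mul_neg_right g1 hd.le
        linarith)
  have hinjk : Set.InjOn (fun k : ℕ => a + (k : ZMod N)) (Set.Iio m) := by
    intro x hx y hy hxy
    simp only [Set.mem_Iio] at hx hy
    have hxy' : ((x : ℕ) : ZMod N) = y := add_left_cancel hxy
    have := congrArg ZMod.val hxy'
    rwa [ZMod.val_natCast, ZMod.val_natCast, Nat.mod_eq_of_lt (by omega),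
      Nat.mod_eq_of_lt (by omega)] at this
  have hinjr : Set.InjOn (fun k : ℕ => a + (k : ZMod N)) (range m : Finset ℕ) := by
    rw [Finset.coe_range]
    exact hinjk
  refine ⟨(range m).image (fun k : ℕ => a + (k : ZMod N)), ?_, ?_, ?_⟩
  · rw [Finset.card_image_of_injOn hinjr, card_range]
    exact hNm
  · rw [Finset.coe_image, Finset.coe_range]
    rintro _ ⟨x, hx, rfl⟩ _ ⟨y, hy, rfl⟩ hxy
    have : x = y := by
      apply c1 hx hy
      simp only [hcast]
      exact hxy
    rw [this]
  · rw [Finset.sum_image hinjr]
    refine le_of_eq_of_le ?_ c2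
    apply Finset.sum_congr rfl
    intro k _
    simp only [hcast]

end P8ffccf

end
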