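import Pool.Agent.Lib.P8ffccf.LowBase

/-! The rim of a wheel whose hub is inside the hull (MP_8ffccf_co, lower bound). -/

noncomputable section

namespace P8ffccf

open Classical Finset LowBase

namespace LowOuter

/-- The vertices lie on one side of the line through two distinct ones: no point of that line is
interior. -/
theorem nonint {V : Type} {pos : V → ℤ × ℤ} (hinj : Function.Injective pos) (τ : ℤ) (hτ : τ ≠ 0)
    (u n x : V) (hun : u ≠ n) (hw : ∀ w, 0 ≤ τ * dt (pos u) (pos n) (pos w))
    (hx : dt (pos u) (pos n) (pos x) = 0) : rl (pos x) ∉ interior (K pos) := by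
  have hτR : (τ : ℝ) ≠ 0 := by exact_mod_cast hτ
  refine not_interior (-(τ : ℝ) * (((pos n).2 : ℝ) - (pos u).2))
    ((τ : ℝ) * (((pos n).1 : ℝ) - (pos u).1))
    (-(τ : ℝ) * (((pos n).2 : ℝ) - (pos u).2) * (pos u).1 +
      (τ : ℝ) * (((pos n).1 : ℝ) - (pos u).1) * (pos u).2) ?_ ?_ ?_
  · by_contra hcon
    push Not at hcon
    have c1 : ((pos n).2 : ℝ) - (pos u).2 = 0 := by
      rcases mul_eq_zero.mp hcon.1 with h0 | h0
      · exact absurd (neg_eq_zero.mp h0) hτR
      · exact h0
    have c2 : ((pos n).1 : ℝ) - (pos u).1 = 0 := by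
      rcases mul_eq_zero.mp hcon.2 with h0 | h0
      · exact absurd h0 hτR
      · exact h0
    apply hun
    apply rl_inj hinj
    simp only [rl, Prod.mk.injEq]
    exact ⟨(sub_eq_zero.mp c2).symm, (sub_eq_zero.mp c1).symm⟩
  · intro w
    have h1 : (0 : ℝ) ≤ (τ : ℝ) * ((dt (pos u) (pos n) (pos w) : ℤ) : ℝ) := by
      exact_mod_cast hw w
    simp only [dt] at h1
    push_cast at h1
    linarith
  · have h1 : ((dt (pos u) (pos n) (pos x) : ℤ) : ℝ) = 0 := by rw [hx]; simp
    simp only [dt] at h1
    push_cast at h1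
    simp only [rl]
    linear_combination (τ : ℝ) * h1

/-- At a frontier vertex, the extremal direction on each side is the direction of an edge. -/
theorem extremal_edge {V : Type} [Fintype V] {pos : V → ℤ × ℤ} (G : SimpleGraph V)
    (hinj : Function.Injective pos)
    (h1 : frontier (K pos) ⊆ gdraw G (fun v => rl (pos v)))
    (r c : V) (hrc : c ≠ r) (hr : rl (pos r) ∈ (K pos).extremePoints ℝ)
    (τ : ℤ) (hτ : τ ≠ 0) :
    ∃ n, G.Adj r n ∧ ∀ w, 0 ≤ τ * dt (pos r) (pos n) (pos w) := by
  have hτR : (τ : ℝ) ≠ 0 := by exact_mod_cast hτ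
  obtain ⟨a, b, hab⟩ := sep hinj r hr
  -- the extremal vertex
  obtain ⟨q, hq, hmin⟩ := Finset.exists_min_image (univ.erase r)
    (fun v => (τ : ℝ) * (-b * (((pos v).1 : ℝ) - (pos r).1) + a * (((pos v).2 : ℝ) - (pos r).2)) /
      (a * (((pos v).1 : ℝ) - (pos r).1) + b * (((pos v).2 : ℝ) - (pos r).2)))
    ⟨c, Finset.mem_erase.mpr ⟨hrc, mem_univ _⟩⟩
  have hqr : q ≠ r := (Finset.mem_erase.mp hq).1
  have hfq := hab q hqr
  have hab2 : 0 < a ^ 2 + b ^ 2 := by
    by_contra hcon
    have ha : a = 0 := by nlinarith [sq_nonneg a, sq_nonneg b]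
    have hb : b = 0 := by nlinarith [sq_nonneg a, sq_nonneg b]
    rw [ha, hb] at hfq
    simp at hfq
  have hqw : ∀ w, (0 : ℝ) ≤ (τ : ℝ) * ((((pos q).1 : ℝ) - (pos r).1) * (((pos w).2 : ℝ) - (pos r).2) -
      (((pos q).2 : ℝ) - (pos r).2) * (((pos w).1 : ℝ) - (pos r).1)) := by
    intro w
    by_cases hw : w = r
    · subst hw
      simp
    · have hm := hmin w (Finset.mem_erase.mpr ⟨hw, mem_univ _⟩)
      have hfw := hab w hw
      rw [div_le_div_iff₀ hfq hfw] at hm
      have h5 : 0 ≤ (a ^ 2 + b ^ 2) * ((τ : ℝ) * ((((pos q).1 : ℝ) - (pos r).1) *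
        (((pos w).2 : ℝ) - (pos r).2) -
        (((pos q).2 : ℝ) - (pos r).2) * (((pos w).1 : ℝ) - (pos r).1))) := by
        nlinarith
      exact nonneg_of_mul_nonneg_right h5 hab2
  -- points near r in this direction are on the frontier
  set zt : ℝ → ℝ × ℝ := fun t => ((pos r).1 + t * (((pos q).1 : ℝ) - (pos r).1),
    (pos r).2 + t * (((pos q).2 : ℝ) - (pos r).2)) with hzt
  have hfr : ∀ t : ℝ, 0 < t → t ≤ 1 → zt t ∈ frontier (K pos) := by
    intro t ht0 ht1
    apply frontier_of pos
    · apply (convex_convexHull ℝ _).segment_subset (mem_K pos r) (mem_K pos q)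
      refine ⟨1 - t, t, by linarith, ht0.le, by ring, ?_⟩
      ext
      · simp only [rl, hzt, Prod.fst_add, Prod.smul_fst, smul_eq_mul]; ring
      · simp only [rl, hzt, Prod.snd_add, Prod.smul_snd, smul_eq_mul]; ring
    · refine not_interior (-(τ : ℝ) * (((pos q).2 : ℝ) - (pos r).2))
        ((τ : ℝ) * (((pos q).1 : ℝ) - (pos r).1))
        (-(τ : ℝ) * (((pos q).2 : ℝ) - (pos r).2) * (pos r).1 +
          (τ : ℝ) * (((pos q).1 : ℝ) - (pos r).1) * (pos r).2) ?_ ?_ ?_
      · by_contra hcon
        push Not at hcon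
        have c1 : ((pos q).2 : ℝ) - (pos r).2 = 0 := by
          rcases mul_eq_zero.mp hcon.1 with h0 | h0
          · exact absurd (neg_eq_zero.mp h0) hτR
          · exact h0
        have c2 : ((pos q).1 : ℝ) - (pos r).1 = 0 := by
          rcases mul_eq_zero.mp hcon.2 with h0 | h0
          · exact absurd h0 hτR
          · exact h0
        rw [c1, c2] at hfq
        simp at hfq
      · intro w
        have := hqw w
        linarith
      · simp only [hzt]
        ring
  -- the edges that miss r form a closed set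
  have hCl : IsClosed (⋃ u : V, ⋃ v : V, if rl (pos r) ∈ segment ℝ (rl (pos u)) (rl (pos v)) then
      (∅ : Set (ℝ × ℝ)) else segment ℝ (rl (pos u)) (rl (pos v))) := by
    apply isClosed_iUnion_of_finite
    intro u
    apply isClosed_iUnion_of_finite
    intro v
    split_ifs
    · exact isClosed_empty
    · rw [← convexHull_pair]
      exact (Set.toFinite _).isClosed_convexHull ℝ
  have hrC : zt 0 ∉ (⋃ u : V, ⋃ v : V, if rl (pos r) ∈ segment ℝ (rl (pos u)) (rl (pos v)) then
      (∅ : Set (ℝ × ℝ)) else segment ℝ (rl (pos u)) (rl (pos v))) := by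
    have h0 : zt 0 = rl (pos r) := by
      simp only [hzt, rl, zero_mul, add_zero]
    rw [h0]
    simp only [Set.mem_iUnion, not_exists]
    intro u v
    split_ifs with hh
    · exact Set.notMem_empty _
    · exact hh
  have hcont : ContinuousAt zt 0 := by
    rw [hzt]
    fun_prop
  have hev : ∀ᶠ t in nhdsWithin (0 : ℝ) (Set.Ioi 0), zt t ∉ (⋃ u : V, ⋃ v : V,
      if rl (pos r) ∈ segment ℝ (rl (pos u)) (rl (pos v)) then
      (∅ : Set (ℝ × ℝ)) else segment ℝ (rl (pos u)) (rl (pos v))) :=
    nhdsWithin_le_nhds (hcont.preimage_mem_nhds (hCl.isOpen_compl.mem_nhds hrC))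
  have hev2 : ∀ᶠ t in nhdsWithin (0 : ℝ) (Set.Ioi 0), t < 1 :=
    nhdsWithin_le_nhds (Iio_mem_nhds zero_lt_one)
  obtain ⟨t, ⟨htC, ht1⟩, ht0⟩ := ((hev.and hev2).and self_mem_nhdsWithin).exists
  have ht0' : 0 < t := ht0
  obtain ⟨u, v, huv, hz⟩ := h1 (hfr t ht0' ht1.le)
  have hrs : rl (pos r) ∈ segment ℝ (rl (pos u)) (rl (pos v)) := by
    by_contra hcon
    apply htC
    simp only [Set.mem_iUnion]
    refine ⟨u, v, ?_⟩
    rw [if_neg hcon]
    exact hz
  have hfin : ∀ n, G.Adj r n → zt t ∈ segment ℝ (rl (pos r)) (rl (pos n)) →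
      ∀ w, 0 ≤ τ * dt (pos r) (pos n) (pos w) := by
    intro n hn hs w
    obtain ⟨α, s, hα, hs0, hsum, hzs⟩ := hs
    have e1 := congrArg Prod.fst hzs
    have e2 := congrArg Prod.snd hzs
    simp only [rl, hzt, Prod.fst_add, Prod.smul_fst, Prod.snd_add, Prod.smul_snd,
      smul_eq_mul] at e1 e2
    have hα' : α = 1 - s := by linarith
    subst hα'
    have f1 : s * (((pos n).1 : ℝ) - (pos r).1) = t * (((pos q).1 : ℝ) - (pos r).1) := by
      linarith
    have f2 : s * (((pos n).2 : ℝ) - (pos r).2) = t * (((pos q).2 : ℝ) - (pos r).2) := by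
      linarith
    have hspos : 0 < s := by
      rcases hs0.eq_or_lt with h0 | h0
      · exfalso
        rw [← h0, zero_mul] at f1 f2
        have g1 : ((pos q).1 : ℝ) - (pos r).1 = 0 := by
          rcases mul_eq_zero.mp f1.symm with h | h
          · exact absurd h ht0'.ne'
          · exact h
        have g2 : ((pos q).2 : ℝ) - (pos r).2 = 0 := by
          rcases mul_eq_zero.mp f2.symm with h | h
          · exact absurd h ht0'.ne'
          · exact h
        rw [g1, g2] at hfq
        simp at hfq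
      · exact h0
    have h6 : (0 : ℝ) ≤ s * ((τ : ℝ) * ((dt (pos r) (pos n) (pos w) : ℤ) : ℝ)) := by
      have h7 := mul_nonneg ht0'.le (hqw w)
      simp only [dt]
      push_cast
      have h8 : s * ((τ : ℝ) * ((((pos n).1 : ℝ) - (pos r).1) * (((pos w).2 : ℝ) - (pos r).2) -
          (((pos n).2 : ℝ) - (pos r).2) * (((pos w).1 : ℝ) - (pos r).1))) =
          (τ : ℝ) * ((s * (((pos n).1 : ℝ) - (pos r).1)) * (((pos w).2 : ℝ) - (pos r).2) -
          (s * (((pos n).2 : ℝ) - (pos r).2)) * (((pos w).1 : ℝ) - (pos r).1)) := by ring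
      rw [h8, f1, f2]
      linarith
    have h9 : (0 : ℝ) ≤ (τ : ℝ) * ((dt (pos r) (pos n) (pos w) : ℤ) : ℝ) :=
      nonneg_of_mul_nonneg_right h6 hspos
    exact_mod_cast h9
  rcases (mem_extremePoints_iff_forall_segment.mp hr).2 _ (mem_K pos u) _ (mem_K pos v) hrs
    with h0 | h0
  · have := rl_inj hinj h0
    subst this
    exact ⟨v, huv, hfin v huv hz⟩
  · have := rl_inj hinj h0
    subst this
    exact ⟨u, huv.symm, hfin u huv.symm (by rw [segment_symm]; exact hz)⟩

/-- Double counting: the total increase of the abscissa along a convex polygon. -/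
theorem one_dir (N : ℕ) [NeZero N] (hN : 3 ≤ N) (L : ℕ) (x y : ZMod N → ℤ) (σ : ℤ)
    (hx : ∀ i, 0 ≤ x i ∧ x i ≤ L)
    (hc : ∀ i j, j ≠ i → j ≠ i + 1 →
      0 < σ * ((x (i + 1) - x i) * (y j - y i) - (y (i + 1) - y i) * (x j - x i))) :
    ∑ i, max (x (i + 1) - x i) 0 ≤ (L : ℤ) := by
  have hone : (1 : ZMod N) ≠ 0 := by
    have := nat_ne (N := N) (j := 1) (by omega) (by omega) (by omega)
    rwa [Nat.cast_one] at this
  have htwo : (1 : ZMod N) + 1 ≠ 0 := by
    have := nat_ne (N := N) (j := 2) (by omega) (by omega) (by omega)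
    intro h
    apply this
    push_cast
    rw [← h]
    norm_num
  set e : ZMod N → ZMod N → ℤ := fun i j =>
    σ * ((x (i + 1) - x i) * (y j - y i) - (y (i + 1) - y i) * (x j - x i)) with he
  have hnn : ∀ i j, 0 ≤ e i j := by
    intro i j
    by_cases h1 : j = i
    · subst h1; simp [he]
    · by_cases h2 : j = i + 1
      · subst h2
        apply le_of_eq
        simp only [he]
        ring
      · exact (hc i j h1 h2).le
  have hpos : ∀ i j, i ≠ j → ∀ l m : ℤ, 0 < l → 0 < m → 0 < l * e i j + m * e i (j + 1) := by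
    intro i j hij l m hl hm
    by_cases h2 : j = i + 1
    · have h3 : 0 < e i (j + 1) := by
        apply hc
        · rw [h2]
          intro h
          apply htwo
          rw [add_assoc] at h
          exact add_eq_left.mp h
        · rw [h2]
          intro h
          exact hone (add_eq_left.mp h)
      have := mul_pos hm h3
      have := mul_nonneg hl.le (hnn i j)
      linarith
    · have h3 : 0 < e i j := hc i j (Ne.symm hij) h2
      have := mul_pos hl h3
      have := mul_nonneg hm.le (hnn i (j + 1))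
      linarith
  have huniq : ∀ k : ℤ, ∀ i j, x i ≤ k → k < x (i + 1) → x j ≤ k → k < x (j + 1) → i = j := by
    intro k i j h1 h2 h3 h4
    by_contra hij
    have s1 := hpos i j hij (2 * x (j + 1) - (2 * k + 1)) ((2 * k + 1) - 2 * x j)
      (by omega) (by omega)
    have s2 := hpos j i (Ne.symm hij) (2 * x (i + 1) - (2 * k + 1)) ((2 * k + 1) - 2 * x i)
      (by omega) (by omega)
    have s3 : ((2 * x (j + 1) - (2 * k + 1)) * e i j + ((2 * k + 1) - 2 * x j) * e i (j + 1)) +
      ((2 * x (i + 1) - (2 * k + 1)) * e j i + ((2 * k + 1) - 2 * x i) * e j (i + 1)) = 0 := by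
      simp only [he]
      ring
    linarith
  have hmax : ∀ i, max (x (i + 1) - x i) 0 =
      ∑ k ∈ Finset.Ico (0 : ℤ) L, if x i ≤ k ∧ k < x (i + 1) then (1 : ℤ) else 0 := by
    intro i
    rw [← Finset.sum_filter, Finset.sum_const, nsmul_eq_mul, mul_one]
    have h1 : (Finset.Ico (0 : ℤ) L).filter (fun k => x i ≤ k ∧ k < x (i + 1)) =
        Finset.Ico (x i) (x (i + 1)) := by
      ext k
      rw [Finset.mem_filter, Finset.mem_Ico, Finset.mem_Ico]
      have := hx i
      have := hx (i + 1)
      constructor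
      · exact fun h => h.2
      · intro h
        exact ⟨⟨by omega, by omega⟩, h⟩
    rw [h1, Int.card_Ico, Int.toNat_eq_max]
  calc ∑ i, max (x (i + 1) - x i) 0
      = ∑ i, ∑ k ∈ Finset.Ico (0 : ℤ) L, (if x i ≤ k ∧ k < x (i + 1) then (1 : ℤ) else 0) :=
        Finset.sum_congr rfl (fun i _ => hmax i)
    _ = ∑ k ∈ Finset.Ico (0 : ℤ) L, ∑ i, (if x i ≤ k ∧ k < x (i + 1) then (1 : ℤ) else 0) :=
        Finset.sum_comm
    _ ≤ ∑ k ∈ Finset.Ico (0 : ℤ) L, 1 := by
        apply Finset.sum_le_sum
        intro k _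
        rw [← Finset.sum_filter, Finset.sum_const, nsmul_eq_mul, mul_one]
        have : (Finset.univ.filter (fun i => x i ≤ k ∧ k < x (i + 1))).card ≤ 1 := by
          rw [Finset.card_le_one]
          intro i hi j hj
          rw [Finset.mem_filter] at hi hj
          exact huniq k i j hi.2.1 hi.2.2 hj.2.1 hj.2.2
        exact_mod_cast this
    _ = L := by
        rw [Finset.sum_const, Int.card_Ico]
        simp

end LowOuter

open LowOuter

theorem rim_outer (N : ℕ) [NeZero N] (hN : 3 ≤ N) (L : ℕ) (pos : Option (ZMod N) → ℤ × ℤ)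
    (h : IsDrawing (wheel N) L pos)
    (h1 : frontier (convexHull ℝ (Set.range fun v => rl (pos v))) ⊆
      gdraw (wheel N) (fun v => rl (pos v)))
    (h2 : ∀ v, rl (pos v) ∈ frontier (convexHull ℝ (Set.range fun v => rl (pos v))) →
      rl (pos v) ∈ (convexHull ℝ (Set.range fun v => rl (pos v))).extremePoints ℝ)
    (hhub : rl (pos none) ∈ interior (convexHull ℝ (Set.range fun v => rl (pos v)))) :
    ∃ S : Finset (ZMod N), N ≤ 2 * S.card + 4 ∧
      Set.InjOn (fun i => pos (some (i + 1)) - pos (some i)) S ∧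
      ∑ i ∈ S, (|(pos (some (i + 1)) - pos (some i)).1| +
        |(pos (some (i + 1)) - pos (some i)).2|) ≤ 4 * (L : ℤ) := by
  have hone : (1 : ZMod N) ≠ 0 := by
    have := nat_ne (N := N) (j := 1) (by omega) (by omega) (by omega)
    rwa [Nat.cast_one] at this
  have hne1 : ∀ i : ZMod N, i ≠ i + 1 := fun i hh => hone (left_eq_add.mp hh)
  have hne2 : ∀ i : ZMod N, i ≠ i - 1 := by
    intro i hh
    apply hone
    linear_combination hh
  -- one frontier rim vertex
  obtain ⟨i0, hi0⟩ : ∃ i0 : ZMod N, rl (pos (some i0)) ∈ frontier (K pos) := by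
    obtain ⟨v, _, hv⟩ := Finset.exists_max_image (univ : Finset (Option (ZMod N)))
      (fun v => (pos v).1) ⟨none, mem_univ _⟩
    have hni : rl (pos v) ∉ interior (K pos) := by
      refine not_interior (-1) 0 (-((pos v).1 : ℝ)) (Or.inl (by norm_num)) ?_ ?_
      · intro w
        have : (((pos w).1 : ℤ) : ℝ) ≤ (pos v).1 := by exact_mod_cast hv w (mem_univ _)
        linarith
      · simp only [rl]; ring
    cases v with
    | none => exact absurd hhub hni
    | some i => exact ⟨i, frontier_of pos (mem_K pos _) hni⟩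
  -- both rim edges at a frontier vertex are on supporting lines
  have hstep : ∀ i, rl (pos (some i)) ∈ frontier (K pos) → ∃ σ : ℤ, (σ = 1 ∨ σ = -1) ∧
      (∀ w, 0 ≤ σ * dt (pos (some i)) (pos (some (i + 1))) (pos w)) ∧
      (∀ w, 0 ≤ -σ * dt (pos (some i)) (pos (some (i - 1))) (pos w)) := by
    intro i hi
    have hnb : ∀ τ : ℤ, τ ≠ 0 → ∃ n, (n = some (i + 1) ∨ n = some (i - 1)) ∧
        ∀ w, 0 ≤ τ * dt (pos (some i)) (pos n) (pos w) := by
      intro τ hτ
      obtain ⟨n, hn1, hn2⟩ := extremal_edge (wheel N) h.inj h1 (some i) none (by simp)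
        (h2 _ hi) τ hτ
      rcases adj_cases i n hn1 with hn | hn | hn
      · exfalso
        subst hn
        refine nonint h.inj τ hτ (some i) none none (by simp) hn2 ?_ hhub
        simp only [dt]
        ring
      · exact ⟨n, Or.inl hn, hn2⟩
      · exact ⟨n, Or.inr hn, hn2⟩
    obtain ⟨n1, hn1, hw1⟩ := hnb 1 one_ne_zero
    obtain ⟨n2, hn2, hw2⟩ := hnb (-1) (by norm_num)
    have hkey : n1 = n2 → some i ≠ n1 → False := by
      intro hh hne
      subst hh
      refine nonint h.inj 1 one_ne_zero (some i) n1 none hne hw1 ?_ hhub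
      have a1 := hw1 none
      have a2 := hw2 none
      omega
    rcases hn1 with hn1 | hn1 <;> rcases hn2 with hn2 | hn2
    · exfalso
      exact hkey (hn1.trans hn2.symm) (by rw [hn1]; simpa using hne1 i)
    · refine ⟨1, Or.inl rfl, ?_, ?_⟩
      · rw [← hn1]; exact hw1
      · rw [← hn2]; exact hw2
    · refine ⟨-1, Or.inr rfl, ?_, ?_⟩
      · rw [← hn2]; exact hw2
      · rw [← hn1]; simpa using hw1
    · exfalso
      exact hkey (hn1.trans hn2.symm) (by rw [hn1]; simpa using hne2 i)
  obtain ⟨σ, hσ, hσ1, hσ2⟩ := hstep i0 hi0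
  have hσ0 : σ ≠ 0 := by rcases hσ with rfl | rfl <;> norm_num
  have hall : ∀ k : ℕ, rl (pos (some (i0 + k))) ∈ frontier (K pos) ∧
      ∀ w, 0 ≤ σ * dt (pos (some (i0 + k))) (pos (some (i0 + k + 1))) (pos w) := by
    intro k
    induction k with
    | zero =>
      rw [Nat.cast_zero, add_zero]
      exact ⟨hi0, hσ1⟩
    | succ k ih =>
      obtain ⟨ih1, ih2⟩ := ih
      have e1 : i0 + ((k + 1 : ℕ) : ZMod N) = i0 + k + 1 := by push_cast; ring
      rw [e1]
      generalize i0 + (k : ZMod N) = i at ih1 ih2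
      have hne : (some i : Option (ZMod N)) ≠ some (i + 1) := by simpa using hne1 i
      have hfr : rl (pos (some (i + 1))) ∈ frontier (K pos) := by
        apply frontier_of pos (mem_K pos _)
        refine nonint h.inj σ hσ0 (some i) (some (i + 1)) _ hne ih2 ?_
        simp only [dt]
        ring
      refine ⟨hfr, ?_⟩
      obtain ⟨σ', hσ', hs1, hs2⟩ := hstep (i + 1) hfr
      have hA0 : dt (pos (some i)) (pos (some (i + 1))) (pos none) ≠ 0 := fun h0 =>
        nonint h.inj σ hσ0 (some i) (some (i + 1)) none hne ih2 h0 hhub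
      have hA1 := ih2 none
      have hA2 := hs2 none
      rw [add_sub_cancel_right] at hA2
      have hA3 : dt (pos (some (i + 1))) (pos (some i)) (pos none) =
          - dt (pos (some i)) (pos (some (i + 1))) (pos none) := by
        simp only [dt]
        ring
      rw [hA3] at hA2
      have : σ' = σ := by
        rcases hσ with hσ | hσ <;> rcases hσ' with hσ' | hσ' <;> subst hσ <;> subst hσ'
        · rfl
        · exfalso; apply hA0; omega
        · exfalso; apply hA0; omega
        · rfl
      rw [← this]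
      exact hs1
  have hall' : ∀ i, rl (pos (some i)) ∈ frontier (K pos) ∧
      ∀ w, 0 ≤ σ * dt (pos (some i)) (pos (some (i + 1))) (pos w) := by
    intro i
    have := hall (i - i0).val
    rw [ZMod.natCast_zmod_val] at this
    have e : i0 + (i - i0) = i := by ring
    rwa [e] at this
  have hstrict : ∀ i j, j ≠ i → j ≠ i + 1 →
      0 < σ * dt (pos (some i)) (pos (some (i + 1))) (pos (some j)) := by
    intro i j hj1 hj2
    refine lt_of_le_of_ne ((hall' i).2 (some j)) (Ne.symm (mul_ne_zero hσ0 ?_))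
    exact three_ne h.inj (some i) (some (i + 1)) (some j) (by simpa using hne1 i)
      (by simpa using Ne.symm hj1) (by simpa using Ne.symm hj2) (h2 _ (hall' _).1)
      (h2 _ (hall' _).1) (h2 _ (hall' _).1)
  -- the sum
  set X : ZMod N → ℤ := fun i => (pos (some i)).1 with hX
  set Y : ZMod N → ℤ := fun i => (pos (some i)).2 with hY
  have hg : ∀ i, (0 ≤ X i ∧ X i ≤ L) ∧ (0 ≤ Y i ∧ Y i ≤ L) := fun i => h.grid _
  have b1 := one_dir N hN L X Y σ (fun i => (hg i).1) (fun i j hj1 hj2 => by
    have := hstrict i j hj1 hj2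
    simpa only [dt] using this)
  have b2 := one_dir N hN L (fun i => L - X i) Y (-σ) (fun i => by
      have := (hg i).1
      constructor <;> omega) (fun i j hj1 hj2 => by
    have := hstrict i j hj1 hj2
    refine lt_of_lt_of_eq this ?_
    simp only [dt, hX, hY]
    ring)
  have b3 := one_dir N hN L Y X (-σ) (fun i => (hg i).2) (fun i j hj1 hj2 => by
    have := hstrict i j hj1 hj2
    refine lt_of_lt_of_eq this ?_
    simp only [dt, hX, hY]
    ring)
  have b4 := one_dir N hN L (fun i => L - Y i) X σ (fun i => by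
      have := (hg i).2
      constructor <;> omega) (fun i j hj1 hj2 => by
    have := hstrict i j hj1 hj2
    refine lt_of_lt_of_eq this ?_
    simp only [dt, hX, hY]
    ring)
  refine ⟨univ, ?_, ?_, ?_⟩
  · rw [card_univ, ZMod.card]
    omega
  · intro i _ j _ hij
    simp only at hij
    by_contra hne
    have d1 : (pos (some (i + 1))).1 - (pos (some i)).1 =
        (pos (some (j + 1))).1 - (pos (some j)).1 := congrArg Prod.fst hij
    have d2 : (pos (some (i + 1))).2 - (pos (some i)).2 =
        (pos (some (j + 1))).2 - (pos (some j)).2 := congrArg Prod.snd hij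
    have g1 := (hall' i).2 (some j)
    have g1' := (hall' i).2 (some (j + 1))
    have g2 := (hall' j).2 (some i)
    have hz : σ * dt (pos (some i)) (pos (some (i + 1))) (pos (some j)) = 0 := by
      have e : σ * dt (pos (some j)) (pos (some (j + 1))) (pos (some i)) =
          - (σ * dt (pos (some i)) (pos (some (i + 1))) (pos (some j))) := by
        simp only [dt]
        rw [← d1, ← d2]
        ring
      linarith
    by_cases hj : j = i + 1
    · have hlt := hstrict i (j + 1) (by
          rw [hj]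
          intro hh
          have := nat_ne (N := N) (j := 2) (by omega) (by omega) (by omega)
          apply this
          push_cast
          linear_combination hh) (by
          rw [hj]
          exact (hne1 (i + 1)).symm)
      have e : σ * dt (pos (some i)) (pos (some (i + 1))) (pos (some (j + 1))) =
          σ * dt (pos (some i)) (pos (some (i + 1))) (pos (some j)) := by
        have e1 : (pos (some (j + 1))).1 = (pos (some j)).1 +
          ((pos (some (i + 1))).1 - (pos (some i)).1) := by linarith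
        have e2 : (pos (some (j + 1))).2 = (pos (some j)).2 +
          ((pos (some (i + 1))).2 - (pos (some i)).2) := by linarith
        simp only [dt]
        rw [e1, e2]
        ring
      linarith
    · have := hstrict i j (Ne.symm hne) hj
      linarith
  · have hsum : ∑ i, (|(pos (some (i + 1)) - pos (some i)).1| +
        |(pos (some (i + 1)) - pos (some i)).2|) =
        ∑ i, max (X (i + 1) - X i) 0 + ∑ i, max ((L - X (i + 1)) - (L - X i)) 0 +
        ∑ i, max (Y (i + 1) - Y i) 0 + ∑ i, max ((L - Y (i + 1)) - (L - Y i)) 0 := by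
      rw [← Finset.sum_add_distrib, ← Finset.sum_add_distrib, ← Finset.sum_add_distrib]
      apply Finset.sum_congr rfl
      intro i _
      have habs : ∀ a : ℤ, |a| = max a 0 + max (-a) 0 := by
        intro a
        rcases abs_cases a with ⟨h1, h2⟩ | ⟨h1, h2⟩ <;> rw [h1] <;> omega
      simp only [Prod.fst_sub, Prod.snd_sub, hX, hY]
      rw [habs, habs]
      have e1 : (L : ℤ) - (pos (some (i + 1))).1 - (L - (pos (some i)).1) =
        -((pos (some (i + 1))).1 - (pos (some i)).1) := by ring
      have e2 : (L : ℤ) - (pos (some (i + 1))).2 - (L - (pos (some i)).2) =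
        -((pos (some (i + 1))).2 - (pos (some i)).2) := by ring
      rw [e1, e2]
      ring
    rw [hsum]
    linarith

end P8ffccf

end
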