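import Pool.Agent.Lib.P8ffccf.Wheel

/-! # The wheel is planar and 3-connected -/

noncomputable section

namespace P8ffccf

open Classical Finset

namespace LW

variable {N : ℕ} [NeZero N]

lemma one_ne (hN : 3 ≤ N) : (1 : ZMod N) ≠ 0 := by
  have : Fact (1 < N) := ⟨by omega⟩
  exact one_ne_zero

lemma two_ne (hN : 3 ≤ N) : (2 : ZMod N) ≠ 0 := by
  intro h
  have h1 : ((2 : ℕ) : ZMod N) = 0 := by exact_mod_cast h
  rw [ZMod.natCast_eq_zero_iff] at h1
  have := Nat.le_of_dvd (by norm_num) h1
  omega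

lemma adj_hub (i : ZMod N) : (wheel N).Adj none (some i) := ⟨by simp, Or.inl rfl⟩

lemma adj_rim (hN : 3 ≤ N) (i : ZMod N) : (wheel N).Adj (some i) (some (i + 1)) := by
  refine ⟨?_, Or.inr (Or.inr ⟨i, Or.inl ⟨rfl, rfl⟩⟩)⟩
  intro h
  have h1 := Option.some_injective _ h
  have : (1 : ZMod N) = 0 := by
    have := left_eq_add.mp h1
    exact this
  exact one_ne hN this

/-- the darts of the wheel -/
def dt (hN : 3 ≤ N) : ZMod N × Fin 4 → (wheel N).Dart
  | (i, 0) => ⟨(none, some i), adj_hub i⟩
  | (i, 1) => ⟨(some i, none), (adj_hub i).symm⟩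
  | (i, 2) => ⟨(some i, some (i + 1)), adj_rim hN i⟩
  | (i, 3) => ⟨(some (i + 1), some i), (adj_rim hN i).symm⟩

lemma dt_inj (hN : 3 ≤ N) : Function.Injective (dt hN) := by
  rintro ⟨i, a⟩ ⟨j, b⟩ h
  have h2 := two_ne hN
  have h3 : ∀ i j : ZMod N, i = j + 1 → i + 1 = j → False := by
    intro i j h1 h4
    apply h2
    have : (2 : ZMod N) = (i + 1) - j + ((j + 1) - i) := by ring
    rw [this, h4, ← h1]; ring
  fin_cases a <;> fin_cases b <;>
    simp [dt, SimpleGraph.Dart.ext_iff] at h ⊢ <;>
    first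
      | exact h
      | exact h.1
      | exact h.2
      | exact (h3 _ _ h.1 h.2).elim
      | exact (h3 _ _ h.1.symm h.2.symm).elim

lemma dt_surj (hN : 3 ≤ N) : Function.Surjective (dt hN) := by
  rintro ⟨⟨u, v⟩, h⟩
  obtain ⟨hne, h⟩ := h
  rcases u with _ | i
  · rcases v with _ | j
    · exact absurd rfl hne
    · exact ⟨(j, 0), rfl⟩
  · rcases v with _ | j
    · exact ⟨(i, 1), rfl⟩
    · rcases h with h | h | ⟨k, ⟨h1, h2⟩ | ⟨h1, h2⟩⟩
      · simp at h
      · simp at h
      · obtain rfl := Option.some_injective _ h1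
        obtain rfl := Option.some_injective _ h2
        exact ⟨(i, 2), rfl⟩
      · obtain rfl := Option.some_injective _ h1
        obtain rfl := Option.some_injective _ h2
        exact ⟨(j, 3), rfl⟩

/-- codes of darts -/
def de (hN : 3 ≤ N) : ZMod N × Fin 4 ≃ (wheel N).Dart :=
  Equiv.ofBijective (dt hN) ⟨dt_inj hN, dt_surj hN⟩

/-- the face permutation on codes -/
def nx : ZMod N × Fin 4 → ZMod N × Fin 4
  | (i, 0) => (i, 2)
  | (i, 1) => (i - 1, 0)
  | (i, 2) => (i + 1, 1)
  | (i, 3) => (i - 1, 3)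

/-- its inverse -/
def pv : ZMod N × Fin 4 → ZMod N × Fin 4
  | (i, 0) => (i + 1, 1)
  | (i, 1) => (i - 1, 2)
  | (i, 2) => (i, 0)
  | (i, 3) => (i + 1, 3)

/-- the face permutation on codes -/
def nxP : Equiv.Perm (ZMod N × Fin 4) where
  toFun := nx
  invFun := pv
  left_inv := by
    rintro ⟨i, a⟩
    fin_cases a <;> simp [nx, pv]
  right_inv := by
    rintro ⟨i, a⟩
    fin_cases a <;> simp [nx, pv]

/-- reversal on codes -/
def rv : ZMod N × Fin 4 → ZMod N × Fin 4
  | (i, 0) => (i, 1)
  | (i, 1) => (i, 0)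
  | (i, 2) => (i, 3)
  | (i, 3) => (i, 2)

lemma dt_rv (hN : 3 ≤ N) (c : ZMod N × Fin 4) : dt hN (rv c) = (dt hN c).symm := by
  obtain ⟨i, a⟩ := c
  fin_cases a <;> rfl

/-- the face permutation -/
def nxt (hN : 3 ≤ N) : Equiv.Perm (wheel N).Dart := (de hN).permCongr nxP

lemma nxt_dt (hN : 3 ≤ N) (c : ZMod N × Fin 4) : nxt hN (dt hN c) = dt hN (nx c) := by
  have : dt hN c = de hN c := rfl
  rw [nxt, Equiv.permCongr_apply, this, Equiv.symm_apply_apply]
  rfl

lemma rot_dt (hN : 3 ≤ N) (c : ZMod N × Fin 4) :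
    dartRot (nxt hN) (dt hN c) = dt hN (nx (rv c)) := by
  change nxt hN ((dt hN c).symm) = _
  rw [← dt_rv, nxt_dt]

lemma sameCycle_next {α : Type*} (g : Equiv.Perm α) (x : α) : g.SameCycle x (g x) :=
  ⟨1, by simp⟩

lemma hub_cycle (hN : 3 ≤ N) (i : ZMod N) (k : ℕ) :
    (dartRot (nxt hN)).SameCycle (dt hN (i, 0)) (dt hN (i - k, 0)) := by
  induction k with
  | zero => simp [Equiv.Perm.SameCycle.refl]
  | succ k ih =>
    refine ih.trans ?_
    have h := sameCycle_next (dartRot (nxt hN)) (dt hN (i - k, 0))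
    rw [rot_dt] at h
    have e : nx (rv ((i - k, 0) : ZMod N × Fin 4)) = (i - ((k + 1 : ℕ) : ZMod N), 0) := by
      simp [nx, rv]; ring
    rwa [e] at h

lemma rim_cycle1 (hN : 3 ≤ N) (i : ZMod N) :
    (dartRot (nxt hN)).SameCycle (dt hN (i, 1)) (dt hN (i, 2)) := by
  have h := sameCycle_next (dartRot (nxt hN)) (dt hN (i, 1))
  rw [rot_dt] at h
  exact h

lemma rim_cycle2 (hN : 3 ≤ N) (i : ZMod N) :
    (dartRot (nxt hN)).SameCycle (dt hN (i, 2)) (dt hN (i - 1, 3)) := by
  have h := sameCycle_next (dartRot (nxt hN)) (dt hN (i, 2))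
  rw [rot_dt] at h
  exact h

lemma rim_cycle (hN : 3 ≤ N) (i : ZMod N) (d : (wheel N).Dart) (hd : d.fst = some i) :
    (dartRot (nxt hN)).SameCycle (dt hN (i, 1)) d := by
  obtain ⟨⟨j, a⟩, rfl⟩ := dt_surj hN d
  fin_cases a
  · simp [dt] at hd
  · have h1 : j = i := by simpa [dt] using hd
    subst h1
    exact Equiv.Perm.SameCycle.refl _ _
  · have h1 : j = i := by simpa [dt] using hd
    subst h1
    exact rim_cycle1 hN j
  · have h1 : j + 1 = i := by simpa [dt] using hd
    subst h1
    have := (rim_cycle1 hN (j + 1)).trans (rim_cycle2 hN (j + 1))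
    simpa using this

/-- name of the face -/
def fn : ZMod N × Fin 4 → Option (ZMod N)
  | (i, 0) => some i
  | (i, 1) => some (i - 1)
  | (i, 2) => some i
  | (_, 3) => none

lemma fn_nx (c : ZMod N × Fin 4) : fn (nx c) = fn c := by
  obtain ⟨i, a⟩ := c
  fin_cases a <;> simp [fn, nx]

lemma outer_cycle (hN : 3 ≤ N) (i : ZMod N) (k : ℕ) :
    (nxt hN).SameCycle (dt hN (i, 3)) (dt hN (i - k, 3)) := by
  induction k with
  | zero => simp [Equiv.Perm.SameCycle.refl]
  | succ k ih =>
    refine ih.trans ?_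
    have h := sameCycle_next (nxt hN) (dt hN (i - k, 3))
    rw [nxt_dt] at h
    have e : nx ((i - k, 3) : ZMod N × Fin 4) = (i - ((k + 1 : ℕ) : ZMod N), 3) := by
      simp [nx]; ring
    rwa [e] at h

lemma tri_cycle (hN : 3 ≤ N) (i : ZMod N) (c : ZMod N × Fin 4) (hc : fn c = some i) :
    (nxt hN).SameCycle (dt hN (i, 0)) (dt hN c) := by
  have h1 : (nxt hN).SameCycle (dt hN (i, 0)) (dt hN (i, 2)) := by
    have h := sameCycle_next (nxt hN) (dt hN (i, 0))
    rw [nxt_dt] at h
    exact h
  have h2 : (nxt hN).SameCycle (dt hN (i, 2)) (dt hN (i + 1, 1)) := by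
    have h := sameCycle_next (nxt hN) (dt hN (i, 2))
    rw [nxt_dt] at h
    exact h
  obtain ⟨j, a⟩ := c
  fin_cases a
  · have h3 : j = i := by simpa [fn] using hc
    subst h3
    exact Equiv.Perm.SameCycle.refl _ _
  · have h3 : j - 1 = i := by simpa [fn] using hc
    have h4 : j = i + 1 := by rw [← h3]; ring
    subst h4
    exact h1.trans h2
  · have h3 : j = i := by simpa [fn] using hc
    subst h3
    exact h1
  · simp [fn] at hc

/-- name of the face of a dart -/
def fd (hN : 3 ≤ N) (d : (wheel N).Dart) : Option (ZMod N) := fn ((de hN).symm d)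

lemma fd_dt (hN : 3 ≤ N) (c : ZMod N × Fin 4) : fd hN (dt hN c) = fn c := by
  have : dt hN c = de hN c := rfl
  rw [fd, this, Equiv.symm_apply_apply]

lemma fd_nxt (hN : 3 ≤ N) (d : (wheel N).Dart) : fd hN (nxt hN d) = fd hN d := by
  obtain ⟨c, rfl⟩ := dt_surj hN d
  rw [nxt_dt, fd_dt, fd_dt, fn_nx]

lemma fd_zpow (hN : 3 ≤ N) (k : ℤ) (d : (wheel N).Dart) :
    fd hN ((nxt hN ^ k) d) = fd hN d := by
  have hn : ∀ (n : ℕ) (d : (wheel N).Dart), fd hN ((nxt hN ^ n) d) = fd hN d := by
    intro n
    induction n with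
    | zero => intro d; rfl
    | succ n ih => intro d; rw [pow_succ, Equiv.Perm.mul_apply, ih, fd_nxt]
  obtain ⟨n, rfl | rfl⟩ := k.eq_nat_or_neg
  · rw [zpow_natCast]; exact hn n d
  · rw [zpow_neg, zpow_natCast]
    have h := hn n ((nxt hN ^ n)⁻¹ d)
    have e : (nxt hN ^ n) ((nxt hN ^ n)⁻¹ d) = d := by
      rw [← Equiv.Perm.mul_apply, mul_inv_cancel, Equiv.Perm.one_apply]
    rw [e] at h
    exact h.symm

lemma sameCycle_iff (hN : 3 ≤ N) (d d' : (wheel N).Dart) :
    (nxt hN).SameCycle d d' ↔ fd hN d = fd hN d' := by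
  constructor
  · rintro ⟨k, rfl⟩
    rw [fd_zpow]
  · intro h
    obtain ⟨c, rfl⟩ := dt_surj hN d
    obtain ⟨c', rfl⟩ := dt_surj hN d'
    rw [fd_dt, fd_dt] at h
    rcases hf : fn c with _ | i
    · have h3 : ∀ c : ZMod N × Fin 4, fn c = none → ∃ i, c = (i, 3) := by
        rintro ⟨i, a⟩ h
        fin_cases a
        · simp [fn] at h
        · simp [fn] at h
        · simp [fn] at h
        · exact ⟨i, rfl⟩
      obtain ⟨i, rfl⟩ := h3 c hf
      obtain ⟨j, rfl⟩ := h3 c' (h.symm.trans hf)
      have h4 := outer_cycle hN i (i - j).val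
      rw [ZMod.natCast_val, ZMod.cast_id', id] at h4
      simpa using h4
    · exact (tri_cycle hN i c hf).symm.trans (tri_cycle hN i c' (h.symm.trans hf))

end LW

open LW

theorem wheel_planar (N : ℕ) [NeZero N] (hN : 3 ≤ N) : IsPlanarMap (wheel N) := by
  refine ⟨nxt hN, ?_, ?_, ?_⟩
  · intro d
    obtain ⟨⟨i, a⟩, rfl⟩ := dt_surj hN d
    rw [nxt_dt]
    fin_cases a <;> simp [dt, nx]
  · intro d d' h
    rcases hf : d.fst with _ | i
    · have h3 : ∀ d : (wheel N).Dart, d.fst = none → ∃ i, d = dt hN (i, 0) := by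
        intro d hd
        obtain ⟨⟨i, a⟩, rfl⟩ := dt_surj hN d
        fin_cases a
        · exact ⟨i, rfl⟩
        · simp [dt] at hd
        · simp [dt] at hd
        · simp [dt] at hd
      obtain ⟨i, rfl⟩ := h3 d hf
      obtain ⟨j, rfl⟩ := h3 d' (h.symm.trans hf)
      have h4 := hub_cycle hN i (i - j).val
      rw [ZMod.natCast_val, ZMod.cast_id', id] at h4
      simpa using h4
    · exact (rim_cycle hN i d hf).symm.trans (rim_cycle hN i d' (h.symm.trans hf))
  · have hq : Nat.card (Quotient (Equiv.Perm.SameCycle.setoid (nxt hN))) = N + 1 := by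
      let F : Quotient (Equiv.Perm.SameCycle.setoid (nxt hN)) → Option (ZMod N) :=
        Quotient.lift (fd hN) (fun a b h => (sameCycle_iff hN a b).mp h)
      have hF : Function.Bijective F := by
        constructor
        · intro x y
          induction x using Quotient.inductionOn with
          | h x =>
          induction y using Quotient.inductionOn with
          | h y =>
          intro h
          exact Quotient.sound ((sameCycle_iff hN x y).mpr h)
        · intro o
          rcases o with _ | i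
          · exact ⟨Quotient.mk _ (dt hN (0, 3)), fd_dt hN _⟩
          · exact ⟨Quotient.mk _ (dt hN (i, 0)), fd_dt hN _⟩
      rw [Nat.card_eq_of_bijective F hF, Nat.card_eq_fintype_card, Fintype.card_option,
        ZMod.card]
    have he : Nat.card (wheel N).edgeSet = 2 * N := by
      have h1 : Fintype.card (wheel N).Dart = 4 * N := by
        rw [← Fintype.card_congr (de hN), Fintype.card_prod, ZMod.card, Fintype.card_fin]
        ring
      have h2 := SimpleGraph.dart_card_eq_twice_card_edges (G := wheel N)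
      have h3 : Nat.card (wheel N).edgeSet = (wheel N).edgeFinset.card := by
        rw [Nat.card_eq_fintype_card, SimpleGraph.edgeFinset_card]
      rw [h3]
      have h4 : Fintype.card (wheel N).Dart = 2 * (wheel N).edgeFinset.card := by
        convert h2
      omega
    rw [hq, he, Fintype.card_option, ZMod.card]
    ring

theorem wheel_three (N : ℕ) [NeZero N] (hN : 3 ≤ N) : IsThreeConn (wheel N) := by
  refine ⟨?_, ?_⟩
  · rw [Fintype.card_option, ZMod.card]; omega
  intro S hS
  by_cases hhub : (none : Option (ZMod N)) ∈ S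
  · -- the hub is removed
    obtain ⟨j, hj⟩ : ∃ j : ZMod N, S ⊆ {none, some j} := by
      have h1 : (S.erase none).card ≤ 1 := by
        rw [Finset.card_erase_of_mem hhub]; omega
      rw [Finset.card_le_one_iff_subset_singleton] at h1
      obtain ⟨x, hx⟩ := h1
      rcases x with _ | j
      · refine ⟨0, fun y hy => ?_⟩
        by_cases h : y = none
        · simp [h]
        · have := hx (Finset.mem_erase.mpr ⟨h, hy⟩)
          simp at this
          exact absurd this h
      · refine ⟨j, fun y hy => ?_⟩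
        by_cases h : y = none
        · simp [h]
        · have := hx (Finset.mem_erase.mpr ⟨h, hy⟩)
          simp at this
          simp [this]
    have hmem : ∀ i : ZMod N, i ≠ j → (some i : Option (ZMod N)) ∈ ((S : Set (Option (ZMod N)))ᶜ) := by
      intro i hi h
      have := hj h
      simp at this
      exact hi this
    have hbase : (some (j + 1) : Option (ZMod N)) ∈ ((S : Set (Option (ZMod N)))ᶜ) := by
      apply hmem
      intro h
      exact one_ne hN (add_eq_left.mp h)
    have key : ∀ k : ℕ, k < N → ∀ hk : (some (j + 1 + k) : Option (ZMod N)) ∈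
        ((S : Set (Option (ZMod N)))ᶜ),
        ((wheel N).induce ((S : Set (Option (ZMod N)))ᶜ)).Reachable ⟨_, hbase⟩ ⟨_, hk⟩ := by
      intro k
      induction k with
      | zero =>
        intro _ hk
        have e : (⟨some (j + 1), hbase⟩ : ((S : Set (Option (ZMod N)))ᶜ : Set _)) =
            ⟨some (j + 1 + (0 : ℕ)), hk⟩ := by
          apply Subtype.ext
          simp
        rw [e]
      | succ k ih =>
        intro hkN hk
        have h1 : j + 1 + (k : ZMod N) ≠ j := by
          intro h
          have h2 : ((k + 1 : ℕ) : ZMod N) = 0 := by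
            push_cast
            have : (k : ZMod N) + 1 = j + 1 + (k : ZMod N) - j := by ring
            rw [this, h, sub_self]
          rw [ZMod.natCast_eq_zero_iff] at h2
          have := Nat.le_of_dvd (by omega) h2
          omega
        have h2 := ih (by omega) (hmem _ h1)
        refine h2.trans ?_
        apply SimpleGraph.Adj.reachable
        change (wheel N).Adj (some (j + 1 + k)) (some (j + 1 + ((k + 1 : ℕ) : ZMod N)))
        have e : j + 1 + ((k + 1 : ℕ) : ZMod N) = j + 1 + k + 1 := by push_cast; ring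
        rw [e]
        exact adj_rim hN _
    rw [SimpleGraph.connected_iff_exists_forall_reachable]
    refine ⟨⟨_, hbase⟩, ?_⟩
    rintro ⟨v, hv⟩
    rcases v with _ | i
    · exact absurd hhub hv
    · have h3 : j + 1 + ((i - j - 1).val : ZMod N) = i := by
        rw [ZMod.natCast_val, ZMod.cast_id', id]; ring
      have h4 : (some (j + 1 + ((i - j - 1).val : ZMod N)) : Option (ZMod N)) ∈
        ((S : Set (Option (ZMod N)))ᶜ) := by rw [h3]; exact hv
      have h5 := key (i - j - 1).val (ZMod.val_lt _) h4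
      have e : (⟨some i, hv⟩ : ((S : Set (Option (ZMod N)))ᶜ : Set _)) = ⟨_, h4⟩ := by
        apply Subtype.ext
        simp only [h3]
      rw [e]
      exact h5
  · rw [SimpleGraph.connected_iff_exists_forall_reachable]
    refine ⟨⟨none, hhub⟩, ?_⟩
    rintro ⟨v, hv⟩
    rcases v with _ | i
    · exact SimpleGraph.Reachable.refl _
    · apply SimpleGraph.Adj.reachable
      exact adj_hub i

end P8ffccf

end
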