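import Pool.Agent.Lib.P8ffccf.Asm2
import Pool.Agent.Lib.P8ffccf.Acyclic
import Pool.Agent.Lib.P8ffccf.Graph

/-! # The upper bound for the grid size -/

set_option linter.unusedSimpArgs false
set_option linter.unusedVariables false
set_option linter.unusedSectionVars false
set_option linter.style.longLine false

noncomputable section

namespace P8ffccf

open Classical Finset

variable {V F D : Type} [Fintype V] [Fintype F] [Fintype D]

namespace Dat

variable {M : PMap V F D} {o : F} (S : Dat M o)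

lemma vec_abs (k : ZMod 3) {x m : ℝ} (hx : 0 ≤ x) (hm : |m| ≤ 1 / 1000) :
    |(vec k x m).1| ≤ 1.002 * x ∧ |(vec k x m).2| ≤ 1.002 * x := by
  have h1 : k = 0 ∨ k = 1 ∨ k = 2 := by
    revert k; decide
  rw [abs_le] at hm
  obtain ⟨hm1, hm2⟩ := hm
  have p1 := mul_le_mul_of_nonneg_left hm2 hx
  have p2 := mul_le_mul_of_nonneg_left hm1 hx
  rcases h1 with rfl | rfl | rfl
  · have e : vec 0 x m = (x * (1 + m), x * (2 * m)) := by
      unfold vec
      rw [Sys.Dz0, Sys.Ez0]
      simp only [rl, Prod.smul_mk, Prod.mk_add_mk, smul_eq_mul]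
      push_cast
      ext <;> ring
    rw [e]
    simp only [abs_le]
    refine ⟨⟨?_, ?_⟩, ⟨?_, ?_⟩⟩ <;> nlinarith
  · have e : vec 1 x m = (x * (-2 * m), x * (1 - m)) := by
      unfold vec
      rw [Sys.Dz1, Sys.Ez1]
      simp only [rl, Prod.smul_mk, Prod.mk_add_mk, smul_eq_mul]
      push_cast
      ext <;> ring
    rw [e]
    simp only [abs_le]
    refine ⟨⟨?_, ?_⟩, ⟨?_, ?_⟩⟩ <;> nlinarith
  · have e : vec 2 x m = (x * (-1 + m), x * (-1 - m)) := by
      unfold vec
      rw [Sys.Dz2, Sys.Ez2]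
      simp only [rl, Prod.smul_mk, Prod.mk_add_mk, smul_eq_mul]
      push_cast
      ext <;> ring
    rw [e]
    simp only [abs_le]
    refine ⟨⟨?_, ?_⟩, ⟨?_, ?_⟩⟩ <;> nlinarith

/-- The drawing of a map with the numerical data `S`. -/
theorem exists_convex {Ca : ℝ} {m : ZMod 3 → F → ℝ} (hm : S.Slopes Ca m) (hg : S.Good Ca) :
    ∃ Y : V → ℤ × ℤ, ConvexMap M o (fun v => rl (Y v)) ∧
      ∀ d d', M.fc d = o → M.fc d' = o →
        |(Y (M.vt d)).1 - (Y (M.vt d')).1| ≤ ((170000 * S.CQ * S.K2 * S.q ^ 36 : ℕ) : ℤ) ∧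
        |(Y (M.vt d)).2 - (Y (M.vt d')).2| ≤ ((170000 * S.CQ * S.K2 * S.q ^ 36 : ℕ) : ℤ) := by
  obtain ⟨Lam, Y, hF, hW, hG, hLam⟩ := S.exists_Y hm hg
  have hR := S.R_pos
  have hb := S.base_pos
  have hN : 100 * S.R ≤ (9 / 10) * S.base := by
    have := S.R_base 4000000 (by linarith [hg.p3])
    linarith
  have hδ : 8 * S.R ≤ (1 / 10000) * ((9 / 10) * S.base) := by
    have := S.R_base 4000000 (by linarith [hg.p3])
    linarith
  refine ⟨Y, ⟨?_, ?_⟩, ?_⟩
  · exact PMap.Lab.inner_convex S.H S.L m Lam _ S.R hR hN hF Y hW hG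
  · exact PMap.Lab.outer_convex S.H S.L m Lam _ S.R (1 / 10000) hR hN hF hδ hm.out Y hW
  · -- distances on the outer face
    set W := 3.0061 * ∑ g, S.N0 g with hWd
    have hbase : S.base ≤ ∑ g, S.N0 g := by
      refine (S.base_le_N0 o).trans ?_
      exact Finset.single_le_sum (f := S.N0) (fun x _ => (S.N0_pos x).le) (Finset.mem_univ o)
    have hRW : 3.006 * ∑ g, S.N0 g + S.R ≤ W := by
      have := S.R_base 4000000 (by linarith [hg.p3])
      rw [hWd]
      linarith
    have step : ∀ x, M.fc x = o →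
        |((Y (M.vt (M.nxt x))).1 : ℝ) - (Y (M.vt x)).1| ≤ W ∧
        |((Y (M.vt (M.nxt x))).2 : ℝ) - (Y (M.vt x)).2| ≤ W := by
      intro x hx
      have h1 := hW x
      have h2 : S.L.pv m Lam x = 0 := by
        unfold PMap.Lab.pv
        rw [if_neg]
        exact fun h => h.1 hx
      have h3 : |(S.L.om m Lam x).1| ≤ 3.006 * ∑ g, S.N0 g ∧
          |(S.L.om m Lam x).2| ≤ 3.006 * ∑ g, S.N0 g := by
        have hs : 0 ≤ ∑ g, S.N0 g := hb.le.trans hbase
        unfold PMap.Lab.om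
        rw [h2, sub_zero]
        unfold PMap.Lab.pv
        split_ifs with h
        · obtain ⟨a1, a2⟩ := vec_abs (S.L.l (M.rev x) + 2) (hF.nonneg (S.L.l (M.rev x) + 2)
            (M.fc (M.rev x))) (hF.small (S.L.l (M.rev x) + 2) (M.fc (M.rev x)))
          have := hLam _ h.1 (S.L.l (M.rev x) + 2)
          constructor
          · refine a1.trans ?_
            linarith
          · refine a2.trans ?_
            linarith
        · simp only [Prod.fst_zero, Prod.snd_zero, abs_zero]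
          constructor <;> positivity
      rw [M.vt_nxt]
      simp only [nm, PMap.ev, rl, Prod.fst_sub, Prod.snd_sub] at h1
      obtain ⟨h4, h5⟩ := h3
      have n1 := abs_nonneg (((Y (M.vt (M.rev x))).1 : ℝ) - (Y (M.vt x)).1 - (S.L.om m Lam x).1)
      have n2 := abs_nonneg (((Y (M.vt (M.rev x))).2 : ℝ) - (Y (M.vt x)).2 - (S.L.om m Lam x).2)
      have m1 : |((Y (M.vt (M.rev x))).1 : ℝ) - (Y (M.vt x)).1 - (S.L.om m Lam x).1| ≤ S.R := by
        linarith
      have m2 : |((Y (M.vt (M.rev x))).2 : ℝ) - (Y (M.vt x)).2 - (S.L.om m Lam x).2| ≤ S.R := by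
        linarith
      rw [abs_le] at h4 h5 m1 m2
      constructor
      · rw [abs_le]; constructor <;> linarith [h4.1, h4.2, m1.1, m1.2]
      · rw [abs_le]; constructor <;> linarith [h5.1, h5.2, m2.1, m2.2]
    have hW0 : 0 ≤ W := by linarith
    have steps : ∀ i : ℕ, ∀ x, M.fc x = o →
        |((Y (M.vt (M.nxt^[i] x))).1 : ℝ) - (Y (M.vt x)).1| ≤ i * W ∧
        |((Y (M.vt (M.nxt^[i] x))).2 : ℝ) - (Y (M.vt x)).2| ≤ i * W := by
      intro i
      induction i with
      | zero => intro x hx; simp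
      | succ i ih =>
        intro x hx
        have hfx : M.fc (M.nxt^[i] x) = o := by
          clear ih
          induction i with
          | zero => exact hx
          | succ i ih => rw [Function.iterate_succ_apply', M.fc_nxt]; exact ih
        obtain ⟨a1, a2⟩ := ih x hx
        obtain ⟨b1, b2⟩ := step _ hfx
        rw [Function.iterate_succ_apply']
        push_cast
        rw [abs_le] at a1 a2 b1 b2
        constructor
        · rw [abs_le]; constructor <;> linarith [a1.1, a1.2, b1.1, b1.2]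
        · rw [abs_le]; constructor <;> linarith [a2.1, a2.2, b2.1, b2.2]
    -- every dart of the outer face is reached in at most five steps
    have reach : ∀ x y, M.fc x = o → M.fc y = o → ∃ i : ℕ, i ≤ 5 ∧ M.nxt^[i] x = y := by
      intro x y hx hy
      obtain ⟨k, hk⟩ := M.fc_trans x y (hx.trans hy.symm)
      have hper : 0 < Function.minimalPeriod M.nxt x := by
        apply Function.minimalPeriod_pos_of_mem_periodicPts
        exact Function.Injective.mem_periodicPts M.nxt.injective x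
      refine ⟨k % Function.minimalPeriod M.nxt x, ?_, by rw [Function.iterate_mod_minimalPeriod_eq]; exact hk⟩
      have h1 : Function.minimalPeriod M.nxt x ≤ M.dg o := by
        unfold PMap.dg
        rw [← Finset.card_range (Function.minimalPeriod M.nxt x)]
        apply Finset.card_le_card_of_injOn (fun i => M.nxt^[i] x)
        · intro i _
          simp only [Finset.coe_filter, Finset.mem_univ, true_and, Set.mem_ofPred_eq]
          clear hk
          induction i with
          | zero => exact hx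
          | succ i ih =>
            rw [Function.iterate_succ_apply', M.fc_nxt]
            apply ih
            rename_i h
            rw [Finset.coe_range, Set.mem_Iio] at h ⊢
            omega
        · intro i hi j hj hij
          rw [Finset.coe_range, Set.mem_Iio] at hi hj
          exact Function.iterate_injOn_Iio_minimalPeriod hi hj hij
      have h2 := Nat.mod_lt k hper
      have h3 := hg.dgo
      omega
    have hsum := S.sum_N0
    have hfin : 5 * W ≤ 170000 * (S.CQ : ℝ) * S.K2 * (S.q : ℝ) ^ 36 := by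
      have hpos : 0 < (S.CQ : ℝ) * S.K2 * (S.q : ℝ) ^ 36 := by
        have := S.CQ_pos
        have := S.K2_pos
        have := S.q_pos
        positivity
      rw [hWd]
      nlinarith
    intro d d' hd hd'
    obtain ⟨i, hi, hid⟩ := reach d' d hd' hd
    obtain ⟨a1, a2⟩ := steps i d' hd'
    rw [hid] at a1 a2
    have hi5 : (i : ℝ) * W ≤ 5 * W := mul_le_mul_of_nonneg_right (by exact_mod_cast hi) hW0
    have b1 := a1.trans (hi5.trans hfin)
    have b2 := a2.trans (hi5.trans hfin)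
    constructor
    · exact_mod_cast b1
    · exact_mod_cast b2

end Dat

lemma num_aux {a x b : ℝ} (hb : 0 < b) (ha : 0 < a) (h : b * 240000 * a + 1 ≤ x) :
    a * (b / x ^ 2) ≤ 1 / 240000 := by
  have h0 : 0 < b * 240000 * a := by positivity
  have hx : 1 ≤ x := by linarith
  have hx2 : x ≤ x ^ 2 := by
    rw [sq]
    exact le_mul_of_one_le_left (by linarith) hx
  rw [← mul_div_assoc, div_le_div_iff₀ (by positivity) (by norm_num)]
  have e : a * b * 240000 = b * 240000 * a := by ring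
  rw [e]
  linarith

/-- The drawing of a 3-connected planar map. -/
theorem exists_drawing_map : ∃ (C : ℝ), 0 < C ∧ ∀ {V F D : Type} [Fintype V] [Fintype F] [Fintype D]
    (M : PMap V F D) (H : M.Three), ∃ (o : F) (Y : V → ℤ × ℤ) (B : ℕ),
      ConvexMap M o (fun v => rl (Y v)) ∧
      (∀ d d', M.fc d = o → M.fc d' = o → |(Y (M.vt d)).1 - (Y (M.vt d')).1| ≤ B ∧
        |(Y (M.vt d)).2 - (Y (M.vt d')).2| ≤ B) ∧
      (B : ℝ) ≤ C * (Fintype.card V : ℝ) ^ (3 / 2 : ℝ) := by
  obtain ⟨Ca, hCa, hslopes⟩ := Dat.exists_slopes'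
  obtain ⟨CQ, hCQ⟩ := exists_nat_ge (960000 * Ca + 1)
  obtain ⟨K2, hK2⟩ := exists_nat_ge (1728000000 * Ca + 1152000000)
  obtain ⟨t0, ht0⟩ := exists_nat_ge (720000 * Ca + 1)
  have hCQ1 : 1 ≤ CQ := by
    have : (1 : ℝ) ≤ CQ := by linarith
    exact_mod_cast this
  have hK21 : 1 ≤ K2 := by
    have : (1 : ℝ) ≤ K2 := by linarith
    exact_mod_cast this
  have ht01 : 1 ≤ t0 := by
    have : (1 : ℝ) ≤ t0 := by linarith
    exact_mod_cast this
  refine ⟨170000 * CQ * K2 * 2 ^ (36 * (t0 + 1)), by positivity, ?_⟩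
  intro V F D _ _ _ M H
  obtain ⟨o, ho⟩ := H.exists_small_face
  obtain ⟨L⟩ := H.exists_lab o
  have hac := fun k f => PMap.Lab.acyclic H L k f
  have hown : ∀ v, ∃ f, (∃ d, M.vt d = v ∧ M.fc d = f) ∧
      ∀ d, M.vt d = v → M.dg (M.fc d) ≤ M.dg f := by
    intro v
    obtain ⟨d0, hd0⟩ := M.vt_surj v
    obtain ⟨d1, hd1, hmax⟩ := Finset.exists_max_image (univ.filter fun d => M.vt d = v)
      (fun d => M.dg (M.fc d)) ⟨d0, by simp [hd0]⟩
    simp only [Finset.mem_filter, Finset.mem_univ, true_and] at hd1 hmax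
    exact ⟨M.fc d1, ⟨d1, hd1, rfl⟩, hmax⟩
  choose own hown1 hown2 using hown
  have hheavy : ∀ k, ∃ h : F → F, (⟨L.par k, o, L.par_o k, hac k⟩ : Forest F).IsHeavy h :=
    fun k => Forest.exists_heavy _
  choose hv hhv using hheavy
  set n := Fintype.card V with hn
  set s := Nat.log 2 n / 24 with hs
  have hF := H.card_F_le
  have hn0 : n ≠ 0 := by
    have := H.card
    omega
  have hlog : n < 2 ^ (24 * (s + 1)) := by
    refine (Nat.lt_pow_succ_log_self (b := 2) (by norm_num) n).trans_le ?_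
    apply Nat.pow_le_pow_right (by norm_num)
    omega
  have hlog2 : 2 ^ (24 * s) ≤ n := by
    refine le_trans ?_ (Nat.pow_log_le_self 2 hn0)
    apply Nat.pow_le_pow_right (by norm_num)
    omega
  have hJ : Fintype.card F ≤ 2 ^ (24 * (s + 1 + t0)) := by
    rw [mul_add, pow_add]
    have h1 : 2 ≤ 2 ^ (24 * t0) := by
      calc 2 = 2 ^ 1 := rfl
        _ ≤ 2 ^ (24 * t0) := Nat.pow_le_pow_right (by norm_num) (by omega)
    calc Fintype.card F ≤ 2 * n := by omega
      _ ≤ 2 ^ (24 * (s + 1)) * 2 := by omega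
      _ ≤ _ := Nat.mul_le_mul_left _ h1
  obtain ⟨S, hSt, hSCQ, hSK2⟩ : ∃ S : Dat M o, S.t = s + 1 + t0 ∧ S.CQ = CQ ∧ S.K2 = K2 :=
    ⟨{ H := H, L := L, ac := hac, own := own
       hown := fun v => hown1 v
       hmax := fun d => hown2 _ d rfl
       hv := hv, heavy := hhv, t := s + 1 + t0, CQ := CQ, K2 := K2, hCQ := hCQ1, hK2 := hK21
       hJ := hJ }, rfl, rfl, rfl⟩
  have hq : (S.q : ℝ) = 2 ^ (s + 1 + t0) := by
    unfold Dat.q
    rw [hSt]
    push_cast
    rfl
  have hqt : (t0 : ℝ) ≤ S.q := by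
    rw [hq]
    have h1 : t0 ≤ 2 ^ (s + 1 + t0) := by
      calc t0 ≤ 2 ^ t0 := Nat.lt_two_pow_self.le
        _ ≤ _ := Nat.pow_le_pow_right (by norm_num) (by omega)
    exact_mod_cast h1
  have hK2pos : (0 : ℝ) < K2 := by exact_mod_cast hK21
  have hCQpos : (0 : ℝ) < CQ := by exact_mod_cast hCQ1
  have hgood : S.Good Ca := by
    refine ⟨hCa, ho, ?_, ?_, ?_⟩
    · unfold Dat.eps
      rw [hSK2]
      rw [← mul_div_assoc, div_le_div_iff₀ hK2pos (by norm_num)]
      linarith only [hK2, hCa]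
    · unfold Dat.eps
      rw [hSK2, hSCQ]
      have hqp := S.q_pos
      have hq1 := S.q_one
      have a1 : Ca * (4 / (CQ : ℝ) ^ 2) ≤ 1 / 240000 :=
        num_aux (by norm_num) hCa (by linarith only [hCQ])
      have a2 : Ca * (18 * (400 / (K2 : ℝ))) ≤ 1 / 240000 := by
        have e : Ca * (18 * (400 / (K2 : ℝ))) = (7200 * Ca) / K2 := by ring
        rw [e, div_le_div_iff₀ hK2pos (by norm_num)]
        linarith only [hK2, hCa]
      have a3 : Ca * (3 / (S.q : ℝ) ^ 2) ≤ 1 / 240000 :=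
        num_aux (by norm_num) hCa (by linarith only [ht0, hqt])
      linarith only [a1, a2, a3]
    · rw [hSK2]
      linarith only [hK2, hCa]
  obtain ⟨m, hm⟩ := hslopes S
  obtain ⟨Y, hY1, hY2⟩ := S.exists_convex hm hgood
  refine ⟨o, Y, 170000 * S.CQ * S.K2 * S.q ^ 36, hY1, hY2, ?_⟩
  push_cast
  rw [hq, hSCQ, hSK2]
  have e1 : ((2 : ℝ) ^ (s + 1 + t0)) ^ 36 = 2 ^ (36 * (t0 + 1)) * 2 ^ (36 * s) := by
    rw [← pow_mul, ← pow_add]
    congr 1
    ring
  rw [e1]
  have e2 : (2 : ℝ) ^ (36 * s) ≤ (n : ℝ) ^ (3 / 2 : ℝ) := by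
    have h1 : (2 : ℝ) ^ (36 * s) = ((2 : ℝ) ^ (24 * s)) ^ (3 / 2 : ℝ) := by
      rw [← Real.rpow_natCast, ← Real.rpow_natCast, ← Real.rpow_mul (by norm_num)]
      congr 1
      push_cast
      ring
    rw [h1]
    apply Real.rpow_le_rpow (by positivity) _ (by norm_num)
    exact_mod_cast hlog2
  calc 170000 * (CQ : ℝ) * K2 * (2 ^ (36 * (t0 + 1)) * 2 ^ (36 * s)) =
      170000 * CQ * K2 * 2 ^ (36 * (t0 + 1)) * 2 ^ (36 * s) := by ring
    _ ≤ _ := mul_le_mul_of_nonneg_left e2 (by positivity)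

/-- a drawing on a grid is a drawing on every larger grid -/
lemma IsDrawing.mono {V : Type} {G : SimpleGraph V} {L L' : ℕ} {pos : V → ℤ × ℤ}
    (h : IsDrawing G L pos) (hL : L ≤ L') : IsDrawing G L' pos := by
  refine ⟨fun v => ?_, h.inj, h.cross, h.bounded, h.unbounded⟩
  obtain ⟨⟨h1, h2⟩, h3, h4⟩ := h.grid v
  have : (L : ℤ) ≤ L' := by exact_mod_cast hL
  exact ⟨⟨h1, h2.trans this⟩, h3, h4.trans this⟩

/-- **Main theorem.** -/
theorem exists_drawing : ∃ (C : ℝ), 0 < C ∧ ∀ (n : ℕ) (G : SimpleGraph (Fin n)), IsPlanarMap G →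
    IsThreeConn G → ∃ pos : Fin n → ℤ × ℤ, IsDrawing G ⌊C * (n : ℝ) ^ (3 / 2 : ℝ)⌋₊ pos := by
  obtain ⟨C, hC, h⟩ := exists_drawing_map
  refine ⟨C, hC, ?_⟩
  intro n G hp h3
  obtain ⟨F, D, _, _, M, H, h1, h2⟩ := exists_pmap G hp h3
  obtain ⟨o, Y, B, hY, hB, hBC⟩ := h M H
  obtain ⟨pos, hpos⟩ := isDrawing_of_convex G M H o h1 h2 Y hY B hB
  refine ⟨pos, hpos.mono ?_⟩
  rw [Fintype.card_fin] at hBC
  exact Nat.le_floor hBC

end P8ffccf

end
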