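import Pool.Agent.Lib.P8ffccf.LabFacts
import Pool.Agent.Lib.P8ffccf.Geo
import Pool.Agent.Lib.P8ffccf.Forest

/-! # Flows on a Schnyder labelling: definitions -/

set_option linter.unusedVariables false
set_option linter.unusedSectionVars false

noncomputable section

namespace P8ffccf

open Classical Finset

variable {V F D : Type} [Fintype V] [Fintype F] [Fintype D]

/-- The `ℓ¹` norm of a plane vector. -/
def nm (p : ℝ × ℝ) : ℝ := |p.1| + |p.2|

namespace PMap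

variable {M : PMap V F D} {o : F}

/-- The children of the face `f` in colour `k`. -/
def Lab.kids (L : Lab M o) (k : ZMod 3) (f : F) : Finset F :=
  univ.filter fun c => L.par k c = f ∧ c ≠ o

/-- The vector attached to a special dart. -/
def Lab.pv (L : Lab M o) (m Lam : ZMod 3 → F → ℝ) (d : D) : ℝ × ℝ :=
  if M.fc d ≠ o ∧ ¬ L.cF d then
    vec (L.l d + 2) (Lam (L.l d + 2) (M.fc d)) (m (L.l d + 2) (M.fc d)) else 0

/-- The edge vector of a dart. -/
def Lab.om (L : Lab M o) (m Lam : ZMod 3 → F → ℝ) (d : D) : ℝ × ℝ :=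
  L.pv m Lam (M.rev d) - L.pv m Lam d

/-- A flow: `m` are the slopes, `Lam` the lengths of the vectors. -/
structure Lab.Flow (L : Lab M o) (m Lam : ZMod 3 → F → ℝ) (N : ℝ) : Prop where
  small : ∀ k f, |m k f| ≤ 1 / 1000
  nonneg : ∀ k f, 0 ≤ Lam k f
  closure : ∀ f, f ≠ o → ∑ k, vec k (Lam k f) (m k f) =
    ∑ k, ∑ c ∈ L.kids k f, vec k (Lam k c) (m k c)
  lower : ∀ f, f ≠ o → ∀ k, N + 80 * ∑ j, ∑ c ∈ L.kids j f, |m j c - m j f| * Lam j c ≤
    Lam k f - ∑ c ∈ L.kids k f, Lam k c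

/-- The gap condition for the rounded edge vectors `W` at the corners between two child darts. -/
structure Lab.Gap (L : Lab M o) (m Lam : ZMod 3 → F → ℝ) (W : D → ℝ × ℝ) : Prop where
  le : ∀ k d, M.fc d ≠ o → L.Ch k d → L.Ch k (M.nxt d) → L.l (M.nxt d) = k →
    m k (M.fc (M.rev d)) ≤ m k (M.fc (M.rev (M.nxt d)))
  left : ∀ k d, M.fc d ≠ o → L.Ch k d → L.Ch k (M.nxt d) → L.l (M.nxt d) = k → L.cF d →
    (∃ t, 0 < t ∧ W d = vec k t (m k (M.fc (M.rev d)))) ∨
    8 * nm (W d - L.om m Lam d) ≤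
      (m k (M.fc (M.rev (M.nxt d))) - m k (M.fc (M.rev d))) * Lam k (M.fc (M.rev d))
  right : ∀ k d, M.fc d ≠ o → L.Ch k d → L.Ch k (M.nxt d) → L.l (M.nxt d) = k → L.cF (M.nxt d) →
    (∃ t, 0 < t ∧ W (M.nxt d) = vec k t (m k (M.fc (M.rev (M.nxt d))))) ∨
    8 * nm (W (M.nxt d) - L.om m Lam (M.nxt d)) ≤
      (m k (M.fc (M.rev (M.nxt d))) - m k (M.fc (M.rev d))) * Lam k (M.fc (M.rev (M.nxt d)))
  lt : ∀ k d, M.fc d ≠ o → L.Ch k d → L.Ch k (M.nxt d) → L.l (M.nxt d) = k → L.cF d →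
    L.cF (M.nxt d) → m k (M.fc (M.rev d)) < m k (M.fc (M.rev (M.nxt d)))

/-- Vertices of the face `f` owned by another face of degree at least `K`. -/
def fgn (M : PMap V F D) (own : V → F) (K : ℕ) (f : F) : Finset V :=
  univ.filter fun v => (∃ d, M.vt d = v ∧ M.fc d = f) ∧ own v ≠ f ∧ K ≤ M.dg (own v)

end PMap

end P8ffccf

end
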