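import Pool.Agent.Lib.P8ffccf.Main
import Pool.Agent.Lib.P8ffccf.LowWheel
import Pool.Agent.Lib.P8ffccf.LowHull
import Pool.Agent.Lib.P8ffccf.LowInner
import Pool.Agent.Lib.P8ffccf.LowOuter
import Pool.Agent.Lib.P8ffccf.LowCount

/-! # The order of growth of the grid size -/

noncomputable section

namespace P8ffccf

open Classical Finset

/-- Upper bound, for all vertex types. -/
theorem upper : ∃ (C : ℝ), 0 < C ∧ ∀ n : ℕ, GridOK n ⌊C * (n : ℝ) ^ (3 / 2 : ℝ)⌋₊ := by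
  obtain ⟨C, hC, h⟩ := exists_drawing_map
  refine ⟨C, hC, ?_⟩
  intro n V _ G hcard hp h3
  obtain ⟨F, D, _, _, M, H, h1, h2⟩ := exists_pmap G hp h3
  obtain ⟨o, Y, B, hY, hB, hBC⟩ := h M H
  obtain ⟨pos, hpos⟩ := isDrawing_of_convex G M H o h1 h2 Y hY B hB
  refine ⟨pos, hpos.mono ?_⟩
  rw [hcard] at hBC
  exact Nat.le_floor hBC

/-- Lower bound by the wheel. -/
theorem lower : ∃ (c : ℝ), 0 < c ∧ ∀ n L : ℕ, 4 ≤ n → GridOK n L →
    c * (n : ℝ) ^ (3 / 2 : ℝ) ≤ L := by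
  obtain ⟨c, hc, hcount⟩ := count_bound
  have key : ∀ n L : ℕ, 4 ≤ n → GridOK n L → 1 ≤ L ∧
      ∃ s : ℕ, n ≤ 2 * s + 5 ∧ c * (s : ℝ) ^ (3 / 2 : ℝ) ≤ (L : ℝ) + 1 := by
    intro n L hn hL
    obtain ⟨N, rfl⟩ : ∃ N, n = N + 1 := ⟨n - 1, by omega⟩
    have : NeZero N := ⟨by omega⟩
    have hN : 3 ≤ N := by omega
    obtain ⟨pos, hpos⟩ := hL (Option (ZMod N)) (wheel N)
      (by rw [Fintype.card_option, ZMod.card]) (wheel_planar N hN) (wheel_three N hN)
    have hdeg : ∀ v, ∃ u, (wheel N).Adj v u := by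
      intro v
      cases v with
      | none => exact ⟨some 0, by simp [wheel]⟩
      | some i => exact ⟨none, by simp [wheel]⟩
    obtain ⟨h1, h2, h3⟩ := hull_facts (wheel N) L pos hpos hdeg
    have hS : ∃ S : Finset (ZMod N), N ≤ 2 * S.card + 4 ∧
        Set.InjOn (fun i => pos (some (i + 1)) - pos (some i)) S ∧
        ∑ i ∈ S, (|(pos (some (i + 1)) - pos (some i)).1| +
          |(pos (some (i + 1)) - pos (some i)).2|) ≤ 4 * (L : ℤ) := by
      by_cases hhub : rl (pos none) ∈ interior (convexHull ℝ (Set.range fun v => rl (pos v)))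
      · exact rim_outer N hN L pos hpos h1 h2 hhub
      · exact rim_inner N hN L pos hpos h2 h3 hhub
    obtain ⟨S, hS1, hS2, hS3⟩ := hS
    refine ⟨?_, S.card, by omega, ?_⟩
    · by_contra hL0
      have hL0 : L = 0 := by omega
      have h0 := hpos.grid none
      have h1 := hpos.grid (some 0)
      rw [hL0] at h0 h1
      have : pos none = pos (some 0) := by
        ext
        · have := h0.1; have := h1.1; push_cast at *; omega
        · have := h0.2; have := h1.2; push_cast at *; omega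
      exact absurd (hpos.inj this) (by simp)
    · have := hcount (S.image fun i => pos (some (i + 1)) - pos (some i)) L (by
        rw [Finset.sum_image (fun a ha b hb hab => hS2 ha hb hab)]
        exact hS3)
      rwa [Finset.card_image_of_injOn hS2] at this
  -- numerics
  refine ⟨min (c / 16) (1 / 1000), by positivity, ?_⟩
  intro n L hn hL
  obtain ⟨hL1, s, hs, hcs⟩ := key n L hn hL
  have hL1' : (1 : ℝ) ≤ L := by exact_mod_cast hL1
  have hn0 : (0 : ℝ) ≤ n := by positivity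
  by_cases h10 : n ≤ 10
  · -- small n
    have h1 : (n : ℝ) ^ (3 / 2 : ℝ) ≤ 1000 := by
      calc (n : ℝ) ^ (3 / 2 : ℝ) ≤ (10 : ℝ) ^ (3 / 2 : ℝ) :=
            Real.rpow_le_rpow hn0 (by exact_mod_cast h10) (by norm_num)
        _ ≤ (10 : ℝ) ^ (3 : ℝ) := Real.rpow_le_rpow_of_exponent_le (by norm_num) (by norm_num)
        _ = 1000 := by norm_num
    calc min (c / 16) (1 / 1000) * (n : ℝ) ^ (3 / 2 : ℝ) ≤ (1 / 1000) * 1000 :=
          mul_le_mul (min_le_right _ _) h1 (by positivity) (by norm_num)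
      _ = 1 := by norm_num
      _ ≤ L := hL1'
  · -- large n
    push Not at h10
    have h4 : (n : ℝ) ≤ 4 * s := by
      have : n ≤ 4 * s := by omega
      exact_mod_cast this
    have h1 : (n : ℝ) ^ (3 / 2 : ℝ) ≤ 8 * (s : ℝ) ^ (3 / 2 : ℝ) := by
      calc (n : ℝ) ^ (3 / 2 : ℝ) ≤ (4 * (s : ℝ)) ^ (3 / 2 : ℝ) :=
            Real.rpow_le_rpow hn0 h4 (by norm_num)
        _ = (4 : ℝ) ^ (3 / 2 : ℝ) * (s : ℝ) ^ (3 / 2 : ℝ) :=
            Real.mul_rpow (by norm_num) (by positivity)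
        _ = 8 * (s : ℝ) ^ (3 / 2 : ℝ) := by
            congr 1
            rw [show (4 : ℝ) = 2 ^ (2 : ℝ) by norm_num, ← Real.rpow_mul (by norm_num)]
            norm_num
    have h2 : 0 ≤ (s : ℝ) ^ (3 / 2 : ℝ) := by positivity
    calc min (c / 16) (1 / 1000) * (n : ℝ) ^ (3 / 2 : ℝ) ≤
        (c / 16) * (8 * (s : ℝ) ^ (3 / 2 : ℝ)) :=
          mul_le_mul (min_le_left _ _) h1 (by positivity) (by positivity)
      _ = (c * (s : ℝ) ^ (3 / 2 : ℝ)) / 2 := by ring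
      _ ≤ ((L : ℝ) + 1) / 2 := by linarith
      _ ≤ L := by linarith

/-- **The order of growth.** -/
theorem theta : ∃ (L : ℕ → ℕ) (c C : ℝ), 0 < c ∧ 0 < C ∧ ∀ n : ℕ, 4 ≤ n →
    IsLeast {k : ℕ | GridOK n k} (L n) ∧ c * (n : ℝ) ^ (3 / 2 : ℝ) ≤ L n ∧
      (L n : ℝ) ≤ C * (n : ℝ) ^ (3 / 2 : ℝ) := by
  obtain ⟨C, hC, hup⟩ := upper
  obtain ⟨c, hc, hlow⟩ := lower
  refine ⟨fun n => Nat.find ⟨_, hup n⟩, c, C, hc, hC, ?_⟩
  intro n hn
  have h1 : GridOK n (Nat.find ⟨_, hup n⟩) := Nat.find_spec ⟨_, hup n⟩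
  refine ⟨⟨h1, fun k hk => Nat.find_min' _ hk⟩, hlow n _ hn h1, ?_⟩
  have h2 : Nat.find ⟨_, hup n⟩ ≤ ⌊C * (n : ℝ) ^ (3 / 2 : ℝ)⌋₊ := Nat.find_min' _ (hup n)
  exact (Nat.cast_le.mpr h2).trans (Nat.floor_le (by positivity))

end P8ffccf

end
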