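import Pool.Agent.Lib.P8ffccf.Map

/-! # Facts about 3-connected planar maps -/

set_option linter.unusedSimpArgs false
set_option linter.unusedVariables false
set_option linter.unusedSectionVars false
set_option linter.style.longLine false

noncomputable section

namespace P8ffccf

open Classical Finset

variable {V F D : Type} [Fintype V] [Fintype F] [Fintype D]

namespace PMap

/-- The underlying graph is simple and 3-connected. -/
structure Three (M : PMap V F D) : Prop where
  loop : ∀ d, M.vt (M.rev d) ≠ M.vt d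
  simple : ∀ d d', M.vt d = M.vt d' → M.vt (M.rev d) = M.vt (M.rev d') → d = d'
  card : 4 ≤ Fintype.card V
  conn : ∀ a b : V, ∀ S : Set V, S.Nonempty → a ∉ S → b ∉ S →
    (∀ d, M.vt d ∈ S → M.vt (M.rev d) ≠ a → M.vt (M.rev d) ≠ b → M.vt (M.rev d) ∈ S) →
    ∀ x, x ≠ a → x ≠ b → x ∈ S

variable (M : PMap V F D)

lemma iter_face_const {α : Type*} (σ : D → α) (f : F)
    (h : ∀ x, M.fc x = f → σ (M.nxt x) = σ x) (x : D) (hx : M.fc x = f) (k : ℕ) :
    M.fc (M.nxt^[k] x) = f ∧ σ (M.nxt^[k] x) = σ x := by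
  induction k with
  | zero => exact ⟨hx, rfl⟩
  | succ k ih =>
    rw [Function.iterate_succ_apply']
    exact ⟨by rw [M.fc_nxt]; exact ih.1, by rw [h _ ih.1]; exact ih.2⟩

lemma face_const {α : Type*} (σ : D → α) (f : F)
    (h : ∀ x, M.fc x = f → σ (M.nxt x) = σ x) (x y : D) (hx : M.fc x = f) (hy : M.fc y = f) :
    σ x = σ y := by
  obtain ⟨k, hk⟩ := M.fc_trans x y (hx.trans hy.symm)
  rw [← hk]
  exact (M.iter_face_const σ f h x hx k).2.symm

lemma vert_const {α : Type*} (σ : D → α) (v : V)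
    (h : ∀ x, M.vt x = v → σ (M.nxt (M.rev x)) = σ x) (x y : D) (hx : M.vt x = v)
    (hy : M.vt y = v) : σ x = σ y :=
  M.dual.face_const σ v h x y hx hy

/-- An even set of corners is the boundary of a set of edges. -/
lemma exists_sigma (z : D → ZMod 2) (hv : ∀ v, ∑ d with M.vt d = v, z d = 0)
    (hf : ∀ f, ∑ d with M.fc d = f, z d = 0) :
    ∃ σ : D → ZMod 2, (∀ d, σ (M.rev d) = σ d) ∧ (∀ d, σ (M.nxt d) = σ d + z (M.nxt d)) ∧
      (∀ d, σ (M.nxt (M.rev d)) = σ d + z (M.nxt (M.rev d))) := by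
  have two : ∀ a : ZMod 2, a + a = 0 := by decide
  obtain ⟨σ, h1, h2⟩ := M.exists_label (fun d => z (M.nxt d)) (fun d => z (M.nxt (M.rev d)))
    (fun f => by rw [M.sum_nxt]; exact hf f) (fun v => by rw [M.sum_rot]; exact hv v)
    (fun d => by
      simp only [M.rev_rev]
      have a := two (z (M.nxt d))
      have b := two (z (M.nxt (M.rev d)))
      linear_combination a + b)
  have hrev : ∀ d, σ (M.rev d) = σ d := by
    intro d
    have a := h1 (M.rev d)
    have b := h2 d
    have c := two (z (M.nxt (M.rev d)))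
    rw [a] at b
    rw [b]
    linear_combination -c
  refine ⟨σ, hrev, h1, fun d => ?_⟩
  rw [h1, hrev]

variable {M}

namespace Three

variable (H : M.Three)
include H

lemma rot_rot_ne (d : D) : M.nxt (M.rev (M.nxt (M.rev d))) ≠ d := by
  intro h
  set a := M.vt (M.rev d)
  set b := M.vt (M.rev (M.nxt (M.rev d)))
  have hall : ∀ x, M.vt x = M.vt d → x = d ∨ x = M.nxt (M.rev d) := by
    intro x hx
    obtain ⟨k, hk⟩ := M.vt_trans d x hx.symm
    rw [← hk]
    clear hk
    induction k with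
    | zero => exact Or.inl rfl
    | succ k ih =>
      rw [Function.iterate_succ_apply']
      rcases ih with ih | ih
      · rw [ih]; exact Or.inr rfl
      · rw [ih]; exact Or.inl h
  have hvb : M.vt (M.nxt (M.rev d)) = M.vt d := by rw [M.vt_nxt, M.rev_rev]
  have ha : M.vt d ≠ a := (H.loop d).symm
  have hb : M.vt d ≠ b := by rw [← hvb]; exact (H.loop _).symm
  have key := H.conn a b {M.vt d} ⟨_, rfl⟩ (fun h => ha h.symm) (fun h => hb h.symm) (by
    intro x hx h1 h2
    exfalso
    rcases hall x hx with h | h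
    · rw [h] at h1; exact h1 rfl
    · rw [h] at h2; exact h2 rfl)
  have hsub : (Finset.univ : Finset V) ⊆ {a, b, M.vt d} := by
    intro x _
    by_cases h1 : x = a
    · simp [h1]
    by_cases h2 : x = b
    · simp [h2]
    have := key x h1 h2
    simp only [Set.mem_singleton_iff] at this
    simp [this]
  have h3 : Fintype.card V ≤ 3 := (Finset.card_le_card hsub).trans (Finset.card_le_three)
  have := H.card
  omega

lemma rot_ne (d : D) : M.nxt (M.rev d) ≠ d := by
  intro h
  apply H.rot_rot_ne d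
  rw [h, h]

/-- A face visits a vertex at most once. -/
lemma corner_unique {d d' : D} (hv : M.vt d = M.vt d') (hf : M.fc d = M.fc d') : d = d' := by
  by_contra hne
  set v := M.vt d with hvdef
  set f := M.fc d with hfdef
  let z : D → ZMod 2 := fun x => if x = d ∨ x = d' then 1 else 0
  have hsum : ∀ s : Finset D, (d ∈ s ↔ d' ∈ s) → ∑ x ∈ s, z x = 0 := by
    intro s hs
    by_cases hd : d ∈ s
    · have hd' := hs.mp hd
      have : ∑ x ∈ s, z x = ∑ x ∈ ({d, d'} : Finset D), z x := by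
        symm
        apply Finset.sum_subset
        · intro x hx
          simp only [Finset.mem_insert, Finset.mem_singleton] at hx
          rcases hx with rfl | rfl <;> assumption
        · intro x _ hx
          simp only [Finset.mem_insert, Finset.mem_singleton] at hx
          simp only [z, if_neg hx]
      rw [this, Finset.sum_pair hne]
      simp only [z, true_or, or_true, if_true]
      decide
    · have hd' : d' ∉ s := fun h => hd (hs.mpr h)
      apply Finset.sum_eq_zero
      intro x hx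
      simp only [z]
      rw [if_neg]
      rintro (rfl | rfl)
      · exact hd hx
      · exact hd' hx
  obtain ⟨σ, hrev, hn, hr⟩ := M.exists_sigma z (by
      intro w
      apply hsum
      simp [← hvdef, hv]) (by
      intro w
      apply hsum
      simp [← hfdef, hf])
  have hmono : ∀ w, w ≠ v → ∀ x y, M.vt x = w → M.vt y = w → σ x = σ y := by
    intro w hw x y hx hy
    apply M.vert_const σ w _ x y hx hy
    intro t ht
    rw [hr]
    have : z (M.nxt (M.rev t)) = 0 := by
      simp only [z]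
      rw [if_neg]
      have hvt : M.vt (M.nxt (M.rev t)) = w := by rw [M.vt_nxt, M.rev_rev, ht]
      rintro (h | h)
      · rw [h] at hvt; exact hw hvt.symm
      · rw [h] at hvt; exact hw (by rw [← hvt, hv])
    rw [this, add_zero]
  -- both colours at `v`
  have hd0 : M.nxt (M.rev (M.rot.symm d)) = d := M.rot.apply_symm_apply d
  have hvd0 : M.vt (M.rot.symm d) = v := by
    have := M.vt_rot (M.rot.symm d)
    rw [Equiv.apply_symm_apply] at this
    rw [← this]
  have hcol : σ d = σ (M.rot.symm d) + 1 := by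
    have := hr (M.rot.symm d)
    rw [hd0] at this
    rw [this]
    simp [z]
  -- a dart at `v` of each colour
  have hex : ∀ c : ZMod 2, ∃ x, M.vt x = v ∧ σ x = c := by
    intro c
    have h01 : ∀ a b : ZMod 2, a = b + 1 → ∀ c, c = a ∨ c = b := by decide
    rcases h01 _ _ hcol c with h | h
    · exact ⟨d, rfl, h.symm⟩
    · exact ⟨_, hvd0, h.symm⟩
  obtain ⟨x, hx, hx0⟩ := hex 0
  obtain ⟨y, hy, hy1⟩ := hex 1
  have hkey := H.conn v v {w | w ≠ v ∧ ∀ t, M.vt t = w → σ t = 0}
    ⟨M.vt (M.rev x), by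
      refine ⟨by rw [← hx]; exact H.loop x, fun t ht => ?_⟩
      rw [hmono (M.vt (M.rev x)) (by rw [← hx]; exact H.loop x) t (M.rev x) ht rfl, hrev, hx0]⟩
    (fun h => h.1 rfl) (fun h => h.1 rfl) (by
      rintro t ⟨h1, h2⟩ h3 _
      refine ⟨h3, fun s hs => ?_⟩
      rw [hmono _ h3 s (M.rev t) hs rfl, hrev]
      exact h2 t rfl) (M.vt (M.rev y)) (by rw [← hy]; exact H.loop y)
        (by rw [← hy]; exact H.loop y)
  have := hkey.2 (M.rev y) rfl
  rw [hrev, hy1] at this
  exact one_ne_zero this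

lemma fc_rev_ne (d : D) : M.fc (M.rev d) ≠ M.fc d := by
  intro h
  apply H.rot_ne d
  apply H.corner_unique
  · rw [M.vt_nxt, M.rev_rev]
  · rw [M.fc_nxt, h]

/-- Two vertices on two common faces are joined by an edge between these faces. -/
lemma two_faces {u v : V} (huv : u ≠ v) {du du' dv dv' : D} (h1 : M.vt du = u)
    (h1' : M.vt du' = u) (h2 : M.vt dv = v) (h2' : M.vt dv' = v) (hf : M.fc du = M.fc dv)
    (hg : M.fc du' = M.fc dv') (hfg : M.fc du ≠ M.fc du') :
    ∃ x, M.vt x = u ∧ M.vt (M.rev x) = v ∧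
      ((du = x ∧ du' = M.nxt (M.rev x)) ∨ (du' = x ∧ du = M.nxt (M.rev x))) := by
  have n1 : du ≠ du' := fun h => hfg (by rw [h])
  have n2 : dv ≠ dv' := fun h => hfg (by rw [hf, hg, h])
  have n3 : du ≠ dv := fun h => huv (by rw [← h1, ← h2, h])
  have n4 : du ≠ dv' := fun h => huv (by rw [← h1, ← h2', h])
  have n5 : du' ≠ dv := fun h => huv (by rw [← h1', ← h2, h])
  have n6 : du' ≠ dv' := fun h => huv (by rw [← h1', ← h2', h])
  let i : D → D → ZMod 2 := fun a x => if x = a then 1 else 0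
  let z : D → ZMod 2 := fun x => i du x + i du' x + i dv x + i dv' x
  have hi : ∀ a (s : Finset D), ∑ x ∈ s, i a x = if a ∈ s then 1 else 0 := by
    intro a s
    simp only [i, Finset.sum_ite_eq']
  have hz : ∀ s : Finset D, ∑ x ∈ s, z x = (if du ∈ s then 1 else 0) + (if du' ∈ s then 1 else 0)
      + (if dv ∈ s then 1 else 0) + (if dv' ∈ s then (1 : ZMod 2) else 0) := by
    intro s
    simp only [z, Finset.sum_add_distrib, hi]
  obtain ⟨σ, hrev, hn, hr⟩ := M.exists_sigma z (by
      intro w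
      rw [hz]
      simp only [Finset.mem_filter, Finset.mem_univ, true_and, h1, h1', h2, h2']
      by_cases a : u = w <;> by_cases b : v = w <;> simp only [a, b, if_true, if_false] <;> decide)
    (by
      intro w
      rw [hz]
      simp only [Finset.mem_filter, Finset.mem_univ, true_and, hf, hg]
      by_cases a : M.fc dv = w <;> by_cases b : M.fc dv' = w <;>
        simp only [a, b, if_true, if_false] <;> decide)
  have hz0 : ∀ x, M.vt x ≠ u → M.vt x ≠ v → z x = 0 := by
    intro x a b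
    have e1 : x ≠ du := fun h => a (by rw [h, h1])
    have e2 : x ≠ du' := fun h => a (by rw [h, h1'])
    have e3 : x ≠ dv := fun h => b (by rw [h, h2])
    have e4 : x ≠ dv' := fun h => b (by rw [h, h2'])
    simp [z, i, e1, e2, e3, e4]
  have hmono : ∀ w, w ≠ u → w ≠ v → ∀ x y, M.vt x = w → M.vt y = w → σ x = σ y := by
    intro w hw hw' x y hx hy
    apply M.vert_const σ w _ x y hx hy
    intro t ht
    have hvt : M.vt (M.nxt (M.rev t)) = w := by rw [M.vt_nxt, M.rev_rev, ht]
    rw [hr, hz0 _ (by rw [hvt]; exact hw) (by rw [hvt]; exact hw'), add_zero]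
  -- all other vertices have one colour
  have hc : ∃ c : ZMod 2, ∀ x, M.vt x ≠ u → M.vt x ≠ v → σ x = c := by
    by_cases hS : ∃ x, M.vt x ≠ u ∧ M.vt x ≠ v ∧ σ x = 0
    · obtain ⟨x, hx1, hx2, hx3⟩ := hS
      have hkey := H.conn u v {w | (w ≠ u ∧ w ≠ v) ∧ ∀ t, M.vt t = w → σ t = 0}
        ⟨M.vt x, ⟨hx1, hx2⟩, fun t ht => by rw [hmono _ hx1 hx2 t x ht rfl, hx3]⟩
        (fun h => h.1.1 rfl) (fun h => h.1.2 rfl) (by
          rintro t ⟨a, b⟩ c e
          refine ⟨⟨c, e⟩, fun s hs => ?_⟩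
          rw [hmono _ c e s (M.rev t) hs rfl, hrev]
          exact b t rfl)
      exact ⟨0, fun y hy1 hy2 => (hkey (M.vt y) hy1 hy2).2 y rfl⟩
    · refine ⟨1, fun y hy1 hy2 => ?_⟩
      have h01 : ∀ a : ZMod 2, a ≠ 0 → a = 1 := by decide
      exact h01 _ (fun h => hS ⟨y, hy1, hy2, h⟩)
  obtain ⟨c, hc⟩ := hc
  -- darts at `u` with the other colour lead to `v`
  have hother : ∀ x, M.vt x = u → σ x ≠ c → M.vt (M.rev x) = v := by
    intro x hx hne
    by_contra hv
    apply hne
    rw [← hrev]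
    exact hc _ (by rw [← hx]; exact H.loop x) hv
  have hcorner : ∀ y, M.vt y = u → z y = 1 → ∃ x, M.vt x = u ∧ M.vt (M.rev x) = v ∧
      (y = x ∨ y = M.nxt (M.rev x)) := by
    intro y hy hzy
    set y' := M.rot.symm y with hy'
    have e : M.nxt (M.rev y') = y := M.rot.apply_symm_apply y
    have hvy : M.vt y' = u := by
      have := M.vt_rot y'
      rw [M.rot_apply, e] at this
      rw [← this, hy]
    have hcol := hr y'
    rw [e, hzy] at hcol
    have h01 : ∀ a b c : ZMod 2, a = b + 1 → a ≠ c ∨ b ≠ c := by decide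
    rcases h01 _ _ c hcol with h | h
    · exact ⟨y, hy, hother y hy h, Or.inl rfl⟩
    · exact ⟨y', hvy, hother y' hvy h, Or.inr e.symm⟩
  have z1 : z du = 1 := by
    simp only [z, i, if_true, if_neg n1, if_neg n3, if_neg n4, add_zero]
  have z2 : z du' = 1 := by
    simp only [z, i, if_true, if_neg n1.symm, if_neg n5, if_neg n6, add_zero, zero_add]
  obtain ⟨x, hx1, hx2, hx3⟩ := hcorner du h1 z1
  obtain ⟨x', hx1', hx2', hx3'⟩ := hcorner du' h1' z2
  have hxx : x' = x := H.simple _ _ (by rw [hx1, hx1']) (by rw [hx2, hx2'])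
  rw [hxx] at hx3'
  refine ⟨x, hx1, hx2, ?_⟩
  rcases hx3 with a | a <;> rcases hx3' with b | b
  · exact absurd (a.trans b.symm) n1
  · exact Or.inl ⟨a, b⟩
  · exact Or.inr ⟨b, a⟩
  · exact absurd (a.trans b.symm) n1

lemma edge_face_unique {x y : D} (hv : M.vt x = M.vt y) (h1 : M.fc x = M.fc (M.rev y))
    (h2 : M.fc (M.rev x) = M.fc y) : False := by
  have a : x = M.nxt (M.rev y) := H.corner_unique (by rw [M.vt_nxt, M.rev_rev, hv])
    (by rw [M.fc_nxt, h1])
  have b : M.nxt (M.rev x) = y := H.corner_unique (by rw [M.vt_nxt, M.rev_rev, hv])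
    (by rw [M.fc_nxt, h2])
  apply H.rot_rot_ne y
  rw [← a, b]

/-- Two distinct faces share at most two vertices. -/
lemma three_common {a1 b1 c1 a2 b2 c2 : D} (ha : M.vt a1 = M.vt a2) (hb : M.vt b1 = M.vt b2)
    (hc : M.vt c1 = M.vt c2) (h1 : M.fc a1 = M.fc b1) (h2 : M.fc a1 = M.fc c1)
    (h3 : M.fc a2 = M.fc b2) (h4 : M.fc a2 = M.fc c2) (hne : M.fc a1 ≠ M.fc a2) :
    M.vt a1 = M.vt b1 ∨ M.vt a1 = M.vt c1 ∨ M.vt b1 = M.vt c1 := by
  by_contra hcon
  push Not at hcon
  obtain ⟨n1, n2, n3⟩ := hcon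
  obtain ⟨x, hx1, hx2, hx3⟩ := H.two_faces (du := a1) (du' := a2) (dv := b1) (dv' := b2) n1 rfl
    ha.symm rfl hb.symm h1 h3 hne
  obtain ⟨y, hy1, hy2, hy3⟩ := H.two_faces (du := a1) (du' := a2) (dv := c1) (dv' := c2) n2 rfl
    ha.symm rfl hc.symm h2 h4 hne
  have hxy : x = y := by
    rcases hx3 with ⟨p, q⟩ | ⟨p, q⟩ <;> rcases hy3 with ⟨r, s⟩ | ⟨r, s⟩
    · rw [← p, ← r]
    · exfalso
      -- a1 = x, a2 = rot x, a2 = y, a1 = rot y
      apply H.rot_rot_ne x
      rw [← q, r, ← s, p]
    · exfalso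
      apply H.rot_rot_ne x
      rw [← q, r, ← s, p]
    · rw [← p, ← r]
  rw [hxy] at hx2
  exact n3 (hx2.symm.trans hy2)

/-- The dual is simple. -/
lemma dual_simple {x y : D} (h1 : M.fc x = M.fc y) (h2 : M.fc (M.rev x) = M.fc (M.rev y)) :
    x = y := by
  have hne : M.fc x ≠ M.fc (M.rev x) := (H.fc_rev_ne x).symm
  -- corners
  have e1 : M.vt (M.nxt (M.rev x)) = M.vt x := by rw [M.vt_nxt, M.rev_rev]
  have e2 : M.vt (M.nxt (M.rev y)) = M.vt y := by rw [M.vt_nxt, M.rev_rev]
  have e3 : M.vt (M.nxt x) = M.vt (M.rev x) := M.vt_nxt x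
  have e4 : M.vt (M.nxt y) = M.vt (M.rev y) := M.vt_nxt y
  have lx := H.loop x
  have ly := H.loop y
  -- the three vertices vt x, vt (rev x), vt y
  have key1 := H.three_common (a1 := x) (b1 := M.nxt x) (c1 := y) (a2 := M.nxt (M.rev x))
    (b2 := M.rev x) (c2 := M.nxt (M.rev y)) e1.symm e3 e2.symm (M.fc_nxt x).symm h1
    (by rw [M.fc_nxt]) (by rw [M.fc_nxt, M.fc_nxt, h2]) (by rw [M.fc_nxt]; exact hne)
  have key2 := H.three_common (a1 := x) (b1 := M.nxt x) (c1 := M.nxt y) (a2 := M.nxt (M.rev x))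
    (b2 := M.rev x) (c2 := M.rev y) e1.symm e3 e4 (M.fc_nxt x).symm (by rw [M.fc_nxt, h1])
    (by rw [M.fc_nxt]) (by rw [M.fc_nxt, h2]) (by rw [M.fc_nxt]; exact hne)
  rw [e3] at key1 key2
  rw [e4] at key2
  rcases key1 with h | h | h
  · exact absurd h.symm lx
  · exact H.corner_unique h h1
  · -- vt y = vt (rev x)
    rcases key2 with k | k | k
    · exact absurd k.symm lx
    · have : M.rev x = y := H.simple _ _ h (by rw [M.rev_rev, k])
      exfalso
      rw [← this] at h1
      exact hne h1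
    · exfalso
      apply ly
      rw [← k, h]

lemma nxt_ne (d : D) : M.nxt d ≠ d := by
  intro h
  apply H.loop d
  rw [← M.vt_nxt, h]

lemma nxt_nxt_ne (d : D) : M.nxt (M.nxt d) ≠ d := by
  intro h
  have e : M.nxt d = M.rev d := H.simple _ _ (M.vt_nxt d) (by rw [← M.vt_nxt, h, M.rev_rev])
  apply H.rot_ne (M.rev d)
  rw [M.rev_rev, e]

end Three

/-- The degree of a face. -/
def dg (M : PMap V F D) (f : F) : ℕ := (univ.filter fun d => M.fc d = f).card

/-- The degree of a vertex. -/
def vg (M : PMap V F D) (v : V) : ℕ := (univ.filter fun d => M.vt d = v).card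

lemma sum_dg (M : PMap V F D) : ∑ f, M.dg f = Fintype.card D := by
  unfold dg
  rw [← Finset.card_univ (α := D)]
  exact (Finset.card_eq_sum_card_fiberwise (fun _ _ => Finset.mem_coe.mpr (Finset.mem_univ _))).symm

lemma sum_vg (M : PMap V F D) : ∑ v, M.vg v = Fintype.card D := M.dual.sum_dg

namespace Three

variable (H : M.Three)
include H

lemma three_le_dg (f : F) : 3 ≤ M.dg f := by
  obtain ⟨d, rfl⟩ := M.fc_surj f
  have hsub : ({d, M.nxt d, M.nxt (M.nxt d)} : Finset D) ⊆ univ.filter fun x => M.fc x = M.fc d := by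
    intro x hx
    simp only [Finset.mem_insert, Finset.mem_singleton] at hx
    simp only [Finset.mem_filter, Finset.mem_univ, true_and]
    rcases hx with rfl | rfl | rfl
    · rfl
    · exact M.fc_nxt _
    · rw [M.fc_nxt, M.fc_nxt]
  have h1 := H.nxt_ne d
  have h2 := H.nxt_nxt_ne d
  have h3 := H.nxt_ne (M.nxt d)
  have hc : ({d, M.nxt d, M.nxt (M.nxt d)} : Finset D).card = 3 :=
    Finset.card_eq_three.mpr ⟨_, _, _, h1.symm, h2.symm, h3.symm, rfl⟩
  rw [← hc]
  exact Finset.card_le_card hsub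

lemma three_le_vg (v : V) : 3 ≤ M.vg v := by
  obtain ⟨d, rfl⟩ := M.vt_surj v
  have e : ∀ x, M.vt (M.nxt (M.rev x)) = M.vt x := fun x => by rw [M.vt_nxt, M.rev_rev]
  have hsub : ({d, M.nxt (M.rev d), M.nxt (M.rev (M.nxt (M.rev d)))} : Finset D) ⊆
      univ.filter fun x => M.vt x = M.vt d := by
    intro x hx
    simp only [Finset.mem_insert, Finset.mem_singleton] at hx
    simp only [Finset.mem_filter, Finset.mem_univ, true_and]
    rcases hx with rfl | rfl | rfl
    · rfl
    · exact e _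
    · rw [e, e]
  have h1 := H.rot_ne d
  have h2 := H.rot_rot_ne d
  have h3 := H.rot_ne (M.nxt (M.rev d))
  have hc : ({d, M.nxt (M.rev d), M.nxt (M.rev (M.nxt (M.rev d)))} : Finset D).card = 3 :=
    Finset.card_eq_three.mpr ⟨_, _, _, h1.symm, h2.symm, h3.symm, rfl⟩
  rw [← hc]
  exact Finset.card_le_card hsub

lemma card_D_le : Fintype.card D + 12 ≤ 6 * Fintype.card V := by
  have h1 : 3 * Fintype.card F ≤ Fintype.card D := by
    rw [← M.sum_dg]
    calc 3 * Fintype.card F = ∑ f : F, 3 := by simp [mul_comm]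
      _ ≤ ∑ f, M.dg f := Finset.sum_le_sum fun f _ => H.three_le_dg f
  have h2 := M.euler
  omega

lemma card_F_le : Fintype.card F + 4 ≤ 2 * Fintype.card V := by
  have h1 := H.card_D_le
  have h2 := M.euler
  omega

lemma four_le_F : 4 ≤ Fintype.card F := by
  have h1 : 3 * Fintype.card V ≤ Fintype.card D := by
    rw [← M.sum_vg]
    calc 3 * Fintype.card V = ∑ f : V, 3 := by simp [mul_comm]
      _ ≤ ∑ f, M.vg f := Finset.sum_le_sum fun f _ => H.three_le_vg f
  have h2 := M.euler
  have h3 := H.card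
  omega

/-- There is a face of degree at most five. -/
lemma exists_small_face : ∃ f, M.dg f ≤ 5 := by
  by_contra hcon
  push Not at hcon
  have h1 : 6 * Fintype.card F ≤ Fintype.card D := by
    rw [← M.sum_dg]
    calc 6 * Fintype.card F = ∑ f : F, 6 := by simp [mul_comm]
      _ ≤ ∑ f, M.dg f := Finset.sum_le_sum fun f _ => hcon f
  have h3 : 3 * Fintype.card V ≤ Fintype.card D := by
    rw [← M.sum_vg]
    calc 3 * Fintype.card V = ∑ f : V, 3 := by simp [mul_comm]
      _ ≤ ∑ f, M.vg f := Finset.sum_le_sum fun f _ => H.three_le_vg f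
  have h2 := M.euler
  omega

end Three

end PMap

end P8ffccf

end
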