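import Pool.Agent.Lib.P8ffccf.Geo

/-! # Strictly convex polygons given by a cyclic permutation of the corners -/

set_option linter.unusedSimpArgs false
set_option linter.unusedVariables false
set_option linter.unusedSectionVars false
set_option linter.style.longLine false

noncomputable section

namespace P8ffccf

open Classical Finset

/-- A strictly convex polygon traversed counterclockwise. -/
structure CPoly (ι : Type) [Fintype ι] where
  σ : Equiv.Perm ι
  p : ι → ℝ × ℝ
  tr : ∀ i j, ∃ k : ℕ, (σ^[k]) i = j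
  conv : ∀ i j, j ≠ i → j ≠ σ i → 0 < det (p (σ i) - p i) (p j - p i)
  h1 : ∀ i, σ i ≠ i
  h2 : ∀ i, σ (σ i) ≠ i
  ne : Nonempty ι

namespace CPoly

variable {ι : Type} [Fintype ι] (G : CPoly ι)

/-- edge vector -/
def e (i : ι) : ℝ × ℝ := G.p (G.σ i) - G.p i

/-- linear form of an edge -/
def lf (i : ι) (x : ℝ × ℝ) : ℝ := det (G.e i) (x - G.p i)

/-- open polygon -/
def Op : Set (ℝ × ℝ) := {x | ∀ i, 0 < G.lf i x}

/-- closed polygon -/
def Cl : Set (ℝ × ℝ) := {x | ∀ i, 0 ≤ G.lf i x}

lemma lf_def (i : ι) (x : ℝ × ℝ) :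
    G.lf i x = (G.e i).1 * (x.2 - (G.p i).2) - (G.e i).2 * (x.1 - (G.p i).1) := rfl

lemma e1 (i : ι) : (G.e i).1 = (G.p (G.σ i)).1 - (G.p i).1 := rfl
lemma e2 (i : ι) : (G.e i).2 = (G.p (G.σ i)).2 - (G.p i).2 := rfl

lemma lf_comb (i : ι) (x y : ℝ × ℝ) (a b : ℝ) (h : a + b = 1) :
    G.lf i (a • x + b • y) = a * G.lf i x + b * G.lf i y := by
  simp only [lf_def, Prod.fst_add, Prod.snd_add, Prod.smul_fst, Prod.smul_snd, smul_eq_mul]
  have hb : b = 1 - a := by linarith
  subst hb
  ring

lemma lf_cont (i : ι) : Continuous (G.lf i) := by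
  have : G.lf i = fun x : ℝ × ℝ =>
      (G.e i).1 * (x.2 - (G.p i).2) - (G.e i).2 * (x.1 - (G.p i).1) := rfl
  rw [this]
  fun_prop

lemma lf_self (i : ι) : G.lf i (G.p i) = 0 := by simp [lf_def]

lemma lf_next (i : ι) : G.lf i (G.p (G.σ i)) = 0 := by
  rw [lf_def, e1, e2]; ring

lemma lf_pos (i j : ι) (h : j ≠ i) (h' : j ≠ G.σ i) : 0 < G.lf i (G.p j) := G.conv i j h h'

lemma lf_nonneg (i j : ι) : 0 ≤ G.lf i (G.p j) := by
  by_cases h : j = i
  · rw [h, lf_self]
  · by_cases h' : j = G.σ i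
    · rw [h', lf_next]
    · exact (G.lf_pos i j h h').le

lemma lf_eq_zero (i j : ι) (h : G.lf i (G.p j) = 0) : j = i ∨ j = G.σ i := by
  by_contra hc
  push Not at hc
  exact absurd h (G.lf_pos i j hc.1 hc.2).ne'

lemma turn (i : ι) : 0 < det (G.e i) (G.e (G.σ i)) := by
  have h := G.lf_pos i (G.σ (G.σ i)) (G.h2 i) (fun h => G.h1 _ h)
  rw [lf_def, e1, e2] at h
  simp only [det, e1, e2]
  linarith

lemma turn' (i : ι) : 0 < det (G.e (G.σ.symm i)) (G.e i) := by
  have := G.turn (G.σ.symm i)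
  simpa using this

lemma p_inj : Function.Injective G.p := by
  intro i j hij
  by_contra hne
  by_cases h : j = G.σ i
  · have h3 := G.turn i
    have h4 : G.e i = 0 := by
      unfold e
      rw [← h, hij]; simp
    rw [h4] at h3
    simp [det] at h3
  · have := G.lf_pos i j (Ne.symm hne) h
    rw [← hij, lf_self] at this
    exact lt_irrefl _ this

lemma isOpen_Op : IsOpen G.Op := by
  have : G.Op = ⋂ i, {x | 0 < G.lf i x} := by ext; simp [Op]
  rw [this]
  exact isOpen_iInter_of_finite fun i => isOpen_lt continuous_const (G.lf_cont i)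

lemma isClosed_Cl : IsClosed G.Cl := by
  have : G.Cl = ⋂ i, {x | 0 ≤ G.lf i x} := by ext; simp [Cl]
  rw [this]
  exact isClosed_iInter fun i => isClosed_le continuous_const (G.lf_cont i)

lemma convex_Op : Convex ℝ G.Op := by
  intro x hx y hy a b ha hb hab i
  rw [G.lf_comb i x y a b hab]
  have h1 := hx i
  have h2 := hy i
  rcases ha.eq_or_lt with h | h
  · have : b = 1 := by linarith
    rw [← h, this]; simpa using h2
  · have := mul_pos h h1
    have := mul_nonneg hb h2.le
    linarith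

lemma convex_Cl : Convex ℝ G.Cl := by
  intro x hx y hy a b ha hb hab i
  rw [G.lf_comb i x y a b hab]
  have := mul_nonneg ha (hx i)
  have := mul_nonneg hb (hy i)
  linarith

lemma Op_sub_Cl : G.Op ⊆ G.Cl := fun x hx i => (hx i).le

lemma p_mem (j : ι) : G.p j ∈ G.Cl := fun i => G.lf_nonneg i j

/-- every functional on the closed polygon is bounded by its value at some corner -/
lemma exists_max (a b : ℝ) : ∃ i, ∀ x ∈ G.Cl, a * x.1 + b * x.2 ≤ a * (G.p i).1 + b * (G.p i).2 := by
  have := G.ne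
  obtain ⟨i, hi⟩ := Finite.exists_max (fun i => a * (G.p i).1 + b * (G.p i).2)
  refine ⟨i, fun x hx => ?_⟩
  by_contra hlt
  push Not at hlt
  have ha := hx i
  have hb := hx (G.σ.symm i)
  have hp := G.turn' i
  have ha' := hi (G.σ i)
  have hb' := hi (G.σ.symm i)
  simp only [lf_def, det, e1, e2, Equiv.apply_symm_apply] at *
  set p := G.p i
  set q := G.p (G.σ i)
  set r := G.p (G.σ.symm i)
  -- a*e' * det(e,y) ...
  have id : (a * (p.1 - r.1) + b * (p.2 - r.2)) * ((q.1 - p.1) * (x.2 - p.2) - (q.2 - p.2) * (x.1 - p.1))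
     - (a * (q.1 - p.1) + b * (q.2 - p.2)) * ((p.1 - r.1) * (x.2 - r.2) - (p.2 - r.2) * (x.1 - r.1))
     + (a * (x.1 - p.1) + b * (x.2 - p.2)) * ((p.1 - r.1) * (q.2 - p.2) - (p.2 - r.2) * (q.1 - p.1)) = 0 := by
    ring
  have t1 : 0 ≤ (a * (p.1 - r.1) + b * (p.2 - r.2)) * ((q.1 - p.1) * (x.2 - p.2) - (q.2 - p.2) * (x.1 - p.1)) :=
    mul_nonneg (by linarith) ha
  have t2 : 0 ≤ -(a * (q.1 - p.1) + b * (q.2 - p.2)) * ((p.1 - r.1) * (x.2 - r.2) - (p.2 - r.2) * (x.1 - r.1)) :=
    mul_nonneg (by linarith) hb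
  have t3 : 0 < (a * (x.1 - p.1) + b * (x.2 - p.2)) * ((p.1 - r.1) * (q.2 - p.2) - (p.2 - r.2) * (q.1 - p.1)) :=
    mul_pos (by linarith) hp
  linarith

lemma bounded_Cl : Bornology.IsBounded G.Cl := by
  obtain ⟨i1, h1⟩ := G.exists_max 1 0
  obtain ⟨i2, h2⟩ := G.exists_max (-1) 0
  obtain ⟨i3, h3⟩ := G.exists_max 0 1
  obtain ⟨i4, h4⟩ := G.exists_max 0 (-1)
  apply (Metric.isBounded_Icc ((G.p i2).1, (G.p i4).2) ((G.p i1).1, (G.p i3).2)).subset
  intro x hx
  have := h1 x hx
  have := h2 x hx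
  have := h3 x hx
  have := h4 x hx
  refine ⟨⟨?_, ?_⟩, ⟨?_, ?_⟩⟩ <;> simp only <;> linarith

/-- centroid-type point of the open polygon -/
lemma Op_nonempty : G.Op.Nonempty := by
  have := G.ne
  have hc : (0 : ℝ) < Fintype.card ι := by exact_mod_cast Fintype.card_pos
  refine ⟨∑ j, (1 / (Fintype.card ι : ℝ)) • G.p j, fun i => ?_⟩
  have h1 : G.lf i (∑ j, (1 / (Fintype.card ι : ℝ)) • G.p j) =
      ∑ j, (1 / (Fintype.card ι : ℝ)) * G.lf i (G.p j) := by
    have hs : ∑ _j : ι, (1 / (Fintype.card ι : ℝ)) = 1 := by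
      rw [Finset.sum_const, Finset.card_univ, nsmul_eq_mul]; field_simp
    have e3 : ∀ j, (1 / (Fintype.card ι : ℝ)) * G.lf i (G.p j) =
        (G.e i).1 * ((1 / (Fintype.card ι : ℝ)) * (G.p j).2) -
        (G.e i).2 * ((1 / (Fintype.card ι : ℝ)) * (G.p j).1) -
        ((G.e i).1 * (G.p i).2 - (G.e i).2 * (G.p i).1) * (1 / (Fintype.card ι : ℝ)) := by
      intro j; rw [lf_def]; ring
    have h2 : ∑ j, (1 / (Fintype.card ι : ℝ)) * G.lf i (G.p j) =
        (G.e i).1 * (∑ j, (1 / (Fintype.card ι : ℝ)) * (G.p j).2) -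
        (G.e i).2 * (∑ j, (1 / (Fintype.card ι : ℝ)) * (G.p j).1) -
        ((G.e i).1 * (G.p i).2 - (G.e i).2 * (G.p i).1) := by
      rw [Finset.sum_congr rfl (fun j _ => e3 j), Finset.sum_sub_distrib, Finset.sum_sub_distrib]
      simp only [← Finset.mul_sum, hs, mul_one]
    rw [h2]
    simp only [lf_def, Prod.fst_sum, Prod.snd_sum, Prod.smul_fst, Prod.smul_snd, smul_eq_mul]
    ring
  rw [h1]
  apply Finset.sum_pos' (fun j _ => mul_nonneg (by positivity) (G.lf_nonneg i j))
  refine ⟨G.σ (G.σ i), Finset.mem_univ _, mul_pos (by positivity) (G.lf_pos _ _ (G.h2 i) (fun h => G.h1 _ h))⟩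

lemma Cl_sub_closure : G.Cl ⊆ closure G.Op := by
  intro x hx
  obtain ⟨c, hc⟩ := G.Op_nonempty
  have hlim : Filter.Tendsto (fun s : ℝ => (1 - s) • x + s • c) (nhdsWithin 0 (Set.Ioi 0))
      (nhds x) := by
    have : Filter.Tendsto (fun s : ℝ => (1 - s) • x + s • c) (nhds 0) (nhds ((1 - (0:ℝ)) • x + (0:ℝ) • c)) := by
      apply Continuous.tendsto
      fun_prop
    simp only [sub_zero, one_smul, zero_smul, add_zero] at this
    exact this.mono_left nhdsWithin_le_nhds
  apply mem_closure_of_tendsto hlim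
  have h1 : ∀ᶠ s : ℝ in nhdsWithin 0 (Set.Ioi 0), s < 1 :=
    nhdsWithin_le_nhds (eventually_lt_nhds (by norm_num : (0:ℝ) < 1))
  filter_upwards [self_mem_nhdsWithin, h1] with s hs hs1 i
  rw [G.lf_comb i x c (1 - s) s (by ring)]
  have := mul_nonneg (by linarith : 0 ≤ 1 - s) (hx i)
  have := mul_pos (show 0 < s from hs) (hc i)
  linarith

lemma closure_Op : closure G.Op = G.Cl :=
  Set.Subset.antisymm (closure_minimal G.Op_sub_Cl G.isClosed_Cl) G.Cl_sub_closure

/-- If an open set meets the closed polygon it meets the open polygon. -/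
lemma meets {U : Set (ℝ × ℝ)} (hU : IsOpen U) {x : ℝ × ℝ} (hx : x ∈ U) (hx' : x ∈ G.Cl) :
    (U ∩ G.Op).Nonempty :=
  mem_closure_iff.mp (G.Cl_sub_closure hx') U hU hx

lemma e_ne (i : ι) : G.e i ≠ 0 := by
  intro h
  have := G.turn i
  rw [h] at this
  simp [det] at this

/-- a point of the closed polygon on the line of an edge is on the edge -/
lemma mem_seg (i : ι) (x : ℝ × ℝ) (hx : x ∈ G.Cl) (h : G.lf i x = 0) :
    x ∈ segment ℝ (G.p i) (G.p (G.σ i)) := by
  have ha := hx (G.σ i)
  have hb := hx (G.σ.symm i)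
  have t1 := G.turn i
  have t2 := G.turn' i
  have hs : ∃ s : ℝ, x = G.p i + s • G.e i := by
    have hne := G.e_ne i
    by_cases h1 : (G.e i).1 = 0
    · have h2 : (G.e i).2 ≠ 0 := fun h2 => hne (Prod.ext h1 h2)
      refine ⟨(x.2 - (G.p i).2) / (G.e i).2, ?_⟩
      rw [lf_def, h1] at h
      have h3 : x.1 - (G.p i).1 = 0 := by
        have : (G.e i).2 * (x.1 - (G.p i).1) = 0 := by linarith
        rcases mul_eq_zero.mp this with h4 | h4
        · exact absurd h4 h2
        · exact h4
      ext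
      · simp only [Prod.fst_add, Prod.smul_fst, smul_eq_mul, h1]; linarith
      · simp only [Prod.snd_add, Prod.smul_snd, smul_eq_mul]; field_simp; ring
    · refine ⟨(x.1 - (G.p i).1) / (G.e i).1, ?_⟩
      rw [lf_def] at h
      ext
      · simp only [Prod.fst_add, Prod.smul_fst, smul_eq_mul]; field_simp; ring
      · simp only [Prod.snd_add, Prod.smul_snd, smul_eq_mul]; field_simp; linarith
  obtain ⟨s, rfl⟩ := hs
  have ea : G.lf (G.σ i) (G.p i + s • G.e i) = (1 - s) * det (G.e i) (G.e (G.σ i)) := by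
    simp only [lf_def, det, e1, e2, Prod.fst_add, Prod.smul_fst, smul_eq_mul, Prod.snd_add,
      Prod.smul_snd]
    ring
  have eb : G.lf (G.σ.symm i) (G.p i + s • G.e i) = s * det (G.e (G.σ.symm i)) (G.e i) := by
    simp only [lf_def, det, e1, e2, Prod.fst_add, Prod.smul_fst, smul_eq_mul, Prod.snd_add,
      Prod.smul_snd, Equiv.apply_symm_apply]
    ring
  rw [ea] at ha
  rw [eb] at hb
  have hs1 : s ≤ 1 := by
    by_contra hc
    push Not at hc
    nlinarith
  have hs0 : 0 ≤ s := by
    by_contra hc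
    push Not at hc
    nlinarith
  refine ⟨1 - s, s, by linarith, hs0, by ring, ?_⟩
  have : G.p (G.σ i) = G.p i + G.e i := by unfold e; abel
  rw [this, sub_smul, one_smul, smul_add]
  abel

lemma corner (i : ι) : ∀ᶠ x in nhds (G.p i), ∀ j, j ≠ i → G.σ j ≠ i → 0 < G.lf j x := by
  rw [Filter.eventually_all]
  intro j
  by_cases h1 : j = i
  · exact Filter.Eventually.of_forall fun x h => absurd h1 h
  by_cases h2 : G.σ j = i
  · exact Filter.Eventually.of_forall fun x _ h => absurd h2 h
  have h3 : 0 < G.lf j (G.p i) := G.lf_pos j i (Ne.symm h1) (Ne.symm h2)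
  have := (G.lf_cont j).continuousAt.eventually (eventually_gt_nhds h3)
  filter_upwards [this] with x hx _ _ using hx

/-- near a point of the relative interior of an edge only this edge matters -/
lemma side (i : ι) (s : ℝ) (hs : 0 < s) (hs' : s < 1) :
    ∀ᶠ x in nhds ((1 - s) • G.p i + s • G.p (G.σ i)), ∀ j, j ≠ i → 0 < G.lf j x := by
  rw [Filter.eventually_all]
  intro j
  by_cases h1 : j = i
  · exact Filter.Eventually.of_forall fun x h => absurd h1 h
  have h3 : 0 < G.lf j ((1 - s) • G.p i + s • G.p (G.σ i)) := by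
    rw [G.lf_comb j _ _ _ _ (by ring)]
    have a1 := G.lf_nonneg j i
    have a2 := G.lf_nonneg j (G.σ i)
    have a1' := mul_nonneg (by linarith : 0 ≤ 1 - s) a1
    have a2' := mul_nonneg hs.le a2
    by_cases h2 : G.σ j = i
    · have : 0 < G.lf j (G.p (G.σ i)) := by
        apply G.lf_pos
        · intro h
          rw [← h2] at h
          have h5 : j = G.σ i := by rw [← h2]; exact h.symm
          rw [← h2] at h5
          exact G.h2 j h5.symm
        · intro h; exact h1 (G.σ.injective h).symm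
      have := mul_pos hs this
      linarith
    · have : 0 < G.lf j (G.p i) := G.lf_pos j i (Ne.symm h1) (Ne.symm h2)
      have := mul_pos (by linarith : 0 < 1 - s) this
      linarith
  have := (G.lf_cont j).continuousAt.eventually (eventually_gt_nhds h3)
  filter_upwards [this] with x hx _ using hx

lemma extreme (i : ι) : G.p i ∈ G.Cl.extremePoints ℝ := by
  rw [mem_extremePoints]
  refine ⟨G.p_mem i, ?_⟩
  intro x hx y hy hxy
  obtain ⟨a, b, ha, hb, hab, hp⟩ := hxy
  have key : ∀ j, G.lf j (G.p i) = 0 → G.lf j x = 0 ∧ G.lf j y = 0 := by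
    intro j hj
    rw [← hp, G.lf_comb j x y a b hab] at hj
    have h1 := mul_nonneg ha.le (hx j)
    have h2 := mul_nonneg hb.le (hy j)
    have h3 : a * G.lf j x = 0 := by linarith
    have h4 : b * G.lf j y = 0 := by linarith
    constructor
    · rcases mul_eq_zero.mp h3 with h | h
      · exact absurd h ha.ne'
      · exact h
    · rcases mul_eq_zero.mp h4 with h | h
      · exact absurd h hb.ne'
      · exact h
  have k1 := key i (G.lf_self i)
  have k2 := key (G.σ.symm i) (by
    have := G.lf_next (G.σ.symm i)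
    simpa using this)
  have t := G.turn' i
  have fin : ∀ z, G.lf i z = 0 → G.lf (G.σ.symm i) z = 0 → z = G.p i := by
    intro z h1 h2
    simp only [lf_def, det, e1, e2, Equiv.apply_symm_apply] at *
    set p := G.p i
    set q := G.p (G.σ i)
    set r := G.p (G.σ.symm i)
    have hne := t.ne'
    ext
    · have : ((p.1 - r.1) * (q.2 - p.2) - (p.2 - r.2) * (q.1 - p.1)) * (z.1 - p.1) = 0 := by
        linear_combination (q.1 - p.1) * h2 - (p.1 - r.1) * h1
      rcases mul_eq_zero.mp this with h | h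
      · exact absurd h hne
      · linarith
    · have : ((p.1 - r.1) * (q.2 - p.2) - (p.2 - r.2) * (q.1 - p.1)) * (z.2 - p.2) = 0 := by
        linear_combination (q.2 - p.2) * h2 - (p.2 - r.2) * h1
      rcases mul_eq_zero.mp this with h | h
      · exact absurd h hne
      · linarith
  exact ⟨fin x k1.1 k2.1, fin y k1.2 k2.2⟩

/-- the complement of the closed polygon is connected -/
lemma preconnected_compl : IsPreconnected G.Clᶜ := by
  have hU : G.Clᶜ = ⋃ i, {x | G.lf i x < 0} := by
    ext x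
    simp only [Set.mem_compl_iff, Cl, Set.mem_ofPred_eq, Set.mem_iUnion]
    push Not
    rfl
  rw [hU]
  apply IsPreconnected.iUnion_of_reflTransGen
  · intro i
    apply Convex.isPreconnected
    intro x hx y hy a b ha hb hab
    simp only [Set.mem_ofPred_eq] at hx hy ⊢
    rw [G.lf_comb i x y a b hab]
    rcases ha.eq_or_lt with h | h
    · have : b = 1 := by linarith
      rw [← h, this]; simpa using hy
    · have := mul_neg_of_pos_of_neg h hx
      have := mul_nonneg hb (neg_nonneg.mpr hy.le)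
      linarith
  · intro i j
    obtain ⟨k, hk⟩ := G.tr i j
    rw [← hk]
    clear hk
    induction k with
    | zero => exact Relation.ReflTransGen.refl
    | succ k ih =>
      rw [Function.iterate_succ_apply']
      refine Relation.ReflTransGen.tail ih ?_
      set j := (G.σ^[k]) i
      refine ⟨G.p (G.σ j) + (G.e j - G.e (G.σ j)), ?_, ?_⟩
      · have := G.turn j
        simp only [Set.mem_ofPred_eq, lf_def, det, e1, e2, Prod.fst_add, Prod.snd_add,
          Prod.fst_sub, Prod.snd_sub] at *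
        nlinarith
      · have := G.turn j
        simp only [Set.mem_ofPred_eq, lf_def, det, e1, e2, Prod.fst_add, Prod.snd_add,
          Prod.fst_sub, Prod.snd_sub] at *
        nlinarith

lemma not_bounded_compl : ¬ Bornology.IsBounded G.Clᶜ := by
  intro h
  have h2 : Bornology.IsBounded (Set.univ : Set (ℝ × ℝ)) := by
    rw [← Set.union_compl_self G.Cl]
    exact G.bounded_Cl.union h
  exact NormedSpace.unbounded_univ ℝ (ℝ × ℝ) h2

end CPoly

end P8ffccf
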