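import Pool.Agent.Lib.P8ffccf.TilingA

/-! # Winding numbers of strictly convex polygons by crossings -/

set_option linter.unusedSimpArgs false
set_option linter.unusedVariables false
set_option linter.unusedSectionVars false
set_option linter.style.longLine false

noncomputable section

namespace P8ffccf

open Classical Finset

/-- signed crossing number of the edge `pq` with the horizontal ray from `x` to the right -/
def cr (p q x : ℝ × ℝ) : ℤ :=
  (if p.2 ≤ x.2 ∧ x.2 < q.2 ∧ 0 < det (q - p) (x - p) then 1 else 0) -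
  (if q.2 ≤ x.2 ∧ x.2 < p.2 ∧ 0 < det (p - q) (x - q) then 1 else 0)

lemma cr_anti (p q x : ℝ × ℝ) : cr q p x = - cr p q x := by unfold cr; ring

namespace CPoly

variable {ι : Type} [Fintype ι] (G : CPoly ι)

/-- winding number -/
def wind (x : ℝ × ℝ) : ℤ := ∑ i, cr (G.p i) (G.p (G.σ i)) x

def UU (t : ℝ) : Finset ι := univ.filter fun i => (G.p i).2 ≤ t ∧ t < (G.p (G.σ i)).2
def DD (t : ℝ) : Finset ι := univ.filter fun i => (G.p (G.σ i)).2 ≤ t ∧ t < (G.p i).2

lemma mem_UU (t : ℝ) (i : ι) : i ∈ G.UU t ↔ (G.p i).2 ≤ t ∧ t < (G.p (G.σ i)).2 := by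
  simp [UU]

lemma mem_DD (t : ℝ) (i : ι) : i ∈ G.DD t ↔ (G.p (G.σ i)).2 ≤ t ∧ t < (G.p i).2 := by
  simp [DD]

lemma card_UD (t : ℝ) : (G.UU t).card = (G.DD t).card := by
  have h1 : ∑ i, ((if t < (G.p (G.σ i)).2 then (1 : ℤ) else 0) - (if t < (G.p i).2 then 1 else 0)) = 0 := by
    rw [Finset.sum_sub_distrib, Equiv.sum_comp G.σ (fun i => if t < (G.p i).2 then (1 : ℤ) else 0), sub_self]
  have h2 : ∀ i, ((if t < (G.p (G.σ i)).2 then (1 : ℤ) else 0) - (if t < (G.p i).2 then 1 else 0)) =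
      (if (G.p i).2 ≤ t ∧ t < (G.p (G.σ i)).2 then 1 else 0) -
      (if (G.p (G.σ i)).2 ≤ t ∧ t < (G.p i).2 then 1 else 0) := by
    intro i
    by_cases a : t < (G.p (G.σ i)).2 <;> by_cases b : t < (G.p i).2
    · simp [a, b, not_le.mpr a, not_le.mpr b]
    · simp [a, b, not_le.mpr a, not_lt.mp b]
    · simp [a, b, not_lt.mp a, not_le.mpr b]
    · simp [a, b, not_lt.mp a, not_lt.mp b]
  rw [Finset.sum_congr rfl (fun i _ => h2 i), Finset.sum_sub_distrib, ← Finset.sum_filter,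
    ← Finset.sum_filter] at h1
  simp only [Finset.sum_const, smul_eq_mul, mul_one, nsmul_eq_mul] at h1
  unfold UU DD
  have := sub_eq_zero.mp h1
  exact_mod_cast this

/-- abscissa of the crossing of edge `i` with level `t` -/
def X (i : ι) (t : ℝ) : ℝ := (G.p i).1 + (G.e i).1 * (t - (G.p i).2) / (G.e i).2

lemma lf_X (i : ι) (h : (G.e i).2 ≠ 0) (x : ℝ × ℝ) :
    G.lf i x = (G.e i).2 * (G.X i x.2 - x.1) := by
  rw [lf_def, X]; field_simp; ring

lemma X_mem_U (i : ι) (t : ℝ) (h : i ∈ G.UU t) : 0 < (G.e i).2 ∧ ∃ s : ℝ, 0 ≤ s ∧ s < 1 ∧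
    (G.X i t, t) = (1 - s) • G.p i + s • G.p (G.σ i) := by
  rw [mem_UU] at h
  have he : 0 < (G.e i).2 := by rw [e2]; linarith
  refine ⟨he, (t - (G.p i).2) / (G.e i).2, div_nonneg (by linarith) he.le, ?_, ?_⟩
  · rw [div_lt_one he, e2]; linarith
  · have hne := he.ne'
    ext
    · simp only [Prod.fst_add, Prod.smul_fst, smul_eq_mul, X]
      have : (G.p (G.σ i)).1 = (G.p i).1 + (G.e i).1 := by rw [e1]; ring
      rw [this]; field_simp; ring
    · simp only [Prod.snd_add, Prod.smul_snd, smul_eq_mul]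
      have : (G.p (G.σ i)).2 = (G.p i).2 + (G.e i).2 := by rw [e2]; ring
      rw [this]; field_simp; ring

lemma X_mem_D (i : ι) (t : ℝ) (h : i ∈ G.DD t) : (G.e i).2 < 0 ∧ ∃ s : ℝ, 0 ≤ s ∧ s ≤ 1 ∧
    (G.X i t, t) = (1 - s) • G.p i + s • G.p (G.σ i) := by
  rw [mem_DD] at h
  have he : (G.e i).2 < 0 := by rw [e2]; linarith
  refine ⟨he, (t - (G.p i).2) / (G.e i).2, div_nonneg_of_nonpos (by linarith) he.le, ?_, ?_⟩
  · rw [div_le_one_of_neg he, e2]; linarith
  · have hne := he.ne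
    ext
    · simp only [Prod.fst_add, Prod.smul_fst, smul_eq_mul, X]
      have : (G.p (G.σ i)).1 = (G.p i).1 + (G.e i).1 := by rw [e1]; ring
      rw [this]; field_simp; ring
    · simp only [Prod.snd_add, Prod.smul_snd, smul_eq_mul]
      have : (G.p (G.σ i)).2 = (G.p i).2 + (G.e i).2 := by rw [e2]; ring
      rw [this]; field_simp; ring

lemma X_lt (i j : ι) (t : ℝ) (hi : i ∈ G.UU t) (hj : j ∈ G.UU t) (hij : j ≠ i) :
    G.X j t < G.X i t := by
  obtain ⟨hei, _⟩ := G.X_mem_U i t hi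
  obtain ⟨hej, s, hs, hs1, hX⟩ := G.X_mem_U j t hj
  rw [mem_UU] at hi hj
  have n1 : j ≠ G.σ i := by
    rintro rfl
    linarith [hi.2, hj.1]
  have n2 : G.σ j ≠ i := by
    intro h
    rw [h] at hj
    linarith [hi.1, hj.2]
  have a1 := G.lf_pos i j hij n1
  have a2 := G.lf_pos i (G.σ j) n2 (fun h => hij (G.σ.injective h))
  have a3 : 0 < G.lf i (G.X j t, t) := by
    rw [hX, G.lf_comb i _ _ _ _ (by ring)]
    have := mul_pos (by linarith : 0 < 1 - s) a1
    have := mul_nonneg hs a2.le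
    linarith
  rw [G.lf_X i hei.ne'] at a3
  simp only at a3
  have := (mul_pos_iff_of_pos_left hei).mp a3
  linarith

lemma card_UU (t : ℝ) : (G.UU t).card ≤ 1 := by
  rw [Finset.card_le_one]
  intro i hi j hj
  by_contra hne
  have := G.X_lt i j t hi hj (Ne.symm hne)
  have := G.X_lt j i t hj hi hne
  linarith

lemma X_le (i j : ι) (t : ℝ) (hi : i ∈ G.UU t) (hj : j ∈ G.DD t) : G.X j t ≤ G.X i t := by
  obtain ⟨hei, _⟩ := G.X_mem_U i t hi
  obtain ⟨hej, s, hs, hs1, hX⟩ := G.X_mem_D j t hj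
  have a3 : 0 ≤ G.lf i (G.X j t, t) := by
    rw [hX, G.lf_comb i _ _ _ _ (by ring)]
    have := mul_nonneg (by linarith : 0 ≤ 1 - s) (G.lf_nonneg i j)
    have := mul_nonneg hs (G.lf_nonneg i (G.σ j))
    linarith
  rw [G.lf_X i hei.ne'] at a3
  simp only at a3
  have := nonneg_of_mul_nonneg_right a3 hei
  linarith

lemma wind_expand (x : ℝ × ℝ) : G.wind x =
    (∑ i ∈ G.UU x.2, if x.1 < G.X i x.2 then (1 : ℤ) else 0) -
      ∑ i ∈ G.DD x.2, if x.1 < G.X i x.2 then (1 : ℤ) else 0 := by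
  unfold wind cr
  rw [Finset.sum_sub_distrib]
  congr 1
  · unfold UU
    rw [Finset.sum_filter]
    apply Finset.sum_congr rfl
    intro i _
    by_cases h : (G.p i).2 ≤ x.2 ∧ x.2 < (G.p (G.σ i)).2
    · rw [if_pos h]
      obtain ⟨he, _⟩ := G.X_mem_U i x.2 ((G.mem_UU _ _).mpr h)
      have : det (G.p (G.σ i) - G.p i) (x - G.p i) = G.lf i x := rfl
      rw [this, G.lf_X i he.ne']
      apply if_congr _ rfl rfl
      rw [mul_pos_iff_of_pos_left he, sub_pos]
      tauto
    · rw [if_neg h, if_neg]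
      tauto
  · unfold DD
    rw [Finset.sum_filter]
    apply Finset.sum_congr rfl
    intro i _
    by_cases h : (G.p (G.σ i)).2 ≤ x.2 ∧ x.2 < (G.p i).2
    · rw [if_pos h]
      obtain ⟨he, _⟩ := G.X_mem_D i x.2 ((G.mem_DD _ _).mpr h)
      have : det (G.p i - G.p (G.σ i)) (x - G.p (G.σ i)) = -G.lf i x := by
        simp only [lf_def, det, e1, e2, Prod.fst_sub, Prod.snd_sub]; ring
      rw [this, G.lf_X i he.ne, ← neg_mul]
      apply if_congr _ rfl rfl
      rw [mul_pos_iff_of_pos_left (by linarith), sub_pos]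
      tauto
    · rw [if_neg h, if_neg]
      tauto

lemma wind_cases (x : ℝ × ℝ) : (G.UU x.2 = ∅ ∧ G.wind x = 0) ∨
    ∃ i j, i ∈ G.UU x.2 ∧ j ∈ G.DD x.2 ∧ G.X j x.2 ≤ G.X i x.2 ∧
      G.wind x = if G.X j x.2 ≤ x.1 ∧ x.1 < G.X i x.2 then 1 else 0 := by
  have h1 := G.card_UU x.2
  have h2 := G.card_UD x.2
  rcases Nat.lt_or_ge (G.UU x.2).card 1 with h | h
  · left
    have h3 : (G.UU x.2).card = 0 := by omega
    have h4 : (G.DD x.2).card = 0 := by omega
    rw [Finset.card_eq_zero] at h3 h4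
    refine ⟨h3, ?_⟩
    rw [wind_expand, h3, h4]; simp
  · right
    have h3 : (G.UU x.2).card = 1 := by omega
    have h4 : (G.DD x.2).card = 1 := by omega
    obtain ⟨i, hi⟩ := Finset.card_eq_one.mp h3
    obtain ⟨j, hj⟩ := Finset.card_eq_one.mp h4
    have mi : i ∈ G.UU x.2 := by rw [hi]; simp
    have mj : j ∈ G.DD x.2 := by rw [hj]; simp
    have hle := G.X_le i j _ mi mj
    refine ⟨i, j, mi, mj, hle, ?_⟩
    rw [wind_expand, hi, hj, Finset.sum_singleton, Finset.sum_singleton]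
    by_cases c1 : x.1 < G.X j x.2
    · have c2 : x.1 < G.X i x.2 := lt_of_lt_of_le c1 hle
      rw [if_pos c1, if_pos c2, if_neg (by rintro ⟨h, _⟩; linarith)]; simp
    · rw [if_neg c1]
      by_cases c2 : x.1 < G.X i x.2
      · rw [if_pos c2, if_pos ⟨not_lt.mp c1, c2⟩]; simp
      · rw [if_neg c2, if_neg (by rintro ⟨_, h⟩; exact c2 h)]; simp

lemma wind_01 (x : ℝ × ℝ) : G.wind x = 0 ∨ G.wind x = 1 := by
  rcases G.wind_cases x with h | ⟨i, j, _, _, _, h⟩
  · exact Or.inl h.2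
  · rw [h]; split_ifs <;> simp

lemma mem_Cl_of_wind (x : ℝ × ℝ) (h : G.wind x = 1) : x ∈ G.Cl := by
  rcases G.wind_cases x with h' | ⟨i, j, hi, hj, hle, h'⟩
  · rw [h'.2] at h; simp at h
  · rw [h'] at h
    by_cases c : G.X j x.2 ≤ x.1 ∧ x.1 < G.X i x.2
    · obtain ⟨_, s, hs, hs1, hX⟩ := G.X_mem_U i x.2 hi
      obtain ⟨_, s', hs', hs1', hX'⟩ := G.X_mem_D j x.2 hj
      have m1 : (G.X i x.2, x.2) ∈ G.Cl := by
        rw [hX]; exact G.convex_Cl (G.p_mem i) (G.p_mem _) (by linarith) hs (by ring)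
      have m2 : (G.X j x.2, x.2) ∈ G.Cl := by
        rw [hX']; exact G.convex_Cl (G.p_mem j) (G.p_mem _) (by linarith) hs' (by ring)
      have hpos : 0 < G.X i x.2 - G.X j x.2 := by linarith
      have hx : x = ((G.X i x.2 - x.1) / (G.X i x.2 - G.X j x.2)) • (G.X j x.2, x.2) +
          ((x.1 - G.X j x.2) / (G.X i x.2 - G.X j x.2)) • (G.X i x.2, x.2) := by
        have := hpos.ne'
        ext
        · simp only [Prod.fst_add, Prod.smul_fst, smul_eq_mul]; field_simp; ring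
        · simp only [Prod.snd_add, Prod.smul_snd, smul_eq_mul]; field_simp; ring
      rw [hx]
      apply G.convex_Cl m2 m1
      · apply div_nonneg <;> linarith [c.1, c.2]
      · apply div_nonneg <;> linarith [c.1, c.2]
      · have := hpos.ne'
        field_simp; ring
    · rw [if_neg c] at h; simp at h

lemma wind_of_mem_Op (x : ℝ × ℝ) (h : x ∈ G.Op) : G.wind x = 1 := by
  rcases G.wind_cases x with h' | ⟨i, j, hi, hj, hle, h'⟩
  · exfalso
    have hU := h'.1
    have hD : G.DD x.2 = ∅ := by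
      rw [← Finset.card_eq_zero, ← G.card_UD, hU]; simp
    obtain ⟨i0⟩ := G.ne
    -- all corners on one side
    have hstep : ∀ i, (G.p i).2 ≤ x.2 ↔ (G.p (G.σ i)).2 ≤ x.2 := by
      intro i
      constructor
      · intro h1
        by_contra h2
        have : i ∈ G.UU x.2 := (G.mem_UU _ _).mpr ⟨h1, not_le.mp h2⟩
        rw [hU] at this; simp at this
      · intro h1
        by_contra h2
        have : i ∈ G.DD x.2 := (G.mem_DD _ _).mpr ⟨h1, not_le.mp h2⟩
        rw [hD] at this; simp at this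
    have hall : ∀ j, (G.p i0).2 ≤ x.2 ↔ (G.p j).2 ≤ x.2 := by
      intro j
      obtain ⟨k, hk⟩ := G.tr i0 j
      rw [← hk]
      clear hk
      induction k with
      | zero => rfl
      | succ k ih => rw [Function.iterate_succ_apply', ← hstep]; exact ih
    by_cases c : (G.p i0).2 ≤ x.2
    · -- all below or at level
      obtain ⟨z, hz, hzO⟩ : ∃ z : ℝ × ℝ, x.2 < z.2 ∧ z ∈ G.Op := by
        have hlim : Filter.Tendsto (fun s : ℝ => (x.1, x.2 + s)) (nhdsWithin 0 (Set.Ioi 0)) (nhds x) := by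
          have : Filter.Tendsto (fun s : ℝ => (x.1, x.2 + s)) (nhds 0) (nhds (x.1, x.2 + 0)) := by
            apply Continuous.tendsto; fun_prop
          simp only [add_zero, Prod.mk.eta] at this
          exact this.mono_left nhdsWithin_le_nhds
        have h1 := hlim.eventually (G.isOpen_Op.mem_nhds h)
        obtain ⟨s, hs1, hs2⟩ := (h1.and self_mem_nhdsWithin).exists
        exact ⟨_, by simpa using hs2, hs1⟩
      obtain ⟨i, hi⟩ := G.exists_max 0 1
      have h1 := hi z (G.Op_sub_Cl hzO)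
      have h2 := (hall i).mp c
      simp at h1
      linarith
    · obtain ⟨i, hi⟩ := G.exists_max 0 (-1)
      have h1 := hi x (G.Op_sub_Cl h)
      have h2 : ¬ (G.p i).2 ≤ x.2 := fun h => c ((hall i).mpr h)
      push Not at h2
      simp at h1
      linarith
  · obtain ⟨he, _⟩ := G.X_mem_U i x.2 hi
    obtain ⟨he', _⟩ := G.X_mem_D j x.2 hj
    have a := h i
    have b := h j
    rw [G.lf_X i he.ne'] at a
    rw [G.lf_X j he'.ne] at b
    have a' := (mul_pos_iff_of_pos_left he).mp a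
    have b' : G.X j x.2 - x.1 < 0 := by
      by_contra hc
      push Not at hc
      have := mul_nonneg (neg_nonneg.mpr he'.le) hc
      linarith
    rw [h', if_pos ⟨by linarith, by linarith⟩]

end CPoly

end P8ffccf
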