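import Pool.Agent.Lib.P8ffccf.Drawing

/-! # The wheel -/

noncomputable section

namespace P8ffccf

open Classical Finset

/-- The wheel with hub `none` and rim `ZMod N`. -/
def wheel (N : ℕ) : SimpleGraph (Option (ZMod N)) where
  Adj u v := u ≠ v ∧ (u = none ∨ v = none ∨
    (∃ i : ZMod N, (u = some i ∧ v = some (i + 1)) ∨ (u = some (i + 1) ∧ v = some i)))
  symm := ⟨fun u v h => ⟨h.1.symm, by
    rcases h.2 with h | h | ⟨i, h | h⟩
    · exact Or.inr (Or.inl h)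
    · exact Or.inl h
    · exact Or.inr (Or.inr ⟨i, Or.inr ⟨h.2, h.1⟩⟩)
    · exact Or.inr (Or.inr ⟨i, Or.inl ⟨h.2, h.1⟩⟩)⟩⟩
  loopless := ⟨fun u h => h.1 rfl⟩

end P8ffccf

end
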